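import Pool.Agent.GSP.StmtsA

/-!
A1: every element of `S` and the root have exactly one successor and one predecessor in `P_i`.
-/

set_option autoImplicit false

namespace Pool.GS

open Pool.GOD Pool.GS.SP

namespace A1

variable {Λ : Type}

lemma lt_none_left (k : Λ → ℤ) (b : Option Λ) : lt k none b := by
  intro x y h
  cases h

lemma lt_none_right (k : Λ → ℤ) (a : Option Λ) : lt k a none := by
  intro x y _ h
  cases h

lemma lt_some (k : Λ → ℤ) (x y : Λ) : lt k (some x) (some y) ↔ k x < k y := by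
  constructor
  · intro h
    exact h x y rfl rfl
  · intro h x' y' hx hy
    cases hx
    cases hy
    exact h

variable [Fintype Λ] [DecidableEq Λ] (sp : SP Λ) (i : Bool) (S : Finset Λ)

lemma succ (a : Option Λ) (ha : a ∈ Finset.insertNone S) : ∃! b, sp.Cons i S a b := by
  by_cases hF : (S.filter (fun z => lt (sp.k i) a (some z))).Nonempty
  · obtain ⟨y, hy, hmin⟩ := Finset.exists_min_image _ (sp.k i) hF
    have hyS : y ∈ S := (Finset.mem_filter.mp hy).1
    have hya : lt (sp.k i) a (some y) := (Finset.mem_filter.mp hy).2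
    refine ⟨some y, ⟨ha, Finset.some_mem_insertNone.mpr hyS, hya, ?_⟩, ?_⟩
    · rintro z hz ⟨h1, h2⟩
      have h3 := hmin z (Finset.mem_filter.mpr ⟨hz, h1⟩)
      have h4 := (lt_some _ _ _).mp h2
      omega
    · rintro b ⟨_, hb, hab, hno⟩
      cases b with
      | none => exact absurd ⟨hya, lt_none_right _ _⟩ (hno y hyS)
      | some w =>
        have hwS : w ∈ S := Finset.some_mem_insertNone.mp hb
        have h3 := hmin w (Finset.mem_filter.mpr ⟨hwS, hab⟩)
        have h4 : ¬sp.k i y < sp.k i w := fun h => hno y hyS ⟨hya, (lt_some _ _ _).mpr h⟩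
        have h5 : sp.k i w = sp.k i y := by omega
        rw [sp.inj i h5]
  · have hne : ∀ z ∈ S, ¬lt (sp.k i) a (some z) := by
      intro z hz h
      exact hF ⟨z, Finset.mem_filter.mpr ⟨hz, h⟩⟩
    refine ⟨none, ⟨ha, Finset.none_mem_insertNone, lt_none_right _ _, ?_⟩, ?_⟩
    · rintro z hz ⟨h1, _⟩
      exact hne z hz h1
    · rintro b ⟨_, hb, hab, _⟩
      cases b with
      | none => rfl
      | some w => exact absurd hab (hne w (Finset.some_mem_insertNone.mp hb))

lemma pred (b : Option Λ) (hb : b ∈ Finset.insertNone S) : ∃! a, sp.Cons i S a b := by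
  by_cases hF : (S.filter (fun z => lt (sp.k i) (some z) b)).Nonempty
  · obtain ⟨y, hy, hmax⟩ := Finset.exists_max_image _ (sp.k i) hF
    have hyS : y ∈ S := (Finset.mem_filter.mp hy).1
    have hyb : lt (sp.k i) (some y) b := (Finset.mem_filter.mp hy).2
    refine ⟨some y, ⟨Finset.some_mem_insertNone.mpr hyS, hb, hyb, ?_⟩, ?_⟩
    · rintro z hz ⟨h1, h2⟩
      have h3 := hmax z (Finset.mem_filter.mpr ⟨hz, h2⟩)
      have h4 := (lt_some _ _ _).mp h1
      omega
    · rintro a ⟨ha, _, hab, hno⟩
      cases a with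
      | none => exact absurd ⟨lt_none_left _ _, hyb⟩ (hno y hyS)
      | some w =>
        have hwS : w ∈ S := Finset.some_mem_insertNone.mp ha
        have h3 := hmax w (Finset.mem_filter.mpr ⟨hwS, hab⟩)
        have h4 : ¬sp.k i w < sp.k i y := fun h => hno y hyS ⟨(lt_some _ _ _).mpr h, hyb⟩
        have h5 : sp.k i w = sp.k i y := by omega
        rw [sp.inj i h5]
  · have hne : ∀ z ∈ S, ¬lt (sp.k i) (some z) b := by
      intro z hz h
      exact hF ⟨z, Finset.mem_filter.mpr ⟨hz, h⟩⟩
    refine ⟨none, ⟨Finset.none_mem_insertNone, hb, lt_none_left _ _, ?_⟩, ?_⟩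
    · rintro z hz ⟨_, h2⟩
      exact hne z hz h2
    · rintro a ⟨ha, _, hab, _⟩
      cases a with
      | none => rfl
      | some w => exact absurd hab (hne w (Finset.some_mem_insertNone.mp ha))

end A1

theorem t_A1 : S_A1 := by
  intro Λ _ _ sp i S
  exact ⟨fun a ha => A1.succ sp i S a ha, fun b hb => A1.pred sp i S b hb⟩

end Pool.GS
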