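import Pool.Agent.GSP.StmtsA

/-!
ROAD S, module A2: insertion of a letter.
-/

set_option autoImplicit false

namespace Pool.GS

open Pool.GOD Pool.GS.SP

namespace A2w

variable {Λ : Type}

lemma lt_none_left (k : Λ → ℤ) (b : Option Λ) : lt k none b := by
  intro x y h
  exact absurd h (by simp)

lemma lt_none_right (k : Λ → ℤ) (a : Option Λ) : lt k a none := by
  intro x y _ h
  exact absurd h (by simp)

lemma lt_some (k : Λ → ℤ) (x y : Λ) : lt k (some x) (some y) ↔ k x < k y := by
  constructor
  · intro h
    exact h x y rfl rfl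
  · rintro h _ _ ⟨⟩ ⟨⟩
    exact h

/-- `lt` is transitive through a letter. -/
lemma lt_trans' {k : Λ → ℤ} {a b : Option Λ} {z : Λ} (h1 : lt k a (some z))
    (h2 : lt k (some z) b) : lt k a b := by
  intro x y hx hy
  exact (h1 x z hx rfl).trans (h2 z y rfl hy)

/-- the last element before `u` -/
lemma exists_p [DecidableEq Λ] (k : Λ → ℤ) (S : Finset Λ) (u : Λ) :
    ∃ p ∈ Finset.insertNone S, lt k p (some u) ∧
      ∀ z ∈ S, k z < k u → ¬ lt k p (some z) := by
  rcases (S.filter (fun z => k z < k u)).eq_empty_or_nonempty with h | h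
  · refine ⟨none, by simp, lt_none_left _ _, fun z hz hzu => ?_⟩
    have : z ∈ S.filter (fun z => k z < k u) := Finset.mem_filter.2 ⟨hz, hzu⟩
    rw [h] at this
    exact absurd this (Finset.notMem_empty _)
  · obtain ⟨x, hx, hmax⟩ := Finset.exists_max_image _ k h
    rw [Finset.mem_filter] at hx
    refine ⟨some x, Finset.some_mem_insertNone.2 hx.1, (lt_some _ _ _).2 hx.2,
      fun z hz hzu hlt => ?_⟩
    rw [lt_some] at hlt
    exact absurd (hmax z (Finset.mem_filter.2 ⟨hz, hzu⟩)) (not_le.2 hlt)

/-- the first element after `u` -/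
lemma exists_q [DecidableEq Λ] (k : Λ → ℤ) (S : Finset Λ) (u : Λ) :
    ∃ q ∈ Finset.insertNone S, lt k (some u) q ∧
      ∀ z ∈ S, k u < k z → ¬ lt k (some z) q := by
  rcases (S.filter (fun z => k u < k z)).eq_empty_or_nonempty with h | h
  · refine ⟨none, by simp, lt_none_right _ _, fun z hz hzu => ?_⟩
    have : z ∈ S.filter (fun z => k u < k z) := Finset.mem_filter.2 ⟨hz, hzu⟩
    rw [h] at this
    exact absurd this (Finset.notMem_empty _)
  · obtain ⟨x, hx, hmin⟩ := Finset.exists_min_image _ k h
    rw [Finset.mem_filter] at hx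
    refine ⟨some x, Finset.some_mem_insertNone.2 hx.1, (lt_some _ _ _).2 hx.2,
      fun z hz hzu hlt => ?_⟩
    rw [lt_some] at hlt
    exact absurd (hmin z (Finset.mem_filter.2 ⟨hz, hzu⟩)) (not_le.2 hlt)

/-- the predecessor is unique -/
lemma uniq_p {k : Λ → ℤ} (hk : Function.Injective k) {S : Finset Λ} {u : Λ} {p a b : Option Λ}
    (hp : p ∈ Finset.insertNone S) (hpu : lt k p (some u))
    (hpm : ∀ z ∈ S, k z < k u → ¬ lt k p (some z)) (ha : a ∈ Finset.insertNone S)
    (hau : lt k a (some u)) (hub : lt k (some u) b)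
    (hc : ∀ z ∈ S, ¬(lt k a (some z) ∧ lt k (some z) b)) : a = p := by
  rcases a with _ | x'
  · rcases p with _ | x
    · rfl
    · exfalso
      have hx := Finset.some_mem_insertNone.1 hp
      exact hc x hx ⟨lt_none_left _ _, lt_trans' hpu hub⟩
  · have hx' := Finset.some_mem_insertNone.1 ha
    have h1 := hpm x' hx' ((lt_some _ _ _).1 hau)
    rcases p with _ | x
    · exact absurd (lt_none_left _ _) h1
    · rw [lt_some, not_lt] at h1
      rcases h1.lt_or_eq with h2 | h2
      · exfalso
        have hx := Finset.some_mem_insertNone.1 hp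
        exact hc x hx ⟨(lt_some _ _ _).2 h2, lt_trans' hpu hub⟩
      · rw [hk h2]

/-- the successor is unique -/
lemma uniq_q {k : Λ → ℤ} (hk : Function.Injective k) {S : Finset Λ} {u : Λ} {q a b : Option Λ}
    (hq : q ∈ Finset.insertNone S) (huq : lt k (some u) q)
    (hqm : ∀ z ∈ S, k u < k z → ¬ lt k (some z) q) (hb : b ∈ Finset.insertNone S)
    (hau : lt k a (some u)) (hub : lt k (some u) b)
    (hc : ∀ z ∈ S, ¬(lt k a (some z) ∧ lt k (some z) b)) : b = q := by
  rcases b with _ | x'
  · rcases q with _ | x
    · rfl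
    · exfalso
      have hx := Finset.some_mem_insertNone.1 hq
      exact hc x hx ⟨lt_trans' hau huq, lt_none_right _ _⟩
  · have hx' := Finset.some_mem_insertNone.1 hb
    have h1 := hqm x' hx' ((lt_some _ _ _).1 hub)
    rcases q with _ | x
    · exact absurd (lt_none_right _ _) h1
    · rw [lt_some, not_lt] at h1
      rcases h1.lt_or_eq with h2 | h2
      · exfalso
        have hx := Finset.some_mem_insertNone.1 hq
        exact hc x hx ⟨lt_trans' hau huq, (lt_some _ _ _).2 h2⟩
      · rw [hk h2]

end A2w

open A2w

theorem t_A2 : S_A2 := by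
  intro Λ _ _ sp i S u hu
  have hk := sp.inj i
  obtain ⟨p, hp, hpu, hpm⟩ := exists_p (sp.k i) S u
  obtain ⟨q, hq, huq, hqm⟩ := exists_q (sp.k i) S u
  have hzu : ∀ z ∈ S, sp.k i z < sp.k i u ∨ sp.k i u < sp.k i z := by
    intro z hz
    refine lt_or_gt_of_ne (fun h => hu ?_)
    rw [← hk h]
    exact hz
  have hcons : sp.Cons i S p q := by
    refine ⟨hp, hq, lt_trans' hpu huq, fun z hz hh => ?_⟩
    rcases hzu z hz with h | h
    · exact hpm z hz h hh.1
    · exact hqm z hz h hh.2
  have huniq : ∀ a b, sp.Cons i S a b → lt (sp.k i) a (some u) → lt (sp.k i) (some u) b →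
      a = p ∧ b = q := by
    rintro a b ⟨ha, hb, hab, hc⟩ hau hub
    exact ⟨uniq_p hk hp hpu hpm ha hau hub hc, uniq_q hk hq huq hqm hb hau hub hc⟩
  refine ⟨p, q, hcons, hpu, huq, ?_, huniq, ?_, ?_, ?_⟩
  · intro a b
    have hmem : ∀ c : Option Λ, c ∈ Finset.insertNone (insert u S) ↔
        c = some u ∨ c ∈ Finset.insertNone S := by
      intro c
      rcases c with _ | c
      · simp
      · simp [Finset.some_mem_insertNone]
    constructor
    · rintro ⟨ha, hb, hab, hc⟩
      have hcS : ∀ z ∈ S, ¬(lt (sp.k i) a (some z) ∧ lt (sp.k i) (some z) b) :=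
        fun z hz => hc z (Finset.mem_insert_of_mem hz)
      rw [hmem] at ha hb
      by_cases hau : a = some u
      · subst hau
        right; right
        refine ⟨rfl, ?_⟩
        have hb' : b ∈ Finset.insertNone S := by
          rcases hb with hb | hb
          · subst hb
            rw [lt_some] at hab
            exact absurd hab (lt_irrefl _)
          · exact hb
        -- show `b = q`
        rcases b with _ | y'
        · rcases q with _ | y
          · rfl
          · exfalso
            have hy := Finset.some_mem_insertNone.1 hq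
            exact hcS y hy ⟨huq, lt_none_right _ _⟩
        · have hy' := Finset.some_mem_insertNone.1 hb'
          have h1 := hqm y' hy' ((lt_some _ _ _).1 hab)
          rcases q with _ | y
          · exact absurd (lt_none_right _ _) h1
          · rw [lt_some, not_lt] at h1
            rcases h1.lt_or_eq with h2 | h2
            · exfalso
              have hy := Finset.some_mem_insertNone.1 hq
              exact hcS y hy ⟨huq, (lt_some _ _ _).2 h2⟩
            · rw [hk h2]
      · have ha' : a ∈ Finset.insertNone S := ha.resolve_left hau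
        by_cases hbu : b = some u
        · subst hbu
          right; left
          refine ⟨?_, rfl⟩
          rcases a with _ | x'
          · rcases p with _ | x
            · rfl
            · exfalso
              have hx := Finset.some_mem_insertNone.1 hp
              exact hcS x hx ⟨lt_none_left _ _, hpu⟩
          · have hx' := Finset.some_mem_insertNone.1 ha'
            have h1 := hpm x' hx' ((lt_some _ _ _).1 hab)
            rcases p with _ | x
            · exact absurd (lt_none_left _ _) h1
            · rw [lt_some, not_lt] at h1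
              rcases h1.lt_or_eq with h2 | h2
              · exfalso
                have hx := Finset.some_mem_insertNone.1 hp
                exact hcS x hx ⟨(lt_some _ _ _).2 h2, hpu⟩
              · rw [hk h2]
        · have hb' : b ∈ Finset.insertNone S := hb.resolve_left hbu
          left
          refine ⟨⟨ha', hb', hab, hcS⟩, ?_⟩
          rintro ⟨rfl, rfl⟩
          exact hc u (Finset.mem_insert_self _ _) ⟨hpu, huq⟩
    · rintro (⟨⟨ha, hb, hab, hc⟩, hne⟩ | ⟨rfl, rfl⟩ | ⟨rfl, rfl⟩)
      · refine ⟨(hmem a).2 (Or.inr ha), (hmem b).2 (Or.inr hb), hab, fun z hz hh => ?_⟩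
        rcases Finset.mem_insert.1 hz with rfl | hz
        · exact hne (huniq a b ⟨ha, hb, hab, hc⟩ hh.1 hh.2)
        · exact hc z hz hh
      · refine ⟨(hmem _).2 (Or.inr hp), (hmem _).2 (Or.inl rfl), hpu, fun z hz hh => ?_⟩
        rcases Finset.mem_insert.1 hz with rfl | hz
        · exact absurd ((lt_some _ _ _).1 hh.2) (lt_irrefl _)
        · exact hpm z hz ((lt_some _ _ _).1 hh.2) hh.1
      · refine ⟨(hmem _).2 (Or.inl rfl), (hmem _).2 (Or.inr hq), huq, fun z hz hh => ?_⟩
        rcases Finset.mem_insert.1 hz with rfl | hz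
        · exact absurd ((lt_some _ _ _).1 hh.1) (lt_irrefl _)
        · exact hqm z hz ((lt_some _ _ _).1 hh.1) hh.2
  · intro hE
    rcases p with _ | x
    · rfl
    · exfalso
      have hx := Finset.some_mem_insertNone.1 hp
      exact absurd ((hE x hx).1 rfl) (not_lt.2 ((lt_some _ _ _).1 hpu).le)
  · intro hE
    rcases q with _ | x
    · rfl
    · exfalso
      have hx := Finset.some_mem_insertNone.1 hq
      exact absurd ((hE x hx).2 rfl) (not_lt.2 ((lt_some _ _ _).1 huq).le)
  · intro Z hZ
    have hkey : ∀ z ∈ Z, (∃ x, p = some x ∧ sp.k i z ≤ sp.k i x) ↔ sp.k i z < sp.k i u := by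
      intro z hz
      constructor
      · rintro ⟨x, rfl, hx⟩
        exact lt_of_le_of_lt hx ((lt_some _ _ _).1 hpu)
      · intro hz2
        have h1 := hpm z (hZ hz) hz2
        rcases p with _ | x
        · exact absurd (lt_none_left _ _) h1
        · rw [lt_some, not_lt] at h1
          exact ⟨x, rfl, h1⟩
    have hA : Z.filter (fun z => ∃ x, p = some x ∧ sp.k i z ≤ sp.k i x) =
        Z.filter (fun z => sp.k i z < sp.k i u) := Finset.filter_congr hkey
    have hB : Z.filter (fun z => ∃ x, some u = some x ∧ sp.k i z ≤ sp.k i x) =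
        Z.filter (fun z => sp.k i z < sp.k i u) := by
      refine Finset.filter_congr (fun z hz => ?_)
      constructor
      · rintro ⟨x, hx, hzx⟩
        rw [Option.some.injEq] at hx
        subst hx
        rcases hzu z (hZ hz) with h | h
        · exact h
        · exact absurd hzx (not_le.2 h)
      · intro h
        exact ⟨u, rfl, h.le⟩
    refine ⟨?_, ?_⟩
    · unfold SP.pa
      rw [hA, hB]
    · unfold SP.pa SP.pb
      rw [hA]

end Pool.GS
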