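import Pool.Agent.GSP.StmtsA

/-!
ROAD S, part A3: arcs and parities.
-/

set_option autoImplicit false
set_option linter.unusedSectionVars false

namespace Pool.GS

open Pool.GOD Pool.GS.SP

namespace A3

variable {Λ : Type} [Fintype Λ] [DecidableEq Λ] (sp : SP Λ) (i : Bool)

lemma pa_some (Z : Finset Λ) (x : Λ) :
    sp.pa i Z (some x) ↔ Odd (Z.filter (fun z => sp.k i z ≤ sp.k i x)).card := by
  unfold pa
  simp

lemma not_pa_none (Z : Finset Λ) : ¬sp.pa i Z none := by
  unfold pa
  simp

lemma pa_of_cons {S Z : Finset Λ} (hZ : Z ⊆ S) {a : Option Λ} {x : Λ}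
    (h : sp.Cons i S a (some x)) : sp.pa i Z a ↔ sp.pb i Z x := by
  obtain ⟨-, -, h3, h4⟩ := h
  cases a with
  | none =>
    refine ⟨fun h => absurd h (not_pa_none sp i Z), fun h => ?_⟩
    unfold pb at h
    rw [Finset.filter_eq_empty_iff.mpr] at h
    · simp at h
    · intro z hz hzx
      refine h4 z (hZ hz) ⟨fun u v hu => by simp at hu, fun u v hu hv => ?_⟩
      rw [Option.some.injEq] at hu hv
      rw [← hu, ← hv]
      exact hzx
  | some y =>
    have hyx : sp.k i y < sp.k i x := h3 y x rfl rfl
    rw [pa_some]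
    unfold pb
    have hf : Z.filter (fun z => sp.k i z ≤ sp.k i y) = Z.filter (fun z => sp.k i z < sp.k i x) := by
      refine Finset.filter_congr (fun z hz => ?_)
      constructor
      · intro h
        exact lt_of_le_of_lt h hyx
      · intro h
        by_contra hc
        rw [not_le] at hc
        refine h4 z (hZ hz) ⟨fun u v hu hv => ?_, fun u v hu hv => ?_⟩
        · rw [Option.some.injEq] at hu hv
          rw [← hu, ← hv]
          exact hc
        · rw [Option.some.injEq] at hu hv
          rw [← hu, ← hv]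
          exact h
    rw [hf]

lemma pa_of_notMem {Z : Finset Λ} {x : Λ} (hx : x ∉ Z) : sp.pa i Z (some x) ↔ sp.pb i Z x := by
  rw [pa_some]
  unfold pb
  have hf : Z.filter (fun z => sp.k i z ≤ sp.k i x) = Z.filter (fun z => sp.k i z < sp.k i x) := by
    refine Finset.filter_congr (fun z hz => ?_)
    constructor
    · intro h
      refine lt_of_le_of_ne h fun he => hx ?_
      rw [← sp.inj i he]
      exact hz
    · exact le_of_lt
  rw [hf]

lemma pa_of_mem {Z : Finset Λ} {x : Λ} (hx : x ∈ Z) : sp.pa i Z (some x) ↔ ¬sp.pb i Z x := by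
  rw [pa_some]
  unfold pb
  have h1 : Z.filter (fun z => sp.k i z ≤ sp.k i x) =
      insert x (Z.filter (fun z => sp.k i z < sp.k i x)) := by
    ext z
    simp only [Finset.mem_filter, Finset.mem_insert]
    constructor
    · rintro ⟨h1, h2⟩
      rcases lt_or_eq_of_le h2 with h | h
      · exact Or.inr ⟨h1, h⟩
      · exact Or.inl (sp.inj i h)
    · rintro (rfl | ⟨h1, h2⟩)
      · exact ⟨hx, le_refl _⟩
      · exact ⟨h1, le_of_lt h2⟩
  rw [h1, Finset.card_insert_of_notMem (by simp), Nat.odd_add_one]

lemma not_pa_of_cons_none {S Z : Finset Λ} (hZ : Z ⊆ S) (he : Even Z.card) {a : Option Λ}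
    (h : sp.Cons i S a none) : ¬sp.pa i Z a := by
  cases a with
  | none => exact not_pa_none sp i Z
  | some y =>
    obtain ⟨-, -, -, h4⟩ := h
    rw [pa_some, Finset.filter_true_of_mem]
    · rwa [Nat.not_odd_iff_even]
    · intro z hz
      by_contra hc
      rw [not_le] at hc
      refine h4 z (hZ hz) ⟨fun u v hu hv => ?_, fun u v hu hv => by simp at hv⟩
      rw [Option.some.injEq] at hu hv
      rw [← hu, ← hv]
      exact hc

end A3

theorem t_A3 : S_A3 := by
  intro Λ _ _ sp i S Z hZ
  exact ⟨fun a x h => A3.pa_of_cons sp i hZ h, fun x hx => A3.pa_of_notMem sp i hx,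
    fun x hx => A3.pa_of_mem sp i hx, A3.not_pa_none sp i Z,
    fun he a h => A3.not_pa_of_cons_none sp i hZ he h⟩

end Pool.GS
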