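import Pool.Agent.GSP.StmtsA

/-!
A4: degrees in `H_D`.
-/

set_option autoImplicit false

namespace Pool.GS

open Pool.GOD Pool.GS.SP

namespace A4

variable {Λ : Type} [Fintype Λ] [DecidableEq Λ] (sp : SP Λ)

/-- The edges of `H_D` at a vertex: the `M`-edge and one arc of each path which is not in `D`. -/
lemma key (h1 : S_A1) (S Z : Finset Λ) (a : Option Λ) (ha : a ∈ Finset.insertNone S) (c : Bool) :
    ∃ e : Bool → (Option Λ × Option Λ),
      (∀ i, (c = sp.oo i a → (e i).1 = a) ∧ (c ≠ sp.oo i a → sp.Cons i S (e i).1 a)) ∧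
      ∀ f : Ed Λ, (f ∈ sp.H S Z ∧ ((a, c) : Vx Λ) ∈ sp.G.ends f) ↔
        (f = Sum.inl a ∨ ∃ i, f = Sum.inr (i, e i) ∧ ¬sp.pa i Z (e i).1) := by
  classical
  have hs : ∀ i, ∃ b, sp.Cons i S a b ∧ ∀ b', sp.Cons i S a b' → b' = b := fun i =>
    (h1 Λ sp i S).1 a ha
  have hp : ∀ i, ∃ b, sp.Cons i S b a ∧ ∀ b', sp.Cons i S b' a → b' = b := fun i =>
    (h1 Λ sp i S).2 a ha
  choose s hs1 hs2 using hs
  choose p hp1 hp2 using hp
  refine ⟨fun i => if c = sp.oo i a then (a, s i) else (p i, a), ?_, ?_⟩
  · intro i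
    constructor
    · intro h
      simp only [if_pos h]
    · intro h
      simp only [if_neg h]
      exact hp1 i
  · rintro (b | ⟨i, b, d⟩)
    · rw [mem_H_inl]
      have h2 : sp.G.ends (Sum.inl b) = s((b, false), (b, true)) := rfl
      rw [h2, Sym2.mem_iff, Prod.mk.injEq, Prod.mk.injEq]
      constructor
      · rintro ⟨-, ⟨h, -⟩ | ⟨h, -⟩⟩
        · exact Or.inl (by rw [h])
        · exact Or.inl (by rw [h])
      · rintro (h | ⟨i, h, -⟩)
        · have h3 : b = a := Sum.inl_injective h
          subst h3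
          refine ⟨ha, ?_⟩
          cases c
          · exact Or.inl ⟨rfl, rfl⟩
          · exact Or.inr ⟨rfl, rfl⟩
        · cases h
    · rw [mem_H_inr]
      have h2 : sp.G.ends (Sum.inr (i, b, d)) = s(sp.outV i b, sp.inV i d) := rfl
      rw [h2, Sym2.mem_iff]
      constructor
      · rintro ⟨⟨h3, h4⟩, h5 | h5⟩
        · obtain ⟨h6, h7⟩ : a = b ∧ c = sp.oo i b := Prod.mk.injEq _ _ _ _ ▸ h5
          subst h6
          refine Or.inr ⟨i, ?_, ?_⟩
          · simp only [if_pos h7]
            rw [hs2 i d h3]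
          · simp only [if_pos h7]
            exact h4
        · obtain ⟨h6, h7⟩ : a = d ∧ c = !sp.oo i d := Prod.mk.injEq _ _ _ _ ▸ h5
          subst h6
          have h8 : c ≠ sp.oo i a := by
            rw [h7]
            exact Bool.not_ne_self _
          refine Or.inr ⟨i, ?_, ?_⟩
          · simp only [if_neg h8]
            rw [hp2 i b h3]
          · simp only [if_neg h8]
            rw [← hp2 i b h3]
            exact h4
      · rintro (h | ⟨j, h, h4⟩)
        · cases h
        · have h5 := Sum.inr_injective h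
          obtain ⟨h6, h7⟩ := Prod.mk.inj h5
          subst h6
          by_cases h8 : c = sp.oo i a
          · simp only [if_pos h8] at h7 h4
            obtain ⟨h9, h10⟩ := Prod.mk.inj h7
            subst h9 h10
            exact ⟨⟨hs1 i, h4⟩, Or.inl (by rw [h8]; rfl)⟩
          · simp only [if_neg h8] at h7 h4
            obtain ⟨h9, h10⟩ := Prod.mk.inj h7
            subst h9
            rw [h10]
            refine ⟨⟨hp1 i, h4⟩, Or.inr ?_⟩
            show (a, c) = (a, !sp.oo i a)
            have h11 : c = !sp.oo i a := by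
              revert h8
              cases c <;> cases sp.oo i a <;> simp
            rw [h11]

/-- The degree: one plus the number of arcs not in `D`. -/
lemma deg_eq (h1 : S_A1) (S Z : Finset Λ) (a : Option Λ) (ha : a ∈ Finset.insertNone S)
    (c : Bool) (q : Bool → Prop) [∀ i, Decidable (q i)]
    (hq : ∀ i, (c = sp.oo i a → (sp.pa i Z a ↔ q i)) ∧
      (c ≠ sp.oo i a → ∀ p, sp.Cons i S p a → (sp.pa i Z p ↔ q i))) :
    sp.G.deg (sp.H S Z) (a, c) =
      1 + (if q false then 0 else 1) + (if q true then 0 else 1) := by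
  classical
  obtain ⟨e, he, hf⟩ := key sp h1 S Z a ha c
  have hq' : ∀ i, (¬sp.pa i Z (e i).1 ↔ ¬q i) := by
    intro i
    by_cases h : c = sp.oo i a
    · rw [(he i).1 h, (hq i).1 h]
    · rw [(hq i).2 h _ ((he i).2 h)]
  have h2 : (sp.H S Z).filter (fun f => ((a, c) : Vx Λ) ∈ sp.G.ends f) =
      insert (Sum.inl a) ((if q false then ∅ else {Sum.inr (false, e false)}) ∪
        (if q true then ∅ else {Sum.inr (true, e true)})) := by
    ext f
    rw [Finset.mem_filter, hf f, Finset.mem_insert, Finset.mem_union]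
    simp only [hq', Bool.exists_bool]
    by_cases h3 : q false <;> by_cases h4 : q true <;> simp [h3, h4]
  have h3 : (Sum.inl a : Ed Λ) ∉ ((if q false then ∅ else {Sum.inr (false, e false)}) ∪
      (if q true then ∅ else {Sum.inr (true, e true)}) : Finset (Ed Λ)) := by
    by_cases h3 : q false <;> by_cases h4 : q true <;> simp [h3, h4]
  rw [MGraph.deg, h2, Finset.card_insert_of_notMem h3]
  by_cases h3 : q false <;> by_cases h4 : q true <;> simp [h3, h4]

end A4

open A4 in
/-- **A4**: degrees in `H_D`. -/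
theorem t_A4 (h1 : S_A1) (h3 : S_A3) : S_A4 := by
  intro Λ _ _ sp S Z hV
  classical
  obtain ⟨k1, k2, k3, k4, k5⟩ : _ ∧ _ ∧ _ ∧ _ ∧ _ := ⟨fun i => (h3 Λ sp i S Z hV.sub).1,
    fun i => (h3 Λ sp i S Z hV.sub).2.1, fun i => (h3 Λ sp i S Z hV.sub).2.2.1,
    fun i => (h3 Λ sp i S Z hV.sub).2.2.2.1, fun i => (h3 Λ sp i S Z hV.sub).2.2.2.2⟩
  have off : ∀ x ∈ S, x ∉ Z → ∀ c : Bool, sp.G.deg (sp.H S Z) (some x, c) =
      1 + (if sp.pb false Z x then 0 else 1) + (if sp.pb true Z x then 0 else 1) := by
    intro x hx hxZ c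
    refine deg_eq sp h1 S Z (some x) (Finset.some_mem_insertNone.2 hx) c
      (fun i => sp.pb i Z x) ?_
    intro i
    exact ⟨fun _ => k2 i x hxZ, fun _ p hp => k1 i p x hp⟩
  have on : ∀ x ∈ Z, ∀ c : Bool, sp.G.deg (sp.H S Z) (some x, c) = 2 := by
    intro x hxZ c
    have h4 := deg_eq sp h1 S Z (some x) (Finset.some_mem_insertNone.2 (hV.sub hxZ)) c
      (fun i => if c = sp.o i x then ¬sp.pb i Z x else sp.pb i Z x) (by
        intro i
        constructor
        · intro h
          have h' : c = sp.o i x := h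
          rw [if_pos h']
          exact k3 i x hxZ
        · intro h p hp
          have h' : ¬c = sp.o i x := h
          rw [if_neg h']
          exact k1 i p x hp)
    rw [h4]
    have h5 := hV.on x hxZ
    by_cases p1 : sp.pb false Z x <;> by_cases p2 : sp.pb true Z x <;>
      simp only [p1, p2] at h5 ⊢ <;> revert h5 <;>
      cases sp.o false x <;> cases sp.o true x <;> cases c <;> simp
  refine ⟨?_, ?_, ?_, ?_⟩
  · intro x hx b h
    by_cases hxZ : x ∈ Z
    · exact on x hxZ b
    · rw [off x hx hxZ b]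
      have h5 := hV.off x hx hxZ
      rcases h with h | h | h
      · exact absurd h hxZ
      · have h6 : ¬sp.pb true Z x := fun h7 => h5 ⟨h, h7⟩
        simp [h, h6]
      · have h6 : ¬sp.pb false Z x := fun h7 => h5 ⟨h7, h⟩
        simp [h, h6]
  · intro x hx b hxZ p1 p2
    rw [off x hx hxZ b]
    simp [p1, p2]
  · intro b
    have h4 := deg_eq sp h1 S Z none Finset.none_mem_insertNone b (fun _ => False) (by
      intro i
      constructor
      · intro _
        exact iff_false_intro (k4 i)
      · intro _ p hp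
        exact iff_false_intro (k5 i hV.even p hp))
    rw [h4]
    simp
  · rintro (a | ⟨i, a, b⟩) he v hv
    · rw [mem_H_inl] at he
      have h2 : sp.G.ends (Sum.inl a) = s((a, false), (a, true)) := rfl
      rw [h2, Sym2.mem_iff] at hv
      rw [W, Finset.mem_filter]
      refine ⟨Finset.mem_univ _, ?_⟩
      rcases hv with rfl | rfl
      · exact he
      · exact he
    · rw [mem_H_inr] at he
      have h2 : sp.G.ends (Sum.inr (i, a, b)) = s(sp.outV i a, sp.inV i b) := rfl
      rw [h2, Sym2.mem_iff] at hv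
      rw [W, Finset.mem_filter]
      refine ⟨Finset.mem_univ _, ?_⟩
      rcases hv with rfl | rfl
      · exact he.1.1
      · exact he.1.2.1

end Pool.GS
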