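import Pool.Agent.GSP.StmtsA

set_option autoImplicit false
set_option linter.unusedSectionVars false

namespace Pool.GS

open Pool.GOD Pool.GS.SP

namespace A5

variable {Λ : Type} [Fintype Λ] [DecidableEq Λ] (sp : SP Λ)

/-- the removed edges -/
def R (S Z : Finset Λ) : Finset (Ed Λ) := (sp.H S Z).filter (fun e =>
      (e = Sum.inl none ∨ ∃ x, e = Sum.inl (some x) ∧ x ∉ Z ∧ ¬sp.pb false Z x ∧
        ¬sp.pb true Z x))

lemma mem_R {S Z : Finset Λ} {e : Ed Λ} : e ∈ R sp S Z ↔ e ∈ sp.H S Z ∧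
    (e = Sum.inl none ∨ ∃ x, e = Sum.inl (some x) ∧ x ∉ Z ∧ ¬sp.pb false Z x ∧
        ¬sp.pb true Z x) := by
  unfold R
  rw [Finset.mem_filter]

lemma ends_inl (a : Option Λ) (v : Vx Λ) : v ∈ sp.G.ends (Sum.inl a) ↔ v.1 = a := by
  show v ∈ s((a, false), (a, true)) ↔ _
  rw [Sym2.mem_iff]
  rcases v with ⟨c, b⟩
  cases b <;> simp

lemma deg_R_none (S Z : Finset Λ) (b : Bool) : sp.G.deg (R sp S Z) (none, b) = 1 := by
  unfold MGraph.deg
  rw [Finset.card_eq_one]
  refine ⟨Sum.inl none, ?_⟩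
  ext e
  rw [Finset.mem_filter, mem_R, Finset.mem_singleton]
  constructor
  · rintro ⟨⟨-, h | ⟨x, h, -⟩⟩, h2⟩
    · exact h
    · rw [h, ends_inl] at h2
      simp at h2
  · rintro rfl
    refine ⟨⟨by simp, Or.inl rfl⟩, ?_⟩
    rw [ends_inl]

lemma deg_R_on (S Z : Finset Λ) (x : Λ) (b : Bool)
    (h : x ∈ Z ∨ sp.pb false Z x ∨ sp.pb true Z x) : sp.G.deg (R sp S Z) (some x, b) = 0 := by
  unfold MGraph.deg
  rw [Finset.card_eq_zero, Finset.eq_empty_iff_forall_notMem]
  intro e he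
  rw [Finset.mem_filter, mem_R] at he
  obtain ⟨⟨-, h1 | ⟨y, h1, h3, h4, h5⟩⟩, h2⟩ := he
  · rw [h1, ends_inl] at h2
    simp at h2
  · rw [h1, ends_inl] at h2
    simp only [Option.some.injEq] at h2
    subst h2
    tauto

lemma deg_R_off (S Z : Finset Λ) (x : Λ) (b : Bool) (hx : x ∈ S) (h1 : x ∉ Z)
    (h2 : ¬sp.pb false Z x) (h3 : ¬sp.pb true Z x) : sp.G.deg (R sp S Z) (some x, b) = 1 := by
  unfold MGraph.deg
  rw [Finset.card_eq_one]
  refine ⟨Sum.inl (some x), ?_⟩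
  ext e
  rw [Finset.mem_filter, mem_R, Finset.mem_singleton]
  constructor
  · rintro ⟨⟨-, h | ⟨y, h, -⟩⟩, h2⟩
    · rw [h, ends_inl] at h2
      simp at h2
    · rw [h, ends_inl] at h2
      rw [h]
      simp only at h2
      rw [h2]
  · rintro rfl
    refine ⟨⟨by simp [hx], Or.inr ⟨x, rfl, h1, h2, h3⟩⟩, ?_⟩
    rw [ends_inl]

end A5

theorem t_A5 (h4 : S_A4) : S_A5 := by
  intro Λ _ _ sp S Z hV Y
  obtain ⟨hA, hB, hC, hD⟩ := h4 Λ sp S Z hV
  rw [Finset.filter_not]
  have hsub : A5.R sp S Z ⊆ sp.H S Z := Finset.filter_subset _ _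
  refine MGraph.IsEven.card_inter_cut (G := sp.G) (D := sp.H S Z \ A5.R sp S Z) ?_ Y
  rintro ⟨a, b⟩
  have hs := sp.G.deg_sdiff hsub (a, b)
  rcases a with _ | x
  · rw [hC b, A5.deg_R_none] at hs
    have : sp.G.deg (sp.H S Z \ A5.R sp S Z) (none, b) = 2 := by omega
    rw [this]; decide
  · by_cases hx : x ∈ S
    · by_cases h : x ∈ Z ∨ sp.pb false Z x ∨ sp.pb true Z x
      · rw [hA x hx b h, A5.deg_R_on sp S Z x b h] at hs
        have : sp.G.deg (sp.H S Z \ A5.R sp S Z) (some x, b) = 2 := by omega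
        rw [this]; decide
      · push Not at h
        obtain ⟨h1, h2, h3⟩ := h
        rw [hB x hx b h1 h2 h3, A5.deg_R_off sp S Z x b hx h1 h2 h3] at hs
        have : sp.G.deg (sp.H S Z \ A5.R sp S Z) (some x, b) = 2 := by omega
        rw [this]; decide
    · have h0 : sp.G.deg (sp.H S Z) (some x, b) = 0 := by
        unfold MGraph.deg
        rw [Finset.card_eq_zero, Finset.eq_empty_iff_forall_notMem]
        intro e he
        rw [Finset.mem_filter] at he
        have := hD e he.1 _ he.2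
        unfold W at this
        rw [Finset.mem_filter] at this
        apply hx
        simpa using this.2
      have : sp.G.deg (sp.H S Z \ A5.R sp S Z) (some x, b) = 0 := by omega
      rw [this]; decide

end Pool.GS
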