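import Pool.Agent.GSP.StmtsA

/-!
A6: the symmetries (exchange of the two paths, reversal of both paths).
-/

set_option autoImplicit false
set_option linter.unusedSectionVars false

namespace Pool.GS

open Pool.GOD Pool.GS.SP

namespace A6

section iso

variable {V E : Type} [Fintype V] [DecidableEq V] [Fintype E] [DecidableEq E]

/-- an isomorphism of the graphs with the edge sets `H`, `H'` and the vertex sets `W`, `W'` -/
structure GIso (G G' : MGraph V E) (H H' : Finset E) (W W' : Finset V) (φ : V ≃ V) (ε : E ≃ E) :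
    Prop where
  ends : ∀ e, G'.ends (ε e) = (G.ends e).map φ
  hH : ∀ e, ε e ∈ H' ↔ e ∈ H
  hW : ∀ v, φ v ∈ W' ↔ v ∈ W

variable {G G' : MGraph V E} {H H' : Finset E} {W W' : Finset V} {φ : V ≃ V} {ε : E ≃ E}

lemma GIso.symm (h : GIso G G' H H' W W' φ ε) : GIso G' G H' H W' W φ.symm ε.symm where
  ends := by
    intro e
    have h1 := h.ends (ε.symm e)
    rw [ε.apply_symm_apply] at h1
    rw [h1, Sym2.map_map]
    have h2 : (φ.symm ∘ φ : V → V) = id := by
      funext v
      simp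
    rw [h2, Sym2.map_id, id]
  hH := by
    intro e
    have h1 := h.hH (ε.symm e)
    rw [ε.apply_symm_apply] at h1
    exact h1.symm
  hW := by
    intro v
    have h1 := h.hW (φ.symm v)
    rw [φ.apply_symm_apply] at h1
    exact h1.symm

lemma GIso.mem_ends (h : GIso G G' H H' W W' φ ε) (e : E) (v : V) :
    φ v ∈ G'.ends (ε e) ↔ v ∈ G.ends e := by
  rw [h.ends, Sym2.mem_map]
  constructor
  · rintro ⟨a, ha, hav⟩
    rwa [← φ.injective hav]
  · intro hv
    exact ⟨v, hv, rfl⟩

lemma GIso.cut (h : GIso G G' H H' W W' φ ε) (Y' : Finset V) :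
    H' ∩ G'.cut Y' = (H ∩ G.cut (Finset.univ.filter (fun v => φ v ∈ Y'))).map ε.toEmbedding := by
  ext e'
  obtain ⟨e, rfl⟩ := ε.surjective e'
  have h1 : ε e ∈ (H ∩ G.cut (Finset.univ.filter (fun v => φ v ∈ Y'))).map ε.toEmbedding ↔
      e ∈ H ∩ G.cut (Finset.univ.filter (fun v => φ v ∈ Y')) := by
    rw [Finset.mem_map_equiv, ε.symm_apply_apply]
  rw [h1, Finset.mem_inter, Finset.mem_inter, h.hH]
  obtain ⟨a, b, hab, he⟩ := G.exists_ends e
  have he' : G'.ends (ε e) = s(φ a, φ b) := by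
    rw [h.ends, he]
    rfl
  rw [G.mem_cut he, G'.mem_cut he']
  simp only [Finset.mem_filter, Finset.mem_univ, true_and]

lemma GIso.card_cut (h : GIso G G' H H' W W' φ ε) (Y' : Finset V) :
    (H' ∩ G'.cut Y').card = (H ∩ G.cut (Finset.univ.filter (fun v => φ v ∈ Y'))).card := by
  rw [h.cut, Finset.card_map]

lemma GIso.twoEC (h : GIso G G' H H' W W' φ ε) (h2 : TwoEC G H W) : TwoEC G' H' W' := by
  rintro Y' ⟨v, hv, hvY⟩ ⟨w, hw, hwY⟩
  rw [h.card_cut]
  refine h2 _ ⟨φ.symm v, ?_, ?_⟩ ⟨φ.symm w, ?_, ?_⟩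
  · rw [← h.hW, φ.apply_symm_apply]
    exact hv
  · rw [Finset.mem_filter, φ.apply_symm_apply]
    exact ⟨Finset.mem_univ _, hvY⟩
  · rw [← h.hW, φ.apply_symm_apply]
    exact hw
  · rw [Finset.mem_filter, φ.apply_symm_apply]
    exact fun h' => hwY h'.2

lemma GIso.deg (h : GIso G G' H H' W W' φ ε) (v : V) : G'.deg H' (φ v) = G.deg H v := by
  unfold MGraph.deg
  have h1 : H'.filter (fun e => φ v ∈ G'.ends e) =
      (H.filter (fun e => v ∈ G.ends e)).map ε.toEmbedding := by
    ext e'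
    obtain ⟨e, rfl⟩ := ε.surjective e'
    rw [Finset.mem_map_equiv, ε.symm_apply_apply, Finset.mem_filter, Finset.mem_filter, h.hH,
      h.mem_ends]
  rw [h1, Finset.card_map]

lemma GIso.lev2 (h : GIso G G' H H' W W' φ ε) {r r' s s' : V}
    (hr : (φ r = s ∧ φ r' = s') ∨ (φ r = s' ∧ φ r' = s)) (h2 : Lev2 G H W r r') :
    Lev2 G' H' W' s s' := by
  refine ⟨h.twoEC h2.1, ?_⟩
  intro Y' hY hs hs' hc hex v' hv'
  obtain ⟨v, rfl⟩ := φ.surjective v'
  rw [h.deg]
  rw [h.card_cut] at hc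
  have hrr : φ r ∉ Y' ∧ φ r' ∉ Y' := by
    rcases hr with ⟨h3, h4⟩ | ⟨h3, h4⟩
    · rw [h3, h4]
      exact ⟨hs, hs'⟩
    · rw [h3, h4]
      exact ⟨hs', hs⟩
  refine h2.2 (Finset.univ.filter (fun v => φ v ∈ Y')) ?_ ?_ ?_ hc ?_ v ?_
  · intro w hw
    rw [← h.hW]
    exact hY (Finset.mem_filter.mp hw).2
  · exact fun h' => hrr.1 (Finset.mem_filter.mp h').2
  · exact fun h' => hrr.2 (Finset.mem_filter.mp h').2
  · obtain ⟨e', he', hes⟩ := hex
    rw [h.cut] at he'
    obtain ⟨e, he, rfl⟩ := Finset.mem_map.mp he'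
    refine ⟨e, he, ?_⟩
    have h5 : ε.toEmbedding e = ε e := rfl
    rw [h5] at hes
    rw [← h.mem_ends e r, ← h.mem_ends e r']
    rcases hr with ⟨h3, h4⟩ | ⟨h3, h4⟩
    · rw [h3, h4]
      exact hes
    · rw [h3, h4]
      exact hes.symm
  · exact Finset.mem_filter.mpr ⟨Finset.mem_univ _, hv'⟩

end iso

variable {Λ : Type} [Fintype Λ] [DecidableEq Λ] (sp : SP Λ)

/-! ### exchange of the two paths -/

/-- the edge map of the exchange -/
def swapE : Ed Λ ≃ Ed Λ where
  toFun := fun e => match e with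
    | Sum.inl a => Sum.inl a
    | Sum.inr (i, a, b) => Sum.inr (!i, a, b)
  invFun := fun e => match e with
    | Sum.inl a => Sum.inl a
    | Sum.inr (i, a, b) => Sum.inr (!i, a, b)
  left_inv := by
    rintro (a | ⟨i, a, b⟩)
    · rfl
    · cases i <;> rfl
  right_inv := by
    rintro (a | ⟨i, a, b⟩)
    · rfl
    · cases i <;> rfl

lemma swap_oo (i : Bool) (a : Option Λ) : sp.swap.oo i a = sp.oo (!i) a := by
  cases a <;> rfl

lemma swap_giso (S Z : Finset Λ) :
    GIso sp.G sp.swap.G (sp.H S Z) (sp.swap.H S Z) (W S) (W S) (Equiv.refl _) swapE where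
  ends := by
    rintro (a | ⟨i, a, b⟩)
    · rfl
    · change s(sp.swap.outV (!i) a, sp.swap.inV (!i) b) = (s(sp.outV i a, sp.inV i b)).map id
      rw [Sym2.map_id, id]
      unfold outV inV
      rw [swap_oo, swap_oo, Bool.not_not]
  hH := by
    rintro (a | ⟨i, a, b⟩)
    · change Sum.inl a ∈ sp.swap.H S Z ↔ _
      rw [mem_H_inl, mem_H_inl]
    · change Sum.inr (!i, a, b) ∈ sp.swap.H S Z ↔ _
      rw [mem_H_inr, mem_H_inr]
      cases i <;> exact Iff.rfl
  hW := fun v => Iff.rfl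

lemma swap_val (S Z : Finset Λ) (h : sp.Val S Z) : sp.swap.Val S Z where
  sub := h.sub
  ne := h.ne
  even := h.even
  off := by
    intro x hx hxZ hb
    exact h.off x hx hxZ ⟨hb.2, hb.1⟩
  on := by
    intro x hx
    have h1 := h.on x hx
    have h2 : (sp.swap.o false x = sp.swap.o true x) ↔ (sp.o false x = sp.o true x) :=
      ⟨fun h => h.symm, fun h => h.symm⟩
    rw [h2, h1]
    have h3 : (sp.swap.pb false Z x ↔ sp.swap.pb true Z x) ↔ (sp.pb false Z x ↔ sp.pb true Z x) :=
      ⟨fun h => h.symm, fun h => h.symm⟩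
    rw [h3]

lemma swap_swap : sp.swap.swap = sp := by
  cases sp with
  | mk k o inj =>
    have h1 : (fun i => k !!i) = k := by
      funext i
      rw [Bool.not_not]
    have h2 : (fun i => o !!i) = o := by
      funext i
      rw [Bool.not_not]
    unfold swap
    simp only [h1, h2]

lemma swap_nonSep (S : Finset Λ) (h : sp.NonSep S) : sp.swap.NonSep S := by
  obtain ⟨a, ha, b, hb, c, hc, d, hd, h1, h2, h3, h4⟩ := h
  rcases h4 with ⟨h5, h6, h7⟩ | ⟨h5, h6, h7⟩
  · exact ⟨c, hc, a, ha, d, hd, b, hb, h5, h6, h7, Or.inr ⟨h1, h2, h3⟩⟩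
  · exact ⟨b, hb, d, hd, a, ha, c, hc, h5, h6, h7, Or.inl ⟨h1, h2, h3⟩⟩

/-! ### reversal of both paths -/

/-- the edge map of the reversal -/
def revE : Ed Λ ≃ Ed Λ where
  toFun := fun e => match e with
    | Sum.inl a => Sum.inl a
    | Sum.inr (i, a, b) => Sum.inr (i, b, a)
  invFun := fun e => match e with
    | Sum.inl a => Sum.inl a
    | Sum.inr (i, a, b) => Sum.inr (i, b, a)
  left_inv := by
    rintro (a | ⟨i, a, b⟩) <;> rfl
  right_inv := by
    rintro (a | ⟨i, a, b⟩) <;> rfl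

/-- the vertex map of the reversal: the roots are exchanged -/
def revV : Vx Λ ≃ Vx Λ where
  toFun := fun v => match v with
    | (none, b) => (none, !b)
    | (some x, b) => (some x, b)
  invFun := fun v => match v with
    | (none, b) => (none, !b)
    | (some x, b) => (some x, b)
  left_inv := by
    rintro ⟨_ | x, b⟩
    · cases b <;> rfl
    · rfl
  right_inv := by
    rintro ⟨_ | x, b⟩
    · cases b <;> rfl
    · rfl

lemma rev_outV (i : Bool) (a : Option Λ) : sp.rev.outV i a = revV (sp.inV i a) := by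
  cases a <;> rfl

lemma rev_inV (i : Bool) (a : Option Λ) : sp.rev.inV i a = revV (sp.outV i a) := by
  cases a with
  | none => rfl
  | some x =>
    change (some x, !(!sp.o i x)) = (some x, sp.o i x)
    rw [Bool.not_not]

lemma rev_lt (i : Bool) (a b : Option Λ) : lt (sp.rev.k i) a b ↔ lt (sp.k i) b a := by
  unfold lt
  constructor
  · intro h x y hx hy
    have h1 := h y x hy hx
    have h2 : -sp.k i y < -sp.k i x := h1
    omega
  · intro h x y hx hy
    have h1 := h y x hy hx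
    change -sp.k i x < -sp.k i y
    omega

lemma rev_cons (i : Bool) (S : Finset Λ) (a b : Option Λ) :
    sp.rev.Cons i S a b ↔ sp.Cons i S b a := by
  unfold Cons
  simp only [rev_lt]
  constructor
  · rintro ⟨h1, h2, h3, h4⟩
    exact ⟨h2, h1, h3, fun z hz h => h4 z hz ⟨h.2, h.1⟩⟩
  · rintro ⟨h1, h2, h3, h4⟩
    exact ⟨h2, h1, h3, fun z hz h => h4 z hz ⟨h.2, h.1⟩⟩

/-- the letters before `x` and the others -/
lemma card_split (i : Bool) (Z : Finset Λ) (x : Λ) :
    (Z.filter (fun z => sp.k i z < sp.k i x)).card +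
      (Z.filter (fun z => sp.k i x ≤ sp.k i z)).card = Z.card := by
  have h := Finset.card_filter_add_card_filter_not (s := Z) (fun z => sp.k i z < sp.k i x)
  simpa only [not_lt] using h

lemma card_split2 (i : Bool) (Z : Finset Λ) (x : Λ) :
    (Z.filter (fun z => sp.k i x ≤ sp.k i z)).card =
      (Z.filter (fun z => sp.k i x < sp.k i z)).card + (if x ∈ Z then 1 else 0) := by
  have h1 : Z.filter (fun z => sp.k i x ≤ sp.k i z) =
      Z.filter (fun z => sp.k i x < sp.k i z) ∪ Z.filter (fun z => z = x) := by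
    ext z
    simp only [Finset.mem_filter, Finset.mem_union]
    constructor
    · rintro ⟨hz, h⟩
      rcases lt_or_eq_of_le h with h' | h'
      · exact Or.inl ⟨hz, h'⟩
      · exact Or.inr ⟨hz, (sp.inj i h').symm⟩
    · rintro (⟨hz, h⟩ | ⟨hz, h⟩)
      · exact ⟨hz, le_of_lt h⟩
      · exact ⟨hz, by rw [h]⟩
  have h2 : Disjoint (Z.filter (fun z => sp.k i x < sp.k i z)) (Z.filter (fun z => z = x)) := by
    rw [Finset.disjoint_left]
    intro z hz hz'
    have h3 := (Finset.mem_filter.mp hz).2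
    have h4 := (Finset.mem_filter.mp hz').2
    rw [h4] at h3
    exact lt_irrefl _ h3
  rw [h1, Finset.card_union_of_disjoint h2, Finset.filter_eq']
  split_ifs <;> simp

lemma rev_pb (i : Bool) (Z : Finset Λ) (hZ : Even Z.card) (x : Λ) (hx : x ∉ Z) :
    sp.rev.pb i Z x ↔ sp.pb i Z x := by
  have h1 := card_split sp i Z x
  have h2 := card_split2 sp i Z x
  rw [if_neg hx] at h2
  have h3 : sp.rev.pb i Z x ↔ Odd (Z.filter (fun z => sp.k i x < sp.k i z)).card := by
    unfold pb
    have h4 : Z.filter (fun z => sp.rev.k i z < sp.rev.k i x) =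
        Z.filter (fun z => sp.k i x < sp.k i z) := by
      refine Finset.filter_congr (fun z _ => ?_)
      change -sp.k i z < -sp.k i x ↔ _
      omega
    rw [h4]
  rw [h3]
  unfold pb
  rw [Nat.odd_iff, Nat.odd_iff]
  rw [Nat.even_iff] at hZ
  omega

lemma rev_pb' (i : Bool) (Z : Finset Λ) (hZ : Even Z.card) (x : Λ) (hx : x ∈ Z) :
    sp.rev.pb i Z x ↔ ¬sp.pb i Z x := by
  have h1 := card_split sp i Z x
  have h2 := card_split2 sp i Z x
  rw [if_pos hx] at h2
  have h3 : sp.rev.pb i Z x ↔ Odd (Z.filter (fun z => sp.k i x < sp.k i z)).card := by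
    unfold pb
    have h4 : Z.filter (fun z => sp.rev.k i z < sp.rev.k i x) =
        Z.filter (fun z => sp.k i x < sp.k i z) := by
      refine Finset.filter_congr (fun z _ => ?_)
      change -sp.k i z < -sp.k i x ↔ _
      omega
    rw [h4]
  rw [h3]
  unfold pb
  rw [Nat.odd_iff, Nat.odd_iff]
  rw [Nat.even_iff] at hZ
  omega

lemma rev_pa_none (i : Bool) (Z : Finset Λ) : ¬sp.rev.pa i Z none := by
  unfold pa
  have h1 : Z.filter (fun z => ∃ x, (none : Option Λ) = some x ∧ sp.rev.k i z ≤ sp.rev.k i x) =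
      ∅ := by
    rw [Finset.filter_eq_empty_iff]
    rintro z _ ⟨x, hx, _⟩
    cases hx
  rw [h1]
  simp

lemma rev_pa_some (i : Bool) (Z : Finset Λ) (hZ : Even Z.card) (x : Λ) :
    sp.rev.pa i Z (some x) ↔ sp.pb i Z x := by
  have h1 := card_split sp i Z x
  have h3 : sp.rev.pa i Z (some x) ↔ Odd (Z.filter (fun z => sp.k i x ≤ sp.k i z)).card := by
    unfold pa
    have h4 : Z.filter (fun z => ∃ y, some x = some y ∧ sp.rev.k i z ≤ sp.rev.k i y) =
        Z.filter (fun z => sp.k i x ≤ sp.k i z) := by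
      refine Finset.filter_congr (fun z _ => ?_)
      constructor
      · rintro ⟨y, hy, h⟩
        cases hy
        have h5 : -sp.k i z ≤ -sp.k i x := h
        omega
      · intro h
        refine ⟨x, rfl, ?_⟩
        change -sp.k i z ≤ -sp.k i x
        omega
    rw [h4]
  rw [h3]
  unfold pb
  rw [Nat.odd_iff, Nat.odd_iff]
  rw [Nat.even_iff] at hZ
  omega

lemma rev_giso (h3 : S_A3) (S Z : Finset Λ) (hsub : Z ⊆ S) (hev : Even Z.card) :
    GIso sp.G sp.rev.G (sp.H S Z) (sp.rev.H S Z) (W S) (W S) revV revE where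
  ends := by
    rintro (a | ⟨i, a, b⟩)
    · change s(((a, false) : Vx Λ), (a, true)) = s(revV (a, false), revV (a, true))
      cases a with
      | none => exact Sym2.eq_swap
      | some x => rfl
    · change s(sp.rev.outV i b, sp.rev.inV i a) = s(revV (sp.outV i a), revV (sp.inV i b))
      rw [rev_outV, rev_inV]
      exact Sym2.eq_swap
  hH := by
    rintro (a | ⟨i, a, b⟩)
    · change Sum.inl a ∈ sp.rev.H S Z ↔ _
      rw [mem_H_inl, mem_H_inl]
    · obtain ⟨g1, g2, g3, g4, g5⟩ := h3 Λ sp i S Z hsub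
      change Sum.inr (i, b, a) ∈ sp.rev.H S Z ↔ _
      rw [mem_H_inr, mem_H_inr, rev_cons]
      refine and_congr_right (fun hc => not_congr ?_)
      cases b with
      | none =>
        constructor
        · intro h
          exact absurd h (rev_pa_none sp i Z)
        · intro h
          exact absurd h (g5 hev a hc)
      | some x =>
        rw [rev_pa_some sp i Z hev x]
        exact (g1 a x hc).symm
  hW := by
    rintro ⟨_ | x, b⟩
    · simp [W, revV]
    · exact Iff.rfl

lemma rev_val (S Z : Finset Λ) (h : sp.Val S Z) : sp.rev.Val S Z where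
  sub := h.sub
  ne := h.ne
  even := h.even
  off := by
    intro x hx hxZ hb
    rw [rev_pb sp false Z h.even x hxZ, rev_pb sp true Z h.even x hxZ] at hb
    exact h.off x hx hxZ hb
  on := by
    intro x hx
    have h1 := h.on x hx
    rw [rev_pb' sp false Z h.even x hx, rev_pb' sp true Z h.even x hx]
    have h2 : (sp.rev.o false x = sp.rev.o true x) ↔ (sp.o false x = sp.o true x) := by
      change ((!sp.o false x) = (!sp.o true x)) ↔ _
      cases sp.o false x <;> cases sp.o true x <;> simp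
    rw [h2, h1]
    tauto

lemma rev_rev : sp.rev.rev = sp := by
  cases sp with
  | mk k o inj =>
    have h1 : (fun i x => -(-k i x)) = k := by
      funext i x
      rw [neg_neg]
    have h2 : (fun i x => !(!o i x)) = o := by
      funext i x
      rw [Bool.not_not]
    unfold rev
    simp only [h1, h2]

lemma rev_nonSep (S : Finset Λ) (h : sp.NonSep S) : sp.rev.NonSep S := by
  obtain ⟨a, ha, b, hb, c, hc, d, hd, h1, h2, h3, h4⟩ := h
  refine ⟨d, hd, c, hc, b, hb, a, ha, ?_, ?_, ?_, ?_⟩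
  · change -sp.k true d < -sp.k true c
    omega
  · change -sp.k true c < -sp.k true b
    omega
  · change -sp.k true b < -sp.k true a
    omega
  · rcases h4 with ⟨h5, h6, h7⟩ | ⟨h5, h6, h7⟩
    · left
      change -sp.k false b < -sp.k false d ∧ -sp.k false d < -sp.k false a ∧
        -sp.k false a < -sp.k false c
      omega
    · right
      change -sp.k false c < -sp.k false a ∧ -sp.k false a < -sp.k false d ∧
        -sp.k false d < -sp.k false b
      omega

lemma swap_good (S Z : Finset Λ) (h : sp.Good S Z) : sp.swap.Good S Z :=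
  ⟨swap_val sp S Z h.1, (swap_giso sp S Z).twoEC h.2⟩

lemma swap_l2 (S Z : Finset Λ) (h : sp.L2 S Z) : sp.swap.L2 S Z :=
  ⟨swap_val sp S Z h.1, (swap_giso sp S Z).lev2 (Or.inl ⟨rfl, rfl⟩) h.2⟩

lemma rev_good (h3 : S_A3) (S Z : Finset Λ) (h : sp.Good S Z) : sp.rev.Good S Z :=
  ⟨rev_val sp S Z h.1, (rev_giso sp h3 S Z h.1.sub h.1.even).twoEC h.2⟩

lemma rev_l2 (h3 : S_A3) (S Z : Finset Λ) (h : sp.L2 S Z) : sp.rev.L2 S Z :=
  ⟨rev_val sp S Z h.1, (rev_giso sp h3 S Z h.1.sub h.1.even).lev2 (Or.inr ⟨rfl, rfl⟩) h.2⟩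

end A6

theorem t_A6 (h3 : S_A3) : S_A6 := by
  intro Λ _ _ sp S Z
  have e1 := A6.swap_swap sp
  have e2 := A6.rev_rev sp
  refine ⟨⟨fun h => ?_, A6.swap_val sp S Z⟩, ⟨fun h => ?_, A6.rev_val sp S Z⟩,
    ⟨fun h => ?_, A6.swap_good sp S Z⟩, ⟨fun h => ?_, A6.rev_good sp h3 S Z⟩,
    ⟨fun h => ?_, A6.swap_l2 sp S Z⟩, ⟨fun h => ?_, A6.rev_l2 sp h3 S Z⟩,
    ⟨fun h => ?_, A6.swap_nonSep sp S⟩, ⟨fun h => ?_, A6.rev_nonSep sp S⟩⟩
  · have h1 := A6.swap_val sp.swap S Z h
    rwa [e1] at h1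
  · have h1 := A6.rev_val sp.rev S Z h
    rwa [e2] at h1
  · have h1 := A6.swap_good sp.swap S Z h
    rwa [e1] at h1
  · have h1 := A6.rev_good sp.rev h3 S Z h
    rwa [e2] at h1
  · have h1 := A6.swap_l2 sp.swap S Z h
    rwa [e1] at h1
  · have h1 := A6.rev_l2 sp.rev h3 S Z h
    rwa [e2] at h1
  · have h1 := A6.swap_nonSep sp.swap S h
    rwa [e1] at h1
  · have h1 := A6.rev_nonSep sp.rev S h
    rwa [e2] at h1

end Pool.GS
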