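import Pool.Agent.GSP.StmtsA

/-!
ROAD S, B1: subdivision of an edge by two vertices.
-/

set_option autoImplicit false
set_option linter.unusedSectionVars false

namespace Pool.GS

open Pool.GOD Pool.GS.SP

namespace B1

section

variable {V E : Type} [Fintype V] [DecidableEq V] [Fintype E] [DecidableEq E] (G : MGraph V E)

/-- Two different elements. -/
lemma two_le {X : Finset E} {a b : E} (hab : a ≠ b) (ha : a ∈ X) (hb : b ∈ X) : 2 ≤ X.card := by
  have h : ({a, b} : Finset E) ⊆ X := by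
    intro e he
    rw [Finset.mem_insert, Finset.mem_singleton] at he
    rcases he with rfl | rfl
    · exact ha
    · exact hb
  have h1 := Finset.card_le_card h
  rwa [Finset.card_pair hab] at h1

lemma memSet {e a₁ m a₂ α : E} {H : Finset E} :
    e ∈ (H.erase α) ∪ {a₁, m, a₂} ↔ (e ≠ α ∧ e ∈ H) ∨ e = a₁ ∨ e = m ∨ e = a₂ := by
  simp only [Finset.mem_union, Finset.mem_erase, Finset.mem_insert, Finset.mem_singleton]

variable {G} {H : Finset E} {W : Finset V} {x s u u' : V} {α a₁ m a₂ : E}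

/-- The cut of the old edges does not see the new vertices. -/
lemma cut_old (hW : ∀ e ∈ H, ∀ v ∈ G.ends e, v ∈ W) (hu : u ∉ W) (hu' : u' ∉ W) (Y : Finset V) :
    H ∩ G.cut (Y \ {u, u'}) = H ∩ G.cut Y := by
  ext e
  rw [Finset.mem_inter, Finset.mem_inter]
  refine and_congr_right fun he => ?_
  obtain ⟨a, b, -, hab⟩ := G.exists_ends e
  have ha : a ∈ W := hW e he a (by rw [hab]; exact Sym2.mem_mk_left a b)
  have hb : b ∈ W := hW e he b (by rw [hab]; exact Sym2.mem_mk_right a b)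
  have key : ∀ c ∈ W, (c ∈ Y \ {u, u'} ↔ c ∈ Y) := by
    intro c hc
    rw [Finset.mem_sdiff, Finset.mem_insert, Finset.mem_singleton]
    constructor
    · exact fun h => h.1
    · refine fun h => ⟨h, ?_⟩
      rintro (rfl | rfl)
      · exact hu hc
      · exact hu' hc
  rw [G.mem_cut hab, G.mem_cut hab, key a ha, key b hb]

/-- The number of crossing edges does not decrease. -/
lemma card_le (hα : α ∈ H) (hαe : G.ends α = s(x, s)) (h1 : a₁ ∉ H) (hm : m ∉ H) (h2 : a₂ ∉ H)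
    (e1 : G.ends a₁ = s(x, u)) (em : G.ends m = s(u, u')) (e2 : G.ends a₂ = s(u', s))
    (Y : Finset V) :
    (H ∩ G.cut Y).card ≤ (((H.erase α) ∪ {a₁, m, a₂}) ∩ G.cut Y).card := by
  by_cases hc : α ∈ G.cut Y
  · have h3 : ∃ β, β ∉ H ∧ β ∈ ((H.erase α) ∪ {a₁, m, a₂}) ∩ G.cut Y := by
      simp only [Finset.mem_inter, memSet]
      rw [G.mem_cut hαe] at hc
      by_cases c1 : a₁ ∈ G.cut Y
      · exact ⟨a₁, h1, Or.inr (Or.inl rfl), c1⟩
      by_cases c2 : m ∈ G.cut Y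
      · exact ⟨m, hm, Or.inr (Or.inr (Or.inl rfl)), c2⟩
      by_cases c3 : a₂ ∈ G.cut Y
      · exact ⟨a₂, h2, Or.inr (Or.inr (Or.inr rfl)), c3⟩
      exfalso
      rw [G.mem_cut e1] at c1
      rw [G.mem_cut em] at c2
      rw [G.mem_cut e2] at c3
      tauto
    obtain ⟨β, hβ, hβ'⟩ := h3
    have h4 : insert β ((H ∩ G.cut Y).erase α) ⊆ ((H.erase α) ∪ {a₁, m, a₂}) ∩ G.cut Y := by
      intro e he
      rcases Finset.mem_insert.1 he with rfl | he
      · exact hβ'
      · rw [Finset.mem_erase, Finset.mem_inter] at he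
        rw [Finset.mem_inter, memSet]
        exact ⟨Or.inl ⟨he.1, he.2.1⟩, he.2.2⟩
    have h5 := Finset.card_le_card h4
    have h6 : β ∉ (H ∩ G.cut Y).erase α := by
      intro h
      rw [Finset.mem_erase, Finset.mem_inter] at h
      exact hβ h.2.1
    rw [Finset.card_insert_of_notMem h6, Finset.card_erase_of_mem
      (Finset.mem_inter.2 ⟨hα, hc⟩)] at h5
    have h7 : 0 < (H ∩ G.cut Y).card := Finset.card_pos.2 ⟨α, Finset.mem_inter.2 ⟨hα, hc⟩⟩
    omega
  · refine Finset.card_le_card fun e he => ?_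
    rw [Finset.mem_inter] at he
    rw [Finset.mem_inter, memSet]
    exact ⟨Or.inl ⟨fun h => hc (h ▸ he.2), he.1⟩, he.2⟩

/-- The two sides of a vertex set which is trivial on the old vertices. -/
lemma triv (h12 : a₁ ≠ a₂) (h1m : a₁ ≠ m) (hm2 : m ≠ a₂)
    (e1 : G.ends a₁ = s(x, u)) (em : G.ends m = s(u, u')) (e2 : G.ends a₂ = s(u', s))
    (Y : Finset V) (h : (x ∈ Y ∧ s ∈ Y ∧ (u ∉ Y ∨ u' ∉ Y)) ∨ (x ∉ Y ∧ s ∉ Y ∧ (u ∈ Y ∨ u' ∈ Y))) :
    2 ≤ (((H.erase α) ∪ {a₁, m, a₂}) ∩ G.cut Y).card := by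
  have m1 : a₁ ∈ G.cut Y → a₁ ∈ ((H.erase α) ∪ {a₁, m, a₂}) ∩ G.cut Y := by
    intro h
    rw [Finset.mem_inter, memSet]
    exact ⟨Or.inr (Or.inl rfl), h⟩
  have mm : m ∈ G.cut Y → m ∈ ((H.erase α) ∪ {a₁, m, a₂}) ∩ G.cut Y := by
    intro h
    rw [Finset.mem_inter, memSet]
    exact ⟨Or.inr (Or.inr (Or.inl rfl)), h⟩
  have m2 : a₂ ∈ G.cut Y → a₂ ∈ ((H.erase α) ∪ {a₁, m, a₂}) ∩ G.cut Y := by
    intro h
    rw [Finset.mem_inter, memSet]
    exact ⟨Or.inr (Or.inr (Or.inr rfl)), h⟩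
  rw [G.mem_cut e1] at m1
  rw [G.mem_cut em] at mm
  rw [G.mem_cut e2] at m2
  rcases h with ⟨hx, hs, h⟩ | ⟨hx, hs, h⟩
  · by_cases hu : u ∈ Y
    · have hu' : u' ∉ Y := by
        rcases h with h | h
        · exact absurd hu h
        · exact h
      exact two_le hm2 (mm (Or.inl ⟨hu, hu'⟩)) (m2 (Or.inr ⟨hs, hu'⟩))
    · by_cases hu' : u' ∈ Y
      · exact two_le h1m (m1 (Or.inl ⟨hx, hu⟩)) (mm (Or.inr ⟨hu', hu⟩))
      · exact two_le h12 (m1 (Or.inl ⟨hx, hu⟩)) (m2 (Or.inr ⟨hs, hu'⟩))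
  · by_cases hu : u ∈ Y
    · by_cases hu' : u' ∈ Y
      · exact two_le h12 (m1 (Or.inr ⟨hu, hx⟩)) (m2 (Or.inl ⟨hu', hs⟩))
      · exact two_le h1m (m1 (Or.inr ⟨hu, hx⟩)) (mm (Or.inl ⟨hu, hu'⟩))
    · have hu' : u' ∈ Y := by
        rcases h with h | h
        · exact absurd h hu
        · exact h
      exact two_le hm2 (mm (Or.inr ⟨hu', hu⟩)) (m2 (Or.inl ⟨hu', hs⟩))

lemma deg_insert {X : Finset E} {e : E} (he : e ∉ X) (w : V) :
    G.deg (insert e X) w = G.deg X w + (if w ∈ G.ends e then 1 else 0) := by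
  unfold MGraph.deg
  rw [Finset.filter_insert]
  split_ifs with h
  · rw [Finset.card_insert_of_notMem (fun h' => he (Finset.mem_filter.1 h').1)]
  · rfl

/-- The degrees in the new graph. -/
lemma deg_new (h1 : a₁ ∉ H) (hm : m ∉ H) (h2 : a₂ ∉ H) (h12 : a₁ ≠ a₂) (h1m : a₁ ≠ m)
    (hm2 : m ≠ a₂) (w : V) :
    G.deg ((H.erase α) ∪ {a₁, m, a₂}) w = G.deg (H.erase α) w +
      (if w ∈ G.ends a₂ then 1 else 0) + (if w ∈ G.ends m then 1 else 0) +
      (if w ∈ G.ends a₁ then 1 else 0) := by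
  have h : (H.erase α) ∪ {a₁, m, a₂} = insert a₁ (insert m (insert a₂ (H.erase α))) := by
    ext e
    rw [memSet]
    simp only [Finset.mem_insert, Finset.mem_erase]
    tauto
  rw [h, deg_insert, deg_insert, deg_insert]
  · exact fun h' => h2 (Finset.mem_of_mem_erase h')
  · simp only [Finset.mem_insert, Finset.mem_erase]
    rintro (h' | h')
    · exact hm2 h'
    · exact hm h'.2
  · simp only [Finset.mem_insert, Finset.mem_erase]
    rintro (h' | h' | h')
    · exact h1m h'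
    · exact h12 h'
    · exact h1 h'.2

lemma deg_erase (hα : α ∈ H) (w : V) :
    G.deg H w = G.deg (H.erase α) w + (if w ∈ G.ends α then 1 else 0) := by
  conv_lhs => rw [← Finset.insert_erase hα]
  exact deg_insert (Finset.notMem_erase α H) w

lemma deg_zero (hW : ∀ e ∈ H, ∀ v ∈ G.ends e, v ∈ W) {w : V} (hw : w ∉ W) :
    G.deg (H.erase α) w = 0 := by
  unfold MGraph.deg
  rw [Finset.card_eq_zero, Finset.filter_eq_empty_iff]
  intro e he h
  exact hw (hW e (Finset.mem_of_mem_erase he) w h)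

end

end B1

open B1 in
theorem t_B1 : S_B1 := by
  intro V E _ _ _ _ G H W r r' x s u u' α a₁ m a₂ hW hr hr' hu hu' huu hα hαe h1 hm h2 h1m h12 hm2
    e1 em e2
  have hxW : x ∈ W := hW α hα x (by rw [hαe]; exact Sym2.mem_mk_left x s)
  have hsW : s ∈ W := hW α hα s (by rw [hαe]; exact Sym2.mem_mk_right x s)
  have hxs : x ≠ s := G.ne_of_ends hαe
  have hT : TwoEC G H W → TwoEC G ((H.erase α) ∪ {a₁, m, a₂}) (W ∪ {u, u'}) := by
    intro hTE Y hY1 hY2
    by_cases hA : ∃ v ∈ W, v ∈ Y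
    · by_cases hB : ∃ v ∈ W, v ∉ Y
      · exact (hTE Y hA hB).trans (card_le hα hαe h1 hm h2 e1 em e2 Y)
      · push Not at hB
        refine triv h12 h1m hm2 e1 em e2 Y (Or.inl ⟨hB x hxW, hB s hsW, ?_⟩)
        obtain ⟨v, hv, hvY⟩ := hY2
        rw [Finset.mem_union, Finset.mem_insert, Finset.mem_singleton] at hv
        rcases hv with hv | rfl | rfl
        · exact absurd (hB v hv) hvY
        · exact Or.inl hvY
        · exact Or.inr hvY
    · push Not at hA
      refine triv h12 h1m hm2 e1 em e2 Y (Or.inr ⟨hA x hxW, hA s hsW, ?_⟩)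
      obtain ⟨v, hv, hvY⟩ := hY1
      rw [Finset.mem_union, Finset.mem_insert, Finset.mem_singleton] at hv
      rcases hv with hv | rfl | rfl
      · exact absurd hvY (hA v hv)
      · exact Or.inl hvY
      · exact Or.inr hvY
  refine ⟨hT, ?_⟩
  rintro ⟨hTE, hL⟩
  refine ⟨hT hTE, ?_⟩
  intro Y hYW hrY hr'Y hcard hroot v hv
  -- degrees
  have hdeg : ∀ w ∈ W, G.deg ((H.erase α) ∪ {a₁, m, a₂}) w = G.deg H w := by
    intro w hw
    have n1 : w ≠ u := fun h => hu (h ▸ hw)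
    have n2 : w ≠ u' := fun h => hu' (h ▸ hw)
    rw [deg_new h1 hm h2 h12 h1m hm2, deg_erase hα, e1, em, e2, hαe]
    simp only [Sym2.mem_iff, n1, n2, or_false, false_or, if_false, add_zero]
    by_cases c1 : w = x
    · have c2 : w ≠ s := fun h => hxs (c1 ▸ h)
      simp [c1, hxs]
    · by_cases c2 : w = s
      · simp [c2, hxs.symm]
      · simp [c1, c2]
  have nus : u ≠ s := fun h => hu (h ▸ hsW)
  have nux : u ≠ x := fun h => hu (h ▸ hxW)
  have nus' : u' ≠ s := fun h => hu' (h ▸ hsW)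
  have nux' : u' ≠ x := fun h => hu' (h ▸ hxW)
  have hdu : G.deg ((H.erase α) ∪ {a₁, m, a₂}) u = 2 := by
    rw [deg_new h1 hm h2 h12 h1m hm2, deg_zero hW hu, e1, em, e2]
    simp [huu, nus]
  have hdu' : G.deg ((H.erase α) ∪ {a₁, m, a₂}) u' = 2 := by
    rw [deg_new h1 hm h2 h12 h1m hm2, deg_zero hW hu', e1, em, e2]
    simp [huu.symm, nux']
  by_cases hvu : v = u
  · rw [hvu]; exact hdu
  by_cases hvu' : v = u'
  · rw [hvu']; exact hdu'
  have hvW : v ∈ W := by
    have := hYW hv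
    rw [Finset.mem_union, Finset.mem_insert, Finset.mem_singleton] at this
    tauto
  rw [hdeg v hvW]
  have hold := cut_old (G := G) hW hu hu' Y
  have hge : 2 ≤ (H ∩ G.cut Y).card := hTE Y ⟨v, hvW, hv⟩ ⟨r, hr, hrY⟩
  have hle := card_le (H := H) hα hαe h1 hm h2 e1 em e2 Y
  have heq : (H ∩ G.cut Y).card = 2 := by omega
  -- if `α` does not cross then no new edge crosses
  have hnew : ∀ β, β ∉ H → β ∈ ((H.erase α) ∪ {a₁, m, a₂}) ∩ G.cut Y → α ∈ G.cut Y := by
    intro β hβ hβ'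
    by_contra hc
    have h4 : insert β (H ∩ G.cut Y) ⊆ ((H.erase α) ∪ {a₁, m, a₂}) ∩ G.cut Y := by
      intro e he
      rcases Finset.mem_insert.1 he with rfl | he
      · exact hβ'
      · rw [Finset.mem_inter] at he
        rw [Finset.mem_inter, memSet]
        exact ⟨Or.inl ⟨fun h => hc (h ▸ he.2), he.1⟩, he.2⟩
    have h5 := Finset.card_le_card h4
    rw [Finset.card_insert_of_notMem (fun h => hβ (Finset.mem_inter.1 h).1)] at h5
    omega
  refine hL (Y \ {u, u'}) ?_ ?_ ?_ ?_ ?_ v ?_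
  · intro w hw
    rw [Finset.mem_sdiff, Finset.mem_insert, Finset.mem_singleton] at hw
    have := hYW hw.1
    rw [Finset.mem_union, Finset.mem_insert, Finset.mem_singleton] at this
    tauto
  · exact fun h => hrY (Finset.mem_sdiff.1 h).1
  · exact fun h => hr'Y (Finset.mem_sdiff.1 h).1
  · rw [hold, heq]
  · rw [hold]
    obtain ⟨e, he, her⟩ := hroot
    have he' := he
    rw [Finset.mem_inter, memSet] at he
    obtain ⟨he1, hec⟩ := he
    rcases he1 with he1 | rfl | rfl | rfl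
    · exact ⟨e, Finset.mem_inter.2 ⟨he1.2, hec⟩, her⟩
    · refine ⟨α, Finset.mem_inter.2 ⟨hα, hnew _ h1 he'⟩, ?_⟩
      rw [e1, Sym2.mem_iff, Sym2.mem_iff] at her
      rw [hαe, Sym2.mem_iff, Sym2.mem_iff]
      rcases her with (h | h) | (h | h)
      · exact Or.inl (Or.inl h)
      · exact absurd (h ▸ hr) hu
      · exact Or.inr (Or.inl h)
      · exact absurd (h ▸ hr') hu
    · exfalso
      rw [em, Sym2.mem_iff, Sym2.mem_iff] at her
      rcases her with (h | h) | (h | h)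
      · exact hu (h ▸ hr)
      · exact hu' (h ▸ hr)
      · exact hu (h ▸ hr')
      · exact hu' (h ▸ hr')
    · refine ⟨α, Finset.mem_inter.2 ⟨hα, hnew _ h2 he'⟩, ?_⟩
      rw [e2, Sym2.mem_iff, Sym2.mem_iff] at her
      rw [hαe, Sym2.mem_iff, Sym2.mem_iff]
      rcases her with (h | h) | (h | h)
      · exact absurd (h ▸ hr) hu'
      · exact Or.inl (Or.inr h)
      · exact absurd (h ▸ hr') hu'
      · exact Or.inr (Or.inr h)
  · rw [Finset.mem_sdiff, Finset.mem_insert, Finset.mem_singleton]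
    tauto

end Pool.GS
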