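import Pool.Agent.GSP.StmtsA

/-!
ROAD S, part A: module B2, insertion of a letter off the circuit.
-/

set_option autoImplicit false
set_option linter.unusedSectionVars false

namespace Pool.GS

open Pool.GOD Pool.GS.SP

namespace B2

section

variable {V E : Type} [Fintype V] [DecidableEq V] [Fintype E] [DecidableEq E]

lemma filt_H (H : Finset E) (α₀ α₁ : E) (h0 : α₀ ∈ H) (h1 : α₁ ∈ H) (hne : α₀ ≠ α₁) (P : E → Prop)
    [DecidablePred P] : (H.filter P).card = (((H.erase α₀).erase α₁).filter P).card +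
      (if P α₀ then 1 else 0) + (if P α₁ then 1 else 0) := by
  rw [Finset.card_filter, Finset.card_filter, ← Finset.add_sum_erase H _ h0,
    ← Finset.add_sum_erase (H.erase α₀) _ (Finset.mem_erase.2 ⟨hne.symm, h1⟩)]
  ring

lemma dist5 {b₀ b₁ c₀ c₁ m : E} (hc : ({b₀, b₁, c₀, c₁, m} : Finset E).card = 5) :
    b₀ ∉ ({b₁, c₀, c₁, m} : Finset E) ∧ b₁ ∉ ({c₀, c₁, m} : Finset E) ∧
      c₀ ∉ ({c₁, m} : Finset E) ∧ c₁ ∉ ({m} : Finset E) := by
  have h1 : b₀ ∉ ({b₁, c₀, c₁, m} : Finset E) := by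
    intro h
    rw [Finset.insert_eq_of_mem h] at hc
    have := Finset.card_le_four (a := b₁) (b := c₀) (c := c₁) (d := m)
    omega
  rw [Finset.card_insert_of_notMem h1] at hc
  have h2 : b₁ ∉ ({c₀, c₁, m} : Finset E) := by
    intro h
    rw [Finset.insert_eq_of_mem h] at hc
    have := Finset.card_le_three (a := c₀) (b := c₁) (c := m)
    omega
  rw [Finset.card_insert_of_notMem h2] at hc
  have h3 : c₀ ∉ ({c₁, m} : Finset E) := by
    intro h
    rw [Finset.insert_eq_of_mem h] at hc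
    have := Finset.card_le_two (a := c₁) (b := m)
    omega
  rw [Finset.card_insert_of_notMem h3] at hc
  have h4 : c₁ ∉ ({m} : Finset E) := by
    intro h
    rw [Finset.insert_eq_of_mem h, Finset.card_singleton] at hc
    omega
  exact ⟨h1, h2, h3, h4⟩

lemma filt_new (J : Finset E) {b₀ b₁ c₀ c₁ m : E}
    (hc : ({b₀, b₁, c₀, c₁, m} : Finset E).card = 5)
    (hd : Disjoint J {b₀, b₁, c₀, c₁, m}) (P : E → Prop) [DecidablePred P] :
    ((J ∪ {b₀, b₁, c₀, c₁, m}).filter P).card = (J.filter P).card +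
      (if P b₀ then 1 else 0) + (if P b₁ then 1 else 0) + (if P c₀ then 1 else 0) +
      (if P c₁ then 1 else 0) + (if P m then 1 else 0) := by
  obtain ⟨h1, h2, h3, h4⟩ := dist5 hc
  rw [Finset.card_filter, Finset.card_filter, Finset.sum_union hd, Finset.sum_insert h1,
    Finset.sum_insert h2, Finset.sum_insert h3, Finset.sum_insert h4, Finset.sum_singleton]
  ring

variable (G : MGraph V E)

lemma inter_cut (X : Finset E) (Y : Finset V) :
    (X ∩ G.cut Y).card = (X.filter (fun e => e ∈ G.cut Y)).card := by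
  rw [Finset.filter_mem_eq_inter]

/-- the data of the insertion -/
structure Dat (H : Finset E) (W : Finset V) (p q c s u u' w w' : V) (α₀ α₁ b₀ b₁ c₀ c₁ m : E) :
    Prop where
  hW : ∀ e ∈ H, ∀ v ∈ G.ends e, v ∈ W
  hu : u ∉ W
  hu' : u' ∉ W
  huu : u ≠ u'
  m0 : α₀ ∈ H
  m1 : α₁ ∈ H
  n01 : α₀ ≠ α₁
  e0 : G.ends α₀ = s(p, q)
  e1 : G.ends α₁ = s(c, s)
  card : ({b₀, b₁, c₀, c₁, m} : Finset E).card = 5
  dis : Disjoint H {b₀, b₁, c₀, c₁, m}
  ww : (w = u ∧ w' = u') ∨ (w = u' ∧ w' = u)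
  f0 : G.ends b₀ = s(p, u)
  f1 : G.ends b₁ = s(u', q)
  g0 : G.ends c₀ = s(c, w)
  g1 : G.ends c₁ = s(w', s)
  em : G.ends m = s(u, u')
  ncut : ∀ Y, H ∩ G.cut Y ≠ {α₀, α₁}

variable {G}
variable {H : Finset E} {W : Finset V} {p q c s u u' w w' : V} {α₀ α₁ b₀ b₁ c₀ c₁ m : E}

lemma Dat.disJ (D : Dat G H W p q c s u u' w w' α₀ α₁ b₀ b₁ c₀ c₁ m) :
    Disjoint ((H.erase α₀).erase α₁) {b₀, b₁, c₀, c₁, m} :=
  Finset.disjoint_of_subset_left ((Finset.erase_subset _ _).trans (Finset.erase_subset _ _)) D.dis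

lemma Dat.pW (D : Dat G H W p q c s u u' w w' α₀ α₁ b₀ b₁ c₀ c₁ m) : p ∈ W :=
  D.hW _ D.m0 p (by rw [D.e0]; exact Sym2.mem_mk_left p q)

lemma Dat.qW (D : Dat G H W p q c s u u' w w' α₀ α₁ b₀ b₁ c₀ c₁ m) : q ∈ W :=
  D.hW _ D.m0 q (by rw [D.e0]; exact Sym2.mem_mk_right p q)

lemma Dat.cW (D : Dat G H W p q c s u u' w w' α₀ α₁ b₀ b₁ c₀ c₁ m) : c ∈ W :=
  D.hW _ D.m1 c (by rw [D.e1]; exact Sym2.mem_mk_left c s)

lemma Dat.sW (D : Dat G H W p q c s u u' w w' α₀ α₁ b₀ b₁ c₀ c₁ m) : s ∈ W :=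
  D.hW _ D.m1 s (by rw [D.e1]; exact Sym2.mem_mk_right c s)

/-- the two counts -/
lemma Dat.cnt (D : Dat G H W p q c s u u' w w' α₀ α₁ b₀ b₁ c₀ c₁ m) (Y : Finset V) :
    (H ∩ G.cut Y).card = (((H.erase α₀).erase α₁) ∩ G.cut Y).card +
      (if α₀ ∈ G.cut Y then 1 else 0) + (if α₁ ∈ G.cut Y then 1 else 0) ∧
    ((((H.erase α₀).erase α₁) ∪ {b₀, b₁, c₀, c₁, m}) ∩ G.cut Y).card =
      (((H.erase α₀).erase α₁) ∩ G.cut Y).card + (if b₀ ∈ G.cut Y then 1 else 0) +
      (if b₁ ∈ G.cut Y then 1 else 0) + (if c₀ ∈ G.cut Y then 1 else 0) +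
      (if c₁ ∈ G.cut Y then 1 else 0) + (if m ∈ G.cut Y then 1 else 0) := by
  constructor
  · rw [inter_cut, inter_cut]
    exact filt_H H α₀ α₁ D.m0 D.m1 D.n01 _
  · rw [inter_cut, inter_cut]
    exact filt_new _ D.card D.disJ _

/-- if no edge of `J` crosses then `α₀`, `α₁` do not both cross -/
lemma Dat.nboth (D : Dat G H W p q c s u u' w w' α₀ α₁ b₀ b₁ c₀ c₁ m) (Y : Finset V)
    (hJ : (((H.erase α₀).erase α₁) ∩ G.cut Y).card = 0) (h0 : α₀ ∈ G.cut Y) (h1 : α₁ ∈ G.cut Y) :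
    False := by
  apply D.ncut Y
  rw [Finset.card_eq_zero] at hJ
  ext e
  rw [Finset.mem_inter, Finset.mem_insert, Finset.mem_singleton]
  constructor
  · rintro ⟨he, hc⟩
    by_contra hn
    push Not at hn
    have : e ∈ ((H.erase α₀).erase α₁) ∩ G.cut Y :=
      Finset.mem_inter.2 ⟨Finset.mem_erase.2 ⟨hn.2, Finset.mem_erase.2 ⟨hn.1, he⟩⟩, hc⟩
    rw [hJ] at this
    exact absurd this (Finset.notMem_empty e)
  · rintro (rfl | rfl)
    · exact ⟨D.m0, h0⟩
    · exact ⟨D.m1, h1⟩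

lemma Dat.twoEC (D : Dat G H W p q c s u u' w w' α₀ α₁ b₀ b₁ c₀ c₁ m) (hT : TwoEC G H W) :
    TwoEC G (((H.erase α₀).erase α₁) ∪ {b₀, b₁, c₀, c₁, m}) (W ∪ {u, u'}) := by
  intro Y hY hY'
  obtain ⟨k1, k2⟩ := D.cnt Y
  rw [k2]
  have hn := D.nboth Y
  by_cases hcon : (∃ v ∈ W, v ∈ Y) ∧ (∃ v ∈ W, v ∉ Y)
  · have h2 := hT Y hcon.1 hcon.2
    rw [k1] at h2
    simp only [G.mem_cut D.e0, G.mem_cut D.e1] at h2 hn
    simp only [G.mem_cut D.f0, G.mem_cut D.f1, G.mem_cut D.g0, G.mem_cut D.g1, G.mem_cut D.em]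
    rcases D.ww with ⟨rfl, rfl⟩ | ⟨rfl, rfl⟩ <;>
    by_cases h3 : p ∈ Y <;> by_cases h4 : q ∈ Y <;> by_cases h5 : c ∈ Y <;> by_cases h6 : s ∈ Y <;>
    by_cases h7 : w ∈ Y <;> by_cases h8 : w' ∈ Y <;>
    simp only [h3, h4, h5, h6, h7, h8, not_true_eq_false, not_false_eq_true, and_true, and_false,
      or_false, or_true, if_true, if_false, and_self,
      or_self, imp_false, implies_true] at h2 hn ⊢ <;> omega
  · have hc : (∀ v ∈ W, v ∈ Y) ∨ (∀ v ∈ W, v ∉ Y) := by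
      by_cases h : ∃ v ∈ W, v ∈ Y
      · left
        intro v hv
        by_contra hv'
        exact hcon ⟨h, v, hv, hv'⟩
      · right
        intro v hv hv'
        exact h ⟨v, hv, hv'⟩
    simp only [G.mem_cut D.f0, G.mem_cut D.f1, G.mem_cut D.g0, G.mem_cut D.g1, G.mem_cut D.em]
    rcases hc with hc | hc
    · obtain ⟨v, hv, hvY⟩ := hY'
      have hv2 : v = u ∨ v = u' := by
        rcases Finset.mem_union.1 hv with h | h
        · exact absurd (hc v h) hvY
        · rw [Finset.mem_insert, Finset.mem_singleton] at h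
          exact h
      have h3 := hc p D.pW
      have h4 := hc q D.qW
      rcases hv2 with rfl | rfl
      · by_cases h8 : u' ∈ Y <;> simp [h3, h4, hvY, h8] <;> omega
      · by_cases h8 : u ∈ Y <;> simp [h3, h4, hvY, h8] <;> omega
    · obtain ⟨v, hv, hvY⟩ := hY
      have hv2 : v = u ∨ v = u' := by
        rcases Finset.mem_union.1 hv with h | h
        · exact absurd hvY (hc v h)
        · rw [Finset.mem_insert, Finset.mem_singleton] at h
          exact h
      have h3 := hc p D.pW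
      have h4 := hc q D.qW
      rcases hv2 with rfl | rfl
      · by_cases h8 : u' ∈ Y <;> simp [h3, h4, hvY, h8] <;> omega
      · by_cases h8 : u ∈ Y <;> simp [h3, h4, hvY, h8] <;> omega

lemma mem_cut_of {e : E} {v : V} {Y : Finset V} (he : e ∈ G.cut Y) (hv : v ∈ G.ends e) :
    ∃ x, G.ends e = s(v, x) ∧ (v ∈ Y ↔ x ∉ Y) := by
  obtain ⟨x, hx⟩ := Sym2.mem_iff_exists.1 hv
  refine ⟨x, hx, ?_⟩
  rw [G.mem_cut hx] at he
  tauto

/-- the chain of vertices of degree 2 -/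
lemma Dat.chain (D : Dat G H W p q c s u u' w w' α₀ α₁ b₀ b₁ c₀ c₁ m) (hT : TwoEC G H W) :
    ∀ (n : ℕ) (Y : Finset V), Y.card = n → Y ⊆ W → c ∉ Y → p ∈ Y → q ∈ Y → s ∈ Y →
      (∀ v ∈ Y, G.deg H v = 2) → ∀ h, h ≠ α₀ → h ≠ α₁ → H ∩ G.cut Y = {α₁, h} → False := by
  intro n
  induction n with
  | zero =>
    intro Y hn _ _ hp
    rw [Finset.card_eq_zero] at hn
    rw [hn] at hp
    exact absurd hp (Finset.notMem_empty p)
  | succ n ih =>
    intro Y hn hYW hc hp hq hs hdeg h hh0 hh1 hcut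
    have hh : h ∈ H ∩ G.cut Y := by
      rw [hcut]
      exact Finset.mem_insert_of_mem (Finset.mem_singleton_self h)
    have hhH := (Finset.mem_inter.1 hh).1
    -- the end of `h` in `Y`
    obtain ⟨y, z, hyz, hy, hz⟩ : ∃ y z, G.ends h = s(y, z) ∧ y ∈ Y ∧ z ∉ Y := by
      obtain ⟨a, b, -, hab⟩ := G.exists_ends h
      rcases (G.mem_cut hab).1 (Finset.mem_inter.1 hh).2 with ⟨h1, h2⟩ | ⟨h1, h2⟩
      · exact ⟨a, b, hab, h1, h2⟩
      · exact ⟨b, a, by rw [hab, Sym2.eq_swap], h1, h2⟩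
    have hyh : y ∈ G.ends h := by rw [hyz]; exact Sym2.mem_mk_left y z
    -- the other edge at `y`
    obtain ⟨g, hgh, hg⟩ : ∃ g, g ≠ h ∧ H.filter (fun e => y ∈ G.ends e) = {h, g} := by
      have h1 : (H.filter (fun e => y ∈ G.ends e)).card = 2 := hdeg y hy
      obtain ⟨a, b, hab, h2⟩ := Finset.card_eq_two.1 h1
      have h3 : h ∈ H.filter (fun e => y ∈ G.ends e) := Finset.mem_filter.2 ⟨hhH, hyh⟩
      rw [h2, Finset.mem_insert, Finset.mem_singleton] at h3
      rcases h3 with rfl | rfl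
      · exact ⟨b, hab.symm, h2⟩
      · exact ⟨a, hab, by rw [h2, Finset.pair_comm]⟩
    have hat : ∀ e ∈ H, y ∈ G.ends e → e = h ∨ e = g := by
      intro e he hye
      have h1 : e ∈ H.filter (fun e => y ∈ G.ends e) := Finset.mem_filter.2 ⟨he, hye⟩
      rw [hg, Finset.mem_insert, Finset.mem_singleton] at h1
      exact h1
    have hgm : g ∈ H ∧ y ∈ G.ends g := by
      have h1 : g ∈ H.filter (fun e => y ∈ G.ends e) := by
        rw [hg]
        exact Finset.mem_insert_of_mem (Finset.mem_singleton_self g)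
      exact Finset.mem_filter.1 h1
    -- the cut of `Y - y`
    have hnot : ∀ e, y ∉ G.ends e → (e ∈ G.cut (Y.erase y) ↔ e ∈ G.cut Y) := by
      intro e he
      obtain ⟨a, b, -, hab⟩ := G.exists_ends e
      have ha : a ≠ y := by
        rintro rfl
        exact he (by rw [hab]; exact Sym2.mem_mk_left _ _)
      have hb : b ≠ y := by
        rintro rfl
        exact he (by rw [hab]; exact Sym2.mem_mk_right _ _)
      rw [G.mem_cut hab, G.mem_cut hab, Finset.mem_erase, Finset.mem_erase]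
      tauto
    have hh' : h ∉ G.cut (Y.erase y) := by
      rw [G.mem_cut hyz]
      have h1 : y ∉ Y.erase y := Finset.notMem_erase y Y
      have h2 : z ∉ Y.erase y := fun h => hz (Finset.mem_of_mem_erase h)
      tauto
    have hone : ∃ v ∈ W, v ∉ Y.erase y := ⟨c, D.cW, fun h => hc (Finset.mem_of_mem_erase h)⟩
    have hpq : p ≠ q := G.ne_of_ends D.e0
    have htwo : ∃ v ∈ W, v ∈ Y.erase y := by
      by_cases hyp : y = p
      · exact ⟨q, D.qW, Finset.mem_erase.2 ⟨fun h => hpq (by rw [h, hyp]), hq⟩⟩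
      · exact ⟨p, D.pW, Finset.mem_erase.2 ⟨fun h => hyp h.symm, hp⟩⟩
    have hα1 : α₁ ∈ H ∩ G.cut Y := by
      rw [hcut]
      exact Finset.mem_insert_self _ _
    by_cases hgα : g = α₁
    · -- an empty cut
      have hys : y = s := by
        have h1 := hgm.2
        rw [hgα, D.e1, Sym2.mem_iff] at h1
        rcases h1 with h1 | h1
        · exact absurd (h1 ▸ hy) hc
        · exact h1
      have hemp : H ∩ G.cut (Y.erase y) = ∅ := by
        rw [Finset.eq_empty_iff_forall_notMem]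
        intro e he
        obtain ⟨he1, he2⟩ := Finset.mem_inter.1 he
        by_cases hye : y ∈ G.ends e
        · rcases hat e he1 hye with rfl | rfl
          · exact hh' he2
          · rw [hgα, G.mem_cut D.e1, hys] at he2
            have h1 : s ∉ Y.erase s := Finset.notMem_erase s Y
            have h2 : c ∉ Y.erase s := fun h => hc (Finset.mem_of_mem_erase h)
            tauto
        · have h1 : e ∈ H ∩ G.cut Y := Finset.mem_inter.2 ⟨he1, (hnot e hye).1 he2⟩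
          rw [hcut, Finset.mem_insert, Finset.mem_singleton] at h1
          rcases h1 with rfl | rfl
          · exact hye (hgα ▸ hgm.2)
          · exact hye hyh
      have h2 := hT _ htwo hone
      rw [hemp, Finset.card_empty] at h2
      omega
    · -- the cut is `{α₁, g}`
      have hys : s ≠ y := by
        intro h1
        have h2 : y ∈ G.ends α₁ := by
          rw [D.e1, ← h1]
          exact Sym2.mem_mk_right _ _
        rcases hat α₁ D.m1 h2 with h3 | h3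
        · exact hh1 h3.symm
        · exact hgα h3.symm
      have hgY : g ∉ G.cut Y := by
        intro h1
        have h2 : g ∈ H ∩ G.cut Y := Finset.mem_inter.2 ⟨hgm.1, h1⟩
        rw [hcut, Finset.mem_insert, Finset.mem_singleton] at h2
        rcases h2 with h2 | h2
        · exact hgα h2
        · exact hgh h2
      have hgc : g ∈ G.cut (Y.erase y) := by
        obtain ⟨x, hx⟩ := Sym2.mem_iff_exists.1 hgm.2
        have hxy : y ≠ x := G.ne_of_ends hx
        rw [G.mem_cut hx] at hgY ⊢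
        have h1 : y ∉ Y.erase y := Finset.notMem_erase y Y
        have h2 : x ∈ Y := by tauto
        have h3 : x ∈ Y.erase y := Finset.mem_erase.2 ⟨hxy.symm, h2⟩
        tauto
      have hαc : α₁ ∈ G.cut (Y.erase y) := by
        rw [G.mem_cut D.e1]
        exact Or.inr ⟨Finset.mem_erase.2 ⟨hys, hs⟩, fun h => hc (Finset.mem_of_mem_erase h)⟩
      have hcut' : H ∩ G.cut (Y.erase y) = {α₁, g} := by
        ext e
        rw [Finset.mem_inter, Finset.mem_insert, Finset.mem_singleton]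
        constructor
        · rintro ⟨he1, he2⟩
          by_cases hye : y ∈ G.ends e
          · rcases hat e he1 hye with rfl | rfl
            · exact absurd he2 hh'
            · exact Or.inr rfl
          · have h1 : e ∈ H ∩ G.cut Y := Finset.mem_inter.2 ⟨he1, (hnot e hye).1 he2⟩
            rw [hcut, Finset.mem_insert, Finset.mem_singleton] at h1
            rcases h1 with rfl | rfl
            · exact Or.inl rfl
            · exact absurd hyh hye
        · rintro (rfl | rfl)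
          · exact ⟨D.m1, hαc⟩
          · exact ⟨hgm.1, hgc⟩
      have hgα0 : g ≠ α₀ := by
        rintro rfl
        exact D.ncut (Y.erase y) (by rw [hcut', Finset.pair_comm])
      have hα0y : y ∉ G.ends α₀ := by
        intro h1
        rcases hat α₀ D.m0 h1 with h2 | h2
        · exact hh0 h2.symm
        · exact hgα0 h2.symm
      rw [D.e0, Sym2.mem_iff] at hα0y
      push Not at hα0y
      refine ih (Y.erase y) ?_ ((Finset.erase_subset _ _).trans hYW)
        (fun h => hc (Finset.mem_of_mem_erase h)) (Finset.mem_erase.2 ⟨hα0y.1.symm, hp⟩)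
        (Finset.mem_erase.2 ⟨hα0y.2.symm, hq⟩) (Finset.mem_erase.2 ⟨hys, hs⟩)
        (fun v hv => hdeg v (Finset.mem_of_mem_erase hv)) g hgα0 hgα hcut'
      rw [Finset.card_erase_of_mem hy, hn]
      rfl

lemma Dat.deg_eq (D : Dat G H W p q c s u u' w w' α₀ α₁ b₀ b₁ c₀ c₁ m) (v : V) (hv : v ∈ W) :
    G.deg (((H.erase α₀).erase α₁) ∪ {b₀, b₁, c₀, c₁, m}) v = G.deg H v := by
  have h1 : G.deg (((H.erase α₀).erase α₁) ∪ {b₀, b₁, c₀, c₁, m}) v = _ :=
    filt_new _ D.card D.disJ (fun e => v ∈ G.ends e)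
  have h2 : G.deg H v = _ := filt_H H α₀ α₁ D.m0 D.m1 D.n01 (fun e => v ∈ G.ends e)
  rw [h1, h2]
  simp only [D.e0, D.e1, D.f0, D.f1, D.g0, D.g1, D.em, Sym2.mem_iff]
  have hvu : v ≠ u := fun h => D.hu (h ▸ hv)
  have hvu' : v ≠ u' := fun h => D.hu' (h ▸ hv)
  have hpq : p ≠ q := G.ne_of_ends D.e0
  have hcs : c ≠ s := G.ne_of_ends D.e1
  have hw : v ≠ w ∧ v ≠ w' := by
    rcases D.ww with ⟨rfl, rfl⟩ | ⟨rfl, rfl⟩
    · exact ⟨hvu, hvu'⟩
    · exact ⟨hvu', hvu⟩
  simp only [hvu, hvu', hw.1, hw.2, or_false, false_or, if_false]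
  by_cases h3 : v = p
  · have h4 : v ≠ q := fun h => hpq (by rw [← h3, h])
    by_cases h5 : v = c
    · have h6 : v ≠ s := fun h => hcs (by rw [← h5, h])
      simp only [← h3, ← h5, h4, h6, if_true, if_false, true_or]
    · by_cases h6 : v = s
      · simp only [← h3, ← h6, h4, h5, if_true, if_false, true_or, or_true]
      · simp only [← h3, h4, h5, h6, if_true, if_false, true_or, or_self]
  · by_cases h4 : v = q
    · by_cases h5 : v = c
      · have h6 : v ≠ s := fun h => hcs (by rw [← h5, h])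
        simp only [h3, ← h4, ← h5, h6, if_true, if_false, true_or, or_true]
      · by_cases h6 : v = s
        · simp only [h3, ← h4, ← h6, h5, if_true, if_false, or_true]
        · simp only [h3, ← h4, h5, h6, if_true, if_false, or_true, or_self]
    · by_cases h5 : v = c
      · have h6 : v ≠ s := fun h => hcs (by rw [← h5, h])
        simp only [h3, h4, ← h5, h6, if_true, if_false, true_or, or_self]
      · by_cases h6 : v = s
        · simp only [h3, h4, ← h6, h5, if_true, if_false, or_true, or_self]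
        · simp only [h3, h4, h5, h6, if_false, or_self]

lemma Dat.cut_sdiff (D : Dat G H W p q c s u u' w w' α₀ α₁ b₀ b₁ c₀ c₁ m) (Y : Finset V) :
    H ∩ G.cut (Y \ {u, u'}) = H ∩ G.cut Y := by
  ext e
  rw [Finset.mem_inter, Finset.mem_inter]
  refine and_congr_right fun he => ?_
  obtain ⟨a, b, -, hab⟩ := G.exists_ends e
  have ha : a ∈ W := D.hW e he a (by rw [hab]; exact Sym2.mem_mk_left _ _)
  have hb : b ∈ W := D.hW e he b (by rw [hab]; exact Sym2.mem_mk_right _ _)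
  have h1 : ∀ x ∈ W, (x ∈ Y \ {u, u'} ↔ x ∈ Y) := by
    intro x hx
    rw [Finset.mem_sdiff, Finset.mem_insert, Finset.mem_singleton]
    have h2 : x ≠ u := fun h => D.hu (h ▸ hx)
    have h3 : x ≠ u' := fun h => D.hu' (h ▸ hx)
    tauto
  rw [G.mem_cut hab, G.mem_cut hab, h1 a ha, h1 b hb]

/-- both new vertices in `Y`: the numbers -/
lemma Dat.inner (D : Dat G H W p q c s u u' w w' α₀ α₁ b₀ b₁ c₀ c₁ m) (hT : TwoEC G H W)
    (Y : Finset V) (hcY : c ∉ Y) (hu : u ∈ Y) (hu' : u' ∈ Y)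
    (hcard : ((((H.erase α₀).erase α₁) ∪ {b₀, b₁, c₀, c₁, m}) ∩ G.cut Y).card = 2) :
    p ∈ Y ∧ q ∈ Y ∧ s ∈ Y ∧ (((H.erase α₀).erase α₁) ∩ G.cut Y).card = 1 := by
  have hw : w ∈ Y ∧ w' ∈ Y := by
    rcases D.ww with ⟨rfl, rfl⟩ | ⟨rfl, rfl⟩
    · exact ⟨hu, hu'⟩
    · exact ⟨hu', hu⟩
  obtain ⟨k1, k2⟩ := D.cnt Y
  rw [k2] at hcard
  have hn := D.nboth Y
  have h2 := hT Y
  rw [k1] at h2
  clear k1 k2
  generalize (((H.erase α₀).erase α₁) ∩ G.cut Y).card = N at *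
  simp only [G.mem_cut D.e0, G.mem_cut D.e1] at h2 hn
  simp only [G.mem_cut D.f0, G.mem_cut D.f1, G.mem_cut D.g0, G.mem_cut D.g1, G.mem_cut D.em]
    at hcard
  simp only [hcY, hu, hu', hw.1, hw.2, not_true_eq_false, not_false_eq_true, and_true, and_false,
    false_or, or_false, true_and, false_and, if_true, if_false] at h2 hn hcard
  have h3 : (∃ v ∈ W, v ∉ Y) := ⟨c, D.cW, hcY⟩
  have hpW := D.pW
  by_cases hs : s ∈ Y
  · by_cases hp : p ∈ Y
    · by_cases hq : q ∈ Y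
      · simp only [hp, hq, hs, not_true_eq_false, if_false] at hcard
        exact ⟨hp, hq, hs, by omega⟩
      · simp only [hp, hq, hs, not_true_eq_false, not_false_eq_true, if_false, if_true] at hcard
        exact (hn (by omega) (Or.inl ⟨hp, hq⟩) hs).elim
    · by_cases hq : q ∈ Y
      · simp only [hp, hq, hs, not_true_eq_false, not_false_eq_true, if_false, if_true] at hcard
        exact (hn (by omega) (Or.inr ⟨hq, hp⟩) hs).elim
      · simp only [hp, hq, hs, not_true_eq_false, not_false_eq_true, if_false, if_true] at hcard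
        omega
  · exfalso
    by_cases hp : p ∈ Y
    · by_cases hq : q ∈ Y
      · have h4 := h2 ⟨p, hpW, hp⟩ h3
        simp only [hp, hq, hs, not_true_eq_false, not_false_eq_true, and_false, or_self,
          if_false, if_true] at h4 hcard
        omega
      · simp only [hp, hq, hs, not_true_eq_false, not_false_eq_true,
          if_false, if_true] at hcard
        omega
    · simp only [hp, hs, not_false_eq_true, if_true] at hcard
      omega

/-- both new vertices in `Y`: the cut of the old graph -/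
lemma Dat.inner2 (D : Dat G H W p q c s u u' w w' α₀ α₁ b₀ b₁ c₀ c₁ m)
    (Y : Finset V) (hcY : c ∉ Y) (hp : p ∈ Y) (hq : q ∈ Y) (hs : s ∈ Y)
    (hJ1 : (((H.erase α₀).erase α₁) ∩ G.cut Y).card = 1) :
    ∃ h, h ≠ α₀ ∧ h ≠ α₁ ∧ H ∩ G.cut Y = {α₁, h} := by
  obtain ⟨h, hh⟩ := Finset.card_eq_one.1 hJ1
  have hh2 : h ∈ ((H.erase α₀).erase α₁) ∩ G.cut Y := by
    rw [hh]
    exact Finset.mem_singleton_self h
  obtain ⟨hh3, hh4⟩ := Finset.mem_inter.1 hh2
  have hh5 := Finset.ne_of_mem_erase hh3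
  have hh6 := Finset.ne_of_mem_erase (Finset.mem_of_mem_erase hh3)
  have hh7 := Finset.mem_of_mem_erase (Finset.mem_of_mem_erase hh3)
  have hα1 : α₁ ∈ G.cut Y := by
    rw [G.mem_cut D.e1]
    exact Or.inr ⟨hs, hcY⟩
  have hα0 : α₀ ∉ G.cut Y := by
    rw [G.mem_cut D.e0]
    tauto
  refine ⟨h, hh6, hh5, ?_⟩
  symm
  apply Finset.eq_of_subset_of_card_le
  · intro e he
    rw [Finset.mem_insert, Finset.mem_singleton] at he
    rcases he with rfl | rfl
    · exact Finset.mem_inter.2 ⟨D.m1, hα1⟩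
    · exact Finset.mem_inter.2 ⟨hh7, hh4⟩
  · rw [Finset.card_pair hh5.symm, (D.cnt Y).1, hJ1, if_neg hα0, if_pos hα1]

/-- both new vertices in `Y`: impossible -/
lemma Dat.inner3 (D : Dat G H W p q c s u u' w w' α₀ α₁ b₀ b₁ c₀ c₁ m) {r r' : V} (hr : r ∈ W)
    (hr' : r' ∈ W) (hL : Lev2 G H W r r') (hc : c = r ∨ c = r') (Y : Finset V)
    (hYW : Y ⊆ W ∪ {u, u'}) (hrY : r ∉ Y) (hrY' : r' ∉ Y) (hu : u ∈ Y) (hu' : u' ∈ Y)
    (hcard : ((((H.erase α₀).erase α₁) ∪ {b₀, b₁, c₀, c₁, m}) ∩ G.cut Y).card = 2) : False := by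
  have hcY : c ∉ Y := by
    rcases hc with rfl | rfl
    · exact hrY
    · exact hrY'
  obtain ⟨hp, hq, hs, hJ⟩ := D.inner hL.1 Y hcY hu hu' hcard
  obtain ⟨h, hh0, hh1, hcutY⟩ := D.inner2 Y hcY hp hq hs hJ
  have hne : ∀ x ∈ W, x ≠ u ∧ x ≠ u' :=
    fun x hx => ⟨fun h => D.hu (h ▸ hx), fun h => D.hu' (h ▸ hx)⟩
  have hsd : ∀ x ∈ W, (x ∈ Y \ {u, u'} ↔ x ∈ Y) := by
    intro x hx
    rw [Finset.mem_sdiff, Finset.mem_insert, Finset.mem_singleton]
    have h2 := hne x hx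
    tauto
  have hsub : Y \ {u, u'} ⊆ W := by
    intro x hx
    rw [Finset.mem_sdiff] at hx
    rcases Finset.mem_union.1 (hYW hx.1) with h | h
    · exact h
    · exact absurd h hx.2
  have hdeg : ∀ v ∈ Y \ {u, u'}, G.deg H v = 2 := by
    refine hL.2 _ hsub (fun h => hrY ((hsd r hr).1 h)) (fun h => hrY' ((hsd r' hr').1 h)) ?_ ?_
    · rw [D.cut_sdiff, hcutY, Finset.card_pair hh1.symm]
    · refine ⟨α₁, ?_, ?_⟩
      · rw [D.cut_sdiff, hcutY]
        exact Finset.mem_insert_self _ _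
      · rw [D.e1]
        rcases hc with rfl | rfl
        · exact Or.inl (Sym2.mem_mk_left _ _)
        · exact Or.inr (Sym2.mem_mk_left _ _)
  exact D.chain hL.1 _ _ rfl hsub (fun h => hcY ((hsd c D.cW).1 h))
    ((hsd p D.pW).2 hp) ((hsd q D.qW).2 hq) ((hsd s D.sW).2 hs) hdeg h hh0 hh1
    (by rw [D.cut_sdiff, hcutY])

/-- both new vertices outside of `Y`: the edge at the root is an old one -/
lemma Dat.outer (D : Dat G H W p q c s u u' w w' α₀ α₁ b₀ b₁ c₀ c₁ m) {x : V} (hx : x ∈ W)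
    (Y : Finset V) (hxY : x ∉ Y) (hcY : c ∉ Y) (hu : u ∉ Y) (hu' : u' ∉ Y) (ρ : E)
    (hρ : ρ ∈ ((H.erase α₀).erase α₁) ∪ {b₀, b₁, c₀, c₁, m}) (hρY : ρ ∈ G.cut Y)
    (hxρ : x ∈ G.ends ρ) : ρ ∈ H := by
  have hxu : x ≠ u ∧ x ≠ u' := ⟨fun h => D.hu (h ▸ hx), fun h => D.hu' (h ▸ hx)⟩
  have hw : w ∉ Y ∧ w' ∉ Y := by
    rcases D.ww with ⟨rfl, rfl⟩ | ⟨rfl, rfl⟩
    · exact ⟨hu, hu'⟩
    · exact ⟨hu', hu⟩
  have hxw : x ≠ w ∧ x ≠ w' := by
    rcases D.ww with ⟨h, h'⟩ | ⟨h, h'⟩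
    · rw [h, h']; exact hxu
    · rw [h, h']; exact ⟨hxu.2, hxu.1⟩
  rcases Finset.mem_union.1 hρ with h | h
  · exact Finset.mem_of_mem_erase (Finset.mem_of_mem_erase h)
  · exfalso
    simp only [Finset.mem_insert, Finset.mem_singleton] at h
    rcases h with rfl | rfl | rfl | rfl | rfl
    · rw [D.f0, Sym2.mem_iff] at hxρ
      rw [G.mem_cut D.f0] at hρY
      rcases hxρ with rfl | rfl
      · tauto
      · exact hxu.1 rfl
    · rw [D.f1, Sym2.mem_iff] at hxρ
      rw [G.mem_cut D.f1] at hρY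
      rcases hxρ with rfl | rfl
      · exact hxu.2 rfl
      · tauto
    · rw [G.mem_cut D.g0] at hρY
      tauto
    · rw [D.g1, Sym2.mem_iff] at hxρ
      rw [G.mem_cut D.g1] at hρY
      rcases hxρ with rfl | rfl
      · exact hxw.2 rfl
      · tauto
    · rw [G.mem_cut D.em] at hρY
      tauto

/-- both new vertices outside of `Y`: the numbers -/
lemma Dat.outer2 (D : Dat G H W p q c s u u' w w' α₀ α₁ b₀ b₁ c₀ c₁ m)
    (Y : Finset V) (hcY : c ∉ Y) (hu : u ∉ Y) (hu' : u' ∉ Y) (hge : 2 ≤ (H ∩ G.cut Y).card)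
    (hcard : ((((H.erase α₀).erase α₁) ∪ {b₀, b₁, c₀, c₁, m}) ∩ G.cut Y).card = 2) :
    (H ∩ G.cut Y).card = 2 := by
  have hw : w ∉ Y ∧ w' ∉ Y := by
    rcases D.ww with ⟨rfl, rfl⟩ | ⟨rfl, rfl⟩
    · exact ⟨hu, hu'⟩
    · exact ⟨hu', hu⟩
  obtain ⟨k1, k2⟩ := D.cnt Y
  rw [k2] at hcard
  rw [k1] at hge ⊢
  clear k1 k2
  generalize (((H.erase α₀).erase α₁) ∩ G.cut Y).card = N at *
  simp only [G.mem_cut D.e0, G.mem_cut D.e1] at hge ⊢
  simp only [G.mem_cut D.f0, G.mem_cut D.f1, G.mem_cut D.g0, G.mem_cut D.g1, G.mem_cut D.em]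
    at hcard
  by_cases hp : p ∈ Y <;> by_cases hq : q ∈ Y <;> by_cases hs : s ∈ Y <;>
  simp only [hcY, hu, hu', hw.1, hw.2, hp, hq, hs, not_true_eq_false, not_false_eq_true,
    and_true, and_false, or_false, or_true, or_self, if_true, if_false, and_self] at hge hcard ⊢ <;>
  omega

lemma Dat.lev2 (D : Dat G H W p q c s u u' w w' α₀ α₁ b₀ b₁ c₀ c₁ m) {r r' : V} (hr : r ∈ W)
    (hr' : r' ∈ W) (hL : Lev2 G H W r r') (hc : c = r ∨ c = r')
    (hm : ∀ Y (ρ : E), r ∉ Y → r' ∉ Y → (r ∈ G.ends ρ ∨ r' ∈ G.ends ρ) →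
        (((H.erase α₀).erase α₁) ∪ {b₀, b₁, c₀, c₁, m}) ∩ G.cut Y ≠ {ρ, m}) :
    Lev2 G (((H.erase α₀).erase α₁) ∪ {b₀, b₁, c₀, c₁, m}) (W ∪ {u, u'}) r r' := by
  refine ⟨D.twoEC hL.1, ?_⟩
  intro Y hYW hrY hrY' hcard hρ
  obtain ⟨ρ, hρ1, hρ2⟩ := hρ
  have hne : ∀ x ∈ W, x ≠ u ∧ x ≠ u' :=
    fun x hx => ⟨fun h => D.hu (h ▸ hx), fun h => D.hu' (h ▸ hx)⟩
  have hcY : c ∉ Y := by
    rcases hc with rfl | rfl
    · exact hrY
    · exact hrY'
  have hmY : m ∉ G.cut Y := by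
    intro h1
    have hρm : ρ ≠ m := by
      rintro rfl
      rw [D.em, Sym2.mem_iff, Sym2.mem_iff] at hρ2
      have h2 := hne r hr
      have h3 := hne r' hr'
      tauto
    apply hm Y ρ hrY hrY' hρ2
    have h2 : m ∈ (((H.erase α₀).erase α₁) ∪ {b₀, b₁, c₀, c₁, m}) ∩ G.cut Y :=
      Finset.mem_inter.2 ⟨Finset.mem_union_right _ (by simp), h1⟩
    symm
    apply Finset.eq_of_subset_of_card_le
    · intro e he
      rw [Finset.mem_insert, Finset.mem_singleton] at he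
      rcases he with rfl | rfl
      · exact hρ1
      · exact h2
    · rw [hcard, Finset.card_pair hρm]
  have huu : u ∈ Y ↔ u' ∈ Y := by
    rw [G.mem_cut D.em] at hmY
    tauto
  by_cases hu : u ∈ Y
  · exact (D.inner3 hr hr' hL hc Y hYW hrY hrY' hu (huu.1 hu) hcard).elim
  · have hu' : u' ∉ Y := fun h => hu (huu.2 h)
    have hsub : Y ⊆ W := by
      intro x hx
      rcases Finset.mem_union.1 (hYW hx) with h | h
      · exact h
      · rw [Finset.mem_insert, Finset.mem_singleton] at h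
        rcases h with rfl | rfl
        · exact absurd hx hu
        · exact absurd hx hu'
    obtain ⟨h1, h2⟩ := Finset.mem_inter.1 hρ1
    have hρH : ρ ∈ H ∩ G.cut Y := by
      refine Finset.mem_inter.2 ⟨?_, h2⟩
      rcases hρ2 with h | h
      · exact D.outer hr Y hrY hcY hu hu' ρ h1 h2 h
      · exact D.outer hr' Y hrY' hcY hu hu' ρ h1 h2 h
    have hge : 2 ≤ (H ∩ G.cut Y).card := by
      refine hL.1 Y ?_ ⟨r, hr, hrY⟩
      obtain ⟨a, b, -, hab⟩ := G.exists_ends ρ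
      rcases (G.mem_cut hab).1 h2 with ⟨h3, -⟩ | ⟨h3, -⟩
      · exact ⟨a, hsub h3, h3⟩
      · exact ⟨b, hsub h3, h3⟩
    have hcard2 := D.outer2 Y hcY hu hu' hge hcard
    have hdeg := hL.2 Y hsub hrY hrY' hcard2 ⟨ρ, hρH, hρ2⟩
    intro v hv
    rw [D.deg_eq v (hsub hv)]
    exact hdeg v hv

end

end B2

theorem t_B2 : S_B2 := by
  intro V E _ _ _ _ G H W r r' p q c s u u' w w' α₀ α₁ b₀ b₁ c₀ c₁ m hW hr hr' hu hu' huu h0 h1 h01
    e0 e1 hcard hdis hww f0 f1 g0 g1 em hncut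
  have D : B2.Dat G H W p q c s u u' w w' α₀ α₁ b₀ b₁ c₀ c₁ m :=
    ⟨hW, hu, hu', huu, h0, h1, h01, e0, e1, hcard, hdis, hww, f0, f1, g0, g1, em, hncut⟩
  exact ⟨D.twoEC, fun hL hc hm => D.lev2 hr hr' hL hc hm⟩

end Pool.GS
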