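import Mathlib

/-!
MP_7b7176_co, ROAD S, pure permutation part.  A permutation is a finite set `S` of letters together
with injective functions `p` (position) and `q` (value).  All notions are stated for arbitrary
`p q : L → ℤ`, so that the symmetries are: inverse `(q, p)`, complement `(p, -q)`, reversal
`(-p, q)`, rotation by 180 degrees `(-p, -q)`.
-/

set_option autoImplicit false

namespace Pool.GSP

variable {L : Type*}

/-- `a, b, c, d` (in the order of positions) is an occurrence of 2413 or of 3142. -/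
def Occ (p q : L → ℤ) (a b c d : L) : Prop :=
  p a < p b ∧ p b < p c ∧ p c < p d ∧
    ((q c < q a ∧ q a < q d ∧ q d < q b) ∨ (q b < q d ∧ q d < q a ∧ q a < q c))

/-- `z` lies in one of the four corner regions of the bounding rectangle of `a, b, c, d`. -/
def Cor (p q : L → ℤ) (a b c d z : L) : Prop :=
  (p z < p a ∨ p d < p z) ∧ ((q z < q b ∧ q z < q c) ∨ (q b < q z ∧ q c < q z))

/-- Corner-free. -/
def CF (S : Finset L) (p q : L → ℤ) : Prop :=
  ∀ a ∈ S, ∀ b ∈ S, ∀ c ∈ S, ∀ d ∈ S, Occ p q a b c d → ∀ z ∈ S, ¬ Cor p q a b c d z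

/-- Blocks: intervals in positions and in values. -/
def Blk (S : Finset L) (p q : L → ℤ) (K : Finset L) : Prop :=
  K ⊆ S ∧ ∀ a ∈ K, ∀ b ∈ K, ∀ z ∈ S, z ∉ K →
    ¬ (p a < p z ∧ p z < p b) ∧ ¬ (q a < q z ∧ q z < q b)

/-- Simple permutations. -/
def Simple (S : Finset L) (p q : L → ℤ) : Prop :=
  ∀ K : Finset L, Blk S p q K → K.card ≤ 1 ∨ K = S

/-- The values of `a, b, c, d, e` are ordered like 25314 or like 41352. -/
def Pin (q : L → ℤ) (a b c d e : L) : Prop :=
  (q d < q a ∧ q a < q c ∧ q c < q e ∧ q e < q b) ∨ (q b < q e ∧ q e < q c ∧ q c < q a ∧ q a < q d)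

/-- There is neither 25314 nor 41352. -/
def No5 (S : Finset L) (p q : L → ℤ) : Prop :=
  ∀ a ∈ S, ∀ b ∈ S, ∀ c ∈ S, ∀ d ∈ S, ∀ e ∈ S, p a < p b → p b < p c → p c < p d → p d < p e →
    ¬ Pin q a b c d e

/-- `x` (upper left) and `y` (lower right) span an empty rectangle. -/
structure Pr (S : Finset L) (p q : L → ℤ) (x y : L) : Prop where
  hx : x ∈ S
  hy : y ∈ S
  pxy : p x < p y
  qyx : q y < q x
  emp : ∀ z ∈ S, p x < p z → p z < p y → ¬ (q y < q z ∧ q z < q x)

/-- The letter `u` in the lower right corner of the pair `x, y` is isolated. -/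
def Iso (S : Finset L) (p q : L → ℤ) (x y u : L) : Prop :=
  p y < p u ∧ q u < q y ∧
    (∀ z ∈ S, q u < q z → q z < q y → p x < p z ∧ p z < p u) ∧
    (∀ z ∈ S, p y < p z → p z < p u → q u < q z ∧ q z < q x)

/-- The level-2 condition: if the lower left corner is empty and there is a letter in the upper left
corner, then some letter of the upper right corner is lower than some letter of the upper left
corner. -/
def Hp (S : Finset L) (p q : L → ℤ) (x y : L) : Prop :=
  (∀ z ∈ S, ¬ (p z < p x ∧ q z < q y)) → ∀ u ∈ S, p u < p x → q x < q u →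
    ∃ z ∈ S, ∃ w ∈ S, p y < p z ∧ q x < q z ∧ p w < p x ∧ q z < q w

/-- The four level-2 conditions. -/
structure L2 (S : Finset L) (p q : L → ℤ) (x y : L) : Prop where
  h1 : Hp S p q x y
  h2 : Hp S q p y x
  h3 : Hp S (-q) (-p) x y
  h4 : Hp S (-p) (-q) y x

/-- The criterion for a pair `x, y` with signs. -/
structure GI (S : Finset L) (p q : L → ℤ) (sg : L → Bool) (x y : L) : Prop where
  pr : Pr S p q x y
  l2 : L2 S p q x y
  sx : sg x = true
  sy : sg y = true
  i1 : ∀ u ∈ S, sg u = false → ¬ Iso S p q x y u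
  i2 : ∀ u ∈ S, sg u = false → ¬ Iso S (-p) (-q) y x u

/-- Pairs satisfying the criterion for all signs of the other letters. -/
structure GP (S : Finset L) (p q : L → ℤ) (x y : L) : Prop where
  pr : Pr S p q x y
  l2 : L2 S p q x y
  i1 : ∀ u ∈ S, ¬ Iso S p q x y u
  i2 : ∀ u ∈ S, ¬ Iso S (-p) (-q) y x u

/-- For a pair `x, y` with `x` lower left and `y` upper right: one of the two other corners is not
empty. -/
def NE (S : Finset L) (p q : L → ℤ) (x y : L) : Prop :=
  ∃ z ∈ S, (p z < p x ∧ q y < q z) ∨ (p y < p z ∧ q z < q x)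

/-- A pair of type I or of type II satisfies the criterion. -/
def HasPair (S : Finset L) (p q : L → ℤ) (sg : L → Bool) : Prop :=
  (∃ x y, GI S p q sg x y) ∨ (∃ x y, GI S p (-q) (fun z => !sg z) x y ∧ NE S p q x y)

/-- A pair of type I or of type II satisfies the criterion whatever the other signs are. -/
def UPair (S : Finset L) (p q : L → ℤ) (sg : L → Bool) : Prop :=
  (∃ x y, sg x = true ∧ sg y = true ∧ GP S p q x y) ∨
    (∃ x y, sg x = false ∧ sg y = false ∧ GP S p (-q) x y ∧ NE S p q x y)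

/-- The special circuit: 2413 or 25314 with the signs `+ - - +` on the outer letters. -/
structure Theta (S : Finset L) (p q : L → ℤ) (sg : L → Bool) (a b c d : L) : Prop where
  ha : a ∈ S
  hb : b ∈ S
  hc : c ∈ S
  hd : d ∈ S
  p1 : p a < p b
  p2 : p b < p c
  p3 : p c < p d
  q1 : q c < q a
  q2 : q a < q d
  q3 : q d < q b
  sa : sg a = true
  sb : sg b = false
  sc : sg c = false
  sd : sg d = true
  cen : ∀ z ∈ S, z = a ∨ z = b ∨ z = c ∨ z = d ∨ (p b < p z ∧ p z < p c ∧ q a < q z ∧ q z < q d)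
  card : S.card ≤ 5

/-- The hypotheses of the persistence lemma (7.1): `u` first, `v` second, `l` last; `u` and `l` are
neighbours in value; `v` is on the other side of `l`. -/
structure R1 (S : Finset L) (p q : L → ℤ) (u v l : L) : Prop where
  hu : u ∈ S
  hv : v ∈ S
  hl : l ∈ S
  ul : u ≠ l
  vu : v ≠ u
  vl : v ≠ l
  fst : ∀ z ∈ S, z ≠ u → p u < p z
  snd : ∀ z ∈ S, z ≠ u → z ≠ v → p v < p z
  lst : ∀ z ∈ S, z ≠ l → p z < p l
  adj : ∀ z ∈ S, ¬ (q u < q z ∧ q z < q l) ∧ ¬ (q l < q z ∧ q z < q u)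
  sd : (q u < q l ∧ q l < q v) ∨ (q v < q l ∧ q l < q u)

/-- The hypotheses of the persistence lemma (7.2): `f` first, `v` second, `w` last but one, `l` last;
`w, f, l, v` are four consecutive values in this order or in the reversed order. -/
structure R2 (S : Finset L) (p q : L → ℤ) (f v w l : L) : Prop where
  hf : f ∈ S
  hv : v ∈ S
  hw : w ∈ S
  hl : l ∈ S
  fst : ∀ z ∈ S, z ≠ f → p f < p z
  snd : ∀ z ∈ S, z ≠ f → z ≠ v → p v < p z
  pen : ∀ z ∈ S, z ≠ l → z ≠ w → p z < p w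
  lst : ∀ z ∈ S, z ≠ l → p z < p l
  ord : (q w < q f ∧ q f < q l ∧ q l < q v) ∨ (q v < q l ∧ q l < q f ∧ q f < q w)
  con : ∀ z ∈ S, z ≠ f → z ≠ l →
    ¬ (q w < q z ∧ q z < q v) ∧ ¬ (q v < q z ∧ q z < q w)

variable {S : Finset L} {p q : L → ℤ}

lemma inj_neg {h : L → ℤ} (hh : Function.Injective h) : Function.Injective (-h) := by
  intro a b hab
  simp only [Pi.neg_apply, neg_inj] at hab
  exact hh hab

lemma ne_p {h : L → ℤ} (hh : Function.Injective h) {a b : L} (hab : a ≠ b) : h a ≠ h b :=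
  fun e => hab (hh e)

lemma lt_or {h : L → ℤ} (hh : Function.Injective h) {a b : L} (hab : a ≠ b) :
    h a < h b ∨ h b < h a :=
  lt_or_gt_of_ne (ne_p hh hab)

/-! ### Symmetries -/

lemma CF.compl (h : CF S p q) : CF S p (-q) := by
  intro a ha b hb c hc d hd h1 z hz h2
  refine h a ha b hb c hc d hd ?_ z hz ?_
  · simp only [Occ, Pi.neg_apply] at h1 ⊢
    omega
  · simp only [Cor, Pi.neg_apply] at h2 ⊢
    omega

lemma CF.rev (h : CF S p q) : CF S (-p) q := by
  intro a ha b hb c hc d hd h1 z hz h2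
  refine h d hd c hc b hb a ha ?_ z hz ?_
  · simp only [Occ, Pi.neg_apply] at h1 ⊢
    omega
  · simp only [Cor, Pi.neg_apply] at h2 ⊢
    omega

lemma CF.inv (h : CF S p q) : CF S q p := by
  intro a ha b hb c hc d hd h1 z hz h2
  rcases h1 with ⟨h3, h4, h5, h6 | h6⟩
  · refine h c hc a ha d hd b hb ?_ z hz ?_
    · simp only [Occ]
      omega
    · simp only [Cor] at h2 ⊢
      omega
  · refine h b hb d hd a ha c hc ?_ z hz ?_
    · simp only [Occ]
      omega
    · simp only [Cor] at h2 ⊢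
      omega

lemma CF.rc (h : CF S p q) : CF S (-p) (-q) := h.compl.rev

lemma CF.mono {T : Finset L} (h : CF S p q) (hT : T ⊆ S) : CF T p q :=
  fun a ha b hb c hc d hd h1 z hz =>
    h a (hT ha) b (hT hb) c (hT hc) d (hT hd) h1 z (hT hz)

lemma No5.mono {T : Finset L} (h : No5 S p q) (hT : T ⊆ S) : No5 T p q :=
  fun a ha b hb c hc d hd e he =>
    h a (hT ha) b (hT hb) c (hT hc) d (hT hd) e (hT he)

lemma No5.compl (h : No5 S p q) : No5 S p (-q) := by
  intro a ha b hb c hc d hd e he h1 h2 h3 h4 h5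
  refine h a ha b hb c hc d hd e he h1 h2 h3 h4 ?_
  simp only [Pin, Pi.neg_apply] at h5 ⊢
  omega

lemma No5.rev (h : No5 S p q) : No5 S (-p) q := by
  intro a ha b hb c hc d hd e he h1 h2 h3 h4 h5
  simp only [Pi.neg_apply, neg_lt_neg_iff] at h1 h2 h3 h4
  refine h e he d hd c hc b hb a ha h4 h3 h2 h1 ?_
  simp only [Pin] at h5 ⊢
  omega

lemma No5.rc (h : No5 S p q) : No5 S (-p) (-q) := h.compl.rev

lemma No5.inv (h : No5 S p q) : No5 S q p := by
  intro a ha b hb c hc d hd e he h1 h2 h3 h4 h5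
  rcases h5 with ⟨h5, h6, h7, h8⟩ | ⟨h5, h6, h7, h8⟩
  · refine h d hd a ha c hc e he b hb h5 h6 h7 h8 ?_
    simp only [Pin]
    omega
  · refine h b hb e he c hc a ha d hd h5 h6 h7 h8 ?_
    simp only [Pin]
    omega

lemma Blk.compl {K : Finset L} (h : Blk S p q K) : Blk S p (-q) K := by
  refine ⟨h.1, fun a ha b hb z hz hzK => ⟨(h.2 a ha b hb z hz hzK).1, ?_⟩⟩
  have h1 := (h.2 b hb a ha z hz hzK).2
  simp only [Pi.neg_apply, neg_lt_neg_iff]
  exact fun h2 => h1 ⟨h2.2, h2.1⟩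

lemma Blk.inv {K : Finset L} (h : Blk S p q K) : Blk S q p K :=
  ⟨h.1, fun a ha b hb z hz hzK => (h.2 a ha b hb z hz hzK).symm⟩

lemma Blk.rev {K : Finset L} (h : Blk S p q K) : Blk S (-p) q K := h.inv.compl.inv

lemma Simple.compl (h : Simple S p q) : Simple S p (-q) := by
  intro K hK
  have h1 := hK.compl
  rw [neg_neg] at h1
  exact h K h1

lemma Simple.inv (h : Simple S p q) : Simple S q p := fun K hK => h K hK.inv

lemma Simple.rev (h : Simple S p q) : Simple S (-p) q := h.inv.compl.inv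

lemma Simple.rc (h : Simple S p q) : Simple S (-p) (-q) := h.compl.rev

lemma Pr.inv {x y : L} (h : Pr S p q x y) : Pr S q p y x where
  hx := h.hy
  hy := h.hx
  pxy := h.qyx
  qyx := h.pxy
  emp := fun z hz h1 h2 h3 => h.emp z hz h3.1 h3.2 ⟨h1, h2⟩

lemma Pr.rc {x y : L} (h : Pr S p q x y) : Pr S (-p) (-q) y x where
  hx := h.hy
  hy := h.hx
  pxy := by
    simp only [Pi.neg_apply, neg_lt_neg_iff]
    exact h.pxy
  qyx := by
    simp only [Pi.neg_apply, neg_lt_neg_iff]
    exact h.qyx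
  emp := by
    intro z hz h1 h2 h3
    simp only [Pi.neg_apply, neg_lt_neg_iff] at h1 h2 h3
    exact h.emp z hz h2 h1 ⟨h3.2, h3.1⟩

lemma L2.inv {x y : L} (h : L2 S p q x y) : L2 S q p y x := ⟨h.h2, h.h1, h.h4, h.h3⟩

lemma L2.rc {x y : L} (h : L2 S p q x y) : L2 S (-p) (-q) y x := by
  refine ⟨h.h4, h.h3, ?_, ?_⟩
  · rw [neg_neg, neg_neg]
    exact h.h2
  · rw [neg_neg, neg_neg]
    exact h.h1

/-- Isolation is symmetric with respect to the inverse. -/
lemma iso_inv {x y u : L} : Iso S p q x y u ↔ Iso S (-q) (-p) x y u := by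
  simp only [Iso, Pi.neg_apply, neg_lt_neg_iff]
  constructor
  · rintro ⟨h1, h2, h3, h4⟩
    exact ⟨h2, h1, fun z hz h5 h6 => (h4 z hz h6 h5).symm, fun z hz h5 h6 => (h3 z hz h6 h5).symm⟩
  · rintro ⟨h1, h2, h3, h4⟩
    exact ⟨h2, h1, fun z hz h5 h6 => (h4 z hz h6 h5).symm, fun z hz h5 h6 => (h3 z hz h6 h5).symm⟩

lemma GP.rc {x y : L} (h : GP S p q x y) : GP S (-p) (-q) y x := by
  refine ⟨h.pr.rc, h.l2.rc, h.i2, ?_⟩
  rw [neg_neg, neg_neg]
  exact h.i1

lemma GP.inv {x y : L} (h : GP S p q x y) : GP S q p y x := by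
  refine ⟨h.pr.inv, h.l2.inv, ?_, ?_⟩
  · intro u hu h1
    have h2 := iso_inv.1 h1
    exact h.i2 u hu h2
  · intro u hu h1
    have h2 := iso_inv.1 h1
    rw [neg_neg, neg_neg] at h2
    exact h.i1 u hu h2

lemma GP.gi {x y : L} {sg : L → Bool} (h : GP S p q x y) (hx : sg x = true) (hy : sg y = true) :
    GI S p q sg x y :=
  ⟨h.pr, h.l2, hx, hy, fun u hu _ => h.i1 u hu, fun u hu _ => h.i2 u hu⟩

lemma UPair.hasPair {sg : L → Bool} (h : UPair S p q sg) : HasPair S p q sg := by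
  rcases h with ⟨x, y, hx, hy, h⟩ | ⟨x, y, hx, hy, h, h'⟩
  · exact Or.inl ⟨x, y, h.gi hx hy⟩
  · exact Or.inr ⟨x, y, h.gi (by simp [hx]) (by simp [hy]), h'⟩

lemma R1.compl {u v l : L} (h : R1 S p q u v l) : R1 S p (-q) u v l where
  hu := h.hu
  hv := h.hv
  hl := h.hl
  ul := h.ul
  vu := h.vu
  vl := h.vl
  fst := h.fst
  snd := h.snd
  lst := h.lst
  adj := by
    intro z hz
    have := h.adj z hz
    simp only [Pi.neg_apply]
    omega
  sd := by
    have := h.sd
    simp only [Pi.neg_apply]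
    omega

lemma R2.compl {f v w l : L} (h : R2 S p q f v w l) : R2 S p (-q) f v w l where
  hf := h.hf
  hv := h.hv
  hw := h.hw
  hl := h.hl
  fst := h.fst
  snd := h.snd
  pen := h.pen
  lst := h.lst
  ord := by
    have := h.ord
    simp only [Pi.neg_apply]
    omega
  con := by
    intro z hz h1 h2
    have := h.con z hz h1 h2
    simp only [Pi.neg_apply]
    omega

/-! ### Extreme letters -/

lemma exists_min [DecidableEq L] (h : L → ℤ) (hh : Function.Injective h) (hS : S.Nonempty) :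
    ∃ u ∈ S, ∀ z ∈ S, z ≠ u → h u < h z := by
  obtain ⟨u, hu, h1⟩ := S.exists_min_image h hS
  exact ⟨u, hu, fun z hz hzu => lt_of_le_of_ne (h1 z hz) (fun e => hzu (hh e).symm)⟩

lemma exists_max [DecidableEq L] (h : L → ℤ) (hh : Function.Injective h) (hS : S.Nonempty) :
    ∃ u ∈ S, ∀ z ∈ S, z ≠ u → h z < h u := by
  obtain ⟨u, hu, h1⟩ := S.exists_max_image h hS
  exact ⟨u, hu, fun z hz hzu => lt_of_le_of_ne (h1 z hz) (fun e => hzu (hh e))⟩

end Pool.GSP
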