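import Pool.Agent.GSP.Base

/-!
MP_7b7176_co, ROAD S, pure permutation part: statements of the modules.
The comment of every statement is its proof.
-/

set_option autoImplicit false

namespace Pool.GSP

/-- (5.1a) Let `a b c d e` be an occurrence of 25314 and `z` another letter.  Then `z` is a relative
twin of one of the five letters (20 of the 36 cells; the 16 other cells give a corner letter of one
of the occurrences of 2413 / 3142 in `a b c d e z`).  Finite check; 4-fold symmetry: the rotation
`(p, q) -> (q, -p)` maps the occurrence `(a, b, c, d, e)` to `(d, a, c, e, b)`. -/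
def S_CELL : Prop :=
  ∀ (L : Type) (S : Finset L) (p q : L → ℤ), Function.Injective p → Function.Injective q →
    CF S p q → ∀ a ∈ S, ∀ b ∈ S, ∀ c ∈ S, ∀ d ∈ S, ∀ e ∈ S,
    p a < p b → p b < p c → p c < p d → p d < p e →
    q d < q a → q a < q c → q c < q e → q e < q b →
    ∀ z ∈ S, (p z < p b ∧ q d < q z ∧ q z < q c) ∨ (p a < p z ∧ p z < p c ∧ q e < q z) ∨
      (p b < p z ∧ p z < p d ∧ q a < q z ∧ q z < q e) ∨ (p c < p z ∧ p z < p e ∧ q z < q a) ∨
      (p d < p z ∧ q c < q z ∧ q z < q b)

/-- (5.1b) Relative twins `x` of `a` and `y` of `b` are in the same relative position as `a`, `b`;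
the same for `b` and `c`.  (`x = a`, `y = b` etc. allowed.)  Proof of the first: let `p y < p x`;
then `p a < p y < p x < p b`, `q x, q a` between `q d` and `q c`, `q y` above `q e`.
`q x < q a`: `a y x c` is 2413, `d` is in its corner.  `q a < q x`, `q y < q b`: `y x b e` is 3142,
`a` is in its corner.  `q a < q x`, `q b < q y`: `x b d e` is 2413, `y` is in its corner.
The second: let `p x < p y`, so `p b < p x < p y < p c`.  `q c < q x`: `x y c e` is 2413, `a` is in
its corner.  `q x < q c`, `q b < q y`: `b x y c` is 3142, `a` is in its corner.  `q x < q c`,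
`q y < q b`: `x y d e` is 2413, `b` is in its corner. -/
def S_PAIR : Prop :=
  ∀ (L : Type) (S : Finset L) (p q : L → ℤ), Function.Injective p → Function.Injective q →
    CF S p q → ∀ a ∈ S, ∀ b ∈ S, ∀ c ∈ S, ∀ d ∈ S, ∀ e ∈ S,
    p a < p b → p b < p c → p c < p d → p d < p e →
    q d < q a → q a < q c → q c < q e → q e < q b →
    ∀ x ∈ S, ∀ y ∈ S, p a < p y → p y < p c → q e < q y →
      ((p x < p b → q d < q x → q x < q c → p x < p y) ∧
       (p b < p x → p x < p d → q a < q x → q x < q e → p y < p x))

/-- (5.1) Simple corner-free permutations with at least 6 letters contain neither 25314 nor 41352.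
Proof.  For 25314: by `S_CELL` every letter is in one of the five classes
`A = {p z < p b, q d < q z < q c}`, `B`, `C`, `D`, `E` (displayed in `S_CELL`); by `S_PAIR` and the
rotations `(p, q) -> (q, -p)` (which maps `(a, b, c, d, e)` to `(d, a, c, e, b)`) two letters of
different classes are in the same relative position (in `p` and in `q`) as the letters
`a, .., e` of these classes.  So every class is a block; it does not contain another one of the five
letters; so it has one letter, and `S` has 5 letters.  41352: complement. -/
def S_NO5 : Prop :=
  ∀ (L : Type) [DecidableEq L] (S : Finset L) (p q : L → ℤ), Function.Injective p →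
    Function.Injective q → Simple S p q → CF S p q → 6 ≤ S.card → No5 S p q

abbrev M_NO5 : Prop := S_CELL → S_PAIR → S_NO5

/-- (5.2) The first letter `f` and the last letter `l` are neighbours in value.
Proof.  By complement let `q f < q l`, `D` = letters below `f`, `U` = letters above `l`, `Z` =
letters between; `D`, `U` are not empty (simple: otherwise `S - f` resp. `S - l` is a block).  Let
`Z` be non-empty.  Case 1: all letters of `D` are before all letters of `U`.  Let `P` = all letters
up to the last letter `d` of `D` (in position).  `P` is no block, so some `z'` in `P` is larger than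
some `z''` after `P`; then `z', z''` are in `Z` and `f, z', d, z''` is a 2413 with `l` right of and
above it.  Case 2: the first letter `a` of `U` is before the last letter `d` of `D`.  Every `z` in
`Z` is left of `a` or right of `d`: else some `a'` in `U` is left of `z` and some `d'` in `D` is
right of `z` and `f a' z d' l` is 25314.  `Z_1` = letters of `Z` left of `a`, `Z_2` = right of `d`.
(i) `z` in `Z_1`, `y` in `Z_2` implies `z < y`: else `f z d y` is a 2413 with `l` in the corner.
(ii) `Z_1` is empty: else let `z` be the last letter of `Z_1` in position, `Q` = letters of `D` left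
of `z`.  If `g` in `Q`, `d'` in `D`, `g < d'` and `d'` right of `z`, then `f g z d'` is a 3142 with
`l` in the corner.  So `Q` is empty or all letters in `[min Q, f)`, and `Q + f + Z_1` is a block
(first letters up to `z`, an interval of values by (i)).  (iii) `Z_2` is empty by (ii) for
`(-p, -q)`. -/
def S_FL : Prop :=
  ∀ (L : Type) [DecidableEq L] (S : Finset L) (p q : L → ℤ), Function.Injective p →
    Function.Injective q → Simple S p q → CF S p q → No5 S p q → ∀ f ∈ S, ∀ l ∈ S,
    (∀ z ∈ S, z ≠ f → p f < p z) → (∀ z ∈ S, z ≠ l → p z < p l) →
    ∀ z ∈ S, ¬ (q f < q z ∧ q z < q l) ∧ ¬ (q l < q z ∧ q z < q f)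

/-- A simple permutation with at least 3 letters contains 2413 or 3142.  Proof.  Let `f` be the first
letter, `D` / `U` = letters below / above `f`.  Both are non-empty (else `S - f` is a block).  If
there is no occurrence: (1) for `u1, u2` in `U`, `d` in `D` with `u1 < d < u2` in position we have
`u1 < u2` in value (else `f u1 d u2` is 2413); (2) for `d1 < u < d2` in position `d1 > d2` in value.
Let the last letter be in `U` (the other case by complement) and let `R` be the letters after the
last letter of `D`: by (1) `R` is above all other letters, so `S - R` is a block; it contains `f` and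
`D`. -/
def S_OCC : Prop :=
  ∀ (L : Type) [DecidableEq L] (S : Finset L) (p q : L → ℤ), Function.Injective p →
    Function.Injective q → Simple S p q → 3 ≤ S.card →
    ∃ a ∈ S, ∃ b ∈ S, ∃ c ∈ S, ∃ d ∈ S, Occ p q a b c d

/-- A block with at least two letters without 2413 and 3142 contains a twin (block of size 2).
Proof.  Take a block `K'` of `S` inside `K` with `2 <= card K'`, of minimal cardinality: it is
simple (`Simple K' p q`: a block of `K'` is a block of `S`); if `3 <= card K'` it contains an
occurrence (`S_OCC`). -/
def S_TWIN : Prop :=
  ∀ (L : Type) [DecidableEq L] (S K : Finset L) (p q : L → ℤ), Function.Injective p →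
    Function.Injective q → Blk S p q K → 2 ≤ K.card →
    (∀ a ∈ K, ∀ b ∈ K, ∀ c ∈ K, ∀ d ∈ K, ¬ Occ p q a b c d) →
    ∃ x ∈ K, ∃ y ∈ K, x ≠ y ∧ Blk S p q {x, y}

abbrev M_TWIN : Prop := S_OCC → S_TWIN

/-- (7.1) Persistence.  Write `u, l, v` (`v = pi_2`); `x` is not `l` as `x` is before `y`, `u` is left
of `x`.  If `u` is between `x` and `y` in value nothing changes.  Old letters do not become isolated,
old level-2 conditions do not become false (`u` is left of everything: it never is between old
letters in position).  Look at `u` itself.  `u` in UL (`q x < q u`): `q x < q l` (`l` is next to `u`,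
`l` is not `x`; and `l` is not `y`), so `l` is in UR.  If `l < u`: `l` is between `x` and `u` in
value and right of `y`: `u` is not isolated, and `l` is the UR letter required in `Hp`.  If `l > u`:
`v > l`, `v` is between `u` and `x` in position or `v = x`, the latter impossible (`x < u`); `v` is
not between `y` and `u` in value: `u` is not isolated; `q x < q l < q v`, `v` in UL: `l` is the UR
letter required.  `u` in LL only helps. -/
def S_P1 : Prop :=
  ∀ (L : Type) [DecidableEq L] (S : Finset L) (p q : L → ℤ), Function.Injective p →
    Function.Injective q → ∀ u v l : L, R1 S p q u v l → ∀ x y : L,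
    GP (S.erase u) p q x y → GP S p q x y

/-- (7.2) Persistence for two letters (`f` first, `v` second, `w` last but one, `l` last).
`f` in UL (`q x < q f`): order `w < f < l < v`: `q x < q w` (`w` is not `x`), `w` is in UR and
between `x` and `f` in value, right of `y`: `f` is not isolated and `w` is the letter required in
`Hp`; reversed order `v < l < f < w`: `l` instead of `w`.  `l` in LR (`q l < q y`): order
`w < f < l < v`: `q v < q y` (`v` is not `y`), `v` is in LL and between `l` and `y` in value, left of
`x`; reversed order: `f` instead of `v`.  `f` in LL, `l` in UR only help; `f` or `l` between `x` and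
`y` in value changes nothing.  (The four conditions `Hp` are exchanged by `GP.inv`, `GP.rc`; `R2` is
preserved by rotation by 180 degrees with the roles `(l, w, v, f)`.) -/
def S_P2 : Prop :=
  ∀ (L : Type) [DecidableEq L] (S : Finset L) (p q : L → ℤ), Function.Injective p →
    Function.Injective q → ∀ f v w l : L, R2 S p q f v w l → 4 < S.card → ∀ x y : L,
    GP ((S.erase f).erase l) p q x y → GP S p q x y

/-- (8.2) Let `f` be first, `w` last but one, `l` last, `S - f` not simple.  Then `f` is between `w`
and `l` in value and no other letter is.  Proof.  Let `K` be a block of `S - f`,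
`2 <= card K < card S - 1`.  `K` is no block of `S` and `f` is first, so `f` is inside the value
range of `K`.  By `S_FL` no letter is between `f` and `l` in value; `K` is a block and has
letters above and below `f`; so if `l` is not in `K` it would be strictly inside the value range of
`K` (it is next to `f`): contradiction, so `l` is in `K`.  A letter `z` outside `K + f` is outside
the position range and outside the value range of `K`: it is in a corner of every occurrence in `K`;
so `K` has no occurrence and (`S_TWIN` for `S - f`) it contains a twin `x, y` of `S - f`; it is no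
block of `S` (simple, 3 <= card), so `f` is between `x` and `y` in value.  `l` is next to `f`,
so `l` is `x` or `y`, and the other one is the last but one letter (block of positions). -/
def S_R82 : Prop :=
  ∀ (L : Type) [DecidableEq L] (S : Finset L) (p q : L → ℤ), Function.Injective p →
    Function.Injective q → Simple S p q → CF S p q → 5 ≤ S.card → ∀ f ∈ S, ∀ w ∈ S, ∀ l ∈ S,
    w ≠ l → (∀ z ∈ S, z ≠ f → p f < p z) → (∀ z ∈ S, z ≠ l → p z < p l) →
    (∀ z ∈ S, z ≠ l → z ≠ w → p z < p w) →
    (∀ z ∈ S, ¬ (q f < q z ∧ q z < q l) ∧ ¬ (q l < q z ∧ q z < q f)) →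
    ¬ Simple (S.erase f) p q →
    ((q w < q f ∧ q f < q l) ∨ (q l < q f ∧ q f < q w)) ∧
      ∀ z ∈ S, z ≠ f → ¬ (q w < q z ∧ q z < q l) ∧ ¬ (q l < q z ∧ q z < q w)

abbrev M_R82 : Prop := S_TWIN → S_R82

/-- (8.3) Reduction.  Let `f, v` be the first two letters, `w, l` the last two.  By `S_FL` no letter is
between `f` and `l` in value.  If `S - f` is simple, `S_FL` for `S - f` (first letter `v`): no
letter of `S - f` is between `v` and `l`; if `v` and `f` were on the same side of `l`, `{f, v}` would
be a block of `S`; so `R1 S p q f v l`.  If `S - l` is simple: the same for `(-p, q)`.  Otherwise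
`S_R82` for `(p, q)` and for `(-p, q)` give `R2 S p q f v w l`; `S' = S - f - l` is simple: a block
`K` of `S'` with at least 2 letters which is not `S'` is no block of `S`, so `f` or `l` is inside its
value range (both are outside its position range), hence (the four values `w, f, l, v` are
consecutive) `w` and `v` are in `K`, the last and the first letter of `S'`: `K = S'`. -/
def S_RED : Prop :=
  ∀ (L : Type) [DecidableEq L] (S : Finset L) (p q : L → ℤ), Function.Injective p →
    Function.Injective q → Simple S p q → CF S p q → No5 S p q → 6 ≤ S.card →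
    (∃ u v l, R1 S p q u v l ∧ Simple (S.erase u) p q) ∨
    (∃ u v l, R1 S (-p) q u v l ∧ Simple (S.erase u) p q) ∨
    (∃ f v w l, R2 S p q f v w l ∧ Simple ((S.erase f).erase l) p q)

abbrev M_RED : Prop := S_FL → S_R82 → S_RED

/-- (8.4) for 5 letters.  By `S_FL` for `(p, q)` and for `(q, p)` the first and the last letter are
neighbours in value and the lowest and the highest letter are neighbours in position; with
`Simple`, `CF` there remain the four permutations 24153, 31524, 35142, 42513 (word = values in the
order of positions).  Pairs in `GP` (values), type I / type II: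
24153: I (2,1) (4,1) (4,3) (5,3), II (2,4) (4,5) (1,3);
31524: I (3,1) (3,2) (5,2) (5,4), II (3,5) (1,2) (2,4);
35142: I (3,1) (3,2) (5,1) (5,4) (4,2), II (3,5) (3,4) (1,4) (1,2);
42513: I (4,2) (4,3) (2,1) (5,1) (5,3), II (4,5) (2,5) (2,3) (1,3).
Type I pairs need `+ +`, type II pairs `- -`; every sign vector has one of them, e.g. 35142: 3+ gives
1-, 2- against II(1,2); 3- gives 5+, 4+ against I(5,4).  42513: 4+ gives 2-, 3- against II(2,3);
4- gives 5+, then 1-, 3- against II(1,3).  24153: 1+ gives 2-, 4- against II(2,4); 1- gives 3+, then
4-, 5- against II(4,5).  31524: 3+ gives 1-, 2- against II(1,2); 3- gives 5+, then 2-, 4- against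
II(2,4). -/
def S_B5 : Prop :=
  ∀ (L : Type) [DecidableEq L] (S : Finset L) (p q : L → ℤ), Function.Injective p →
    Function.Injective q → Simple S p q → CF S p q → No5 S p q → S.card = 5 →
    ∀ sg : L → Bool, UPair S p q sg

abbrev M_B5 : Prop := S_FL → S_B5

/-- (8.4) for 6 letters.  `S' = S - f - l` has 4 letters with first letter `v`, last letter `w` and is
simple: 2413 or 3142.  Since `w, f, l, v` resp. `v, l, f, w` are consecutive values, `S` is 351624
(`f = 3, v = 5, 1, 6, w = 2, l = 4`) or 426153 (`f = 4, v = 2, 6, 1, w = 5, l = 3`).
351624: I (3,1) (3,2) (5,1) (5,2) (5,4) (6,2) (6,4), II (3,5) (5,6) (1,2) (2,4);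
426153: I (4,2) (4,3) (2,1) (6,1) (6,5) (5,3), II (4,6) (4,5) (2,6) (2,3) (1,5) (1,3).
351624: 3+ gives 1-, 2- against II(1,2); 3- gives 5+, then 1-, 2- against II(1,2).
426153: 4+ gives 2-, 3- against II(2,3); 4- gives 6+, 5+ against I(6,5). -/
def S_B6 : Prop :=
  ∀ (L : Type) [DecidableEq L] (S : Finset L) (p q : L → ℤ), Function.Injective p →
    Function.Injective q → ∀ f v w l : L, R2 S p q f v w l → Simple ((S.erase f).erase l) p q →
    S.card = 6 → ∀ sg : L → Bool, UPair S p q sg

/-- Simple permutations with 4 letters: 2413 or 3142.  2413 = `a b c d`: `GP` pairs type I `(a, c)`,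
`(b, c)`, `(b, d)`, type II `(a, b)`, `(c, d)`; the only sign vector without a pair is
`a+ b- c- d+`: `Theta`.  3142: inverse (`Theta S q p sg`); use `GP.inv`. -/
def S_B4 : Prop :=
  ∀ (L : Type) [DecidableEq L] (S : Finset L) (p q : L → ℤ), Function.Injective p →
    Function.Injective q → Simple S p q → S.card = 4 → ∀ sg : L → Bool,
    UPair S p q sg ∨ (∃ a b c d, Theta S p q sg a b c d) ∨ ∃ a b c d, Theta S q p sg a b c d

/-- 25314 and 41352.  25314 = `a b c d e` (`S` = these five letters): `GP` pairs (values) I (2,1) (5,3)
(5,4) (3,1), II (2,5) (2,3) (3,4) (1,4); the only sign vectors without a pair are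
`a+ b- c* d- e+`: `Theta` (`c` is the centre).  41352 is the inverse: `Theta S q p sg`. -/
def S_P5 : Prop :=
  ∀ (L : Type) [DecidableEq L] (S : Finset L) (p q : L → ℤ), Function.Injective p →
    Function.Injective q → ¬ No5 S p q → S.card = 5 → ∀ sg : L → Bool,
    UPair S p q sg ∨ (∃ a b c d, Theta S p q sg a b c d) ∨ ∃ a b c d, Theta S q p sg a b c d

/-- Final theorem of the pure permutation part.  Proof.  4 letters: `S_B4`.  5 letters: `S_P5` if
`¬ No5`, else `S_B5`.  6 or more letters: `No5` by `S_NO5`; induction with `S_RED`: case `R1`: the
induction hypothesis for `S - u` (`CF.mono`, `No5.mono`; 5 letters: `S_B5`) gives `UPair (S - u)`,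
and `S_P1` lifts it (type II: `S_P1` for `(p, -q)` with `R1.compl`; `NE` is monotone); case `R1` for
`(-p, q)`: apply `S_P1` to `(-p, -q)` with `R1.compl` and `GP.rc`; case `R2`: 6 letters `S_B6`,
otherwise `S_P2`. -/
def S_MAIN : Prop :=
  ∀ (L : Type) [DecidableEq L] (S : Finset L) (p q : L → ℤ), Function.Injective p →
    Function.Injective q → Simple S p q → CF S p q → 4 ≤ S.card → ∀ sg : L → Bool,
    HasPair S p q sg ∨ (∃ a b c d, Theta S p q sg a b c d) ∨ ∃ a b c d, Theta S q p sg a b c d

abbrev M_MAIN : Prop :=
  S_NO5 → S_RED → S_P1 → S_P2 → S_B5 → S_B6 → S_B4 → S_P5 → S_MAIN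

end Pool.GSP
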