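import Pool.Agent.GSP.Defs
import Pool.Agent.GSP.Stmts

/-!
MP_7b7176_co, ROAD S: from the model `SP` to the pure permutation part (`p = sp.k true` is the
position, `q = sp.k false` the value).
-/

set_option autoImplicit false
set_option linter.unusedSectionVars false

namespace Pool.GS

namespace SP

variable {Λ : Type} [Fintype Λ] [DecidableEq Λ] (sp : SP Λ) {S : Finset Λ}

/-- The sign. -/
def sgn (x : Λ) : Bool := sp.o false x == sp.o true x

lemma sgn_true {x : Λ} : sp.sgn x = true ↔ sp.o false x = sp.o true x := by simp [sgn]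

lemma sgn_false {x : Λ} : sp.sgn x = false ↔ sp.o false x ≠ sp.o true x := by simp [sgn]

lemma blk_iff {B : Finset Λ} :
    GSP.Blk S (sp.k true) (sp.k false) B ↔ sp.Block S B := by
  constructor
  · rintro ⟨h1, h2⟩
    refine ⟨h1, fun i x hx y hy z hz h3 h4 => ?_⟩
    by_contra h5
    have h6 := h2 x hx y hy z hz h5
    cases i
    · exact h6.2 ⟨h3, h4⟩
    · exact h6.1 ⟨h3, h4⟩
  · rintro ⟨h1, h2⟩
    exact ⟨h1, fun x hx y hy z hz h5 =>
      ⟨fun h => h5 (h2 true x hx y hy z hz h.1 h.2), fun h => h5 (h2 false x hx y hy z hz h.1 h.2)⟩⟩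

lemma simple_iff : GSP.Simple S (sp.k true) (sp.k false) ↔ sp.Simple S := by
  constructor
  · exact fun h B hB => h B (sp.blk_iff.2 hB)
  · exact fun h B hB => h B (sp.blk_iff.1 hB)

lemma nonSep_iff : sp.NonSep S ↔ ∃ a ∈ S, ∃ b ∈ S, ∃ c ∈ S, ∃ d ∈ S,
    GSP.Occ (sp.k true) (sp.k false) a b c d := Iff.rfl

lemma cf_of (h : sp.CF S) : GSP.CF S (sp.k true) (sp.k false) := by
  intro a ha b hb c hc d hd h1 z hz h2
  obtain ⟨c1, c2, c3, c4⟩ := h z hz
  have h0 := h1
  simp only [GSP.Occ] at h0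
  simp only [GSP.Cor] at h2
  by_cases e1 : sp.k true z < sp.k true a
  · by_cases e2 : sp.k false z < sp.k false b
    · refine c4 ⟨a, ?_, b, ?_, c, ?_, d, ?_, h1⟩ <;>
        simp only [UR, Finset.mem_filter] <;> refine ⟨by assumption, ?_⟩ <;> omega
    · refine c3 ⟨a, ?_, b, ?_, c, ?_, d, ?_, h1⟩ <;>
        simp only [LR, Finset.mem_filter] <;> refine ⟨by assumption, ?_⟩ <;> omega
  · by_cases e2 : sp.k false z < sp.k false b
    · refine c2 ⟨a, ?_, b, ?_, c, ?_, d, ?_, h1⟩ <;>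
        simp only [UL, Finset.mem_filter] <;> refine ⟨by assumption, ?_⟩ <;> omega
    · refine c1 ⟨a, ?_, b, ?_, c, ?_, d, ?_, h1⟩ <;>
        simp only [LL, Finset.mem_filter] <;> refine ⟨by assumption, ?_⟩ <;> omega

/-- The permutation part in the model `SP`. -/
theorem perm_part (h : GSP.S_MAIN) (hS : sp.Simple S) (hC : sp.CF S) (hc : 4 ≤ S.card) :
    GSP.HasPair S (sp.k true) (sp.k false) sp.sgn ∨
      (∃ a b c d, GSP.Theta S (sp.k true) (sp.k false) sp.sgn a b c d) ∨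
      ∃ a b c d, GSP.Theta S (sp.k false) (sp.k true) sp.sgn a b c d :=
  h Λ S (sp.k true) (sp.k false) (sp.inj true) (sp.inj false) (sp.simple_iff.2 hS) (sp.cf_of hC) hc
    sp.sgn

end SP

end Pool.GS
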