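import Pool.Agent.GSP.Defs

/-!
ROAD S, part L: lift lemma, corner letters, secure sides, filling (helper64_S2.md, sections 1, 2).
Notation of the doc-strings: `m = inl (some u)`, `α_i` = the arc of `P_i` around `u` in `S`
(`(p, q)` of `S_A2`), replaced by `(p, u)` and `(u, q)` in `insert u S`.
-/

set_option autoImplicit false

namespace Pool.GS

open Pool.GOD Pool.GS.SP

/-- The letter `x` is not on `D`. -/
def Off {Λ : Type} [Fintype Λ] [DecidableEq Λ] (sp : SP Λ) (Z : Finset Λ) (x : Λ) : Prop :=
  x ∉ Z ∧ ¬sp.pb false Z x ∧ ¬sp.pb true Z x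

/-- L0 (the cuts used below).  If a cut of `H_D` consists of two arcs then the two roots are on the
same side (the root edge `inl none` is in `H_D`); so after taking the complement (`cut_compl`) the
set contains no root; if one of the two arcs is at a root, all vertices of `Y ∩ W` are of degree 2
(level 2), so all letters in `Y` are on `D` (A4). -/
def S_L0 : Prop :=
  ∀ (Λ : Type) [Fintype Λ] [DecidableEq Λ] (sp : SP Λ) (i e : Bool) (S Z : Finset Λ)
    (Y : Finset (Vx Λ)) (ρ : Ed Λ) (j : Bool) (a b : Option Λ), sp.L2 S Z → rArc i e ρ →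
    sp.H S Z ∩ sp.G.cut Y = {ρ, Sum.inr (j, a, b)} →
    ∃ Y' : Finset (Vx Λ), sp.H S Z ∩ sp.G.cut Y' = {ρ, Sum.inr (j, a, b)} ∧ r₁ ∉ Y' ∧ r₂ ∉ Y' ∧
      Y' ⊆ W S ∧ ∀ x c, (some x, c) ∈ Y' → x ∈ S ∧ ¬Off sp Z x

/-- L1 (lift lemma).  `u` is extreme at the side `(i, e)`; `α_i` is the arc at the root.  Suppose no
cut of `H_D` consists of `α_i` and `α_(!i)`.  Then goodness and level 2 lift to `insert u S`.
Proof.  `α_i` is not in `D`.  If `α_(!i)` is in `D` then `u` is on `D` and `H_D` of `insert u S` is
`H_D` with `α_i` subdivided by the two ends of `u`: `S_B1` (`u_1 ≠ u_2` not in `W S`).  If it is not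
in `D` then `u` is off `D` and we are in the situation of `S_B2` (`α₀ := α_(!i)`, `α₁ := α_i`, `c` =
the root of `α_i`); no cut `Y` of the new graph without roots is `{ρ, m}`, `ρ` at a root: `ρ` is an
arc, `m` and the root edge are not in the even subgraph of `S_A5`, which would have exactly one edge
in the cut. -/
def S_L1 : Prop :=
  ∀ (Λ : Type) [Fintype Λ] [DecidableEq Λ] (sp : SP Λ) (i e : Bool) (S Z : Finset Λ) (u : Λ),
    u ∉ S → sp.Ext i e S u →
    (∀ (Y : Finset (Vx Λ)) (ρ : Ed Λ) (p q : Option Λ), rArc i e ρ → lt (sp.k (!i)) p (some u) →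
      lt (sp.k (!i)) (some u) q → sp.H S Z ∩ sp.G.cut Y ≠ {ρ, Sum.inr (!i, p, q)}) →
    (sp.Good S Z → sp.Good (insert u S) Z) ∧ (sp.L2 S Z → sp.L2 (insert u S) Z)

/-- L2c (corner letters lift).  `u` is the first letter of both paths (`e = false`) or the last letter
of both (`e = true`).  Then it lifts and it is off `D`.
Proof by `S_L1`: both `α_0` and `α_1` are at the same root `c` (degree 3, third edge the root edge).
If `H_D ∩ cut Y = {α_0, α_1}`, then the roots are on the same side; let `c ∉ Y` (complement); the cut
of `insert c Y` is `{root edge}`, contradiction to `TwoEC` (the other root is not in it, an end of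
`α_0` is).  (`S` is nonempty as `Z ⊆ S` is nonempty.) -/
def S_L2c : Prop :=
  ∀ (Λ : Type) [Fintype Λ] [DecidableEq Λ] (sp : SP Λ) (e : Bool) (S Z : Finset Λ) (u : Λ),
    u ∉ S → sp.Ext false e S u → sp.Ext true e S u →
    (sp.Good S Z → sp.Good (insert u S) Z ∧ Off sp Z u) ∧ (sp.L2 S Z → sp.L2 (insert u S) Z)

/-- L3c.  A letter off `D` which is extreme at the side `(i, e)` makes this side secure.
Proof.  Let `H_D ∩ cut Y = {ρ, h}` as in `Secure`; by `S_L0` we may assume that there is no root in
`Y` and that all letters in `Y` are on `D`.  `ρ` is the arc from the root to `u` (`S_A1`), the root is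
not in `Y`, so an end of `u` is in `Y`: contradiction. -/
def S_L3c : Prop :=
  ∀ (Λ : Type) [Fintype Λ] [DecidableEq Λ] (sp : SP Λ) (i e : Bool) (S Z : Finset Λ) (u : Λ),
    u ∈ S → sp.Ext i e (S.erase u) u → Off sp Z u → sp.L2 S Z → sp.Secure S Z i e

/-- L3a.  At a secure side an extreme letter lifts (`S_L1`). -/
def S_L3a : Prop :=
  ∀ (Λ : Type) [Fintype Λ] [DecidableEq Λ] (sp : SP Λ) (i e : Bool) (S Z : Finset Λ) (u : Λ),
    u ∉ S → sp.Ext i e S u → sp.L2 S Z → sp.Secure S Z i e → sp.L2 (insert u S) Z

/-- L3b.  Secure sides `(i, e)` stay secure when a letter `u`, extreme at some side `(j, e')`, lifts.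
Proof.  Let `H' = H_D` of `insert u S`, `H' ∩ cut Y = {ρ', h'}`, `ρ'` the arc of `P_i` at the root
`e`, `h'` an arc of `P_(!i)`.  By `S_L0` (for `insert u S`) there is no root in `Y` and all letters in
`Y` are on `D`.  Let `Y₀ = Y ∩ W S`.  We find a cut `{ρ, h}` of `H_D` of `S` contradicting `Secure`.
`α_j` is at the root `c` (of the side `(j, e')`), `c ∉ Y`.
`u` off `D`: then `u_1, u_2 ∉ Y`, `Y₀ = Y`.  The half of `α_j` at `c` does not cross, the other half
crosses iff `α_j` does.  Not both halves of `α_(!j)` cross (they have the same colour, `{ρ', h'}` has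
two colours), so `α_(!j)` crosses iff one of its halves does.  So the cut of `Y` in `H_D` of `S` is
`{ρ, h}` with the same colours, where `h` is `h'` or the arc whose half is `h'`, and `ρ = ρ'`, because
a half in the cut has its other end (not `u`) in `Y`, so it is not at a root.
`u` on `D`: `H'` is `H` with `α_j` replaced by the path `c_0, m, c_1` (`c_0` at `c`), `m` is not in
the cut.  If both `c_0`, `c_1` cross, then `{ρ', h'} = {c_0, c_1}` has one colour, contradiction.
If none of them crosses, then neither `m` nor `α_j` crosses and `{ρ', h'}` is the cut of `Y₀` in `H`.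
If exactly one crosses, `α_j` crosses `Y₀`, and the cut of `Y₀` in `H` is `{ρ', h'}` with this one
replaced by `α_j`, of the same colour `j`; if it is `h'`, then `j = !i` and `{ρ', α_j}` contradicts
`Secure`; if it is `ρ'`, then `j = i`, it has a root as an end, not in `Y`; it is `c_0`, or `c_1` with
the root `(i, e)` opposite to `c` at its end, not `u`; in the first case `e' = e` and `{α_j, h'}`
contradicts `Secure`; in the second case `S` is empty (`α_j` joins the two roots), impossible. -/
def S_L3b : Prop :=
  ∀ (Λ : Type) [Fintype Λ] [DecidableEq Λ] (sp : SP Λ) (i e j e' : Bool) (S Z : Finset Λ) (u : Λ),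
    u ∉ S → sp.Ext j e' S u → sp.L2 S Z → sp.L2 (insert u S) Z → sp.Secure S Z i e →
    sp.Secure (insert u S) Z i e

/-- L4 (filling).  All letters of `S` outside `A` are beyond all letters of `A` at the secure side
`(i, e)`.  Then level 2 lifts from `A` to `S`, and secure sides stay secure.
Proof.  Induction on the number of letters of `S \ A`, inserting first the letter nearest to `A`
(the smallest key `k i` for `e = true`, the largest one for `e = false`): `S_L3a`, `S_L3b`. -/
def S_L4 : Prop :=
  ∀ (Λ : Type) [Fintype Λ] [DecidableEq Λ] (sp : SP Λ) (i e : Bool) (A S Z : Finset Λ),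
    A ⊆ S → (∀ a ∈ A, ∀ x ∈ S, x ∉ A → (e = true → sp.k i a < sp.k i x) ∧
      (e = false → sp.k i x < sp.k i a)) →
    sp.L2 A Z → sp.Secure A Z i e →
    sp.L2 S Z ∧ ∀ i' e', sp.Secure A Z i' e' → sp.Secure S Z i' e'

/-- C1 (3.1).  Level 2 for the letters left of and below `q` gives level 2 for `S`.
Proof.  Insert `q` into `LL S q`: last letter of both paths, `S_L2c`, `q` is off `D`; the sides
`(true, true)` and `(false, true)` are secure by `S_L3c`.  Then `S_L4` at the side `(true, true)`
(positions) up to `insert q (LL S q) ∪ LR S q`, then `S_L4` at the side `(false, true)` up to `S`. -/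
def S_C1 : Prop :=
  ∀ (Λ : Type) [Fintype Λ] [DecidableEq Λ] (sp : SP Λ) (S Z : Finset Λ) (q : Λ), q ∈ S →
    sp.L2 (sp.LL S q) Z → sp.L2 S Z

/-- C2g (3.2).  `v` is the first letter of `P_1` and the last letter of `P_0` with respect to `S`;
`Z` is of level 2 for `S` in the signed permutation in which `P_1` is reversed.  Then it is of level 2
in `insert v S`, and `v` is off `D`.
Proof.  Write `sp' = sp.revOne`, `H'` its `H_D` for `S` (roots `r₁, r₂`), `H` the `H_D` of
`insert v S` in `sp`.  All letters, arcs between letters and letter edges are the same (the arc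
`(a, b)` of `P_1` in `sp` is `(b, a)` in `sp'`, the same arcs are in `D`: the parities `pa` of the
reversed path).  The root arcs are: `e_0` (first arc of `P_0`), `f_0` (last arc of `P_0`), `e_1`,
`f_1` (first and last arc of `P_1` of `sp`); in `sp'`: `r₁` carries `e_0, f_1`, `r₂` carries
`f_0, e_1`.  In `sp`, `insert v S`: `r₁` carries `e_0`, `r₂` carries `f_1`, `inV false v` carries
`f_0`, `outV true v` carries `e_1`, further edges: `r₁ r₂`, the letter edge `v`,
`outV false v - r₂` (`P_0`), `r₁ - inV true v` (`P_1`).  (`v` is in no switch: it is off `D`.)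
Let `Q = {r₁, r₂, v_1, v_2}`.
`v` negative (`outV true v = inV false v`): `r₁, r₂, outV false v` is a triangle with the attached
edges `e_0, f_1`, letter edge `v`; so `H` is `H'` with `r₁` replaced by this triangle, `r₂` by
`inV false v`, the root edge by the letter edge.
`v` positive: `r₁ - v_1 - v_2 - r₂ - r₁` (up to the names of `v_1, v_2`) is a 4-circuit with the
attached edges `e_0, f_0, e_1, f_1`.
For a vertex set `Y` of the new graph let `n` be its cut: the cut restricted to the letters of `S`
and to the attached edges is compared with the cuts `Y ∩ (letters of S)` plus a subset of `{r₁, r₂}`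
in `H'`.  TwoEC: let `Y` have at most one edge in its cut.  Negative: the triangle and the
vertex `inV false v` ... if the triangle is not split, take `r₁ ∈ Y'` iff the triangle is in `Y`,
`r₂ ∈ Y'` iff `inV false v ∈ Y`: the same number of edges in the cut in `H'`; if it is split, two of
its edges cross.  Positive: the 4-circuit is split with two crossing edges, or it is not
split, and then `Y'` with both roots or none of them has the same cut, without the root edge.
Level 2: `r₁, r₂ ∉ Y`, two crossing edges, one of them, `ρ`, is at a root: `e_0`, `f_1`, or a gadget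
edge `g₀ = outV false v - r₂` or `g₁ = r₁ - inV true v`.
Negative: `outV false v = inV true v =: t`.  If `t ∈ Y` then `g₀, g₁` are the two edges of the cut,
`Y - {t}` has the cut `{v edge}` (if the other end of `v` is in `Y`; if not, `v` crosses too,
impossible), contradiction to TwoEC.  If `t ∉ Y`: take `Y'` = letters of `S` in `Y`, plus `r₂` iff
`inV false v ∈ Y`; if `inV false v ∉ Y`, then `Y'` has a cut of two edges, one at `r₁`, so all degrees
are 2.  If `inV false v ∈ Y`, then the letter edge `v` crosses, `{ρ, v}` is the cut; `ρ` is `e_0` or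
`f_1`; parity (`S_A5` for `insert v S`) excludes it.
Positive: let `u = inV false v = inV true v`, `u' = outV false v = outV true v`; `f_0` and `g₁` are at
`u`, `e_1` and `g₀` are at `u'`.  If `u, u' ∉ Y`: `ρ` is `e_0` or `f_1`, `Y' = Y` has the same cut in
`H'`: fine.  If both are in `Y`: `g₀, g₁` cross, nothing else; then `Y' = (Y ∩ letters of S) ∪ {r₂}`
has the cut `{root edge}` in `H'` (`e_0, f_1` do not cross: no letter end at them in `Y`; `f_0, e_1`
do not cross), contradiction.  If exactly one is in `Y`, the letter edge `v` and one of `g₀, g₁` cross: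
excluded by parity. -/
def S_C2g : Prop :=
  ∀ (Λ : Type) [Fintype Λ] [DecidableEq Λ] (sp : SP Λ) (S Z : Finset Λ) (v : Λ), v ∉ S →
    sp.Ext true false S v → sp.Ext false true S v → sp.revOne.L2 S Z →
    sp.L2 (insert v S) Z ∧ Off sp Z v

/-- C2 (3.2).  Proof.  `S_C2g` for `LR S v`; the sides `(true, false)` and `(false, true)` are secure
(`S_L3c`); `S_L4` at the side `(true, false)` up to `insert v (LR S v) ∪ LL S v`, then at the side
`(false, true)` up to `S`. -/
def S_C2 : Prop :=
  ∀ (Λ : Type) [Fintype Λ] [DecidableEq Λ] (sp : SP Λ) (S Z : Finset Λ) (v : Λ), v ∈ S →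
    sp.revOne.L2 (sp.LR S v) Z → sp.L2 S Z

/-- C3 (minimal counterexamples are corner-free).  Proof.  `S_C1`, `S_C2` and their images under
`rev` (`S_A6`; `sp.rev.LL S q = sp.UR S q`, `sp.rev.LR S v = sp.UL S v`); `NonSep` is invariant under
`rev` and `revOne` (2413 and 3142 are exchanged); `q` is not in its corner regions, so they have fewer
elements than `S`. -/
def S_C3 : Prop :=
  ∀ (Λ : Type) [Fintype Λ] [DecidableEq Λ] (sp : SP Λ) (S : Finset Λ),
    (∀ (sp' : SP Λ) (T : Finset Λ), T.card < S.card → sp'.NonSep T → ∃ Z, sp'.L2 T Z) →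
    (¬∃ Z, sp.L2 S Z) → sp.CF S

end Pool.GS
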