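import Pool.Agent.GSP.StmtsA
import Pool.Agent.GSP.StmtsL

/-!
ROAD S, C1: level 2 for the letters left of and below `q` gives level 2 for `S`.
-/

set_option autoImplicit false

namespace Pool.GS

open Pool.GOD Pool.GS.SP

theorem t_C1 (h2c : S_L2c) (h3c : S_L3c) (h4 : S_L4) : S_C1 := by
  intro Λ _ _ sp S Z q hq hL
  have hqA : q ∉ sp.LL S q := by
    simp [SP.LL]
  have hLL : ∀ x ∈ sp.LL S q, x ∈ S ∧ sp.k false x < sp.k false q ∧ sp.k true x < sp.k true q := by
    intro x hx
    simpa [SP.LL] using hx
  have hLR : ∀ x ∈ sp.LR S q, x ∈ S ∧ sp.k false x < sp.k false q ∧ sp.k true q < sp.k true x := by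
    intro x hx
    simpa [SP.LR] using hx
  have hE0 : sp.Ext false true (sp.LL S q) q :=
    fun x hx => ⟨fun h => absurd h (by simp), fun _ => (hLL x hx).2.1⟩
  have hE1 : sp.Ext true true (sp.LL S q) q :=
    fun x hx => ⟨fun h => absurd h (by simp), fun _ => (hLL x hx).2.2⟩
  have h1 := h2c Λ sp true (sp.LL S q) Z q hqA hE0 hE1
  have hoff : Off sp Z q := (h1.1 ⟨hL.1, hL.2.1⟩).2
  have hL1 : sp.L2 (insert q (sp.LL S q)) Z := h1.2 hL
  have her : (insert q (sp.LL S q)).erase q = sp.LL S q := Finset.erase_insert hqA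
  have hs0 : sp.Secure (insert q (sp.LL S q)) Z false true :=
    h3c Λ sp false true _ Z q (Finset.mem_insert_self _ _) (by rw [her]; exact hE0) hoff hL1
  have hs1 : sp.Secure (insert q (sp.LL S q)) Z true true :=
    h3c Λ sp true true _ Z q (Finset.mem_insert_self _ _) (by rw [her]; exact hE1) hoff hL1
  have h2 := h4 Λ sp true true (insert q (sp.LL S q)) (insert q (sp.LL S q) ∪ sp.LR S q) Z
    Finset.subset_union_left (by
      intro a ha x hx hxA
      refine ⟨fun _ => ?_, fun h => absurd h (by simp)⟩
      have hx' : x ∈ sp.LR S q := (Finset.mem_union.1 hx).resolve_left hxA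
      have hx2 := (hLR x hx').2.2
      rcases Finset.mem_insert.1 ha with rfl | ha
      · exact hx2
      · exact (hLL a ha).2.2.trans hx2) hL1 hs1
  have hs2 : sp.Secure (insert q (sp.LL S q) ∪ sp.LR S q) Z false true := h2.2 _ _ hs0
  refine (h4 Λ sp false true (insert q (sp.LL S q) ∪ sp.LR S q) S Z ?_ ?_ h2.1 hs2).1
  · intro x hx
    rcases Finset.mem_union.1 hx with hx | hx
    · rcases Finset.mem_insert.1 hx with rfl | hx
      · exact hq
      · exact (hLL x hx).1
    · exact (hLR x hx).1
  · intro a ha x hx hxA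
    refine ⟨fun _ => ?_, fun h => absurd h (by simp)⟩
    have ha' : sp.k false a ≤ sp.k false q := by
      rcases Finset.mem_union.1 ha with ha | ha
      · rcases Finset.mem_insert.1 ha with rfl | ha
        · exact le_refl _
        · exact (hLL a ha).2.1.le
      · exact (hLR a ha).2.1.le
    have hxq : x ≠ q := by
      rintro rfl
      exact hxA (Finset.mem_union_left _ (Finset.mem_insert_self _ _))
    have hk0 : sp.k false x ≠ sp.k false q := fun h => hxq (sp.inj false h)
    have hk1 : sp.k true x ≠ sp.k true q := fun h => hxq (sp.inj true h)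
    have hnot : ¬ sp.k false x < sp.k false q := by
      intro hlt
      apply hxA
      rcases lt_or_gt_of_ne hk1 with h | h
      · refine Finset.mem_union_left _ (Finset.mem_insert_of_mem ?_)
        simp only [SP.LL, Finset.mem_filter]
        exact ⟨hx, hlt, h⟩
      · refine Finset.mem_union_right _ ?_
        simp only [SP.LR, Finset.mem_filter]
        exact ⟨hx, hlt, h⟩
    exact lt_of_le_of_lt ha' (lt_of_le_of_ne (not_lt.1 hnot) (Ne.symm hk0))

end Pool.GS
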