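import Pool.Agent.GSP.Defs

/-!
ROAD S, part A: basic facts on the model, abstract lifting lemmas for cuts.
-/

set_option autoImplicit false

namespace Pool.GS

open Pool.GOD Pool.GS.SP

/-- A1.  Every element of `S` and the root have exactly one successor and one predecessor in `P_i`
(minimum of the letters after `a`; maximum of the letters before `b`). -/
def S_A1 : Prop :=
  ∀ (Λ : Type) [Fintype Λ] [DecidableEq Λ] (sp : SP Λ) (i : Bool) (S : Finset Λ),
    (∀ a ∈ Finset.insertNone S, ∃! b, sp.Cons i S a b) ∧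
    (∀ b ∈ Finset.insertNone S, ∃! a, sp.Cons i S a b)

/-- A2.  Insertion of a letter `u`: there is exactly one arc `(p, q)` of `P_i` around `u`, it is
replaced by `(p, u)` and `(u, q)`.  `p` is the root if `u` is the first letter, `q` is the root if it
is the last one.  For `Z ⊆ S` the arc `(u, q)` is in `D` iff the arc `(p, q)` is (no letter of `Z` is
between `p` and `u`). -/
def S_A2 : Prop :=
  ∀ (Λ : Type) [Fintype Λ] [DecidableEq Λ] (sp : SP Λ) (i : Bool) (S : Finset Λ) (u : Λ), u ∉ S →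
    ∃ p q, sp.Cons i S p q ∧ lt (sp.k i) p (some u) ∧ lt (sp.k i) (some u) q ∧
      (∀ a b, sp.Cons i (insert u S) a b ↔
        (sp.Cons i S a b ∧ ¬(a = p ∧ b = q)) ∨ (a = p ∧ b = some u) ∨ (a = some u ∧ b = q)) ∧
      (∀ a b, sp.Cons i S a b → lt (sp.k i) a (some u) → lt (sp.k i) (some u) b → a = p ∧ b = q) ∧
      (sp.Ext i false S u → p = none) ∧ (sp.Ext i true S u → q = none) ∧
      ∀ Z ⊆ S, (sp.pa i Z (some u) ↔ sp.pa i Z p) ∧ (sp.pb i Z u ↔ sp.pa i Z p)

/-- A3.  Arcs and parities: the arc before `x` is `pb`, the arc after `x` is the same iff `x` is not a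
switch letter, the first and the last arc are not in `D`. -/
def S_A3 : Prop :=
  ∀ (Λ : Type) [Fintype Λ] [DecidableEq Λ] (sp : SP Λ) (i : Bool) (S Z : Finset Λ), Z ⊆ S →
    (∀ a x, sp.Cons i S a (some x) → (sp.pa i Z a ↔ sp.pb i Z x)) ∧
    (∀ x, x ∉ Z → (sp.pa i Z (some x) ↔ sp.pb i Z x)) ∧
    (∀ x, x ∈ Z → (sp.pa i Z (some x) ↔ ¬sp.pb i Z x)) ∧ (¬sp.pa i Z none) ∧
    (Even Z.card → ∀ a, sp.Cons i S a none → ¬sp.pa i Z a)

/-- A4.  Degrees in `H_D` (with A1, A3): a letter on `D` (a switch letter, or passed straight) has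
degree 2 at both ends, a letter off `D` has degree 3, the roots have degree 3.  At each end of a
letter there is one arc of `P_0` and one arc of `P_1`. -/
def S_A4 : Prop :=
  ∀ (Λ : Type) [Fintype Λ] [DecidableEq Λ] (sp : SP Λ) (S Z : Finset Λ), sp.Val S Z →
    (∀ x ∈ S, ∀ b : Bool, (x ∈ Z ∨ sp.pb false Z x ∨ sp.pb true Z x) →
      sp.G.deg (sp.H S Z) (some x, b) = 2) ∧
    (∀ x ∈ S, ∀ b : Bool, x ∉ Z → ¬sp.pb false Z x → ¬sp.pb true Z x →
      sp.G.deg (sp.H S Z) (some x, b) = 3) ∧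
    (∀ b : Bool, sp.G.deg (sp.H S Z) (none, b) = 3) ∧
    (∀ e ∈ sp.H S Z, ∀ v ∈ sp.G.ends e, v ∈ W S)

/-- A5 (parity).  `H_D` without the root edge and without the `M`-edges of the letters off `D` is an
even set (degree 2 at every vertex, by A4), so it has an even number of edges in every cut. -/
def S_A5 : Prop :=
  ∀ (Λ : Type) [Fintype Λ] [DecidableEq Λ] (sp : SP Λ) (S Z : Finset Λ), sp.Val S Z →
    ∀ Y : Finset (Vx Λ), Even (((sp.H S Z).filter (fun e =>
      ¬(e = Sum.inl none ∨ ∃ x, e = Sum.inl (some x) ∧ x ∉ Z ∧ ¬sp.pb false Z x ∧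
        ¬sp.pb true Z x))) ∩ sp.G.cut Y).card

/-- A6 (symmetries).  The exchange of the two paths and the reversal of both paths. -/
def S_A6 : Prop :=
  ∀ (Λ : Type) [Fintype Λ] [DecidableEq Λ] (sp : SP Λ) (S Z : Finset Λ),
    (sp.swap.Val S Z ↔ sp.Val S Z) ∧ (sp.rev.Val S Z ↔ sp.Val S Z) ∧
    (sp.swap.Good S Z ↔ sp.Good S Z) ∧ (sp.rev.Good S Z ↔ sp.Good S Z) ∧
    (sp.swap.L2 S Z ↔ sp.L2 S Z) ∧ (sp.rev.L2 S Z ↔ sp.L2 S Z) ∧
    (sp.swap.NonSep S ↔ sp.NonSep S) ∧ (sp.rev.NonSep S ↔ sp.NonSep S)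

/-- B1 (subdivision of an edge by two vertices).  `α = x s`, new edges `a₁ = x u`, `m = u u'`,
`a₂ = u' s`.  For a vertex set `Y` of the new graph let `Y'` be its restriction; if `Y'` is a proper
subset of `W'` then the cut of `Y` has at least as many edges (if `α` crosses `Y'` then one of the
three new edges crosses `Y`), otherwise `u` or `u'` is on the other side than both `x` and `s` and at
least two of the three edges cross.  Level 2: if the cut of `Y` has two edges and one of them is at a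
root, then `Y'` (it is nonempty, unless `Y ⊆ {u, u'}`, fine: degree 2) has a cut of size 2 with the
corresponding edge at a root. -/
def S_B1 : Prop :=
  ∀ (V E : Type) [Fintype V] [DecidableEq V] [Fintype E] [DecidableEq E] (G : MGraph V E)
    (H : Finset E) (W : Finset V) (r r' x s u u' : V) (α a₁ m a₂ : E),
    (∀ e ∈ H, ∀ v ∈ G.ends e, v ∈ W) → r ∈ W → r' ∈ W → u ∉ W → u' ∉ W → u ≠ u' →
    α ∈ H → G.ends α = s(x, s) → a₁ ∉ H → m ∉ H → a₂ ∉ H → a₁ ≠ m → a₁ ≠ a₂ → m ≠ a₂ →
    G.ends a₁ = s(x, u) → G.ends m = s(u, u') → G.ends a₂ = s(u', s) →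
    (TwoEC G H W → TwoEC G ((H.erase α) ∪ {a₁, m, a₂}) (W ∪ {u, u'})) ∧
    (Lev2 G H W r r' → Lev2 G ((H.erase α) ∪ {a₁, m, a₂}) (W ∪ {u, u'}) r r')

/-- B2 (insertion of a letter off `D`).  The edges `α₀ = p q` and `α₁ = c s` are replaced by
`b₀ = p u`, `b₁ = u' q`, `c₀ = c w`, `c₁ = w' s` with `{w, w'} = {u, u'}`, and `m = u u'` is new.
If `{α₀, α₁}` is not a cut of `H` then `TwoEC` is preserved.  If moreover `α₁` is at a root
(`c = r` or `c = r'`) and no cut of the new graph consists of `m` and an edge at a root,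
then level 2 is preserved.
Proof: `J = H - α₀ - α₁`.  Let `Y` be a vertex set of the new graph with at most one crossing edge;
if `u, u'` are on the same side, the crossing edges of the restriction inject into those of `Y`;
if `m` crosses: the restriction is either constant (then one of `u, u'` has its two other edges
crossing) or has at least two crossing edges in `H`, not exactly `{α₀, α₁}`, so one in `J`.
Level 2 (`r, r' ∉ Y`, two crossing edges, one at a root): `m` does not cross (hypothesis).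
`u, u' ∉ Y`: the restriction has the corresponding two crossing edges in `H`, an edge at a root
corresponds to an edge at the same root, degrees in `Y` are unchanged.  `u, u' ∈ Y`: `c₀` crosses
(`c` is a root).  If the second crossing edge is `c₁`, the restriction `Y' = Y - {u, u'}` has no
crossing edge in `H`; if it is `b₀` or `b₁`, `Y'` has the cut `{α₀, α₁}`.  If it is `h` in `J`, then
`p, q, s ∈ Y` and `Y'` has the cut `{α₁, h}` in `H`, so by level 2 all its vertices have degree 2 in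
`H`.  Claim (induction on the number of elements of a set `Y'` of vertices of degree 2 with
`s, p, q ∈ Y'` and cut `{α₁, h}`, `h ≠ α₀`): this is impossible.  Let `y ∈ Y'` be the end of `h` and
`g` the other edge at `y`; if `g = α₁` then `Y' - {y}` has an empty cut (contradiction, it contains
`p` or `q`); otherwise `Y' - {y}` has the cut `{α₁, g}`; if `y = p` or `y = q` then `g = α₀`, which
is excluded, otherwise use the induction hypothesis. -/
def S_B2 : Prop :=
  ∀ (V E : Type) [Fintype V] [DecidableEq V] [Fintype E] [DecidableEq E] (G : MGraph V E)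
    (H : Finset E) (W : Finset V) (r r' p q c s u u' w w' : V) (α₀ α₁ b₀ b₁ c₀ c₁ m : E),
    (∀ e ∈ H, ∀ v ∈ G.ends e, v ∈ W) → r ∈ W → r' ∈ W → u ∉ W → u' ∉ W → u ≠ u' →
    α₀ ∈ H → α₁ ∈ H → α₀ ≠ α₁ → G.ends α₀ = s(p, q) → G.ends α₁ = s(c, s) →
    ({b₀, b₁, c₀, c₁, m} : Finset E).card = 5 → Disjoint H {b₀, b₁, c₀, c₁, m} →
    ((w = u ∧ w' = u') ∨ (w = u' ∧ w' = u)) →
    G.ends b₀ = s(p, u) → G.ends b₁ = s(u', q) → G.ends c₀ = s(c, w) → G.ends c₁ = s(w', s) →
    G.ends m = s(u, u') →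
    (∀ Y, H ∩ G.cut Y ≠ {α₀, α₁}) →
    (TwoEC G H W →
      TwoEC G (((H.erase α₀).erase α₁) ∪ {b₀, b₁, c₀, c₁, m}) (W ∪ {u, u'})) ∧
    (Lev2 G H W r r' → (c = r ∨ c = r') →
      (∀ Y (ρ : E), r ∉ Y → r' ∉ Y → (r ∈ G.ends ρ ∨ r' ∈ G.ends ρ) →
        (((H.erase α₀).erase α₁) ∪ {b₀, b₁, c₀, c₁, m}) ∩ G.cut Y ≠ {ρ, m}) →
      Lev2 G (((H.erase α₀).erase α₁) ∪ {b₀, b₁, c₀, c₁, m}) (W ∪ {u, u'}) r r')

end Pool.GS
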