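import Pool.Agent.GSP.StmtsL
import Pool.Agent.GSP.StmtsA

/-!
ROAD S, C2 (3.2): level 2 for the reversed permutation of the letters right of and below `v` gives
level 2 for `S`.
-/

set_option autoImplicit false

namespace Pool.GS

open Pool.GOD Pool.GS.SP

theorem t_C2 (h2g : S_C2g) (h3c : S_L3c) (h4 : S_L4) : S_C2 := by
  intro Λ _ _ sp S Z v hv hL
  have hvA : v ∉ sp.LR S v := by simp [SP.LR]
  have hex1 : sp.Ext true false (sp.LR S v) v := by
    intro x hx
    simp only [SP.LR, Finset.mem_filter] at hx
    exact ⟨fun _ => hx.2.2, fun h => by simp at h⟩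
  have hex2 : sp.Ext false true (sp.LR S v) v := by
    intro x hx
    simp only [SP.LR, Finset.mem_filter] at hx
    exact ⟨fun h => by simp at h, fun _ => hx.2.1⟩
  obtain ⟨hLv, hoff⟩ := h2g Λ sp (sp.LR S v) Z v hvA hex1 hex2 hL
  have hS1 : sp.Secure (insert v (sp.LR S v)) Z true false :=
    h3c Λ sp true false _ Z v (Finset.mem_insert_self _ _)
      (by rw [Finset.erase_insert hvA]; exact hex1) hoff hLv
  have hS2 : sp.Secure (insert v (sp.LR S v)) Z false true :=
    h3c Λ sp false true _ Z v (Finset.mem_insert_self _ _)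
      (by rw [Finset.erase_insert hvA]; exact hex2) hoff hLv
  let B : Finset Λ := S.filter (fun x => sp.k false x ≤ sp.k false v)
  have hAB : insert v (sp.LR S v) ⊆ B := by
    intro x hx
    rcases Finset.mem_insert.mp hx with rfl | hx
    · exact Finset.mem_filter.mpr ⟨hv, le_refl _⟩
    · simp only [SP.LR, Finset.mem_filter] at hx
      exact Finset.mem_filter.mpr ⟨hx.1, hx.2.1.le⟩
  have hne : ∀ x, x ≠ v → ∀ i, sp.k i x ≠ sp.k i v := fun x hx i h => hx (sp.inj i h)
  obtain ⟨hLB, hSec⟩ := h4 Λ sp true false (insert v (sp.LR S v)) B Z hAB (by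
    intro a ha x hx hxA
    refine ⟨fun h => by simp at h, fun _ => ?_⟩
    have hxS := (Finset.mem_filter.mp hx).1
    have hxv := (Finset.mem_filter.mp hx).2
    have hxne : x ≠ v := by
      rintro rfl
      exact hxA (Finset.mem_insert_self _ _)
    have h1 : sp.k false x < sp.k false v := lt_of_le_of_ne hxv (hne x hxne false)
    have h2 : sp.k true x < sp.k true v := by
      rcases lt_trichotomy (sp.k true x) (sp.k true v) with h | h | h
      · exact h
      · exact absurd h (hne x hxne true)
      · exact absurd (Finset.mem_insert_of_mem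
          (by simp only [SP.LR, Finset.mem_filter]; exact ⟨hxS, h1, h⟩)) hxA
    rcases Finset.mem_insert.mp ha with rfl | ha
    · exact h2
    · simp only [SP.LR, Finset.mem_filter] at ha
      exact h2.trans ha.2.2) hLv hS1
  exact (h4 Λ sp false true B S Z (Finset.filter_subset _ _) (by
    intro a ha x hx hxB
    refine ⟨fun _ => ?_, fun h => by simp at h⟩
    have h1 := (Finset.mem_filter.mp ha).2
    have h2 : sp.k false v < sp.k false x := by
      by_contra h
      exact hxB (Finset.mem_filter.mpr ⟨hx, not_lt.mp h⟩)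
    exact lt_of_le_of_lt h1 h2) hLB (hSec false true hS2)).1

end Pool.GS
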