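import Pool.Agent.GSP.Gd

/-!
MP_7b7176_co, ROAD S, GOOD only: a good `D` on a corner region is good on the whole signed
permutation; a minimal counterexample is corner-free.
-/

set_option autoImplicit false
set_option linter.unusedSectionVars false

namespace Pool.GS

open Pool.GOD

namespace SP

variable {Λ : Type} [Fintype Λ] [DecidableEq Λ] (sp : SP Λ)

lemma not_pa_above {i : Bool} {Z : Finset Λ} {x : Λ} (he : Even Z.card)
    (h : ∀ z ∈ Z, sp.k i z < sp.k i x) : ¬sp.pa i Z (some x) := by
  rw [pa_some, Finset.filter_true_of_mem (fun z hz => (h z hz).le)]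
  simpa using he

lemma not_pa_below {i : Bool} {Z : Finset Λ} {x : Λ}
    (h : ∀ z ∈ Z, sp.k i x < sp.k i z) : ¬sp.pa i Z (some x) := by
  rw [pa_some, Finset.filter_false_of_mem (fun z hz => not_le.mpr (h z hz))]
  simp

lemma not_pb_above {i : Bool} {Z : Finset Λ} {x : Λ} (he : Even Z.card)
    (h : ∀ z ∈ Z, sp.k i z < sp.k i x) : ¬sp.pb i Z x := by
  unfold pb
  rw [Finset.filter_true_of_mem h]
  simpa using he

lemma not_pb_below {i : Bool} {Z : Finset Λ} {x : Λ}
    (h : ∀ z ∈ Z, sp.k i x ≤ sp.k i z) : ¬sp.pb i Z x := by
  unfold pb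
  rw [Finset.filter_false_of_mem (fun z hz => not_lt.mpr (h z hz))]
  simp

lemma Val.mono {S L Z : Finset Λ} (h : sp.Val L Z) (hL : L ⊆ S)
    (h' : ∀ x ∈ S, x ∉ L → ¬(sp.pb false Z x ∧ sp.pb true Z x)) : sp.Val S Z where
  sub := h.sub.trans hL
  ne := h.ne
  even := h.even
  off := by
    intro x hx hxZ
    by_cases hxL : x ∈ L
    · exact h.off x hxL hxZ
    · exact h' x hx hxL
  on := h.on

lemma ins_mono {S L : Finset Λ} (hL : L ⊆ S) {a : Option Λ} (ha : a ∈ Finset.insertNone L) :
    a ∈ Finset.insertNone S := by
  rcases a with _ | x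
  · exact none_ins
  · exact mem_ins.mpr (hL (mem_ins.mp ha))

lemma inV_none (i : Bool) : sp.inV i none = (none, true) := rfl

lemma outV_none (i : Bool) : sp.outV i none = (none, false) := rfl

lemma bool_ne_iff {a b : Bool} : a ≠ b ↔ a = !b := by cases a <;> cases b <;> simp

/-- (3.1') A good `D` on the letters left-below `q` is good. -/
theorem gd_LL {S Z : Finset Λ} {q : Λ} (hq : q ∈ S) (h : sp.Gd (sp.LL S q) Z) : sp.Gd S Z := by
  obtain ⟨hV, hG⟩ := h
  have hLS : sp.LL S q ⊆ S := Finset.filter_subset _ _
  have hL : ∀ i, ∀ x ∈ sp.LL S q, sp.k i x < sp.k i q := by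
    intro i x hx
    have := (Finset.mem_filter.mp hx).2
    cases i
    · exact this.1
    · exact this.2
  have hnL : ∀ x ∈ S, x ∉ sp.LL S q → ∃ i, sp.k i q ≤ sp.k i x := by
    intro x hx hxL
    by_contra hc
    push Not at hc
    exact hxL (Finset.mem_filter.mpr ⟨hx, hc false, hc true⟩)
  have hZq : ∀ i, ∀ z ∈ Z, sp.k i z < sp.k i q := fun i z hz => hL i z (hV.sub hz)
  refine ⟨hV.mono sp hLS ?_, ?_⟩
  · intro x hx hxL hpb
    obtain ⟨i, hi⟩ := hnL x hx hxL
    have h1 : ¬sp.pb i Z x := sp.not_pb_above hV.even (fun z hz => (hZq i z hz).trans_le hi)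
    cases i
    · exact h1 hpb.1
    · exact h1 hpb.2
  intro z hz χ hB
  have hpaq : ∀ i, ¬sp.pa i Z (some q) := fun i => sp.not_pa_above hV.even (hZq i)
  -- no element of `Z` between consecutive elements of `L`
  have hcZ : ∀ i a b, sp.Cons i (sp.LL S q) a b →
      ∀ z ∈ Z, ¬(lt (sp.k i) a (some z) ∧ lt (sp.k i) (some z) b) :=
    fun i a b hc z hz => hc.2.2.2 z (hV.sub hz)
  by_cases hcase : ∀ w, z = some w → w ∈ sp.LL S q
  · -- restriction
    refine hG z ?_ χ ⟨?_, ?_, hB.cut⟩
    · rcases z with _ | w
      · exact none_ins
      · exact mem_ins.mpr (hcase w rfl)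
    · intro a ha
      exact hB.m a (ins_mono hLS ha)
    · intro i a b hc hpa
      refine hB.path sp i (ins_mono hLS hc.1) (ins_mono hLS hc.2.1) hc.2.2.1 (hcZ i a b hc) hpa ?_
      intro w hw
      exact hc.2.2.2 w (hcase w hw)
  push Not at hcase
  obtain ⟨u, rfl, huL⟩ := hcase
  have huS : u ∈ S := mem_ins.mp hz
  have hroot : χ (none, false) = χ (none, true) := hB.m none none_ins (by simp)
  have hqi : some q ∈ Finset.insertNone S := mem_ins.mpr hq
  have hZqn : ∀ i, ∀ z ∈ Z, ¬(lt (sp.k i) (some q) (some z) ∧ lt (sp.k i) (some z) none) := by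
    rintro i z hz ⟨h1, -⟩
    rw [lt_some] at h1
    have := hZq i z hz
    omega
  by_cases hA : ∀ i, sp.k i q ≤ sp.k i u
  · -- `u = q` or `u` right-above `q`
    have key : ∀ i, χ (sp.inV i (some q)) = !χ (none, true) := by
      intro i
      rw [← bool_ne_iff]
      by_cases huq : u = q
      · subst huq
        have h1 : χ (sp.outV i (some u)) = χ (sp.inV i none) :=
          hB.path sp i hqi none_ins (by simp) (hZqn i) (hpaq i) (by
            intro w hw
            obtain rfl : u = w := by simpa using hw
            simp)
        rw [← inV_none sp i, ← h1]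
        exact sp.io_ne hB.cut
      · have h0 : sp.k i q < sp.k i u := lt_of_le_of_ne (hA i) (fun h => huq (sp.inj i h.symm))
        have h1 : χ (sp.outV i (some q)) ≠ χ (sp.inV i none) :=
          hB.path_cross sp huS i hqi none_ins (hZqn i) (hpaq i) (by simpa using h0) (by simp)
        have h2 : χ (sp.inV i (some q)) = χ (sp.outV i (some q)) :=
          sp.io_eq (hB.m _ hqi (by simpa using fun h => huq h.symm))
        rw [h2]
        exact h1
    let χ' : Vx Λ → Bool := fun v => if v = (none, true) then !χ (none, true) else χ v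
    have hχs : ∀ (x : Λ) (b : Bool), χ' (some x, b) = χ (some x, b) := by
      intro x b
      simp [χ']
    have hχ1 : χ' (none, false) = χ (none, false) := by simp [χ']
    have hχ2 : χ' (none, true) = !χ (none, true) := by simp [χ']
    have hout : ∀ i a, χ' (sp.outV i a) = χ (sp.outV i a) := by
      intro i a
      rcases a with _ | x
      · rw [outV_none]
        exact hχ1
      · exact hχs _ _
    refine hG none none_ins χ' ⟨?_, ?_, ?_⟩
    · intro a ha hane
      rcases a with _ | x
      · exact absurd rfl hane
      · rw [hχs, hχs]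
        refine hB.m _ (ins_mono hLS ha) ?_
        intro he
        obtain rfl : x = u := by simpa using he
        exact huL (mem_ins.mp ha)
    · intro i a b hc hpa
      rw [hout]
      rcases b with _ | y
      · rw [inV_none, hχ2, ← key i]
        refine hB.path sp i (ins_mono hLS hc.1) hqi ?_ ?_ hpa ?_
        · intro x y hx hy
          obtain rfl : q = y := by simpa using hy
          subst hx
          exact hL i x (mem_ins.mp hc.1)
        · rintro z hz ⟨h1, h2⟩
          exact hcZ i a none hc z hz ⟨h1, by simp⟩
        · rintro w hw ⟨h1, h2⟩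
          obtain rfl : u = w := by simpa using hw
          rw [lt_some] at h2
          have := hA i
          omega
      · have : χ' (sp.inV i (some y)) = χ (sp.inV i (some y)) := hχs _ _
        rw [this]
        refine hB.path sp i (ins_mono hLS hc.1) (ins_mono hLS hc.2.1) hc.2.2.1 (hcZ i a _ hc) hpa ?_
        rintro w hw ⟨h1, h2⟩
        obtain rfl : u = w := by simpa using hw
        rw [lt_some] at h2
        have h3 := hL i y (mem_ins.mp hc.2.1)
        have := hA i
        omega
    · rw [hχ1, hχ2, hroot]
      cases χ (none, true) <;> simp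
  · -- `u` is on different sides in the two orders
    push Not at hA
    obtain ⟨j, hj⟩ := hA
    obtain ⟨i, hi⟩ := hnL u huS huL
    have huq : u ≠ q := by
      rintro rfl
      exact absurd hj (by simp)
    have hi' : sp.k i q < sp.k i u := lt_of_le_of_ne hi (fun h => huq (sp.inj i h.symm))
    have hqm : χ (some q, false) = χ (some q, true) :=
      hB.m _ hqi (by simpa using fun h => huq h.symm)
    have h1 : χ (sp.outV i (some q)) ≠ χ (sp.inV i none) :=
      hB.path_cross sp huS i hqi none_ins (hZqn i) (hpaq i) (by simpa using hi') (by simp)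
    have h2 : χ (sp.outV j (some q)) = χ (sp.inV j none) :=
      hB.path sp j hqi none_ins (by simp) (hZqn j) (hpaq j) (by
        rintro w hw ⟨h3, -⟩
        obtain rfl : u = w := by simpa using hw
        rw [lt_some] at h3
        omega)
    apply h1
    rw [inV_none] at h2 ⊢
    rw [← h2, ← sp.io_all hqm j i, ← sp.io_all hqm j j]

/-- The parity after `a` in the reversed path. -/
lemma pa_compl {i : Bool} {L Z : Finset Λ} {a b : Option Λ} (hZ : Z ⊆ L) (he : Even Z.card)
    (hc : sp.Cons i L b a) :
    Odd (Z.filter (fun z => ∃ x, a = some x ∧ sp.k i x ≤ sp.k i z)).card ↔ sp.pa i Z b := by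
  have h1 : (Z.filter (fun z => ∃ x, a = some x ∧ sp.k i x ≤ sp.k i z)) =
      (Z.filter (fun z => ¬∃ x, b = some x ∧ sp.k i z ≤ sp.k i x)) := by
    apply Finset.filter_congr
    intro z hz
    have h2 := hc.2.2.2 z (hZ hz)
    constructor
    · rintro ⟨x, rfl, hx⟩ ⟨y, rfl, hy⟩
      have := hc.2.2.1 y x rfl rfl
      omega
    · intro h
      push Not at h
      rcases a with _ | x
      · exfalso
        apply h2
        refine ⟨?_, by simp⟩
        intro y w hy hw
        obtain rfl : z = w := by simpa using hw
        exact h y hy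
      · refine ⟨x, rfl, ?_⟩
        by_contra hx
        push Not at hx
        apply h2
        refine ⟨?_, by simpa using hx⟩
        intro y w hy hw
        obtain rfl : z = w := by simpa using hw
        exact h y hy
  have h3 := Finset.card_filter_add_card_filter_not (s := Z)
    (fun z => ∃ x, b = some x ∧ sp.k i z ≤ sp.k i x)
  rw [h1]
  unfold pa
  rw [← h3, Nat.even_add] at he
  rw [← Nat.not_even_iff_odd, ← Nat.not_even_iff_odd, he]

/-- The parity before `x` in the reversed path. -/
lemma pb_compl {i : Bool} {Z : Finset Λ} {x : Λ} (he : Even Z.card) :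
    Odd (Z.filter (fun z => sp.k i x < sp.k i z)).card ↔ (sp.pb i Z x ↔ x ∉ Z) := by
  have h3 := Finset.card_filter_add_card_filter_not (s := Z) (fun z => sp.k i z < sp.k i x)
  have h4 : ((Z.filter (fun z => ¬sp.k i z < sp.k i x))).card =
      (Z.filter (fun z => sp.k i x < sp.k i z)).card + (if x ∈ Z then 1 else 0) := by
    by_cases hx : x ∈ Z
    · rw [if_pos hx]
      have : (Z.filter (fun z => ¬sp.k i z < sp.k i x)) =
          insert x (Z.filter (fun z => sp.k i x < sp.k i z)) := by
        ext z
        rw [Finset.mem_insert, Finset.mem_filter, Finset.mem_filter]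
        constructor
        · rintro ⟨hz, h⟩
          by_cases hzx : z = x
          · exact Or.inl hzx
          · right
            refine ⟨hz, lt_of_le_of_ne (not_lt.mp h) (fun h' => hzx (sp.inj i h'.symm))⟩
        · rintro (rfl | ⟨hz, h⟩)
          · exact ⟨hx, by simp⟩
          · exact ⟨hz, by omega⟩
      rw [this, Finset.card_insert_of_notMem (by simp)]
    · rw [if_neg hx, add_zero]
      congr 1
      apply Finset.filter_congr
      intro z hz
      constructor
      · intro h
        refine lt_of_le_of_ne (not_lt.mp h) (fun h' => ?_)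
        exact hx (sp.inj i h' ▸ hz)
      · intro h
        omega
  unfold pb
  rw [← h3, h4] at he
  by_cases hx : x ∈ Z
  · rw [if_pos hx] at he
    simp only [hx, not_true_eq_false, iff_false]
    rw [← add_assoc, Nat.even_add_one, Nat.not_even_iff_odd, Nat.odd_add] at he
    rw [he, Nat.not_even_iff_odd]
  · rw [if_neg hx, add_zero, Nat.even_add] at he
    simp only [hx, not_false_eq_true, iff_true]
    rw [← Nat.not_even_iff_odd, ← Nat.not_even_iff_odd, he]

lemma revOne_k_false : sp.revOne.k false = sp.k false := rfl

lemma revOne_k_true (x : Λ) : sp.revOne.k true x = -sp.k true x := rfl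

lemma revOne_pa {L Z : Finset Λ} {a b : Option Λ} (hZ : Z ⊆ L) (he : Even Z.card)
    (hc : sp.Cons true L b a) : sp.revOne.pa true Z a ↔ sp.pa true Z b := by
  rw [← sp.pa_compl hZ he hc]
  unfold pa
  simp only [revOne_k_true, neg_le_neg_iff]

lemma revOne_pb_true {Z : Finset Λ} {x : Λ} (he : Even Z.card) :
    sp.revOne.pb true Z x ↔ (sp.pb true Z x ↔ x ∉ Z) := by
  rw [← sp.pb_compl he]
  unfold pb
  simp only [revOne_k_true, neg_lt_neg_iff]

lemma revOne_pb_false {Z : Finset Λ} {x : Λ} :
    sp.revOne.pb false Z x ↔ sp.pb false Z x := Iff.rfl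

lemma revOne_cons_true {L : Finset Λ} {a b : Option Λ} :
    sp.revOne.Cons true L a b ↔ sp.Cons true L b a := by
  have h : ∀ a b : Option Λ, lt (sp.revOne.k true) a b ↔ lt (sp.k true) b a := by
    intro a b
    rcases a with _ | x <;> rcases b with _ | y <;> simp [revOne_k_true]
  unfold Cons
  rw [h]
  simp only [h]
  constructor
  · rintro ⟨h1, h2, h3, h4⟩
    exact ⟨h2, h1, h3, fun z hz hh => h4 z hz ⟨hh.2, hh.1⟩⟩
  · rintro ⟨h1, h2, h3, h4⟩
    exact ⟨h2, h1, h3, fun z hz hh => h4 z hz ⟨hh.2, hh.1⟩⟩

theorem revOne_val {S Z : Finset Λ} : sp.revOne.Val S Z ↔ sp.Val S Z := by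
  have ho : ∀ x, sp.revOne.o true x = !sp.o true x := fun x => rfl
  have ho' : ∀ x, sp.revOne.o false x = sp.o false x := fun x => rfl
  constructor
  · intro h
    refine ⟨h.sub, h.ne, h.even, ?_, ?_⟩
    · intro x hx hxZ
      have h1 := h.off x hx hxZ
      rw [revOne_pb_false, sp.revOne_pb_true h.even] at h1
      simpa [hxZ] using h1
    · intro x hx
      have h1 := h.on x hx
      rw [revOne_pb_false, sp.revOne_pb_true h.even, ho, ho'] at h1
      simp only [hx, not_true_eq_false, iff_false] at h1
      revert h1
      cases sp.o false x <;> cases sp.o true x <;> simp <;> tauto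
  · intro h
    refine ⟨h.sub, h.ne, h.even, ?_, ?_⟩
    · intro x hx hxZ
      have h1 := h.off x hx hxZ
      rw [revOne_pb_false, sp.revOne_pb_true h.even]
      simpa [hxZ] using h1
    · intro x hx
      have h1 := h.on x hx
      rw [revOne_pb_false, sp.revOne_pb_true h.even, ho, ho']
      simp only [hx, not_true_eq_false, iff_false]
      revert h1
      cases sp.o false x <;> cases sp.o true x <;> simp <;> tauto

/-- (3.2') A `D` which is good on the letters right-below `v`, with the path `P_1` reversed, is good. -/
theorem gd_LR {S Z : Finset Λ} {v : Λ} (hv : v ∈ S) (h : sp.revOne.Gd (sp.LR S v) Z) :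
    sp.Gd S Z := by
  obtain ⟨hV', hG⟩ := h
  have hV : sp.Val (sp.LR S v) Z := sp.revOne_val.mp hV'
  have hLS : sp.LR S v ⊆ S := Finset.filter_subset _ _
  have hL0 : ∀ x ∈ sp.LR S v, sp.k false x < sp.k false v := fun x hx =>
    (Finset.mem_filter.mp hx).2.1
  have hL1 : ∀ x ∈ sp.LR S v, sp.k true v < sp.k true x := fun x hx =>
    (Finset.mem_filter.mp hx).2.2
  have hnL : ∀ x ∈ S, x ∉ sp.LR S v → sp.k false v ≤ sp.k false x ∨ sp.k true x ≤ sp.k true v := by
    intro x hx hxL
    by_contra hc
    push Not at hc
    exact hxL (Finset.mem_filter.mpr ⟨hx, hc⟩)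
  have hZ0 : ∀ z ∈ Z, sp.k false z < sp.k false v := fun z hz => hL0 z (hV.sub hz)
  have hZ1 : ∀ z ∈ Z, sp.k true v < sp.k true z := fun z hz => hL1 z (hV.sub hz)
  refine ⟨hV.mono sp hLS ?_, ?_⟩
  · intro x hx hxL hpb
    rcases hnL x hx hxL with h1 | h1
    · exact sp.not_pb_above hV.even (fun z hz => (hZ0 z hz).trans_le h1) hpb.1
    · exact sp.not_pb_below (fun z hz => h1.trans (hZ1 z hz).le) hpb.2
  intro z hz χ hB
  have hpa0 : ¬sp.pa false Z (some v) := sp.not_pa_above hV.even hZ0
  have hpa1 : ¬sp.pa true Z (some v) := sp.not_pa_below hZ1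
  have hcZ : ∀ i a b, sp.Cons i (sp.LR S v) a b →
      ∀ z ∈ Z, ¬(lt (sp.k i) a (some z) ∧ lt (sp.k i) (some z) b) :=
    fun i a b hc z hz => hc.2.2.2 z (hV.sub hz)
  have hvi : some v ∈ Finset.insertNone S := mem_ins.mpr hv
  -- the two paths from the roots to `v` which avoid the region
  have hZn0 : ∀ z ∈ Z, ¬(lt (sp.k false) (some v) (some z) ∧ lt (sp.k false) (some z) none) := by
    rintro z hz ⟨h1, -⟩
    rw [lt_some] at h1
    have := hZ0 z hz
    omega
  have hZn1 : ∀ z ∈ Z, ¬(lt (sp.k true) none (some z) ∧ lt (sp.k true) (some z) (some v)) := by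
    rintro z hz ⟨-, h1⟩
    rw [lt_some] at h1
    have := hZ1 z hz
    omega
  -- the general construction
  have main : ∀ (z' : Option Λ) (c₂ : Bool), z' ∈ Finset.insertNone (sp.LR S v) →
      (∀ w, z = some w → w ∉ sp.LR S v → sp.k false v ≤ sp.k false w ∧ sp.k true w ≤ sp.k true v) →
      (∀ w ∈ sp.LR S v, some w ≠ z' → χ (some w, false) = χ (some w, true)) →
      χ (none, false) = χ (none, true) →
      χ (sp.inV false (some v)) = c₂ → χ (sp.outV true (some v)) = c₂ →
      (none ≠ z' → χ (none, false) = c₂) →
      (∀ w, z' = some w → χ (some w, false) ≠ χ (some w, true)) →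
      (z' = none → χ (none, false) ≠ c₂) → False := by
    intro z' c₂ hz' hzw hm hroot he0 he1 hrn hcut hcut'
    let χ' : Vx Λ → Bool := fun u => if u = (none, true) then c₂ else χ u
    have hχs : ∀ (x : Λ) (b : Bool), χ' (some x, b) = χ (some x, b) := by
      intro x b
      simp [χ']
    have hχ1 : χ' (none, false) = χ (none, false) := by simp [χ']
    have hχ2 : χ' (none, true) = c₂ := by simp [χ']
    have hzL : ∀ i a b, sp.Cons i (sp.LR S v) a b → ∀ w, z = some w → w ∈ sp.LR S v →
        ¬(lt (sp.k i) a (some w) ∧ lt (sp.k i) (some w) b) :=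
      fun i a b hc w _ hw => hc.2.2.2 w hw
    refine hG z' hz' χ' ⟨?_, ?_, ?_⟩
    · intro a ha hane
      rcases a with _ | x
      · rw [hχ1, hχ2]
        exact hrn hane
      · rw [hχs, hχs]
        exact hm x (mem_ins.mp ha) hane
    · intro i a b hc hpa
      cases i
      · -- the path `P_0`
        have hc' : sp.Cons false (sp.LR S v) a b := hc
        have hpa' : ¬sp.pa false Z a := hpa
        have hout : χ' (sp.revOne.outV false a) = χ (sp.outV false a) := by
          rcases a with _ | x
          · exact hχ1
          · exact hχs _ _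
        rw [hout]
        rcases b with _ | y
        · have h1 : χ' (sp.revOne.inV false none) = c₂ := hχ2
          rw [h1, ← he0]
          refine hB.path sp false (ins_mono hLS hc'.1) hvi ?_ ?_ hpa' ?_
          · intro x y hx hy
            obtain rfl : v = y := by simpa using hy
            subst hx
            exact hL0 x (mem_ins.mp hc'.1)
          · rintro z hz ⟨h1, h2⟩
            exact hcZ false a none hc' z hz ⟨h1, by simp⟩
          · rintro w hw ⟨h1, h2⟩
            rw [lt_some] at h2
            by_cases hwL : w ∈ sp.LR S v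
            · exact hzL false a none hc' w hw hwL ⟨h1, by simp⟩
            · have := (hzw w hw hwL).1
              omega
        · have h1 : χ' (sp.revOne.inV false (some y)) = χ (sp.inV false (some y)) := hχs _ _
          rw [h1]
          refine hB.path sp false (ins_mono hLS hc'.1) (ins_mono hLS hc'.2.1) hc'.2.2.1
            (hcZ false a _ hc') hpa' ?_
          rintro w hw ⟨h1, h2⟩
          by_cases hwL : w ∈ sp.LR S v
          · exact hzL false a _ hc' w hw hwL ⟨h1, h2⟩
          · have := (hzw w hw hwL).1
            have h3 := hL0 y (mem_ins.mp hc'.2.1)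
            rw [lt_some] at h2
            omega
      · -- the path `P_1`, reversed
        have hc' : sp.Cons true (sp.LR S v) b a := sp.revOne_cons_true.mp hc
        have hpa' : ¬sp.pa true Z b := by
          rw [← sp.revOne_pa hV.sub hV.even hc']
          exact hpa
        have hout : χ' (sp.revOne.outV true a) = χ (sp.inV true a) := by
          rcases a with _ | x
          · exact hχ1.trans hroot
          · exact hχs _ _
        rw [hout]
        symm
        rcases b with _ | y
        · have h1 : χ' (sp.revOne.inV true none) = c₂ := hχ2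
          rw [h1, ← he1]
          have hane : ∀ x, a = some x → sp.k true v < sp.k true x := by
            intro x hx
            subst hx
            exact hL1 x (mem_ins.mp hc'.2.1)
          have ha0 : a ≠ none := by
            rintro rfl
            obtain ⟨z0, hz0⟩ := hV.ne
            exact hcZ true none none hc' z0 hz0 ⟨by simp, by simp⟩
          refine hB.path sp true hvi (ins_mono hLS hc'.2.1) ?_ ?_ hpa1 ?_
          · intro x y hx hy
            obtain rfl : v = x := by simpa using hx
            exact hane y hy
          · rintro z hz ⟨h1, h2⟩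
            exact hcZ true none a hc' z hz ⟨by simp, h2⟩
          · rintro w hw ⟨h1, h2⟩
            rw [lt_some] at h1
            by_cases hwL : w ∈ sp.LR S v
            · exact hzL true none a hc' w hw hwL ⟨by simp, h2⟩
            · have := (hzw w hw hwL).2
              omega
        · have h1 : χ' (sp.revOne.inV true (some y)) = χ (sp.outV true (some y)) := by
            have : sp.revOne.inV true (some y) = sp.outV true (some y) := by
              simp [inV, outV, oo, revOne]
            rw [this]
            exact hχs _ _
          rw [h1]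
          refine hB.path sp true (ins_mono hLS hc'.1) (ins_mono hLS hc'.2.1) hc'.2.2.1
            (hcZ true _ a hc') hpa' ?_
          rintro w hw ⟨h1, h2⟩
          by_cases hwL : w ∈ sp.LR S v
          · exact hzL true _ a hc' w hw hwL ⟨h1, h2⟩
          · have := (hzw w hw hwL).2
            have h3 := hL1 y (mem_ins.mp hc'.1)
            rw [lt_some] at h1
            omega
    · rcases z' with _ | x
      · rw [hχ1, hχ2]
        exact hcut' rfl
      · rw [hχs, hχs]
        exact hcut x rfl
  rcases z with _ | u
  · -- the root edge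
    have hvm : χ (some v, false) = χ (some v, true) := hB.m _ hvi (by simp)
    have h0 : χ (sp.outV false (some v)) = χ (sp.inV false none) :=
      hB.path sp false hvi none_ins (by simp) hZn0 hpa0 (by simp)
    have h1 : χ (sp.outV true none) = χ (sp.inV true (some v)) :=
      hB.path sp true none_ins hvi (by simp) hZn1 (by simp) (by simp)
    apply hB.cut
    rw [inV_none] at h0
    rw [outV_none] at h1
    rw [← h0, h1]
    exact sp.io_all hvm _ _
  have huS : u ∈ S := mem_ins.mp hz
  have hroot : χ (none, false) = χ (none, true) := hB.m none none_ins (by simp)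
  by_cases huL : u ∈ sp.LR S v
  · -- a letter of the region
    have huv : u ≠ v := by
      rintro rfl
      exact absurd (hL0 u huL) (by simp)
    have hvm : χ (some v, false) = χ (some v, true) :=
      hB.m _ hvi (by simpa using fun h => huv h.symm)
    have h1 : χ (sp.outV true none) = χ (sp.inV true (some v)) :=
      hB.path sp true none_ins hvi (by simp) hZn1 (by simp) (by
        rintro w hw ⟨-, h2⟩
        obtain rfl : u = w := by simpa using hw
        rw [lt_some] at h2
        have := hL1 u huL
        omega)
    rw [outV_none] at h1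
    refine main (some u) (χ (sp.inV false (some v))) (mem_ins.mpr huL) ?_ ?_ hroot rfl ?_ ?_ ?_ ?_
    · intro w hw hwL
      obtain rfl : u = w := by simpa using hw
      exact absurd huL hwL
    · intro w hw hne
      exact hB.m _ (mem_ins.mpr (hLS hw)) hne
    · exact (sp.io_all hvm false true).symm
    · intro _
      rw [h1]
      rw [sp.io_all hvm true true, sp.io_all hvm false true]
    · intro w hw
      obtain rfl : u = w := by simpa using hw
      exact hB.cut
    · simp
  by_cases huv : u = v
  · -- `v` itself
    subst huv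
    have h0 : χ (sp.outV false (some u)) = χ (sp.inV false none) :=
      hB.path sp false hvi none_ins (by simp) hZn0 hpa0 (by
        rintro w hw ⟨h2, -⟩
        obtain rfl : u = w := by simpa using hw
        simp at h2)
    have h1 : χ (sp.outV true none) = χ (sp.inV true (some u)) :=
      hB.path sp true none_ins hvi (by simp) hZn1 (by simp) (by
        rintro w hw ⟨-, h2⟩
        obtain rfl : u = w := by simpa using hw
        simp at h2)
    rw [inV_none] at h0
    rw [outV_none] at h1
    have h2 := sp.io_ne (i := false) hB.cut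
    have h3 := sp.io_ne (i := true) hB.cut
    rw [h0] at h2
    rw [← h1, hroot] at h3
    refine main none (!χ (none, true)) none_ins ?_ ?_ hroot (bool_ne_iff.mp h2)
      (bool_ne_iff.mp h3.symm) (fun h => absurd rfl h) (by simp) ?_
    · intro w hw hwL
      obtain rfl : u = w := by simpa using hw
      exact ⟨le_rfl, le_rfl⟩
    · intro w hw _
      refine hB.m _ (mem_ins.mpr (hLS hw)) ?_
      intro he
      obtain rfl : w = u := by simpa using he
      exact huL hw
    · intro _
      rw [hroot]
      cases χ (none, true) <;> simp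
  -- `u` is outside the region and different from `v`
  have hvm : χ (some v, false) = χ (some v, true) :=
    hB.m _ hvi (by simpa using fun h => huv h.symm)
  have hk : ∀ i, sp.k i u ≠ sp.k i v := fun i h => huv (sp.inj i h)
  rcases lt_or_gt_of_ne (hk true) with h1 | h1
  · have c1 : χ (sp.outV true none) ≠ χ (sp.inV true (some v)) :=
      hB.path_cross sp huS true none_ins hvi hZn1 (by simp) (by simp) (by simpa using h1)
    rw [outV_none] at c1
    rcases lt_or_gt_of_ne (hk false) with h0 | h0
    · have c0 : χ (sp.outV false (some v)) = χ (sp.inV false none) :=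
        hB.path sp false hvi none_ins (by simp) hZn0 hpa0 (by
          rintro w hw ⟨h2, -⟩
          obtain rfl : u = w := by simpa using hw
          rw [lt_some] at h2
          omega)
      rw [inV_none] at c0
      apply c1
      rw [hroot, ← c0]
      exact (sp.io_all hvm _ _).symm
    · refine main none (χ (sp.inV false (some v))) none_ins ?_ ?_ hroot rfl
        (sp.io_all hvm _ _).symm (fun h => absurd rfl h) (by simp) ?_
      · intro w hw hwL
        obtain rfl : u = w := by simpa using hw
        exact ⟨h0.le, h1.le⟩
      · intro w hw _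
        refine hB.m _ (mem_ins.mpr (hLS hw)) ?_
        intro he
        obtain rfl : w = u := by simpa using he
        exact huL hw
      · intro _
        rw [sp.io_all hvm false false, ← sp.io_all hvm true false]
        exact c1
  · have h0 : sp.k false v < sp.k false u := by
      rcases hnL u huS huL with h2 | h2
      · exact lt_of_le_of_ne h2 (hk false).symm
      · omega
    have c1 : χ (sp.outV true none) = χ (sp.inV true (some v)) :=
      hB.path sp true none_ins hvi (by simp) hZn1 (by simp) (by
        rintro w hw ⟨-, h2⟩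
        obtain rfl : u = w := by simpa using hw
        rw [lt_some] at h2
        omega)
    have c0 : χ (sp.outV false (some v)) ≠ χ (sp.inV false none) :=
      hB.path_cross sp huS false hvi none_ins hZn0 hpa0 (by simpa using h0) (by simp)
    rw [outV_none] at c1
    rw [inV_none] at c0
    apply c0
    rw [← hroot, c1]
    exact (sp.io_all hvm _ _).symm

end SP

end Pool.GS
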