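import Pool.Agent.GSP.Corner

/-!
MP_7b7176_co, ROAD S, GOOD only: symmetries of `Gd`, the corner theorem, the cut form of `Gd`.
-/

set_option autoImplicit false
set_option linter.unusedSectionVars false

namespace Pool.GS

open Pool.GOD

namespace SP

variable {Λ : Type} [Fintype Λ] [DecidableEq Λ] (sp : SP Λ)

/-! ### reversal of both paths -/

lemma rev_k (i : Bool) (x : Λ) : sp.rev.k i x = -sp.k i x := rfl

lemma rev_lt {i : Bool} {a b : Option Λ} : lt (sp.rev.k i) a b ↔ lt (sp.k i) b a := by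
  rcases a with _ | x <;> rcases b with _ | y <;> simp [rev_k]

lemma rev_cons {i : Bool} {L : Finset Λ} {a b : Option Λ} :
    sp.rev.Cons i L a b ↔ sp.Cons i L b a := by
  unfold Cons
  simp only [rev_lt]
  constructor
  · rintro ⟨h1, h2, h3, h4⟩
    exact ⟨h2, h1, h3, fun z hz hh => h4 z hz ⟨hh.2, hh.1⟩⟩
  · rintro ⟨h1, h2, h3, h4⟩
    exact ⟨h2, h1, h3, fun z hz hh => h4 z hz ⟨hh.2, hh.1⟩⟩

lemma rev_pa {i : Bool} {L Z : Finset Λ} {a b : Option Λ} (hZ : Z ⊆ L) (he : Even Z.card)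
    (hc : sp.Cons i L b a) : sp.rev.pa i Z a ↔ sp.pa i Z b := by
  rw [← sp.pa_compl hZ he hc]
  unfold pa
  simp only [rev_k, neg_le_neg_iff]

lemma rev_pb {i : Bool} {Z : Finset Λ} {x : Λ} (he : Even Z.card) :
    sp.rev.pb i Z x ↔ (sp.pb i Z x ↔ x ∉ Z) := by
  rw [← sp.pb_compl he]
  unfold pb
  simp only [rev_k, neg_lt_neg_iff]

theorem rev_val {S Z : Finset Λ} : sp.rev.Val S Z ↔ sp.Val S Z := by
  have ho : ∀ i x, sp.rev.o i x = !sp.o i x := fun i x => rfl
  constructor
  · intro h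
    refine ⟨h.sub, h.ne, h.even, ?_, ?_⟩
    · intro x hx hxZ
      have h1 := h.off x hx hxZ
      rw [sp.rev_pb h.even, sp.rev_pb h.even] at h1
      simpa [hxZ] using h1
    · intro x hx
      have h1 := h.on x hx
      rw [sp.rev_pb h.even, sp.rev_pb h.even, ho, ho] at h1
      simp only [hx, not_true_eq_false, iff_false] at h1
      revert h1
      cases sp.o false x <;> cases sp.o true x <;> simp <;> tauto
  · intro h
    refine ⟨h.sub, h.ne, h.even, ?_, ?_⟩
    · intro x hx hxZ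
      have h1 := h.off x hx hxZ
      rw [sp.rev_pb h.even, sp.rev_pb h.even]
      simpa [hxZ] using h1
    · intro x hx
      have h1 := h.on x hx
      rw [sp.rev_pb h.even, sp.rev_pb h.even, ho, ho]
      simp only [hx, not_true_eq_false, iff_false]
      revert h1
      cases sp.o false x <;> cases sp.o true x <;> simp <;> tauto

theorem gd_of_rev {S Z : Finset Λ} (h : sp.rev.Gd S Z) : sp.Gd S Z := by
  obtain ⟨hV', hG⟩ := h
  have hV : sp.Val S Z := sp.rev_val.mp hV'
  refine ⟨hV, ?_⟩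
  intro z hz χ hB
  let χ' : Vx Λ → Bool := fun v => if v.1 = none then χ (none, !v.2) else χ v
  have hχs : ∀ (x : Λ) (b : Bool), χ' (some x, b) = χ (some x, b) := by
    intro x b
    simp [χ']
  have hχn : ∀ b : Bool, χ' (none, b) = χ (none, !b) := by
    intro b
    simp [χ']
  have hout : ∀ i a, χ' (sp.rev.outV i a) = χ (sp.inV i a) := by
    intro i a
    rcases a with _ | x
    · exact hχn _
    · exact hχs _ _
  have hin : ∀ i a, χ' (sp.rev.inV i a) = χ (sp.outV i a) := by
    intro i a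
    rcases a with _ | x
    · exact hχn _
    · have : sp.rev.inV i (some x) = sp.outV i (some x) := by
        simp [inV, outV, oo, rev]
      rw [this]
      exact hχs _ _
  refine hG z hz χ' ⟨?_, ?_, ?_⟩
  · intro a ha hne
    rcases a with _ | x
    · rw [hχn, hχn]
      exact (hB.m none none_ins hne).symm
    · rw [hχs, hχs]
      exact hB.m _ ha hne
  · intro i a b hc hpa
    have hc' := sp.rev_cons.mp hc
    rw [sp.rev_pa hV.sub hV.even hc'] at hpa
    rw [hout, hin]
    exact (hB.arc i b a hc' hpa).symm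
  · rcases z with _ | x
    · rw [hχn, hχn]
      exact hB.cut.symm
    · rw [hχs, hχs]
      exact hB.cut

lemma rev_rev_k (i : Bool) : sp.rev.rev.k i = sp.k i := by
  funext x
  rw [rev_k, rev_k, neg_neg]

lemma rev_rev : sp.rev.rev = sp := by
  have h1 : sp.rev.rev.k = sp.k := funext sp.rev_rev_k
  have h2 : sp.rev.rev.o = sp.o := by
    funext i x
    simp [rev]
  cases sp
  simp only [rev] at h1 h2 ⊢
  simp

theorem gd_rev {S Z : Finset Λ} : sp.rev.Gd S Z ↔ sp.Gd S Z := by
  refine ⟨sp.gd_of_rev, fun h => ?_⟩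
  apply sp.rev.gd_of_rev
  rw [rev_rev]
  exact h

/-! ### exchange of the two paths -/

theorem swap_val {S Z : Finset Λ} : sp.swap.Val S Z ↔ sp.Val S Z := by
  constructor
  · intro h
    refine ⟨h.sub, h.ne, h.even, ?_, ?_⟩
    · intro x hx hxZ hh
      exact h.off x hx hxZ ⟨hh.2, hh.1⟩
    · intro x hx
      have h1 := h.on x hx
      have h2 : sp.swap.pb false Z x ↔ sp.pb true Z x := Iff.rfl
      have h3 : sp.swap.pb true Z x ↔ sp.pb false Z x := Iff.rfl
      have h4 : sp.swap.o false x = sp.o true x := rfl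
      have h5 : sp.swap.o true x = sp.o false x := rfl
      rw [h2, h3, h4, h5] at h1
      tauto
  · intro h
    refine ⟨h.sub, h.ne, h.even, ?_, ?_⟩
    · intro x hx hxZ hh
      exact h.off x hx hxZ ⟨hh.2, hh.1⟩
    · intro x hx
      have h1 := h.on x hx
      have h2 : sp.swap.pb false Z x ↔ sp.pb true Z x := Iff.rfl
      have h3 : sp.swap.pb true Z x ↔ sp.pb false Z x := Iff.rfl
      have h4 : sp.swap.o false x = sp.o true x := rfl
      have h5 : sp.swap.o true x = sp.o false x := rfl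
      rw [h2, h3, h4, h5]
      tauto

lemma swap_inV (i : Bool) (a : Option Λ) : sp.swap.inV i a = sp.inV (!i) a := by
  rcases a with _ | x <;> rfl

lemma swap_outV (i : Bool) (a : Option Λ) : sp.swap.outV i a = sp.outV (!i) a := by
  rcases a with _ | x <;> rfl

theorem swap_br {S Z : Finset Λ} {z : Option Λ} {χ : Vx Λ → Bool} :
    sp.swap.Br S Z z χ ↔ sp.Br S Z z χ := by
  constructor
  · intro h
    refine ⟨h.m, ?_, h.cut⟩
    intro i a b hc hpa
    have h1 := h.arc (!i) a b (by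
      cases i
      · exact hc
      · exact hc) (by
      cases i
      · exact hpa
      · exact hpa)
    rw [swap_inV, swap_outV, Bool.not_not] at h1
    exact h1
  · intro h
    refine ⟨h.m, ?_, h.cut⟩
    intro i a b hc hpa
    have h1 := h.arc (!i) a b (by
      cases i
      · exact hc
      · exact hc) (by
      cases i
      · exact hpa
      · exact hpa)
    rw [swap_inV, swap_outV]
    exact h1

theorem gd_swap {S Z : Finset Λ} : sp.swap.Gd S Z ↔ sp.Gd S Z := by
  unfold Gd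
  rw [swap_val]
  simp only [swap_br]

/-! ### the four corners -/

lemma rev_LL (S : Finset Λ) (q : Λ) : sp.rev.LL S q = sp.UR S q := by
  ext x
  simp [LL, UR, rev_k]

lemma rev_LR (S : Finset Λ) (q : Λ) : sp.rev.LR S q = sp.UL S q := by
  ext x
  simp [LR, UL, rev_k]

/-- (3.1') for the letters right-above `q`. -/
theorem gd_UR {S Z : Finset Λ} {q : Λ} (hq : q ∈ S) (h : sp.Gd (sp.UR S q) Z) : sp.Gd S Z := by
  rw [← sp.gd_rev]
  apply sp.rev.gd_LL hq
  rw [rev_LL, gd_rev]
  exact h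

/-- (3.2') for the letters left-above `q`. -/
theorem gd_UL {S Z : Finset Λ} {q : Λ} (hq : q ∈ S) (h : sp.rev.revOne.Gd (sp.UL S q) Z) :
    sp.Gd S Z := by
  rw [← sp.gd_rev]
  apply sp.rev.gd_LR hq
  rw [rev_LR]
  exact h

lemma revOne_nonSep {S : Finset Λ} : sp.revOne.NonSep S ↔ sp.NonSep S := by
  constructor
  · rintro ⟨a, ha, b, hb, c, hc, d, hd, h1, h2, h3, h4⟩
    simp only [revOne_k_true, revOne_k_false, neg_lt_neg_iff] at h1 h2 h3 h4
    refine ⟨d, hd, c, hc, b, hb, a, ha, h3, h2, h1, ?_⟩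
    tauto
  · rintro ⟨a, ha, b, hb, c, hc, d, hd, h1, h2, h3, h4⟩
    refine ⟨d, hd, c, hc, b, hb, a, ha, ?_⟩
    simp only [revOne_k_true, revOne_k_false, neg_lt_neg_iff]
    refine ⟨h3, h2, h1, ?_⟩
    tauto

lemma rev_nonSep {S : Finset Λ} : sp.rev.NonSep S ↔ sp.NonSep S := by
  constructor
  · rintro ⟨a, ha, b, hb, c, hc, d, hd, h1, h2, h3, h4⟩
    simp only [rev_k, neg_lt_neg_iff] at h1 h2 h3 h4
    refine ⟨d, hd, c, hc, b, hb, a, ha, h3, h2, h1, ?_⟩
    tauto
  · rintro ⟨a, ha, b, hb, c, hc, d, hd, h1, h2, h3, h4⟩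
    refine ⟨d, hd, c, hc, b, hb, a, ha, ?_⟩
    simp only [rev_k, neg_lt_neg_iff]
    refine ⟨h3, h2, h1, ?_⟩
    tauto

lemma swap_nonSep {S : Finset Λ} : sp.swap.NonSep S ↔ sp.NonSep S := by
  have key : ∀ sp : SP Λ, sp.NonSep S → sp.swap.NonSep S := by
    rintro sp ⟨a, ha, b, hb, c, hc, d, hd, h1, h2, h3, h4 | h4⟩
    · refine ⟨c, hc, a, ha, d, hd, b, hb, ?_⟩
      change sp.k false c < sp.k false a ∧ sp.k false a < sp.k false d ∧
        sp.k false d < sp.k false b ∧
        ((sp.k true d < sp.k true c ∧ sp.k true c < sp.k true b ∧ sp.k true b < sp.k true a) ∨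
        (sp.k true a < sp.k true b ∧ sp.k true b < sp.k true c ∧ sp.k true c < sp.k true d))
      tauto
    · refine ⟨b, hb, d, hd, a, ha, c, hc, ?_⟩
      change sp.k false b < sp.k false d ∧ sp.k false d < sp.k false a ∧
        sp.k false a < sp.k false c ∧
        ((sp.k true a < sp.k true b ∧ sp.k true b < sp.k true c ∧ sp.k true c < sp.k true d) ∨
        (sp.k true d < sp.k true c ∧ sp.k true c < sp.k true b ∧ sp.k true b < sp.k true a))
      tauto
  exact ⟨fun h => key sp.swap h, key sp⟩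

lemma card_corner_lt {S L : Finset Λ} {q : Λ} (hL : L ⊆ S) (hq : q ∈ S) (hqL : q ∉ L) :
    L.card < S.card :=
  Finset.card_lt_card ⟨hL, fun h => hqL (h hq)⟩

/-- A minimal counterexample is corner-free. -/
theorem cf_of_min {S : Finset Λ}
    (ih : ∀ (sp' : SP Λ) (S' : Finset Λ), S'.card < S.card → sp'.NonSep S' → ∃ Z, sp'.Gd S' Z)
    (hno : ¬∃ Z, sp.Gd S Z) : sp.CF S := by
  intro q hq
  refine ⟨?_, ?_, ?_, ?_⟩
  · intro h
    obtain ⟨Z, hZ⟩ := ih sp (sp.LL S q)
      (card_corner_lt (Finset.filter_subset _ _) hq (by simp [LL])) h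
    exact hno ⟨Z, sp.gd_LL hq hZ⟩
  · intro h
    obtain ⟨Z, hZ⟩ := ih sp.rev.revOne (sp.UL S q)
      (card_corner_lt (Finset.filter_subset _ _) hq (by simp [UL]))
      (by rw [revOne_nonSep, rev_nonSep]; exact h)
    exact hno ⟨Z, sp.gd_UL hq hZ⟩
  · intro h
    obtain ⟨Z, hZ⟩ := ih sp.revOne (sp.LR S q)
      (card_corner_lt (Finset.filter_subset _ _) hq (by simp [LR]))
      (by rw [revOne_nonSep]; exact h)
    exact hno ⟨Z, sp.gd_LR hq hZ⟩
  · intro h
    obtain ⟨Z, hZ⟩ := ih sp (sp.UR S q)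
      (card_corner_lt (Finset.filter_subset _ _) hq (by simp [UR])) h
    exact hno ⟨Z, sp.gd_UR hq hZ⟩

/-! ### the cut form -/

lemma ends_inl (a : Option Λ) : sp.G.ends (Sum.inl a) = s((a, false), (a, true)) := rfl

lemma ends_inr (i : Bool) (a b : Option Λ) :
    sp.G.ends (Sum.inr (i, a, b)) = s(sp.outV i a, sp.inV i b) := rfl

/-- The colour form and the cut form of bridges. -/
theorem br_iff_cut {S Z : Finset Λ} {z : Option Λ} (hz : z ∈ Finset.insertNone S) :
    (∃ χ, sp.Br S Z z χ) ↔ ∃ Y : Finset (Vx Λ), sp.H S Z ∩ sp.G.cut Y = {Sum.inl z} := by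
  constructor
  · rintro ⟨χ, h⟩
    refine ⟨Finset.univ.filter (fun v => χ v = true), ?_⟩
    ext e
    rw [Finset.mem_inter, Finset.mem_singleton]
    rcases e with a | ⟨i, a, b⟩
    · rw [sp.G.mem_cut (sp.ends_inl a), mem_H_inl]
      simp only [Finset.mem_filter, Finset.mem_univ, true_and]
      constructor
      · rintro ⟨ha, hh⟩
        by_contra hne
        have := h.m a ha (fun h => hne (by rw [h]))
        rw [this] at hh
        tauto
      · intro he
        obtain rfl : a = z := by simpa using he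
        refine ⟨hz, ?_⟩
        have := h.cut
        revert this
        cases χ (a, false) <;> cases χ (a, true) <;> simp
    · rw [sp.G.mem_cut (sp.ends_inr i a b), mem_H_inr]
      simp only [Finset.mem_filter, Finset.mem_univ, true_and, reduceCtorEq, iff_false]
      rintro ⟨⟨hc, hpa⟩, hh⟩
      have := h.arc i a b hc hpa
      rw [this] at hh
      tauto
  · rintro ⟨Y, hY⟩
    have hY' : ∀ e, (e ∈ sp.H S Z ∧ e ∈ sp.G.cut Y) ↔ e = Sum.inl z := by
      intro e
      rw [← Finset.mem_inter, hY, Finset.mem_singleton]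
    refine ⟨fun v => decide (v ∈ Y), ⟨?_, ?_, ?_⟩⟩
    · intro a ha hne
      have h1 := hY' (Sum.inl a)
      rw [sp.G.mem_cut (sp.ends_inl a), mem_H_inl] at h1
      have h2 : ¬((a ∈ Finset.insertNone S) ∧
          (((a, false) ∈ Y ∧ (a, true) ∉ Y) ∨ ((a, true) ∈ Y ∧ (a, false) ∉ Y))) := by
        rw [h1]
        intro h
        exact hne (by simpa using h)
      rw [decide_eq_decide]
      tauto
    · intro i a b hc hpa
      have h1 := hY' (Sum.inr (i, a, b))
      rw [sp.G.mem_cut (sp.ends_inr i a b), mem_H_inr] at h1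
      have h2 : ¬((sp.Cons i S a b ∧ ¬sp.pa i Z a) ∧
          ((sp.outV i a ∈ Y ∧ sp.inV i b ∉ Y) ∨ (sp.inV i b ∈ Y ∧ sp.outV i a ∉ Y))) := by
        rw [h1]
        simp
      rw [decide_eq_decide]
      tauto
    · have h1 := (hY' (Sum.inl z)).mpr rfl
      rw [sp.G.mem_cut (sp.ends_inl z)] at h1
      intro he
      rw [decide_eq_decide] at he
      tauto

/-- `Gd` in the cut form. -/
theorem gd_iff_cut {S Z : Finset Λ} : sp.Gd S Z ↔ sp.Val S Z ∧
    ∀ a ∈ Finset.insertNone S, ∀ Y : Finset (Vx Λ), sp.H S Z ∩ sp.G.cut Y ≠ {Sum.inl a} := by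
  unfold Gd
  refine and_congr_right (fun _ => ?_)
  constructor
  · intro h a ha Y hY
    obtain ⟨χ, hχ⟩ := (sp.br_iff_cut ha).mpr ⟨Y, hY⟩
    exact h a ha χ hχ
  · intro h a ha χ hχ
    obtain ⟨Y, hY⟩ := (sp.br_iff_cut ha).mp ⟨χ, hχ⟩
    exact h a ha Y hY

end SP

end Pool.GS
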