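import Pool.Agent.GSP.Base


/-!
MP_7b7176_co, ROAD S, section 6: the circuits with two switches, in model-independent form.  The two
lines (paths) are given by functions `lv, ev : Option L → Bool` (the colour of the vertex at which
the path leaves / enters a letter; `none` is the root end).
-/

set_option autoImplicit false

namespace Pool.GSP.Two

variable {L : Type*}

/-- Consecutive letters of `S` in the order of the coordinate `c`; `none` is the root end. -/
def Cons (c : L → ℤ) (S : Finset L) (a b : Option L) : Prop :=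
  (∀ x ∈ a, x ∈ S) ∧ (∀ x ∈ b, x ∈ S) ∧ (∀ x ∈ a, ∀ y ∈ b, c x < c y) ∧
    ∀ w ∈ S, ¬ ((∀ x ∈ a, c x < c w) ∧ (∀ y ∈ b, c w < c y))

/-- If no arc and no letter edge between `a` and `b` is cut then the two ends agree. -/
lemma seg {c : L → ℤ} {S : Finset L} {lv ev : Option L → Bool} :
    ∀ (n : ℕ) (a b : Option L), (∀ x ∈ a, x ∈ S) → (∀ x ∈ b, x ∈ S) →
      (∀ x ∈ a, ∀ y ∈ b, c x < c y) →
      (∀ a' b', Cons c S a' b' → (∀ x ∈ a, ∃ x' ∈ a', c x ≤ c x') →
        (∀ y ∈ b, ∃ y' ∈ b', c y' ≤ c y) → lv a' = ev b') →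
      (∀ z ∈ S, (∀ x ∈ a, c x < c z) → (∀ y ∈ b, c z < c y) → ev (some z) = lv (some z)) →
      (S.filter (fun z => (∀ x ∈ a, c x < c z) ∧ (∀ y ∈ b, c z < c y))).card ≤ n →
      lv a = ev b := by
  intro n
  induction n with
  | zero =>
    intro a b ha hb hab harc hM hcard
    refine harc a b ⟨ha, hb, hab, ?_⟩ (fun x hx => ⟨x, hx, le_refl _⟩) (fun y hy => ⟨y, hy, le_refl _⟩)
    intro w hw h
    have h0 : S.filter (fun z => (∀ x ∈ a, c x < c z) ∧ (∀ y ∈ b, c z < c y)) = ∅ := by
      rw [← Finset.card_eq_zero]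
      omega
    have : w ∈ S.filter (fun z => (∀ x ∈ a, c x < c z) ∧ (∀ y ∈ b, c z < c y)) :=
      Finset.mem_filter.mpr ⟨hw, h⟩
    rw [h0] at this
    simp at this
  | succ n ih =>
    intro a b ha hb hab harc hM hcard
    by_cases hz : ∃ z ∈ S, (∀ x ∈ a, c x < c z) ∧ (∀ y ∈ b, c z < c y)
    · obtain ⟨z, hzS, hz1, hz2⟩ := hz
      have e1 : lv a = ev (some z) := by
        refine ih a (some z) ha (by simpa using hzS) (by simpa using hz1) ?_ ?_ ?_
        · intro a' b' h1 h2 h3
          refine harc a' b' h1 h2 ?_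
          intro y hy
          obtain ⟨y', hy', h4⟩ := h3 z rfl
          exact ⟨y', hy', h4.trans (hz2 y hy).le⟩
        · intro w hw h1 h2
          exact hM w hw h1 (fun y hy => (h2 z rfl).trans (hz2 y hy))
        · refine Nat.le_of_lt_succ (lt_of_lt_of_le (Finset.card_lt_card ?_) hcard)
          rw [Finset.ssubset_iff_of_subset]
          · exact ⟨z, Finset.mem_filter.mpr ⟨hzS, hz1, hz2⟩, by simp⟩
          · intro w hw
            rw [Finset.mem_filter] at hw ⊢
            exact ⟨hw.1, hw.2.1, fun y hy => (hw.2.2 z rfl).trans (hz2 y hy)⟩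
      have e2 : lv (some z) = ev b := by
        refine ih (some z) b (by simpa using hzS) hb (by simpa using hz2) ?_ ?_ ?_
        · intro a' b' h1 h2 h3
          refine harc a' b' h1 ?_ h3
          intro y hy
          obtain ⟨y', hy', h4⟩ := h2 z rfl
          exact ⟨y', hy', (hz1 y hy).le.trans h4⟩
        · intro w hw h1 h2
          exact hM w hw (fun y hy => (hz1 y hy).trans (h1 z rfl)) h2
        · refine Nat.le_of_lt_succ (lt_of_lt_of_le (Finset.card_lt_card ?_) hcard)
          rw [Finset.ssubset_iff_of_subset]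
          · exact ⟨z, Finset.mem_filter.mpr ⟨hzS, hz1, hz2⟩, by simp⟩
          · intro w hw
            rw [Finset.mem_filter] at hw ⊢
            exact ⟨hw.1, fun y hy => (hz1 y hy).trans (hw.2.1 z rfl), hw.2.2⟩
      rw [e1, hM z hzS hz1 hz2, e2]
    · refine harc a b ⟨ha, hb, hab, ?_⟩ (fun x hx => ⟨x, hx, le_refl _⟩)
        (fun y hy => ⟨y, hy, le_refl _⟩)
      intro w hw h
      exact hz ⟨w, hw, h⟩

lemma cut_of_ne {c : L → ℤ} {S : Finset L} {lv ev : Option L → Bool} {a b : Option L}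
    (ha : ∀ x ∈ a, x ∈ S) (hb : ∀ x ∈ b, x ∈ S) (hab : ∀ x ∈ a, ∀ y ∈ b, c x < c y)
    (h : lv a ≠ ev b) :
    (∃ a' b', Cons c S a' b' ∧ (∀ x ∈ a, ∃ x' ∈ a', c x ≤ c x') ∧
      (∀ y ∈ b, ∃ y' ∈ b', c y' ≤ c y) ∧ lv a' ≠ ev b') ∨
    ∃ z ∈ S, (∀ x ∈ a, c x < c z) ∧ (∀ y ∈ b, c z < c y) ∧ ev (some z) ≠ lv (some z) := by
  by_contra hcon
  rw [not_or] at hcon
  obtain ⟨h1, h2⟩ := hcon
  apply h
  refine seg _ a b ha hb hab ?_ ?_ (le_refl _)
  · intro a' b' h3 h4 h5
    by_contra h6
    exact h1 ⟨a', b', h3, h4, h5, h6⟩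
  · intro z hz h3 h4
    by_contra h6
    exact h2 ⟨z, hz, h3, h4, h6⟩

/-- Edges. -/
inductive Edge (L : Type*)
  | V (a b : Option L)
  | P (a b : Option L)
  | M (x : L)
  | R

/-- Exchange of the two lines. -/
def Edge.sw : Edge L → Edge L
  | .V a b => .P a b
  | .P a b => .V a b
  | .M x => .M x
  | .R => .R

lemma Edge.sw_sw (e : Edge L) : e.sw.sw = e := by cases e <;> rfl

/-- At most one cut edge, both ends good: everything in between is good. -/
lemma line_good {c : L → ℤ} {S : Finset L} {lv ev : Option L → Bool} {K : Edge L → Prop}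
    {f : Option L → Option L → Edge L} (hf : ∀ a b a' b', f a b = f a' b' → a = a' ∧ b = b')
    (hfm : ∀ a b z, f a b ≠ .M z) (hK : ∀ e e', K e → K e' → e = e')
    {a b : Option L} (ha : ∀ x ∈ a, x ∈ S) (hb : ∀ x ∈ b, x ∈ S)
    (hKf : ∀ a' b', Cons c S a' b' → (∀ x ∈ a, ∃ x' ∈ a', c x ≤ c x') →
      (∀ y ∈ b, ∃ y' ∈ b', c y' ≤ c y) → lv a' ≠ ev b' → K (f a' b'))
    (hKm : ∀ z ∈ S, ev (some z) ≠ lv (some z) → K (.M z)) {β : Bool} (h1 : lv a = β)
    (h2 : ev b = β) {z : L} (hz : z ∈ S) (hz1 : ∀ x ∈ a, c x < c z) (hz2 : ∀ y ∈ b, c z < c y) :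
    ev (some z) = β ∧ lv (some z) = β := by
  -- a cut edge before `z` and a cut edge after `z`
  have k1 : ev (some z) ≠ β → (∃ a' b', K (f a' b') ∧ ∃ y' ∈ b', c y' ≤ c z) ∨
      ∃ w, K (.M w) ∧ c w < c z := by
    intro h
    rcases cut_of_ne (c := c) (S := S) (lv := lv) (ev := ev) (a := a) (b := some z) ha
      (by simpa using hz) (by simpa using hz1) (by rw [h1]; exact fun e => h e.symm) with
      ⟨a', b', h3, h4, h5, h6⟩ | ⟨w, hw, h3, h4, h5⟩
    · obtain ⟨y', hy', h7⟩ := h5 z rfl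
      refine Or.inl ⟨a', b', hKf a' b' h3 h4 ?_ h6, y', hy', h7⟩
      intro y hy
      exact ⟨y', hy', h7.trans (hz2 y hy).le⟩
    · exact Or.inr ⟨w, hKm w hw h5, h4 z rfl⟩
  have k2 : lv (some z) ≠ β → (∃ a' b', K (f a' b') ∧ (∃ x' ∈ a', c z ≤ c x') ∧
      ∀ x' ∈ a', ∀ y' ∈ b', c x' < c y') ∨ ∃ w, K (.M w) ∧ c z < c w := by
    intro h
    rcases cut_of_ne (c := c) (S := S) (lv := lv) (ev := ev) (a := some z) (b := b)
      (by simpa using hz) hb (by simpa using hz2) (by rw [h2]; exact h) with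
      ⟨a', b', h3, h4, h5, h6⟩ | ⟨w, hw, h3, h4, h5⟩
    · obtain ⟨y', hy', h7⟩ := h4 z rfl
      refine Or.inl ⟨a', b', hKf a' b' h3 ?_ h5 h6, ⟨y', hy', h7⟩, h3.2.2.1⟩
      intro y hy
      exact ⟨y', hy', (hz1 y hy).le.trans h7⟩
    · exact Or.inr ⟨w, hKm w hw h5, h3 z rfl⟩
  by_cases e1 : ev (some z) = β <;> by_cases e2 : lv (some z) = β
  · exact ⟨e1, e2⟩
  · exfalso
    have k3 := hKm z hz (by rw [e1]; exact fun h => e2 h.symm)
    rcases k2 e2 with ⟨a', b', h3, h4⟩ | ⟨w, h3, h4⟩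
    · exact hfm _ _ _ (hK _ _ h3 k3)
    · have := hK _ _ h3 k3
      simp only [Edge.M.injEq] at this
      subst this
      exact lt_irrefl _ h4
  · exfalso
    have k3 := hKm z hz (by rw [e2]; exact e1)
    rcases k1 e1 with ⟨a', b', h3, h4⟩ | ⟨w, h3, h4⟩
    · exact hfm _ _ _ (hK _ _ h3 k3)
    · have := hK _ _ h3 k3
      simp only [Edge.M.injEq] at this
      subst this
      exact lt_irrefl _ h4
  · exfalso
    rcases k1 e1 with ⟨a', b', h3, y', hy', h4⟩ | ⟨w, h3, h4⟩ <;>
      rcases k2 e2 with ⟨a'', b'', h5, ⟨x', hx', h6⟩, h7⟩ | ⟨w', h5, h6⟩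
    · obtain ⟨e3, e4⟩ := hf _ _ _ _ (hK _ _ h3 h5)
      subst e3 e4
      have := h7 x' hx' y' hy'
      omega
    · exact hfm _ _ _ (hK _ _ h3 h5)
    · exact hfm _ _ _ (hK _ _ h5 h3)
    · have := hK _ _ h3 h5
      simp only [Edge.M.injEq] at this
      subst this
      omega

/-- The data of a pair of type I: the two lines are the `q`-line (number 0) and the `p`-line
(number 1); `K` contains the cut edges. -/
structure Ctx (p q : L → ℤ) (sg : L → Bool) (S : Finset L) (x y : L)
    (lv0 ev0 lv1 ev1 : Option L → Bool) (K : Edge L → Prop) : Prop where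
  hp : Function.Injective p
  hq : Function.Injective q
  hx : x ∈ S
  hy : y ∈ S
  pxy : p x < p y
  qyx : q y < q x
  emp : ∀ z ∈ S, p x < p z → p z < p y → q y < q z → q z < q x → False
  sx : sg x = true
  sy : sg y = true
  st : ∀ z ∈ S, sg z = true → ev1 (some z) = ev0 (some z) ∧ lv1 (some z) = lv0 (some z)
  sf : ∀ z ∈ S, sg z = false → ev1 (some z) = lv0 (some z) ∧ lv1 (some z) = ev0 (some z)
  hV : ∀ a b, Cons q S a b → ((∃ b' ∈ b, q b' ≤ q y) ∨ (∃ a' ∈ a, q x ≤ q a')) →
    lv0 a ≠ ev0 b → K (.V a b)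
  hP : ∀ a b, Cons p S a b → ((∃ b' ∈ b, p b' ≤ p x) ∨ (∃ a' ∈ a, p y ≤ p a')) →
    lv1 a ≠ ev1 b → K (.P a b)
  hM : ∀ z ∈ S, ev0 (some z) ≠ lv0 (some z) → K (.M z)

section ctx

variable {p q : L → ℤ} {sg : L → Bool} {S : Finset L} {x y : L}
  {lv0 ev0 lv1 ev1 : Option L → Bool} {K : Edge L → Prop}

lemma Ctx.sw (h : Ctx p q sg S x y lv0 ev0 lv1 ev1 K) :
    Ctx q p sg S y x lv1 ev1 lv0 ev0 (fun e => K e.sw) where
  hp := h.hq
  hq := h.hp
  hx := h.hy
  hy := h.hx
  pxy := h.qyx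
  qyx := h.pxy
  emp := fun z hz h1 h2 h3 h4 => h.emp z hz h3 h4 h1 h2
  sx := h.sy
  sy := h.sx
  st := fun z hz hs => ⟨(h.st z hz hs).1.symm, (h.st z hz hs).2.symm⟩
  sf := fun z hz hs => ⟨(h.sf z hz hs).2.symm, (h.sf z hz hs).1.symm⟩
  hV := fun a b h1 h2 h3 => h.hP a b h1 h2 h3
  hP := fun a b h1 h2 h3 => h.hV a b h1 h2 h3
  hM := by
    intro z hz h1
    apply h.hM z hz
    cases hs : sg z with
    | true =>
      rw [(h.st z hz hs).1, (h.st z hz hs).2] at h1
      exact h1
    | false =>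
      rw [(h.sf z hz hs).1, (h.sf z hz hs).2] at h1
      exact h1.symm

lemma Ctx.hM' (h : Ctx p q sg S x y lv0 ev0 lv1 ev1 K) :
    ∀ z ∈ S, ev1 (some z) ≠ lv1 (some z) → K (.M z) := h.sw.hM

/-- If `ev1 z = lv1 z` then all four values at `z` agree. -/
lemma Ctx.eq01 (h : Ctx p q sg S x y lv0 ev0 lv1 ev1 K) {z : L} (hz : z ∈ S) {β : Bool}
    (h1 : ev1 (some z) = β ∧ lv1 (some z) = β) : ev0 (some z) = β ∧ lv0 (some z) = β := by
  cases hs : sg z with
  | true =>
    have := h.st z hz hs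
    exact ⟨this.1.symm.trans h1.1, this.2.symm.trans h1.2⟩
  | false =>
    have := h.sf z hz hs
    exact ⟨this.2.symm.trans h1.2, this.1.symm.trans h1.1⟩

lemma Ctx.eq10 (h : Ctx p q sg S x y lv0 ev0 lv1 ev1 K) {z : L} (hz : z ∈ S) {β : Bool}
    (h1 : ev0 (some z) = β ∧ lv0 (some z) = β) : ev1 (some z) = β ∧ lv1 (some z) = β :=
  h.sw.eq01 hz h1

/-- The first track. -/
lemma Ctx.track (h : Ctx p q sg S x y lv0 ev0 lv1 ev1 K) (hK : ∀ e e', K e → K e' → e = e')
    {β : Bool} (h0 : lv0 none = β) (h1 : ev1 none = β) :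
    ((∀ w ∈ S, q w < q y → ev0 (some w) = β ∧ lv0 (some w) = β) ∧
      (ev0 (some y) = β ∧ lv0 (some y) = β) ∧
      (∀ w ∈ S, p y < p w → ev0 (some w) = β ∧ lv0 (some w) = β)) ∨
    ∃ u ∈ S, K (.M u) ∧ q u < q y ∧ p y < p u ∧ sg u = false ∧
      (∀ w ∈ S, q w < q u → ev0 (some w) = β) ∧ (∀ w ∈ S, p u < p w → ev0 (some w) = β) ∧
      (∀ w ∈ S, q u < q w → q w < q y → ev0 (some w) ≠ β) ∧
      (∀ w ∈ S, p y < p w → p w < p u → ev0 (some w) ≠ β) := by
  have vf : ∀ a b a' b', Edge.V (L := L) a b = Edge.V a' b' → a = a' ∧ b = b' := by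
    intro a b a' b' e
    injection e with e1 e2
    exact ⟨e1, e2⟩
  have pf : ∀ a b a' b', Edge.P (L := L) a b = Edge.P a' b' → a = a' ∧ b = b' := by
    intro a b a' b' e
    injection e with e1 e2
    exact ⟨e1, e2⟩
  have vm : ∀ a b z, Edge.V (L := L) a b ≠ .M z := by
    intro a b z e
    cases e
  have pm : ∀ a b z, Edge.P (L := L) a b ≠ .M z := by
    intro a b z e
    cases e
  have l1y : lv1 (some y) = lv0 (some y) := (h.st y h.hy h.sy).2
  by_cases hy0 : ev0 (some y) = β
  · left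
    refine ⟨?_, ?_⟩
    · intro w hw hwy
      refine line_good (c := q) (S := S) (f := Edge.V) vf vm hK (a := none) (b := some y) (by simp)
        (by simpa using h.hy) ?_ h.hM h0 hy0 hw (by simp) (by simpa using hwy)
      intro a' b' h2 _ h3 h4
      exact h.hV a' b' h2 (Or.inl (h3 y rfl)) h4
    · have hy1 : lv0 (some y) = β := by
        by_contra hcon
        have k1 := h.hM y h.hy (by rw [hy0]; exact fun e => hcon e.symm)
        rcases cut_of_ne (c := p) (S := S) (lv := lv1) (ev := ev1) (a := some y) (b := none)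
          (by simpa using h.hy) (by simp) (by simp) (by rw [h1, l1y]; exact hcon) with
          ⟨a', b', h3, h4, h5, h6⟩ | ⟨w, hw, h3, h4, h5⟩
        · exact pm _ _ _ (hK _ _ (h.hP a' b' h3 (Or.inr (h4 y rfl)) h6) k1)
        · have := hK _ _ (h.hM' w hw h5) k1
          simp only [Edge.M.injEq] at this
          subst this
          exact lt_irrefl _ (h3 w rfl)
      refine ⟨⟨hy0, hy1⟩, ?_⟩
      intro w hw hwy
      refine h.eq01 hw ?_
      refine line_good (c := p) (S := S) (f := Edge.P) pf pm hK (a := some y) (b := none)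
        (by simpa using h.hy) (by simp) ?_ h.hM' (l1y.trans hy1) h1 hw (by simpa using hwy)
        (by simp)
      intro a' b' h2 h3 _ h4
      exact h.hP a' b' h2 (Or.inr (h3 y rfl)) h4
  · right
    have c1 := cut_of_ne (c := q) (S := S) (lv := lv0) (ev := ev0) (a := none) (b := some y)
      (by simp) (by simpa using h.hy) (by simp) (by rw [h0]; exact fun e => hy0 e.symm)
    have hy1 : lv0 (some y) ≠ β := by
      intro hy1
      have k1 := h.hM y h.hy (by rw [hy1]; exact hy0)
      rcases c1 with ⟨a', b', h3, h4, h5, h6⟩ | ⟨w, hw, h3, h4, h5⟩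
      · exact vm _ _ _ (hK _ _ (h.hV a' b' h3 (Or.inl (h5 y rfl)) h6) k1)
      · have := hK _ _ (h.hM w hw h5) k1
        simp only [Edge.M.injEq] at this
        subst this
        exact lt_irrefl _ (h4 w rfl)
    have c2 := cut_of_ne (c := p) (S := S) (lv := lv1) (ev := ev1) (a := some y) (b := none)
      (by simpa using h.hy) (by simp) (by simp) (by rw [h1, l1y]; exact hy1)
    obtain ⟨u, hu, hqu, hpu, hMu⟩ : ∃ u ∈ S, q u < q y ∧ p y < p u ∧
        ev0 (some u) ≠ lv0 (some u) := by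
      rcases c1 with ⟨a', b', h3, h4, h5, h6⟩ | ⟨w, hw, h3, h4, h5⟩ <;>
        rcases c2 with ⟨a'', b'', h3', h4', h5', h6'⟩ | ⟨w', hw', h3', h4', h5'⟩
      · exact absurd (hK _ _ (h.hV a' b' h3 (Or.inl (h5 y rfl)) h6)
          (h.hP a'' b'' h3' (Or.inr (h4' y rfl)) h6')) (by intro e; cases e)
      · exact absurd (hK _ _ (h.hV a' b' h3 (Or.inl (h5 y rfl)) h6) (h.hM' w' hw' h5'))
          (vm _ _ _)
      · exact absurd (hK _ _ (h.hP a'' b'' h3' (Or.inr (h4' y rfl)) h6') (h.hM w hw h5))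
          (pm _ _ _)
      · have := hK _ _ (h.hM w hw h5) (h.hM' w' hw' h5')
        simp only [Edge.M.injEq] at this
        subst this
        exact ⟨w, hw, h4 y rfl, h3' y rfl, h5⟩
    have kM := h.hM u hu hMu
    have nV : ∀ a b, Cons q S a b → (∃ b' ∈ b, q b' ≤ q y) → lv0 a = ev0 b := by
      intro a b h3 h4
      by_contra h5
      exact vm _ _ _ (hK _ _ (h.hV a b h3 (Or.inl h4) h5) kM)
    have nP : ∀ a b, Cons p S a b → (∃ a' ∈ a, p y ≤ p a') → lv1 a = ev1 b := by
      intro a b h3 h4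
      by_contra h5
      exact pm _ _ _ (hK _ _ (h.hP a b h3 (Or.inr h4) h5) kM)
    have nM : ∀ z ∈ S, z ≠ u → ev0 (some z) = lv0 (some z) := by
      intro z hz hzu
      by_contra h5
      have := hK _ _ (h.hM z hz h5) kM
      simp only [Edge.M.injEq] at this
      exact hzu this
    have nM' : ∀ z ∈ S, z ≠ u → ev1 (some z) = lv1 (some z) := by
      intro z hz hzu
      by_contra h5
      have := hK _ _ (h.hM' z hz h5) kM
      simp only [Edge.M.injEq] at this
      exact hzu this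
    have e0u : ev0 (some u) = β := by
      rw [← h0]
      symm
      refine seg (c := q) (S := S) _ none (some u) (by simp) (by simpa using hu) (by simp) ?_ ?_
        (le_refl _)
      · intro a' b' h3 h4 h5
        obtain ⟨b'', hb'', h6⟩ := h5 u rfl
        exact nV a' b' h3 ⟨b'', hb'', by omega⟩
      · intro z hz h3 h4
        exact nM z hz (fun e => by subst e; exact lt_irrefl _ (h4 z rfl))
    have l0u : lv0 (some u) ≠ β := by
      rw [← e0u]
      exact hMu.symm
    have l1u : lv1 (some u) = β := by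
      rw [← h1]
      refine seg (c := p) (S := S) _ (some u) none (by simpa using hu) (by simp) (by simp) ?_ ?_
        (le_refl _)
      · intro a' b' h3 h4 h5
        obtain ⟨b'', hb'', h6⟩ := h4 u rfl
        exact nP a' b' h3 ⟨b'', hb'', by omega⟩
      · intro z hz h3 h4
        exact nM' z hz (fun e => by subst e; exact lt_irrefl _ (h3 z rfl))
    have su : sg u = false := by
      by_contra hcon
      have := (h.st u hu (by simpa using hcon)).2
      exact l0u (this.symm.trans l1u)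
    have e1u : ev1 (some u) ≠ β := by
      rw [(h.sf u hu su).1]
      exact l0u
    refine ⟨u, hu, kM, hqu, hpu, su, ?_, ?_, ?_, ?_⟩
    · intro w hw hwu
      rw [← h0]
      symm
      refine seg (c := q) (S := S) _ none (some w) (by simp) (by simpa using hw) (by simp) ?_ ?_
        (le_refl _)
      · intro a' b' h3 h4 h5
        obtain ⟨b'', hb'', h6⟩ := h5 w rfl
        exact nV a' b' h3 ⟨b'', hb'', by omega⟩
      · intro z hz h3 h4
        refine nM z hz (fun e => ?_)
        subst e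
        have := h4 w rfl
        omega
    · intro w hw hwu
      have hwne : w ≠ u := fun e => by subst e; exact lt_irrefl _ hwu
      have k2 : lv1 (some w) = β := by
        rw [← h1]
        refine seg (c := p) (S := S) _ (some w) none (by simpa using hw) (by simp) (by simp) ?_ ?_
          (le_refl _)
        · intro a' b' h3 h4 h5
          obtain ⟨b'', hb'', h6⟩ := h4 w rfl
          exact nP a' b' h3 ⟨b'', hb'', by omega⟩
        · intro z hz h3 h4
          refine nM' z hz (fun e => ?_)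
          subst e
          have := h3 w rfl
          omega
      exact (h.eq01 hw ⟨(nM' w hw hwne).trans k2, k2⟩).1
    · intro w hw huw hwy
      have k2 : lv0 (some u) = ev0 (some w) := by
        refine seg (c := q) (S := S) _ (some u) (some w) (by simpa using hu) (by simpa using hw)
          (by simpa using huw) ?_ ?_ (le_refl _)
        · intro a' b' h3 h4 h5
          obtain ⟨b'', hb'', h6⟩ := h5 w rfl
          exact nV a' b' h3 ⟨b'', hb'', by omega⟩
        · intro z hz h3 h4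
          refine nM z hz (fun e => ?_)
          subst e
          exact lt_irrefl _ (h3 z rfl)
      rw [← k2]
      exact l0u
    · intro w hw hyw hwu
      have hwne : w ≠ u := fun e => by subst e; exact lt_irrefl _ hwu
      have k2 : lv1 (some w) = ev1 (some u) := by
        refine seg (c := p) (S := S) _ (some w) (some u) (by simpa using hw) (by simpa using hu)
          (by simpa using hwu) ?_ ?_ (le_refl _)
        · intro a' b' h3 h4 h5
          obtain ⟨b'', hb'', h6⟩ := h4 w rfl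
          exact nP a' b' h3 ⟨b'', hb'', by omega⟩
        · intro z hz h3 h4
          refine nM' z hz (fun e => ?_)
          subst e
          exact lt_irrefl _ (h4 z rfl)
      intro hcon
      have k3 := (h.eq10 hw ⟨hcon, (nM w hw hwne).symm.trans hcon⟩).2
      exact e1u (k2.symm.trans k3)

/-- The case of one exceptional letter. -/
lemma Ctx.track_iso (h : Ctx p q sg S x y lv0 ev0 lv1 ev1 K) (hK : ∀ e e', K e → K e' → e = e')
    {β : Bool} (h0 : lv0 none = β) (h1 : ev1 none = β) (h2 : lv1 none = β) (h3 : ev0 none = β)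
    (hI : ∀ u ∈ S, sg u = false → ¬ Iso S p q x y u) :
    (∀ w ∈ S, q w < q y → ev0 (some w) = β ∧ lv0 (some w) = β) ∧
      (ev0 (some y) = β ∧ lv0 (some y) = β) ∧
      (∀ w ∈ S, p y < p w → ev0 (some w) = β ∧ lv0 (some w) = β) := by
  rcases h.track hK h0 h1 with hA | ⟨u, hu, hKu, hqu, hpu, su, g1, g2, b1, b2⟩
  · exact hA
  · exfalso
    have hKs : ∀ e e' : Edge L, K e.sw → K e'.sw → e = e' := by
      intro e e' h4 h5
      have := congrArg Edge.sw (hK _ _ h4 h5)
      rwa [Edge.sw_sw, Edge.sw_sw] at this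
    rcases h.sw.track hKs h2 h3 with ⟨hB1, hB2, hB3⟩ | ⟨u', hu', hKu', hqu', hpu', _⟩
    · refine hI u hu su ⟨hpu, hqu, ?_, ?_⟩
      · intro z hz h4 h5
        have h6 := b1 z hz h4 h5
        have hxz : z ≠ x := by
          rintro rfl
          have := h.qyx
          omega
        have hzu : z ≠ u := by
          rintro rfl
          exact lt_irrefl _ h4
        have h7 : p z ≠ p x := fun e => hxz (h.hp e)
        have h8 : p z ≠ p u := fun e => hzu (h.hp e)
        constructor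
        · by_contra h9
          exact h6 (h.eq01 hz (hB1 z hz (by omega))).1
        · by_contra h9
          exact h6 (g2 z hz (by omega))
      · intro z hz h4 h5
        have h6 := b2 z hz h4 h5
        have hxz : z ≠ x := by
          rintro rfl
          have := h.pxy
          omega
        have hzu : z ≠ u := by
          rintro rfl
          exact lt_irrefl _ h5
        have h7 : q z ≠ q x := fun e => hxz (h.hq e)
        have h8 : q z ≠ q u := fun e => hzu (h.hq e)
        constructor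
        · by_contra h9
          exact h6 (g1 z hz (by omega))
        · by_contra h9
          exact h6 (h.eq01 hz (hB3 z hz (by omega))).1
    · have := hK _ _ hKu hKu'
      simp only [Edge.sw, Edge.M.injEq] at this
      subst this
      have := h.pxy
      omega

/-- All letters are good. -/
theorem Ctx.good (h : Ctx p q sg S x y lv0 ev0 lv1 ev1 K) (hK : ∀ e e', K e → K e' → e = e')
    {β : Bool} (h0 : lv0 none = β) (h1 : ev1 none = β) (h2 : lv1 none = β) (h3 : ev0 none = β)
    (hI : ∀ u ∈ S, sg u = false → ¬ Iso S p q x y u)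
    (hI' : ∀ u ∈ S, sg u = false → ¬ Iso S q p y x u) :
    ∀ w ∈ S, ev0 (some w) = β ∧ lv0 (some w) = β := by
  have hKs : ∀ e e' : Edge L, K e.sw → K e'.sw → e = e' := by
    intro e e' h4 h5
    have := congrArg Edge.sw (hK _ _ h4 h5)
    rwa [Edge.sw_sw, Edge.sw_sw] at this
  obtain ⟨a1, a2, a3⟩ := h.track_iso hK h0 h1 h2 h3 hI
  obtain ⟨b1, b2, b3⟩ := h.sw.track_iso hKs h2 h3 h0 h1 hI'
  intro w hw
  by_cases c1 : q w < q y
  · exact a1 w hw c1
  by_cases c2 : p y < p w
  · exact a3 w hw c2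
  by_cases c3 : p w < p x
  · exact h.eq01 hw (b1 w hw c3)
  by_cases c4 : q x < q w
  · exact h.eq01 hw (b3 w hw c4)
  by_cases c5 : p w = p x
  · rw [h.hp c5]
    exact h.eq01 h.hx b2
  by_cases c6 : p w = p y
  · rw [h.hp c6]
    exact a2
  by_cases c7 : q w = q x
  · rw [h.hq c7]
    exact h.eq01 h.hx b2
  by_cases c8 : q w = q y
  · rw [h.hq c8]
    exact a2
  exact (h.emp w hw (by omega) (by omega) (by omega) (by omega)).elim

end ctx


section empty

variable {p q : L → ℤ} {sg : L → Bool} {S : Finset L} {x y : L}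
  {lv0 ev0 lv1 ev1 : Option L → Bool} {K : Edge L → Prop}

lemma Ctx.low (h : Ctx p q sg S x y lv0 ev0 lv1 ev1 K) (hK : ∀ e, ¬ K e) {z : L} (hz : z ∈ S)
    (h1 : q z ≤ q y) : ev0 (some z) = lv0 none := by
  symm
  refine seg (c := q) (S := S) _ none (some z) (by simp) (by simpa using hz) (by simp) ?_ ?_
    (le_refl _)
  · intro a' b' h3 h4 h5
    obtain ⟨b'', hb'', h6⟩ := h5 z rfl
    by_contra h7
    exact hK _ (h.hV a' b' h3 (Or.inl ⟨b'', hb'', by omega⟩) h7)
  · intro w hw h3 h4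
    by_contra h7
    exact hK _ (h.hM w hw h7)

lemma Ctx.high (h : Ctx p q sg S x y lv0 ev0 lv1 ev1 K) (hK : ∀ e, ¬ K e) {z : L} (hz : z ∈ S)
    (h1 : q x ≤ q z) : lv0 (some z) = ev0 none := by
  refine seg (c := q) (S := S) _ (some z) none (by simpa using hz) (by simp) (by simp) ?_ ?_
    (le_refl _)
  · intro a' b' h3 h4 h5
    obtain ⟨b'', hb'', h6⟩ := h4 z rfl
    by_contra h7
    exact hK _ (h.hV a' b' h3 (Or.inr ⟨b'', hb'', by omega⟩) h7)
  · intro w hw h3 h4
    by_contra h7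
    exact hK _ (h.hM w hw h7)

lemma Ctx.left (h : Ctx p q sg S x y lv0 ev0 lv1 ev1 K) (hK : ∀ e, ¬ K e) {z : L} (hz : z ∈ S)
    (h1 : p z ≤ p x) : ev1 (some z) = lv1 none := h.sw.low (fun e => hK e.sw) hz h1

lemma Ctx.right (h : Ctx p q sg S x y lv0 ev0 lv1 ev1 K) (hK : ∀ e, ¬ K e) {z : L} (hz : z ∈ S)
    (h1 : p y ≤ p z) : lv1 (some z) = ev1 none := h.sw.high (fun e => hK e.sw) hz h1

lemma Ctx.eqs (h : Ctx p q sg S x y lv0 ev0 lv1 ev1 K) (hK : ∀ e, ¬ K e) {z : L} (hz : z ∈ S) :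
    lv0 (some z) = ev0 (some z) ∧ ev1 (some z) = ev0 (some z) ∧ lv1 (some z) = ev0 (some z) := by
  have h1 : ev0 (some z) = lv0 (some z) := by
    by_contra hcon
    exact hK _ (h.hM z hz hcon)
  cases hs : sg z with
  | true =>
    have := h.st z hz hs
    exact ⟨h1.symm, this.1, this.2.trans h1.symm⟩
  | false =>
    have := h.sf z hz hs
    exact ⟨h1.symm, this.1.trans h1.symm, this.2⟩

/-- The first track joins its two ends. -/
lemma Ctx.ends (h : Ctx p q sg S x y lv0 ev0 lv1 ev1 K) (hK : ∀ e, ¬ K e) :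
    lv0 none = ev1 none := by
  have h1 := h.low hK h.hy (le_refl _)
  have h2 := h.right hK h.hy (le_refl _)
  have h3 := h.eqs hK h.hy
  rw [← h1, ← h2, h3.2.2]

lemma Ctx.ne_ends (h : Ctx p q sg S x y lv0 ev0 lv1 ev1 K) (hK : ∀ e, ¬ K e) {z : L} (hz : z ∈ S)
    (h1 : (p z < p x ∧ q z < q y) ∨ (p y < p z ∧ q x < q z)) :
    lv0 none = lv1 none ∨ ev0 none = ev1 none := by
  have h3 := h.eqs hK hz
  rcases h1 with ⟨h1, h2⟩ | ⟨h1, h2⟩
  · left
    rw [← h.low hK hz h2.le, ← h.left hK hz h1.le, h3.2.1]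
  · right
    rw [← h.high hK hz h2.le, ← h.right hK hz h1.le, h3.2.2, h3.1]

end empty

end Pool.GSP.Two
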