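import Pool.Agent.GSP.Gd
import Pool.Agent.GSP.Two
import Pool.Agent.GSP.Bridge95

/-!
MP_7b7176_co, ROAD S, section 6: a pair of letters satisfying the criterion gives a good circuit with
two switches.
-/

set_option autoImplicit false
set_option linter.unusedSectionVars false

namespace Pool.GS

open Pool.GSP (Pr Iso NE)

namespace SP

variable {Λ : Type} [Fintype Λ] [DecidableEq Λ] (sp : SP Λ)

lemma odd_pair {x y : Λ} (hxy : x ≠ y) (P : Λ → Prop) [DecidablePred P] :
    Odd ((({x, y} : Finset Λ).filter P).card) ↔ (P x ↔ ¬ P y) := by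
  by_cases h1 : P x <;> by_cases h2 : P y <;>
    simp [Finset.filter_insert, Finset.filter_singleton, h1, h2, hxy]

lemma pb_pair {x y : Λ} (hxy : x ≠ y) (i : Bool) (w : Λ) :
    sp.pb i {x, y} w ↔ (sp.k i x < sp.k i w ↔ ¬ sp.k i y < sp.k i w) :=
  odd_pair hxy _

lemma pa_pair {x y : Λ} (hxy : x ≠ y) (i : Bool) (w : Λ) :
    sp.pa i {x, y} (some w) ↔ (sp.k i x ≤ sp.k i w ↔ ¬ sp.k i y ≤ sp.k i w) := by
  unfold pa
  rw [odd_pair hxy]
  simp

lemma pa_none' (i : Bool) (Z : Finset Λ) : ¬ sp.pa i Z none := by
  unfold pa
  simp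

variable {sp}

lemma cons_of {i : Bool} {S : Finset Λ} {a b : Option Λ}
    (h : GSP.Two.Cons (sp.k i) S a b) : sp.Cons i S a b := by
  obtain ⟨h1, h2, h3, h4⟩ := h
  refine ⟨?_, ?_, ?_, ?_⟩
  · cases a with
    | none => simp
    | some a => simpa using h1 a rfl
  · cases b with
    | none => simp
    | some b => simpa using h2 b rfl
  · intro x y hx hy
    exact h3 x hx y hy
  · intro z hz hcon
    refine h4 z hz ⟨fun x hx => hcon.1 x z hx rfl, fun y hy => hcon.2 z y rfl hy⟩

lemma cons_neg {i : Bool} {S : Finset Λ} {a b : Option Λ}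
    (h : GSP.Two.Cons (-(sp.k i)) S a b) : GSP.Two.Cons (sp.k i) S b a := by
  obtain ⟨h1, h2, h3, h4⟩ := h
  refine ⟨h2, h1, ?_, ?_⟩
  · intro x hx y hy
    have := h3 y hy x hx
    simp only [Pi.neg_apply] at this
    omega
  · intro z hz hcon
    refine h4 z hz ⟨fun x hx => ?_, fun y hy => ?_⟩
    · have := hcon.2 x hx
      simp only [Pi.neg_apply]
      omega
    · have := hcon.1 y hy
      simp only [Pi.neg_apply]
      omega

/-- The edge which is cut. -/
def cutE : Option Λ → GSP.Two.Edge Λ
  | none => .R
  | some z => .M z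

variable {S : Finset Λ} {x y : Λ}

/-- Type I, in the form of the core lemmas. -/
lemma ctx1 (hP : Pr S (sp.k true) (sp.k false) x y) (sx : sp.sgn x = true) (sy : sp.sgn y = true)
    {z : Option Λ} {χ : Vx Λ → Bool} (hB : sp.Br S {x, y} z χ) :
    GSP.Two.Ctx (sp.k true) (sp.k false) sp.sgn S x y
      (fun a => χ (sp.outV false a)) (fun a => χ (sp.inV false a))
      (fun a => χ (sp.outV true a)) (fun a => χ (sp.inV true a))
      (fun e => ∃ w, z = some w ∧ e = .M w) := by
  have hxy : x ≠ y := by
    rintro rfl
    exact lt_irrefl _ hP.pxy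
  have hpxy := hP.pxy
  have hqyx := hP.qyx
  refine ⟨sp.inj true, sp.inj false, hP.hx, hP.hy, hP.pxy, hP.qyx, ?_, sx, sy, ?_, ?_, ?_, ?_, ?_⟩
  · intro w hw h1 h2 h3 h4
    exact hP.emp w hw h1 h2 ⟨h3, h4⟩
  · intro w hw h1
    rw [sgn_true] at h1
    simp [outV, inV, oo, h1]
  · intro w hw h1
    rw [sgn_false] at h1
    have h2 : sp.o true w = !sp.o false w := by
      revert h1
      cases sp.o false w <;> cases sp.o true w <;> simp
    simp [outV, inV, oo, h2]
  · intro a b hc hr hne
    exfalso
    apply hne
    refine hB.arc false a b (cons_of hc) ?_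
    cases a with
    | none => exact sp.pa_none' _ _
    | some a =>
      rw [pa_pair sp hxy]
      rcases hr with ⟨b', hb', h1⟩ | ⟨a', ha', h1⟩
      · have := hc.2.2.1 a rfl b' hb'
        omega
      · have := Option.mem_some_iff.mp ha'
        subst this
        omega
  · intro a b hc hr hne
    exfalso
    apply hne
    refine hB.arc true a b (cons_of hc) ?_
    cases a with
    | none => exact sp.pa_none' _ _
    | some a =>
      rw [pa_pair sp hxy]
      rcases hr with ⟨b', hb', h1⟩ | ⟨a', ha', h1⟩
      · have := hc.2.2.1 a rfl b' hb'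
        omega
      · have := Option.mem_some_iff.mp ha'
        subst this
        omega
  · intro w hw hne
    refine ⟨w, ?_, rfl⟩
    by_contra h1
    have h2 := hB.m (some w) (by simpa using hw) (fun e => h1 e.symm)
    apply hne
    simp only [outV, inV, oo]
    cases sp.o false w
    · exact h2.symm
    · exact h2

/-- Type II, in the form of the core lemmas. -/
lemma ctx2 (hP : Pr S (sp.k true) (-(sp.k false)) x y) (sx : sp.sgn x = false)
    (sy : sp.sgn y = false) {z : Option Λ} {χ : Vx Λ → Bool} (hB : sp.Br S {x, y} z χ) :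
    GSP.Two.Ctx (sp.k true) (-(sp.k false)) (fun w => !sp.sgn w) S x y
      (fun a => χ (sp.inV false a)) (fun a => χ (sp.outV false a))
      (fun a => χ (sp.outV true a)) (fun a => χ (sp.inV true a))
      (fun e => ∃ w, z = some w ∧ e = .M w) := by
  have hxy : x ≠ y := by
    rintro rfl
    exact lt_irrefl _ hP.pxy
  have hpxy := hP.pxy
  have hqyx := hP.qyx
  simp only [Pi.neg_apply] at hqyx
  refine ⟨sp.inj true, GSP.inj_neg (sp.inj false), hP.hx, hP.hy, hP.pxy, hP.qyx, ?_, by simp [sx],
    by simp [sy], ?_, ?_, ?_, ?_, ?_⟩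
  · intro w hw h1 h2 h3 h4
    exact hP.emp w hw h1 h2 ⟨h3, h4⟩
  · intro w hw h1
    simp only [Bool.not_eq_true'] at h1
    rw [sgn_false] at h1
    have h2 : sp.o true w = !sp.o false w := by
      revert h1
      cases sp.o false w <;> cases sp.o true w <;> simp
    simp [outV, inV, oo, h2]
  · intro w hw h1
    simp only [Bool.not_eq_false'] at h1
    rw [sgn_true] at h1
    simp [outV, inV, oo, h1]
  · intro a b hc hr hne
    exfalso
    apply hne
    symm
    have hc' := cons_neg hc
    refine hB.arc false b a (cons_of hc') ?_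
    cases b with
    | none => exact sp.pa_none' _ _
    | some b =>
      rw [pa_pair sp hxy]
      simp only [Pi.neg_apply] at hr
      rcases hr with ⟨b', hb', h1⟩ | ⟨a', ha', h1⟩
      · have := Option.mem_some_iff.mp hb'
        subst this
        omega
      · have := hc'.2.2.1 b rfl a' ha'
        omega
  · intro a b hc hr hne
    exfalso
    apply hne
    refine hB.arc true a b (cons_of hc) ?_
    cases a with
    | none => exact sp.pa_none' _ _
    | some a =>
      rw [pa_pair sp hxy]
      rcases hr with ⟨b', hb', h1⟩ | ⟨a', ha', h1⟩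
      · have := hc.2.2.1 a rfl b' hb'
        omega
      · have := Option.mem_some_iff.mp ha'
        subst this
        omega
  · intro w hw hne
    refine ⟨w, ?_, rfl⟩
    by_contra h1
    have h2 := hB.m (some w) (by simpa using hw) (fun e => h1 e.symm)
    apply hne
    simp only [outV, inV, oo]
    cases sp.o false w
    · exact h2
    · exact h2.symm

/-- **Type I.** -/
theorem crit1 (hP : Pr S (sp.k true) (sp.k false) x y) (sx : sp.sgn x = true)
    (sy : sp.sgn y = true)
    (i1 : ∀ u ∈ S, sp.sgn u = false → ¬ Iso S (sp.k true) (sp.k false) x y u)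
    (i2 : ∀ u ∈ S, sp.sgn u = false → ¬ Iso S (-(sp.k true)) (-(sp.k false)) y x u) :
    sp.Gd S {x, y} := by
  have hxy : x ≠ y := by
    rintro rfl
    exact lt_irrefl _ hP.pxy
  have hpxy := hP.pxy
  have hqyx := hP.qyx
  refine ⟨⟨?_, ⟨x, by simp⟩, ?_, ?_, ?_⟩, ?_⟩
  · intro w hw
    rw [Finset.mem_insert, Finset.mem_singleton] at hw
    rcases hw with rfl | rfl
    · exact hP.hx
    · exact hP.hy
  · rw [Finset.card_pair hxy]
    decide
  · intro w hw hwn hcon
    rw [pb_pair sp hxy, pb_pair sp hxy] at hcon
    have h1 := hP.emp w hw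
    have h2 : sp.k false w ≠ sp.k false x := fun e => hwn (by simp [sp.inj false e])
    have h3 : sp.k false w ≠ sp.k false y := fun e => hwn (by simp [sp.inj false e])
    have h4 : sp.k true w ≠ sp.k true x := fun e => hwn (by simp [sp.inj true e])
    have h5 : sp.k true w ≠ sp.k true y := fun e => hwn (by simp [sp.inj true e])
    omega
  · intro w hw
    rw [Finset.mem_insert, Finset.mem_singleton] at hw
    rw [pb_pair sp hxy, pb_pair sp hxy]
    rcases hw with rfl | rfl
    · rw [sgn_true] at sx
      simp only [sx, true_iff]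
      omega
    · rw [sgn_true] at sy
      simp only [sy, true_iff]
      omega
  · intro z hz χ hB
    have h := ctx1 hP sx sy hB
    cases z with
    | none =>
      have h1 := h.ends (by rintro e ⟨w, hw, -⟩; cases hw)
      exact hB.cut h1
    | some z =>
      have hz' : z ∈ S := by simpa using hz
      have hr : χ (none, false) = χ (none, true) := hB.m none (by simp) (by simp)
      have h1 := h.good (by
        rintro e e' ⟨w, hw, rfl⟩ ⟨w', hw', rfl⟩
        rw [hw] at hw'
        simp only [Option.some.injEq] at hw'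
        rw [hw']) (β := χ (none, false)) rfl hr.symm rfl hr.symm i1 (by
        intro u hu su hI
        refine i2 u hu su ?_
        obtain ⟨g1, g2, g3, g4⟩ := hI
        simp only [Iso, Pi.neg_apply]
        refine ⟨by omega, by omega, ?_, ?_⟩
        · intro w hw k1 k2
          have := g4 w hw (by omega) (by omega)
          omega
        · intro w hw k1 k2
          have := g3 w hw (by omega) (by omega)
          omega) z hz'
      apply hB.cut
      obtain ⟨h2, h3⟩ := h1
      simp only [outV, inV, oo] at h2 h3
      revert h2 h3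
      cases sp.o false z
      · intro h2 h3
        exact h3.trans h2.symm
      · intro h2 h3
        exact h2.trans h3.symm

/-- **Type II.** -/
theorem crit2 (hP : Pr S (sp.k true) (-(sp.k false)) x y) (sx : sp.sgn x = false)
    (sy : sp.sgn y = false)
    (i1 : ∀ u ∈ S, sp.sgn u = true → ¬ Iso S (sp.k true) (-(sp.k false)) x y u)
    (i2 : ∀ u ∈ S, sp.sgn u = true → ¬ Iso S (-(sp.k true)) (sp.k false) y x u)
    (hNE : NE S (sp.k true) (sp.k false) x y) : sp.Gd S {x, y} := by
  have hxy : x ≠ y := by
    rintro rfl
    exact lt_irrefl _ hP.pxy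
  have hpxy := hP.pxy
  have hqyx := hP.qyx
  simp only [Pi.neg_apply] at hqyx
  refine ⟨⟨?_, ⟨x, by simp⟩, ?_, ?_, ?_⟩, ?_⟩
  · intro w hw
    rw [Finset.mem_insert, Finset.mem_singleton] at hw
    rcases hw with rfl | rfl
    · exact hP.hx
    · exact hP.hy
  · rw [Finset.card_pair hxy]
    decide
  · intro w hw hwn hcon
    rw [pb_pair sp hxy, pb_pair sp hxy] at hcon
    have h1 := hP.emp w hw
    simp only [Pi.neg_apply] at h1
    have h2 : sp.k false w ≠ sp.k false x := fun e => hwn (by simp [sp.inj false e])
    have h3 : sp.k false w ≠ sp.k false y := fun e => hwn (by simp [sp.inj false e])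
    have h4 : sp.k true w ≠ sp.k true x := fun e => hwn (by simp [sp.inj true e])
    have h5 : sp.k true w ≠ sp.k true y := fun e => hwn (by simp [sp.inj true e])
    omega
  · intro w hw
    rw [Finset.mem_insert, Finset.mem_singleton] at hw
    rw [pb_pair sp hxy, pb_pair sp hxy]
    rcases hw with rfl | rfl
    · rw [sgn_false] at sx
      simp only [sx, false_iff]
      omega
    · rw [sgn_false] at sy
      simp only [sy, false_iff]
      omega
  · intro z hz χ hB
    have h := ctx2 hP sx sy hB
    cases z with
    | none =>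
      obtain ⟨w, hw, h1⟩ := hNE
      have h2 := h.ne_ends (by rintro e ⟨w, hw, -⟩; cases hw) hw (by
        simp only [Pi.neg_apply]
        omega)
      rcases h2 with h2 | h2
      · exact hB.cut h2.symm
      · exact hB.cut h2
    | some z =>
      have hz' : z ∈ S := by simpa using hz
      have hr : χ (none, false) = χ (none, true) := hB.m none (by simp) (by simp)
      have h1 := h.good (by
        rintro e e' ⟨w, hw, rfl⟩ ⟨w', hw', rfl⟩
        rw [hw] at hw'
        simp only [Option.some.injEq] at hw'
        rw [hw']) (β := χ (none, false)) hr.symm hr.symm rfl rfl (by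
        intro u hu su
        exact i1 u hu (by simpa using su)) (by
        intro u hu su hI
        refine i2 u hu (by simpa using su) ?_
        obtain ⟨g1, g2, g3, g4⟩ := hI
        simp only [Pi.neg_apply] at g1 g2 g3 g4
        simp only [Iso, Pi.neg_apply]
        refine ⟨by omega, by omega, ?_, ?_⟩
        · intro w hw k1 k2
          have := g4 w hw (by omega) (by omega)
          omega
        · intro w hw k1 k2
          have := g3 w hw (by omega) (by omega)
          omega) z hz'
      apply hB.cut
      obtain ⟨h2, h3⟩ := h1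
      simp only [outV, inV, oo] at h2 h3
      revert h2 h3
      cases sp.o false z
      · intro h2 h3
        exact h2.trans h3.symm
      · intro h2 h3
        exact h3.trans h2.symm

/-- Type I, from the structure `GI`. -/
theorem gd_of_GI (h : GSP.GI S (sp.k true) (sp.k false) sp.sgn x y) : sp.Gd S {x, y} :=
  crit1 h.pr h.sx h.sy h.i1 h.i2

/-- Type II, from the structure `GI`. -/
theorem gd_of_GI' (h : GSP.GI S (sp.k true) (-(sp.k false)) (fun z => !sp.sgn z) x y)
    (hNE : NE S (sp.k true) (sp.k false) x y) : sp.Gd S {x, y} :=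
  crit2 h.pr (by simpa using h.sx) (by simpa using h.sy)
    (fun u hu su => h.i1 u hu (by simp [su])) (fun u hu su => by
      have := h.i2 u hu (by simp [su])
      simpa using this) hNE

/-- A pair satisfying the criterion gives a good circuit. -/
theorem gd_of_hasPair (h : GSP.HasPair S (sp.k true) (sp.k false) sp.sgn) : ∃ Z, sp.Gd S Z := by
  rcases h with ⟨x, y, h⟩ | ⟨x, y, h, h1⟩
  · exact ⟨_, gd_of_GI h⟩
  · exact ⟨_, gd_of_GI' h h1⟩

end SP

end Pool.GS
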