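import Pool.Agent.GOD.BaseApi

/-!
MP_7b7176_co, ROAD S: signed permutations (helper64_S2.md).

MODEL.  Letters are elements of a finite type `Λ`; a permutation is a finite set `S` of letters
together with two injective keys `k false` (value, path `P_0`) and `k true` (position, path `P_1`);
`pi - u` is `S.erase u`, patterns are subsets, nothing is renumbered.  Vertices are
`(a, b) : Option Λ × Bool`: `(some x, false) = x_1`, `(some x, true) = x_2`, `(none, false) = r_1`,
`(none, true) = r_2`.  `o i x = true` means that the path `P_i` passes `x` from `x_1` to `x_2`; the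
sign of `x` is `+` iff `o false x = o true x`.  Edges: `inl a` is the `M`-edge of `a`,
`inr (i, a, b)` is the (possible) arc of `P_i` from the out-vertex of `a` to the in-vertex of `b`
(`none` stands for the root: `P_i` leaves `r_1` and ends in `r_2`).
An alternating circuit (or union of circuits) `D` avoiding `r` is given by its set `Z` of SWITCH
letters (the letters at which it changes between `P_0` and `P_1`): the arc of `P_i` after `a` is in
`D` iff the number of letters of `Z` up to `a` in `P_i` is odd.  Insertion and deletion of other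
letters does not change `Z`.
-/

set_option autoImplicit false
set_option linter.unusedSectionVars false

namespace Pool.GS

open Pool.GOD

section graph

variable {V E : Type} [Fintype V] [DecidableEq V] [Fintype E] [DecidableEq E] (G : MGraph V E)

/-- The graph with vertex set `W` and edge set `H` is connected and bridgeless. -/
def TwoEC (H : Finset E) (W : Finset V) : Prop :=
  ∀ Y : Finset V, (∃ v ∈ W, v ∈ Y) → (∃ v ∈ W, v ∉ Y) → 2 ≤ (H ∩ G.cut Y).card

/-- Level 2: connected, bridgeless, and a vertex set `Y` without the roots whose cut has exactly two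
edges, one of them at a root, has only vertices of degree 2. -/
def Lev2 (H : Finset E) (W : Finset V) (r₁ r₂ : V) : Prop :=
  TwoEC G H W ∧ ∀ Y : Finset V, Y ⊆ W → r₁ ∉ Y → r₂ ∉ Y → (H ∩ G.cut Y).card = 2 →
    (∃ e ∈ H ∩ G.cut Y, r₁ ∈ G.ends e ∨ r₂ ∈ G.ends e) → ∀ v ∈ Y, G.deg H v = 2

end graph

/-- A signed permutation of letters of `Λ`. -/
structure SP (Λ : Type) where
  /-- the keys: `k false` is the value, `k true` the position -/
  k : Bool → Λ → ℤ
  /-- the orientations -/
  o : Bool → Λ → Bool
  /-- the keys are injective -/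
  inj : ∀ i, Function.Injective (k i)

/-- The vertices. -/
abbrev Vx (Λ : Type) := Option Λ × Bool

/-- The edges. -/
abbrev Ed (Λ : Type) := Option Λ ⊕ (Bool × Option Λ × Option Λ)

/-- The two roots. -/
def r₁ {Λ : Type} : Vx Λ := (none, false)

/-- The two roots. -/
def r₂ {Λ : Type} : Vx Λ := (none, true)

namespace SP

variable {Λ : Type} [Fintype Λ] [DecidableEq Λ] (sp : SP Λ)

/-- The orientation, extended to the root. -/
def oo (i : Bool) : Option Λ → Bool
  | none => false
  | some x => sp.o i x

/-- The vertex at which `P_i` enters `a`. -/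
def inV (i : Bool) (a : Option Λ) : Vx Λ := (a, !sp.oo i a)

/-- The vertex at which `P_i` leaves `a`. -/
def outV (i : Bool) (a : Option Λ) : Vx Λ := (a, sp.oo i a)

/-- The ambient graph with all possible arcs. -/
def G : MGraph (Vx Λ) (Ed Λ) where
  ends := fun e => match e with
    | Sum.inl a => s((a, false), (a, true))
    | Sum.inr (i, a, b) => s(sp.outV i a, sp.inV i b)
  loopless := by
    rintro (a | ⟨i, a, b⟩)
    · simp
    · simp only [Sym2.mk_isDiag_iff, outV, inV, Prod.mk.injEq, not_and]
      rintro rfl
      simp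

/-- `a` is before `b` in the order given by `k` (always true if `a` or `b` is the root). -/
def lt (k : Λ → ℤ) (a b : Option Λ) : Prop := ∀ x y, a = some x → b = some y → k x < k y

instance (k : Λ → ℤ) (a b : Option Λ) : Decidable (lt k a b) := by unfold lt; infer_instance

/-- `a` and `b` are consecutive in `P_i` (for the letter set `S`). -/
def Cons (i : Bool) (S : Finset Λ) (a b : Option Λ) : Prop :=
  a ∈ Finset.insertNone S ∧ b ∈ Finset.insertNone S ∧ lt (sp.k i) a b ∧
    ∀ z ∈ S, ¬(lt (sp.k i) a (some z) ∧ lt (sp.k i) (some z) b)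

instance (i : Bool) (S : Finset Λ) (a b : Option Λ) : Decidable (sp.Cons i S a b) := by
  unfold Cons; infer_instance

/-- The arc of `P_i` after `a` is in the set `D` given by `Z`. -/
def pa (i : Bool) (Z : Finset Λ) (a : Option Λ) : Prop :=
  Odd (Z.filter (fun z => ∃ x, a = some x ∧ sp.k i z ≤ sp.k i x)).card

/-- The arc of `P_i` before `x` is in the set `D` given by `Z`. -/
def pb (i : Bool) (Z : Finset Λ) (x : Λ) : Prop := Odd (Z.filter (fun z => sp.k i z < sp.k i x)).card

instance (i : Bool) (Z : Finset Λ) (a : Option Λ) : Decidable (sp.pa i Z a) := by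
  unfold pa; infer_instance

instance (i : Bool) (Z : Finset Λ) (x : Λ) : Decidable (sp.pb i Z x) := by
  unfold pb; infer_instance

/-- `e` is an edge of `H_D`. -/
def memH (S Z : Finset Λ) : Ed Λ → Prop
  | Sum.inl a => a ∈ Finset.insertNone S
  | Sum.inr t => sp.Cons t.1 S t.2.1 t.2.2 ∧ ¬sp.pa t.1 Z t.2.1

instance (S Z : Finset Λ) : DecidablePred (sp.memH S Z)
  | Sum.inl a => inferInstanceAs (Decidable (a ∈ Finset.insertNone S))
  | Sum.inr t => inferInstanceAs (Decidable (sp.Cons t.1 S t.2.1 t.2.2 ∧ ¬sp.pa t.1 Z t.2.1))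

/-- The edges of `H_D` (for `Z = ∅`: all edges of the graph of the signed permutation `S`). -/
def H (S Z : Finset Λ) : Finset (Ed Λ) := Finset.univ.filter (sp.memH S Z)

@[simp] lemma mem_H_inl {S Z : Finset Λ} {a : Option Λ} :
    Sum.inl a ∈ sp.H S Z ↔ a ∈ Finset.insertNone S := by simp [H, memH]

@[simp] lemma mem_H_inr {S Z : Finset Λ} {i : Bool} {a b : Option Λ} :
    Sum.inr (i, a, b) ∈ sp.H S Z ↔ sp.Cons i S a b ∧ ¬sp.pa i Z a := by simp [H, memH]

/-- The vertices of the graph of `S`. -/
def W (S : Finset Λ) : Finset (Vx Λ) := Finset.univ.filter (fun v => v.1 ∈ Finset.insertNone S)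

/-- `Z` is the switch set of an alternating subgraph `D` avoiding the root: every letter outside
`Z` is passed at most once, at a letter of `Z` the circuit turns according to the sign. -/
structure Val (S Z : Finset Λ) : Prop where
  sub : Z ⊆ S
  ne : Z.Nonempty
  even : Even Z.card
  off : ∀ x ∈ S, x ∉ Z → ¬(sp.pb false Z x ∧ sp.pb true Z x)
  on : ∀ x ∈ Z, (sp.o false x = sp.o true x) ↔ ¬(sp.pb false Z x ↔ sp.pb true Z x)

/-- `D` is good: `H_D` is connected and bridgeless. -/
def Good (S Z : Finset Λ) : Prop := sp.Val S Z ∧ TwoEC sp.G (sp.H S Z) (W S)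

/-- `D` is of level 2. -/
def L2 (S Z : Finset Λ) : Prop := sp.Val S Z ∧ Lev2 sp.G (sp.H S Z) (W S) r₁ r₂

/-- `x` and `y` are in the relation 'value of `x` below the value of `y`, position of `x` before the
position of `y`'. -/
def LLr (x y : Λ) : Prop := sp.k false x < sp.k false y ∧ sp.k true x < sp.k true y

/-- `x` is above `y` (value) and before `y` (position). -/
def ULr (x y : Λ) : Prop := sp.k false y < sp.k false x ∧ sp.k true x < sp.k true y

/-- `S` contains 2413 or 3142. -/
def NonSep (S : Finset Λ) : Prop := ∃ a ∈ S, ∃ b ∈ S, ∃ c ∈ S, ∃ d ∈ S,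
  sp.k true a < sp.k true b ∧ sp.k true b < sp.k true c ∧ sp.k true c < sp.k true d ∧
  ((sp.k false c < sp.k false a ∧ sp.k false a < sp.k false d ∧ sp.k false d < sp.k false b) ∨
   (sp.k false b < sp.k false d ∧ sp.k false d < sp.k false a ∧ sp.k false a < sp.k false c))

/-- The corner regions of a letter: left-below, left-above, right-below, right-above. -/
def LL (S : Finset Λ) (q : Λ) : Finset Λ :=
  S.filter (fun x => sp.k false x < sp.k false q ∧ sp.k true x < sp.k true q)

/-- left-above -/
def UL (S : Finset Λ) (q : Λ) : Finset Λ :=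
  S.filter (fun x => sp.k false q < sp.k false x ∧ sp.k true x < sp.k true q)

/-- right-below -/
def LR (S : Finset Λ) (q : Λ) : Finset Λ :=
  S.filter (fun x => sp.k false x < sp.k false q ∧ sp.k true q < sp.k true x)

/-- right-above -/
def UR (S : Finset Λ) (q : Λ) : Finset Λ :=
  S.filter (fun x => sp.k false q < sp.k false x ∧ sp.k true q < sp.k true x)

/-- No letter of `S` is in a corner of an occurrence of 2413 or 3142. -/
def CF (S : Finset Λ) : Prop := ∀ q ∈ S, ¬sp.NonSep (sp.LL S q) ∧ ¬sp.NonSep (sp.UL S q) ∧
  ¬sp.NonSep (sp.LR S q) ∧ ¬sp.NonSep (sp.UR S q)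

/-- `B` is a block of `S`: an interval in positions and in values. -/
def Block (S B : Finset Λ) : Prop := B ⊆ S ∧ ∀ i, ∀ x ∈ B, ∀ y ∈ B, ∀ z ∈ S,
  sp.k i x < sp.k i z → sp.k i z < sp.k i y → z ∈ B

/-- `S` is simple: the only blocks are the trivial ones. -/
def Simple (S : Finset Λ) : Prop := ∀ B, sp.Block S B → B.card ≤ 1 ∨ B = S

/-- The arc of `P_i` at `r_1` (`e = false`) or at `r_2` (`e = true`). -/
def rArc (i e : Bool) (f : Ed Λ) : Prop :=
  (e = false ∧ ∃ b, f = Sum.inr (i, none, b)) ∨ (e = true ∧ ∃ a, f = Sum.inr (i, a, none))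

/-- The letter `u` is extreme in `P_i` with respect to `S`: the first one (`e = false`) or the last
one (`e = true`). -/
def Ext (i e : Bool) (S : Finset Λ) (u : Λ) : Prop :=
  ∀ x ∈ S, (e = false → sp.k i u < sp.k i x) ∧ (e = true → sp.k i x < sp.k i u)

/-- The side `(i, e)` is secure: no 2-cut of `H_D` consists of the arc of `P_i` at the root and an arc
of the other path. -/
def Secure (S Z : Finset Λ) (i e : Bool) : Prop :=
  ∀ (Y : Finset (Vx Λ)) (ρ : Ed Λ) (a b : Option Λ), rArc i e ρ →
    sp.H S Z ∩ sp.G.cut Y = {ρ, Sum.inr (!i, a, b)} → False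

/-- Exchange of the two paths. -/
def swap : SP Λ where
  k := fun i => sp.k !i
  o := fun i => sp.o !i
  inj := fun i => sp.inj !i

/-- Reversal of both paths (`r_1` and `r_2` are exchanged). -/
def rev : SP Λ where
  k := fun i x => -sp.k i x
  o := fun i x => !sp.o i x
  inj := fun i x y h => sp.inj i (by simpa using h)

/-- Reversal of the path `P_1` only. -/
def revOne : SP Λ where
  k := fun i x => if i then -sp.k i x else sp.k i x
  o := fun i x => if i then !sp.o i x else sp.o i x
  inj := fun i x y h => sp.inj i (by cases i <;> simpa using h)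

/-- Changed sign at one letter: the orientation of `x` in `P_1` becomes `b`. -/
def setO (x : Λ) (b : Bool) : SP Λ where
  k := sp.k
  o := fun i y => if i = true ∧ y = x then b else sp.o i y
  inj := sp.inj

end SP

end Pool.GS
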