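import Pool.Agent.GSP.Gd

/-!
MP_7b7176_co, ROAD S: the predicates of the reduction step (ST) and its statement.
-/

set_option autoImplicit false

namespace Pool.GS

namespace SP

variable {Λ : Type} [Fintype Λ] [DecidableEq Λ] (sp : SP Λ)

/-- `p` and `l` are neighbours in `P_0` and in `P_1`, and `p` is positive if they are ascending,
negative if they are descending (a double edge, or a triangle with `l` the leaf). -/
def Tw (S : Finset Λ) (p l : Λ) : Prop :=
  p ∈ S ∧ l ∈ S ∧ p ≠ l ∧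
    (∀ i, ∀ z ∈ S, ¬(sp.k i p < sp.k i z ∧ sp.k i z < sp.k i l) ∧
      ¬(sp.k i l < sp.k i z ∧ sp.k i z < sp.k i p)) ∧
    ((sp.o false p = sp.o true p) ↔ (sp.k false p < sp.k false l ↔ sp.k true p < sp.k true l))

/-- `a` is the first letter of both paths. -/
def Fst (S : Finset Λ) (a : Λ) : Prop := a ∈ S ∧ ∀ x ∈ S, x ≠ a → ∀ i, sp.k i a < sp.k i x

/-- `a` is the last letter of both paths. -/
def Lst (S : Finset Λ) (a : Λ) : Prop := a ∈ S ∧ ∀ x ∈ S, x ≠ a → ∀ i, sp.k i x < sp.k i a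

end SP

/-- (S') A non-separable signed permutation has a good circuit. -/
def Stmt_S' : Prop :=
  ∀ (Λ : Type) [Fintype Λ] [DecidableEq Λ] (sp : SP Λ) (S : Finset Λ), sp.NonSep S →
    ∃ Z, sp.Gd S Z

/-- (ST) A signed permutation without a good circuit has a twin of type `Tw`, or a letter which is
the first one of both paths, or a letter which is the last one of both paths. -/
def Stmt_ST : Prop :=
  ∀ (Λ : Type) [Fintype Λ] [DecidableEq Λ] (sp : SP Λ) (S : Finset Λ), S.Nonempty →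
    (¬∃ Z, sp.Gd S Z) → (∃ p l, sp.Tw S p l) ∨ (∃ a, sp.Fst S a) ∨ ∃ a, sp.Lst S a

/-- (LIFT) Good circuits lift over the removed letter. -/
def Stmt_Lift : Prop :=
  ∀ (Λ : Type) [Fintype Λ] [DecidableEq Λ] (sp : SP Λ) (S Z : Finset Λ),
    (∀ p l, sp.Tw S p l → sp.Gd (S.erase l) Z → sp.Gd S Z) ∧
    (∀ a, sp.Fst S a → sp.Gd (S.erase a) Z → sp.Gd S Z) ∧
    (∀ a, sp.Lst S a → sp.Gd (S.erase a) Z → sp.Gd S Z)

end Pool.GS
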