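import Pool.Agent.GSP.Gd

/-!
MP_7b7176_co, ROAD S, graph side: the conditions (a) - (d) on a set `Z` of 2 or 4 letters imply that
the alternating set with switches `Z` is good.  Potential argument, no case analysis on tracks.
-/

set_option autoImplicit false
set_option linter.unusedSectionVars false

namespace Pool.GS

open Pool.GOD

namespace SP

variable {Λ : Type} [Fintype Λ] [DecidableEq Λ] (sp : SP Λ)

/-- `x` and `y` are inverted; on the diagonal: the sign of `x` is positive. -/
def B (x y : Λ) : Prop :=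
  if x = y then sp.o false x = sp.o true x
  else ¬(sp.k false x < sp.k false y ↔ sp.k true x < sp.k true y)

instance (x y : Λ) : Decidable (sp.B x y) := by unfold B; infer_instance

/-- `w` has an even number of neighbours in `Z`. -/
def ev (Z : Finset Λ) (w : Λ) : Prop := Even (Z.filter (fun k => sp.B w k)).card

/-- Boolean to `ZMod 2`. -/
def cc (b : Bool) : ZMod 2 := if b then 1 else 0

lemma cc_add_self (b : Bool) : cc b + cc b = 0 := by cases b <;> decide

lemma cc_eq {a b : Bool} (h : cc a = cc b) : a = b := by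
  revert h; cases a <;> cases b <;> decide

lemma cc_ne {a b : Bool} (h : a ≠ b) : cc a + 1 = cc b := by
  revert h; cases a <;> cases b <;> decide

/-- The colour of the end of `x` on the unused side (path `P_i`). -/
def hi (i : Bool) (Z : Finset Λ) (χ : Vx Λ → Bool) (x : Λ) : Bool :=
  if sp.pb i Z x then χ (sp.outV i (some x)) else χ (sp.inV i (some x))

/-- `z` is a letter outside `Z` which is passed outside `D` by `P_i` before the gap `t`. -/
def jmp (i : Bool) (Z : Finset Λ) (z : Option Λ) (t : ℤ) : Prop :=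
  ∃ u, z = some u ∧ u ∉ Z ∧ ¬sp.pb i Z u ∧ sp.k i u ≤ t

open Classical in
/-- Indicator of a proposition. -/
noncomputable def ind (P : Prop) : ZMod 2 := if P then 1 else 0

lemma ind_pos {P : Prop} (h : P) : ind P = 1 := if_pos h

lemma ind_neg {P : Prop} (h : ¬P) : ind P = 0 := if_neg h

lemma ind_congr {P Q : Prop} (h : P ↔ Q) : ind P = ind Q := by rw [propext h]

/-- The potential of the gap `t` of `P_i`. -/
noncomputable def pot (i : Bool) (Z : Finset Λ) (z : Option Λ) (χ : Vx Λ → Bool) (t : ℤ) : ZMod 2 :=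
  cc (χ (none, false)) + ∑ k ∈ Z.filter (fun k => sp.k i k ≤ t), cc (sp.hi i Z χ k) +
    ind (sp.jmp i Z z t)

lemma pa_iff {i : Bool} {S Z : Finset Λ} (hZ : Z ⊆ S) {a : Option Λ} {t : ℤ}
    (h1 : ∀ x, a = some x → sp.k i x ≤ t)
    (h2 : ∀ w ∈ S, sp.k i w ≤ t → ∃ x, a = some x ∧ sp.k i w ≤ sp.k i x) :
    sp.pa i Z a ↔ Odd (Z.filter (fun k => sp.k i k ≤ t)).card := by
  unfold pa
  have : (Z.filter (fun z => ∃ x, a = some x ∧ sp.k i z ≤ sp.k i x)) =
      Z.filter (fun k => sp.k i k ≤ t) := by
    apply Finset.filter_congr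
    intro z hz
    constructor
    · rintro ⟨x, hx, hzx⟩
      exact hzx.trans (h1 x hx)
    · intro h
      exact h2 z (hZ hz) h
  rw [this]

lemma pb_iff {i : Bool} {Z : Finset Λ} {x : Λ} :
    sp.pb i Z x ↔ Odd (Z.filter (fun k => sp.k i k ≤ sp.k i x - 1)).card := by
  unfold pb
  have : (Z.filter (fun z => sp.k i z < sp.k i x)) =
      Z.filter (fun k => sp.k i k ≤ sp.k i x - 1) := by
    apply Finset.filter_congr
    intro z hz
    omega
  rw [this]

/-- The key lemma: the potential is the colour of the gap (unused gaps) or 0 (used gaps). -/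
lemma pot_key {S Z : Finset Λ} {z : Option Λ} {χ : Vx Λ → Bool} (hZ : Z ⊆ S)
    (hz : z ∈ Finset.insertNone S) (h : sp.Br S Z z χ) (i : Bool) :
    ∀ (n : ℕ) (t : ℤ), (S.filter (fun w => sp.k i w ≤ t)).card = n →
      ∃ a ∈ Finset.insertNone S, (∀ x, a = some x → sp.k i x ≤ t) ∧
        (∀ w ∈ S, sp.k i w ≤ t → ∃ x, a = some x ∧ sp.k i w ≤ sp.k i x) ∧
        (Odd (Z.filter (fun k => sp.k i k ≤ t)).card → sp.pot i Z z χ t = 0) ∧
        (¬Odd (Z.filter (fun k => sp.k i k ≤ t)).card →
          sp.pot i Z z χ t = cc (χ (sp.outV i a))) := by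
  intro n
  induction n with
  | zero =>
    intro t hn
    rw [Finset.card_eq_zero] at hn
    have h0 : ∀ w ∈ S, ¬(sp.k i w ≤ t) := by
      intro w hw hwt
      have : w ∈ S.filter (fun w => sp.k i w ≤ t) := Finset.mem_filter.mpr ⟨hw, hwt⟩
      rw [hn] at this
      exact absurd this (Finset.notMem_empty w)
    have h1 : Z.filter (fun k => sp.k i k ≤ t) = ∅ := by
      apply Finset.filter_eq_empty_iff.mpr
      intro k hk
      exact h0 k (hZ hk)
    have h2 : ¬sp.jmp i Z z t := by
      rintro ⟨u, hu, -, -, h3⟩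
      exact h0 u (mem_ins.mp (hu ▸ hz)) h3
    refine ⟨none, none_ins, by simp, ?_, ?_, ?_⟩
    · intro w hw hwt
      exact absurd hwt (h0 w hw)
    · intro h3
      rw [h1] at h3
      simp at h3
    · intro _
      unfold pot
      rw [h1, ind_neg h2]
      simp [outV, oo]
  | succ n ih =>
    intro t hn
    have hne : (S.filter (fun w => sp.k i w ≤ t)).Nonempty := by
      rw [← Finset.card_pos]; omega
    obtain ⟨x, hx, hmax⟩ := Finset.exists_max_image _ (sp.k i) hne
    rw [Finset.mem_filter] at hx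
    obtain ⟨hxS, hxt⟩ := hx
    have hmax' : ∀ w ∈ S, sp.k i w ≤ t → sp.k i w ≤ sp.k i x := fun w hw hwt =>
      hmax w (Finset.mem_filter.mpr ⟨hw, hwt⟩)
    have hlt : ∀ w, w ≠ x → (sp.k i w ≤ sp.k i x ↔ sp.k i w ≤ sp.k i x - 1) := by
      intro w hwx
      have : sp.k i w ≠ sp.k i x := fun he => hwx (sp.inj i he)
      omega
    have hS : S.filter (fun w => sp.k i w ≤ sp.k i x - 1) =
        (S.filter (fun w => sp.k i w ≤ t)).erase x := by
      ext w
      rw [Finset.mem_erase, Finset.mem_filter, Finset.mem_filter]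
      constructor
      · rintro ⟨h1, h2⟩
        refine ⟨?_, h1, by omega⟩
        rintro rfl
        omega
      · rintro ⟨h1, h2, h3⟩
        exact ⟨h2, (hlt w h1).mp (hmax' w h2 h3)⟩
    obtain ⟨a, ha, h1, h2, h3, h4⟩ := ih (sp.k i x - 1) (by
      rw [hS, Finset.card_erase_of_mem (Finset.mem_filter.mpr ⟨hxS, hxt⟩), hn]; rfl)
    have hcons : sp.Cons i S a (some x) := by
      refine ⟨ha, mem_ins.mpr hxS, ?_, ?_⟩
      · intro y z' hy hz'
        obtain rfl : x = z' := by simpa using hz'
        have := h1 y hy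
        omega
      · rintro w hw ⟨h5, h6⟩
        rw [lt_some] at h6
        obtain ⟨y, hy, hwy⟩ := h2 w hw (by omega)
        have := h5 y w hy rfl
        omega
    have hpa := sp.pa_iff hZ h1 h2
    have hpb : sp.pb i Z x ↔ Odd (Z.filter (fun k => sp.k i k ≤ sp.k i x - 1)).card := sp.pb_iff
    have harc : ¬sp.pb i Z x → χ (sp.outV i a) = χ (sp.inV i (some x)) := by
      intro h5
      exact h.arc i a (some x) hcons (by rw [hpa, ← hpb]; exact h5)
    -- the finsets at `t`
    have hjmp : sp.jmp i Z z t ↔ sp.jmp i Z z (sp.k i x - 1) ∨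
        (z = some x ∧ x ∉ Z ∧ ¬sp.pb i Z x) := by
      constructor
      · rintro ⟨u, hu, huZ, hub, hut⟩
        by_cases hux : u = x
        · right
          rw [← hux]
          exact ⟨hu, huZ, hub⟩
        · left
          exact ⟨u, hu, huZ, hub, (hlt u hux).mp (hmax' u (mem_ins.mp (hu ▸ hz)) hut)⟩
      · rintro (⟨u, hu, huZ, hub, hut⟩ | ⟨hu, huZ, hub⟩)
        · exact ⟨u, hu, huZ, hub, by omega⟩
        · exact ⟨x, hu, huZ, hub, hxt⟩
    have hjx : ¬(sp.jmp i Z z (sp.k i x - 1) ∧ (z = some x ∧ x ∉ Z ∧ ¬sp.pb i Z x)) := by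
      rintro ⟨⟨u, hu, huZ, hub, hut⟩, hu', -, -⟩
      rw [hu] at hu'
      obtain rfl : u = x := by simpa using hu'
      omega
    refine ⟨some x, mem_ins.mpr hxS, ?_, ?_, ?_⟩
    · intro y hy
      obtain rfl : x = y := by simpa using hy
      exact hxt
    · intro w hw hwt
      exact ⟨x, rfl, hmax' w hw hwt⟩
    · by_cases hxZ : x ∈ Z
      · -- a switch
        have hf : Z.filter (fun k => sp.k i k ≤ t) =
            insert x (Z.filter (fun k => sp.k i k ≤ sp.k i x - 1)) := by
          ext w
          rw [Finset.mem_insert, Finset.mem_filter, Finset.mem_filter]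
          constructor
          · rintro ⟨h5, h6⟩
            by_cases hwx : w = x
            · exact Or.inl hwx
            · exact Or.inr ⟨h5, (hlt w hwx).mp (hmax' w (hZ h5) h6)⟩
          · rintro (rfl | ⟨h5, h6⟩)
            · exact ⟨hxZ, hxt⟩
            · exact ⟨h5, by omega⟩
        have hnot : x ∉ Z.filter (fun k => sp.k i k ≤ sp.k i x - 1) := by
          rw [Finset.mem_filter]
          rintro ⟨-, h5⟩
          omega
        have hj : ¬(z = some x ∧ x ∉ Z ∧ ¬sp.pb i Z x) := fun h5 => h5.2.1 hxZ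
        have hpot : sp.pot i Z z χ t = sp.pot i Z z χ (sp.k i x - 1) + cc (sp.hi i Z χ x) := by
          have h5 : (sp.jmp i Z z t) ↔ sp.jmp i Z z (sp.k i x - 1) :=
            hjmp.trans (or_iff_left hj)
          unfold pot
          rw [hf, Finset.sum_insert hnot, ind_congr h5]
          ring
        have hodd : Odd (Z.filter (fun k => sp.k i k ≤ t)).card ↔ ¬sp.pb i Z x := by
          rw [hf, Finset.card_insert_of_notMem hnot, hpb, Nat.odd_add_one]
        rw [hodd, hpot]
        constructor
        · intro h5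
          have h6 := h4 (by rw [← hpb]; exact h5)
          rw [h6, harc h5]
          unfold hi
          rw [if_neg h5]
          exact cc_add_self _
        · intro h5
          rw [not_not] at h5
          have h6 := h3 (hpb.mp h5)
          rw [h6, zero_add]
          unfold hi
          rw [if_pos h5]
      · -- no switch
        have hf : Z.filter (fun k => sp.k i k ≤ t) =
            Z.filter (fun k => sp.k i k ≤ sp.k i x - 1) := by
          ext w
          rw [Finset.mem_filter, Finset.mem_filter]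
          constructor
          · rintro ⟨h5, h6⟩
            refine ⟨h5, (hlt w ?_).mp (hmax' w (hZ h5) h6)⟩
            rintro rfl
            exact hxZ h5
          · rintro ⟨h5, h6⟩
            exact ⟨h5, by omega⟩
        rw [hf, ← hpb]
        constructor
        · intro h5
          have h6 := h3 (hpb.mp h5)
          have h7 : (sp.jmp i Z z t) ↔ sp.jmp i Z z (sp.k i x - 1) :=
            hjmp.trans (or_iff_left (fun h8 => h8.2.2 h5))
          rw [← h6]
          unfold pot
          rw [hf, ind_congr h7]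
        · intro h5
          have h6 := h4 (by rw [← hpb]; exact h5)
          rw [harc h5] at h6
          by_cases hzx : z = some x
          · have hjt : sp.jmp i Z z t := hjmp.mpr (Or.inr ⟨hzx, hxZ, h5⟩)
            have hjn : ¬sp.jmp i Z z (sp.k i x - 1) := fun h7 => hjx ⟨h7, hzx, hxZ, h5⟩
            have hne' : χ (sp.inV i (some x)) ≠ χ (sp.outV i (some x)) :=
              sp.io_ne (hzx ▸ h.cut)
            rw [← cc_ne hne', ← h6]
            unfold pot
            rw [hf, ind_pos hjt, ind_neg hjn]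
            ring
          · have h7 : (sp.jmp i Z z t) ↔ sp.jmp i Z z (sp.k i x - 1) :=
              hjmp.trans (or_iff_left (fun h8 => hzx h8.1))
            have heq : χ (sp.inV i (some x)) = χ (sp.outV i (some x)) :=
              sp.io_eq (h.m _ (mem_ins.mpr hxS) (Ne.symm hzx))
            rw [← heq, ← h6]
            unfold pot
            rw [hf, ind_congr h7]

/-- `k` is before `w` in `P_i`. -/
def be (i : Bool) (w k : Λ) : ZMod 2 := if sp.k i k < sp.k i w then 1 else 0

/-- The adjacency matrix. -/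
def bb (w k : Λ) : ZMod 2 := if sp.B w k then 1 else 0

lemma two_add_self (a : ZMod 2) : a + a = 0 := CharTwo.add_self_eq_zero a

lemma two_cases (a : ZMod 2) : a = 0 ∨ a = 1 := by
  revert a; decide

lemma two_odd (n : ℕ) : Odd n ↔ (n : ZMod 2) = 1 := by
  rw [ZMod.natCast_eq_one_iff_odd]

lemma two_even (n : ℕ) : Even n ↔ (n : ZMod 2) = 0 := by
  rw [ZMod.natCast_eq_zero_iff_even]

lemma be_self (i : Bool) (w : Λ) : sp.be i w w = 0 := by simp [be]

lemma B_ne {w k : Λ} (h : w ≠ k) :
    sp.B w k ↔ ¬(sp.k false w < sp.k false k ↔ sp.k true w < sp.k true k) := by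
  unfold B
  rw [if_neg h]

lemma B_self (w : Λ) : sp.B w w ↔ sp.o false w = sp.o true w := by
  unfold B
  rw [if_pos rfl]

lemma bb_ne {w k : Λ} (h : w ≠ k) : sp.bb w k = sp.be false w k + sp.be true w k := by
  have h0 : sp.k false w ≠ sp.k false k := fun he => h (sp.inj false he)
  have h1 : sp.k true w ≠ sp.k true k := fun he => h (sp.inj true he)
  have hB := sp.B_ne h
  unfold bb be
  by_cases h2 : sp.k false w < sp.k false k <;> by_cases h3 : sp.k true w < sp.k true k
  · rw [if_neg (by rw [hB]; tauto), if_neg (by omega), if_neg (by omega)]; rfl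
  · rw [if_pos (by rw [hB]; tauto), if_neg (by omega), if_pos (by omega)]; rfl
  · rw [if_pos (by rw [hB]; tauto), if_pos (by omega), if_neg (by omega)]; rfl
  · rw [if_neg (by rw [hB]; tauto), if_pos (by omega), if_pos (by omega)]; rfl

lemma bb_sum (x : Λ → ZMod 2) (Z : Finset Λ) (w : Λ) :
    ∑ k ∈ Z, sp.bb w k * x k = ∑ k ∈ Z, sp.be false w k * x k + ∑ k ∈ Z, sp.be true w k * x k +
      if w ∈ Z then sp.bb w w * x w else 0 := by
  have h : ∀ k ∈ Z, sp.bb w k * x k = sp.be false w k * x k + sp.be true w k * x k +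
      if w = k then sp.bb w w * x w else 0 := by
    intro k _
    by_cases hk : w = k
    · subst hk
      rw [if_pos rfl, be_self, be_self]; ring
    · rw [if_neg hk, sp.bb_ne hk]; ring
  rw [Finset.sum_congr rfl h, Finset.sum_add_distrib, Finset.sum_add_distrib, Finset.sum_ite_eq]

lemma pb_two {i : Bool} {Z : Finset Λ} {w : Λ} : sp.pb i Z w ↔ ∑ k ∈ Z, sp.be i w k = 1 := by
  unfold pb be
  rw [two_odd, Finset.sum_boole]

lemma npb_two {i : Bool} {Z : Finset Λ} {w : Λ} : ¬sp.pb i Z w ↔ ∑ k ∈ Z, sp.be i w k = 0 := by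
  rw [pb_two]
  rcases two_cases (∑ k ∈ Z, sp.be i w k) with h | h <;> rw [h] <;> decide

lemma ev_two {Z : Finset Λ} {w : Λ} : sp.ev Z w ↔ ∑ k ∈ Z, sp.bb w k = 0 := by
  unfold ev bb
  rw [two_even, Finset.sum_boole]

lemma ev_sum {Z : Finset Λ} {w : Λ} : sp.ev Z w ↔
    ∑ k ∈ Z, sp.be false w k + ∑ k ∈ Z, sp.be true w k + (if w ∈ Z then sp.bb w w else 0) = 0 := by
  rw [ev_two]
  have := sp.bb_sum (fun _ => 1) Z w
  simp only [mul_one] at this
  rw [this]

/-- Letters outside `Z`: even iff the two parities agree. -/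
lemma ev_off {Z : Finset Λ} {w : Λ} (hw : w ∉ Z) :
    sp.ev Z w ↔ (sp.pb false Z w ↔ sp.pb true Z w) := by
  rw [ev_sum, if_neg hw, pb_two, pb_two, add_zero]
  rcases two_cases (∑ k ∈ Z, sp.be false w k) with h | h <;>
    rcases two_cases (∑ k ∈ Z, sp.be true w k) with h' | h' <;> rw [h, h'] <;> decide

lemma bb_diag (w : Λ) : sp.bb w w = if sp.o false w = sp.o true w then 1 else 0 := by
  unfold bb
  exact if_congr (sp.B_self w) rfl rfl

/-- Letters of `Z` are even. -/
lemma ev_on {S Z : Finset Λ} (hV : sp.Val S Z) {w : Λ} (hw : w ∈ Z) : sp.ev Z w := by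
  rw [ev_sum, if_pos hw, bb_diag]
  have h1 := hV.on w hw
  rw [pb_two, pb_two] at h1
  rcases two_cases (∑ k ∈ Z, sp.be false w k) with h | h <;>
    rcases two_cases (∑ k ∈ Z, sp.be true w k) with h' | h' <;> rw [h, h'] at h1 ⊢
  · rw [if_neg (by rw [h1]; decide)]; decide
  · rw [if_pos (by rw [h1]; decide)]; decide
  · rw [if_pos (by rw [h1]; decide)]; decide
  · rw [if_neg (by rw [h1]; decide)]; decide

lemma bb_symm (x y : Λ) : sp.bb x y = sp.bb y x := by
  by_cases h : x = y
  · rw [h]
  · rw [sp.bb_ne h, sp.bb_ne (Ne.symm h)]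
    have h0 : sp.k false x ≠ sp.k false y := fun he => h (sp.inj false he)
    have h1 : sp.k true x ≠ sp.k true y := fun he => h (sp.inj true he)
    unfold be
    by_cases h2 : sp.k false x < sp.k false y <;> by_cases h3 : sp.k true x < sp.k true y
    · rw [if_neg (by omega), if_neg (by omega), if_pos h2, if_pos h3]; rfl
    · rw [if_neg (by omega), if_pos (by omega), if_pos h2, if_neg h3]; rfl
    · rw [if_pos (by omega), if_neg (by omega), if_neg h2, if_pos h3]; rfl
    · rw [if_pos (by omega), if_pos (by omega), if_neg h2, if_neg h3]; rfl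

lemma pot_sum {i : Bool} {Z : Finset Λ} {z : Option Λ} {χ : Vx Λ → Bool} (w : Λ) :
    sp.pot i Z z χ (sp.k i w - 1) = cc (χ (none, false)) +
      ∑ k ∈ Z, sp.be i w k * cc (sp.hi i Z χ k) + ind (sp.jmp i Z z (sp.k i w - 1)) := by
  unfold pot
  congr 2
  rw [Finset.sum_filter]
  apply Finset.sum_congr rfl
  intro k _
  unfold be
  by_cases h : sp.k i k < sp.k i w
  · rw [if_pos h, if_pos (by omega), one_mul]
  · rw [if_neg h, if_neg (by omega), zero_mul]

/-- The colours at a letter. -/
lemma pot_at {S Z : Finset Λ} {z : Option Λ} {χ : Vx Λ → Bool} (hZ : Z ⊆ S)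
    (hz : z ∈ Finset.insertNone S) (h : sp.Br S Z z χ) (i : Bool) {w : Λ} (hw : w ∈ S) :
    (¬sp.pb i Z w → sp.pot i Z z χ (sp.k i w - 1) = cc (χ (sp.inV i (some w)))) ∧
      (sp.pb i Z w → sp.pot i Z z χ (sp.k i w - 1) = 0) := by
  obtain ⟨a, ha, h1, h2, h3, h4⟩ := sp.pot_key hZ hz h i _ (sp.k i w - 1) rfl
  rw [← pb_iff] at h3 h4
  refine ⟨fun h5 => ?_, h3⟩
  have hcons : sp.Cons i S a (some w) := by
    refine ⟨ha, mem_ins.mpr hw, ?_, ?_⟩
    · intro y z' hy hz'
      obtain rfl : w = z' := by simpa using hz'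
      have := h1 y hy
      omega
    · rintro w' hw' ⟨h6, h7⟩
      rw [lt_some] at h7
      obtain ⟨y, hy, hwy⟩ := h2 w' hw' (by omega)
      have := h6 y w' hy rfl
      omega
  have hpa := sp.pa_iff hZ h1 h2
  rw [← pb_iff] at hpa
  rw [h4 h5, h.arc i a (some w) hcons (by rw [hpa]; exact h5)]

/-- The end of the path. -/
lemma pot_end {S Z : Finset Λ} {z : Option Λ} {χ : Vx Λ → Bool} (hZ : Z ⊆ S) (hev : Even Z.card)
    (hz : z ∈ Finset.insertNone S) (h : sp.Br S Z z χ) (i : Bool) :
    cc (χ (none, false)) + ∑ k ∈ Z, cc (sp.hi i Z χ k) +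
      ind (∃ u, z = some u ∧ u ∉ Z ∧ ¬sp.pb i Z u) = cc (χ (none, true)) := by
  obtain ⟨T, hT⟩ : ∃ T, ∀ w ∈ S, sp.k i w ≤ T := by
    obtain ⟨T, hT⟩ := (S.image (sp.k i)).finite_toSet.bddAbove
    exact ⟨T, fun w hw => hT (by simpa using ⟨w, hw, rfl⟩)⟩
  obtain ⟨a, ha, h1, h2, h3, h4⟩ := sp.pot_key hZ hz h i _ T rfl
  have hf : Z.filter (fun k => sp.k i k ≤ T) = Z :=
    Finset.filter_true_of_mem (fun k hk => hT k (hZ hk))
  have hodd : ¬Odd (Z.filter (fun k => sp.k i k ≤ T)).card := by
    rw [hf, Nat.not_odd_iff_even]; exact hev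
  have hcons : sp.Cons i S a none := by
    refine ⟨ha, none_ins, lt_none_right _ _, ?_⟩
    rintro w hw ⟨h6, -⟩
    obtain ⟨y, hy, hwy⟩ := h2 w hw (hT w hw)
    have := h6 y w hy rfl
    omega
  have hpa : ¬sp.pa i Z a := by rw [sp.pa_iff hZ h1 h2]; exact hodd
  have h5 := h4 hodd
  rw [h.arc i a none hcons hpa] at h5
  have h6 : sp.inV i none = ((none, true) : Vx Λ) := by simp [inV, oo]
  rw [h6] at h5
  rw [← h5]
  unfold pot
  rw [hf]
  congr 1
  apply ind_congr
  constructor
  · rintro ⟨u, hu, huZ, hub⟩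
    exact ⟨u, hu, huZ, hub, hT u (mem_ins.mp (hu ▸ hz))⟩
  · rintro ⟨u, hu, huZ, hub, -⟩
    exact ⟨u, hu, huZ, hub⟩

lemma hi_uncut {i : Bool} {Z : Finset Λ} {χ : Vx Λ → Bool} {k : Λ}
    (h : χ (some k, false) = χ (some k, true)) : sp.hi i Z χ k = χ (some k, false) := by
  unfold hi outV inV
  cases sp.oo i (some k) <;> by_cases hp : sp.pb i Z k <;> simp [hp, h]

lemma inV_uncut {i : Bool} {χ : Vx Λ → Bool} {k : Λ}
    (h : χ (some k, false) = χ (some k, true)) : χ (sp.inV i (some k)) = χ (some k, false) := by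
  unfold inV
  cases sp.oo i (some k) <;> simp [h]

/-- The row of an even letter. -/
lemma row {S Z : Finset Λ} {z : Option Λ} {χ : Vx Λ → Bool} (hV : sp.Val S Z)
    (hz : z ∈ Finset.insertNone S) (h : sp.Br S Z z χ) (hzZ : ∀ u, z = some u → u ∉ Z) {w : Λ}
    (hw : w ∈ S) (hwz : some w ≠ z) (he : sp.ev Z w) :
    ∑ k ∈ Z, sp.bb w k * cc (χ (some k, false)) + (ind (sp.jmp false Z z (sp.k false w - 1)) +
      ind (sp.jmp true Z z (sp.k true w - 1))) = 0 := by
  have hk : ∀ k ∈ Z, χ (some k, false) = χ (some k, true) := by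
    intro k hk
    refine h.m _ (mem_ins.mpr (hV.sub hk)) ?_
    intro he'
    exact hzZ k he'.symm hk
  have hww := h.m _ (mem_ins.mpr hw) hwz
  have hs : ∀ i, sp.pot i Z z χ (sp.k i w - 1) = cc (χ (none, false)) +
      ∑ k ∈ Z, sp.be i w k * cc (χ (some k, false)) + ind (sp.jmp i Z z (sp.k i w - 1)) := by
    intro i
    rw [sp.pot_sum]
    congr 2
    apply Finset.sum_congr rfl
    intro k hkZ
    rw [sp.hi_uncut (hk k hkZ)]
  have hp : ∀ i, (¬sp.pb i Z w → sp.pot i Z z χ (sp.k i w - 1) = cc (χ (some w, false))) ∧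
      (sp.pb i Z w → sp.pot i Z z χ (sp.k i w - 1) = 0) := by
    intro i
    have := sp.pot_at hV.sub hz h i hw
    rw [sp.inV_uncut hww] at this
    exact this
  have hD : sp.pot false Z z χ (sp.k false w - 1) + sp.pot true Z z χ (sp.k true w - 1) =
      if w ∈ Z then sp.bb w w * cc (χ (some w, false)) else 0 := by
    by_cases hwZ : w ∈ Z
    · rw [if_pos hwZ, bb_diag]
      have hon := hV.on w hwZ
      by_cases h0 : sp.pb false Z w <;> by_cases h1 : sp.pb true Z w
      · rw [if_neg (by tauto), (hp false).2 h0, (hp true).2 h1]; ring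
      · rw [if_pos (by tauto), (hp false).2 h0, (hp true).1 h1]; ring
      · rw [if_pos (by tauto), (hp false).1 h0, (hp true).2 h1]; ring
      · rw [if_neg (by tauto), (hp false).1 h0, (hp true).1 h1, two_add_self]; ring
    · rw [if_neg hwZ]
      have hoff := hV.off w hw hwZ
      rw [sp.ev_off hwZ] at he
      have h0 : ¬sp.pb false Z w := by tauto
      have h1 : ¬sp.pb true Z w := by tauto
      rw [(hp false).1 h0, (hp true).1 h1, two_add_self]
  rw [hs, hs] at hD
  rw [sp.bb_sum (fun k => cc (χ (some k, false)))]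
  have h2 := two_add_self (cc (χ (none, false)))
  have h3 := two_add_self (if w ∈ Z then sp.bb w w * cc (χ (some w, false)) else 0)
  linear_combination hD + h3 - h2

/-- The set of the letters of `Z` with colour `true`. -/
def eset (Z : Finset Λ) (χ : Vx Λ → Bool) : Finset Λ := Z.filter (fun k => χ (some k, false) = true)

lemma sum_eset (Z : Finset Λ) (χ : Vx Λ → Bool) (f : Λ → ZMod 2) :
    ∑ k ∈ Z, f k * cc (χ (some k, false)) = ∑ k ∈ eset Z χ, f k := by
  unfold eset
  rw [Finset.sum_filter]
  apply Finset.sum_congr rfl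
  intro k _
  unfold cc
  cases χ (some k, false) <;> simp

lemma card_eset (Z : Finset Λ) (χ : Vx Λ → Bool) :
    ∑ k ∈ Z, cc (χ (some k, false)) = ((eset Z χ).card : ZMod 2) := by
  have := sum_eset Z χ (fun _ => 1)
  simpa using this

/-- The conditions for all odd subsets of `Z` imply goodness. -/
theorem gd_of_odd {S Z : Finset Λ} (hV : sp.Val S Z)
    (hc : ∀ e ⊆ Z, Odd e.card → ∃ w ∈ S, sp.ev Z w ∧ ∑ k ∈ e, sp.bb w k = 1)
    (hd : ∀ e ⊆ Z, Odd e.card → ∀ m ∈ S, m ∉ Z → sp.ev Z m →
      ∑ k ∈ e, sp.bb m k = 1 + sp.bb m m →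
        ∃ w ∈ S, w ≠ m ∧ sp.ev Z w ∧ ∑ k ∈ e, sp.bb w k ≠ sp.bb w m) :
    sp.Gd S Z := by
  refine ⟨hV, ?_⟩
  intro z hz χ h
  have hend := fun i => sp.pot_end hV.sub hV.even hz h i
  rcases z with _ | u
  · -- the root edge
    have hzZ : ∀ u, (none : Option Λ) = some u → u ∉ Z := by simp
    have hk : ∀ k ∈ Z, χ (some k, false) = χ (some k, true) := by
      intro k hk
      exact h.m _ (mem_ins.mpr (hV.sub hk)) (by simp)
    have h1 := hend false
    rw [ind_neg (by simp), add_zero, Finset.sum_congr rfl (fun k hk' => by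
      rw [sp.hi_uncut (hk k hk')]), card_eset, ← cc_ne h.cut] at h1
    have h2 : Odd (eset Z χ).card := by
      rw [two_odd]
      exact add_left_cancel h1
    obtain ⟨w, hw, hew, hsum⟩ := hc (eset Z χ) (Finset.filter_subset _ _) h2
    have h3 := sp.row hV hz h hzZ hw (by simp) hew
    rw [sum_eset, hsum, ind_neg (by simp [jmp]), ind_neg (by simp [jmp])] at h3
    exact absurd h3 (by decide)
  · have hu : u ∈ S := mem_ins.mp hz
    have hrr : cc (χ (none, false)) = cc (χ (none, true)) := by
      rw [h.m none none_ins (by simp)]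
    have hend' : ∀ i, ∑ k ∈ Z, cc (sp.hi i Z χ k) = ind (u ∉ Z ∧ ¬sp.pb i Z u) := by
      intro i
      have h1 := hend i
      rw [← hrr] at h1
      have h2 : ind (∃ u', some u = some u' ∧ u' ∉ Z ∧ ¬sp.pb i Z u') =
          ind (u ∉ Z ∧ ¬sp.pb i Z u) := by
        apply ind_congr
        simp
      rw [h2] at h1
      have h3 := two_add_self (ind (u ∉ Z ∧ ¬sp.pb i Z u))
      linear_combination h1 - h3
    by_cases huZ : u ∈ Z
    · -- a switch
      have h1 := hend' false
      have h2 := hend' true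
      rw [ind_neg (by tauto)] at h1 h2
      have h3 : ∀ k ∈ Z, cc (sp.hi false Z χ k) + cc (sp.hi true Z χ k) =
          if u = k then 1 else 0 := by
        intro k hk
        by_cases huk : u = k
        · subst huk
          rw [if_pos rfl]
          have hon := hV.on u huZ
          have hcut := h.cut
          unfold hi outV inV oo
          have h4 : cc (χ (some u, false)) + cc (χ (some u, true)) = 1 := by
            revert hcut
            cases χ (some u, false) <;> cases χ (some u, true) <;> decide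
          have h5 : cc (χ (some u, true)) + cc (χ (some u, false)) = 1 := by
            rw [add_comm]; exact h4
          by_cases hp0 : sp.pb false Z u <;> by_cases hp1 : sp.pb true Z u <;>
            simp only [hp0, hp1, if_true, if_false, iff_self, not_true_eq_false, iff_false,
              true_iff, false_iff, not_false_eq_true, iff_true] at hon ⊢ <;>
            revert hon <;> cases sp.o false u <;> cases sp.o true u <;>
            simp [h4, h5]
        · rw [if_neg huk]
          have h4 : χ (some k, false) = χ (some k, true) :=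
            h.m _ (mem_ins.mpr (hV.sub hk)) (by simpa using Ne.symm huk)
          rw [sp.hi_uncut h4, sp.hi_uncut h4, two_add_self]
      have h4 : ∑ k ∈ Z, (cc (sp.hi false Z χ k) + cc (sp.hi true Z χ k)) = 1 := by
        rw [Finset.sum_congr rfl h3, Finset.sum_ite_eq, if_pos huZ]
      rw [Finset.sum_add_distrib, h1, h2] at h4
      exact absurd h4 (by decide)
    · have hk : ∀ k ∈ Z, χ (some k, false) = χ (some k, true) := by
        intro k hk
        refine h.m _ (mem_ins.mpr (hV.sub hk)) ?_
        intro he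
        obtain rfl : k = u := by simpa using he
        exact huZ hk
      have hx : ∀ i, ∑ k ∈ Z, cc (sp.hi i Z χ k) = ((eset Z χ).card : ZMod 2) := by
        intro i
        rw [← card_eset]
        apply Finset.sum_congr rfl
        intro k hk'
        rw [sp.hi_uncut (hk k hk')]
      have hoff := hV.off u hu huZ
      have h1 := hend' false
      have h2 := hend' true
      rw [hx] at h1 h2
      by_cases hp0 : sp.pb false Z u <;> by_cases hp1 : sp.pb true Z u
      · exact hoff ⟨hp0, hp1⟩
      · rw [ind_neg (by tauto)] at h1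
        rw [ind_pos ⟨huZ, hp1⟩, h1] at h2
        exact absurd h2 (by decide)
      · rw [ind_pos ⟨huZ, hp0⟩] at h1
        rw [ind_neg (by tauto), h1] at h2
        exact absurd h2 (by decide)
      · rw [ind_pos ⟨huZ, hp0⟩] at h1
        have hodd : Odd (eset Z χ).card := by rw [two_odd]; exact h1
        have heu : sp.ev Z u := by rw [sp.ev_off huZ]; tauto
        -- the row of `u`
        have hpot : ∀ i, ¬sp.pb i Z u → cc (χ (none, false)) +
            ∑ k ∈ Z, sp.be i u k * cc (χ (some k, false)) = cc (χ (sp.inV i (some u))) := by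
          intro i hp
          have h3 := (sp.pot_at hV.sub hz h i hu).1 hp
          rw [sp.pot_sum] at h3
          rw [ind_neg, add_zero] at h3
          · rw [← h3]
            congr 1
            apply Finset.sum_congr rfl
            intro k hkZ
            rw [sp.hi_uncut (hk k hkZ)]
          · rintro ⟨u', hu', -, -, hlt⟩
            obtain rfl : u = u' := by simpa using hu'
            omega
        have h3 := hpot false hp0
        have h4 := hpot true hp1
        have h5 : cc (χ (sp.inV false (some u))) + cc (χ (sp.inV true (some u))) =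
            1 + sp.bb u u := by
          rw [bb_diag]
          have hcut := h.cut
          have h6 : cc (χ (some u, false)) + cc (χ (some u, true)) = 1 := by
            revert hcut
            cases χ (some u, false) <;> cases χ (some u, true) <;> decide
          have h7 : cc (χ (some u, true)) + cc (χ (some u, false)) = 1 := by
            rw [add_comm]; exact h6
          have h8 : (1 : ZMod 2) + 1 = 0 := by decide
          have h15 : ∀ i, sp.inV i (some u) = (some u, !sp.o i u) := fun i => rfl
          rw [h15, h15]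
          generalize sp.o false u = b0
          generalize sp.o true u = b1
          cases b0 <;> cases b1 <;> simp [h6, h7, h8, two_add_self]
        have h9 : ∑ k ∈ eset Z χ, sp.bb u k = 1 + sp.bb u u := by
          rw [← sum_eset, sp.bb_sum (fun k => cc (χ (some k, false))), if_neg huZ, add_zero]
          have h10 := two_add_self (cc (χ (none, false)))
          linear_combination h3 + h4 + h5 - h10
        obtain ⟨w, hw, hwu, hew, hne⟩ := hd (eset Z χ) (Finset.filter_subset _ _)
          hodd u hu huZ heu h9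
        have hzZ : ∀ u', some u = some u' → u' ∉ Z := by
          intro u' hu'
          obtain rfl : u = u' := by simpa using hu'
          exact huZ
        have h11 := sp.row hV hz h hzZ hw (by simpa using hwu) hew
        have h12 : ∀ i, ¬sp.pb i Z u →
            ind (sp.jmp i Z (some u) (sp.k i w - 1)) = sp.be i w u := by
          intro i hp
          unfold be
          by_cases h13 : sp.k i u < sp.k i w
          · rw [if_pos h13, ind_pos ⟨u, rfl, huZ, hp, by omega⟩]
          · rw [if_neg h13, ind_neg]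
            rintro ⟨u', hu', -, -, hlt⟩
            obtain rfl : u = u' := by simpa using hu'
            omega
        rw [h12 false hp0, h12 true hp1, sum_eset, ← sp.bb_ne hwu] at h11
        apply hne
        have h14 := two_add_self (sp.bb w u)
        linear_combination h11 - h14

/-- An odd subset of a set of 2 or 4 letters acts on the even letters as one letter. -/
lemma odd_sub {Z e : Finset Λ} (hcard : Z.card = 2 ∨ Z.card = 4) (he : e ⊆ Z)
    (ho : Odd e.card) : ∃ z ∈ Z, ∀ w, sp.ev Z w → ∑ k ∈ e, sp.bb w k = sp.bb w z := by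
  have hle := Finset.card_le_card he
  have h1 : e.card = 1 ∨ e.card = 3 := by
    obtain ⟨r, hr⟩ := ho
    omega
  rcases h1 with h1 | h1
  · obtain ⟨z, rfl⟩ := Finset.card_eq_one.mp h1
    exact ⟨z, by simpa using he, fun w _ => by simp⟩
  · have h4 : Z.card = 4 := by omega
    have h5 : (Z \ e).card = 1 := by
      rw [Finset.card_sdiff_of_subset he]; omega
    obtain ⟨z, hz⟩ := Finset.card_eq_one.mp h5
    have hzZ : z ∈ Z := by
      have : z ∈ Z \ e := by rw [hz]; simp
      exact (Finset.mem_sdiff.mp this).1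
    refine ⟨z, hzZ, ?_⟩
    intro w hw
    rw [sp.ev_two] at hw
    rw [← Finset.sum_sdiff he, hz, Finset.sum_singleton] at hw
    have := two_add_self (sp.bb w z)
    linear_combination hw - this

lemma bb_eq_one {x y : Λ} : sp.bb x y = 1 ↔ sp.B x y := by
  unfold bb
  by_cases h : sp.B x y <;> simp [h]

lemma B_symm {x y : Λ} : sp.B x y ↔ sp.B y x := by
  rw [← bb_eq_one, ← bb_eq_one, bb_symm]

/-- helper92's good sets: conditions (c) and (d) for a set of 2 or 4 letters. -/
theorem gd_of_gset {S Z : Finset Λ} (hV : sp.Val S Z) (hcard : Z.card = 2 ∨ Z.card = 4)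
    (hc : ∀ z ∈ Z, ∃ w ∈ S, sp.ev Z w ∧ sp.B w z)
    (hd : ∀ m ∈ S, m ∉ Z → ∀ z ∈ Z, ¬(sp.B m m ↔ sp.B z m) →
      ∃ w ∈ S, w ≠ m ∧ sp.ev Z w ∧ ¬(sp.B w m ↔ sp.B w z)) :
    sp.Gd S Z := by
  apply sp.gd_of_odd hV
  · intro e he ho
    obtain ⟨z, hz, h1⟩ := sp.odd_sub hcard he ho
    obtain ⟨w, hw, hew, hB⟩ := hc z hz
    exact ⟨w, hw, hew, by rw [h1 w hew]; exact sp.bb_eq_one.mpr hB⟩
  · intro e he ho m hm hmZ hem hsum
    obtain ⟨z, hz, h1⟩ := sp.odd_sub hcard he ho
    rw [h1 m hem] at hsum
    have h2 : ¬(sp.B m m ↔ sp.B z m) := by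
      rw [sp.B_symm (x := z), ← bb_eq_one, ← bb_eq_one, hsum]
      rcases two_cases (sp.bb m m) with h | h <;> rw [h] <;> decide
    obtain ⟨w, hw, hwm, hew, h3⟩ := hd m hm hmZ z hz h2
    refine ⟨w, hw, hwm, hew, ?_⟩
    rw [h1 w hew]
    intro h4
    apply h3
    rw [← bb_eq_one, ← bb_eq_one, h4]

end SP

end Pool.GS
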