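import Pool.Agent.GSP.Base

/-!
MP_7b7176_co, ROAD S: good sets of switch letters in a signed permutation (THEOREM PP, helper92).
`p` = position, `q` = value, `sg z = true` = the sign of `z` is `+`.
-/

set_option autoImplicit false

namespace Pool.GSP

variable {L : Type*}

/-- The (symmetric) matrix of the signed permutation: `u` and `v` are inverted; on the diagonal: the
sign is `+`. -/
def BB (p q : L → ℤ) (sg : L → Bool) (u v : L) : Prop :=
  (u = v ∧ sg u = true) ∨ (p u < p v ∧ q v < q u) ∨ (p v < p u ∧ q u < q v)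

instance [DecidableEq L] (p q : L → ℤ) (sg : L → Bool) (u v : L) : Decidable (BB p q sg u v) := by
  unfold BB
  infer_instance

/-- The row of `w` is even on `Z`. -/
def Ev [DecidableEq L] (p q : L → ℤ) (sg : L → Bool) (Z : Finset L) (w : L) : Prop :=
  Even (Z.filter (fun k => BB p q sg w k)).card

/-- The set `Z` of 2 or 4 switch letters defines a good circuit. -/
structure GSet [DecidableEq L] (S : Finset L) (p q : L → ℤ) (sg : L → Bool) (Z : Finset L) :
    Prop where
  sub : Z ⊆ S
  card : Z.card = 2 ∨ Z.card = 4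
  ev : ∀ w ∈ Z, Ev p q sg Z w
  emp : ∀ w ∈ S, w ∉ Z → ¬ (Odd (Z.filter (fun k => p k < p w)).card ∧
    Odd (Z.filter (fun k => q k < q w)).card)
  root : ∀ z ∈ Z, ∃ w ∈ S, Ev p q sg Z w ∧ BB p q sg w z
  unit : ∀ m ∈ S, m ∉ Z → ∀ z ∈ Z, ¬ (BB p q sg m m ↔ BB p q sg z m) →
    ∃ w ∈ S, w ≠ m ∧ Ev p q sg Z w ∧ ¬ (BB p q sg w m ↔ BB p q sg w z)

/-- THEOREM PP: every signed permutation containing 2413 or 3142 has a good set. -/
def S_PP : Prop :=
  ∀ (L : Type) [DecidableEq L] (S : Finset L) (p q : L → ℤ), Function.Injective p →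
    Function.Injective q → ∀ sg : L → Bool,
    (∃ a ∈ S, ∃ b ∈ S, ∃ c ∈ S, ∃ d ∈ S, Occ p q a b c d) → ∃ Z, GSet S p q sg Z

/-- Bridge: a pair satisfying the criterion is a good set (type I; type II; the special set). -/
def S_PPBR : Prop :=
  ∀ (L : Type) [DecidableEq L] (S : Finset L) (p q : L → ℤ), Function.Injective p →
    Function.Injective q → ∀ sg : L → Bool,
    (HasPair S p q sg ∨ (∃ a b c d, Theta S p q sg a b c d) ∨ ∃ a b c d, Theta S q p sg a b c d) →
    ∃ Z, GSet S p q sg Z

end Pool.GSP
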