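import Pool.Agent.GSP.GSet
import Pool.Agent.GSP.Bridge95
import Pool.Agent.GSP.PPDefs

/-!
MP_7b7176_co, ROAD S: the good sets of PPDefs are good in the model `SP`.
-/

set_option autoImplicit false
set_option linter.unusedSectionVars false

namespace Pool.GS

namespace SP

variable {Λ : Type} [Fintype Λ] [DecidableEq Λ] (sp : SP Λ)

lemma B_iff_BB (x y : Λ) : sp.B x y ↔ GSP.BB (sp.k true) (sp.k false) sp.sgn x y := by
  unfold GSP.BB
  rw [sgn_true]
  by_cases h : x = y
  · subst h
    rw [B_self]
    simp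
  · rw [sp.B_ne h]
    have h0 : sp.k false x ≠ sp.k false y := fun he => h (sp.inj false he)
    have h1 : sp.k true x ≠ sp.k true y := fun he => h (sp.inj true he)
    simp only [h, false_and, false_or]
    by_cases h2 : sp.k false x < sp.k false y <;> by_cases h3 : sp.k true x < sp.k true y <;>
      simp only [h2, h3, iff_self, not_true_eq_false, iff_false, false_iff, not_false_eq_true,
        true_and, false_and, false_or, iff_true, true_iff, and_true, and_false, or_false] <;> omega

lemma ev_iff_Ev (Z : Finset Λ) (w : Λ) :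
    sp.ev Z w ↔ GSP.Ev (sp.k true) (sp.k false) sp.sgn Z w := by
  unfold ev GSP.Ev
  have : (Z.filter (fun k => sp.B w k)) =
      Z.filter (fun k => GSP.BB (sp.k true) (sp.k false) sp.sgn w k) := by
    apply Finset.filter_congr
    intro k _
    exact sp.B_iff_BB w k
  rw [this]

/-- The set given by a good set is alternating. -/
lemma val_of_GSet {S Z : Finset Λ} (h : GSP.GSet S (sp.k true) (sp.k false) sp.sgn Z) :
    sp.Val S Z where
  sub := h.sub
  ne := by
    rw [← Finset.card_pos]
    rcases h.card with h1 | h1 <;> omega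
  even := by
    rcases h.card with h1 | h1 <;> rw [h1] <;> decide
  off := by
    intro x hx hxZ hp
    exact h.emp x hx hxZ ⟨hp.2, hp.1⟩
  on := by
    intro x hx
    have h1 : sp.ev Z x := (sp.ev_iff_Ev Z x).mpr (h.ev x hx)
    rw [ev_sum, if_pos hx, bb_diag] at h1
    rw [pb_two, pb_two]
    by_cases hs : sp.o false x = sp.o true x
    · rw [if_pos hs] at h1
      rcases two_cases (∑ k ∈ Z, sp.be false x k) with h2 | h2 <;>
        rcases two_cases (∑ k ∈ Z, sp.be true x k) with h3 | h3 <;> rw [h2, h3] at h1 ⊢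
      · exact absurd h1 (by decide)
      · simp [hs]
      · simp [hs]
      · exact absurd h1 (by decide)
    · rw [if_neg hs] at h1
      rcases two_cases (∑ k ∈ Z, sp.be false x k) with h2 | h2 <;>
        rcases two_cases (∑ k ∈ Z, sp.be true x k) with h3 | h3 <;> rw [h2, h3] at h1 ⊢
      · simp [hs]
      · exact absurd h1 (by decide)
      · exact absurd h1 (by decide)
      · simp [hs]

/-- A good set gives a good alternating set. -/
theorem gd_of_GSet {S Z : Finset Λ} (h : GSP.GSet S (sp.k true) (sp.k false) sp.sgn Z) :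
    sp.Gd S Z := by
  refine sp.gd_of_gset (sp.val_of_GSet h) h.card ?_ ?_
  · intro z hz
    obtain ⟨w, hw, h1, h2⟩ := h.root z hz
    exact ⟨w, hw, (sp.ev_iff_Ev Z w).mpr h1, (sp.B_iff_BB w z).mpr h2⟩
  · intro m hm hmZ z hz hB
    rw [sp.B_iff_BB, sp.B_iff_BB] at hB
    obtain ⟨w, hw, hwm, h1, h2⟩ := h.unit m hm hmZ z hz hB
    refine ⟨w, hw, hwm, (sp.ev_iff_Ev Z w).mpr h1, ?_⟩
    rw [sp.B_iff_BB, sp.B_iff_BB]
    exact h2

/-- THEOREM PP implies (S'): every non-separable signed permutation has a good set. -/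
theorem exists_gd_of_PP (h : GSP.S_PP) {S : Finset Λ} (hS : sp.NonSep S) : ∃ Z, sp.Gd S Z := by
  obtain ⟨Z, hZ⟩ := h Λ S (sp.k true) (sp.k false) (sp.inj true) (sp.inj false) sp.sgn
    (sp.nonSep_iff.mp hS)
  exact ⟨Z, sp.gd_of_GSet hZ⟩

end SP

end Pool.GS
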