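import Pool.Agent.GSP.Defs

/-!
MP_7b7176_co, ROAD S, GOOD only (no level 2, no connectivity).

`Br S Z z χ`: the colouring `χ` of the vertices is constant on all arcs outside `D` and on all
`M`-edges except the one of `z`, where it is not constant (so the `M`-edge of `z` is a bridge of
`H_D`).  `Gd S Z`: `D` is alternating and no `M`-edge (the root edge included) is a bridge of `H_D`.
-/

set_option autoImplicit false
set_option linter.unusedSectionVars false

namespace Pool.GS

open Pool.GOD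

namespace SP

variable {Λ : Type} [Fintype Λ] [DecidableEq Λ] (sp : SP Λ)

/-- `χ` is a bridge colouring for the `M`-edge of `z`. -/
structure Br (S Z : Finset Λ) (z : Option Λ) (χ : Vx Λ → Bool) : Prop where
  m : ∀ a ∈ Finset.insertNone S, a ≠ z → χ (a, false) = χ (a, true)
  arc : ∀ i a b, sp.Cons i S a b → ¬sp.pa i Z a → χ (sp.outV i a) = χ (sp.inV i b)
  cut : χ (z, false) ≠ χ (z, true)

/-- `D` is alternating and no `M`-edge is a bridge of `H_D`. -/
def Gd (S Z : Finset Λ) : Prop :=
  sp.Val S Z ∧ ∀ z ∈ Finset.insertNone S, ∀ χ, ¬sp.Br S Z z χ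

omit [Fintype Λ] [DecidableEq Λ] in
@[simp] lemma lt_some (k : Λ → ℤ) (x y : Λ) : lt k (some x) (some y) ↔ k x < k y := by
  simp [lt]

omit [Fintype Λ] [DecidableEq Λ] in
@[simp] lemma lt_none_left (k : Λ → ℤ) (b : Option Λ) : lt k none b := by simp [lt]

omit [Fintype Λ] [DecidableEq Λ] in
@[simp] lemma lt_none_right (k : Λ → ℤ) (a : Option Λ) : lt k a none := by simp [lt]

omit [Fintype Λ] [DecidableEq Λ] in
lemma lt_trans' {k : Λ → ℤ} {a b : Option Λ} {x : Λ} (h : lt k a (some x))
    (h' : lt k (some x) b) : lt k a b := by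
  intro y z hy hz
  exact (h y x hy rfl).trans (h' x z rfl hz)

@[simp] lemma not_pa_none (i : Bool) (Z : Finset Λ) : ¬sp.pa i Z none := by
  simp [pa]

lemma pa_some (i : Bool) (Z : Finset Λ) (x : Λ) :
    sp.pa i Z (some x) ↔ Odd (Z.filter (fun z => sp.k i z ≤ sp.k i x)).card := by
  simp [pa]

lemma mem_ins {S : Finset Λ} {x : Λ} : some x ∈ Finset.insertNone S ↔ x ∈ S := by simp

lemma none_ins {S : Finset Λ} : (none : Option Λ) ∈ Finset.insertNone S := by simp

/-- No letter of `Z` between `a` and `w`, `w ∉ Z`: the parity after `w` is the one after `a`. -/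
lemma pa_eq {i : Bool} {Z : Finset Λ} {a : Option Λ} {w : Λ} (haw : lt (sp.k i) a (some w))
    (hw : w ∉ Z) (h : ∀ z ∈ Z, ¬(lt (sp.k i) a (some z) ∧ sp.k i z < sp.k i w)) :
    sp.pa i Z (some w) ↔ sp.pa i Z a := by
  have hne : ∀ z ∈ Z, sp.k i z ≠ sp.k i w := by
    intro z hz he
    exact hw (sp.inj i he ▸ hz)
  have : (Z.filter (fun z => ∃ x, some w = some x ∧ sp.k i z ≤ sp.k i x)) =
      (Z.filter (fun z => ∃ x, a = some x ∧ sp.k i z ≤ sp.k i x)) := by
    apply Finset.filter_congr
    intro z hz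
    constructor
    · rintro ⟨x, hx, hzx⟩
      obtain rfl : w = x := by simpa using hx
      have h1 : sp.k i z < sp.k i w := lt_of_le_of_ne hzx (hne z hz)
      have h2 := h z hz
      rcases a with _ | y
      · exact absurd ⟨lt_none_left _ _, h1⟩ h2
      · refine ⟨y, rfl, ?_⟩
        by_contra hc
        exact h2 ⟨by simpa using hc, h1⟩
    · rintro ⟨x, rfl, hzx⟩
      refine ⟨w, rfl, ?_⟩
      have := haw x w rfl rfl
      omega
  unfold pa
  rw [this]

/-- Along a `P_i`-path outside `D` a colouring which is constant on the arcs outside `D` and on the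
`M`-edges of the letters on the path is constant. -/
lemma path {i : Bool} {S Z : Finset Λ} {χ : Vx Λ → Bool}
    (hA : ∀ a b, sp.Cons i S a b → ¬sp.pa i Z a → χ (sp.outV i a) = χ (sp.inV i b)) (b : Option Λ)
    (hb : b ∈ Finset.insertNone S) :
    ∀ (n : ℕ) (a : Option Λ),
      (S.filter (fun w => lt (sp.k i) a (some w) ∧ lt (sp.k i) (some w) b)).card = n →
      a ∈ Finset.insertNone S → lt (sp.k i) a b →
      (∀ z ∈ Z, ¬(lt (sp.k i) a (some z) ∧ lt (sp.k i) (some z) b)) → ¬sp.pa i Z a →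
      (∀ w ∈ S, lt (sp.k i) a (some w) → lt (sp.k i) (some w) b →
        χ (some w, false) = χ (some w, true)) →
      χ (sp.outV i a) = χ (sp.inV i b) := by
  intro n
  induction n using Nat.strong_induction_on with
  | _ n ih =>
    intro a hn ha hab hZ hpa hM
    rcases Finset.eq_empty_or_nonempty
      (S.filter (fun w => lt (sp.k i) a (some w) ∧ lt (sp.k i) (some w) b)) with h0 | h0
    · refine hA a b ⟨ha, hb, hab, ?_⟩ hpa
      intro z hz hzz
      have : z ∈ (S.filter (fun w => lt (sp.k i) a (some w) ∧ lt (sp.k i) (some w) b)) :=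
        Finset.mem_filter.mpr ⟨hz, hzz⟩
      rw [h0] at this
      exact absurd this (Finset.notMem_empty z)
    · obtain ⟨w, hw, hmin⟩ := Finset.exists_min_image _ (sp.k i) h0
      rw [Finset.mem_filter] at hw
      obtain ⟨hwS, haw, hwb⟩ := hw
      have hwZ : w ∉ Z := fun h => hZ w h ⟨haw, hwb⟩
      have hcons : sp.Cons i S a (some w) := by
        refine ⟨ha, mem_ins.mpr hwS, haw, ?_⟩
        rintro z hz ⟨h1, h2⟩
        have h3 := hmin z (Finset.mem_filter.mpr ⟨hz, h1, lt_trans' h2 hwb⟩)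
        rw [lt_some] at h2
        omega
      have hpw : ¬sp.pa i Z (some w) := by
        rw [sp.pa_eq haw hwZ]
        · exact hpa
        · rintro z hz ⟨h1, h2⟩
          exact hZ z hz ⟨h1, lt_trans' ((lt_some _ _ _).mpr h2) hwb⟩
      have h1 := hA a (some w) hcons hpa
      have h2 := hM w hwS haw hwb
      have h3 := ih _ (by
        rw [← hn]
        apply Finset.card_lt_card
        refine ⟨?_, ?_⟩
        · intro z hz
          rw [Finset.mem_filter] at hz ⊢
          exact ⟨hz.1, lt_trans' haw hz.2.1, hz.2.2⟩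
        · intro h
          have := h (Finset.mem_filter.mpr ⟨hwS, haw, hwb⟩)
          rw [Finset.mem_filter, lt_some] at this
          omega) (some w) rfl (mem_ins.mpr hwS) hwb
        (by
          rintro z hz ⟨h4, h5⟩
          exact hZ z hz ⟨lt_trans' haw h4, h5⟩) hpw
        (by
          intro z hz h4 h5
          exact hM z hz (lt_trans' haw h4) h5)
      rw [h1, ← h3]
      unfold outV inV
      cases sp.oo i (some w) <;> simp [h2]

lemma io_eq {χ : Vx Λ → Bool} {i : Bool} {a : Option Λ} (h : χ (a, false) = χ (a, true)) :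
    χ (sp.inV i a) = χ (sp.outV i a) := by
  unfold outV inV
  cases sp.oo i a <;> simp [h]

lemma io_ne {χ : Vx Λ → Bool} {i : Bool} {a : Option Λ} (h : χ (a, false) ≠ χ (a, true)) :
    χ (sp.inV i a) ≠ χ (sp.outV i a) := by
  unfold outV inV
  cases sp.oo i a <;> simp [h, Ne.symm h]

lemma io_all {χ : Vx Λ → Bool} {a : Option Λ} (h : χ (a, false) = χ (a, true)) (i j : Bool) :
    χ (sp.inV i a) = χ (sp.outV j a) := by
  unfold outV inV
  cases sp.oo i a <;> cases sp.oo j a <;> simp [h]

/-- The path lemma for a bridge colouring: no letter `z` on the path. -/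
lemma Br.path {S Z : Finset Λ} {z : Option Λ} {χ : Vx Λ → Bool} (h : sp.Br S Z z χ) (i : Bool)
    {a b : Option Λ} (ha : a ∈ Finset.insertNone S) (hb : b ∈ Finset.insertNone S)
    (hab : lt (sp.k i) a b)
    (hZ : ∀ z ∈ Z, ¬(lt (sp.k i) a (some z) ∧ lt (sp.k i) (some z) b)) (hpa : ¬sp.pa i Z a)
    (hz : ∀ w, z = some w → ¬(lt (sp.k i) a (some w) ∧ lt (sp.k i) (some w) b)) :
    χ (sp.outV i a) = χ (sp.inV i b) := by
  refine sp.path (h.arc i) b hb _ a rfl ha hab hZ hpa ?_
  intro w hw h1 h2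
  exact h.m _ (mem_ins.mpr hw) (fun he => hz w he.symm ⟨h1, h2⟩)

/-- The path lemma for a bridge colouring: `z` is on the path. -/
lemma Br.path_cross {S Z : Finset Λ} {w : Λ} {χ : Vx Λ → Bool} (h : sp.Br S Z (some w) χ)
    (hwS : w ∈ S) (i : Bool)
    {a b : Option Λ} (ha : a ∈ Finset.insertNone S) (hb : b ∈ Finset.insertNone S)
    (hZ : ∀ z ∈ Z, ¬(lt (sp.k i) a (some z) ∧ lt (sp.k i) (some z) b)) (hpa : ¬sp.pa i Z a)
    (haw : lt (sp.k i) a (some w)) (hwb : lt (sp.k i) (some w) b) :
    χ (sp.outV i a) ≠ χ (sp.inV i b) := by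
  have hwZ : w ∉ Z := fun h' => hZ w h' ⟨haw, hwb⟩
  have h1 : χ (sp.outV i a) = χ (sp.inV i (some w)) := by
    refine h.path sp i ha (mem_ins.mpr hwS) haw ?_ hpa ?_
    · rintro z hz ⟨h1, h2⟩
      exact hZ z hz ⟨h1, lt_trans' h2 hwb⟩
    · intro x hx
      obtain rfl : w = x := by simpa using hx
      simp
  have h2 : χ (sp.outV i (some w)) = χ (sp.inV i b) := by
    refine h.path sp i (mem_ins.mpr hwS) hb hwb ?_ ?_ ?_
    · rintro z hz ⟨h1, h2⟩
      exact hZ z hz ⟨lt_trans' haw h1, h2⟩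
    · rw [sp.pa_eq haw hwZ]
      · exact hpa
      · rintro z hz ⟨h1, h2⟩
        exact hZ z hz ⟨h1, lt_trans' ((lt_some _ _ _).mpr h2) hwb⟩
    · intro x hx
      obtain rfl : w = x := by simpa using hx
      simp
  rw [h1, ← h2]
  exact sp.io_ne h.cut

end SP

end Pool.GS
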