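import Pool.Agent.GSP.StmtsA
import Pool.Agent.GSP.StmtsL

/-!
L1: the lift lemma.
-/

set_option autoImplicit false
set_option linter.unusedSectionVars false

namespace Pool.GS

open Pool.GOD Pool.GS.SP

namespace L1

variable {Λ : Type} [Fintype Λ] [DecidableEq Λ] (sp : SP Λ)

lemma mem_W {S : Finset Λ} {v : Vx Λ} : v ∈ W S ↔ v.1 ∈ Finset.insertNone S := by
  simp [W]

lemma ends_inl (a : Option Λ) : sp.G.ends (Sum.inl a) = s((a, false), (a, true)) := rfl

lemma ends_inr (i : Bool) (a b : Option Λ) :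
    sp.G.ends (Sum.inr (i, a, b)) = s(sp.outV i a, sp.inV i b) := rfl

lemma ends_m (i : Bool) (u : Λ) :
    sp.G.ends (Sum.inl (some u)) = s(sp.inV i (some u), sp.outV i (some u)) := by
  rw [ends_inl]
  unfold inV outV
  cases sp.oo i (some u)
  · rw [Sym2.eq_swap]; rfl
  · rfl

lemma in_ne_out (i : Bool) (u : Option Λ) : sp.inV i u ≠ sp.outV i u := by
  unfold inV outV
  cases sp.oo i u <;> simp

lemma W_insert (i : Bool) (S : Finset Λ) (u : Λ) :
    W (insert u S) = W S ∪ {sp.inV i (some u), sp.outV i (some u)} := by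
  ext ⟨a, b⟩
  rw [Finset.mem_union, mem_W, mem_W, Finset.mem_insert, Finset.mem_singleton]
  unfold inV outV
  rw [Prod.mk.injEq, Prod.mk.injEq]
  rcases a with _ | x
  · simp
  · simp only [Finset.some_mem_insertNone, Finset.mem_insert, Option.some.injEq]
    cases sp.oo i (some u) <;> cases b <;> simp <;> tauto

lemma swapw (i : Bool) (u : Λ) :
    (sp.inV i (some u) = sp.inV (!i) (some u) ∧ sp.outV i (some u) = sp.outV (!i) (some u)) ∨
    (sp.inV i (some u) = sp.outV (!i) (some u) ∧ sp.outV i (some u) = sp.inV (!i) (some u)) := by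
  unfold inV outV
  cases sp.oo i (some u) <;> cases sp.oo (!i) (some u) <;> simp

lemma perm5 {α : Type} [DecidableEq α] (a b c d e : α) :
    ({a, b, c, d, e} : Finset α) = {a, b, d, c, e} := by
  ext f
  simp only [Finset.mem_insert, Finset.mem_singleton]
  tauto

end L1

open L1 in
/-- **L1**: the lift lemma. -/
theorem t_L1 (h1 : S_A1) (h2 : S_A2) (h3 : S_A3) (h4 : S_A4) (h5 : S_A5) (hb1 : S_B1)
    (hb2 : S_B2) : S_L1 := by
  intro Λ _ _ sp i e S Z u hu hext hcut
  classical
  obtain ⟨p₁, q₁, hc₁, hp₁, hq₁, hI₁, hU₁, hf₁, hl₁, hz₁⟩ := h2 Λ sp i S u hu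
  obtain ⟨p₀, q₀, hc₀, hp₀, hq₀, hI₀, hU₀, hf₀, hl₀, hz₀⟩ := h2 Λ sp (!i) S u hu
  -- the arc at the root
  have hroot : (e = false ∧ p₁ = none) ∨ (e = true ∧ q₁ = none) := by
    cases e
    · exact Or.inl ⟨rfl, hf₁ hext⟩
    · exact Or.inr ⟨rfl, hl₁ hext⟩
  have hr : rArc i e (Sum.inr (i, p₁, q₁) : Ed Λ) := by
    rcases hroot with ⟨h, h'⟩ | ⟨h, h'⟩
    · exact Or.inl ⟨h, q₁, by rw [h']⟩
    · exact Or.inr ⟨h, p₁, by rw [h']⟩
  have hpS : ∀ (j : Bool) (a b : Option Λ), sp.Cons j S a b →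
      a ≠ some u ∧ b ≠ some u := by
    intro j a b h
    refine ⟨?_, ?_⟩
    · rintro rfl
      exact hu (Finset.some_mem_insertNone.1 h.1)
    · rintro rfl
      exact hu (Finset.some_mem_insertNone.1 h.2.1)
  -- validity
  have hpar : Z ⊆ S → Even Z.card → ¬sp.pa i Z p₁ := by
    intro hZ hE
    obtain ⟨-, -, -, k4, k5⟩ := h3 Λ sp i S Z hZ
    rcases hroot with ⟨-, h⟩ | ⟨-, h⟩
    · rw [h]; exact k4
    · rw [h] at hc₁
      exact k5 hE _ hc₁
  have hpu : Z ⊆ S → Even Z.card → ¬sp.pb i Z u := by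
    intro hZ hE h
    exact hpar hZ hE ((hz₁ Z hZ).2.1 h)
  have hval : sp.Val S Z → sp.Val (insert u S) Z := by
    intro h
    refine ⟨h.sub.trans (Finset.subset_insert _ _), h.ne, h.even, ?_, h.on⟩
    intro x hx hxZ
    rw [Finset.mem_insert] at hx
    rcases hx with rfl | hx
    · have h6 := hpu h.sub h.even
      cases i
      · exact fun h7 => h6 h7.1
      · exact fun h7 => h6 h7.2
    · exact h.off x hx hxZ
  -- the new edge set
  have huZ : sp.Val S Z → u ∉ Z := fun h h' => hu (h.sub h')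
  have hW : r₁ ∈ W S ∧ r₂ ∈ W S := by
    constructor
    · rw [mem_W]; exact Finset.none_mem_insertNone
    · rw [mem_W]; exact Finset.none_mem_insertNone
  have huW : ∀ v : Vx Λ, v.1 = some u → v ∉ W S := by
    intro v hv hv'
    rw [mem_W, hv] at hv'
    exact hu (Finset.some_mem_insertNone.1 hv')
  have hnH : ∀ f : Ed Λ, (∃ j b, f = Sum.inr (j, some u, b)) ∨ (∃ j a, f = Sum.inr (j, a, some u)) ∨
      f = Sum.inl (some u) → f ∉ sp.H S Z := by
    rintro f (⟨j, b, rfl⟩ | ⟨j, a, rfl⟩ | rfl)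
    · rw [mem_H_inr]
      exact fun h => (hpS _ _ _ h.1).1 rfl
    · rw [mem_H_inr]
      exact fun h => (hpS _ _ _ h.1).2 rfl
    · rw [mem_H_inl]
      exact fun h => hu (Finset.some_mem_insertNone.1 h)
  have hbool : ∀ j : Bool, j = i ∨ j = !i := by
    intro j
    cases i <;> cases j <;> simp
  have hni : (!i) ≠ i := by cases i <;> simp
  have key : sp.Val S Z →
      (TwoEC sp.G (sp.H S Z) (W S) → TwoEC sp.G (sp.H (insert u S) Z) (W (insert u S))) ∧
      (Lev2 sp.G (sp.H S Z) (W S) r₁ r₂ →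
        Lev2 sp.G (sp.H (insert u S) Z) (W (insert u S)) r₁ r₂) := by
    intro hV
    have hend := (h4 Λ sp S Z hV).2.2.2
    have hα₁ : (Sum.inr (i, p₁, q₁) : Ed Λ) ∈ sp.H S Z := by
      rw [mem_H_inr]
      exact ⟨hc₁, hpar hV.sub hV.even⟩
    by_cases hD : sp.pa (!i) Z p₀
    · -- u is on D
      have hH : sp.H (insert u S) Z = (sp.H S Z).erase (Sum.inr (i, p₁, q₁)) ∪
          {Sum.inr (i, p₁, some u), Sum.inl (some u), Sum.inr (i, some u, q₁)} := by
        ext f
        rw [Finset.mem_union, Finset.mem_erase]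
        simp only [Finset.mem_insert, Finset.mem_singleton]
        rcases f with a | ⟨j, a, b⟩
        · rw [mem_H_inl, mem_H_inl]
          rcases a with _ | x
          · simp
          · simp only [Finset.some_mem_insertNone, Finset.mem_insert, ne_eq, reduceCtorEq,
              not_false_eq_true, true_and, Sum.inl.injEq, Option.some.injEq, or_false, false_or]
            exact or_comm
        · rw [mem_H_inr, mem_H_inr]
          rcases hbool j with rfl | rfl
          · rw [hI₁]
            have h6 := (hz₁ Z hV.sub).1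
            have h7 := hpar hV.sub hV.even
            simp only [ne_eq, Sum.inr.injEq, Prod.mk.injEq, true_and, reduceCtorEq, false_or]
            constructor
            · rintro ⟨⟨h8, h9⟩ | ⟨rfl, rfl⟩ | ⟨rfl, rfl⟩, h10⟩
              · exact Or.inl ⟨h9, h8, h10⟩
              · exact Or.inr (Or.inl ⟨rfl, rfl⟩)
              · exact Or.inr (Or.inr ⟨rfl, rfl⟩)
            · rintro (⟨h9, h8, h10⟩ | ⟨rfl, rfl⟩ | ⟨rfl, rfl⟩)
              · exact ⟨Or.inl ⟨h8, h9⟩, h10⟩
              · exact ⟨Or.inr (Or.inl ⟨rfl, rfl⟩), h7⟩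
              · exact ⟨Or.inr (Or.inr ⟨rfl, rfl⟩), fun h => h7 (h6.1 h)⟩
          · rw [hI₀]
            have h6 := (hz₀ Z hV.sub).1
            simp only [ne_eq, Sum.inr.injEq, Prod.mk.injEq, hni, false_and, reduceCtorEq,
              not_false_eq_true, true_and, or_false]
            constructor
            · rintro ⟨⟨h8, h9⟩ | ⟨rfl, rfl⟩ | ⟨rfl, rfl⟩, h10⟩
              · exact ⟨h8, h10⟩
              · exact absurd hD h10
              · exact absurd (h6.2 hD) h10
            · rintro ⟨h8, h10⟩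
              refine ⟨Or.inl ⟨h8, ?_⟩, h10⟩
              rintro ⟨rfl, rfl⟩
              exact h10 hD
      have hB := hb1 (Vx Λ) (Ed Λ) sp.G (sp.H S Z) (W S) r₁ r₂ (sp.outV i p₁) (sp.inV i q₁)
        (sp.inV i (some u)) (sp.outV i (some u)) (Sum.inr (i, p₁, q₁)) (Sum.inr (i, p₁, some u))
        (Sum.inl (some u)) (Sum.inr (i, some u, q₁)) hend hW.1 hW.2 (huW _ rfl) (huW _ rfl)
        (in_ne_out sp i (some u)) hα₁ rfl (hnH _ (Or.inr (Or.inl ⟨i, p₁, rfl⟩)))
        (hnH _ (Or.inr (Or.inr rfl))) (hnH _ (Or.inl ⟨i, q₁, rfl⟩)) (by simp)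
        (by
          simp only [ne_eq, Sum.inr.injEq, Prod.mk.injEq, true_and, not_and]
          intro h
          exact absurd h (hpS _ _ _ hc₁).1) (by simp) rfl (ends_m sp i u) rfl
      rw [hH, W_insert sp i]
      exact hB
    · -- u is off D
      have hα₀ : (Sum.inr (!i, p₀, q₀) : Ed Λ) ∈ sp.H S Z := by
        rw [mem_H_inr]
        exact ⟨hc₀, hD⟩
      have hH : sp.H (insert u S) Z =
          ((sp.H S Z).erase (Sum.inr (!i, p₀, q₀))).erase (Sum.inr (i, p₁, q₁)) ∪
          {Sum.inr (!i, p₀, some u), Sum.inr (!i, some u, q₀), Sum.inr (i, p₁, some u),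
            Sum.inr (i, some u, q₁), Sum.inl (some u)} := by
        ext f
        rw [Finset.mem_union, Finset.mem_erase, Finset.mem_erase]
        simp only [Finset.mem_insert, Finset.mem_singleton]
        rcases f with a | ⟨j, a, b⟩
        · rw [mem_H_inl, mem_H_inl]
          rcases a with _ | x
          · simp
          · simp only [Finset.some_mem_insertNone, Finset.mem_insert, ne_eq, reduceCtorEq,
              not_false_eq_true, true_and, Sum.inl.injEq, Option.some.injEq, false_or]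
            exact or_comm
        · rw [mem_H_inr, mem_H_inr]
          rcases hbool j with rfl | rfl
          · rw [hI₁]
            have h6 := (hz₁ Z hV.sub).1
            have h7 := hpar hV.sub hV.even
            simp only [ne_eq, Sum.inr.injEq, Prod.mk.injEq, true_and, reduceCtorEq, or_false,
              hni.symm, false_and, not_false_eq_true, false_or]
            constructor
            · rintro ⟨⟨h8, h9⟩ | ⟨rfl, rfl⟩ | ⟨rfl, rfl⟩, h10⟩
              · exact Or.inl ⟨h9, h8, h10⟩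
              · exact Or.inr (Or.inl ⟨rfl, rfl⟩)
              · exact Or.inr (Or.inr ⟨rfl, rfl⟩)
            · rintro (⟨h9, h8, h10⟩ | ⟨rfl, rfl⟩ | ⟨rfl, rfl⟩)
              · exact ⟨Or.inl ⟨h8, h9⟩, h10⟩
              · exact ⟨Or.inr (Or.inl ⟨rfl, rfl⟩), h7⟩
              · exact ⟨Or.inr (Or.inr ⟨rfl, rfl⟩), fun h => h7 (h6.1 h)⟩
          · rw [hI₀]
            have h6 := (hz₀ Z hV.sub).1
            simp only [ne_eq, Sum.inr.injEq, Prod.mk.injEq, hni, false_and, reduceCtorEq,
              not_false_eq_true, true_and, or_false]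
            constructor
            · rintro ⟨⟨h8, h9⟩ | ⟨rfl, rfl⟩ | ⟨rfl, rfl⟩, h10⟩
              · exact Or.inl ⟨h9, h8, h10⟩
              · exact Or.inr (Or.inl ⟨rfl, rfl⟩)
              · exact Or.inr (Or.inr ⟨rfl, rfl⟩)
            · rintro (⟨h9, h8, h10⟩ | ⟨rfl, rfl⟩ | ⟨rfl, rfl⟩)
              · exact ⟨Or.inl ⟨h8, h9⟩, h10⟩
              · exact ⟨Or.inr (Or.inl ⟨rfl, rfl⟩), hD⟩
              · exact ⟨Or.inr (Or.inr ⟨rfl, rfl⟩), fun h => hD (h6.1 h)⟩
      -- no cut {ρ, m}
      have hpm : ∀ (Y : Finset (Vx Λ)) (ρ : Ed Λ), r₁ ∉ Y → r₂ ∉ Y →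
          (r₁ ∈ sp.G.ends ρ ∨ r₂ ∈ sp.G.ends ρ) →
          sp.H (insert u S) Z ∩ sp.G.cut Y ≠ {ρ, Sum.inl (some u)} := by
        intro Y ρ hY₁ hY₂ hρ hcon
        have hE := h5 Λ sp (insert u S) Z (hval hV) Y
        have hρc : ρ ∈ sp.H (insert u S) Z ∩ sp.G.cut Y := by
          rw [hcon]; simp
        rw [Finset.mem_inter] at hρc
        have hρn : ∀ a, ρ ≠ Sum.inl a := by
          rintro (_ | x) rfl
          · have h6 := (sp.G.mem_cut (ends_inl sp none)).1 hρc.2
            rcases h6 with ⟨h6, -⟩ | ⟨h6, -⟩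
            · exact hY₁ h6
            · exact hY₂ h6
          · rw [ends_inl, Sym2.mem_iff, Sym2.mem_iff] at hρ
            simp [r₁, r₂] at hρ
        have hset : ((sp.H (insert u S) Z).filter (fun e =>
            ¬(e = Sum.inl none ∨ ∃ x, e = Sum.inl (some x) ∧ x ∉ Z ∧ ¬sp.pb false Z x ∧
            ¬sp.pb true Z x))) ∩ sp.G.cut Y = {ρ} := by
          ext f
          rw [Finset.mem_inter, Finset.mem_filter, Finset.mem_singleton]
          constructor
          · rintro ⟨⟨h6, h7⟩, h8⟩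
            have h9 : f ∈ sp.H (insert u S) Z ∩ sp.G.cut Y := Finset.mem_inter.2 ⟨h6, h8⟩
            rw [hcon, Finset.mem_insert, Finset.mem_singleton] at h9
            rcases h9 with h9 | h9
            · exact h9
            · exfalso
              apply h7
              refine Or.inr ⟨u, h9, huZ hV, ?_⟩
              have h10 : ¬sp.pb i Z u := hpu hV.sub hV.even
              have h11 : ¬sp.pb (!i) Z u := fun h => hD ((hz₀ Z hV.sub).2.1 h)
              cases i
              · exact ⟨h10, h11⟩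
              · exact ⟨h11, h10⟩
          · rintro rfl
            refine ⟨⟨hρc.1, ?_⟩, hρc.2⟩
            rintro (h6 | ⟨x, h6, -⟩)
            · exact hρn _ h6
            · exact hρn _ h6
        have hE' := hE
        rw [hset, Finset.card_singleton] at hE'
        exact absurd hE' (by decide)
      have hncut : ∀ Y, sp.H S Z ∩ sp.G.cut Y ≠ {Sum.inr (!i, p₀, q₀), Sum.inr (i, p₁, q₁)} := by
        intro Y h
        rw [Finset.pair_comm] at h
        exact hcut Y _ p₀ q₀ hr hp₀ hq₀ h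
      have hα : (Sum.inr (!i, p₀, q₀) : Ed Λ) ≠ Sum.inr (i, p₁, q₁) := by
        simp [hni]
      have hn₀ := hpS _ _ _ hc₀
      have hn₁ := hpS _ _ _ hc₁
      have hdis : Disjoint (sp.H S Z) ({Sum.inr (!i, p₀, some u), Sum.inr (!i, some u, q₀),
          Sum.inr (i, p₁, some u), Sum.inr (i, some u, q₁), Sum.inl (some u)} :
            Finset (Ed Λ)) := by
        rw [Finset.disjoint_right]
        intro f hf
        apply hnH
        simp only [Finset.mem_insert, Finset.mem_singleton] at hf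
        rcases hf with rfl | rfl | rfl | rfl | rfl
        · exact Or.inr (Or.inl ⟨_, _, rfl⟩)
        · exact Or.inl ⟨_, _, rfl⟩
        · exact Or.inr (Or.inl ⟨_, _, rfl⟩)
        · exact Or.inl ⟨_, _, rfl⟩
        · exact Or.inr (Or.inr rfl)
      have hcard : ({Sum.inr (!i, p₀, some u), Sum.inr (!i, some u, q₀),
          Sum.inr (i, p₁, some u), Sum.inr (i, some u, q₁), Sum.inl (some u)} :
            Finset (Ed Λ)).card = 5 := by
        rw [Finset.card_insert_of_notMem, Finset.card_insert_of_notMem,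
          Finset.card_insert_of_notMem, Finset.card_insert_of_notMem, Finset.card_singleton]
        · simp
        · simp [hn₁.1]
        · simp [hni]
        · simp [hni, hn₀.1]
      rw [hH] at hpm
      rcases hroot with ⟨-, rfl⟩ | ⟨-, rfl⟩
      · -- first letter
        have hB := hb2 (Vx Λ) (Ed Λ) sp.G (sp.H S Z) (W S) r₁ r₂ (sp.outV (!i) p₀)
          (sp.inV (!i) q₀) (sp.outV i none) (sp.inV i q₁) (sp.inV (!i) (some u))
          (sp.outV (!i) (some u)) (sp.inV i (some u)) (sp.outV i (some u))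
          (Sum.inr (!i, p₀, q₀)) (Sum.inr (i, none, q₁)) (Sum.inr (!i, p₀, some u))
          (Sum.inr (!i, some u, q₀)) (Sum.inr (i, none, some u)) (Sum.inr (i, some u, q₁))
          (Sum.inl (some u)) hend hW.1 hW.2 (huW _ rfl) (huW _ rfl)
          (in_ne_out sp (!i) (some u)) hα₀ hα₁ hα rfl rfl hcard hdis (swapw sp i u) rfl rfl rfl
          rfl (ends_m sp (!i) u) hncut
        rw [hH, W_insert sp (!i)]
        exact ⟨hB.1, fun h => hB.2 h (Or.inl rfl) (fun Y ρ hY₁ hY₂ hρ => hpm Y ρ hY₁ hY₂ hρ)⟩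
      · -- last letter
        have hperm : ({Sum.inr (!i, p₀, some u), Sum.inr (!i, some u, q₀),
            Sum.inr (i, some u, none), Sum.inr (i, p₁, some u), Sum.inl (some u)} :
              Finset (Ed Λ)) = {Sum.inr (!i, p₀, some u), Sum.inr (!i, some u, q₀),
            Sum.inr (i, p₁, some u), Sum.inr (i, some u, none), Sum.inl (some u)} :=
          perm5 _ _ _ _ _
        have hB := hb2 (Vx Λ) (Ed Λ) sp.G (sp.H S Z) (W S) r₁ r₂ (sp.outV (!i) p₀)
          (sp.inV (!i) q₀) (sp.inV i none) (sp.outV i p₁) (sp.inV (!i) (some u))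
          (sp.outV (!i) (some u)) (sp.outV i (some u)) (sp.inV i (some u))
          (Sum.inr (!i, p₀, q₀)) (Sum.inr (i, p₁, none)) (Sum.inr (!i, p₀, some u))
          (Sum.inr (!i, some u, q₀)) (Sum.inr (i, some u, none)) (Sum.inr (i, p₁, some u))
          (Sum.inl (some u)) hend hW.1 hW.2 (huW _ rfl) (huW _ rfl)
          (in_ne_out sp (!i) (some u)) hα₀ hα₁ hα rfl
          (by rw [ends_inr, Sym2.eq_swap]) (by rw [hperm]; exact hcard)
          (by rw [hperm]; exact hdis)
          (by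
            rcases swapw sp i u with ⟨h6, h7⟩ | ⟨h6, h7⟩
            · exact Or.inr ⟨h7, h6⟩
            · exact Or.inl ⟨h7, h6⟩) rfl rfl
          (by rw [ends_inr, Sym2.eq_swap]) (by rw [ends_inr, Sym2.eq_swap])
          (ends_m sp (!i) u) hncut
        rw [hperm] at hB
        rw [hH, W_insert sp (!i)]
        exact ⟨hB.1, fun h => hB.2 h (Or.inr rfl) (fun Y ρ hY₁ hY₂ hρ => hpm Y ρ hY₁ hY₂ hρ)⟩
  exact ⟨fun h => ⟨hval h.1, (key h.1).1 h.2⟩, fun h => ⟨hval h.1, (key h.1).2 h.2⟩⟩

end Pool.GS
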