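import Pool.Agent.GSP.StmtsL
import Pool.Agent.GSP.StmtsA

/-!
ROAD S, module L2c: corner letters lift.
-/

set_option autoImplicit false

namespace Pool.GS

open Pool.GOD Pool.GS.SP

namespace L2cw

/-- No cut consists of the two edges at a vertex of degree 3 different from the third one. -/
lemma root_cut {V E : Type} [Fintype V] [DecidableEq V] [Fintype E] [DecidableEq E]
    (G : MGraph V E) (H : Finset E) (W : Finset V) (c c' : V) (α₀ α₁ m : E)
    (hm : G.ends m = s(c, c')) (hmH : m ∈ H) (h0 : c ∈ G.ends α₀) (h1 : c ∈ G.ends α₁)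
    (hall : ∀ e ∈ H, c ∈ G.ends e → e = α₀ ∨ e = α₁ ∨ e = m) (hne0 : m ≠ α₀) (hne1 : m ≠ α₁)
    (hcW : c ∈ W) (hcW' : c' ∈ W) (hT : TwoEC G H W) (Y : Finset V)
    (hY : H ∩ G.cut Y = {α₀, α₁}) : False := by
  have key : ∀ Y : Finset V, c ∉ Y → H ∩ G.cut Y = {α₀, α₁} → False := by
    intro Y hcY hY
    have hcc : c ≠ c' := G.ne_of_ends hm
    have hmY : m ∉ G.cut Y := by
      intro h
      have : m ∈ H ∩ G.cut Y := Finset.mem_inter.2 ⟨hmH, h⟩
      rw [hY, Finset.mem_insert, Finset.mem_singleton] at this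
      rcases this with h | h
      · exact hne0 h
      · exact hne1 h
    have hc'Y : c' ∉ Y := by
      intro h
      apply hmY
      rw [G.mem_cut hm]
      exact Or.inr ⟨h, hcY⟩
    have h2 := hT (insert c Y) ⟨c, hcW, Finset.mem_insert_self _ _⟩
      ⟨c', hcW', fun h => by
        rcases Finset.mem_insert.1 h with h | h
        · exact hcc h.symm
        · exact hc'Y h⟩
    have hin : ∀ α, c ∈ G.ends α → α ∈ H ∩ G.cut Y → α ∉ G.cut (insert c Y) := by
      intro α hcα hα hcut
      rw [Finset.mem_inter] at hα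
      obtain ⟨a, b, hab, hE⟩ := G.exists_ends α
      have hα2 := (G.mem_cut hE).1 hα.2
      have hcut2 := (G.mem_cut hE).1 hcut
      rw [hE, Sym2.mem_iff] at hcα
      rw [Finset.mem_insert, Finset.mem_insert] at hcut2
      rcases hcα with rfl | rfl
      · rcases hα2 with h | h
        · exact hcY h.1
        · rcases hcut2 with h' | h'
          · exact h'.2 (Or.inr h.1)
          · exact h'.2 (Or.inl rfl)
      · rcases hα2 with h | h
        · rcases hcut2 with h' | h'
          · exact h'.2 (Or.inl rfl)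
          · exact h'.2 (Or.inr h.1)
        · exact hcY h.1
    have hsub : H ∩ G.cut (insert c Y) ⊆ {m} := by
      intro f hf
      rw [Finset.mem_inter] at hf
      rw [Finset.mem_singleton]
      by_cases hcf : c ∈ G.ends f
      · rcases hall f hf.1 hcf with rfl | rfl | rfl
        · exact absurd hf.2 (hin _ h0 (by rw [hY]; simp))
        · exact absurd hf.2 (hin _ h1 (by rw [hY]; simp))
        · rfl
      · exfalso
        obtain ⟨a, b, hab, hE⟩ := G.exists_ends f
        have hcf' := hcf
        rw [hE, Sym2.mem_iff, not_or] at hcf'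
        have hcut := (G.mem_cut hE).1 hf.2
        rw [Finset.mem_insert, Finset.mem_insert] at hcut
        have hfY : f ∈ G.cut Y := by
          rw [G.mem_cut hE]
          rcases hcut with ⟨h, h'⟩ | ⟨h, h'⟩
          · refine Or.inl ⟨h.resolve_left (fun h => hcf'.1 h.symm), fun h'' => h' (Or.inr h'')⟩
          · refine Or.inr ⟨h.resolve_left (fun h => hcf'.2 h.symm), fun h'' => h' (Or.inr h'')⟩
        have : f ∈ H ∩ G.cut Y := Finset.mem_inter.2 ⟨hf.1, hfY⟩
        rw [hY, Finset.mem_insert, Finset.mem_singleton] at this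
        rcases this with rfl | rfl
        · exact hcf h0
        · exact hcf h1
    have h3 := Finset.card_le_card hsub
    rw [Finset.card_singleton] at h3
    omega
  by_cases hc : c ∈ Y
  · exact key Yᶜ (by simpa using hc) (by rw [G.cut_compl]; exact hY)
  · exact key Y hc hY

variable {Λ : Type} [Fintype Λ] [DecidableEq Λ] (sp : SP Λ)

lemma ends_inl (a : Option Λ) : sp.G.ends (Sum.inl a) = s((a, false), (a, true)) := rfl

lemma ends_inr (i : Bool) (a b : Option Λ) :
    sp.G.ends (Sum.inr (i, a, b)) = s(sp.outV i a, sp.inV i b) := rfl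

/-- the edges of `H_D` at `r₁` -/
lemma at_r1 (S Z : Finset Λ) (f : Ed Λ) (hf : f ∈ sp.H S Z)
    (hr : (none, false) ∈ sp.G.ends f) :
    f = Sum.inl none ∨ ∃ i b, f = Sum.inr (i, none, b) ∧ sp.Cons i S none b := by
  rcases f with a | ⟨i, a, b⟩
  · rw [ends_inl, Sym2.mem_iff] at hr
    left
    rcases hr with h | h
    · rw [Prod.mk.injEq] at h
      rw [← h.1]
    · rw [Prod.mk.injEq] at h
      rw [← h.1]
  · right
    rw [ends_inr, Sym2.mem_iff] at hr
    rw [SP.mem_H_inr] at hf
    rcases hr with h | h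
    · unfold SP.outV at h
      rw [Prod.mk.injEq] at h
      obtain ⟨rfl, -⟩ := h
      exact ⟨i, b, rfl, hf.1⟩
    · unfold SP.inV at h
      rw [Prod.mk.injEq] at h
      obtain ⟨rfl, h⟩ := h
      simp [SP.oo] at h

/-- the edges of `H_D` at `r₂` -/
lemma at_r2 (S Z : Finset Λ) (f : Ed Λ) (hf : f ∈ sp.H S Z)
    (hr : (none, true) ∈ sp.G.ends f) :
    f = Sum.inl none ∨ ∃ i a, f = Sum.inr (i, a, none) ∧ sp.Cons i S a none := by
  rcases f with a | ⟨i, a, b⟩
  · rw [ends_inl, Sym2.mem_iff] at hr
    left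
    rcases hr with h | h
    · rw [Prod.mk.injEq] at h
      rw [← h.1]
    · rw [Prod.mk.injEq] at h
      rw [← h.1]
  · right
    rw [ends_inr, Sym2.mem_iff] at hr
    rw [SP.mem_H_inr] at hf
    rcases hr with h | h
    · unfold SP.outV at h
      rw [Prod.mk.injEq] at h
      obtain ⟨rfl, h⟩ := h
      simp [SP.oo] at h
    · unfold SP.inV at h
      rw [Prod.mk.injEq] at h
      obtain ⟨rfl, -⟩ := h
      exact ⟨i, a, rfl, hf.1⟩

/-- the condition of `S_L1` -/
lemma cond (h1 : S_A1) (e : Bool) (S Z : Finset Λ) (u : Λ) (hx : sp.Ext true e S u)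
    (hT : TwoEC sp.G (sp.H S Z) (W S)) (Y : Finset (Vx Λ)) (ρ : Ed Λ) (p q : Option Λ)
    (hρ : rArc false e ρ) (hp : lt (sp.k true) p (some u)) (hq : lt (sp.k true) (some u) q)
    (hY : sp.H S Z ∩ sp.G.cut Y = {ρ, Sum.inr (true, p, q)}) : False := by
  have hmem : (none : Option Λ) ∈ Finset.insertNone S := by simp
  have hα : Sum.inr (true, p, q) ∈ sp.H S Z := by
    have : (Sum.inr (true, p, q) : Ed Λ) ∈ sp.H S Z ∩ sp.G.cut Y := by rw [hY]; simp
    exact (Finset.mem_inter.1 this).1
  have hρH : ρ ∈ sp.H S Z := by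
    have : ρ ∈ sp.H S Z ∩ sp.G.cut Y := by rw [hY]; simp
    exact (Finset.mem_inter.1 this).1
  have hα' := (SP.mem_H_inr sp).1 hα
  have hmH : (Sum.inl none : Ed Λ) ∈ sp.H S Z := (SP.mem_H_inl sp).2 hmem
  have hW1 : ((none, false) : Vx Λ) ∈ W S := by simp [W]
  have hW2 : ((none, true) : Vx Λ) ∈ W S := by simp [W]
  have hends1 : sp.G.ends (Sum.inl none) = s((none, false), (none, true)) := rfl
  have hends2 : sp.G.ends (Sum.inl none) = s((none, true), (none, false)) := by
    rw [hends1, Sym2.eq_swap]
  cases e with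
  | false =>
    have hpn : p = none := by
      rcases p with _ | x
      · rfl
      · exfalso
        have hxS := Finset.some_mem_insertNone.1 hα'.1.1
        have h2 := (hx x hxS).1 rfl
        have h3 := hp x u rfl rfl
        omega
    subst hpn
    rcases hρ with ⟨-, b, rfl⟩ | ⟨h, -⟩
    swap
    · exact absurd h (by simp)
    have hρ' := (SP.mem_H_inr sp).1 hρH
    refine root_cut sp.G (sp.H S Z) (W S) (none, false) (none, true) (Sum.inr (false, none, b))
      (Sum.inr (true, none, q)) (Sum.inl none) hends1 hmH ?_ ?_ ?_ (by simp) (by simp) hW1 hW2 hT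
      Y hY
    · rw [ends_inr, Sym2.mem_iff]
      exact Or.inl rfl
    · rw [ends_inr, Sym2.mem_iff]
      exact Or.inl rfl
    · intro f hf hr
      rcases at_r1 sp S Z f hf hr with rfl | ⟨i, b', rfl, hc⟩
      · exact Or.inr (Or.inr rfl)
      · cases i with
        | false =>
          have := ((h1 Λ sp false S).1 none hmem).unique hc hρ'.1
          subst this
          exact Or.inl rfl
        | true =>
          have := ((h1 Λ sp true S).1 none hmem).unique hc hα'.1
          subst this
          exact Or.inr (Or.inl rfl)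
  | true =>
    have hqn : q = none := by
      rcases q with _ | x
      · rfl
      · exfalso
        have hxS := Finset.some_mem_insertNone.1 hα'.1.2.1
        have h2 := (hx x hxS).2 rfl
        have h3 := hq u x rfl rfl
        omega
    subst hqn
    rcases hρ with ⟨h, -⟩ | ⟨-, a, rfl⟩
    · exact absurd h (by simp)
    have hρ' := (SP.mem_H_inr sp).1 hρH
    refine root_cut sp.G (sp.H S Z) (W S) (none, true) (none, false) (Sum.inr (false, a, none))
      (Sum.inr (true, p, none)) (Sum.inl none) hends2 hmH ?_ ?_ ?_ (by simp) (by simp) hW2 hW1 hT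
      Y hY
    · rw [ends_inr, Sym2.mem_iff]
      exact Or.inr rfl
    · rw [ends_inr, Sym2.mem_iff]
      exact Or.inr rfl
    · intro f hf hr
      rcases at_r2 sp S Z f hf hr with rfl | ⟨i, a', rfl, hc⟩
      · exact Or.inr (Or.inr rfl)
      · cases i with
        | false =>
          have := ((h1 Λ sp false S).2 none hmem).unique hc hρ'.1
          subst this
          exact Or.inl rfl
        | true =>
          have := ((h1 Λ sp true S).2 none hmem).unique hc hα'.1
          subst this
          exact Or.inr (Or.inl rfl)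

/-- an extreme letter is passed by no arc of `D` -/
lemma not_pb (i e : Bool) (S Z : Finset Λ) (u : Λ) (hZ : sp.Val S Z) (hx : sp.Ext i e S u) :
    ¬ sp.pb i Z u := by
  unfold SP.pb
  cases e with
  | false =>
    have : Z.filter (fun z => sp.k i z < sp.k i u) = ∅ := by
      rw [Finset.filter_eq_empty_iff]
      intro z hz h
      have := (hx z (hZ.sub hz)).1 rfl
      omega
    rw [this]
    simp
  | true =>
    have : Z.filter (fun z => sp.k i z < sp.k i u) = Z := by
      rw [Finset.filter_eq_self]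
      intro z hz
      exact (hx z (hZ.sub hz)).2 rfl
    rw [this]
    exact Nat.not_odd_iff_even.2 hZ.even

end L2cw

open L2cw

theorem t_L2c (h1 : S_A1) (hl1 : S_L1) : S_L2c := by
  intro Λ _ _ sp e S Z u hu hx0 hx1
  have hlift := fun hT => hl1 Λ sp false e S Z u hu hx0
    (fun Y ρ p q hρ hp hq hY => cond sp h1 e S Z u hx1 hT Y ρ p q hρ hp hq hY)
  refine ⟨fun hG => ⟨(hlift hG.2).1 hG, fun h => hu (hG.1.sub h),
    not_pb sp false e S Z u hG.1 hx0, not_pb sp true e S Z u hG.1 hx1⟩,
    fun hL => (hlift hL.2.1).2 hL⟩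

end Pool.GS
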