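import Pool.Agent.GSP.StmtsA
import Pool.Agent.GSP.StmtsL

/-!
L3c: a letter off `D` which is extreme at a side makes this side secure.
-/

set_option autoImplicit false

namespace Pool.GS

open Pool.GOD Pool.GS.SP

/-- **L3c**: a letter off `D` which is extreme at the side `(i, e)` makes this side secure. -/
theorem t_L3c (h1 : S_A1) (hl0 : S_L0) : S_L3c := by
  intro Λ _ _ sp i e S Z u hu hext hoff hL Y ρ a b hρ hcut
  obtain ⟨Y', hY, hr1, hr2, -, hall⟩ := hl0 Λ sp i e S Z Y ρ (!i) a b hL hρ hcut
  have hmem : ρ ∈ sp.H S Z ∩ sp.G.cut Y' := by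
    rw [hY]
    exact Finset.mem_insert_self _ _
  obtain ⟨hH, hC⟩ := Finset.mem_inter.1 hmem
  have hus : some u ∈ Finset.insertNone S := Finset.some_mem_insertNone.2 hu
  have hn : (none : Option Λ) ∈ Finset.insertNone S := Finset.none_mem_insertNone
  rcases hρ with ⟨he, d, rfl⟩ | ⟨he, d, rfl⟩
  · have hcons : sp.Cons i S none (some u) := by
      refine ⟨hn, hus, fun x y hx _ => ?_, fun z hz hc => ?_⟩
      · cases hx
      · have h2 := hc.2 z u rfl rfl
        have h3 : z ≠ u := by
          rintro rfl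
          exact lt_irrefl _ h2
        have h4 := (hext z (Finset.mem_erase.2 ⟨h3, hz⟩)).1 he
        exact lt_irrefl _ (h2.trans h4)
    have hd : d = some u := ((h1 Λ sp i S).1 none hn).unique (mem_H_inr sp |>.1 hH).1 hcons
    subst hd
    have hends : sp.G.ends (Sum.inr (i, none, some u)) =
        s(sp.outV i none, sp.inV i (some u)) := rfl
    rcases (sp.G.mem_cut hends).1 hC with ⟨h5, -⟩ | ⟨h5, -⟩
    · exact hr1 h5
    · exact (hall u _ h5).2 hoff
  · have hcons : sp.Cons i S (some u) none := by
      refine ⟨hus, hn, fun x y _ hy => ?_, fun z hz hc => ?_⟩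
      · cases hy
      · have h2 := hc.1 u z rfl rfl
        have h3 : z ≠ u := by
          rintro rfl
          exact lt_irrefl _ h2
        have h4 := (hext z (Finset.mem_erase.2 ⟨h3, hz⟩)).2 he
        exact lt_irrefl _ (h2.trans h4)
    have hd : d = some u := ((h1 Λ sp i S).2 none hn).unique (mem_H_inr sp |>.1 hH).1 hcons
    subst hd
    have hends : sp.G.ends (Sum.inr (i, some u, none)) =
        s(sp.outV i (some u), sp.inV i none) := rfl
    rcases (sp.G.mem_cut hends).1 hC with ⟨h5, -⟩ | ⟨h5, -⟩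
    · exact (hall u _ h5).2 hoff
    · exact hr2 h5

end Pool.GS
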