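import Pool.Agent.GSP.StmtsA
import Pool.Agent.GSP.StmtsL

/-!
ROAD S, part L4: filling at a secure side.
-/

set_option autoImplicit false
set_option linter.unusedSectionVars false

namespace Pool.GS

open Pool.GOD Pool.GS.SP

theorem t_L4 (h3a : S_L3a) (h3b : S_L3b) : S_L4 := by
  intro Λ _ _ sp i e A S Z hAS hb hL hs
  obtain ⟨n, hn⟩ : ∃ n, (S \ A).card = n := ⟨_, rfl⟩
  induction n generalizing A with
  | zero =>
    rw [Finset.card_eq_zero, Finset.sdiff_eq_empty_iff_subset] at hn
    obtain rfl : A = S := Finset.Subset.antisymm hAS hn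
    exact ⟨hL, fun _ _ h => h⟩
  | succ n ih =>
    have hne : (S \ A).Nonempty := by
      rw [← Finset.card_pos]
      omega
    obtain ⟨u, hu, hu'⟩ : ∃ u ∈ S \ A, ∀ x ∈ S \ A,
        (e = true → sp.k i u ≤ sp.k i x) ∧ (e = false → sp.k i x ≤ sp.k i u) := by
      cases e
      · obtain ⟨u, hu, h⟩ := Finset.exists_max_image (S \ A) (sp.k i) hne
        exact ⟨u, hu, fun x hx => ⟨fun he => by simp at he, fun _ => h x hx⟩⟩
      · obtain ⟨u, hu, h⟩ := Finset.exists_min_image (S \ A) (sp.k i) hne
        exact ⟨u, hu, fun x hx => ⟨fun _ => h x hx, fun he => by simp at he⟩⟩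
    rw [Finset.mem_sdiff] at hu
    have hext : sp.Ext i e A u := by
      intro x hx
      have := hb x hx u hu.1 hu.2
      exact ⟨fun he => this.2 he, fun he => this.1 he⟩
    have h1 := h3a Λ sp i e A Z u hu.2 hext hL hs
    have h2 : ∀ i' e', sp.Secure A Z i' e' → sp.Secure (insert u A) Z i' e' :=
      fun i' e' h => h3b Λ sp i' e' i e A Z u hu.2 hext hL h1 h
    have hsub : insert u A ⊆ S := by
      intro x hx
      rcases Finset.mem_insert.mp hx with rfl | hx
      · exact hu.1
      · exact hAS hx
    have hcard : (S \ insert u A).card = n := by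
      have h3 : (S \ A) = insert u (S \ insert u A) := by
        ext x
        simp only [Finset.mem_sdiff, Finset.mem_insert]
        constructor
        · rintro ⟨h3, h4⟩
          by_cases hx : x = u
          · exact Or.inl hx
          · exact Or.inr ⟨h3, by rintro (h | h); exacts [hx h, h4 h]⟩
        · rintro (rfl | ⟨h3, h4⟩)
          · exact hu
          · exact ⟨h3, fun h => h4 (Or.inr h)⟩
      rw [h3, Finset.card_insert_of_notMem (by simp)] at hn
      omega
    obtain ⟨h5, h6⟩ := ih (insert u A) hsub (by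
      intro a ha x hx hxA
      have hxA' : x ∉ A := fun h => hxA (Finset.mem_insert_of_mem h)
      have hxu : x ≠ u := fun h => hxA (Finset.mem_insert.mpr (Or.inl h))
      rcases Finset.mem_insert.mp ha with rfl | ha
      · have h7 := hu' x (Finset.mem_sdiff.mpr ⟨hx, hxA'⟩)
        have h8 : sp.k i x ≠ sp.k i a := fun h => hxu (sp.inj i h)
        exact ⟨fun he => lt_of_le_of_ne (h7.1 he) (Ne.symm h8),
          fun he => lt_of_le_of_ne (h7.2 he) h8⟩
      · exact hb a ha x hx hxA') h1 (h2 i e hs) hcard
    exact ⟨h5, fun i' e' h => h6 i' e' (h2 i' e' h)⟩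

end Pool.GS
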