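import Pool.Agent.GSP.DefsST

/-!
MP_7b7176_co, ROAD S: good circuits lift over a removed letter of type `Tw`, `Fst`, `Lst`.
-/

set_option autoImplicit false
set_option linter.unusedSectionVars false

namespace Pool.GS

namespace SP

variable {Λ : Type} [Fintype Λ] [DecidableEq Λ] (sp : SP Λ)

/-- Restriction of a bridge colouring. -/
lemma Br.restrict {S T Z : Finset Λ} {z : Option Λ} {χ : Vx Λ → Bool} (h : sp.Br S Z z χ)
    (hT : T ⊆ S) (hZ : Z ⊆ T) (hz : z ∈ Finset.insertNone T) : sp.Br T Z z χ := by
  have hsub : ∀ {a : Option Λ}, a ∈ Finset.insertNone T → a ∈ Finset.insertNone S := by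
    intro a ha
    rcases a with _ | x
    · simp
    · rw [mem_ins] at ha ⊢
      exact hT ha
  refine ⟨fun a ha haz => h.m a (hsub ha) haz, ?_, h.cut⟩
  rintro i a b ⟨ha, hb, hab, hn⟩ hpa
  refine h.path sp i (hsub ha) (hsub hb) hab (fun w hw => hn w (hZ hw)) hpa ?_
  rintro w rfl
  exact hn w (mem_ins.mp hz)

/-- The flip at one vertex `t`. -/
lemma Br.flip {S Z : Finset Λ} {l : Λ} {χ : Vx Λ → Bool} (h : sp.Br S Z (some l) χ) (hl : l ∈ S)
    (hZ : Z ⊆ S.erase l) (t : Vx Λ)
    (H : ∀ i a b, sp.Cons i (S.erase l) a b → ((sp.outV i a = t ∨ sp.inV i b = t) ↔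
      (lt (sp.k i) a (some l) ∧ lt (sp.k i) (some l) b))) (htl : t.1 ≠ some l)
    (htS : t.1 ∈ Finset.insertNone S) :
    sp.Br (S.erase l) Z t.1 (fun v => if v = t then !χ v else χ v) := by
  have hsub : ∀ {a : Option Λ}, a ∈ Finset.insertNone (S.erase l) →
      a ∈ Finset.insertNone S ∧ a ≠ some l := by
    intro a ha
    rcases a with _ | x
    · simp
    · rw [mem_ins, Finset.mem_erase] at ha
      exact ⟨mem_ins.mpr ha.2, by simpa using ha.1⟩
  refine ⟨?_, ?_, ?_⟩
  · intro a ha hat
    have h1 : ∀ c, (a, c) ≠ t := by
      rintro c rfl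
      exact hat rfl
    simp only [h1, if_false]
    exact h.m a (hsub ha).1 (hsub ha).2
  · rintro i a b hc hpa
    have h1 := H i a b hc
    have hne : ¬(sp.outV i a = t ∧ sp.inV i b = t) := by
      rintro ⟨h2, h3⟩
      have h4 : a = b := by
        have := congrArg Prod.fst (h2.trans h3.symm)
        simpa [outV, inV] using this
      subst h4
      rw [← h3] at h2
      simp [outV, inV] at h2
    obtain ⟨ha, hb, hab, hn⟩ := hc
    by_cases hlb : lt (sp.k i) a (some l) ∧ lt (sp.k i) (some l) b
    · have h2 := h.path_cross sp hl i (hsub ha).1 (hsub hb).1 (fun w hw => hn w (hZ hw)) hpa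
        hlb.1 hlb.2
      rcases h1.mpr hlb with h3 | h3
      · have h4 : sp.inV i b ≠ t := fun h5 => hne ⟨h3, h5⟩
        simp only [h4, h3, if_true, if_false]
        rw [h3] at h2
        revert h2
        cases χ t <;> cases χ (sp.inV i b) <;> simp
      · have h4 : sp.outV i a ≠ t := fun h5 => hne ⟨h5, h3⟩
        simp only [h4, h3, if_true, if_false]
        rw [h3] at h2
        revert h2
        cases χ t <;> cases χ (sp.outV i a) <;> simp
    · have h2 : sp.outV i a ≠ t := fun h3 => hlb (h1.mp (Or.inl h3))
      have h3 : sp.inV i b ≠ t := fun h3 => hlb (h1.mp (Or.inr h3))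
      simp only [h2, h3, if_false]
      refine h.arc i a b ⟨(hsub ha).1, (hsub hb).1, hab, ?_⟩ hpa
      intro w hw hwb
      by_cases hwl : w = l
      · exact hlb (hwl ▸ hwb)
      · exact hn w (Finset.mem_erase.mpr ⟨hwl, hw⟩) hwb
  · have h1 := h.m t.1 htS htl
    obtain ⟨a, c⟩ := t
    cases c
    · simp only [Prod.mk.injEq, true_and, Bool.true_eq_false, if_false]
      simp only at h1
      rw [h1]
      cases χ (a, true) <;> simp
    · simp only [Prod.mk.injEq, true_and, Bool.false_eq_true, if_false]
      simp only at h1
      rw [h1]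
      cases χ (a, true) <;> simp

/-- `Val` lifts. -/
lemma Val.lift {S Z : Finset Λ} {l : Λ} (h : sp.Val (S.erase l) Z)
    (hl : ¬(sp.pb false Z l ∧ sp.pb true Z l)) : sp.Val S Z := by
  refine ⟨h.sub.trans (Finset.erase_subset _ _), h.ne, h.even, ?_, h.on⟩
  intro x hx hxZ
  by_cases hxl : x = l
  · subst hxl
    exact hl
  · exact h.off x (Finset.mem_erase.mpr ⟨hxl, hx⟩) hxZ

lemma pb_iff_lift (i : Bool) (Z : Finset Λ) (x : Λ) :
    sp.pb i Z x ↔ Odd (Z.filter (fun z => sp.k i z < sp.k i x)).card := Iff.rfl

/-- parity after / before a letter -/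
lemma pa_of_mem' {i : Bool} {Z : Finset Λ} {x : Λ} (hx : x ∈ Z) :
    sp.pa i Z (some x) ↔ ¬sp.pb i Z x := by
  rw [pa_some, pb_iff_lift]
  have : (Z.filter (fun z => sp.k i z ≤ sp.k i x)) =
      insert x (Z.filter (fun z => sp.k i z < sp.k i x)) := by
    ext z
    simp only [Finset.mem_filter, Finset.mem_insert]
    constructor
    · rintro ⟨h1, h2⟩
      rcases h2.lt_or_eq with h3 | h3
      · exact Or.inr ⟨h1, h3⟩
      · exact Or.inl (sp.inj i h3)
    · rintro (rfl | ⟨h1, h2⟩)
      · exact ⟨hx, le_refl _⟩
      · exact ⟨h1, h2.le⟩
  rw [this, Finset.card_insert_of_notMem (by simp), Nat.odd_add_one]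

lemma pa_of_notMem' {i : Bool} {Z : Finset Λ} {x : Λ} (hx : x ∉ Z) :
    sp.pa i Z (some x) ↔ sp.pb i Z x := by
  rw [pa_some, pb_iff_lift]
  have : (Z.filter (fun z => sp.k i z ≤ sp.k i x)) = (Z.filter (fun z => sp.k i z < sp.k i x)) := by
    apply Finset.filter_congr
    intro z hz
    constructor
    · intro h2
      rcases h2.lt_or_eq with h3 | h3
      · exact h3
      · exact absurd (sp.inj i h3 ▸ hz) hx
    · exact le_of_lt
  rw [this]

/-- The parity before a neighbour `l` of `p`. -/
lemma pb_nbr {i : Bool} {S Z : Finset Λ} {p l : Λ} (hZ : Z ⊆ S.erase l) (hpl : p ≠ l)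
    (hn : ∀ z ∈ S, ¬(sp.k i p < sp.k i z ∧ sp.k i z < sp.k i l) ∧
      ¬(sp.k i l < sp.k i z ∧ sp.k i z < sp.k i p)) :
    sp.pb i Z l ↔ (if sp.k i p < sp.k i l then sp.pa i Z (some p) else sp.pb i Z p) := by
  have hkl : sp.k i p ≠ sp.k i l := fun h => hpl (sp.inj i h)
  split_ifs with hlt
  · rw [pa_some, pb_iff_lift]
    have : (Z.filter (fun z => sp.k i z < sp.k i l)) = (Z.filter (fun z => sp.k i z ≤ sp.k i p)) := by
      apply Finset.filter_congr
      intro z hz
      have := (hn z (Finset.mem_of_mem_erase (hZ hz))).1
      constructor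
      · intro h1
        by_contra h2
        exact this ⟨by omega, h1⟩
      · intro h1
        omega
    rw [this]
  · rw [pb_iff_lift, pb_iff_lift]
    have : (Z.filter (fun z => sp.k i z < sp.k i l)) = (Z.filter (fun z => sp.k i z < sp.k i p)) := by
      apply Finset.filter_congr
      intro z hz
      have h0 := (hn z (Finset.mem_of_mem_erase (hZ hz))).2
      have h1 : sp.k i z ≠ sp.k i l := fun h => (Finset.ne_of_mem_erase (hZ hz)) (sp.inj i h)
      constructor
      · intro h2
        omega
      · intro h2
        by_contra h3
        exact h0 ⟨by omega, h2⟩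
    rw [this]

/-- Lifting over the leaf of a twin. -/
theorem gd_tw {S Z : Finset Λ} {p l : Λ} (h : sp.Tw S p l) (hg : sp.Gd (S.erase l) Z) :
    sp.Gd S Z := by
  obtain ⟨hp, hl, hpl, hn, hs⟩ := h
  obtain ⟨hV, hB⟩ := hg
  have hZ := hV.sub
  have hlZ : l ∉ Z := fun h => (Finset.ne_of_mem_erase (hZ h)) rfl
  have hkl : ∀ i, sp.k i p ≠ sp.k i l := fun i h => hpl (sp.inj i h)
  refine ⟨hV.lift sp ?_, ?_⟩
  · rw [sp.pb_nbr hZ hpl (hn false), sp.pb_nbr hZ hpl (hn true)]
    have hoff := hV.off p (Finset.mem_erase.mpr ⟨hpl, hp⟩)
    by_cases hpZ : p ∈ Z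
    · have hon := hV.on p hpZ
      rw [sp.pa_of_mem' hpZ, sp.pa_of_mem' hpZ]
      split_ifs <;> tauto
    · rw [sp.pa_of_notMem' hpZ, sp.pa_of_notMem' hpZ]
      have := hoff hpZ
      split_ifs <;> tauto
  · intro z hz χ hχ
    by_cases hzl : z = some l
    · subst hzl
      -- the end of `p` facing `l`
      let t : Vx Λ := (some p, if sp.k false p < sp.k false l then sp.o false p else !sp.o false p)
      have ht : ∀ i, t = (some p, if sp.k i p < sp.k i l then sp.o i p else !sp.o i p) := by
        intro i
        cases i
        · rfl
        · simp only [t, Prod.mk.injEq, true_and]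
          revert hs
          by_cases h1 : sp.k false p < sp.k false l <;> by_cases h2 : sp.k true p < sp.k true l <;>
            simp only [h1, h2, if_true, if_false] <;>
            cases sp.o false p <;> cases sp.o true p <;> simp
      refine hB t.1 ?_ _ (hχ.flip sp hl hZ t ?_ ?_ ?_)
      · simp [t, hpl, hp]
      · rintro i a b ⟨ha, hb, hab, hc⟩
        rw [ht i]
        have hpe : p ∈ S.erase l := Finset.mem_erase.mpr ⟨hpl, hp⟩
        rcases lt_or_gt_of_ne (hkl i) with hlt | hlt
        · -- `p` before `l`
          simp only [hlt, if_true]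
          constructor
          · rintro (h1 | h1)
            · obtain rfl : a = some p := by
                have := congrArg Prod.fst h1
                simpa [outV] using this
              refine ⟨by simpa using hlt, ?_⟩
              rcases b with _ | y
              · simp
              · rw [lt_some] at hab ⊢
                rw [mem_ins, Finset.mem_erase] at hb
                by_contra h2
                have h3 : sp.k i y ≠ sp.k i l := fun h => hb.1 (sp.inj i h)
                exact (hn i y hb.2).1 ⟨hab, by omega⟩
            · exfalso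
              rcases b with _ | y
              · simp [inV] at h1
              · simp only [inV, Prod.mk.injEq, oo, Option.some.injEq] at h1
                obtain ⟨rfl, h1⟩ := h1
                revert h1
                cases sp.o i y <;> simp
          · rintro ⟨h1, h2⟩
            left
            have : a = some p := by
              by_contra h3
              refine hc p hpe ⟨?_, ?_⟩
              · rcases a with _ | x
                · simp
                · rw [lt_some] at h1 ⊢
                  rw [mem_ins, Finset.mem_erase] at ha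
                  have h4 : sp.k i x ≠ sp.k i p := fun h => h3 (by rw [sp.inj i h])
                  by_contra h5
                  exact (hn i x ha.2).1 ⟨by omega, h1⟩
              · exact lt_trans' (by simpa using hlt) h2
            subst this
            simp [outV, oo]
        · have hlt' : ¬sp.k i p < sp.k i l := by omega
          simp only [hlt', if_false]
          constructor
          · rintro (h1 | h1)
            · exfalso
              rcases a with _ | y
              · simp [outV] at h1
              · simp only [outV, Prod.mk.injEq, oo, Option.some.injEq] at h1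
                obtain ⟨rfl, h1⟩ := h1
                revert h1
                cases sp.o i y <;> simp
            · obtain rfl : b = some p := by
                have := congrArg Prod.fst h1
                simpa [inV] using this
              refine ⟨?_, by simpa using hlt⟩
              rcases a with _ | y
              · simp
              · rw [lt_some] at hab ⊢
                rw [mem_ins, Finset.mem_erase] at ha
                by_contra h2
                have h3 : sp.k i y ≠ sp.k i l := fun h => ha.1 (sp.inj i h)
                exact (hn i y ha.2).2 ⟨by omega, hab⟩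
          · rintro ⟨h1, h2⟩
            right
            have : b = some p := by
              by_contra h3
              refine hc p hpe ⟨?_, ?_⟩
              · exact lt_trans' h1 (by simpa using hlt)
              · rcases b with _ | x
                · simp
                · rw [lt_some] at h2 ⊢
                  rw [mem_ins, Finset.mem_erase] at hb
                  have h4 : sp.k i x ≠ sp.k i p := fun h => h3 (by rw [sp.inj i h])
                  by_contra h5
                  exact (hn i x hb.2).2 ⟨h2, by omega⟩
            subst this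
            simp [inV, oo]
      · simp [t, hpl]
      · simp [t, hp]
    · refine hB z ?_ χ (hχ.restrict sp (Finset.erase_subset _ _) hZ ?_)
      all_goals
        rcases z with _ | x
        · simp
        · rw [mem_ins] at hz ⊢
          exact Finset.mem_erase.mpr ⟨by simpa using hzl, hz⟩

/-- Lifting over a letter which is the first one of both paths. -/
theorem gd_fst {S Z : Finset Λ} {a : Λ} (h : sp.Fst S a) (hg : sp.Gd (S.erase a) Z) :
    sp.Gd S Z := by
  obtain ⟨haS, hn⟩ := h
  obtain ⟨hV, hB⟩ := hg
  have hZ := hV.sub
  refine ⟨hV.lift sp ?_, ?_⟩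
  · rintro ⟨h1, -⟩
    rw [pb_iff_lift] at h1
    have : (Z.filter (fun z => sp.k false z < sp.k false a)) = ∅ := by
      rw [Finset.filter_eq_empty_iff]
      intro z hz h2
      have h3 := Finset.mem_erase.mp (hZ hz)
      have := hn z h3.2 h3.1 false
      omega
    rw [this] at h1
    simp at h1
  · intro z hz χ hχ
    by_cases hzl : z = some a
    · subst hzl
      refine hB none (by simp) _ (hχ.flip sp haS hZ (none, false) ?_ (by simp) (by simp))
      rintro i c d ⟨hc, hd, hcd, hcn⟩
      rcases c with _ | x
      · simp only [outV, oo, true_or, lt_none_left, true_and, true_iff]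
        rcases d with _ | y
        · simp
        · rw [lt_some]
          rw [mem_ins, Finset.mem_erase] at hd
          exact hn y hd.2 hd.1 i
      · rw [mem_ins, Finset.mem_erase] at hc
        have := hn x hc.2 hc.1 i
        rw [lt_some]
        constructor
        · rintro (h1 | h1)
          · simp [outV] at h1
          · rcases d with _ | y
            · simp [inV, oo] at h1
            · simp [inV] at h1
        · rintro ⟨h1, -⟩
          omega
    · refine hB z ?_ χ (hχ.restrict sp (Finset.erase_subset _ _) hZ ?_)
      all_goals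
        rcases z with _ | x
        · simp
        · rw [mem_ins] at hz ⊢
          exact Finset.mem_erase.mpr ⟨by simpa using hzl, hz⟩

/-- Lifting over a letter which is the last one of both paths. -/
theorem gd_lst {S Z : Finset Λ} {a : Λ} (h : sp.Lst S a) (hg : sp.Gd (S.erase a) Z) :
    sp.Gd S Z := by
  obtain ⟨haS, hn⟩ := h
  obtain ⟨hV, hB⟩ := hg
  have hZ := hV.sub
  refine ⟨hV.lift sp ?_, ?_⟩
  · rintro ⟨h1, -⟩
    rw [pb_iff_lift] at h1
    have : (Z.filter (fun z => sp.k false z < sp.k false a)) = Z := by
      rw [Finset.filter_eq_self]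
      intro z hz
      have h3 := Finset.mem_erase.mp (hZ hz)
      exact hn z h3.2 h3.1 false
    rw [this] at h1
    exact (Nat.not_odd_iff_even.mpr hV.even) h1
  · intro z hz χ hχ
    by_cases hzl : z = some a
    · subst hzl
      refine hB none (by simp) _ (hχ.flip sp haS hZ (none, true) ?_ (by simp) (by simp))
      rintro i c d ⟨hc, hd, hcd, hcn⟩
      rcases d with _ | x
      · simp only [inV, oo, Bool.not_false, or_true, lt_none_right, and_true, true_iff]
        rcases c with _ | y
        · simp
        · rw [lt_some]
          rw [mem_ins, Finset.mem_erase] at hc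
          exact hn y hc.2 hc.1 i
      · rw [mem_ins, Finset.mem_erase] at hd
        have := hn x hd.2 hd.1 i
        rw [lt_some]
        constructor
        · rintro (h1 | h1)
          · rcases c with _ | y
            · simp [outV, oo] at h1
            · simp [outV] at h1
          · simp [inV] at h1
        · rintro ⟨-, h1⟩
          omega
    · refine hB z ?_ χ (hχ.restrict sp (Finset.erase_subset _ _) hZ ?_)
      all_goals
        rcases z with _ | x
        · simp
        · rw [mem_ins] at hz ⊢
          exact Finset.mem_erase.mpr ⟨by simpa using hzl, hz⟩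

end SP

theorem t_Lift : Stmt_Lift := by
  intro Λ _ _ sp S Z
  exact ⟨fun p l h hg => sp.gd_tw h hg, fun a h hg => sp.gd_fst h hg, fun a h hg => sp.gd_lst h hg⟩

end Pool.GS
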