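import Pool.Agent.GSP.Stmts

/-!
MP_7b7176_co, ROAD S, pure permutation part: a simple permutation with at least three letters
contains 2413 or 3142.
-/

set_option autoImplicit false

namespace Pool.GSP

namespace OCC

variable {L : Type} {S : Finset L} {p q : L → ℤ}

lemma aux [DecidableEq L] (hs : Simple S p q) (h3 : 3 ≤ S.card)
    (hp : Function.Injective p) (hq : Function.Injective q)
    (hno : ∀ a ∈ S, ∀ b ∈ S, ∀ c ∈ S, ∀ d ∈ S, ¬ Occ p q a b c d)
    {f l : L} (hf : f ∈ S) (hl : l ∈ S) (hf1 : ∀ z ∈ S, z ≠ f → p f < p z)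
    (hl1 : ∀ z ∈ S, z ≠ l → p z < p l) (hfl : q f < q l) : False := by
  have hcard : (S.erase f).card = S.card - 1 := Finset.card_erase_of_mem hf
  -- there is a letter below `f`
  have hD : (S.filter (fun z => q z < q f)).Nonempty := by
    by_contra hne
    rw [Finset.not_nonempty_iff_eq_empty] at hne
    have hB : Blk S p q (S.erase f) := by
      refine ⟨Finset.erase_subset _ _, fun a ha b hb z hz hzK => ?_⟩
      have hzf : z = f := by
        by_contra h
        exact hzK (Finset.mem_erase.2 ⟨h, hz⟩)
      subst hzf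
      have ha1 := hf1 a (Finset.mem_of_mem_erase ha) (Finset.ne_of_mem_erase ha)
      refine ⟨fun h => by omega, fun h => ?_⟩
      have h1 : a ∈ S.filter (fun y => q y < q z) :=
        Finset.mem_filter.2 ⟨Finset.mem_of_mem_erase ha, h.1⟩
      rw [hne] at h1
      exact absurd h1 (Finset.notMem_empty _)
    rcases hs _ hB with h | h
    · omega
    · rw [h] at hcard
      omega
  obtain ⟨d, hd, hd1⟩ := exists_max p hp hD
  have hdS : d ∈ S := (Finset.mem_filter.1 hd).1
  have hdf : q d < q f := (Finset.mem_filter.1 hd).2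
  have hdl : d ≠ l := by
    rintro rfl
    omega
  have hdf' : d ≠ f := by
    rintro rfl
    omega
  have hpfd := hf1 d hdS hdf'
  have hpdl := hl1 d hdS hdl
  -- the letters up to `d`
  have hB : Blk S p q (S.filter (fun z => p z ≤ p d)) := by
    refine ⟨Finset.filter_subset _ _, fun a ha b hb z hz hzK => ?_⟩
    have hz1 : p d < p z := by
      by_contra h
      exact hzK (Finset.mem_filter.2 ⟨hz, by omega⟩)
    obtain ⟨ha1, ha2⟩ := Finset.mem_filter.1 ha
    obtain ⟨hb1, hb2⟩ := Finset.mem_filter.1 hb
    have hzU : q f < q z := by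
      have hzf : z ≠ f := by
        rintro rfl
        omega
      rcases lt_or hq hzf with h | h
      · have hzd : z ≠ d := by
          rintro rfl
          omega
        have := hd1 z (Finset.mem_filter.2 ⟨hz, h⟩) hzd
        omega
      · exact h
    refine ⟨fun h => by omega, fun h => ?_⟩
    -- `z` is above `b`
    have hbf : b ≠ f := by
      rintro rfl
      omega
    have hbU : q f < q b := by omega
    have hbd : b ≠ d := by
      rintro rfl
      omega
    have hpb := hf1 b hb1 hbf
    have hpbd : p b < p d := lt_of_le_of_ne hb2 (ne_p hp hbd)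
    exact hno f hf b hb1 d hdS z hz ⟨hpb, hpbd, hz1, Or.inl ⟨hdf, hzU, h.2⟩⟩
  rcases hs _ hB with h | h
  · have h1 : ({f, d} : Finset L) ⊆ S.filter (fun z => p z ≤ p d) := by
      intro z hz
      rw [Finset.mem_insert, Finset.mem_singleton] at hz
      rcases hz with rfl | rfl
      · exact Finset.mem_filter.2 ⟨hf, by omega⟩
      · exact Finset.mem_filter.2 ⟨hdS, le_refl _⟩
    have h2 := Finset.card_le_card h1
    rw [Finset.card_pair hdf'.symm] at h2
    omega
  · have h1 : l ∈ S.filter (fun z => p z ≤ p d) := by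
      rw [h]
      exact hl
    have h2 := (Finset.mem_filter.1 h1).2
    omega

end OCC

theorem t_OCC : S_OCC := by
  intro L _ S p q hp hq hs h3
  by_contra hc
  have hno : ∀ a ∈ S, ∀ b ∈ S, ∀ c ∈ S, ∀ d ∈ S, ¬ Occ p q a b c d :=
    fun a ha b hb c hc' d hd h => hc ⟨a, ha, b, hb, c, hc', d, hd, h⟩
  have hne : S.Nonempty := Finset.card_pos.1 (by omega)
  obtain ⟨f, hf, hf1⟩ := exists_min p hp hne
  obtain ⟨l, hl, hl1⟩ := exists_max p hp hne
  have hfl : f ≠ l := by
    rintro rfl
    have h1 : S ⊆ {f} := by
      intro z hz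
      rw [Finset.mem_singleton]
      by_contra h
      have h1 := hf1 z hz h
      have h2 := hl1 z hz h
      omega
    have h2 := Finset.card_le_card h1
    rw [Finset.card_singleton] at h2
    omega
  rcases lt_or hq hfl with h | h
  · exact OCC.aux hs h3 hp hq hno hf hl hf1 hl1 h
  · refine OCC.aux hs.compl h3 hp (inj_neg hq) ?_ hf hl hf1 hl1 ?_
    · intro a ha b hb c hc' d hd h1
      refine hno a ha b hb c hc' d hd ?_
      simp only [Occ, Pi.neg_apply] at h1 ⊢
      omega
    · simp only [Pi.neg_apply]
      omega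

end Pool.GSP
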