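import Pool.Agent.GSP.Stmts

/-!
MP_7b7176_co, ROAD S, pure permutation part: a block without 2413 and 3142 contains a twin.
-/

set_option autoImplicit false

namespace Pool.GSP

namespace TWIN

variable {L : Type} {S K K' : Finset L} {p q : L → ℤ}

lemma blk_trans (h : Blk S p q K) (h' : Blk K p q K') : Blk S p q K' := by
  refine ⟨h'.1.trans h.1, fun a ha b hb z hz hzK => ?_⟩
  by_cases hzK2 : z ∈ K
  · exact h'.2 a ha b hb z hzK2 hzK
  · exact h.2 a (h'.1 ha) b (h'.1 hb) z hz hzK2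

lemma main [DecidableEq L] (hO : S_OCC) (hp : Function.Injective p) (hq : Function.Injective q)
    (S : Finset L) : ∀ (n : ℕ) (K : Finset L), K.card = n → Blk S p q K → 2 ≤ K.card →
    (∀ a ∈ K, ∀ b ∈ K, ∀ c ∈ K, ∀ d ∈ K, ¬ Occ p q a b c d) →
    ∃ x ∈ K, ∃ y ∈ K, x ≠ y ∧ Blk S p q {x, y} := by
  intro n
  induction n using Nat.strong_induction_on with
  | _ n ih =>
    intro K hn hK h2 hno
    rcases eq_or_lt_of_le h2 with h3 | h3
    · obtain ⟨x, y, hxy, hKe⟩ := Finset.card_eq_two.1 h3.symm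
      subst hKe
      exact ⟨x, by simp, y, by simp, hxy, hK⟩
    · by_cases hs : Simple K p q
      · obtain ⟨a, ha, b, hb, c, hc, d, hd, h4⟩ := hO L K p q hp hq hs h3
        exact absurd h4 (hno a ha b hb c hc d hd)
      · unfold Simple at hs
        push Not at hs
        obtain ⟨K', hb, h5, h6⟩ := hs
        have h7 : K'.card < K.card :=
          Finset.card_lt_card (Finset.ssubset_iff_subset_ne.2 ⟨hb.1, h6⟩)
        obtain ⟨x, hx, y, hy, h8, h9⟩ := ih K'.card (by omega) K' rfl (blk_trans hK hb) h5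
          (fun a ha b hb' c hc d hd => hno a (hb.1 ha) b (hb.1 hb') c (hb.1 hc) d (hb.1 hd))
        exact ⟨x, hb.1 hx, y, hb.1 hy, h8, h9⟩

end TWIN

theorem t_TWIN : M_TWIN := fun hO _ _ S K _ _ hp hq hK h2 hno =>
  TWIN.main hO hp hq S K.card K rfl hK h2 hno

end Pool.GSP
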