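import Pool.Agent.GSP.Sep
import Pool.Agent.GSP.Crit
import Pool.Agent.GSP.DefsST
import Pool.Agent.GSP.R_OCC
import Pool.Agent.GSP.R_TWIN

/-!
MP_7b7176_co, ROAD S: (S') implies (ST).
-/

set_option autoImplicit false
set_option linter.unusedSectionVars false

namespace Pool.GS

open Pool.GSP (Iso NE Occ)
open Pool.GSP.Sep (Adj)

variable {Λ : Type} [Fintype Λ] [DecidableEq Λ] {sp : SP Λ} {S : Finset Λ}

/-- (ST), stronger form: without a good circuit and without a twin of type `Tw` there is a first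
letter. -/
theorem st_strong (hS : Stmt_S') (hne : S.Nonempty) (hG : ¬∃ Z, sp.Gd S Z)
    (hTw : ¬∃ p l, sp.Tw S p l) : ∃ a, sp.Fst S a := by
  have hns : ¬ sp.NonSep S := fun h => hG (hS Λ sp S h)
  have hnb : ∀ x y, Adj S (sp.k true) (sp.k false) x y → ∀ i, ∀ z ∈ S,
      ¬(sp.k i x < sp.k i z ∧ sp.k i z < sp.k i y) ∧
      ¬(sp.k i y < sp.k i z ∧ sp.k i z < sp.k i x) := by
    intro x y h i z hz
    have h1 := h.lt
    have h2 := h.np z hz
    have h3 := h.n1 z hz
    have h4 := h.n2 z hz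
    cases i
    · exact ⟨h3, h4⟩
    · exact ⟨h2, by omega⟩
  have hxy : ∀ x y, Adj S (sp.k true) (sp.k false) x y → x ≠ y := by
    rintro x y h rfl
    exact lt_irrefl _ h.lt
  have hpa : ∀ x y, Adj S (sp.k true) (sp.k false) x y → sp.k false x < sp.k false y →
      sp.sgn x = false ∧ sp.sgn y = false := by
    intro x y h h1
    have h2 := h.lt
    constructor
    · by_contra hcon
      rw [Bool.not_eq_false, SP.sgn_true] at hcon
      refine hTw ⟨x, y, h.hx, h.hy, hxy x y h, hnb x y h, ?_⟩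
      simp only [hcon, true_iff]
      omega
    · by_contra hcon
      rw [Bool.not_eq_false, SP.sgn_true] at hcon
      refine hTw ⟨y, x, h.hy, h.hx, (hxy x y h).symm, fun i z hz => (hnb x y h i z hz).symm, ?_⟩
      simp only [hcon, true_iff]
      omega
  have hpd : ∀ x y, Adj S (sp.k true) (sp.k false) x y → sp.k false y < sp.k false x →
      sp.sgn x = true ∧ sp.sgn y = true := by
    intro x y h h1
    have h2 := h.lt
    constructor
    · by_contra hcon
      rw [Bool.not_eq_true, SP.sgn_false] at hcon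
      refine hTw ⟨x, y, h.hx, h.hy, hxy x y h, hnb x y h, ?_⟩
      simp only [hcon, false_iff]
      omega
    · by_contra hcon
      rw [Bool.not_eq_true, SP.sgn_false] at hcon
      refine hTw ⟨y, x, h.hy, h.hx, (hxy x y h).symm, fun i z hz => (hnb x y h i z hz).symm, ?_⟩
      simp only [hcon, false_iff]
      omega
  rcases GSP.Sep.sep (sp.inj true) (sp.inj false) (GSP.t_TWIN GSP.t_OCC) hne
    (fun a ha b hb c hc d hd h => hns (sp.nonSep_iff.2 ⟨a, ha, b, hb, c, hc, d, hd, h⟩)) hpa hpd with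
    ⟨a, ha, h⟩ | ⟨x, y, h1, h2, h3, h4⟩ | ⟨x, y, h1, h2, h3, h4, h5⟩
  · refine ⟨a, ha, fun x hx hxa i => ?_⟩
    cases i
    · exact (h x hx hxa).2
    · exact (h x hx hxa).1
  · refine absurd ⟨_, SP.crit1 ⟨h1.hx, h1.hy, h1.lt, h2, ?_⟩ (hpd x y h1 h2).1 (hpd x y h1 h2).2
      h3 h4⟩ hG
    intro z hz k1 k2
    exact fun _ => h1.np z hz ⟨k1, k2⟩
  · refine absurd ⟨_, SP.crit2 ⟨h1.hx, h1.hy, h1.lt, ?_, ?_⟩ (hpa x y h1 h2).1 (hpa x y h1 h2).2
      h3 h4 h5⟩ hG
    · simp only [Pi.neg_apply]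
      omega
    · intro z hz k1 k2
      exact fun _ => h1.np z hz ⟨k1, k2⟩

/-- **(S') implies (ST).** -/
theorem t_ST (hS : Stmt_S') : Stmt_ST := by
  intro Λ _ _ sp S hne hG
  by_cases hTw : ∃ p l, sp.Tw S p l
  · exact Or.inl hTw
  · exact Or.inr (Or.inl (st_strong hS hne hG hTw))

end Pool.GS
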