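import Pool.Agent.GSP.NSep
import Pool.Agent.GSP.ST

/-!
MP_7b7176_co, ROAD S, (4.2'): the non-simple step.
-/

set_option autoImplicit false
set_option linter.unusedSectionVars false

namespace Pool.GS

open Pool.GSP (Iso NE Occ)
open Pool.GSP.Sep (Adj)

variable {Λ : Type} [Fintype Λ] [DecidableEq Λ] {sp : SP Λ} {S : Finset Λ}

lemma pure_of_noTw (hTw : ¬∃ p l, sp.Tw S p l) :
    (∀ x y, Adj S (sp.k true) (sp.k false) x y → sp.k false x < sp.k false y →
      sp.sgn x = false ∧ sp.sgn y = false) ∧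
    (∀ x y, Adj S (sp.k true) (sp.k false) x y → sp.k false y < sp.k false x →
      sp.sgn x = true ∧ sp.sgn y = true) := by
  have hnb : ∀ x y, Adj S (sp.k true) (sp.k false) x y → ∀ i, ∀ z ∈ S,
      ¬(sp.k i x < sp.k i z ∧ sp.k i z < sp.k i y) ∧
      ¬(sp.k i y < sp.k i z ∧ sp.k i z < sp.k i x) := by
    intro x y h i z hz
    have h1 := h.lt
    have h2 := h.np z hz
    have h3 := h.n1 z hz
    have h4 := h.n2 z hz
    cases i
    · exact ⟨h3, h4⟩
    · exact ⟨h2, by omega⟩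
  have hxy : ∀ x y, Adj S (sp.k true) (sp.k false) x y → x ≠ y := by
    rintro x y h rfl
    exact lt_irrefl _ h.lt
  constructor
  · intro x y h h1
    have h2 := h.lt
    constructor
    · by_contra hcon
      rw [Bool.not_eq_false, SP.sgn_true] at hcon
      refine hTw ⟨x, y, h.hx, h.hy, hxy x y h, hnb x y h, ?_⟩
      simp only [hcon, true_iff]
      omega
    · by_contra hcon
      rw [Bool.not_eq_false, SP.sgn_true] at hcon
      refine hTw ⟨y, x, h.hy, h.hx, (hxy x y h).symm, fun i z hz => (hnb x y h i z hz).symm, ?_⟩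
      simp only [hcon, true_iff]
      omega
  · intro x y h h1
    have h2 := h.lt
    constructor
    · by_contra hcon
      rw [Bool.not_eq_true, SP.sgn_false] at hcon
      refine hTw ⟨x, y, h.hx, h.hy, hxy x y h, hnb x y h, ?_⟩
      simp only [hcon, false_iff]
      omega
    · by_contra hcon
      rw [Bool.not_eq_true, SP.sgn_false] at hcon
      refine hTw ⟨y, x, h.hy, h.hx, (hxy x y h).symm, fun i z hz => (hnb x y h i z hz).symm, ?_⟩
      simp only [hcon, false_iff]
      omega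

/-- **(4.2')** A corner-free non-separable signed permutation with pure twins which is not simple
has a good circuit. -/
theorem gd_of_nonsimple (hN : sp.NonSep S) (hC : sp.CF S) (hTw : ¬∃ p l, sp.Tw S p l)
    (hS : ¬ sp.Simple S) : ∃ Z, sp.Gd S Z := by
  obtain ⟨hpa, hpd⟩ := pure_of_noTw hTw
  rcases GSP.Sep.nonsimple (sp.inj true) (sp.inj false) (GSP.t_TWIN GSP.t_OCC) (sp.cf_of hC)
    (fun h => hS (sp.simple_iff.1 h)) (sp.nonSep_iff.1 hN) hpa hpd with
    ⟨x, y, h1, h2, h3, h4⟩ | ⟨x, y, h1, h2, h3, h4, h5⟩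
  · refine ⟨_, SP.crit1 ⟨h1.hx, h1.hy, h1.lt, h2, ?_⟩ (hpd x y h1 h2).1 (hpd x y h1 h2).2 h3 h4⟩
    intro z hz k1 k2
    exact fun _ => h1.np z hz ⟨k1, k2⟩
  · refine ⟨_, SP.crit2 ⟨h1.hx, h1.hy, h1.lt, ?_, ?_⟩ (hpa x y h1 h2).1 (hpa x y h1 h2).2
      h3 h4 h5⟩
    · simp only [Pi.neg_apply]
      omega
    · intro z hz k1 k2
      exact fun _ => h1.np z hz ⟨k1, k2⟩

end Pool.GS
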