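import Pool.Agent.GSP.Sep

/-!
MP_7b7176_co, ROAD S, (4.2'): a corner-free non-separable permutation which is not simple and whose
twins are pure has a twin which satisfies the criterion.
-/

set_option autoImplicit false
set_option linter.unusedSectionVars false

namespace Pool.GSP.Sep

open Pool.GSP

variable {L : Type} [DecidableEq L]

lemma simple_compl {S : Finset L} {p q : L → ℤ} (h : Simple S p q) : Simple S p (-q) := by
  intro K hK
  refine h K ⟨hK.1, fun a ha b hb z hz hzK => ?_⟩
  have h1 := hK.2 a ha b hb z hz hzK
  have h2 := hK.2 b hb a ha z hz hzK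
  simp only [Pi.neg_apply] at h1 h2
  omega

section

variable {S : Finset L} {p q : L → ℤ} (hp : Function.Injective p) (hq : Function.Injective q)

include hp hq

/-- In a simple set with at least three letters no letter is left of and above all others. -/
lemma no_corner {T : Finset L} (hs : Simple T p q) (h3 : 3 ≤ T.card) {t : L} (ht : t ∈ T)
    (h : (∀ z ∈ T, z ≠ t → p t < p z ∧ q z < q t) ∨ (∀ z ∈ T, z ≠ t → p z < p t ∧ q t < q z)) :
    False := by
  have hc := Finset.card_erase_of_mem ht
  have hB : Blk T p q (T.erase t) := by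
    refine ⟨Finset.erase_subset _ _, ?_⟩
    intro a ha b hb z hz hzt
    have hz' : z = t := by
      by_contra hne
      exact hzt (Finset.mem_erase.mpr ⟨hne, hz⟩)
    subst hz'
    rw [Finset.mem_erase] at ha hb
    rcases h with h | h
    · have h1 := h a ha.2 ha.1
      have h2 := h b hb.2 hb.1
      omega
    · have h1 := h a ha.2 ha.1
      have h2 := h b hb.2 hb.1
      omega
  rcases hs _ hB with h1 | h1
  · omega
  · have := congrArg Finset.card h1
    omega

/-- The first twin of a descending run satisfies the criterion, if `TT` is simple. -/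
lemma run_good {sg : L → Bool}
    (hpd : ∀ x y, Adj S p q x y → q y < q x → sg x = true ∧ sg y = true)
    (hs : Simple (TT S p q) p q) (h3 : 3 ≤ (TT S p q).card) {t c : L} (ht : t ∈ TT S p q)
    (hc : Adj S p q t c) (hct : q c < q t) :
    (∀ u ∈ S, sg u = false → ¬ Iso S p q t c u) ∧
      (∀ u ∈ S, sg u = false → ¬ Iso S (-p) (-q) c t u) ∧
      ∃ z ∈ S, (p z < p t ∧ q z < q c) ∨ (p c < p z ∧ q t < q z) := by
  classical
  have htS := hc.hx
  have hcS := hc.hy
  have hptc := hc.lt
  have hcT : c ∉ TT S p q := fun h => (mem_TT.mp h).2 t hc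
  refine ⟨?_, ?_, ?_⟩
  · rintro u hu su ⟨g1, g2, g3, g4⟩
    obtain ⟨r, hr⟩ := exists_run hp hq hu
    have hrt : r ≠ t := by
      rintro rfl
      have := run_desc hp hq hpd hc hct hr
      rw [su] at this
      cases this
    have hrS := (mem_TT.mp hr.ht).1
    have hrle := hr.le
    have hpr : p t < p r := by
      have h1 : p r ≠ p t := fun e => hrt (hp e)
      by_contra hcon
      exact hr.no t htS (by omega) (by omega) ht
    have hrc : r ≠ c := fun e => hcT (e ▸ hr.ht)
    have hrc' : p c < p r := by
      have h1 : p r ≠ p c := fun e => hrc (hp e)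
      by_contra hcon
      exact hc.np r hrS ⟨hpr, by omega⟩
    set K := (TT S p q).filter (fun z => q u ≤ q z ∧ q z ≤ q t ∧ p t ≤ p z ∧ p z ≤ p u) with hK
    have hrK : r ∈ K := by
      rw [hK, Finset.mem_filter]
      by_cases h1 : r = u
      · subst h1
        exact ⟨hr.ht, le_refl _, by omega, by omega, le_refl _⟩
      · have h2 : p r ≠ p u := fun e => h1 (hp e)
        have := g4 r hrS hrc' (by omega)
        exact ⟨hr.ht, by omega, by omega, by omega, hrle⟩
    have htK : t ∈ K := by
      rw [hK, Finset.mem_filter]
      exact ⟨ht, by omega, le_refl _, le_refl _, by omega⟩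
    have hB : Blk (TT S p q) p q K := by
      refine ⟨Finset.filter_subset _ _, ?_⟩
      intro a ha b hb z hz hzK
      rw [hK, Finset.mem_filter] at ha hb hzK
      have hzS := (mem_TT.mp hz).1
      have hzc : z ≠ c := fun e => hcT (e ▸ hz)
      have e1 : p z ≠ p c := fun e => hzc (hp e)
      have e2 : q z ≠ q c := fun e => hzc (hq e)
      constructor
      · intro hcon
        apply hzK
        have h1 : p c < p z := by
          by_contra hcon'
          exact hc.np z hzS ⟨by omega, by omega⟩
        have h2 := g4 z hzS h1 (by omega)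
        exact ⟨hz, by omega, by omega, by omega, by omega⟩
      · intro hcon
        apply hzK
        have h1 : q z < q c := by
          by_contra hcon'
          exact hc.n2 z hzS ⟨by omega, by omega⟩
        have h2 := g3 z hzS (by omega) h1
        exact ⟨hz, by omega, by omega, by omega, by omega⟩
    rcases hs K hB with h1 | h1
    · have := Finset.card_le_one.mp h1 r hrK t htK
      exact hrt this
    · refine no_corner hp hq hs h3 ht (Or.inl ?_)
      intro z hz hzt
      rw [← h1, hK, Finset.mem_filter] at hz
      have e1 : p z ≠ p t := fun e => hzt (hp e)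
      have e2 : q z ≠ q t := fun e => hzt (hq e)
      omega
  · rintro u hu su ⟨g1, g2, g3, g4⟩
    simp only [Pi.neg_apply] at g1 g2 g3 g4
    set K := (TT S p q).filter (fun z => q t ≤ q z ∧ q z ≤ q u ∧ p u ≤ p z ∧ p z ≤ p t) with hK
    have htK : t ∈ K := by
      rw [hK, Finset.mem_filter]
      exact ⟨ht, le_refl _, by omega, by omega, le_refl _⟩
    by_cases hA : ∃ z ∈ TT S p q, p u ≤ p z ∧ p z < p t
    · obtain ⟨z0, hz0, hz1, hz2⟩ := hA
      have hz0S := (mem_TT.mp hz0).1
      have hz0K : z0 ∈ K := by
        rw [hK, Finset.mem_filter]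
        by_cases h1 : z0 = u
        · subst h1
          exact ⟨hz0, by omega, le_refl _, le_refl _, by omega⟩
        · have h2 : p z0 ≠ p u := fun e => h1 (hp e)
          have h3' := g4 z0 hz0S (by omega) (by omega)
          have h4 := hc.n2 z0 hz0S
          have h5 : q z0 ≠ q t := fun e => by
            have := hq e
            subst this
            omega
          exact ⟨hz0, by omega, by omega, by omega, by omega⟩
      have hB : Blk (TT S p q) p q K := by
        refine ⟨Finset.filter_subset _ _, ?_⟩
        intro a ha b hb z hz hzK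
        rw [hK, Finset.mem_filter] at ha hb hzK
        have hzS := (mem_TT.mp hz).1
        have hzc : z ≠ c := fun e => hcT (e ▸ hz)
        have e1 : p z ≠ p c := fun e => hzc (hp e)
        have e2 : q z ≠ q c := fun e => hzc (hq e)
        constructor
        · intro hcon
          apply hzK
          have h2 := g4 z hzS (by omega) (by omega)
          have h4 := hc.n2 z hzS
          have h5 : q z ≠ q t := fun e => by
            have := hq e
            subst this
            omega
          exact ⟨hz, by omega, by omega, by omega, by omega⟩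
        · intro hcon
          apply hzK
          have h2 := g3 z hzS (by omega) (by omega)
          have h4 := hc.np z hzS
          exact ⟨hz, by omega, by omega, by omega, by omega⟩
      rcases hs K hB with h1 | h1
      · have := Finset.card_le_one.mp h1 z0 hz0K t htK
        subst this
        omega
      · refine no_corner hp hq hs h3 ht (Or.inr ?_)
        intro z hz hzt
        rw [← h1, hK, Finset.mem_filter] at hz
        have e1 : p z ≠ p t := fun e => hzt (hp e)
        have e2 : q z ≠ q t := fun e => hzt (hq e)
        omega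
    · -- all letters between `u` and `t` are in one run
      obtain ⟨r, hr⟩ := exists_run hp hq hu
      have hne : (S.filter (fun z => p z < p t)).Nonempty :=
        ⟨u, Finset.mem_filter.mpr ⟨hu, by omega⟩⟩
      obtain ⟨l, hl, hmax⟩ := Finset.exists_max_image _ p hne
      rw [Finset.mem_filter] at hl
      have hul : p u ≤ p l := hmax u (Finset.mem_filter.mpr ⟨hu, by omega⟩)
      have hrl : Run S p q r l := by
        refine ⟨hr.ht, hl.1, hr.le.trans hul, ?_⟩
        intro w hw h1 h2 h4
        by_cases h5 : p w ≤ p u
        · exact hr.no w hw h1 h5 h4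
        · exact hA ⟨w, h4, by omega, by omega⟩
      have hqtl : q t < q l := by
        by_cases h1 : l = u
        · subst h1
          omega
        · have h2 : p l ≠ p u := fun e => h1 (hp e)
          have h3' := g4 l hl.1 (by omega) (by omega)
          have h4 := hc.n2 l hl.1
          have h5 : q l ≠ q t := fun e => by
            have := hq e
            subst this
            omega
          omega
      have hqlu : q l ≤ q u := by
        by_cases h1 : l = u
        · rw [h1]
        · have h2 : p l ≠ p u := fun e => h1 (hp e)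
          have h3' := g4 l hl.1 (by omega) (by omega)
          omega
      refine (mem_TT.mp ht).2 l ⟨hl.1, htS, hl.2, ?_, ?_, ?_⟩
      · intro z hz h1
        have := hmax z (Finset.mem_filter.mpr ⟨hz, h1.2⟩)
        omega
      · intro z hz h1
        omega
      · intro z hz h1
        have h2 := g3 z hz (by omega) (by omega)
        have h4 := hc.np z hz
        have h5 : p z ≠ p t := fun e => by
          have := hp e
          subst this
          omega
        have h6 := hmax z (Finset.mem_filter.mpr ⟨hz, by omega⟩)
        have h7 : p z ≠ p l := fun e => by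
          have := hp e
          subst this
          omega
        rcases run_m hp hq hrl with ⟨i1, -, -⟩ | ⟨i1, -, -⟩
        · have := i1 u hu z hz hr.le (by omega) (by omega)
          omega
        · have := i1 z hz l hl.1 (by have := hr.le; omega) (by omega) (le_refl _)
          omega
  · by_contra hcon
    -- all letters of `TT` except `t` are in the two other corners of `t`
    have hcor : ∀ z ∈ TT S p q, z ≠ t → (p z < p t ∧ q t < q z) ∨ (p t < p z ∧ q z < q t) := by
      intro z hz hzt
      have hzS := (mem_TT.mp hz).1
      have hzc : z ≠ c := fun e => hcT (e ▸ hz)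
      have e1 : p z ≠ p c := fun e => hzc (hp e)
      have e2 : q z ≠ q c := fun e => hzc (hq e)
      have e3 : p z ≠ p t := fun e => hzt (hp e)
      have e4 : q z ≠ q t := fun e => hzt (hq e)
      have h1 : ¬ ((p z < p t ∧ q z < q c) ∨ (p c < p z ∧ q t < q z)) :=
        fun h => hcon ⟨z, hzS, h⟩
      have h2 := hc.np z hzS
      have h4 := hc.n2 z hzS
      omega
    by_cases hU : ∃ z ∈ TT S p q, z ≠ t ∧ p z < p t ∧ q t < q z
    · obtain ⟨z0, hz0, hz0t, hz1, hz2⟩ := hU
      set K := (TT S p q).filter (fun z => p z ≤ p t) with hK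
      have hB : Blk (TT S p q) p q K := by
        refine ⟨Finset.filter_subset _ _, ?_⟩
        intro a ha b hb z hz hzK
        rw [hK, Finset.mem_filter] at ha hb hzK
        have hzt : p t < p z := by
          by_contra hcon'
          exact hzK ⟨hz, by omega⟩
        have hzt' : z ≠ t := by
          rintro rfl
          exact lt_irrefl _ hzt
        have h1 := hcor z hz hzt'
        have h2 : q t ≤ q a := by
          by_cases h5 : a = t
          · rw [h5]
          · have := hcor a ha.1 h5
            omega
        have h4 : q t ≤ q b := by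
          by_cases h5 : b = t
          · rw [h5]
          · have := hcor b hb.1 h5
            omega
        omega
      rcases hs K hB with h1 | h1
      · have := Finset.card_le_one.mp h1 z0 (by
          rw [hK, Finset.mem_filter]
          exact ⟨hz0, hz1.le⟩) t (by
          rw [hK, Finset.mem_filter]
          exact ⟨ht, le_refl _⟩)
        exact hz0t this
      · refine no_corner hp hq hs h3 ht (Or.inr ?_)
        intro z hz hzt
        have h2 := hcor z hz hzt
        rw [← h1, hK, Finset.mem_filter] at hz
        omega
    · refine no_corner hp hq hs h3 ht (Or.inl ?_)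
      intro z hz hzt
      rcases hcor z hz hzt with h1 | h1
      · exact absurd ⟨z, hz, hzt, h1⟩ hU
      · exact h1

/-- **(4.2')** -/
theorem nonsimple (hT : S_TWIN) (hCF : CF S p q) (hns : ¬ Simple S p q)
    (hocc : ∃ a ∈ S, ∃ b ∈ S, ∃ c ∈ S, ∃ d ∈ S, Occ p q a b c d) {sg : L → Bool}
    (hpa : ∀ x y, Adj S p q x y → q x < q y → sg x = false ∧ sg y = false)
    (hpd : ∀ x y, Adj S p q x y → q y < q x → sg x = true ∧ sg y = true) :
    (∃ x y, Adj S p q x y ∧ q y < q x ∧
      (∀ u ∈ S, sg u = false → ¬ Iso S p q x y u) ∧
      (∀ u ∈ S, sg u = false → ¬ Iso S (-p) (-q) y x u)) ∨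
    (∃ x y, Adj S p q x y ∧ q x < q y ∧
      (∀ u ∈ S, sg u = true → ¬ Iso S p (-q) x y u) ∧
      (∀ u ∈ S, sg u = true → ¬ Iso S (-p) q y x u) ∧ NE S p q x y) := by
  classical
  have hq' : Function.Injective (-q) := inj_neg hq
  have hpd' : ∀ x y, Adj S p (-q) x y → (-q) y < (-q) x → (fun w => !sg w) x = true ∧
      (fun w => !sg w) y = true := by
    intro x y h3 h4
    simp only [Pi.neg_apply] at h4
    have := hpa x y h3.compl' (by omega)
    simp [this.1, this.2]
  -- a twin of `TT` suffices
  by_cases hTT : ∃ a b, TTw S p q a b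
  · obtain ⟨a, b, hab⟩ := hTT
    have hne' : q a ≠ q b := fun e => by
      have := hq e
      subst this
      exact lt_irrefl _ hab.lt
    rcases lt_or_gt_of_ne hne' with h2 | h2
    · obtain ⟨x, y, h3, h4, h5, h6, -⟩ := hab.good hp hq h2 hpd
      exact Or.inl ⟨x, y, h3, h4, h5, h6⟩
    · obtain ⟨x, y, h3, h4, h5, h6, z, hz, h7⟩ := hab.compl.good (sg := fun w => !sg w) hp hq'
        (by simp only [Pi.neg_apply]; omega) hpd'
      simp only [Pi.neg_apply] at h4 h7
      refine Or.inr ⟨x, y, h3.compl', by omega, ?_, ?_, z, hz, ?_⟩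
      · intro u hu su
        exact h5 u hu (by simp [su])
      · intro u hu su
        have := h6 u hu (by simp [su])
        rwa [neg_neg] at this
      · omega
  -- no twin of `TT`: `TT` is simple
  have noTw : ∀ x ∈ TT S p q, ∀ y ∈ TT S p q, x ≠ y → ¬ Blk (TT S p q) p q {x, y} := by
    intro x hx y hy hxy h1
    have key : ∀ a b, a ∈ TT S p q → b ∈ TT S p q → p a < p b →
        Blk (TT S p q) p q {a, b} → TTw S p q a b := by
      intro a b ha hb hab hBl
      have h2 : ∀ z ∈ TT S p q, z ≠ a → z ≠ b →
          ¬ (p a < p z ∧ p z < p b) ∧ ¬ (q a < q z ∧ q z < q b) ∧ ¬ (q b < q z ∧ q z < q a) := by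
        intro z hz h3 h4
        have h5 : z ∉ ({a, b} : Finset L) := by simp [h3, h4]
        have h6 := hBl.2 a (by simp) b (by simp) z hz h5
        have h7 := hBl.2 b (by simp) a (by simp) z hz h5
        exact ⟨h6.1, h6.2, h7.2⟩
      refine ⟨ha, hb, hab, ?_, ?_, ?_⟩
      · intro z hz hcon
        refine (h2 z hz ?_ ?_).1 hcon
        · rintro rfl
          omega
        · rintro rfl
          omega
      · intro z hz hcon
        refine (h2 z hz ?_ ?_).2.1 hcon
        · rintro rfl
          omega
        · rintro rfl
          omega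
      · intro z hz hcon
        refine (h2 z hz ?_ ?_).2.2 hcon
        · rintro rfl
          omega
        · rintro rfl
          omega
    rcases lt_or_gt_of_ne (fun e => hxy (hp e) : p x ≠ p y) with h2 | h2
    · exact hTT ⟨x, y, key x y hx hy h2 h1⟩
    · exact hTT ⟨y, x, key y x hy hx h2 (by rwa [Finset.pair_comm])⟩
  have hs : Simple (TT S p q) p q := by
    intro K hK
    by_contra hcon
    rw [not_or] at hcon
    obtain ⟨hc1, hc2⟩ := hcon
    have hKS : ∀ z ∈ K, z ∈ S := fun z hz => (mem_TT.mp (hK.1 hz)).1
    by_cases ho : ∃ a ∈ K, ∃ b ∈ K, ∃ c ∈ K, ∃ d ∈ K, Occ p q a b c d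
    · obtain ⟨a, ha, b, hb, c, hc, d, hd, hO⟩ := ho
      obtain ⟨z, hz, hzK⟩ : ∃ z ∈ TT S p q, z ∉ K := by
        by_contra hcon'
        apply hc2
        refine le_antisymm hK.1 (fun z hz => ?_)
        by_contra h1
        exact hcon' ⟨z, hz, h1⟩
      refine hCF a (hKS a ha) b (hKS b hb) c (hKS c hc) d (hKS d hd) hO z (mem_TT.mp hz).1 ?_
      have h1 := (hK.2 a ha d hd z hz hzK).1
      have h2 := (hK.2 b hb c hc z hz hzK).2
      have h3 := (hK.2 c hc b hb z hz hzK).2
      have hne : ∀ w ∈ K, p z ≠ p w ∧ q z ≠ q w := by
        intro w hw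
        have : z ≠ w := fun e => hzK (e ▸ hw)
        exact ⟨fun e => this (hp e), fun e => this (hq e)⟩
      have n1 := hne a ha
      have n2 := hne b hb
      have n3 := hne c hc
      have n4 := hne d hd
      simp only [Occ] at hO
      simp only [Cor]
      omega
    · obtain ⟨x, hx, y, hy, hxy, h1⟩ := hT L (TT S p q) K p q hp hq hK (by omega)
        (fun a ha b hb c hc d hd h => ho ⟨a, ha, b, hb, c, hc, d, hd, h⟩)
      exact noTw x (hK.1 hx) y (hK.1 hy) hxy h1
  -- `TT` has at least three letters
  have h3 : 3 ≤ (TT S p q).card := by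
    obtain ⟨a, ha, b, hb, c, hc, d, hd, hO⟩ := hocc
    obtain ⟨t, ht⟩ := exists_run hp hq hd
    by_contra hlt
    have hcard : (TT S p q).card = 1 ∨ (TT S p q).card = 2 := by
      have := Finset.card_pos.mpr ⟨t, ht.ht⟩
      omega
    rcases hcard with h1 | h1
    · obtain ⟨t', ht'⟩ := Finset.card_eq_one.mp h1
      have hall : ∀ z ∈ S, p t ≤ p z := by
        intro z hz
        obtain ⟨t'', h4⟩ := exists_run hp hq hz
        have h5 := h4.ht
        have h6 := ht.ht
        rw [ht', Finset.mem_singleton] at h5 h6
        rw [h6, ← h5]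
        exact h4.le
      have ka := hall a ha
      have kb := hall b hb
      have kc := hall c hc
      simp only [Occ] at hO
      rcases run_m hp hq ht with ⟨i1, -, -⟩ | ⟨i1, -, -⟩
      · have j1 := i1 a ha b hb ka (by omega) (by omega)
        have j2 := i1 b hb c hc kb (by omega) (by omega)
        have j3 := i1 c hc d hd kc (by omega) (by omega)
        omega
      · have j1 := i1 a ha b hb ka (by omega) (by omega)
        have j2 := i1 b hb c hc kb (by omega) (by omega)
        have j3 := i1 c hc d hd kc (by omega) (by omega)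
        omega
    · obtain ⟨x, y, hxy, h4⟩ := Finset.card_eq_two.mp h1
      refine noTw x (by rw [h4]; simp) y (by rw [h4]; simp) hxy ?_
      rw [h4]
      exact ⟨Finset.Subset.refl _, fun a _ b _ z hz hz' => absurd hz hz'⟩
  -- a run with at least two letters
  obtain ⟨t, ht, c, hc⟩ : ∃ t ∈ TT S p q, ∃ c, Adj S p q t c := by
    by_contra hcon
    apply hns
    have hST : TT S p q = S := by
      refine le_antisymm (fun z hz => (mem_TT.mp hz).1) (fun z hz => ?_)
      by_contra hzT
      obtain ⟨t, ht⟩ := exists_run hp hq hz
      obtain ⟨c, hc, -⟩ := exists_succ hp hq ht (fun e => hzT (e ▸ ht.ht))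
      exact hcon ⟨t, ht.ht, c, hc⟩
    rw [hST] at hs
    exact hs
  have hne' : q t ≠ q c := fun e => by
    have := hq e
    subst this
    exact lt_irrefl _ hc.lt
  rcases lt_or_gt_of_ne hne' with h2 | h2
  · obtain ⟨h5, h6, z, hz, h7⟩ := run_good hp hq' (sg := fun w => !sg w) hpd'
      (by rw [TT_compl]; exact simple_compl hs) (by rw [TT_compl]; exact h3)
      (by rw [TT_compl]; exact ht) hc.compl (by simp only [Pi.neg_apply]; omega)
    simp only [Pi.neg_apply] at h7
    refine Or.inr ⟨t, c, hc, h2, ?_, ?_, z, hz, ?_⟩
    · intro u hu su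
      exact h5 u hu (by simp [su])
    · intro u hu su
      have := h6 u hu (by simp [su])
      rwa [neg_neg] at this
    · omega
  · obtain ⟨h5, h6, -⟩ := run_good hp hq hpd hs h3 ht hc h2
    exact Or.inl ⟨t, c, hc, h2, h5, h6⟩

end

end Pool.GSP.Sep
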