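import Pool.Agent.GSP.Sep

/-!
MP_7b7176_co, ROAD S, step (4.2): corner-free permutations which contain 2413 or 3142 and are not
simple.  If all twins are pure then some twin satisfies the criterion of section 6.
-/

set_option autoImplicit false
set_option linter.unusedSectionVars false

namespace Pool.GSP.Sep

open Pool.GSP

variable {L : Type} [DecidableEq L]

section

variable {S : Finset L} {p q : L → ℤ} (hp : Function.Injective p) (hq : Function.Injective q)

include hp hq

/-- In a simple permutation with at least 3 letters no letter is in a corner. -/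
lemma no_corner {T : Finset L} (hS : Simple T p q) (hc : 3 ≤ T.card) {t : L} (ht : t ∈ T)
    (h : ∀ a ∈ T, ∀ b ∈ T, ¬ (p a < p t ∧ p t < p b) ∧ ¬ (q a < q t ∧ q t < q b)) : False := by
  have h1 : Blk T p q (T.erase t) := by
    refine ⟨Finset.erase_subset _ _, ?_⟩
    intro a ha b hb z hz hzn
    have hzt : z = t := by
      by_contra hne
      exact hzn (Finset.mem_erase.mpr ⟨hne, hz⟩)
    subst hzt
    exact h a (Finset.mem_of_mem_erase ha) b (Finset.mem_of_mem_erase hb)
  have h2 := Finset.card_erase_of_mem ht
  rcases hS _ h1 with h3 | h3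
  · omega
  · rw [h3] at h2
    omega

/-- The first twin of a descending run satisfies the criterion. -/
lemma main_desc (hS : Simple (TT S p q) p q) (hc : 3 ≤ (TT S p q).card) {sg : L → Bool}
    (hpd : ∀ x y, Adj S p q x y → q y < q x → sg x = true ∧ sg y = true) {t c : L}
    (ht : t ∈ TT S p q) (h : Adj S p q t c) (hct : q c < q t) :
    (∀ u ∈ S, sg u = false → ¬ Iso S p q t c u) ∧
      (∀ u ∈ S, sg u = false → ¬ Iso S (-p) (-q) c t u) ∧
      ∃ z ∈ S, (p z < p t ∧ q z < q c) ∨ (p c < p z ∧ q t < q z) := by
  have htS := h.hx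
  have hcS := h.hy
  have htc := h.lt
  have hcT : c ∉ TT S p q := fun h' => (mem_TT.mp h').2 t h
  have hST : ∀ {z}, z ∈ TT S p q → z ∈ S := fun h' => (mem_TT.mp h').1
  refine ⟨?_, ?_, ?_⟩
  · rintro u hu su ⟨g1, g2, g3, g4⟩
    obtain ⟨tu, htu⟩ := exists_run hp hq hu
    have hne : tu ≠ t := by
      rintro rfl
      have := run_desc hp hq hpd h hct htu
      rw [su] at this
      cases this
    have hle := htu.le
    have hlt : p t < p tu := by
      by_contra hcon
      have h1 : p tu ≠ p t := fun e => hne (hp e)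
      exact htu.no t htS (by omega) (by omega) ht
    have htuc : p c < p tu := by
      have h1 : p tu ≠ p c := fun e => hcT (hp e ▸ htu.ht)
      have := h.np tu (hST htu.ht)
      omega
    -- the block
    have hqtu : q u ≤ q tu ∧ q tu < q t := by
      by_cases h1 : tu = u
      · subst h1
        omega
      · have h2 : p tu ≠ p u := fun e => h1 (hp e)
        have := g4 tu (hST htu.ht) htuc (by omega)
        omega
    have hB : Blk (TT S p q) p q ((TT S p q).filter (fun z => p t ≤ p z ∧ p z ≤ p u)) := by
      refine ⟨Finset.filter_subset _ _, ?_⟩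
      have hval : ∀ z ∈ TT S p q, p t ≤ p z → p z ≤ p u → q u ≤ q z ∧ q z ≤ q t := by
        intro z hz h1 h2
        by_cases h3 : z = t
        · subst h3
          omega
        · have h4 : p z ≠ p t := fun e => h3 (hp e)
          have h5 : p z ≠ p c := fun e => hcT (hp e ▸ hz)
          have h6 := h.np z (hST hz)
          by_cases h7 : z = u
          · subst h7
            omega
          · have h8 : p z ≠ p u := fun e => h7 (hp e)
            have := g4 z (hST hz) (by omega) (by omega)
            omega
      intro a ha b hb z hz hzn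
      rw [Finset.mem_filter] at ha hb
      have hzn' : ¬ (p t ≤ p z ∧ p z ≤ p u) := fun h' => hzn (Finset.mem_filter.mpr ⟨hz, h'⟩)
      refine ⟨by omega, ?_⟩
      rintro ⟨h1, h2⟩
      have h3 := hval a ha.1 ha.2.1 ha.2.2
      have h4 := hval b hb.1 hb.2.1 hb.2.2
      have h5 : z ≠ t := by
        rintro rfl
        omega
      have h6 : q z ≠ q t := fun e => h5 (hq e)
      have h7 : q z ≠ q c := fun e => hcT (hq e ▸ hz)
      have h8 := h.n2 z (hST hz)
      have := g3 z (hST hz) (by omega) (by omega)
      omega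
    rcases hS _ hB with h1 | h1
    · have h2 : t ∈ (TT S p q).filter (fun z => p t ≤ p z ∧ p z ≤ p u) :=
        Finset.mem_filter.mpr ⟨ht, le_refl _, by omega⟩
      have h3 : tu ∈ (TT S p q).filter (fun z => p t ≤ p z ∧ p z ≤ p u) :=
        Finset.mem_filter.mpr ⟨htu.ht, hlt.le, hle⟩
      exact hne (Finset.card_le_one.mp h1 tu h3 t h2)
    · refine no_corner hp hq hS hc ht ?_
      intro a ha b hb
      rw [← h1, Finset.mem_filter] at ha hb
      refine ⟨by omega, ?_⟩
      rintro ⟨h2, h3⟩
      have h4 : b ≠ t := by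
        rintro rfl
        omega
      have h5 : p b ≠ p t := fun e => h4 (hp e)
      have h6 : p b ≠ p c := fun e => hcT (hp e ▸ hb.1)
      have h7 := h.np b (hST hb.1)
      by_cases h8 : b = u
      · subst h8
        omega
      · have h9 : p b ≠ p u := fun e => h8 (hp e)
        have := g4 b (hST hb.1) (by omega) (by omega)
        omega
  · rintro u hu su ⟨g1, g2, g3, g4⟩
    simp only [Pi.neg_apply] at g1 g2 g3 g4
    have hval : ∀ z ∈ S, p u ≤ p z → p z ≤ p t → q t ≤ q z ∧ q z ≤ q u := by
      intro z hz h1 h2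
      by_cases h3 : z = t
      · subst h3
        omega
      · have h4 : p z ≠ p t := fun e => h3 (hp e)
        by_cases h7 : z = u
        · subst h7
          omega
        · have h8 : p z ≠ p u := fun e => h7 (hp e)
          have h9 := g4 z hz (by omega) (by omega)
          have h10 := h.n2 z hz
          have h11 : q z ≠ q t := fun e => h3 (hq e)
          omega
    by_cases hT1 : ∃ s ∈ TT S p q, p u ≤ p s ∧ p s < p t
    · obtain ⟨s, hs, hs1, hs2⟩ := hT1
      have hB : Blk (TT S p q) p q ((TT S p q).filter (fun z => p u ≤ p z ∧ p z ≤ p t)) := by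
        refine ⟨Finset.filter_subset _ _, ?_⟩
        intro a ha b hb z hz hzn
        rw [Finset.mem_filter] at ha hb
        have hzn' : ¬ (p u ≤ p z ∧ p z ≤ p t) := fun h' => hzn (Finset.mem_filter.mpr ⟨hz, h'⟩)
        refine ⟨by omega, ?_⟩
        rintro ⟨h1, h2⟩
        have h3 := hval a (hST ha.1) ha.2.1 ha.2.2
        have h4 := hval b (hST hb.1) hb.2.1 hb.2.2
        have h5 := g3 z (hST hz) (by omega) (by omega)
        have h6 := h.np z (hST hz)
        omega
      rcases hS _ hB with h1 | h1
      · have h2 : t ∈ (TT S p q).filter (fun z => p u ≤ p z ∧ p z ≤ p t) :=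
          Finset.mem_filter.mpr ⟨ht, by omega, le_refl _⟩
        have h3 : s ∈ (TT S p q).filter (fun z => p u ≤ p z ∧ p z ≤ p t) :=
          Finset.mem_filter.mpr ⟨hs, hs1, hs2.le⟩
        have := Finset.card_le_one.mp h1 s h3 t h2
        subst this
        omega
      · refine no_corner hp hq hS hc ht ?_
        intro a ha b hb
        rw [← h1, Finset.mem_filter] at ha hb
        refine ⟨by omega, ?_⟩
        rintro ⟨h2, h3⟩
        have := hval a (hST ha.1) ha.2.1 ha.2.2
        omega
    · -- the letters from `u` to `t` are in the run of `u`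
      obtain ⟨tu, htu⟩ := exists_run hp hq hu
      have hut : p u < p t := by omega
      have h1 : (S.filter (fun z => p z < p t)).Nonempty := ⟨u, Finset.mem_filter.mpr ⟨hu, hut⟩⟩
      obtain ⟨l, hl, hmax⟩ := Finset.exists_max_image _ p h1
      rw [Finset.mem_filter] at hl
      have hul : p u ≤ p l := hmax u (Finset.mem_filter.mpr ⟨hu, hut⟩)
      have hle := htu.le
      have hrl : Run S p q tu l := by
        refine ⟨htu.ht, hl.1, by omega, ?_⟩
        intro w hw h2 h3 h4
        by_cases h5 : p w ≤ p u
        · exact htu.no w hw h2 h5 h4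
        · exact hT1 ⟨w, h4, by omega, by omega⟩
      have hql := hval l hl.1 hul hl.2.le
      refine (mem_TT.mp ht).2 l ⟨hl.1, htS, hl.2, ?_, ?_, ?_⟩
      · intro z hz h2
        have := hmax z (Finset.mem_filter.mpr ⟨hz, h2.2⟩)
        omega
      · intro z hz h2
        omega
      · intro z hz h2
        have h3 := g3 z hz (by omega) (by omega)
        have h4 : p z ≠ p t := fun e => by
          have := hp e
          subst this
          omega
        have h5 := h.np z hz
        have h6 : p z < p t := by omega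
        have h7 := hmax z (Finset.mem_filter.mpr ⟨hz, h6⟩)
        have h8 : p z ≠ p l := fun e => by
          have := hp e
          subst this
          omega
        rcases run_m hp hq hrl with ⟨i1, -, -⟩ | ⟨i1, -, -⟩
        · have h9 := i1 u hu z hz hle (by omega) (by omega)
          have h10 := hval z hz (by omega) (by omega)
          omega
        · have := i1 z hz l hl.1 (by omega) (by omega) (le_refl _)
          omega
  · by_contra hcon
    have hcon' : ∀ z ∈ S, ¬ (p z < p t ∧ q z < q c) ∧ ¬ (p c < p z ∧ q t < q z) := by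
      intro z hz
      constructor
      · exact fun h' => hcon ⟨z, hz, Or.inl h'⟩
      · exact fun h' => hcon ⟨z, hz, Or.inr h'⟩
    have hL : ∀ z ∈ TT S p q, z ≠ t → (p z < p t ∧ q t < q z) ∨ (p t < p z ∧ q z < q t) := by
      intro z hz hzt
      have h1 : p z ≠ p t := fun e => hzt (hp e)
      have h2 : q z ≠ q t := fun e => hzt (hq e)
      have h3 : p z ≠ p c := fun e => hcT (hp e ▸ hz)
      have h4 : q z ≠ q c := fun e => hcT (hq e ▸ hz)
      have h5 := h.np z (hST hz)
      have h6 := h.n2 z (hST hz)
      have h7 := hcon' z (hST hz)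
      omega
    have hB : Blk (TT S p q) p q ((TT S p q).filter (fun z => p z ≤ p t)) := by
      refine ⟨Finset.filter_subset _ _, ?_⟩
      intro a ha b hb z hz hzn
      rw [Finset.mem_filter] at ha hb
      have hzn' : ¬ (p z ≤ p t) := fun h' => hzn (Finset.mem_filter.mpr ⟨hz, h'⟩)
      refine ⟨by omega, ?_⟩
      rintro ⟨h1, h2⟩
      have h3 : z ≠ t := by
        rintro rfl
        omega
      have h4 := hL z hz h3
      by_cases h5 : a = t
      · subst h5
        omega
      · have := hL a ha.1 h5
        omega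
    rcases hS _ hB with h1 | h1
    · refine no_corner hp hq hS hc ht ?_
      have hfst : ∀ z ∈ TT S p q, z ≠ t → p t < p z ∧ q z < q t := by
        intro z hz hzt
        rcases hL z hz hzt with h2 | h2
        · exact absurd (Finset.card_le_one.mp h1 z (Finset.mem_filter.mpr ⟨hz, h2.1.le⟩) t
            (Finset.mem_filter.mpr ⟨ht, le_refl _⟩)) hzt
        · exact h2
      intro a ha b hb
      constructor
      · rintro ⟨h2, -⟩
        have h3 : a ≠ t := by
          rintro rfl
          omega
        have := hfst a ha h3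
        omega
      · rintro ⟨-, h2⟩
        have h3 : b ≠ t := by
          rintro rfl
          omega
        have := hfst b hb h3
        omega
    · refine no_corner hp hq hS hc ht ?_
      have hlst : ∀ z ∈ TT S p q, z ≠ t → p z < p t ∧ q t < q z := by
        intro z hz hzt
        rcases hL z hz hzt with h2 | h2
        · exact h2
        · have h3 : z ∈ (TT S p q).filter (fun z => p z ≤ p t) := by rw [h1]; exact hz
          rw [Finset.mem_filter] at h3
          omega
      intro a ha b hb
      constructor
      · rintro ⟨-, h2⟩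
        have h3 : b ≠ t := by
          rintro rfl
          omega
        have := hlst b hb h3
        omega
      · rintro ⟨h2, -⟩
        have h3 : a ≠ t := by
          rintro rfl
          omega
        have := hlst a ha h3
        omega

/-- **Non-simple permutations.** -/
theorem nonsimple (hT : S_TWIN) (hocc : ∃ a ∈ S, ∃ b ∈ S, ∃ c ∈ S, ∃ d ∈ S, Occ p q a b c d)
    (hCF : CF S p q) (hns : ¬ Simple S p q) {sg : L → Bool}
    (hpa : ∀ x y, Adj S p q x y → q x < q y → sg x = false ∧ sg y = false)
    (hpd : ∀ x y, Adj S p q x y → q y < q x → sg x = true ∧ sg y = true) :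
    (∃ x y, Adj S p q x y ∧ q y < q x ∧
      (∀ u ∈ S, sg u = false → ¬ Iso S p q x y u) ∧
      (∀ u ∈ S, sg u = false → ¬ Iso S (-p) (-q) y x u)) ∨
    (∃ x y, Adj S p q x y ∧ q x < q y ∧
      (∀ u ∈ S, sg u = true → ¬ Iso S p (-q) x y u) ∧
      (∀ u ∈ S, sg u = true → ¬ Iso S (-p) q y x u) ∧ NE S p q x y) := by
  classical
  have hq' : Function.Injective (-q) := inj_neg hq
  -- the final form of the ascending case
  have fin2 : ∀ x y, Adj S p (-q) x y → (-q) y < (-q) x →
      (∀ u ∈ S, (fun w => !sg w) u = false → ¬ Iso S p (-q) x y u) →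
      (∀ u ∈ S, (fun w => !sg w) u = false → ¬ Iso S (-p) (-(-q)) y x u) →
      (∃ z ∈ S, (p z < p x ∧ (-q) z < (-q) y) ∨ (p y < p z ∧ (-q) x < (-q) z)) →
      (∃ x y, Adj S p q x y ∧ q x < q y ∧
        (∀ u ∈ S, sg u = true → ¬ Iso S p (-q) x y u) ∧
        (∀ u ∈ S, sg u = true → ¬ Iso S (-p) q y x u) ∧ NE S p q x y) := by
    rintro x y h3 h4 h5 h6 ⟨z, hz, h7⟩
    simp only [Pi.neg_apply] at h4 h7
    refine ⟨x, y, h3.compl', by omega, ?_, ?_, z, hz, ?_⟩
    · intro u hu su
      exact h5 u hu (by simp [su])
    · intro u hu su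
      have := h6 u hu (by simp [su])
      rwa [neg_neg] at this
    · omega
  have hpd' : ∀ x y, Adj S p (-q) x y → (-q) y < (-q) x →
      (fun w => !sg w) x = true ∧ (fun w => !sg w) y = true := by
    intro x y h3 h4
    simp only [Pi.neg_apply] at h4
    have := hpa x y h3.compl' (by omega)
    simp [this.1, this.2]
  by_cases hTT : ∃ a b, TTw S p q a b
  · obtain ⟨a, b, hab⟩ := hTT
    have hne' : q a ≠ q b := fun e => by
      have := hq e
      subst this
      exact lt_irrefl _ hab.lt
    rcases lt_or_gt_of_ne hne' with h2 | h2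
    · obtain ⟨x, y, h3, h4, h5, h6, -⟩ := hab.good hp hq h2 hpd
      exact Or.inl ⟨x, y, h3, h4, h5, h6⟩
    · obtain ⟨x, y, h3, h4, h5, h6, h7⟩ := hab.compl.good (sg := fun w => !sg w) hp hq'
        (by simp only [Pi.neg_apply]; omega) hpd'
      exact Or.inr (fin2 x y h3 h4 h5 h6 h7)
  -- no twin in `TT`
  have key : ∀ a b, a ∈ TT S p q → b ∈ TT S p q → a ≠ b →
      ¬ Blk (TT S p q) p q {a, b} := by
    have key' : ∀ a b, a ∈ TT S p q → b ∈ TT S p q → p a < p b →
        ¬ Blk (TT S p q) p q {a, b} := by
      intro a b ha hb hab hBl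
      have h2 : ∀ z ∈ TT S p q, z ≠ a → z ≠ b →
          ¬ (p a < p z ∧ p z < p b) ∧ ¬ (q a < q z ∧ q z < q b) ∧ ¬ (q b < q z ∧ q z < q a) := by
        intro z hz h3 h4
        have h5 : z ∉ ({a, b} : Finset L) := by simp [h3, h4]
        have h6 := hBl.2 a (by simp) b (by simp) z hz h5
        have h7 := hBl.2 b (by simp) a (by simp) z hz h5
        exact ⟨h6.1, h6.2, h7.2⟩
      refine hTT ⟨a, b, ha, hb, hab, ?_, ?_, ?_⟩
      · intro z hz hcon
        refine (h2 z hz ?_ ?_).1 hcon
        · rintro rfl
          omega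
        · rintro rfl
          omega
      · intro z hz hcon
        refine (h2 z hz ?_ ?_).2.1 hcon
        · rintro rfl
          omega
        · rintro rfl
          omega
      · intro z hz hcon
        refine (h2 z hz ?_ ?_).2.2 hcon
        · rintro rfl
          omega
        · rintro rfl
          omega
    intro a b ha hb hab hBl
    rcases lt_or_gt_of_ne (fun e => hab (hp e) : p a ≠ p b) with h2 | h2
    · exact key' a b ha hb h2 hBl
    · exact key' b a hb ha h2 (by rwa [Finset.pair_comm])
  have hTS : TT S p q ⊆ S := fun z hz => (mem_TT.mp hz).1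
  have hsimple : Simple (TT S p q) p q := by
    intro K hK
    by_contra hcon
    rw [not_or, not_le] at hcon
    obtain ⟨hK2, hKT⟩ := hcon
    obtain ⟨z, hz, hzK⟩ : ∃ z ∈ TT S p q, z ∉ K := by
      by_contra hall
      push_neg at hall
      exact hKT (Finset.Subset.antisymm hK.1 hall)
    by_cases hoK : ∀ a ∈ K, ∀ b ∈ K, ∀ c ∈ K, ∀ d ∈ K, ¬ Occ p q a b c d
    · obtain ⟨x, hx, y, hy, hxy, h1⟩ := hT L (TT S p q) K p q hp hq hK hK2 hoK
      exact key x y (hK.1 hx) (hK.1 hy) hxy h1
    · push_neg at hoK
      obtain ⟨a, ha, b, hb, c, hc, d, hd, ho⟩ := hoK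
      refine hCF a (hTS (hK.1 ha)) b (hTS (hK.1 hb)) c (hTS (hK.1 hc)) d (hTS (hK.1 hd)) ho z
        (hTS hz) ?_
      have e1 := hK.2 a ha d hd z hz hzK
      have e2 := hK.2 b hb c hc z hz hzK
      have e3 := hK.2 c hc b hb z hz hzK
      have n1 : p z ≠ p a := fun e => hzK (hp e ▸ ha)
      have n2 : p z ≠ p d := fun e => hzK (hp e ▸ hd)
      have n3 : q z ≠ q b := fun e => hzK (hq e ▸ hb)
      have n4 : q z ≠ q c := fun e => hzK (hq e ▸ hc)
      simp only [Occ] at ho
      simp only [Cor]
      omega
  have hcard : 3 ≤ (TT S p q).card := by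
    by_contra hcon
    obtain ⟨a, ha, b, hb, c, hc, d, hd, ho⟩ := hocc
    obtain ⟨td, htd⟩ := exists_run hp hq hd
    have hle : (TT S p q).card ≤ 1 := by
      by_contra h2
      have h3 : (TT S p q).card = 2 := by omega
      obtain ⟨x, y, hxy, h4⟩ := Finset.card_eq_two.mp h3
      refine key x y (by rw [h4]; simp) (by rw [h4]; simp) hxy ?_
      rw [h4]
      exact ⟨Finset.Subset.refl _, fun a _ b _ z hz hz' => absurd hz hz'⟩
    have hall : ∀ z ∈ S, Run S p q td z := by
      intro z hz
      obtain ⟨t', ht'⟩ := exists_run hp hq hz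
      rwa [Finset.card_le_one.mp hle t' ht'.ht td htd.ht] at ht'
    have la := (hall a ha).le
    simp only [Occ] at ho
    rcases run_m hp hq htd with ⟨i1, -, -⟩ | ⟨i1, -, -⟩
    · have h1 := i1 a ha b hb la (by omega) (by omega)
      have h2 := i1 b hb c hc (by omega) (by omega) (by omega)
      omega
    · have h1 := i1 a ha b hb la (by omega) (by omega)
      have h2 := i1 b hb c hc (by omega) (by omega) (by omega)
      omega
  -- a twin of `S`
  obtain ⟨y, hy, hyT⟩ : ∃ y ∈ S, y ∉ TT S p q := by
    by_contra hall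
    push_neg at hall
    exact hns ((Finset.Subset.antisymm hTS hall) ▸ hsimple)
  obtain ⟨t, ht⟩ := exists_run hp hq hy
  obtain ⟨c, hc, -⟩ := exists_succ hp hq ht (fun h => hyT (h ▸ ht.ht))
  have hne : q t ≠ q c := fun e => by
    have := hq e
    subst this
    exact lt_irrefl _ hc.lt
  rcases lt_or_gt_of_ne hne with h1 | h1
  · right
    obtain ⟨h5, h6, h7⟩ := main_desc (sg := fun w => !sg w) hp hq'
      (by rw [TT_compl]; exact hsimple.compl) (by rw [TT_compl]; exact hcard) hpd'
      (by rw [TT_compl]; exact ht.ht) hc.compl (by simp only [Pi.neg_apply]; omega)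
    exact fin2 t c hc.compl (by simp only [Pi.neg_apply]; omega) h5 h6 h7
  · left
    obtain ⟨h5, h6, -⟩ := main_desc hp hq hsimple hcard hpd ht.ht hc h1
    exact ⟨t, c, hc, h1, h5, h6⟩

end

end Pool.GSP.Sep
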