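import Pool.Agent.GSP.PPDefs

/-!
MP_7b7176_co, ROAD S: good sets of two or four letters (helper92), and the bridges from the pairs
`GI` and from `Theta`.
-/

set_option autoImplicit false
set_option linter.unusedSectionVars false

namespace Pool.GSP

namespace PB_

variable {L : Type*} [DecidableEq L]

variable {S : Finset L} {p q : L → ℤ} {sg : L → Bool}

omit [DecidableEq L] in
lemma even_pair [DecidableEq L] {x y : L} (hxy : x ≠ y) (P : L → Prop) [DecidablePred P] :
    Even (({x, y} : Finset L).filter P).card ↔ (P x ↔ P y) := by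
  by_cases h1 : P x <;> by_cases h2 : P y <;>
    simp [Finset.filter_insert, Finset.filter_singleton, h1, h2, hxy]

lemma odd_pair {x y : L} (hxy : x ≠ y) (P : L → Prop) [DecidablePred P] :
    Odd (({x, y} : Finset L).filter P).card ↔ ¬ (P x ↔ P y) := by
  rw [← Nat.not_even_iff_odd, even_pair hxy]

lemma bq_self {u : L} : BB p q sg u u ↔ sg u = true := by simp [BB]

lemma bq_ne {u w : L} (h : u ≠ w) :
    BB p q sg u w ↔ (p u < p w ∧ q w < q u) ∨ (p w < p u ∧ q u < q w) := by simp [BB, h]

lemma bq_comm {u w : L} : BB p q sg u w ↔ BB p q sg w u := by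
  by_cases h : u = w
  · subst h
    rfl
  · rw [bq_ne h, bq_ne (Ne.symm h)]
    tauto

/-- Type I. -/
theorem gset_of_gi (hp : Function.Injective p) (hq : Function.Injective q) {x y : L}
    (h : GI S p q sg x y) : GSet S p q sg {x, y} := by
  obtain ⟨⟨hx, hy, hxy, hyx, hemp⟩, -, sx, sy, i1, i2⟩ := h
  have hne : x ≠ y := fun e => by subst e; omega
  have evn : ∀ w, Ev p q sg {x, y} w ↔ (BB p q sg w x ↔ BB p q sg w y) :=
    fun w => even_pair hne _
  have bxx : BB p q sg x x := bq_self.2 sx
  have byy : BB p q sg y y := bq_self.2 sy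
  have bxy : BB p q sg x y := (bq_ne hne).2 (Or.inl ⟨hxy, hyx⟩)
  have byx : BB p q sg y x := bq_comm.1 bxy
  have ex : Ev p q sg {x, y} x := (evn x).2 (iff_of_true bxx bxy)
  have ey : Ev p q sg {x, y} y := (evn y).2 (iff_of_true byx byy)
  refine ⟨?_, Or.inl (Finset.card_pair hne), ?_, ?_, ?_, ?_⟩
  · intro z hz
    rw [Finset.mem_insert, Finset.mem_singleton] at hz
    rcases hz with rfl | rfl
    · exact hx
    · exact hy
  · intro w hw
    rw [Finset.mem_insert, Finset.mem_singleton] at hw
    rcases hw with rfl | rfl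
    · exact ex
    · exact ey
  · intro w hw hwZ
    rw [Finset.mem_insert, Finset.mem_singleton, not_or] at hwZ
    rw [odd_pair hne, odd_pair hne]
    rintro ⟨h1, h2⟩
    have p1 := ne_p hp hwZ.1
    have p2 := ne_p hp hwZ.2
    have q1 := ne_p hq hwZ.1
    have q2 := ne_p hq hwZ.2
    have := hemp w hw
    omega
  · intro z hz
    rw [Finset.mem_insert, Finset.mem_singleton] at hz
    rcases hz with rfl | rfl
    · exact ⟨z, hx, ex, bxx⟩
    · exact ⟨z, hy, ey, byy⟩
  · intro m hm hmZ z hz hne'
    rw [Finset.mem_insert, Finset.mem_singleton, not_or] at hmZ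
    rw [Finset.mem_insert, Finset.mem_singleton] at hz
    have p1 := ne_p hp hmZ.1
    have p2 := ne_p hp hmZ.2
    have q1 := ne_p hq hmZ.1
    have q2 := ne_p hq hmZ.2
    have bxm := bq_ne (p := p) (q := q) (sg := sg) (Ne.symm hmZ.1)
    have bym := bq_ne (p := p) (q := q) (sg := sg) (Ne.symm hmZ.2)
    have hmm : BB p q sg m m ↔ sg m = true := bq_self
    -- the final check
    have fin : ∀ w ∈ S, w ≠ m → w ≠ x → w ≠ y →
        (((p w < p x ∧ q x < q w) ∨ (p x < p w ∧ q w < q x)) ↔
          ((p w < p y ∧ q y < q w) ∨ (p y < p w ∧ q w < q y))) →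
        ¬ (((p w < p m ∧ q m < q w) ∨ (p m < p w ∧ q w < q m)) ↔
          ((p w < p x ∧ q x < q w) ∨ (p x < p w ∧ q w < q x))) →
        ∃ w ∈ S, w ≠ m ∧ Ev p q sg {x, y} w ∧ ¬ (BB p q sg w m ↔ BB p q sg w z) := by
      intro w hw w1 w2 w3 h1 h2
      have e1 : Ev p q sg {x, y} w := by
        rw [evn, bq_ne w2, bq_ne w3]
        exact h1
      refine ⟨w, hw, w1, e1, ?_⟩
      have e2 : BB p q sg w z ↔ BB p q sg w x := by
        rcases hz with rfl | rfl
        · rfl
        · exact ((evn w).1 e1).symm
      rw [e2, bq_ne w1, bq_ne w2]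
      exact h2
    by_cases hs : sg m = true
    · -- positive letter
      have hzm : ¬ BB p q sg z m := fun h => hne' (iff_of_true (hmm.2 hs) h)
      refine ⟨z, ?_, ?_, ?_, ?_⟩
      · rcases hz with rfl | rfl
        · exact hx
        · exact hy
      · rcases hz with rfl | rfl
        · exact Ne.symm hmZ.1
        · exact Ne.symm hmZ.2
      · rcases hz with rfl | rfl
        · exact ex
        · exact ey
      · intro h
        rcases hz with rfl | rfl
        · exact hzm (h.2 bxx)
        · exact hzm (h.2 byy)
    · have hzm : BB p q sg z m := by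
        by_contra h
        exact hne' (iff_of_false (fun h' => hs (hmm.1 h')) h)
      by_cases hx' : BB p q sg x m
      · by_cases hy' : BB p q sg y m
        · have hsf : sg m = false := by simpa using hs
          rw [bxm] at hx'
          rw [bym] at hy'
          have he := hemp m hm
          have cases' : (p y < p m ∧ q m < q y) ∨ (p m < p x ∧ q x < q m) := by omega
          rcases cases' with ⟨c1, c2⟩ | ⟨c1, c2⟩
          · -- lower right corner
            have hI := i1 m hm hsf
            by_contra hcon
            apply hI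
            refine ⟨c1, c2, ?_, ?_⟩
            · intro w hw w1 w2
              have wm : w ≠ m := fun e => by subst e; omega
              have wx : w ≠ x := fun e => by subst e; omega
              have wy : w ≠ y := fun e => by subst e; omega
              have m1 := ne_p hp wm
              have m2 := ne_p hp wx
              have m3 := ne_p hp wy
              by_contra h0
              exact hcon (fin w hw wm wx wy (by omega) (by omega))
            · intro w hw w1 w2
              have wm : w ≠ m := fun e => by subst e; omega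
              have wx : w ≠ x := fun e => by subst e; omega
              have wy : w ≠ y := fun e => by subst e; omega
              have m1 := ne_p hq wm
              have m2 := ne_p hq wx
              have m3 := ne_p hq wy
              by_contra h0
              exact hcon (fin w hw wm wx wy (by omega) (by omega))
          · -- upper left corner
            have hI := i2 m hm hsf
            by_contra hcon
            apply hI
            simp only [Iso, Pi.neg_apply, neg_lt_neg_iff]
            refine ⟨c1, c2, ?_, ?_⟩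
            · intro w hw w1 w2
              have wm : w ≠ m := fun e => by subst e; omega
              have wx : w ≠ x := fun e => by subst e; omega
              have wy : w ≠ y := fun e => by subst e; omega
              have m1 := ne_p hp wm
              have m2 := ne_p hp wx
              have m3 := ne_p hp wy
              by_contra h0
              exact hcon (fin w hw wm wx wy (by omega) (by omega))
            · intro w hw w1 w2
              have wm : w ≠ m := fun e => by subst e; omega
              have wx : w ≠ x := fun e => by subst e; omega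
              have wy : w ≠ y := fun e => by subst e; omega
              have m1 := ne_p hq wm
              have m2 := ne_p hq wx
              have m3 := ne_p hq wy
              by_contra h0
              exact hcon (fin w hw wm wx wy (by omega) (by omega))
        · -- witness y
          refine ⟨y, hy, Ne.symm hmZ.2, ey, ?_⟩
          intro h
          apply hy'
          rw [h]
          rcases hz with rfl | rfl
          · exact byx
          · exact byy
      · refine ⟨x, hx, Ne.symm hmZ.1, ex, ?_⟩
        intro h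
        apply hx'
        rw [h]
        rcases hz with rfl | rfl
        · exact bxx
        · exact bxy

omit [DecidableEq L] in
lemma card_not (Z : Finset L) (P : L → Prop) [DecidablePred P] (hZ : Even Z.card) :
    Even (Z.filter (fun k => ¬ P k)).card ↔ Even (Z.filter P).card := by
  have h := Finset.card_filter_add_card_filter_not (s := Z) P
  constructor
  · intro h1
    have h2 : Even ((Z.filter P).card + (Z.filter (fun k => ¬ P k)).card) := by rw [h]; exact hZ
    rw [Nat.even_add] at h2
    exact h2.2 h1
  · intro h1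
    have h2 : Even ((Z.filter P).card + (Z.filter (fun k => ¬ P k)).card) := by rw [h]; exact hZ
    rw [Nat.even_add] at h2
    exact h2.1 h1

omit [DecidableEq L] in
lemma bq_compl [DecidableEq L] (hp : Function.Injective p) (hq : Function.Injective q) (u w : L) :
    BB p (-q) (fun z => !sg z) u w ↔ ¬ BB p q sg u w := by
  by_cases h : u = w
  · subst h
    rw [bq_self, bq_self]
    simp
  · rw [bq_ne h, bq_ne h]
    have h1 := ne_p hp h
    have h2 := ne_p hq h
    simp only [Pi.neg_apply]
    omega

lemma evn_compl (hp : Function.Injective p) (hq : Function.Injective q) {Z : Finset L}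
    (hZ : Even Z.card) (w : L) : Ev p (-q) (fun z => !sg z) Z w ↔ Ev p q sg Z w := by
  unfold Ev
  rw [← card_not Z (fun k => BB p q sg w k) hZ]
  have : Z.filter (fun k => BB p (-q) (fun z => !sg z) w k) =
      Z.filter (fun k => ¬ BB p q sg w k) :=
    Finset.filter_congr (fun k _ => bq_compl hp hq w k)
  rw [this]

/-- Complement. -/
theorem gset_compl (hp : Function.Injective p) (hq : Function.Injective q) {Z : Finset L}
    (h : GSet S p (-q) (fun z => !sg z) Z)
    (hr : ∀ z ∈ Z, ∃ w ∈ S, Ev p q sg Z w ∧ BB p q sg w z) : GSet S p q sg Z := by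
  have hZ : Even Z.card := by
    rcases h.card with h1 | h1 <;> rw [h1]
    · exact even_two
    · exact ⟨2, rfl⟩
  refine ⟨h.sub, h.card, fun w hw => (evn_compl hp hq hZ w).1 (h.ev w hw), ?_, hr, ?_⟩
  · intro w hw hwZ h1
    refine h.emp w hw hwZ ⟨h1.1, ?_⟩
    have h2 : Z.filter (fun k => (-q) k < (-q) w) = Z.filter (fun k => ¬ q k < q w) := by
      apply Finset.filter_congr
      intro k hk
      have h3 : q k ≠ q w := ne_p hq (fun e => hwZ (e ▸ hk))
      simp only [Pi.neg_apply]
      omega
    rw [h2, ← Nat.not_even_iff_odd, card_not Z _ hZ, Nat.not_even_iff_odd]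
    exact h1.2
  · intro m hm hmZ z hz h1
    have h2 : ¬ (BB p (-q) (fun z => !sg z) m m ↔ BB p (-q) (fun z => !sg z) z m) := by
      rw [bq_compl hp hq, bq_compl hp hq, not_iff_not]
      exact h1
    obtain ⟨w, hw, h3, h4, h5⟩ := h.unit m hm hmZ z hz h2
    refine ⟨w, hw, h3, (evn_compl hp hq hZ w).1 h4, ?_⟩
    rwa [bq_compl hp hq, bq_compl hp hq, not_iff_not] at h5

/-- Type II. -/
theorem gset_of_gi' (hp : Function.Injective p) (hq : Function.Injective q) {x y : L}
    (h : GI S p (-q) (fun z => !sg z) x y) (hN : NE S p q x y) : GSet S p q sg {x, y} := by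
  have h0 := gset_of_gi hp (inj_neg hq) h
  obtain ⟨⟨hx, hy, hxy, hyx, hemp⟩, -, sx, sy, i1, i2⟩ := h
  simp only [Pi.neg_apply, neg_lt_neg_iff] at hyx
  have hne : x ≠ y := fun e => by subst e; omega
  refine gset_compl hp hq h0 ?_
  obtain ⟨w, hw, h1⟩ := hN
  have wx : w ≠ x := fun e => by subst e; omega
  have wy : w ≠ y := fun e => by subst e; omega
  have bx : BB p q sg w x := by
    rw [bq_ne wx]
    omega
  have bb : BB p q sg w y := by
    rw [bq_ne wy]
    omega
  intro z hz
  rw [Finset.mem_insert, Finset.mem_singleton] at hz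
  refine ⟨w, hw, (even_pair hne _).2 (iff_of_true bx bb), ?_⟩
  rcases hz with rfl | rfl
  · exact bx
  · exact bb

theorem gset_of_hasPair (hp : Function.Injective p) (hq : Function.Injective q)
    (h : HasPair S p q sg) : ∃ Z, GSet S p q sg Z := by
  rcases h with ⟨x, y, h⟩ | ⟨x, y, h, h'⟩
  · exact ⟨_, gset_of_gi hp hq h⟩
  · exact ⟨_, gset_of_gi' hp hq h h'⟩

lemma even_quad {a b c d : L} (h1 : a ≠ b) (h2 : a ≠ c) (h3 : a ≠ d) (h4 : b ≠ c) (h5 : b ≠ d)
    (h6 : c ≠ d) (P : L → Prop) [DecidablePred P] :
    Even (({a, b, c, d} : Finset L).filter P).card ↔ ((P a ↔ P b) ↔ (P c ↔ P d)) := by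
  have e1 : ({a, b, c, d} : Finset L) = {a, b} ∪ {c, d} := by
    ext z
    simp only [Finset.mem_insert, Finset.mem_singleton, Finset.mem_union]
    tauto
  have e2 : Disjoint (({a, b} : Finset L).filter P) (({c, d} : Finset L).filter P) := by
    rw [Finset.disjoint_left]
    intro z hz hz'
    rw [Finset.mem_filter, Finset.mem_insert, Finset.mem_singleton] at hz hz'
    rcases hz.1 with rfl | rfl <;> rcases hz'.1 with rfl | rfl <;> tauto
  rw [e1, Finset.filter_union, Finset.card_union_of_disjoint e2, Nat.even_add, even_pair h1,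
    even_pair h6]

/-- The special circuit. -/
theorem gset_of_theta {a b c d : L} (h : Theta S p q sg a b c d) :
    GSet S p q sg {a, b, c, d} := by
  obtain ⟨ha, hb, hc, hd, p1, p2, p3, q1, q2, q3, sa, sb, sc, sd, cen, -⟩ := h
  have nab : a ≠ b := fun e => by subst e; omega
  have nac : a ≠ c := fun e => by subst e; omega
  have nad : a ≠ d := fun e => by subst e; omega
  have nbc : b ≠ c := fun e => by subst e; omega
  have nbd : b ≠ d := fun e => by subst e; omega
  have ncd : c ≠ d := fun e => by subst e; omega
  have evn : ∀ w, Ev p q sg {a, b, c, d} w ↔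
      ((BB p q sg w a ↔ BB p q sg w b) ↔ (BB p q sg w c ↔ BB p q sg w d)) :=
    fun w => even_quad nab nac nad nbc nbd ncd _
  have Baa : BB p q sg a a := bq_self.2 sa
  have Bbb : ¬ BB p q sg b b := by rw [bq_self, sb]; simp
  have Bcc : ¬ BB p q sg c c := by rw [bq_self, sc]; simp
  have Bdd : BB p q sg d d := bq_self.2 sd
  have Bab : ¬ BB p q sg a b := by rw [bq_ne nab]; omega
  have Bac : BB p q sg a c := by rw [bq_ne nac]; omega
  have Bad : ¬ BB p q sg a d := by rw [bq_ne nad]; omega
  have Bbc : BB p q sg b c := by rw [bq_ne nbc]; omega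
  have Bbd : BB p q sg b d := by rw [bq_ne nbd]; omega
  have Bcd : ¬ BB p q sg c d := by rw [bq_ne ncd]; omega
  have Bba : ¬ BB p q sg b a := fun h => Bab (bq_comm.1 h)
  have Bca : BB p q sg c a := bq_comm.1 Bac
  have Bda : ¬ BB p q sg d a := fun h => Bad (bq_comm.1 h)
  have Bcb : BB p q sg c b := bq_comm.1 Bbc
  have Bdb : BB p q sg d b := bq_comm.1 Bbd
  have Bdc : ¬ BB p q sg d c := fun h => Bcd (bq_comm.1 h)
  have ea : Ev p q sg {a, b, c, d} a :=
    (evn a).2 (iff_of_false (fun h => Bab (h.1 Baa)) (fun h => Bad (h.1 Bac)))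
  have eb : Ev p q sg {a, b, c, d} b :=
    (evn b).2 (iff_of_true (iff_of_false Bba Bbb) (iff_of_true Bbc Bbd))
  have ec : Ev p q sg {a, b, c, d} c :=
    (evn c).2 (iff_of_true (iff_of_true Bca Bcb) (iff_of_false Bcc Bcd))
  have ed : Ev p q sg {a, b, c, d} d :=
    (evn d).2 (iff_of_false (fun h => Bda (h.2 Bdb)) (fun h => Bdc (h.2 Bdd)))
  have mem : ∀ z, z ∈ ({a, b, c, d} : Finset L) ↔ z = a ∨ z = b ∨ z = c ∨ z = d := by
    intro z
    simp only [Finset.mem_insert, Finset.mem_singleton]
  have hcen : ∀ w ∈ S, w ∉ ({a, b, c, d} : Finset L) →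
      p b < p w ∧ p w < p c ∧ q a < q w ∧ q w < q d := by
    intro w hw hwZ
    rw [mem] at hwZ
    rcases cen w hw with h | h | h | h | h
    · exact absurd (Or.inl h) hwZ
    · exact absurd (Or.inr (Or.inl h)) hwZ
    · exact absurd (Or.inr (Or.inr (Or.inl h))) hwZ
    · exact absurd (Or.inr (Or.inr (Or.inr h))) hwZ
    · exact h
  refine ⟨?_, Or.inr ?_, ?_, ?_, ?_, ?_⟩
  · intro z hz
    rw [mem] at hz
    rcases hz with rfl | rfl | rfl | rfl
    · exact ha
    · exact hb
    · exact hc
    · exact hd
  · rw [Finset.card_insert_of_notMem, Finset.card_insert_of_notMem, Finset.card_pair ncd]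
    · simp only [Finset.mem_insert, Finset.mem_singleton, not_or]
      exact ⟨nbc, nbd⟩
    · simp only [Finset.mem_insert, Finset.mem_singleton, not_or]
      exact ⟨nab, nac, nad⟩
  · intro w hw
    rw [mem] at hw
    rcases hw with rfl | rfl | rfl | rfl
    · exact ea
    · exact eb
    · exact ec
    · exact ed
  · intro w hw hwZ
    have h1 := hcen w hw hwZ
    rintro ⟨h2, -⟩
    rw [← Nat.not_even_iff_odd, even_quad nab nac nad nbc nbd ncd] at h2
    apply h2
    have k1 : p a < p w := by omega
    have k2 : p b < p w := by omega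
    have k3 : ¬ p c < p w := by omega
    have k4 : ¬ p d < p w := by omega
    tauto
  · intro z hz
    rw [mem] at hz
    rcases hz with rfl | rfl | rfl | rfl
    · exact ⟨z, ha, ea, Baa⟩
    · exact ⟨c, hc, ec, Bcb⟩
    · exact ⟨a, ha, ea, Bac⟩
    · exact ⟨z, hd, ed, Bdd⟩
  · intro m hm hmZ z hz h1
    have h2 := hcen m hm hmZ
    have hzm : z ≠ m := fun e => hmZ (e ▸ hz)
    rw [mem] at hz
    refine ⟨z, ?_, hzm, ?_, ?_⟩
    · rcases hz with rfl | rfl | rfl | rfl
      · exact ha
      · exact hb
      · exact hc
      · exact hd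
    · rcases hz with rfl | rfl | rfl | rfl
      · exact ea
      · exact eb
      · exact ec
      · exact ed
    · rw [bq_ne hzm] at h1 ⊢
      rcases hz with rfl | rfl | rfl | rfl
      · intro h3
        have h4 := h3.2 Baa
        omega
      · intro h3
        exact Bbb (h3.1 (by omega))
      · intro h3
        exact Bcc (h3.1 (by omega))
      · intro h3
        have h4 := h3.2 Bdd
        omega

omit [DecidableEq L] in
lemma bq_inv [DecidableEq L] (u w : L) : BB q p sg u w ↔ BB p q sg u w := by
  by_cases h : u = w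
  · subst h
    rw [bq_self, bq_self]
  · rw [bq_ne h, bq_ne h]
    tauto

lemma evn_inv {Z : Finset L} (w : L) : Ev q p sg Z w ↔ Ev p q sg Z w := by
  unfold Ev
  rw [Finset.filter_congr (fun k _ => bq_inv w k)]

/-- Inverse. -/
theorem gset_inv {Z : Finset L} (h : GSet S q p sg Z) : GSet S p q sg Z := by
  refine ⟨h.sub, h.card, fun w hw => (evn_inv w).1 (h.ev w hw), fun w hw hwZ h1 =>
    h.emp w hw hwZ h1.symm, ?_, ?_⟩
  · intro z hz
    obtain ⟨w, hw, h1, h2⟩ := h.root z hz
    exact ⟨w, hw, (evn_inv w).1 h1, (bq_inv w z).1 h2⟩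
  · intro m hm hmZ z hz h1
    have k1 : BB q p sg m m ↔ BB p q sg m m := bq_inv m m
    have k2 : BB q p sg z m ↔ BB p q sg z m := bq_inv z m
    have h1' : ¬ (BB q p sg m m ↔ BB q p sg z m) := fun h => h1 (k1.symm.trans (h.trans k2))
    obtain ⟨w, hw, h2, h3, h4⟩ := h.unit m hm hmZ z hz h1'
    refine ⟨w, hw, h2, (evn_inv w).1 h3, ?_⟩
    have e1 : BB q p sg w m ↔ BB p q sg w m := bq_inv w m
    have e2 : BB q p sg w z ↔ BB p q sg w z := bq_inv w z
    rw [← e1, ← e2]
    exact h4

end PB_

theorem t_PPBR : S_PPBR := by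
  intro L _ S p q hp hq sg h
  rcases h with h | ⟨a, b, c, d, h⟩ | ⟨a, b, c, d, h⟩
  · exact PB_.gset_of_hasPair hp hq h
  · exact ⟨_, PB_.gset_of_theta h⟩
  · exact ⟨_, PB_.gset_inv (PB_.gset_of_theta h)⟩

end Pool.GSP
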