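import Pool.Agent.GSP.PPDefs

/-!
MP_7b7176_co, ROAD S, THEOREM PP: corner closures.
-/

set_option autoImplicit false
set_option linter.unusedSectionVars false

namespace Pool.GSP

namespace PP_

variable {L : Type*} [DecidableEq L] {S C Z : Finset L} {p q : L → ℤ} {sg : L → Bool}

omit [DecidableEq L] in
lemma bb_comm {u v : L} : BB p q sg u v ↔ BB p q sg v u := by
  unfold BB
  constructor
  · rintro (⟨rfl, h⟩ | h | h)
    · exact Or.inl ⟨rfl, h⟩
    · exact Or.inr (Or.inr h)
    · exact Or.inr (Or.inl h)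
  · rintro (⟨rfl, h⟩ | h | h)
    · exact Or.inl ⟨rfl, h⟩
    · exact Or.inr (Or.inr h)
    · exact Or.inr (Or.inl h)

omit [DecidableEq L] in
lemma bb_self {u : L} : BB p q sg u u ↔ sg u = true := by
  unfold BB
  constructor
  · rintro (⟨-, h⟩ | h | h)
    · exact h
    · omega
    · omega
  · intro h
    exact Or.inl ⟨rfl, h⟩

omit [DecidableEq L] in
lemma bb_ne {u v : L} (h : u ≠ v) :
    BB p q sg u v ↔ ((p u < p v ∧ q v < q u) ∨ (p v < p u ∧ q u < q v)) := by
  unfold BB
  constructor
  · rintro (⟨h1, -⟩ | h1)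
    · exact absurd h1 h
    · exact h1
  · exact Or.inr

lemma card_even (h : GSet S p q sg Z) : Even Z.card := by
  rcases h.card with h | h
  · rw [h]; decide
  · rw [h]; decide

/-- A letter outside `Z` with an odd number of letters of `Z` on its left. -/
lemma sides (hp : Function.Injective p) (hZ : Even Z.card) {w : L} (hw : w ∉ Z)
    (ho : Odd (Z.filter (fun k => p k < p w)).card) :
    (∃ z ∈ Z, p z < p w) ∧ ∃ z ∈ Z, p w < p z := by
  constructor
  · have h1 : 0 < (Z.filter (fun k => p k < p w)).card := ho.pos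
    obtain ⟨z, hz⟩ := Finset.card_pos.1 h1
    exact ⟨z, (Finset.mem_filter.1 hz).1, (Finset.mem_filter.1 hz).2⟩
  · by_contra hno
    push Not at hno
    have h2 : Z.filter (fun k => p k < p w) = Z := by
      refine Finset.filter_true_of_mem (fun z hz => ?_)
      have h3 := hno z hz
      have h4 : p z ≠ p w := fun e => hw (hp e ▸ hz)
      omega
    rw [h2] at ho
    exact (Nat.not_even_iff_odd.2 ho) hZ

/-- `C` contains every letter of `S` which has letters of `C` on its four sides. -/
def Bx (S C : Finset L) (p q : L → ℤ) : Prop :=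
  ∀ w ∈ S, (∃ z ∈ C, p z < p w) → (∃ z ∈ C, p w < p z) → (∃ z ∈ C, q z < q w) →
    (∃ z ∈ C, q w < q z) → w ∈ C

lemma emp_up (hp : Function.Injective p) (hq : Function.Injective q) (hbx : Bx S C p q)
    (h : GSet C p q sg Z) : ∀ w ∈ S, w ∉ Z → ¬ (Odd (Z.filter (fun k => p k < p w)).card ∧
      Odd (Z.filter (fun k => q k < q w)).card) := by
  rintro w hw hwZ ⟨h1, h2⟩
  obtain ⟨⟨z1, hz1, h3⟩, z2, hz2, h4⟩ := sides hp (card_even h) hwZ h1
  obtain ⟨⟨z3, hz3, h5⟩, z4, hz4, h6⟩ := sides hq (card_even h) hwZ h2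
  have hwC : w ∈ C := hbx w hw ⟨z1, h.sub hz1, h3⟩ ⟨z2, h.sub hz2, h4⟩ ⟨z3, h.sub hz3, h5⟩
    ⟨z4, h.sub hz4, h6⟩
  exact h.emp w hwC hwZ ⟨h1, h2⟩

lemma cornerA (hp : Function.Injective p) (hq : Function.Injective q) (hCS : C ⊆ S) {v : L}
    (hvS : v ∈ S) (hbx : Bx S C p q) (h1 : ∀ k ∈ C, ¬ BB p q sg v k)
    (h2 : ∀ m ∈ S, m ∉ C → (m ≠ v ∧ BB p q sg v m) ∨ ∀ w ∈ C, ¬ BB p q sg w m)
    (h : GSet C p q sg Z) : GSet S p q sg Z where
  sub := h.sub.trans hCS
  card := h.card
  ev := h.ev
  emp := emp_up hp hq hbx h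
  root := by
    intro z hz
    obtain ⟨w, hw, h3, h4⟩ := h.root z hz
    exact ⟨w, hCS hw, h3, h4⟩
  unit := by
    intro m hm hmZ z hz hne
    by_cases hmC : m ∈ C
    · obtain ⟨w, hw, h3⟩ := h.unit m hmC hmZ z hz hne
      exact ⟨w, hCS hw, h3⟩
    · rcases h2 m hm hmC with ⟨h3, h4⟩ | h3
      · refine ⟨v, hvS, fun e => h3 e.symm, ?_, ?_⟩
        · have h5 : Z.filter (fun k => BB p q sg v k) = ∅ :=
            Finset.filter_false_of_mem (fun k hk => h1 k (h.sub hk))
          unfold Ev
          rw [h5]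
          simp
        · have h5 := h1 z (h.sub hz)
          tauto
      · obtain ⟨w, hw, h4, h5⟩ := h.root z hz
        refine ⟨w, hCS hw, fun e => hmC (e ▸ hw), h4, ?_⟩
        have h6 := h3 w hw
        tauto

/-! ### complement -/

omit [DecidableEq L] in
lemma bb_compl (hp : Function.Injective p) (hq : Function.Injective q) (u v : L) :
    BB p (-q) (fun z => !sg z) u v ↔ ¬ BB p q sg u v := by
  by_cases huv : u = v
  · subst huv
    rw [bb_self, bb_self]
    simp
  · rw [bb_ne huv, bb_ne huv]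
    have h1 := ne_p hp huv
    have h2 := ne_p hq huv
    simp only [Pi.neg_apply, neg_lt_neg_iff]
    omega

lemma even_compl (hZ : Even Z.card) (P : L → Prop) [DecidablePred P] :
    Even (Z.filter (fun k => ¬ P k)).card ↔ Even (Z.filter P).card := by
  have h1 := Finset.card_filter_add_card_filter_not (s := Z) P
  rw [← h1, Nat.even_add] at hZ
  exact hZ.symm

lemma ev_compl (hp : Function.Injective p) (hq : Function.Injective q) (hZ : Even Z.card) (w : L) :
    Ev p (-q) (fun z => !sg z) Z w ↔ Ev p q sg Z w := by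
  unfold Ev
  rw [← even_compl hZ (fun k => BB p q sg w k)]
  have h1 : Z.filter (fun k => BB p (-q) (fun z => !sg z) w k) =
      Z.filter (fun k => ¬ BB p q sg w k) :=
    Finset.filter_congr (fun k _ => bb_compl hp hq w k)
  rw [h1]

lemma odd_compl (hq : Function.Injective q) (hZ : Even Z.card) {w : L} (hw : w ∉ Z) :
    Odd (Z.filter (fun k => (-q) k < (-q) w)).card ↔ Odd (Z.filter (fun k => q k < q w)).card := by
  rw [← Nat.not_even_iff_odd, ← Nat.not_even_iff_odd, ← even_compl hZ (fun k => q k < q w)]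
  have h1 : Z.filter (fun k => (-q) k < (-q) w) = Z.filter (fun k => ¬ q k < q w) := by
    refine Finset.filter_congr (fun k hk => ?_)
    have h2 : q k ≠ q w := fun e => hw (hq e ▸ hk)
    simp only [Pi.neg_apply, neg_lt_neg_iff]
    omega
  rw [h1]

lemma cornerB (hp : Function.Injective p) (hq : Function.Injective q) (hCS : C ⊆ S) {v : L}
    (hvS : v ∈ S) (hbx : Bx S C p q) (h1 : ∀ k ∈ C, BB p q sg v k)
    (h2 : ∀ m ∈ S, m ∉ C → (m ≠ v ∧ ¬ BB p q sg v m) ∨ ∀ w ∈ C, BB p q sg w m)
    (h : GSet C p (-q) (fun z => !sg z) Z) : GSet S p q sg Z := by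
  have hZ := card_even h
  have hev : ∀ w, Ev p (-q) (fun z => !sg z) Z w ↔ Ev p q sg Z w := ev_compl hp hq hZ
  have hbb := bb_compl (sg := sg) hp hq
  have hevv : Ev p q sg Z v := by
    unfold Ev
    rw [Finset.filter_true_of_mem (fun k hk => h1 k (h.sub hk))]
    exact hZ
  refine ⟨h.sub.trans hCS, h.card, fun w hw => (hev w).1 (h.ev w hw), ?_, ?_, ?_⟩
  · rintro w hw hwZ ⟨h3, h4⟩
    obtain ⟨⟨z1, hz1, h5⟩, z2, hz2, h6⟩ := sides hp hZ hwZ h3
    obtain ⟨⟨z3, hz3, h7⟩, z4, hz4, h8⟩ := sides hq hZ hwZ h4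
    have hwC : w ∈ C := hbx w hw ⟨z1, h.sub hz1, h5⟩ ⟨z2, h.sub hz2, h6⟩ ⟨z3, h.sub hz3, h7⟩
      ⟨z4, h.sub hz4, h8⟩
    exact h.emp w hwC hwZ ⟨h3, (odd_compl hq hZ hwZ).2 h4⟩
  · intro z hz
    exact ⟨v, hvS, hevv, h1 z (h.sub hz)⟩
  · intro m hm hmZ z hz hne
    by_cases hmC : m ∈ C
    · have hne' : ¬ (BB p (-q) (fun z => !sg z) m m ↔ BB p (-q) (fun z => !sg z) z m) := by
        rw [hbb, hbb]
        tauto
      obtain ⟨w, hw, h3, h4, h5⟩ := h.unit m hmC hmZ z hz hne'
      rw [hbb, hbb] at h5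
      exact ⟨w, hCS hw, h3, (hev w).1 h4, by tauto⟩
    · rcases h2 m hm hmC with ⟨h3, h4⟩ | h3
      · have h5 := h1 z (h.sub hz)
        exact ⟨v, hvS, fun e => h3 e.symm, hevv, by tauto⟩
      · obtain ⟨w, hw, h4, h5⟩ := h.root z hz
        rw [hbb] at h5
        have h6 := h3 w hw
        exact ⟨w, hCS hw, fun e => hmC (e ▸ hw), (hev w).1 h4, by tauto⟩

end PP_

open PP_

/-- The induction hypothesis. -/
def IHyp {L : Type*} [DecidableEq L] (S : Finset L) : Prop :=
  ∀ C : Finset L, C.card < S.card → ∀ p q : L → ℤ, Function.Injective p → Function.Injective q →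
    ∀ sg : L → Bool, (∃ a ∈ C, ∃ b ∈ C, ∃ c ∈ C, ∃ d ∈ C, Occ p q a b c d) →
    ∃ Z, GSet C p q sg Z

theorem pp_corner {L : Type*} [DecidableEq L] {S : Finset L} {p q : L → ℤ}
    (hp : Function.Injective p) (hq : Function.Injective q) (sg : L → Bool) (IH : IHyp S)
    (h : ¬ CF S p q) : ∃ Z, GSet S p q sg Z := by
  unfold CF at h
  push Not at h
  obtain ⟨a, ha, b, hb, c, hc, d, hd, ho, z, hz, hcor⟩ := h
  have ho' := ho
  obtain ⟨h1, h2, h3, h4⟩ := ho
  obtain ⟨h5, h6⟩ := hcor
  have key : ∀ (P : L → Prop) [DecidablePred P], ¬ P z → (S.filter P).card < S.card := by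
    intro P _ hPz
    refine Finset.card_lt_card (Finset.filter_ssubset.2 ⟨z, hz, hPz⟩)
  rcases h5 with h5 | h5 <;> rcases h6 with h6 | h6
  · -- `z` in the lower left corner: `C` = upper right region
    have hcd := key (fun w => p z < p w ∧ q z < q w) (by simp)
    obtain ⟨Z, hZ⟩ := IH _ hcd p q hp hq sg
      ⟨a, Finset.mem_filter.2 ⟨ha, by omega⟩, b, Finset.mem_filter.2 ⟨hb, by omega⟩,
        c, Finset.mem_filter.2 ⟨hc, by omega⟩, d, Finset.mem_filter.2 ⟨hd, by omega⟩, ho'⟩
    refine ⟨Z, cornerA hp hq (Finset.filter_subset _ _) hz ?_ ?_ ?_ hZ⟩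
    · rintro w hw ⟨z1, hz1, e1⟩ - ⟨z3, hz3, e3⟩ -
      have f1 := (Finset.mem_filter.1 hz1).2
      have f3 := (Finset.mem_filter.1 hz3).2
      exact Finset.mem_filter.2 ⟨hw, by omega⟩
    · intro k hk
      have f1 := (Finset.mem_filter.1 hk).2
      unfold BB
      rintro (⟨e1, -⟩ | e1 | e1)
      · subst e1; omega
      · omega
      · omega
    · intro m hm hmC
      have f1 : ¬ (p z < p m ∧ q z < q m) := fun e => hmC (Finset.mem_filter.2 ⟨hm, e⟩)
      by_cases hmz : m = z
      · right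
        intro w hw
        have f2 := (Finset.mem_filter.1 hw).2
        subst hmz
        unfold BB
        rintro (⟨e1, -⟩ | e1 | e1)
        · subst e1; omega
        · omega
        · omega
      · have g1 := ne_p hp hmz
        have g2 := ne_p hq hmz
        by_cases hB : BB p q sg z m
        · exact Or.inl ⟨hmz, hB⟩
        · right
          rw [bb_ne (Ne.symm hmz)] at hB
          intro w hw
          have f2 := (Finset.mem_filter.1 hw).2
          unfold BB
          rintro (⟨e1, -⟩ | e1 | e1)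
          · subst e1; omega
          · omega
          · omega
  · -- `z` in the upper left corner: `C` = lower right region
    have hcd := key (fun w => p z < p w ∧ q w < q z) (by simp)
    obtain ⟨Z, hZ⟩ := IH _ hcd p (-q) hp (inj_neg hq) (fun z => !sg z)
      ⟨a, Finset.mem_filter.2 ⟨ha, by omega⟩, b, Finset.mem_filter.2 ⟨hb, by omega⟩,
        c, Finset.mem_filter.2 ⟨hc, by omega⟩, d, Finset.mem_filter.2 ⟨hd, by omega⟩, by
          simp only [Occ, Pi.neg_apply]
          omega⟩
    refine ⟨Z, cornerB hp hq (Finset.filter_subset _ _) hz ?_ ?_ ?_ hZ⟩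
    · rintro w hw ⟨z1, hz1, e1⟩ - - ⟨z3, hz3, e3⟩
      have f1 := (Finset.mem_filter.1 hz1).2
      have f3 := (Finset.mem_filter.1 hz3).2
      exact Finset.mem_filter.2 ⟨hw, by omega⟩
    · intro k hk
      have f1 := (Finset.mem_filter.1 hk).2
      exact Or.inr (Or.inl f1)
    · intro m hm hmC
      have f1 : ¬ (p z < p m ∧ q m < q z) := fun e => hmC (Finset.mem_filter.2 ⟨hm, e⟩)
      by_cases hmz : m = z
      · right
        intro w hw
        have f2 := (Finset.mem_filter.1 hw).2
        subst hmz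
        exact Or.inr (Or.inr f2)
      · have g1 := ne_p hp hmz
        have g2 := ne_p hq hmz
        by_cases hB : BB p q sg z m
        · right
          rw [bb_ne (Ne.symm hmz)] at hB
          intro w hw
          have f2 := (Finset.mem_filter.1 hw).2
          unfold BB
          right
          omega
        · exact Or.inl ⟨hmz, hB⟩
  · -- `z` in the lower right corner: `C` = upper left region
    have hcd := key (fun w => p w < p z ∧ q z < q w) (by simp)
    obtain ⟨Z, hZ⟩ := IH _ hcd p (-q) hp (inj_neg hq) (fun z => !sg z)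
      ⟨a, Finset.mem_filter.2 ⟨ha, by omega⟩, b, Finset.mem_filter.2 ⟨hb, by omega⟩,
        c, Finset.mem_filter.2 ⟨hc, by omega⟩, d, Finset.mem_filter.2 ⟨hd, by omega⟩, by
          simp only [Occ, Pi.neg_apply]
          omega⟩
    refine ⟨Z, cornerB hp hq (Finset.filter_subset _ _) hz ?_ ?_ ?_ hZ⟩
    · rintro w hw - ⟨z1, hz1, e1⟩ ⟨z3, hz3, e3⟩ -
      have f1 := (Finset.mem_filter.1 hz1).2
      have f3 := (Finset.mem_filter.1 hz3).2
      exact Finset.mem_filter.2 ⟨hw, by omega⟩
    · intro k hk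
      have f1 := (Finset.mem_filter.1 hk).2
      exact Or.inr (Or.inr f1)
    · intro m hm hmC
      have f1 : ¬ (p m < p z ∧ q z < q m) := fun e => hmC (Finset.mem_filter.2 ⟨hm, e⟩)
      by_cases hmz : m = z
      · right
        intro w hw
        have f2 := (Finset.mem_filter.1 hw).2
        subst hmz
        exact Or.inr (Or.inl f2)
      · have g1 := ne_p hp hmz
        have g2 := ne_p hq hmz
        by_cases hB : BB p q sg z m
        · right
          rw [bb_ne (Ne.symm hmz)] at hB
          intro w hw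
          have f2 := (Finset.mem_filter.1 hw).2
          unfold BB
          right
          omega
        · exact Or.inl ⟨hmz, hB⟩
  · -- `z` in the upper right corner: `C` = lower left region
    have hcd := key (fun w => p w < p z ∧ q w < q z) (by simp)
    obtain ⟨Z, hZ⟩ := IH _ hcd p q hp hq sg
      ⟨a, Finset.mem_filter.2 ⟨ha, by omega⟩, b, Finset.mem_filter.2 ⟨hb, by omega⟩,
        c, Finset.mem_filter.2 ⟨hc, by omega⟩, d, Finset.mem_filter.2 ⟨hd, by omega⟩, ho'⟩
    refine ⟨Z, cornerA hp hq (Finset.filter_subset _ _) hz ?_ ?_ ?_ hZ⟩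
    · rintro w hw - ⟨z1, hz1, e1⟩ - ⟨z3, hz3, e3⟩
      have f1 := (Finset.mem_filter.1 hz1).2
      have f3 := (Finset.mem_filter.1 hz3).2
      exact Finset.mem_filter.2 ⟨hw, by omega⟩
    · intro k hk
      have f1 := (Finset.mem_filter.1 hk).2
      unfold BB
      rintro (⟨e1, -⟩ | e1 | e1)
      · subst e1; omega
      · omega
      · omega
    · intro m hm hmC
      have f1 : ¬ (p m < p z ∧ q m < q z) := fun e => hmC (Finset.mem_filter.2 ⟨hm, e⟩)
      by_cases hmz : m = z
      · right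
        intro w hw
        have f2 := (Finset.mem_filter.1 hw).2
        subst hmz
        unfold BB
        rintro (⟨e1, -⟩ | e1 | e1)
        · subst e1; omega
        · omega
        · omega
      · have g1 := ne_p hp hmz
        have g2 := ne_p hq hmz
        by_cases hB : BB p q sg z m
        · exact Or.inl ⟨hmz, hB⟩
        · right
          rw [bb_ne (Ne.symm hmz)] at hB
          intro w hw
          have f2 := (Finset.mem_filter.1 hw).2
          unfold BB
          rintro (⟨e1, -⟩ | e1 | e1)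
          · subst e1; omega
          · omega
          · omega

end Pool.GSP
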