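import Pool.Agent.GSP.PPTwin
import Pool.Agent.GSP.Stmts

/-!
MP_7b7176_co, ROAD S, THEOREM PP: every signed permutation containing 2413 or 3142 has a good set.
-/

set_option autoImplicit false

namespace Pool.GSP

open PP_

theorem t_PP (hT : S_TWIN) (hM : S_MAIN) (hB : S_PPBR) : S_PP := by
  intro L _
  have main : ∀ n : ℕ, ∀ S : Finset L, S.card = n → ∀ p q : L → ℤ, Function.Injective p →
      Function.Injective q → ∀ sg : L → Bool,
      (∃ a ∈ S, ∃ b ∈ S, ∃ c ∈ S, ∃ d ∈ S, Occ p q a b c d) → ∃ Z, GSet S p q sg Z := by
    intro n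
    induction n using Nat.strong_induction_on with
    | _ n ih =>
      intro S hn p q hp hq sg hO
      have IH : IHyp S := by
        intro C hC p' q' hp' hq' sg' hO'
        exact ih C.card (by omega) C rfl p' q' hp' hq' sg' hO'
      by_cases hCF : CF S p q
      swap
      · exact pp_corner hp hq sg IH hCF
      by_cases hTw : ∃ x y : L, x ≠ y ∧ Blk S p q {x, y}
      · obtain ⟨x, y, hxy, hK⟩ := hTw
        exact pp_twin hp hq sg IH hO hxy hK
      have hS : Simple S p q := by
        intro K hK
        by_contra hno
        push Not at hno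
        obtain ⟨h1, h2⟩ := hno
        obtain ⟨z, hz, hzK⟩ : ∃ z ∈ S, z ∉ K := by
          by_contra h3
          push Not at h3
          exact h2 (Finset.Subset.antisymm hK.1 h3)
        have h4 : ∀ a ∈ K, ∀ b ∈ K, ∀ c ∈ K, ∀ d ∈ K, ¬ Occ p q a b c d := by
          intro a ha b hb c hc d hd ho
          refine hCF a (hK.1 ha) b (hK.1 hb) c (hK.1 hc) d (hK.1 hd) ho z hz ?_
          obtain ⟨g1, g2, g3, g4⟩ := ho
          have e1 := (hK.2 a ha d hd z hz hzK).1
          have e2 := (hK.2 b hb c hc z hz hzK).2
          have e3 := (hK.2 c hc b hb z hz hzK).2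
          have ne : ∀ u ∈ K, p z ≠ p u ∧ q z ≠ q u := fun u hu =>
            ⟨ne_p hp (fun e => hzK (e ▸ hu)), ne_p hq (fun e => hzK (e ▸ hu))⟩
          have f1 := ne a ha
          have f2 := ne b hb
          have f3 := ne c hc
          have f4 := ne d hd
          simp only [Cor]
          omega
        obtain ⟨x, hx, y, hy, hxy, h5⟩ := hT L K K p q hp hq
          ⟨Finset.Subset.refl K, fun a _ b _ w hw hwK => absurd hw hwK⟩ (by omega) h4
        refine hTw ⟨x, y, hxy, ?_, ?_⟩
        · exact h5.1.trans hK.1
        · intro a ha b hb w hw hwn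
          by_cases hwK : w ∈ K
          · exact h5.2 a ha b hb w hwK hwn
          · exact hK.2 a (h5.1 ha) b (h5.1 hb) w hw hwK
      have hc : 4 ≤ S.card := by
        obtain ⟨a, ha, b, hb, c, hc, d, hd, ho⟩ := hO
        obtain ⟨g1, g2, g3, g4⟩ := ho
        have hab : a ≠ b := by rintro rfl; omega
        have hac : a ≠ c := by rintro rfl; omega
        have had : a ≠ d := by rintro rfl; omega
        have hbc : b ≠ c := by rintro rfl; omega
        have hbd : b ≠ d := by rintro rfl; omega
        have hcd : c ≠ d := by rintro rfl; omega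
        have h5 : ({a, b, c, d} : Finset L) ⊆ S := by
          intro w hw
          simp only [Finset.mem_insert, Finset.mem_singleton] at hw
          rcases hw with rfl | rfl | rfl | rfl <;> assumption
        have h6 : ({a, b, c, d} : Finset L).card = 4 := by
          rw [Finset.card_insert_of_notMem, Finset.card_insert_of_notMem, Finset.card_pair hcd]
          · simp [hbc, hbd]
          · simp [hab, hac, had]
        have h7 := Finset.card_le_card h5
        omega
      exact hB L S p q hp hq sg (hM L S p q hp hq hS hCF hc sg)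
  intro S p q hp hq sg hO
  exact main S.card S rfl p q hp hq sg hO

end Pool.GSP
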