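import Pool.Agent.GSP.PPCorner

/-!
MP_7b7176_co, ROAD S, THEOREM PP: twin closure.
-/

set_option autoImplicit false
set_option linter.unusedSectionVars false
set_option linter.unusedSimpArgs false

namespace Pool.GSP

namespace PP_

variable {L : Type*} [DecidableEq L] {S C Z Y : Finset L} {p q : L → ℤ} {sg : L → Bool}

/-- `a` and `b` are twins. -/
structure Tw2 (S : Finset L) (p q : L → ℤ) (a b : L) : Prop where
  ha : a ∈ S
  hb : b ∈ S
  ab : a ≠ b
  hp : ∀ w ∈ S, w ≠ a → w ≠ b → (p w < p a ↔ p w < p b)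
  hq : ∀ w ∈ S, w ≠ a → w ≠ b → (q w < q a ↔ q w < q b)

lemma Tw2.symm {a b : L} (h : Tw2 S p q a b) : Tw2 S p q b a :=
  ⟨h.hb, h.ha, h.ab.symm, fun w hw h1 h2 => (h.hp w hw h2 h1).symm,
    fun w hw h1 h2 => (h.hq w hw h2 h1).symm⟩

lemma tw2_of_blk (hp : Function.Injective p) (hq : Function.Injective q) {a b : L} (hab : a ≠ b)
    (h : Blk S p q {a, b}) : Tw2 S p q a b := by
  have ha : a ∈ S := h.1 (by simp)
  have hb : b ∈ S := h.1 (by simp)
  refine ⟨ha, hb, hab, ?_, ?_⟩
  · intro w hw h1 h2
    have hwn : w ∉ ({a, b} : Finset L) := by simp [h1, h2]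
    have e1 := h.2 a (by simp) b (by simp) w hw hwn
    have e2 := h.2 b (by simp) a (by simp) w hw hwn
    have e3 := ne_p hp h1
    have e4 := ne_p hp h2
    omega
  · intro w hw h1 h2
    have hwn : w ∉ ({a, b} : Finset L) := by simp [h1, h2]
    have e1 := h.2 a (by simp) b (by simp) w hw hwn
    have e2 := h.2 b (by simp) a (by simp) w hw hwn
    have e3 := ne_p hq h1
    have e4 := ne_p hq h2
    omega

lemma Tw2.bb (hp : Function.Injective p) (hq : Function.Injective q) {a b : L}
    (h : Tw2 S p q a b) {w : L} (hw : w ∈ S) (h1 : w ≠ a) (h2 : w ≠ b) :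
    BB p q sg w a ↔ BB p q sg w b := by
  rw [bb_ne h1, bb_ne h2]
  have e1 := h.hp w hw h1 h2
  have e2 := h.hq w hw h1 h2
  have e3 := ne_p hp h1
  have e4 := ne_p hp h2
  have e5 := ne_p hq h1
  have e6 := ne_p hq h2
  omega

lemma Tw2.bb' (hp : Function.Injective p) (hq : Function.Injective q) {a b : L}
    (h : Tw2 S p q a b) {w : L} (hw : w ∈ S) (h1 : w ≠ a) (h2 : w ≠ b) :
    BB p q sg a w ↔ BB p q sg b w := by
  rw [bb_comm, h.bb hp hq hw h1 h2, bb_comm]

/-- Parity of a row: inverted letters, letters on the left, letters below. -/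
lemma par (hp : Function.Injective p) (hq : Function.Injective q) {x : L} :
    ∀ Y : Finset L, x ∉ Y → Even ((Y.filter (fun k => BB p q sg x k)).card +
      (Y.filter (fun k => p k < p x)).card + (Y.filter (fun k => q k < q x)).card) := by
  intro Y
  induction Y using Finset.induction_on with
  | empty => simp
  | insert k Y hk ih =>
    intro hx
    have hxk : x ≠ k := fun e => hx (e ▸ Finset.mem_insert_self _ _)
    have hxY : x ∉ Y := fun e => hx (Finset.mem_insert_of_mem e)
    have ih' := ih hxY
    have e1 := ne_p hp hxk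
    have e2 := ne_p hq hxk
    have key : ∀ (P : L → Prop) [DecidablePred P],
        ((insert k Y).filter P).card = (Y.filter P).card + if P k then 1 else 0 := by
      intro P _
      rw [Finset.filter_insert]
      split_ifs with hP
      · rw [Finset.card_insert_of_notMem (fun e => hk (Finset.mem_filter.1 e).1)]
      · simp
    rw [key, key, key]
    have hB : BB p q sg x k ↔ ¬ (p k < p x ↔ q k < q x) := by
      rw [bb_ne hxk]
      omega
    simp only [hB]
    rcases lt_or_gt_of_ne e1 with f1 | f1 <;> rcases lt_or_gt_of_ne e2 with f2 | f2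
    · have g1 : ¬ p k < p x := by omega
      have g2 : ¬ q k < q x := by omega
      simp only [g1, g2, iff_self, not_true_eq_false, if_false]
      simpa [hB] using ih'
    · have g1 : ¬ p k < p x := by omega
      have g2 : q k < q x := by omega
      simp only [g1, g2]
      simp only [Nat.even_iff] at ih' ⊢
      simp only [if_true, if_false, iff_true, not_false_eq_true]
      omega
    · have g1 : p k < p x := by omega
      have g2 : ¬ q k < q x := by omega
      simp only [g1, g2]
      simp only [Nat.even_iff] at ih' ⊢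
      simp only [if_true, if_false, iff_false, not_true_eq_false, not_false_eq_true]
      omega
    · have g1 : p k < p x := by omega
      have g2 : q k < q x := by omega
      simp only [g1, g2]
      simp only [Nat.even_iff] at ih' ⊢
      simp only [if_true, iff_true, not_true_eq_false, if_false]
      omega

lemma card_split {a : L} (ha : a ∈ Z) (P : L → Prop) [DecidablePred P] :
    (Z.filter P).card = ((Z.erase a).filter P).card + if P a then 1 else 0 := by
  conv_lhs => rw [← Finset.insert_erase ha]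
  rw [Finset.filter_insert]
  split_ifs with hP
  · rw [Finset.card_insert_of_notMem (fun e => Finset.notMem_erase a Z (Finset.mem_filter.1 e).1)]
  · simp

/-- If `x` has an odd row on `Z`, then it differs somewhere on `Z` from `z`. -/
lemma ex_diff {x z : L} (hx : ¬ Ev p q sg Z x) (hz : Ev p q sg Z z) :
    ∃ w ∈ Z, ¬ (BB p q sg w x ↔ BB p q sg w z) := by
  by_contra hno
  push Not at hno
  apply hx
  unfold Ev at hz ⊢
  have h1 : Z.filter (fun k => BB p q sg x k) = Z.filter (fun k => BB p q sg z k) := by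
    refine Finset.filter_congr (fun k hk => ?_)
    rw [bb_comm, hno k hk, bb_comm]
  rw [h1]
  exact hz

/-- Two letters with even rows on `Z` which differ at `a` differ at another place. -/
lemma ex_diff' {x z a : L} (ha : a ∈ Z) (hx : Ev p q sg Z x) (hz : Ev p q sg Z z)
    (hne : ¬ (BB p q sg x a ↔ BB p q sg z a)) :
    ∃ w ∈ Z, w ≠ a ∧ ¬ (BB p q sg w x ↔ BB p q sg w z) := by
  by_contra hno
  push Not at hno
  unfold Ev at hz hx
  rw [card_split ha] at hx hz
  have h1 : (Z.erase a).filter (fun k => BB p q sg x k) =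
      (Z.erase a).filter (fun k => BB p q sg z k) := by
    refine Finset.filter_congr (fun k hk => ?_)
    obtain ⟨h2, h3⟩ := Finset.mem_erase.1 hk
    rw [bb_comm, hno k h3 h2, bb_comm]
  rw [h1] at hx
  by_cases e1 : BB p q sg x a <;> by_cases e2 : BB p q sg z a
  · exact hne ⟨fun _ => e2, fun _ => e1⟩
  · simp only [e1, e2, if_true, if_false, Nat.even_iff] at hx hz
    omega
  · simp only [e1, e2, if_true, if_false, Nat.even_iff] at hx hz
    omega
  · exact hne ⟨fun h => absurd h e1, fun h => absurd h e2⟩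

/-- Case 1 of the twin closure: the twin `a` which stays is not in `Z`. -/
lemma twin1 (hp : Function.Injective p) (hq : Function.Injective q) {a b : L}
    (hT : Tw2 S p q a b)
    (hch : (sg a = true ↔ ¬ BB p q sg a b) ∨
      ((sg a = true ↔ BB p q sg a b) ∧ (sg b = true ↔ BB p q sg a b)))
    (h : GSet (S.erase b) p q sg Z) (haZ : a ∉ Z) : GSet S p q sg Z := by
  have hsub : Z ⊆ S := h.sub.trans (Finset.erase_subset _ _)
  have hbZ : b ∉ Z := fun e => Finset.notMem_erase b S (h.sub e)
  have haS' : a ∈ S.erase b := Finset.mem_erase.2 ⟨hT.ab, hT.ha⟩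
  refine ⟨hsub, h.card, h.ev, ?_, ?_, ?_⟩
  · intro w hw hwZ
    by_cases hwb : w = b
    · subst hwb
      have h1 := h.emp a haS' haZ
      have e1 : Z.filter (fun k => p k < p a) = Z.filter (fun k => p k < p w) := by
        refine Finset.filter_congr (fun k hk => ?_)
        exact hT.hp k (hsub hk) (fun e => haZ (e ▸ hk)) (fun e => hbZ (e ▸ hk))
      have e2 : Z.filter (fun k => q k < q a) = Z.filter (fun k => q k < q w) := by
        refine Finset.filter_congr (fun k hk => ?_)
        exact hT.hq k (hsub hk) (fun e => haZ (e ▸ hk)) (fun e => hbZ (e ▸ hk))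
      rw [e1, e2] at h1
      exact h1
    · exact h.emp w (Finset.mem_erase.2 ⟨hwb, hw⟩) hwZ
  · intro z hz
    obtain ⟨w, hw, h1⟩ := h.root z hz
    exact ⟨w, (Finset.mem_erase.1 hw).2, h1⟩
  · intro m hm hmZ z hz hne
    have hzS := hsub hz
    have hza : z ≠ a := fun e => haZ (e ▸ hz)
    have hzb : z ≠ b := fun e => hbZ (e ▸ hz)
    by_cases hmb : m = b
    · subst hmb
      have hz1 := hT.bb (sg := sg) hp hq hzS hza hzb
      by_cases hsa : (BB p q sg a a ↔ BB p q sg z a)
      · have h0 : ¬ (sg a = true ↔ sg m = true) := by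
          rw [bb_self] at hsa hne
          tauto
        have h1 : (sg a = true ↔ ¬ BB p q sg a m) := by
          rcases hch with h1 | ⟨h1, h2⟩
          · exact h1
          · exact absurd (h1.trans h2.symm) h0
        rw [bb_self] at hsa
        by_cases hEv : Ev p q sg Z a
        · refine ⟨a, hT.ha, hT.ab, hEv, ?_⟩
          have h2 : BB p q sg a z ↔ BB p q sg z a := bb_comm
          tauto
        · obtain ⟨w, hw, h2⟩ := ex_diff hEv (h.ev z hz)
          have hwS := hsub hw
          have hwa : w ≠ a := fun e => haZ (e ▸ hw)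
          have hwb : w ≠ m := fun e => hbZ (e ▸ hw)
          refine ⟨w, hwS, hwb, h.ev w hw, ?_⟩
          rw [← hT.bb hp hq hwS hwa hwb]
          exact h2
      · obtain ⟨w, hw, h1, h2, h3⟩ := h.unit a haS' haZ z hz hsa
        obtain ⟨hwb, hwS⟩ := Finset.mem_erase.1 hw
        refine ⟨w, hwS, hwb, h2, ?_⟩
        rw [← hT.bb hp hq hwS h1 hwb]
        exact h3
    · obtain ⟨w, hw, h1⟩ := h.unit m (Finset.mem_erase.2 ⟨hmb, hm⟩) hmZ z hz hne
      exact ⟨w, (Finset.mem_erase.1 hw).2, h1⟩

/-- Case 2 of the twin closure: the twin `a` which stays is in `Z`, the other one is not in an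
odd-odd cell. -/
lemma twin2 (hp : Function.Injective p) (hq : Function.Injective q) {a b : L}
    (hT : Tw2 S p q a b)
    (hch : (sg a = true ↔ ¬ BB p q sg a b) ∨
      ((sg a = true ↔ BB p q sg a b) ∧ (sg b = true ↔ BB p q sg a b)))
    (h : GSet (S.erase b) p q sg Z) (haZ : a ∈ Z)
    (hE : ¬ (Odd (Z.filter (fun k => p k < p b)).card ∧
      Odd (Z.filter (fun k => q k < q b)).card)) : GSet S p q sg Z := by
  have hsub : Z ⊆ S := h.sub.trans (Finset.erase_subset _ _)
  have hbZ : b ∉ Z := fun e => Finset.notMem_erase b S (h.sub e)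
  refine ⟨hsub, h.card, h.ev, ?_, ?_, ?_⟩
  · intro w hw hwZ
    by_cases hwb : w = b
    · subst hwb
      exact hE
    · exact h.emp w (Finset.mem_erase.2 ⟨hwb, hw⟩) hwZ
  · intro z hz
    obtain ⟨w, hw, h1⟩ := h.root z hz
    exact ⟨w, (Finset.mem_erase.1 hw).2, h1⟩
  · intro m hm hmZ z hz hne
    by_cases hmb : m = b
    · subst hmb
      have hzS := hsub hz
      have hzb : z ≠ m := fun e => hbZ (e ▸ hz)
      by_cases hza : z = a
      · subst hza
        rw [bb_self] at hne
        have h1 : (sg z = true ↔ ¬ BB p q sg z m) := by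
          rcases hch with h1 | ⟨h1, h2⟩
          · exact h1
          · exact absurd h2 hne
        refine ⟨z, hzS, hzb, h.ev z hz, ?_⟩
        rw [bb_self]
        tauto
      · have hz1 := hT.bb (sg := sg) hp hq hzS hza hzb
        have h2 : BB p q sg a z ↔ BB p q sg z a := bb_comm
        by_cases h3 : (BB p q sg a m ↔ BB p q sg a z)
        · rw [bb_self] at hne
          have h1 : (sg a = true ↔ ¬ BB p q sg a m) := by
            rcases hch with h1 | ⟨h1, h4⟩
            · exact h1
            · tauto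
          have h5 : ¬ (BB p q sg a a ↔ BB p q sg z a) := by
            rw [bb_self]
            tauto
          obtain ⟨w, hw, hwa, h6⟩ := ex_diff' haZ (h.ev a haZ) (h.ev z hz) h5
          have hwS := hsub hw
          have hwb : w ≠ m := fun e => hbZ (e ▸ hw)
          refine ⟨w, hwS, hwb, h.ev w hw, ?_⟩
          rw [← hT.bb hp hq hwS hwa hwb]
          exact h6
        · exact ⟨a, hT.ha, hT.ab, h.ev a haZ, h3⟩
    · obtain ⟨w, hw, h1⟩ := h.unit m (Finset.mem_erase.2 ⟨hmb, hm⟩) hmZ z hz hne
      exact ⟨w, (Finset.mem_erase.1 hw).2, h1⟩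

/-- Renaming of letters. -/
lemma gset_map {T : Finset L} (e : Equiv.Perm L)
    (h1 : ∀ u ∈ T, ∀ w ∈ T, (p (e u) < p (e w) ↔ p u < p w))
    (h2 : ∀ u ∈ T, ∀ w ∈ T, (q (e u) < q (e w) ↔ q u < q w))
    (h3 : ∀ u ∈ T, sg (e u) = sg u) (h : GSet T p q sg Z) :
    GSet (T.map e.toEmbedding) p q sg (Z.map e.toEmbedding) := by
  have hB : ∀ u ∈ T, ∀ w ∈ T, (BB p q sg (e u) (e w) ↔ BB p q sg u w) := by
    intro u hu w hw
    unfold BB
    rw [h1 u hu w hw, h1 w hw u hu, h2 u hu w hw, h2 w hw u hu, h3 u hu, e.apply_eq_iff_eq]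
  have hc : ∀ (P : L → Prop) [DecidablePred P],
      ((Z.map e.toEmbedding).filter P).card = (Z.filter (fun k => P (e k))).card := by
    intro P _
    rw [Finset.filter_map, Finset.card_map]
    rfl
  have hev : ∀ w ∈ T, (Ev p q sg (Z.map e.toEmbedding) (e w) ↔ Ev p q sg Z w) := by
    intro w hw
    unfold Ev
    rw [hc]
    have h4 : Z.filter (fun k => BB p q sg (e w) (e k)) = Z.filter (fun k => BB p q sg w k) :=
      Finset.filter_congr (fun k hk => hB w hw k (h.sub hk))
    rw [h4]
  refine ⟨Finset.map_subset_map.2 h.sub, by rw [Finset.card_map]; exact h.card, ?_, ?_, ?_, ?_⟩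
  · intro w hw
    obtain ⟨w', hw', rfl⟩ := Finset.mem_map.1 hw
    exact (hev w' (h.sub hw')).2 (h.ev w' hw')
  · intro w hw hwZ
    obtain ⟨w', hw', rfl⟩ := Finset.mem_map.1 hw
    have hwZ' : w' ∉ Z := fun e1 => hwZ (Finset.mem_map_of_mem _ e1)
    have h4 := h.emp w' hw' hwZ'
    simp only [Equiv.coe_toEmbedding]
    rw [hc, hc]
    have h5 : Z.filter (fun k => p (e k) < p (e w')) = Z.filter (fun k => p k < p w') :=
      Finset.filter_congr (fun k hk => h1 k (h.sub hk) w' hw')
    have h6 : Z.filter (fun k => q (e k) < q (e w')) = Z.filter (fun k => q k < q w') :=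
      Finset.filter_congr (fun k hk => h2 k (h.sub hk) w' hw')
    rw [h5, h6]
    exact h4
  · intro z hz
    obtain ⟨z', hz', rfl⟩ := Finset.mem_map.1 hz
    obtain ⟨w, hw, h4, h5⟩ := h.root z' hz'
    exact ⟨e w, Finset.mem_map_of_mem _ hw, (hev w hw).2 h4, (hB w hw z' (h.sub hz')).2 h5⟩
  · intro m hm hmZ z hz hne
    obtain ⟨z', hz', rfl⟩ := Finset.mem_map.1 hz
    obtain ⟨m', hm', rfl⟩ := Finset.mem_map.1 hm
    have hmZ' : m' ∉ Z := fun e1 => hmZ (Finset.mem_map_of_mem _ e1)
    simp only [Equiv.coe_toEmbedding] at hne ⊢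
    rw [hB m' hm' m' hm', hB z' (h.sub hz') m' hm'] at hne
    obtain ⟨w, hw, h4, h5, h6⟩ := h.unit m' hm' hmZ' z' hz' hne
    refine ⟨e w, Finset.mem_map_of_mem _ hw, fun e1 => h4 (e.injective e1), (hev w hw).2 h5, ?_⟩
    rw [hB w hw m' hm', hB w hw z' (h.sub hz')]
    exact h6

/-- The twin closure. -/
lemma twin (hp : Function.Injective p) (hq : Function.Injective q) {a b : L}
    (hT : Tw2 S p q a b)
    (hch : (sg a = true ↔ ¬ BB p q sg a b) ∨
      ((sg a = true ↔ BB p q sg a b) ∧ (sg b = true ↔ BB p q sg a b)))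
    (h : GSet (S.erase b) p q sg Z) : ∃ Z', GSet S p q sg Z' := by
  by_cases haZ : a ∈ Z
  swap
  · exact ⟨Z, twin1 hp hq hT hch h haZ⟩
  have hsub : Z ⊆ S := h.sub.trans (Finset.erase_subset _ _)
  have hbZ : b ∉ Z := fun e => Finset.notMem_erase b S (h.sub e)
  have e1 := ne_p hp hT.ab
  have e2 := ne_p hq hT.ab
  have lp : (Z.erase a).filter (fun k => p k < p a) = (Z.erase a).filter (fun k => p k < p b) := by
    refine Finset.filter_congr (fun k hk => ?_)
    obtain ⟨h1, h2⟩ := Finset.mem_erase.1 hk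
    exact hT.hp k (hsub h2) h1 (fun e => hbZ (e ▸ h2))
  have lq : (Z.erase a).filter (fun k => q k < q a) = (Z.erase a).filter (fun k => q k < q b) := by
    refine Finset.filter_congr (fun k hk => ?_)
    obtain ⟨h1, h2⟩ := Finset.mem_erase.1 hk
    exact hT.hq k (hsub h2) h1 (fun e => hbZ (e ▸ h2))
  by_cases hE : (Odd (Z.filter (fun k => p k < p b)).card ∧
      Odd (Z.filter (fun k => q k < q b)).card)
  swap
  · exact ⟨Z, twin2 hp hq hT hch h haZ hE⟩
  -- both twins have the sign of the inversion
  have hs : (sg a = true ↔ BB p q sg a b) ∧ (sg b = true ↔ BB p q sg a b) := by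
    rcases hch with h1 | h1
    · exfalso
      have h2 := par (sg := sg) hp hq (Z.erase a) (Finset.notMem_erase a Z)
      have h3 := h.ev a haZ
      unfold Ev at h3
      rw [card_split haZ] at h3
      have h4 := hE.1
      have h5 := hE.2
      rw [card_split haZ] at h4 h5
      rw [lp, lq] at h2
      have h6 : BB p q sg a a ↔ sg a = true := bb_self
      have h7 : BB p q sg a b ↔ ¬ (p a < p b ↔ q a < q b) := by
        rw [bb_ne hT.ab]
        omega
      simp only [h6, h1, h7, Nat.even_iff, Nat.odd_iff] at h2 h3 h4 h5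
      by_cases f1 : p a < p b <;> by_cases f2 : q a < q b <;>
        simp only [f1, f2, iff_self, not_true_eq_false, not_false_eq_true, iff_true, iff_false,
          true_iff, false_iff, if_true, if_false] at h2 h3 h4 h5 <;> omega
    · exact h1
  -- exchange the twins
  have hss : sg a = sg b := by
    have h1 := hs.1.trans hs.2.symm
    cases h2 : sg a <;> cases h3 : sg b <;> simp_all
  have hT' := hT.symm
  have hZ2 := gset_map (T := S.erase b) (Z := Z) (p := p) (q := q) (sg := sg) (Equiv.swap a b)
    ?_ ?_ ?_ h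
  · have hm : (S.erase b).map (Equiv.swap a b).toEmbedding = S.erase a := by
      ext w
      simp only [Finset.mem_map, Finset.mem_erase, Equiv.coe_toEmbedding]
      constructor
      · rintro ⟨x, ⟨h1, h2⟩, rfl⟩
        by_cases hxa : x = a
        · subst hxa
          rw [Equiv.swap_apply_left]
          exact ⟨hT.ab.symm, hT.hb⟩
        · rw [Equiv.swap_apply_of_ne_of_ne hxa h1]
          exact ⟨hxa, h2⟩
      · rintro ⟨h1, h2⟩
        by_cases hwb : w = b
        · subst hwb
          exact ⟨a, ⟨hT.ab, hT.ha⟩, Equiv.swap_apply_left _ _⟩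
        · exact ⟨w, ⟨hwb, h2⟩, Equiv.swap_apply_of_ne_of_ne h1 hwb⟩
    rw [hm] at hZ2
    have hbm : b ∈ Z.map (Equiv.swap a b).toEmbedding :=
      Finset.mem_map.2 ⟨a, haZ, Equiv.swap_apply_left _ _⟩
    have hba : BB p q sg b a ↔ BB p q sg a b := bb_comm
    refine ⟨_, twin2 hp hq hT' (Or.inr ?_) hZ2 hbm ?_⟩
    · rw [hba]
      exact ⟨hs.2, hs.1⟩
    · rintro ⟨h1, -⟩
      have h2 := hE.1
      rw [card_split haZ] at h2
      rw [Finset.filter_map, Finset.card_map, card_split haZ] at h1
      have h3 : (Z.erase a).filter ((fun k => p k < p a) ∘ ⇑(Equiv.swap a b).toEmbedding) =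
          (Z.erase a).filter (fun k => p k < p b) := by
        rw [← lp]
        refine Finset.filter_congr (fun k hk => ?_)
        obtain ⟨h4, h5⟩ := Finset.mem_erase.1 hk
        simp only [Function.comp_apply, Equiv.coe_toEmbedding]
        rw [Equiv.swap_apply_of_ne_of_ne h4 (fun e : k = b => hbZ (e ▸ h5))]
      rw [h3] at h1
      simp only [Function.comp_apply, Equiv.coe_toEmbedding, Equiv.swap_apply_left,
        Nat.odd_iff] at h1 h2
      by_cases f1 : p a < p b
      · have f2 : ¬ p b < p a := by omega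
        simp only [f1, f2, if_true, if_false] at h1 h2
        omega
      · have f2 : p b < p a := by omega
        simp only [f1, f2, if_true, if_false] at h1 h2
        omega
  · intro u hu w hw
    obtain ⟨hub, huS⟩ := Finset.mem_erase.1 hu
    obtain ⟨hwb, hwS⟩ := Finset.mem_erase.1 hw
    by_cases hua : u = a <;> by_cases hwa : w = a
    · subst hua; subst hwa
      simp
    · subst hua
      rw [Equiv.swap_apply_left, Equiv.swap_apply_of_ne_of_ne hwa hwb]
      have h1 := hT.hp w hwS hwa hwb
      have h2 := ne_p hp hwa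
      have h3 := ne_p hp hwb
      omega
    · subst hwa
      rw [Equiv.swap_apply_left, Equiv.swap_apply_of_ne_of_ne hua hub]
      have h1 := hT.hp u huS hua hub
      omega
    · rw [Equiv.swap_apply_of_ne_of_ne hua hub, Equiv.swap_apply_of_ne_of_ne hwa hwb]
  · intro u hu w hw
    obtain ⟨hub, huS⟩ := Finset.mem_erase.1 hu
    obtain ⟨hwb, hwS⟩ := Finset.mem_erase.1 hw
    by_cases hua : u = a <;> by_cases hwa : w = a
    · subst hua; subst hwa
      simp
    · subst hua
      rw [Equiv.swap_apply_left, Equiv.swap_apply_of_ne_of_ne hwa hwb]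
      have h1 := hT.hq w hwS hwa hwb
      have h2 := ne_p hq hwa
      have h3 := ne_p hq hwb
      omega
    · subst hwa
      rw [Equiv.swap_apply_left, Equiv.swap_apply_of_ne_of_ne hua hub]
      have h1 := hT.hq u huS hua hub
      omega
    · rw [Equiv.swap_apply_of_ne_of_ne hua hub, Equiv.swap_apply_of_ne_of_ne hwa hwb]
  · intro u hu
    obtain ⟨hub, huS⟩ := Finset.mem_erase.1 hu
    by_cases hua : u = a
    · subst hua
      rw [Equiv.swap_apply_left, hss]
    · rw [Equiv.swap_apply_of_ne_of_ne hua hub]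

/-- An occurrence survives the deletion of a twin. -/
lemma occ_erase (hp : Function.Injective p) (hq : Function.Injective q) {x y : L}
    (hT : Tw2 S p q x y) (h : ∃ a ∈ S, ∃ b ∈ S, ∃ c ∈ S, ∃ d ∈ S, Occ p q a b c d) :
    ∃ a ∈ S.erase y, ∃ b ∈ S.erase y, ∃ c ∈ S.erase y, ∃ d ∈ S.erase y, Occ p q a b c d := by
  obtain ⟨a, ha, b, hb, c, hc, d, hd, ho⟩ := h
  have ho' := ho
  obtain ⟨h1, h2, h3, h4⟩ := ho
  have hx' : x ∈ S.erase y := Finset.mem_erase.2 ⟨hT.ab, hT.ha⟩
  have kp := hT.hp
  have kq := hT.hq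
  have mem : ∀ {w : L}, w ∈ S → w ≠ y → w ∈ S.erase y := fun hw hwy =>
    Finset.mem_erase.2 ⟨hwy, hw⟩
  have npq : ∀ {u w : L}, u ≠ w → p u ≠ p w ∧ q u ≠ q w := fun e => ⟨ne_p hp e, ne_p hq e⟩
  have hab : a ≠ b := by rintro rfl; omega
  have hac : a ≠ c := by rintro rfl; omega
  have had : a ≠ d := by rintro rfl; omega
  have hbc : b ≠ c := by rintro rfl; omega
  have hbd : b ≠ d := by rintro rfl; omega
  have hcd : c ≠ d := by rintro rfl; omega
  by_cases ya : a = y
  · subst ya
    by_cases xb : b = x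
    · subst xb
      have e1 := kp c hc (Ne.symm hbc) (Ne.symm hac)
      have e2 := kq c hc (Ne.symm hbc) (Ne.symm hac)
      have e3 := kq d hd (Ne.symm hbd) (Ne.symm had)
      omega
    by_cases xc : c = x
    · subst xc
      have e1 := kp b hb hbc (Ne.symm hab)
      omega
    by_cases xd : d = x
    · subst xd
      have e1 := kp b hb hbd (Ne.symm hab)
      omega
    have f1 := kp b hb xb (Ne.symm hab)
    have f2 := kp c hc xc (Ne.symm hac)
    have f3 := kp d hd xd (Ne.symm had)
    have f4 := kq b hb xb (Ne.symm hab)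
    have f5 := kq c hc xc (Ne.symm hac)
    have f6 := kq d hd xd (Ne.symm had)
    have g1 := npq xb
    have g2 := npq xc
    have g3 := npq xd
    refine ⟨x, hx', b, mem hb (Ne.symm hab), c, mem hc (Ne.symm hac), d, mem hd (Ne.symm had), ?_⟩
    simp only [Occ]
    omega
  by_cases yb : b = y
  · subst yb
    by_cases xa : a = x
    · subst xa
      have e1 := kp c hc (Ne.symm hac) (Ne.symm hbc)
      have e2 := kq c hc (Ne.symm hac) (Ne.symm hbc)
      have e3 := kq d hd (Ne.symm had) (Ne.symm hbd)
      omega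
    by_cases xc : c = x
    · subst xc
      have e1 := kq a ha hac hab
      have e2 := kq d hd (Ne.symm hcd) (Ne.symm hbd)
      omega
    by_cases xd : d = x
    · subst xd
      have e1 := kp c hc hcd (Ne.symm hbc)
      omega
    have f1 := kp a ha xa hab
    have f2 := kp c hc xc (Ne.symm hbc)
    have f3 := kp d hd xd (Ne.symm hbd)
    have f4 := kq a ha xa hab
    have f5 := kq c hc xc (Ne.symm hbc)
    have f6 := kq d hd xd (Ne.symm hbd)
    have g1 := npq xa
    have g2 := npq xc
    have g3 := npq xd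
    refine ⟨a, mem ha hab, x, hx', c, mem hc (Ne.symm hbc), d, mem hd (Ne.symm hbd), ?_⟩
    simp only [Occ]
    omega
  by_cases yc : c = y
  · subst yc
    by_cases xa : a = x
    · subst xa
      have e1 := kp b hb (Ne.symm hab) hbc
      omega
    by_cases xb : b = x
    · subst xb
      have e1 := kq a ha hab hac
      have e2 := kq d hd (Ne.symm hbd) (Ne.symm hcd)
      omega
    by_cases xd : d = x
    · subst xd
      have e1 := kq a ha had hac
      have e2 := kq b hb hbd hbc
      omega
    have f1 := kp a ha xa hac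
    have f2 := kp b hb xb hbc
    have f3 := kp d hd xd (Ne.symm hcd)
    have f4 := kq a ha xa hac
    have f5 := kq b hb xb hbc
    have f6 := kq d hd xd (Ne.symm hcd)
    have g1 := npq xa
    have g2 := npq xb
    have g3 := npq xd
    refine ⟨a, mem ha hac, b, mem hb hbc, x, hx', d, mem hd (Ne.symm hcd), ?_⟩
    simp only [Occ]
    omega
  by_cases yd : d = y
  · subst yd
    by_cases xa : a = x
    · subst xa
      have e1 := kp b hb (Ne.symm hab) hbd
      omega
    by_cases xb : b = x
    · subst xb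
      have e1 := kp c hc (Ne.symm hbc) hcd
      omega
    by_cases xc : c = x
    · subst xc
      have e1 := kq a ha hac had
      have e2 := kq b hb hbc hbd
      omega
    have f1 := kp a ha xa had
    have f2 := kp b hb xb hbd
    have f3 := kp c hc xc hcd
    have f4 := kq a ha xa had
    have f5 := kq b hb xb hbd
    have f6 := kq c hc xc hcd
    have g1 := npq xa
    have g2 := npq xb
    have g3 := npq xc
    refine ⟨a, mem ha had, b, mem hb hbd, c, mem hc hcd, x, hx', ?_⟩
    simp only [Occ]
    omega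
  exact ⟨a, mem ha ya, b, mem hb yb, c, mem hc yc, d, mem hd yd, ho'⟩

end PP_

open PP_

theorem pp_twin {L : Type*} [DecidableEq L] {S : Finset L} {p q : L → ℤ}
    (hp : Function.Injective p) (hq : Function.Injective q) (sg : L → Bool) (IH : IHyp S)
    (hO : ∃ a ∈ S, ∃ b ∈ S, ∃ c ∈ S, ∃ d ∈ S, Occ p q a b c d) {x y : L} (hxy : x ≠ y)
    (h : Blk S p q {x, y}) : ∃ Z, GSet S p q sg Z := by
  have hT := tw2_of_blk hp hq hxy h
  have main : ∀ a b : L, Tw2 S p q a b → ((sg a = true ↔ ¬ BB p q sg a b) ∨
      ((sg a = true ↔ BB p q sg a b) ∧ (sg b = true ↔ BB p q sg a b))) →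
      ∃ Z, GSet S p q sg Z := by
    intro a b hT hch
    obtain ⟨Z, hZ⟩ := IH (S.erase b) (Finset.card_erase_lt_of_mem hT.hb) p q hp hq sg
      (occ_erase hp hq hT hO)
    exact twin hp hq hT hch hZ
  have hc : BB p q sg y x ↔ BB p q sg x y := bb_comm
  by_cases h1 : (sg x = true ↔ BB p q sg x y)
  · by_cases h2 : (sg y = true ↔ BB p q sg x y)
    · exact main x y hT (Or.inr ⟨h1, h2⟩)
    · refine main y x hT.symm (Or.inl ?_)
      rw [hc]
      tauto
  · refine main x y hT (Or.inl ?_)
    tauto

end Pool.GSP
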