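import Pool.Agent.GSP.Stmts

/-!
MP_7b7176_co, ROAD S, pure permutation part: simple permutations with 4 letters.
-/

set_option autoImplicit false

namespace Pool.GSP

namespace B4_

variable {L : Type*} {S : Finset L} {p q : L → ℤ}

/-- enumeration in the order of the positions -/
lemma enum {n : ℕ} (hp : Function.Injective p) (h : S.card = n) :
    ∃ e : Fin n → L, (∀ i, e i ∈ S) ∧ (∀ z ∈ S, ∃ i, e i = z) ∧
      ∀ i j, p (e i) < p (e j) ↔ i < j := by
  classical
  have h1 : (S.image p).card = n := by rw [Finset.card_image_of_injective _ hp, h]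
  have h2 : ∀ i, ∃ z ∈ S, p z = (S.image p).orderEmbOfFin h1 i := fun i =>
    Finset.mem_image.1 (Finset.orderEmbOfFin_mem _ h1 i)
  choose e he1 he2 using h2
  refine ⟨e, he1, fun z hz => ?_, fun i j => ?_⟩
  · have h3 : p z ∈ Set.range ((S.image p).orderEmbOfFin h1) := by
      rw [Finset.range_orderEmbOfFin]
      exact Finset.mem_coe.2 (Finset.mem_image_of_mem p hz)
    obtain ⟨i, hi⟩ := h3
    exact ⟨i, hp (by rw [he2, hi])⟩
  · rw [he2, he2]
    exact ((S.image p).orderEmbOfFin h1).lt_iff_lt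

/-- a finite model of `S` -/
structure Tr {n : ℕ} (S : Finset L) (p q : L → ℤ) (e : Fin n → L) (p' q' : Fin n → ℤ) : Prop where
  mem : ∀ i, e i ∈ S
  sur : ∀ z ∈ S, ∃ i, e i = z
  hp : ∀ i j, p (e i) < p (e j) ↔ p' i < p' j
  hq : ∀ i j, q (e i) < q (e j) ↔ q' i < q' j

variable {n : ℕ} {e : Fin n → L} {p' q' : Fin n → ℤ}

lemma Tr.swap (T : Tr S p q e p' q') : Tr S q p e q' p' := ⟨T.mem, T.sur, T.hq, T.hp⟩

lemma Tr.neg (T : Tr S p q e p' q') : Tr S p (-q) e p' (-q') :=
  ⟨T.mem, T.sur, T.hp, fun i j => by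
    simp only [Pi.neg_apply, neg_lt_neg_iff]
    exact T.hq j i⟩

lemma Pr_tr (T : Tr S p q e p' q') {x y : Fin n} (h : Pr Finset.univ p' q' x y) :
    Pr S p q (e x) (e y) where
  hx := T.mem x
  hy := T.mem y
  pxy := (T.hp x y).2 h.pxy
  qyx := (T.hq y x).2 h.qyx
  emp := by
    intro z hz h1 h2 h3
    obtain ⟨i, rfl⟩ := T.sur z hz
    rw [T.hp] at h1 h2
    rw [T.hq, T.hq] at h3
    exact h.emp i (Finset.mem_univ i) h1 h2 h3

lemma Iso_tr (T : Tr S p q e p' q') {x y u : Fin n} (h : Iso S p q (e x) (e y) (e u)) :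
    Iso Finset.univ p' q' x y u := by
  obtain ⟨h1, h2, h3, h4⟩ := h
  rw [T.hp] at h1
  rw [T.hq] at h2
  refine ⟨h1, h2, fun z _ h5 h6 => ?_, fun z _ h5 h6 => ?_⟩
  · rw [← T.hq] at h5 h6
    rw [← T.hp, ← T.hp]
    exact h3 (e z) (T.mem z) h5 h6
  · rw [← T.hp] at h5 h6
    rw [← T.hq, ← T.hq]
    exact h4 (e z) (T.mem z) h5 h6

lemma Hp_tr (T : Tr S p q e p' q') {x y : Fin n} (h : Hp Finset.univ p' q' x y) :
    Hp S p q (e x) (e y) := by
  intro h1 u hu h2 h3
  obtain ⟨i, rfl⟩ := T.sur u hu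
  rw [T.hp] at h2
  rw [T.hq] at h3
  obtain ⟨z, _, w, _, h4, h5, h6, h7⟩ := h (fun z _ h5 => by
    rw [← T.hp, ← T.hq] at h5
    exact h1 (e z) (T.mem z) h5) i (Finset.mem_univ i) h2 h3
  refine ⟨e z, T.mem z, e w, T.mem w, ?_⟩
  rw [T.hp, T.hq, T.hp, T.hq]
  exact ⟨h4, h5, h6, h7⟩

/-- decidable form of `GP` -/
def Q (p' q' : Fin n → ℤ) (x y : Fin n) : Prop :=
  (p' x < p' y ∧ q' y < q' x ∧
    ∀ z ∈ (Finset.univ : Finset (Fin n)), p' x < p' z → p' z < p' y → ¬ (q' y < q' z ∧ q' z < q' x)) ∧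
  (Hp Finset.univ p' q' x y ∧ Hp Finset.univ q' p' y x ∧ Hp Finset.univ (-q') (-p') x y ∧
    Hp Finset.univ (-p') (-q') y x) ∧
  (∀ u, ¬ Iso Finset.univ p' q' x y u) ∧ ∀ u, ¬ Iso Finset.univ (-p') (-q') y x u

instance (p' q' : Fin n → ℤ) (x y : Fin n) : Decidable (Hp Finset.univ p' q' x y) := by
  unfold Hp
  infer_instance

instance (p' q' : Fin n → ℤ) (x y u : Fin n) : Decidable (Iso Finset.univ p' q' x y u) := by
  unfold Iso
  infer_instance

instance (p' q' : Fin n → ℤ) (x y : Fin n) : Decidable (Q p' q' x y) := by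
  unfold Q
  infer_instance

lemma GP_tr (T : Tr S p q e p' q') {x y : Fin n} (h : Q p' q' x y) : GP S p q (e x) (e y) := by
  obtain ⟨⟨h1, h2, h3⟩, ⟨h4, h5, h6, h7⟩, h8, h9⟩ := h
  refine ⟨Pr_tr T ⟨Finset.mem_univ x, Finset.mem_univ y, h1, h2, h3⟩,
    ⟨Hp_tr T h4, Hp_tr T.swap h5, Hp_tr T.neg.swap.neg h6, Hp_tr T.neg.swap.neg.swap h7⟩, ?_, ?_⟩
  · intro u hu h10
    obtain ⟨i, rfl⟩ := T.sur u hu
    exact h8 i (Iso_tr T h10)
  · intro u hu h10
    obtain ⟨i, rfl⟩ := T.sur u hu
    exact h9 i (Iso_tr T.neg.swap.neg.swap h10)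

lemma UPair_inv {sg : L → Bool} (h : UPair S q p sg) : UPair S p q sg := by
  rcases h with ⟨x, y, hx, hy, h⟩ | ⟨x, y, hx, hy, h, z, hz, h'⟩
  · exact Or.inl ⟨y, x, hy, hx, h.inv⟩
  · refine Or.inr ⟨x, y, hx, hy, ?_, z, hz, ?_⟩
    · have h1 := h.inv.rc
      rw [neg_neg] at h1
      exact h1
    · rcases h' with h' | h'
      · exact Or.inr ⟨h'.2, h'.1⟩
      · exact Or.inl ⟨h'.2, h'.1⟩

/-- 2413 -/
lemma main {a b c d : L} (hS : ∀ z, z ∈ S ↔ z = a ∨ z = b ∨ z = c ∨ z = d) (p1 : p a < p b)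
    (p2 : p b < p c) (p3 : p c < p d) (q1 : q c < q a) (q2 : q a < q d) (q3 : q d < q b)
    (hc : S.card = 4) (sg : L → Bool) : UPair S p q sg ∨ ∃ a b c d, Theta S p q sg a b c d := by
  have T : Tr S p q ![a, b, c, d] ![0, 1, 2, 3] ![1, 3, 0, 2] := by
    refine ⟨?_, ?_, ?_, ?_⟩
    · intro i
      fin_cases i <;> simp [hS]
    · intro z hz
      rcases (hS z).1 hz with h | h | h | h
      · exact ⟨0, h.symm⟩
      · exact ⟨1, h.symm⟩
      · exact ⟨2, h.symm⟩
      · exact ⟨3, h.symm⟩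
    · intro i j
      fin_cases i <;> fin_cases j <;> simp <;> omega
    · intro i j
      fin_cases i <;> fin_cases j <;> simp <;> omega
  have g1 : GP S p q a c := GP_tr T (x := 0) (y := 2) (by decide)
  have g2 : GP S p q b c := GP_tr T (x := 1) (y := 2) (by decide)
  have g3 : GP S p q b d := GP_tr T (x := 1) (y := 3) (by decide)
  have g4 : GP S p (-q) a b := GP_tr T.neg (x := 0) (y := 1) (by decide)
  have g5 : GP S p (-q) c d := GP_tr T.neg (x := 2) (y := 3) (by decide)
  by_cases hU : UPair S p q sg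
  · exact Or.inl hU
  · right
    have ma : a ∈ S := (hS a).2 (Or.inl rfl)
    have mb : b ∈ S := (hS b).2 (Or.inr (Or.inl rfl))
    have mc : c ∈ S := (hS c).2 (Or.inr (Or.inr (Or.inl rfl)))
    have md : d ∈ S := (hS d).2 (Or.inr (Or.inr (Or.inr rfl)))
    have f1 : ¬ (sg a = true ∧ sg c = true) := fun h => hU (Or.inl ⟨a, c, h.1, h.2, g1⟩)
    have f2 : ¬ (sg b = true ∧ sg c = true) := fun h => hU (Or.inl ⟨b, c, h.1, h.2, g2⟩)
    have f3 : ¬ (sg b = true ∧ sg d = true) := fun h => hU (Or.inl ⟨b, d, h.1, h.2, g3⟩)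
    have f4 : ¬ (sg a = false ∧ sg b = false) := fun h =>
      hU (Or.inr ⟨a, b, h.1, h.2, g4, c, mc, Or.inr ⟨p2, q1⟩⟩)
    have f5 : ¬ (sg c = false ∧ sg d = false) := fun h =>
      hU (Or.inr ⟨c, d, h.1, h.2, g5, b, mb, Or.inl ⟨p2, q3⟩⟩)
    have s : sg a = true ∧ sg b = false ∧ sg c = false ∧ sg d = true := by
      revert f1 f2 f3 f4 f5
      generalize sg a = x1
      generalize sg b = x2
      generalize sg c = x3
      generalize sg d = x4
      revert x1 x2 x3 x4
      decide
    exact ⟨a, b, c, d, ma, mb, mc, md, p1, p2, p3, q1, q2, q3, s.1, s.2.1, s.2.2.1, s.2.2.2,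
      fun z hz => by
        rcases (hS z).1 hz with h | h | h | h
        · exact Or.inl h
        · exact Or.inr (Or.inl h)
        · exact Or.inr (Or.inr (Or.inl h))
        · exact Or.inr (Or.inr (Or.inr (Or.inl h))), by omega⟩

/-- the first letter is not the lowest one -/
lemma ext [DecidableEq L] (hs : Simple S p q) (hc : 3 ≤ S.card) {a : L} (ha : a ∈ S)
    (h1 : ∀ z ∈ S, z ≠ a → p a < p z) : ¬ ∀ z ∈ S, z ≠ a → q a < q z := by
  intro h2
  have h3 := hs (S.erase a) ⟨Finset.erase_subset _ _, fun x hx y hy z hz hzK => by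
    have h4 : z = a := by
      by_contra h
      exact hzK (Finset.mem_erase.2 ⟨h, hz⟩)
    subst h4
    have h5 := h1 x (Finset.mem_of_mem_erase hx) (Finset.ne_of_mem_erase hx)
    have h6 := h2 x (Finset.mem_of_mem_erase hx) (Finset.ne_of_mem_erase hx)
    omega⟩
  rcases h3 with h3 | h3
  · rw [Finset.card_erase_of_mem ha] at h3
    omega
  · exact Finset.notMem_erase a S (by rw [h3]; exact ha)

lemma perm4 (A B C D : Prop) : (A ∨ B ∨ C ∨ D) ↔ (B ∨ D ∨ A ∨ C) := by tauto

lemma twin [DecidableEq L] (hs : Simple S p q) (hc : 3 ≤ S.card) {a b : L} (hab : a ≠ b) :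
    ¬ Blk S p q {a, b} := by
  intro h
  rcases hs _ h with h1 | h1
  · rw [Finset.card_pair hab] at h1
    omega
  · rw [← h1, Finset.card_pair hab] at hc
    omega

end B4_

open B4_

theorem t_B4 : S_B4 := by
  intro L _ S p q hp hq hs hc sg
  obtain ⟨e, he1, he2, he3⟩ := enum (S := S) hp hc
  have hlt : ∀ i j : Fin 4, i < j → p (e i) < p (e j) := fun i j h => (he3 i j).2 h
  have p1 : p (e 0) < p (e 1) := hlt 0 1 (by decide)
  have p2 : p (e 1) < p (e 2) := hlt 1 2 (by decide)
  have p3 : p (e 2) < p (e 3) := hlt 2 3 (by decide)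
  have ma := he1 0
  have mb := he1 1
  have mc := he1 2
  have md := he1 3
  have hS : ∀ z, z ∈ S ↔ z = e 0 ∨ z = e 1 ∨ z = e 2 ∨ z = e 3 := by
    intro z
    constructor
    · intro hz
      obtain ⟨i, rfl⟩ := he2 z hz
      fin_cases i <;> simp
    · rintro (h | h | h | h) <;> rw [h]
      · exact ma
      · exact mb
      · exact mc
      · exact md
  generalize e 0 = a at p1 ma hS
  generalize e 1 = b at p1 p2 mb hS
  generalize e 2 = c at p2 p3 mc hS
  generalize e 3 = d at p3 md hS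
  have hc3 : 3 ≤ S.card := by omega
  have e1 := ext hs hc3 ma (fun z hz hza => by
    rcases (hS z).1 hz with h | h | h | h
    · exact absurd h hza
    · rw [h]; omega
    · rw [h]; omega
    · rw [h]; omega)
  have e2 := ext hs.compl hc3 ma (fun z hz hza => by
    rcases (hS z).1 hz with h | h | h | h
    · exact absurd h hza
    · rw [h]; omega
    · rw [h]; omega
    · rw [h]; omega)
  have e3 := ext hs.rev hc3 md (fun z hz hza => by
    simp only [Pi.neg_apply, neg_lt_neg_iff]
    rcases (hS z).1 hz with h | h | h | h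
    · rw [h]; omega
    · rw [h]; omega
    · rw [h]; omega
    · exact absurd h hza)
  have e4 := ext hs.rc hc3 md (fun z hz hza => by
    simp only [Pi.neg_apply, neg_lt_neg_iff]
    rcases (hS z).1 hz with h | h | h | h
    · rw [h]; omega
    · rw [h]; omega
    · rw [h]; omega
    · exact absurd h hza)
  have nab : a ≠ b := fun h => by rw [h] at p1; omega
  have nbc : b ≠ c := fun h => by rw [h] at p2; omega
  have ncd : c ≠ d := fun h => by rw [h] at p3; omega
  have nac : a ≠ c := fun h => by rw [h] at p1; omega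
  have nbd : b ≠ d := fun h => by rw [h] at p2; omega
  have nad : a ≠ d := fun h => by rw [h] at p1; omega
  have k1 := ne_p hq nab
  have k2 := ne_p hq nbc
  have k3 := ne_p hq ncd
  have k4 := ne_p hq nac
  have k5 := ne_p hq nbd
  have k6 := ne_p hq nad
  have e1' : ¬ (q a < q b ∧ q a < q c ∧ q a < q d) := fun h => e1 (fun z hz hza => by
    rcases (hS z).1 hz with h' | h' | h' | h'
    · exact absurd h' hza
    · rw [h']; omega
    · rw [h']; omega
    · rw [h']; omega)
  have e2' : ¬ (q b < q a ∧ q c < q a ∧ q d < q a) := fun h => e2 (fun z hz hza => by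
    simp only [Pi.neg_apply, neg_lt_neg_iff]
    rcases (hS z).1 hz with h' | h' | h' | h'
    · exact absurd h' hza
    · rw [h']; omega
    · rw [h']; omega
    · rw [h']; omega)
  have e3' : ¬ (q d < q a ∧ q d < q b ∧ q d < q c) := fun h => e3 (fun z hz hza => by
    rcases (hS z).1 hz with h' | h' | h' | h'
    · rw [h']; omega
    · rw [h']; omega
    · rw [h']; omega
    · exact absurd h' hza)
  have e4' : ¬ (q a < q d ∧ q b < q d ∧ q c < q d) := fun h => e4 (fun z hz hza => by
    simp only [Pi.neg_apply, neg_lt_neg_iff]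
    rcases (hS z).1 hz with h' | h' | h' | h'
    · rw [h']; omega
    · rw [h']; omega
    · rw [h']; omega
    · exact absurd h' hza)
  have tab := twin hs hc3 nab
  have tcd := twin hs hc3 ncd
  have t1 : (q a < q c ∧ q c < q b) ∨ (q b < q c ∧ q c < q a) ∨ (q a < q d ∧ q d < q b) ∨
      (q b < q d ∧ q d < q a) := by
    by_contra h
    refine tab ⟨?_, ?_⟩
    · intro z hz
      rw [Finset.mem_insert, Finset.mem_singleton] at hz
      rcases hz with hz | hz <;> rw [hz]
      · exact ma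
      · exact mb
    · intro x hx y hy z hz hzK
      rw [Finset.mem_insert, Finset.mem_singleton] at hx hy hzK
      rcases (hS z).1 hz with h' | h' | h' | h'
      · exact absurd (Or.inl h') hzK
      · exact absurd (Or.inr h') hzK
      · rcases hx with hx | hx <;> rcases hy with hy | hy <;> rw [hx, hy, h'] <;> omega
      · rcases hx with hx | hx <;> rcases hy with hy | hy <;> rw [hx, hy, h'] <;> omega
  have t2 : (q c < q a ∧ q a < q d) ∨ (q d < q a ∧ q a < q c) ∨ (q c < q b ∧ q b < q d) ∨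
      (q d < q b ∧ q b < q c) := by
    by_contra h
    refine tcd ⟨?_, ?_⟩
    · intro z hz
      rw [Finset.mem_insert, Finset.mem_singleton] at hz
      rcases hz with hz | hz <;> rw [hz]
      · exact mc
      · exact md
    · intro x hx y hy z hz hzK
      rw [Finset.mem_insert, Finset.mem_singleton] at hx hy hzK
      rcases (hS z).1 hz with h' | h' | h' | h'
      · rcases hx with hx | hx <;> rcases hy with hy | hy <;> rw [hx, hy, h'] <;> omega
      · rcases hx with hx | hx <;> rcases hy with hy | hy <;> rw [hx, hy, h'] <;> omega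
      · exact absurd (Or.inl h') hzK
      · exact absurd (Or.inr h') hzK
  have fin : (q c < q a ∧ q a < q d ∧ q d < q b) ∨ (q b < q d ∧ q d < q a ∧ q a < q c) := by
    clear tab tcd e1 e2 e3 e4 hS he1 he2 he3 hlt hs hc hc3 p1 p2 p3
    rcases lt_or_gt_of_ne k6 with h | h
    · clear e2' e3'
      rcases lt_or_gt_of_ne k1 with h1 | h1
      · have h2 : q c < q a := by
          rcases lt_or_gt_of_ne k4 with h3 | h3
          · exact absurd ⟨h1, h3, h⟩ e1'
          · exact h3
        have h3 : q d < q b := by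
          rcases lt_or_gt_of_ne k5 with h3 | h3
          · exact absurd ⟨h, h3, h2.trans h⟩ e4'
          · exact h3
        exact Or.inl ⟨h2, h, h3⟩
      · exfalso
        have h3 : q d < q c := by
          rcases lt_or_gt_of_ne k3 with h3 | h3
          · exact absurd ⟨h, h1.trans h, h3⟩ e4'
          · exact h3
        clear e1' e4' t2
        omega
    · clear e1' e4'
      rcases lt_or_gt_of_ne k1 with h1 | h1
      · exfalso
        have h3 : q c < q d := by
          rcases lt_or_gt_of_ne k3 with h3 | h3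
          · exact h3
          · exact absurd ⟨h, h.trans h1, h3⟩ e3'
        clear e2' e3' t2
        omega
      · have h2 : q a < q c := by
          rcases lt_or_gt_of_ne k4 with h3 | h3
          · exact h3
          · exact absurd ⟨h1, h3, h⟩ e2'
        have h3 : q b < q d := by
          rcases lt_or_gt_of_ne k5 with h3 | h3
          · exact h3
          · exact absurd ⟨h, h3, h.trans h2⟩ e3'
        exact Or.inr ⟨h3, h, h2⟩
  rcases fin with ⟨q1, q2, q3⟩ | ⟨q1, q2, q3⟩
  · rcases main hS p1 p2 p3 q1 q2 q3 hc sg with h | h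
    · exact Or.inl h
    · exact Or.inr (Or.inl h)
  · have hS' : ∀ z, z ∈ S ↔ z = b ∨ z = d ∨ z = a ∨ z = c := by
      intro z
      rw [hS z]
      exact perm4 _ _ _ _
    rcases main (p := q) (q := p) hS' q1 q2 q3 p1 p2 p3 hc sg with h | h
    · exact Or.inl (UPair_inv h)
    · exact Or.inr (Or.inr h)

end Pool.GSP
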