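import Pool.Agent.GSP.Stmts

/-!
MP_7b7176_co, ROAD S, pure permutation part: (8.4) for 5 letters.  Also a general transport lemma
to the letters `Fin n` (`B5_.up_tr`, `B5_.exists_rank`).
-/

set_option autoImplicit false

namespace Pool.GSP.B5_

variable {L L' : Type*}

/-- `ℓ` transports the permutation `(T, p', q')` to `(S, p, q)`. -/
structure Tr (ℓ : L' → L) (T : Finset L') (S : Finset L) (p q : L → ℤ) (p' q' : L' → ℤ) :
    Prop where
  on : ∀ z ∈ S, ∃ i ∈ T, ℓ i = z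
  mem : ∀ i ∈ T, ℓ i ∈ S
  hp : ∀ i j, p (ℓ i) < p (ℓ j) ↔ p' i < p' j
  hq : ∀ i j, q (ℓ i) < q (ℓ j) ↔ q' i < q' j

variable {ℓ : L' → L} {T : Finset L'} {S : Finset L} {p q : L → ℤ} {p' q' : L' → ℤ}

lemma Tr.inv (h : Tr ℓ T S p q p' q') : Tr ℓ T S q p q' p' := ⟨h.on, h.mem, h.hq, h.hp⟩

lemma Tr.compl (h : Tr ℓ T S p q p' q') : Tr ℓ T S p (-q) p' (-q') :=
  ⟨h.on, h.mem, h.hp, fun i j => by simp [h.hq]⟩

lemma Tr.rc (h : Tr ℓ T S p q p' q') : Tr ℓ T S (-p) (-q) (-p') (-q') :=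
  h.compl.inv.compl.inv

lemma Tr.pr (h : Tr ℓ T S p q p' q') {x y : L'} (g : Pr T p' q' x y) : Pr S p q (ℓ x) (ℓ y) where
  hx := h.mem _ g.hx
  hy := h.mem _ g.hy
  pxy := (h.hp _ _).2 g.pxy
  qyx := (h.hq _ _).2 g.qyx
  emp := by
    intro z hz
    obtain ⟨i, hi, rfl⟩ := h.on z hz
    rw [h.hp, h.hp, h.hq, h.hq]
    exact g.emp i hi

lemma Tr.iso (h : Tr ℓ T S p q p' q') {x y u : L'} (g : Iso S p q (ℓ x) (ℓ y) (ℓ u)) :
    Iso T p' q' x y u := by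
  obtain ⟨h1, h2, h3, h4⟩ := g
  refine ⟨(h.hp _ _).1 h1, (h.hq _ _).1 h2, fun i hi => ?_, fun i hi => ?_⟩
  · have := h3 (ℓ i) (h.mem i hi)
    rwa [h.hq, h.hq, h.hp, h.hp] at this
  · have := h4 (ℓ i) (h.mem i hi)
    rwa [h.hp, h.hp, h.hq, h.hq] at this

lemma Tr.hpp (h : Tr ℓ T S p q p' q') {x y : L'} (g : Hp T p' q' x y) :
    Hp S p q (ℓ x) (ℓ y) := by
  intro h1 u hu
  obtain ⟨i, hi, rfl⟩ := h.on u hu
  rw [h.hp, h.hq]
  intro h2 h3
  obtain ⟨z, hz, w, hw, h4, h5, h6, h7⟩ := g (fun j hj => by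
    have := h1 (ℓ j) (h.mem j hj)
    rwa [h.hp, h.hq] at this) i hi h2 h3
  exact ⟨ℓ z, h.mem z hz, ℓ w, h.mem w hw, (h.hp _ _).2 h4, (h.hq _ _).2 h5, (h.hp _ _).2 h6,
    (h.hq _ _).2 h7⟩

lemma Tr.gp (h : Tr ℓ T S p q p' q') {x y : L'} (g : GP T p' q' x y) : GP S p q (ℓ x) (ℓ y) where
  pr := h.pr g.pr
  l2 := ⟨h.hpp g.l2.h1, h.inv.hpp g.l2.h2, h.rc.inv.hpp g.l2.h3, h.rc.hpp g.l2.h4⟩
  i1 := by
    intro u hu h1
    obtain ⟨i, hi, rfl⟩ := h.on u hu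
    exact g.i1 i hi (h.iso h1)
  i2 := by
    intro u hu h1
    obtain ⟨i, hi, rfl⟩ := h.on u hu
    exact g.i2 i hi (h.rc.iso h1)

lemma Tr.ne (h : Tr ℓ T S p q p' q') {x y : L'} (g : NE T p' q' x y) : NE S p q (ℓ x) (ℓ y) := by
  obtain ⟨z, hz, h1⟩ := g
  refine ⟨ℓ z, h.mem z hz, ?_⟩
  rwa [h.hp, h.hp, h.hq, h.hq]

/-- Transport of `UPair`. -/
lemma Tr.up (h : Tr ℓ T S p q p' q') {sg : L → Bool} (g : UPair T p' q' (fun i => sg (ℓ i))) :
    UPair S p q sg := by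
  rcases g with ⟨x, y, h1, h2, g⟩ | ⟨x, y, h1, h2, g, g'⟩
  · exact Or.inl ⟨ℓ x, ℓ y, h1, h2, h.gp g⟩
  · exact Or.inr ⟨ℓ x, ℓ y, h1, h2, h.compl.gp g, h.ne g'⟩

/-- Ranks: `S` is the image of `Fin n` under a map `ℓ` which is increasing for `p`; the values are
ordered as a permutation `σ`. -/
lemma exists_rank [DecidableEq L] (S : Finset L) (p q : L → ℤ) (hp : Function.Injective p)
    (hq : Function.Injective q) (n : ℕ) (hn : S.card = n) :
    ∃ (ℓ : Fin n → L) (σ : Fin n → Fin n), Function.Injective σ ∧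
      Tr ℓ Finset.univ S p q (fun i => ((i : ℕ) : ℤ)) (fun i => ((σ i : ℕ) : ℤ)) := by
  have cp : (S.image p).card = n := by rw [Finset.card_image_of_injective _ hp, hn]
  have cq : (S.image q).card = n := by rw [Finset.card_image_of_injective _ hq, hn]
  have h1 : ∀ i : Fin n, ∃ x ∈ S, p x = (S.image p).orderEmbOfFin cp i := fun i => by
    obtain ⟨x, hx, h⟩ := Finset.mem_image.1 (Finset.orderEmbOfFin_mem (S.image p) cp i)
    exact ⟨x, hx, h⟩
  choose ℓ hℓ hpℓ using h1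
  have h2 : ∀ i : Fin n, ∃ j : Fin n, (S.image q).orderEmbOfFin cq j = q (ℓ i) := fun i => by
    have h3 : q (ℓ i) ∈ Set.range ((S.image q).orderEmbOfFin cq) := by
      rw [Finset.range_orderEmbOfFin]
      exact Finset.mem_coe.2 (Finset.mem_image_of_mem q (hℓ i))
    exact h3
  choose σ hσ using h2
  have hp' : ∀ i j, p (ℓ i) < p (ℓ j) ↔ ((i : ℕ) : ℤ) < ((j : ℕ) : ℤ) := fun i j => by
    rw [hpℓ, hpℓ, OrderEmbedding.lt_iff_lt]
    simp
  have hq' : ∀ i j, q (ℓ i) < q (ℓ j) ↔ ((σ i : ℕ) : ℤ) < ((σ j : ℕ) : ℤ) := fun i j => by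
    rw [← hσ, ← hσ, OrderEmbedding.lt_iff_lt]
    simp
  refine ⟨ℓ, σ, ?_, ⟨?_, fun i _ => hℓ i, hp', hq'⟩⟩
  · intro i j hij
    have h3 : q (ℓ i) = q (ℓ j) := by rw [← hσ, ← hσ, hij]
    have h4 := hq h3
    rcases lt_trichotomy i j with h | h | h
    · exact absurd ((hp' i j).2 (by exact_mod_cast h)) (by rw [h4]; exact lt_irrefl _)
    · exact h
    · exact absurd ((hp' j i).2 (by exact_mod_cast h)) (by rw [h4]; exact lt_irrefl _)
  · intro z hz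
    have h3 : p z ∈ Set.range ((S.image p).orderEmbOfFin cp) := by
      rw [Finset.range_orderEmbOfFin]
      exact Finset.mem_coe.2 (Finset.mem_image_of_mem p hz)
    obtain ⟨i, hi⟩ := h3
    exact ⟨i, Finset.mem_univ _, hp (by rw [hpℓ, hi])⟩

/-- positions of the letters of a word -/
abbrev P5 : Fin 5 → ℤ := fun i => ((i : ℕ) : ℤ)

/-- values of the letters of a word -/
abbrev Q5 (w : Fin 5 → Fin 5) : Fin 5 → ℤ := fun i => ((w i : ℕ) : ℤ)

/-- 24153 -/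
lemma c24153 (sg : Fin 5 → Bool) :
    UPair (Finset.univ : Finset (Fin 5)) P5 (Q5 ![1, 3, 0, 4, 2]) sg := by
  have i1 : GP (Finset.univ : Finset (Fin 5)) P5 (Q5 ![1, 3, 0, 4, 2]) 0 2 := by
    refine ⟨⟨by decide, by decide, by decide, by decide, by decide⟩, ⟨?_, ?_, ?_, ?_⟩, ?_, ?_⟩ <;>
      first | (unfold Hp; decide) | (unfold Iso; decide)
  have i2 : GP (Finset.univ : Finset (Fin 5)) P5 (Q5 ![1, 3, 0, 4, 2]) 1 2 := by
    refine ⟨⟨by decide, by decide, by decide, by decide, by decide⟩, ⟨?_, ?_, ?_, ?_⟩, ?_, ?_⟩ <;>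
      first | (unfold Hp; decide) | (unfold Iso; decide)
  have i3 : GP (Finset.univ : Finset (Fin 5)) P5 (Q5 ![1, 3, 0, 4, 2]) 1 4 := by
    refine ⟨⟨by decide, by decide, by decide, by decide, by decide⟩, ⟨?_, ?_, ?_, ?_⟩, ?_, ?_⟩ <;>
      first | (unfold Hp; decide) | (unfold Iso; decide)
  have i4 : GP (Finset.univ : Finset (Fin 5)) P5 (Q5 ![1, 3, 0, 4, 2]) 3 4 := by
    refine ⟨⟨by decide, by decide, by decide, by decide, by decide⟩, ⟨?_, ?_, ?_, ?_⟩, ?_, ?_⟩ <;>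
      first | (unfold Hp; decide) | (unfold Iso; decide)
  have j1 : GP (Finset.univ : Finset (Fin 5)) P5 (-(Q5 ![1, 3, 0, 4, 2])) 0 1 := by
    refine ⟨⟨by decide, by decide, by decide, by decide, by decide⟩, ⟨?_, ?_, ?_, ?_⟩, ?_, ?_⟩ <;>
      first | (unfold Hp; decide) | (unfold Iso; decide)
  have j2 : GP (Finset.univ : Finset (Fin 5)) P5 (-(Q5 ![1, 3, 0, 4, 2])) 1 3 := by
    refine ⟨⟨by decide, by decide, by decide, by decide, by decide⟩, ⟨?_, ?_, ?_, ?_⟩, ?_, ?_⟩ <;>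
      first | (unfold Hp; decide) | (unfold Iso; decide)
  have j3 : GP (Finset.univ : Finset (Fin 5)) P5 (-(Q5 ![1, 3, 0, 4, 2])) 2 4 := by
    refine ⟨⟨by decide, by decide, by decide, by decide, by decide⟩, ⟨?_, ?_, ?_, ?_⟩, ?_, ?_⟩ <;>
      first | (unfold Hp; decide) | (unfold Iso; decide)
  have k1 : NE (Finset.univ : Finset (Fin 5)) P5 (Q5 ![1, 3, 0, 4, 2]) 0 1 := by unfold NE; decide
  have k2 : NE (Finset.univ : Finset (Fin 5)) P5 (Q5 ![1, 3, 0, 4, 2]) 1 3 := by unfold NE; decide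
  have k3 : NE (Finset.univ : Finset (Fin 5)) P5 (Q5 ![1, 3, 0, 4, 2]) 2 4 := by unfold NE; decide
  cases h0 : sg 0 <;> cases h1 : sg 1 <;> cases h2 : sg 2 <;> cases h3 : sg 3 <;>
    cases h4 : sg 4 <;>
    first
    | exact Or.inl ⟨0, 2, h0, h2, i1⟩
    | exact Or.inl ⟨1, 2, h1, h2, i2⟩
    | exact Or.inl ⟨1, 4, h1, h4, i3⟩
    | exact Or.inl ⟨3, 4, h3, h4, i4⟩
    | exact Or.inr ⟨0, 1, h0, h1, j1, k1⟩
    | exact Or.inr ⟨1, 3, h1, h3, j2, k2⟩
    | exact Or.inr ⟨2, 4, h2, h4, j3, k3⟩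

/-- 31524 -/
lemma c31524 (sg : Fin 5 → Bool) :
    UPair (Finset.univ : Finset (Fin 5)) P5 (Q5 ![2, 0, 4, 1, 3]) sg := by
  have i1 : GP (Finset.univ : Finset (Fin 5)) P5 (Q5 ![2, 0, 4, 1, 3]) 0 1 := by
    refine ⟨⟨by decide, by decide, by decide, by decide, by decide⟩, ⟨?_, ?_, ?_, ?_⟩, ?_, ?_⟩ <;>
      first | (unfold Hp; decide) | (unfold Iso; decide)
  have i2 : GP (Finset.univ : Finset (Fin 5)) P5 (Q5 ![2, 0, 4, 1, 3]) 0 3 := by
    refine ⟨⟨by decide, by decide, by decide, by decide, by decide⟩, ⟨?_, ?_, ?_, ?_⟩, ?_, ?_⟩ <;>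
      first | (unfold Hp; decide) | (unfold Iso; decide)
  have i3 : GP (Finset.univ : Finset (Fin 5)) P5 (Q5 ![2, 0, 4, 1, 3]) 2 3 := by
    refine ⟨⟨by decide, by decide, by decide, by decide, by decide⟩, ⟨?_, ?_, ?_, ?_⟩, ?_, ?_⟩ <;>
      first | (unfold Hp; decide) | (unfold Iso; decide)
  have i4 : GP (Finset.univ : Finset (Fin 5)) P5 (Q5 ![2, 0, 4, 1, 3]) 2 4 := by
    refine ⟨⟨by decide, by decide, by decide, by decide, by decide⟩, ⟨?_, ?_, ?_, ?_⟩, ?_, ?_⟩ <;>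
      first | (unfold Hp; decide) | (unfold Iso; decide)
  have j1 : GP (Finset.univ : Finset (Fin 5)) P5 (-(Q5 ![2, 0, 4, 1, 3])) 0 2 := by
    refine ⟨⟨by decide, by decide, by decide, by decide, by decide⟩, ⟨?_, ?_, ?_, ?_⟩, ?_, ?_⟩ <;>
      first | (unfold Hp; decide) | (unfold Iso; decide)
  have j2 : GP (Finset.univ : Finset (Fin 5)) P5 (-(Q5 ![2, 0, 4, 1, 3])) 1 3 := by
    refine ⟨⟨by decide, by decide, by decide, by decide, by decide⟩, ⟨?_, ?_, ?_, ?_⟩, ?_, ?_⟩ <;>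
      first | (unfold Hp; decide) | (unfold Iso; decide)
  have j3 : GP (Finset.univ : Finset (Fin 5)) P5 (-(Q5 ![2, 0, 4, 1, 3])) 3 4 := by
    refine ⟨⟨by decide, by decide, by decide, by decide, by decide⟩, ⟨?_, ?_, ?_, ?_⟩, ?_, ?_⟩ <;>
      first | (unfold Hp; decide) | (unfold Iso; decide)
  have k1 : NE (Finset.univ : Finset (Fin 5)) P5 (Q5 ![2, 0, 4, 1, 3]) 0 2 := by unfold NE; decide
  have k2 : NE (Finset.univ : Finset (Fin 5)) P5 (Q5 ![2, 0, 4, 1, 3]) 1 3 := by unfold NE; decide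
  have k3 : NE (Finset.univ : Finset (Fin 5)) P5 (Q5 ![2, 0, 4, 1, 3]) 3 4 := by unfold NE; decide
  cases h0 : sg 0 <;> cases h1 : sg 1 <;> cases h2 : sg 2 <;> cases h3 : sg 3 <;>
    cases h4 : sg 4 <;>
    first
    | exact Or.inl ⟨0, 1, h0, h1, i1⟩
    | exact Or.inl ⟨0, 3, h0, h3, i2⟩
    | exact Or.inl ⟨2, 3, h2, h3, i3⟩
    | exact Or.inl ⟨2, 4, h2, h4, i4⟩
    | exact Or.inr ⟨0, 2, h0, h2, j1, k1⟩
    | exact Or.inr ⟨1, 3, h1, h3, j2, k2⟩
    | exact Or.inr ⟨3, 4, h3, h4, j3, k3⟩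

/-- 35142 -/
lemma c35142 (sg : Fin 5 → Bool) :
    UPair (Finset.univ : Finset (Fin 5)) P5 (Q5 ![2, 4, 0, 3, 1]) sg := by
  have i1 : GP (Finset.univ : Finset (Fin 5)) P5 (Q5 ![2, 4, 0, 3, 1]) 0 2 := by
    refine ⟨⟨by decide, by decide, by decide, by decide, by decide⟩, ⟨?_, ?_, ?_, ?_⟩, ?_, ?_⟩ <;>
      first | (unfold Hp; decide) | (unfold Iso; decide)
  have i2 : GP (Finset.univ : Finset (Fin 5)) P5 (Q5 ![2, 4, 0, 3, 1]) 0 4 := by
    refine ⟨⟨by decide, by decide, by decide, by decide, by decide⟩, ⟨?_, ?_, ?_, ?_⟩, ?_, ?_⟩ <;>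
      first | (unfold Hp; decide) | (unfold Iso; decide)
  have i3 : GP (Finset.univ : Finset (Fin 5)) P5 (Q5 ![2, 4, 0, 3, 1]) 1 3 := by
    refine ⟨⟨by decide, by decide, by decide, by decide, by decide⟩, ⟨?_, ?_, ?_, ?_⟩, ?_, ?_⟩ <;>
      first | (unfold Hp; decide) | (unfold Iso; decide)
  have j1 : GP (Finset.univ : Finset (Fin 5)) P5 (-(Q5 ![2, 4, 0, 3, 1])) 0 1 := by
    refine ⟨⟨by decide, by decide, by decide, by decide, by decide⟩, ⟨?_, ?_, ?_, ?_⟩, ?_, ?_⟩ <;>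
      first | (unfold Hp; decide) | (unfold Iso; decide)
  have j2 : GP (Finset.univ : Finset (Fin 5)) P5 (-(Q5 ![2, 4, 0, 3, 1])) 0 3 := by
    refine ⟨⟨by decide, by decide, by decide, by decide, by decide⟩, ⟨?_, ?_, ?_, ?_⟩, ?_, ?_⟩ <;>
      first | (unfold Hp; decide) | (unfold Iso; decide)
  have j3 : GP (Finset.univ : Finset (Fin 5)) P5 (-(Q5 ![2, 4, 0, 3, 1])) 2 4 := by
    refine ⟨⟨by decide, by decide, by decide, by decide, by decide⟩, ⟨?_, ?_, ?_, ?_⟩, ?_, ?_⟩ <;>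
      first | (unfold Hp; decide) | (unfold Iso; decide)
  have k1 : NE (Finset.univ : Finset (Fin 5)) P5 (Q5 ![2, 4, 0, 3, 1]) 0 1 := by unfold NE; decide
  have k2 : NE (Finset.univ : Finset (Fin 5)) P5 (Q5 ![2, 4, 0, 3, 1]) 0 3 := by unfold NE; decide
  have k3 : NE (Finset.univ : Finset (Fin 5)) P5 (Q5 ![2, 4, 0, 3, 1]) 2 4 := by unfold NE; decide
  cases h0 : sg 0 <;> cases h1 : sg 1 <;> cases h2 : sg 2 <;> cases h3 : sg 3 <;>
    cases h4 : sg 4 <;>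
    first
    | exact Or.inl ⟨0, 2, h0, h2, i1⟩
    | exact Or.inl ⟨0, 4, h0, h4, i2⟩
    | exact Or.inl ⟨1, 3, h1, h3, i3⟩
    | exact Or.inr ⟨0, 1, h0, h1, j1, k1⟩
    | exact Or.inr ⟨0, 3, h0, h3, j2, k2⟩
    | exact Or.inr ⟨2, 4, h2, h4, j3, k3⟩

/-- 42513 -/
lemma c42513 (sg : Fin 5 → Bool) :
    UPair (Finset.univ : Finset (Fin 5)) P5 (Q5 ![3, 1, 4, 0, 2]) sg := by
  have i1 : GP (Finset.univ : Finset (Fin 5)) P5 (Q5 ![3, 1, 4, 0, 2]) 0 1 := by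
    refine ⟨⟨by decide, by decide, by decide, by decide, by decide⟩, ⟨?_, ?_, ?_, ?_⟩, ?_, ?_⟩ <;>
      first | (unfold Hp; decide) | (unfold Iso; decide)
  have i2 : GP (Finset.univ : Finset (Fin 5)) P5 (Q5 ![3, 1, 4, 0, 2]) 0 4 := by
    refine ⟨⟨by decide, by decide, by decide, by decide, by decide⟩, ⟨?_, ?_, ?_, ?_⟩, ?_, ?_⟩ <;>
      first | (unfold Hp; decide) | (unfold Iso; decide)
  have i3 : GP (Finset.univ : Finset (Fin 5)) P5 (Q5 ![3, 1, 4, 0, 2]) 2 3 := by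
    refine ⟨⟨by decide, by decide, by decide, by decide, by decide⟩, ⟨?_, ?_, ?_, ?_⟩, ?_, ?_⟩ <;>
      first | (unfold Hp; decide) | (unfold Iso; decide)
  have i4 : GP (Finset.univ : Finset (Fin 5)) P5 (Q5 ![3, 1, 4, 0, 2]) 2 4 := by
    refine ⟨⟨by decide, by decide, by decide, by decide, by decide⟩, ⟨?_, ?_, ?_, ?_⟩, ?_, ?_⟩ <;>
      first | (unfold Hp; decide) | (unfold Iso; decide)
  have j1 : GP (Finset.univ : Finset (Fin 5)) P5 (-(Q5 ![3, 1, 4, 0, 2])) 1 4 := by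
    refine ⟨⟨by decide, by decide, by decide, by decide, by decide⟩, ⟨?_, ?_, ?_, ?_⟩, ?_, ?_⟩ <;>
      first | (unfold Hp; decide) | (unfold Iso; decide)
  have j2 : GP (Finset.univ : Finset (Fin 5)) P5 (-(Q5 ![3, 1, 4, 0, 2])) 0 2 := by
    refine ⟨⟨by decide, by decide, by decide, by decide, by decide⟩, ⟨?_, ?_, ?_, ?_⟩, ?_, ?_⟩ <;>
      first | (unfold Hp; decide) | (unfold Iso; decide)
  have j3 : GP (Finset.univ : Finset (Fin 5)) P5 (-(Q5 ![3, 1, 4, 0, 2])) 3 4 := by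
    refine ⟨⟨by decide, by decide, by decide, by decide, by decide⟩, ⟨?_, ?_, ?_, ?_⟩, ?_, ?_⟩ <;>
      first | (unfold Hp; decide) | (unfold Iso; decide)
  have k1 : NE (Finset.univ : Finset (Fin 5)) P5 (Q5 ![3, 1, 4, 0, 2]) 1 4 := by unfold NE; decide
  have k2 : NE (Finset.univ : Finset (Fin 5)) P5 (Q5 ![3, 1, 4, 0, 2]) 0 2 := by unfold NE; decide
  have k3 : NE (Finset.univ : Finset (Fin 5)) P5 (Q5 ![3, 1, 4, 0, 2]) 3 4 := by unfold NE; decide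
  cases h0 : sg 0 <;> cases h1 : sg 1 <;> cases h2 : sg 2 <;> cases h3 : sg 3 <;>
    cases h4 : sg 4 <;>
    first
    | exact Or.inl ⟨0, 1, h0, h1, i1⟩
    | exact Or.inl ⟨0, 4, h0, h4, i2⟩
    | exact Or.inl ⟨2, 3, h2, h3, i3⟩
    | exact Or.inl ⟨2, 4, h2, h4, i4⟩
    | exact Or.inr ⟨1, 4, h1, h4, j1, k1⟩
    | exact Or.inr ⟨0, 2, h0, h2, j2, k2⟩
    | exact Or.inr ⟨3, 4, h3, h4, j3, k3⟩

lemma adj5 : ∀ i j : Fin 5, i ≠ j →
    (∀ k : Fin 5, ¬(i.val < k.val ∧ k.val < j.val) ∧ ¬(j.val < k.val ∧ k.val < i.val)) →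
    i.val + 1 = j.val ∨ j.val + 1 = i.val := by
  decide

/-- The conditions used. -/
def Cd (a b c d e : Fin 5) : Bool :=
  decide (∀ z : Fin 5, ¬(a < z ∧ z < e) ∧ ¬(e < z ∧ z < a)) &&
  decide (∀ i j : Fin 5, ![a, b, c, d, e] i = 0 → ![a, b, c, d, e] j = 4 →
      i.val + 1 = j.val ∨ j.val + 1 = i.val) &&
  decide (∀ i j : Fin 5, i.val + 1 = j.val →
    ¬(![a, b, c, d, e] i).val + 1 = (![a, b, c, d, e] j).val ∧
    ¬(![a, b, c, d, e] j).val + 1 = (![a, b, c, d, e] i).val)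

/-- The four permutations. -/
lemma four : ∀ a b c d e : Fin 5, a ≠ b → a ≠ c → a ≠ d → a ≠ e → b ≠ c → b ≠ d → b ≠ e →
    c ≠ d → c ≠ e → d ≠ e → Cd a b c d e = true →
    ![a, b, c, d, e] = ![1, 3, 0, 4, 2] ∨ ![a, b, c, d, e] = ![2, 0, 4, 1, 3] ∨
    ![a, b, c, d, e] = ![2, 4, 0, 3, 1] ∨ ![a, b, c, d, e] = ![3, 1, 4, 0, 2] := by
  decide

end Pool.GSP.B5_

namespace Pool.GSP

open B5_

/-- (8.4) for 5 letters -/
theorem t_B5 : M_B5 := by
  intro hFL L _ S p q hp hq hsim hcf h5 hc sg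
  obtain ⟨ℓ, σ, hσ, tr⟩ := exists_rank S p q hp hq 5 hc
  have hP : ∀ i j : Fin 5, p (ℓ i) < p (ℓ j) ↔ i.val < j.val := fun i j => by
    rw [tr.hp]; exact Nat.cast_lt
  have hQ : ∀ i j : Fin 5, q (ℓ i) < q (ℓ j) ↔ (σ i).val < (σ j).val := fun i j => by
    rw [tr.hq]; exact Nat.cast_lt
  have hℓ : Function.Injective ℓ := by
    intro i j hij
    have h1 := hP i j
    have h2 := hP j i
    rw [hij] at h1 h2
    have h3 : ¬ p (ℓ j) < p (ℓ j) := lt_irrefl _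
    ext
    omega
  have mem : ∀ i, ℓ i ∈ S := fun i => tr.mem i (Finset.mem_univ _)
  have on : ∀ z ∈ S, ∃ i, ℓ i = z := fun z hz => by
    obtain ⟨i, -, h⟩ := tr.on z hz
    exact ⟨i, h⟩
  -- first and last letter
  have c1 : ∀ z : Fin 5, ¬(σ 0 < z ∧ z < σ 4) ∧ ¬(σ 4 < z ∧ z < σ 0) := by
    have h1 := hFL L S p q hp hq hsim hcf h5 (ℓ 0) (mem 0) (ℓ 4) (mem 4)
      (by
        intro z hz hne
        obtain ⟨i, rfl⟩ := on z hz
        rw [hP]
        have : i ≠ 0 := fun h => hne (by rw [h])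
        have h2 : i.val ≠ 0 := fun h => this (Fin.ext h)
        exact Nat.pos_of_ne_zero h2)
      (by
        intro z hz hne
        obtain ⟨i, rfl⟩ := on z hz
        rw [hP]
        have : i ≠ 4 := fun h => hne (by rw [h])
        have h2 : i.val ≠ 4 := fun h => this (Fin.ext h)
        have h3 := i.isLt
        show i.val < 4
        omega)
    intro z
    obtain ⟨i, hi⟩ := (Finite.injective_iff_surjective.1 hσ) z
    have h2 := h1 (ℓ i) (mem i)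
    rw [hQ, hQ, hQ, hQ, hi] at h2
    exact h2
  -- lowest and highest letter
  have c2 : ∀ i j : Fin 5, σ i = 0 → σ j = 4 → i.val + 1 = j.val ∨ j.val + 1 = i.val := by
    intro i j hi hj
    have h1 := hFL L S q p hq hp hsim.inv hcf.inv h5.inv (ℓ i) (mem i) (ℓ j) (mem j)
      (by
        intro z hz hne
        obtain ⟨k, rfl⟩ := on z hz
        rw [hQ, hi]
        have h3 : σ k ≠ 0 := fun h => hne (by rw [hσ (h.trans hi.symm)])
        have h2 : (σ k).val ≠ 0 := fun h => h3 (Fin.ext h)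
        exact Nat.pos_of_ne_zero h2)
      (by
        intro z hz hne
        obtain ⟨k, rfl⟩ := on z hz
        rw [hQ, hj]
        have h3 : σ k ≠ 4 := fun h => hne (by rw [hσ (h.trans hj.symm)])
        have h2 : (σ k).val ≠ 4 := fun h => h3 (Fin.ext h)
        have h4 := (σ k).isLt
        show (σ k).val < 4
        omega)
    have hij : i ≠ j := fun h => by rw [h, hj] at hi; exact absurd hi (by decide)
    have h2 : ∀ k : Fin 5, ¬(i.val < k.val ∧ k.val < j.val) ∧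
        ¬(j.val < k.val ∧ k.val < i.val) := by
      intro k
      have h3 := h1 (ℓ k) (mem k)
      rwa [hP, hP, hP, hP] at h3
    exact adj5 i j hij h2
  -- no twins
  have c3 : ∀ i j : Fin 5, i.val + 1 = j.val → ¬(σ i).val + 1 = (σ j).val ∧
      ¬(σ j).val + 1 = (σ i).val := by
    intro i j hij
    have hne : ℓ i ≠ ℓ j := fun h => by
      have := hℓ h
      rw [this] at hij
      omega
    by_contra h1
    have hb : Blk S p q {ℓ i, ℓ j} := by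
      refine ⟨?_, ?_⟩
      · intro z hz
        rcases Finset.mem_insert.1 hz with rfl | hz
        · exact mem i
        · rw [Finset.mem_singleton.1 hz]; exact mem j
      · intro a ha b hb z hz hzK
        obtain ⟨k, rfl⟩ := on z hz
        have hki : k ≠ i := fun h => hzK (by rw [h]; simp)
        have hkj : k ≠ j := fun h => hzK (by rw [h]; simp)
        have hki' : k.val ≠ i.val := fun h => hki (Fin.ext h)
        have hkj' : k.val ≠ j.val := fun h => hkj (Fin.ext h)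
        have hsi' : (σ k).val ≠ (σ i).val := fun h => hki (hσ (Fin.ext h))
        have hsj' : (σ k).val ≠ (σ j).val := fun h => hkj (hσ (Fin.ext h))
        have ha' : a = ℓ i ∨ a = ℓ j := by simpa using ha
        have hb' : b = ℓ i ∨ b = ℓ j := by simpa using hb
        rcases ha' with rfl | rfl <;> rcases hb' with rfl | rfl <;>
          rw [hP, hP, hQ, hQ] <;> omega
    rcases hsim _ hb with h2 | h2
    · rw [Finset.card_pair hne] at h2
      omega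
    · rw [← h2, Finset.card_pair hne] at hc
      omega
  have hσe : σ = ![σ 0, σ 1, σ 2, σ 3, σ 4] := by
    ext i
    fin_cases i <;> rfl
  have ne : ∀ i j : Fin 5, i ≠ j → σ i ≠ σ j := fun i j h h' => h (hσ h')
  have hC : Cd (σ 0) (σ 1) (σ 2) (σ 3) (σ 4) = true := by
    rw [Cd, ← hσe]
    simp only [Bool.and_eq_true, decide_eq_true_eq]
    exact ⟨⟨c1, c2⟩, c3⟩
  have h4 := four (σ 0) (σ 1) (σ 2) (σ 3) (σ 4) (ne _ _ (by decide)) (ne _ _ (by decide))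
    (ne _ _ (by decide)) (ne _ _ (by decide)) (ne _ _ (by decide)) (ne _ _ (by decide))
    (ne _ _ (by decide)) (ne _ _ (by decide)) (ne _ _ (by decide)) (ne _ _ (by decide)) hC
  rw [← hσe] at h4
  rcases h4 with h | h | h | h
  · rw [h] at tr
    exact tr.up (c24153 _)
  · rw [h] at tr
    exact tr.up (c31524 _)
  · rw [h] at tr
    exact tr.up (c35142 _)
  · rw [h] at tr
    exact tr.up (c42513 _)

end Pool.GSP
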