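import Pool.Agent.GSP.Stmts

/-!
(8.4) for 6 letters: 351624 and 426153.
-/

set_option autoImplicit false

namespace Pool.GSP

namespace B6_

variable {L : Type*} {S : Finset L} {p q : L → ℤ} {n : ℕ} {e : Fin n → L} {P Q : Fin n → ℤ}

/-- The pattern `P, Q` on `Fin n` describes `S, p, q`. -/
structure Pat (S : Finset L) (p q : L → ℤ) (e : Fin n → L) (P Q : Fin n → ℤ) : Prop where
  mem : ∀ i, e i ∈ S
  ex : ∀ z ∈ S, ∃ i, e i = z
  hp : ∀ i j, p (e i) < p (e j) ↔ P i < P j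
  hq : ∀ i j, q (e i) < q (e j) ↔ Q i < Q j

lemma Pat.inv (h : Pat S p q e P Q) : Pat S q p e Q P := ⟨h.mem, h.ex, h.hq, h.hp⟩

lemma Pat.compl (h : Pat S p q e P Q) : Pat S p (-q) e P (-Q) := by
  refine ⟨h.mem, h.ex, h.hp, fun i j => ?_⟩
  simp only [Pi.neg_apply, neg_lt_neg_iff]
  exact h.hq j i

lemma Pat.rev (h : Pat S p q e P Q) : Pat S (-p) q e (-P) Q := h.inv.compl.inv

lemma Pat.rc (h : Pat S p q e P Q) : Pat S (-p) (-q) e (-P) (-Q) := h.compl.rev

lemma Pat.pr (h : Pat S p q e P Q) {x y : Fin n} (h1 : Pr Finset.univ P Q x y) :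
    Pr S p q (e x) (e y) := by
  refine ⟨h.mem x, h.mem y, (h.hp x y).2 h1.pxy, (h.hq y x).2 h1.qyx, ?_⟩
  intro z hz h2 h3 h4
  obtain ⟨k, rfl⟩ := h.ex z hz
  rw [h.hp] at h2 h3
  rw [h.hq, h.hq] at h4
  exact h1.emp k (Finset.mem_univ _) h2 h3 h4

lemma Pat.hpp (h : Pat S p q e P Q) {x y : Fin n} (h1 : Hp Finset.univ P Q x y) :
    Hp S p q (e x) (e y) := by
  intro h2 u hu h3 h4
  obtain ⟨k, rfl⟩ := h.ex u hu
  rw [h.hp] at h3
  rw [h.hq] at h4
  obtain ⟨z, -, w, -, h5, h6, h7, h8⟩ := h1 (fun z _ h9 => h2 (e z) (h.mem z)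
    ⟨(h.hp z x).2 h9.1, (h.hq z y).2 h9.2⟩) k (Finset.mem_univ _) h3 h4
  exact ⟨e z, h.mem z, e w, h.mem w, (h.hp _ _).2 h5, (h.hq _ _).2 h6, (h.hp _ _).2 h7,
    (h.hq _ _).2 h8⟩

lemma Pat.l2 (h : Pat S p q e P Q) {x y : Fin n} (h1 : L2 Finset.univ P Q x y) :
    L2 S p q (e x) (e y) :=
  ⟨h.hpp h1.h1, h.inv.hpp h1.h2, h.inv.rc.hpp h1.h3, h.rc.hpp h1.h4⟩

lemma Pat.iso (h : Pat S p q e P Q) {x y u : Fin n} (h1 : Iso S p q (e x) (e y) (e u)) :
    Iso Finset.univ P Q x y u := by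
  obtain ⟨h2, h3, h4, h5⟩ := h1
  refine ⟨(h.hp _ _).1 h2, (h.hq _ _).1 h3, fun z _ h6 h7 => ?_, fun z _ h6 h7 => ?_⟩
  · have h8 := h4 (e z) (h.mem z) ((h.hq _ _).2 h6) ((h.hq _ _).2 h7)
    exact ⟨(h.hp _ _).1 h8.1, (h.hp _ _).1 h8.2⟩
  · have h8 := h5 (e z) (h.mem z) ((h.hp _ _).2 h6) ((h.hp _ _).2 h7)
    exact ⟨(h.hq _ _).1 h8.1, (h.hq _ _).1 h8.2⟩

lemma Pat.gp (h : Pat S p q e P Q) {x y : Fin n} (h1 : GP Finset.univ P Q x y) :
    GP S p q (e x) (e y) := by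
  refine ⟨h.pr h1.pr, h.l2 h1.l2, fun u hu h2 => ?_, fun u hu h2 => ?_⟩
  · obtain ⟨k, rfl⟩ := h.ex u hu
    exact h1.i1 k (Finset.mem_univ _) (h.iso h2)
  · obtain ⟨k, rfl⟩ := h.ex u hu
    exact h1.i2 k (Finset.mem_univ _) (h.rc.iso h2)

lemma Pat.ne (h : Pat S p q e P Q) {x y : Fin n} (h1 : NE Finset.univ P Q x y) :
    NE S p q (e x) (e y) := by
  obtain ⟨z, -, h2⟩ := h1
  refine ⟨e z, h.mem z, ?_⟩
  rw [h.hp, h.hp, h.hq, h.hq]
  exact h2

instance decHp (P Q : Fin n → ℤ) (x y : Fin n) : Decidable (Hp Finset.univ P Q x y) := by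
  unfold Hp
  infer_instance

instance decIso (P Q : Fin n → ℤ) (x y u : Fin n) : Decidable (Iso Finset.univ P Q x y u) := by
  unfold Iso
  infer_instance

instance decNE (P Q : Fin n → ℤ) (x y : Fin n) : Decidable (NE Finset.univ P Q x y) := by
  unfold NE
  infer_instance

lemma gp_iff (P Q : Fin n → ℤ) (x y : Fin n) : GP Finset.univ P Q x y ↔
    ((P x < P y ∧ Q y < Q x ∧ ∀ z : Fin n, P x < P z → P z < P y → ¬ (Q y < Q z ∧ Q z < Q x)) ∧
    (Hp Finset.univ P Q x y ∧ Hp Finset.univ Q P y x ∧ Hp Finset.univ (-Q) (-P) x y ∧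
      Hp Finset.univ (-P) (-Q) y x) ∧
    (∀ u : Fin n, ¬ Iso Finset.univ P Q x y u) ∧
    (∀ u : Fin n, ¬ Iso Finset.univ (-P) (-Q) y x u)) := by
  constructor
  · intro h
    exact ⟨⟨h.pr.pxy, h.pr.qyx, fun z => h.pr.emp z (Finset.mem_univ _)⟩,
      ⟨h.l2.h1, h.l2.h2, h.l2.h3, h.l2.h4⟩, fun u => h.i1 u (Finset.mem_univ _),
      fun u => h.i2 u (Finset.mem_univ _)⟩
  · rintro ⟨⟨h1, h2, h3⟩, ⟨h4, h5, h6, h7⟩, h8, h9⟩
    exact ⟨⟨Finset.mem_univ _, Finset.mem_univ _, h1, h2, fun z _ => h3 z⟩, ⟨h4, h5, h6, h7⟩,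
      fun u _ => h8 u, fun u _ => h9 u⟩

instance decGP (P Q : Fin n → ℤ) (x y : Fin n) : Decidable (GP Finset.univ P Q x y) :=
  decidable_of_iff _ (gp_iff P Q x y).symm

/-- Positions. -/
def PP : Fin 6 → ℤ := ![1, 2, 3, 4, 5, 6]

/-- 351624. -/
def QA : Fin 6 → ℤ := ![3, 5, 1, 6, 2, 4]

/-- 426153. -/
def QB : Fin 6 → ℤ := ![4, 2, 6, 1, 5, 3]

lemma A02 : GP Finset.univ PP QA 0 2 := by decide
lemma A04 : GP Finset.univ PP QA 0 4 := by decide
lemma A12 : GP Finset.univ PP QA 1 2 := by decide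
lemma A14 : GP Finset.univ PP QA 1 4 := by decide
lemma A24 : GP Finset.univ PP (-QA) 2 4 ∧ NE Finset.univ PP QA 2 4 := by decide
lemma A01 : GP Finset.univ PP (-QA) 0 1 ∧ NE Finset.univ PP QA 0 1 := by decide
lemma B01 : GP Finset.univ PP QB 0 1 := by decide
lemma B05 : GP Finset.univ PP QB 0 5 := by decide
lemma B24 : GP Finset.univ PP QB 2 4 := by decide
lemma B15 : GP Finset.univ PP (-QB) 1 5 ∧ NE Finset.univ PP QB 1 5 := by decide
lemma B02 : GP Finset.univ PP (-QB) 0 2 ∧ NE Finset.univ PP QB 0 2 := by decide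
lemma B04 : GP Finset.univ PP (-QB) 0 4 ∧ NE Finset.univ PP QB 0 4 := by decide

lemma upA {e : Fin 6 → L} (h : Pat S p q e PP QA) (sg : L → Bool) : UPair S p q sg := by
  by_cases h0 : sg (e 0) = true
  · by_cases h2 : sg (e 2) = true
    · exact Or.inl ⟨e 0, e 2, h0, h2, h.gp A02⟩
    · by_cases h4 : sg (e 4) = true
      · exact Or.inl ⟨e 0, e 4, h0, h4, h.gp A04⟩
      · rw [Bool.not_eq_true] at h2 h4
        exact Or.inr ⟨e 2, e 4, h2, h4, h.compl.gp A24.1, h.ne A24.2⟩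
  · rw [Bool.not_eq_true] at h0
    by_cases h1 : sg (e 1) = true
    · by_cases h2 : sg (e 2) = true
      · exact Or.inl ⟨e 1, e 2, h1, h2, h.gp A12⟩
      · by_cases h4 : sg (e 4) = true
        · exact Or.inl ⟨e 1, e 4, h1, h4, h.gp A14⟩
        · rw [Bool.not_eq_true] at h2 h4
          exact Or.inr ⟨e 2, e 4, h2, h4, h.compl.gp A24.1, h.ne A24.2⟩
    · rw [Bool.not_eq_true] at h1
      exact Or.inr ⟨e 0, e 1, h0, h1, h.compl.gp A01.1, h.ne A01.2⟩

lemma upB {e : Fin 6 → L} (h : Pat S p q e PP QB) (sg : L → Bool) : UPair S p q sg := by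
  by_cases h0 : sg (e 0) = true
  · by_cases h1 : sg (e 1) = true
    · exact Or.inl ⟨e 0, e 1, h0, h1, h.gp B01⟩
    · by_cases h5 : sg (e 5) = true
      · exact Or.inl ⟨e 0, e 5, h0, h5, h.gp B05⟩
      · rw [Bool.not_eq_true] at h1 h5
        exact Or.inr ⟨e 1, e 5, h1, h5, h.compl.gp B15.1, h.ne B15.2⟩
  · rw [Bool.not_eq_true] at h0
    by_cases h2 : sg (e 2) = true
    · by_cases h4 : sg (e 4) = true
      · exact Or.inl ⟨e 2, e 4, h2, h4, h.gp B24⟩
      · rw [Bool.not_eq_true] at h4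
        exact Or.inr ⟨e 0, e 4, h0, h4, h.compl.gp B04.1, h.ne B04.2⟩
    · rw [Bool.not_eq_true] at h2
      exact Or.inr ⟨e 0, e 2, h0, h2, h.compl.gp B02.1, h.ne B02.2⟩

/-- A block with two letters in a simple set with four letters. -/
lemma no_blk2 [DecidableEq L] {T : Finset L} (hT : T.card = 4) (hs : Simple T p q) {x y : L}
    (hx : x ∈ T) (hy : y ∈ T) (hxy : x ≠ y)
    (h : ∀ z ∈ T, z ≠ x → z ≠ y → ¬ (p x < p z ∧ p z < p y) ∧ ¬ (p y < p z ∧ p z < p x) ∧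
      ¬ (q x < q z ∧ q z < q y) ∧ ¬ (q y < q z ∧ q z < q x)) : False := by
  have hc : ({x, y} : Finset L).card = 2 := Finset.card_pair hxy
  have hb : Blk T p q {x, y} := by
    refine ⟨?_, ?_⟩
    · intro z hz
      rw [Finset.mem_insert, Finset.mem_singleton] at hz
      rcases hz with rfl | rfl
      · exact hx
      · exact hy
    · intro a ha b hb z hz hz2
      rw [Finset.mem_insert, Finset.mem_singleton] at ha hb
      rw [Finset.mem_insert, Finset.mem_singleton, not_or] at hz2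
      have h1 := h z hz hz2.1 hz2.2
      rcases ha with rfl | rfl <;> rcases hb with rfl | rfl
      · omega
      · exact ⟨h1.1, h1.2.2.1⟩
      · exact ⟨h1.2.1, h1.2.2.2⟩
      · omega
  rcases hs {x, y} hb with h1 | h1
  · omega
  · rw [h1] at hc
    omega

/-- The structure of `S`, for the first order of the values. -/
lemma chain [DecidableEq L] (hp : Function.Injective p) (hq : Function.Injective q) {f v w l : L}
    (h : R2 S p q f v w l) (hs : Simple ((S.erase f).erase l) p q) (hc : S.card = 6)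
    (ho : q w < q f ∧ q f < q l ∧ q l < q v) :
    ∃ a b : L, S = {f, v, a, b, w, l} ∧ p f < p v ∧ p v < p a ∧ p a < p b ∧ p b < p w ∧
      p w < p l ∧ q a < q w ∧ q v < q b := by
  have hfl : f ≠ l := fun e => by rw [e] at ho; omega
  have hfv : v ≠ f := fun e => by rw [e] at ho; omega
  have hvl : v ≠ l := fun e => by rw [e] at ho; omega
  have hwf : w ≠ f := fun e => by rw [e] at ho; omega
  have hwl : w ≠ l := fun e => by rw [e] at ho; omega
  have hvw : v ≠ w := fun e => by rw [e] at ho; omega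
  set T := (S.erase f).erase l with hT
  have hlS : l ∈ S.erase f := Finset.mem_erase.2 ⟨hfl.symm, h.hl⟩
  have hcT : T.card = 4 := by
    rw [hT, Finset.card_erase_of_mem hlS, Finset.card_erase_of_mem h.hf, hc]
  have hmT : ∀ z, z ∈ T ↔ z ≠ l ∧ z ≠ f ∧ z ∈ S := by
    intro z
    rw [hT, Finset.mem_erase, Finset.mem_erase]
  have hvT : v ∈ T := (hmT v).2 ⟨hvl, hfv, h.hv⟩
  have hwT : w ∈ T := (hmT w).2 ⟨hwl, hwf, h.hw⟩
  have hwT' : w ∈ T.erase v := Finset.mem_erase.2 ⟨hvw.symm, hwT⟩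
  have hc2 : ((T.erase v).erase w).card = 2 := by
    rw [Finset.card_erase_of_mem hwT', Finset.card_erase_of_mem hvT, hcT]
  obtain ⟨a0, b0, hab0, hab1⟩ := Finset.card_eq_two.1 hc2
  have hab2 : ∀ z, z = a0 ∨ z = b0 ↔ z ≠ w ∧ z ≠ v ∧ z ∈ T := by
    intro z
    have h1 : z ∈ (T.erase v).erase w ↔ z ∈ ({a0, b0} : Finset L) := by rw [hab1]
    rw [Finset.mem_erase, Finset.mem_erase, Finset.mem_insert, Finset.mem_singleton] at h1
    exact h1.symm
  -- order the two letters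
  obtain ⟨a, b, hab, hmem⟩ : ∃ a b : L, p a < p b ∧ ∀ z, z = a ∨ z = b ↔ z ≠ w ∧ z ≠ v ∧ z ∈ T := by
    rcases lt_or hp hab0 with h1 | h1
    · exact ⟨a0, b0, h1, hab2⟩
    · exact ⟨b0, a0, h1, fun z => by rw [or_comm]; exact hab2 z⟩
  have ha := (hmem a).1 (Or.inl rfl)
  have hb := (hmem b).1 (Or.inr rfl)
  have haT := (hmT a).1 ha.2.2
  have hbT := (hmT b).1 hb.2.2
  have hS : S = {f, v, a, b, w, l} := by
    ext z
    simp only [Finset.mem_insert, Finset.mem_singleton]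
    constructor
    · intro hz
      by_cases h1 : z = f
      · exact Or.inl h1
      by_cases h2 : z = l
      · tauto
      by_cases h3 : z = v
      · tauto
      by_cases h4 : z = w
      · tauto
      have h5 := (hmem z).2 ⟨h4, h3, (hmT z).2 ⟨h2, h1, hz⟩⟩
      tauto
    · rintro (rfl | rfl | rfl | rfl | rfl | rfl)
      · exact h.hf
      · exact h.hv
      · exact haT.2.2
      · exact hbT.2.2
      · exact h.hw
      · exact h.hl
  have p1 : p f < p v := h.fst v h.hv hfv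
  have p2 : p v < p a := h.snd a haT.2.2 haT.2.1 ha.2.1
  have p3 : p v < p b := h.snd b hbT.2.2 hbT.2.1 hb.2.1
  have p4 : p a < p w := h.pen a haT.2.2 haT.1 ha.1
  have p5 : p b < p w := h.pen b hbT.2.2 hbT.1 hb.1
  have p6 : p w < p l := h.lst w h.hw hwl
  have ca := h.con a haT.2.2 haT.2.1 haT.1
  have cb := h.con b hbT.2.2 hbT.2.1 hbT.1
  have qaw : q a ≠ q w := ne_p hq ha.1
  have qav : q a ≠ q v := ne_p hq ha.2.1
  have qbw : q b ≠ q w := ne_p hq hb.1
  have qbv : q b ≠ q v := ne_p hq hb.2.1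
  have habne : a ≠ b := fun e => by rw [e] at hab; omega
  have cases4 : ∀ z ∈ T, z = v ∨ z = a ∨ z = b ∨ z = w := by
    intro z hz
    by_cases h3 : z = v
    · exact Or.inl h3
    by_cases h4 : z = w
    · tauto
    have h5 := (hmem z).2 ⟨h4, h3, hz⟩
    tauto
  have qab : q a < q w ∧ q v < q b := by
    by_contra hcon
    by_cases h1 : q a < q w
    · have h2 : q b < q w := by omega
      refine no_blk2 hcT hs ha.2.2 hb.2.2 habne ?_
      intro z hz h3 h4
      rcases cases4 z hz with rfl | rfl | rfl | rfl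
      · omega
      · exact absurd rfl h3
      · exact absurd rfl h4
      · omega
    · have h2 : q v < q a := by omega
      by_cases h5 : q v < q b
      · refine no_blk2 hcT hs ha.2.2 hb.2.2 habne ?_
        intro z hz h3 h4
        rcases cases4 z hz with rfl | rfl | rfl | rfl
        · omega
        · exact absurd rfl h3
        · exact absurd rfl h4
        · omega
      · refine no_blk2 hcT hs hvT ha.2.2 (Ne.symm ha.2.1) ?_
        intro z hz h3 h4
        rcases cases4 z hz with rfl | rfl | rfl | rfl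
        · exact absurd rfl h3
        · exact absurd rfl h4
        · omega
        · omega
  exact ⟨a, b, hS, p1, p2, hab, p5, p6, qab.1, qab.2⟩

lemma pat_mem {f v a b w l : L} [DecidableEq L] (hS : S = {f, v, a, b, w, l}) :
    (∀ i, (![f, v, a, b, w, l] : Fin 6 → L) i ∈ S) ∧
      ∀ z ∈ S, ∃ i, (![f, v, a, b, w, l] : Fin 6 → L) i = z := by
  subst hS
  constructor
  · intro i
    fin_cases i <;> simp
  · intro z hz
    simp only [Finset.mem_insert, Finset.mem_singleton] at hz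
    rcases hz with rfl | rfl | rfl | rfl | rfl | rfl
    · exact ⟨0, rfl⟩
    · exact ⟨1, rfl⟩
    · exact ⟨2, rfl⟩
    · exact ⟨3, rfl⟩
    · exact ⟨4, rfl⟩
    · exact ⟨5, rfl⟩

lemma pat_pp {f v a b w l : L} (p1 : p f < p v) (p2 : p v < p a) (p3 : p a < p b)
    (p4 : p b < p w) (p5 : p w < p l) (i j : Fin 6) :
    p ((![f, v, a, b, w, l] : Fin 6 → L) i) < p ((![f, v, a, b, w, l] : Fin 6 → L) j) ↔
      PP i < PP j := by
  fin_cases i <;> fin_cases j <;> simp [PP] <;> omega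

lemma pat_qa {f v a b w l : L} (p1 : q a < q w) (p2 : q w < q f) (p3 : q f < q l)
    (p4 : q l < q v) (p5 : q v < q b) (i j : Fin 6) :
    q ((![f, v, a, b, w, l] : Fin 6 → L) i) < q ((![f, v, a, b, w, l] : Fin 6 → L) j) ↔
      QA i < QA j := by
  fin_cases i <;> fin_cases j <;> simp [QA] <;> omega

lemma pat_qb {f v a b w l : L} (p1 : q b < q v) (p2 : q v < q l) (p3 : q l < q f)
    (p4 : q f < q w) (p5 : q w < q a) (i j : Fin 6) :
    q ((![f, v, a, b, w, l] : Fin 6 → L) i) < q ((![f, v, a, b, w, l] : Fin 6 → L) j) ↔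
      QB i < QB j := by
  fin_cases i <;> fin_cases j <;> simp [QB] <;> omega

end B6_

open B6_ in
theorem t_B6 : S_B6 := by
  intro L _ S p q hp hq f v w l h hs hc sg
  rcases h.ord with ho | ho
  · obtain ⟨a, b, hS, p1, p2, p3, p4, p5, q1, q2⟩ := chain hp hq h hs hc ho
    exact upA (e := ![f, v, a, b, w, l]) ⟨(pat_mem hS).1, (pat_mem hS).2,
      pat_pp p1 p2 p3 p4 p5, pat_qa q1 ho.1 ho.2.1 ho.2.2 q2⟩ sg
  · obtain ⟨a, b, hS, p1, p2, p3, p4, p5, q1, q2⟩ := chain hp (inj_neg hq) h.compl hs.compl hc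
      (by simp only [Pi.neg_apply]; omega)
    simp only [Pi.neg_apply, neg_lt_neg_iff] at q1 q2
    exact upB (e := ![f, v, a, b, w, l]) ⟨(pat_mem hS).1, (pat_mem hS).2,
      pat_pp p1 p2 p3 p4 p5, pat_qb q2 ho.1 ho.2.1 ho.2.2 q1⟩ sg

end Pool.GSP
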