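import Pool.Agent.GSP.Stmts

set_option autoImplicit false

namespace Pool.GSP

namespace CELL_

variable {L : Type*}

/-- Corner-free. -/
def Cf (p v : L → ℤ) (S : Finset L) : Prop :=
  ∀ a ∈ S, ∀ b ∈ S, ∀ c ∈ S, ∀ d ∈ S, ∀ w ∈ S, p a < p b → p b < p c → p c < p d →
    (v c < v a → v a < v d → v d < v b →
      (p w < p a ∨ p d < p w) → (v w < v c ∨ v b < v w) → False) ∧
    (v b < v d → v d < v a → v a < v c →
      (p w < p a ∨ p d < p w) → (v w < v b ∨ v c < v w) → False)


theorem cf_of {p q : L → ℤ} {S : Finset L} (h : CF S p q) : Cf p q S := by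
  intro a ha b hb c hc d hd w hw h1 h2 h3
  constructor
  · intro e1 e2 e3 e4 e5
    refine h a ha b hb c hc d hd ⟨h1, h2, h3, Or.inl ⟨e1, e2, e3⟩⟩ w hw ⟨e4, ?_⟩
    omega
  · intro e1 e2 e3 e4 e5
    refine h a ha b hb c hc d hd ⟨h1, h2, h3, Or.inr ⟨e1, e2, e3⟩⟩ w hw ⟨e4, ?_⟩
    omega

/-- The 36-cell check. -/
theorem cell {p v : L → ℤ} {S : Finset L}
    (hp : ∀ x ∈ S, ∀ y ∈ S, p x = p y → x = y) (hv : ∀ x ∈ S, ∀ y ∈ S, v x = v y → x = y)
    (hc : Cf p v S) {a b c d e w : L} (ha : a ∈ S) (hb : b ∈ S) (hcc : c ∈ S) (hd : d ∈ S)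
    (he : e ∈ S) (hw : w ∈ S) (p1 : p a < p b) (p2 : p b < p c) (p3 : p c < p d)
    (p4 : p d < p e) (v1 : v d < v a) (v2 : v a < v c) (v3 : v c < v e) (v4 : v e < v b) :
    (p w < p b ∧ v d < v w ∧ v w < v c) ∨ (p a < p w ∧ p w < p c ∧ v e < v w) ∨
    (p b < p w ∧ p w < p d ∧ v a < v w ∧ v w < v e) ∨ (p c < p w ∧ p w < p e ∧ v w < v a) ∨
    (p d < p w ∧ v c < v w ∧ v w < v b) := by
  by_cases ea : w = a
  · subst ea; omega
  by_cases eb : w = b
  · subst eb; omega
  by_cases ec : w = c
  · subst ec; omega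
  by_cases ed : w = d
  · subst ed; omega
  by_cases ee : w = e
  · subst ee; omega
  have qa : p w ≠ p a := fun h => ea (hp _ hw _ ha h)
  have qb : p w ≠ p b := fun h => eb (hp _ hw _ hb h)
  have qc : p w ≠ p c := fun h => ec (hp _ hw _ hcc h)
  have qd : p w ≠ p d := fun h => ed (hp _ hw _ hd h)
  have qe : p w ≠ p e := fun h => ee (hp _ hw _ he h)
  have ra : v w ≠ v a := fun h => ea (hv _ hw _ ha h)
  have rb : v w ≠ v b := fun h => eb (hv _ hw _ hb h)
  have rc : v w ≠ v c := fun h => ec (hv _ hw _ hcc h)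
  have rd : v w ≠ v d := fun h => ed (hv _ hw _ hd h)
  have re : v w ≠ v e := fun h => ee (hv _ hw _ he h)
  clear ea eb ec ed ee hp hv
  have hpos : p w < p a ∨ (p a < p w ∧ p w < p b) ∨ (p b < p w ∧ p w < p c) ∨
      (p c < p w ∧ p w < p d) ∨ (p d < p w ∧ p w < p e) ∨ p e < p w := by omega
  have hval : v w < v d ∨ (v d < v w ∧ v w < v a) ∨ (v a < v w ∧ v w < v c) ∨
      (v c < v w ∧ v w < v e) ∨ (v e < v w ∧ v w < v b) ∨ v b < v w := by omega
  rcases hpos with P | P | P | P | P | P <;> rcases hval with V | V | V | V | V | V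
  · exact ((hc a ha b hb d hd e he w hw (by omega) (by omega) (by omega)).1 (by omega) (by omega) (by omega) (Or.inl (by omega)) (Or.inl (by omega))).elim
  · exact Or.inl (by omega)
  · exact Or.inl (by omega)
  · exact ((hc w hw a ha b hb c hcc d hd (by omega) (by omega) (by omega)).2 (by omega) (by omega) (by omega) (Or.inr (by omega)) (Or.inl (by omega))).elim
  · exact ((hc w hw a ha b hb c hcc d hd (by omega) (by omega) (by omega)).2 (by omega) (by omega) (by omega) (Or.inr (by omega)) (Or.inl (by omega))).elim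
  · exact ((hc a ha b hb d hd e he w hw (by omega) (by omega) (by omega)).1 (by omega) (by omega) (by omega) (Or.inl (by omega)) (Or.inr (by omega))).elim
  · exact ((hc a ha w hw c hcc d hd e he (by omega) (by omega) (by omega)).2 (by omega) (by omega) (by omega) (Or.inr (by omega)) (Or.inr (by omega))).elim
  · exact Or.inl (by omega)
  · exact Or.inl (by omega)
  · exact ((hc w hw b hb c hcc e he a ha (by omega) (by omega) (by omega)).1 (by omega) (by omega) (by omega) (Or.inl (by omega)) (Or.inl (by omega))).elim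
  · exact Or.inr (Or.inl (by omega))
  · exact Or.inr (Or.inl (by omega))
  · exact ((hc a ha w hw c hcc d hd e he (by omega) (by omega) (by omega)).2 (by omega) (by omega) (by omega) (Or.inr (by omega)) (Or.inr (by omega))).elim
  · exact ((hc a ha b hb w hw c hcc d hd (by omega) (by omega) (by omega)).1 (by omega) (by omega) (by omega) (Or.inr (by omega)) (Or.inl (by omega))).elim
  · exact Or.inr (Or.inr (Or.inl (by omega)))
  · exact Or.inr (Or.inr (Or.inl (by omega)))
  · exact Or.inr (Or.inl (by omega))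
  · exact Or.inr (Or.inl (by omega))
  · exact Or.inr (Or.inr (Or.inr (Or.inl (by omega))))
  · exact Or.inr (Or.inr (Or.inr (Or.inl (by omega))))
  · exact Or.inr (Or.inr (Or.inl (by omega)))
  · exact Or.inr (Or.inr (Or.inl (by omega)))
  · exact ((hc c hcc w hw d hd e he b hb (by omega) (by omega) (by omega)).1 (by omega) (by omega) (by omega) (Or.inl (by omega)) (Or.inr (by omega))).elim
  · exact ((hc b hb c hcc w hw e he a ha (by omega) (by omega) (by omega)).2 (by omega) (by omega) (by omega) (Or.inl (by omega)) (Or.inl (by omega))).elim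
  · exact Or.inr (Or.inr (Or.inr (Or.inl (by omega))))
  · exact Or.inr (Or.inr (Or.inr (Or.inl (by omega))))
  · exact ((hc a ha c hcc d hd w hw e he (by omega) (by omega) (by omega)).1 (by omega) (by omega) (by omega) (Or.inr (by omega)) (Or.inr (by omega))).elim
  · exact Or.inr (Or.inr (Or.inr (Or.inr (by omega))))
  · exact Or.inr (Or.inr (Or.inr (Or.inr (by omega))))
  · exact ((hc b hb c hcc w hw e he a ha (by omega) (by omega) (by omega)).2 (by omega) (by omega) (by omega) (Or.inl (by omega)) (Or.inl (by omega))).elim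
  · exact ((hc a ha b hb d hd e he w hw (by omega) (by omega) (by omega)).1 (by omega) (by omega) (by omega) (Or.inr (by omega)) (Or.inl (by omega))).elim
  · exact ((hc c hcc d hd e he w hw b hb (by omega) (by omega) (by omega)).2 (by omega) (by omega) (by omega) (Or.inl (by omega)) (Or.inr (by omega))).elim
  · exact ((hc c hcc d hd e he w hw b hb (by omega) (by omega) (by omega)).2 (by omega) (by omega) (by omega) (Or.inl (by omega)) (Or.inr (by omega))).elim
  · exact Or.inr (Or.inr (Or.inr (Or.inr (by omega))))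
  · exact Or.inr (Or.inr (Or.inr (Or.inr (by omega))))
  · exact ((hc a ha b hb d hd e he w hw (by omega) (by omega) (by omega)).1 (by omega) (by omega) (by omega) (Or.inr (by omega)) (Or.inr (by omega))).elim


end CELL_

theorem t_CELL : S_CELL := by
  intro L S p q hp hq hc a ha b hb c hcc d hd e he p1 p2 p3 p4 v1 v2 v3 v4 z hz
  exact CELL_.cell (fun x _ y _ h => hp h) (fun x _ y _ h => hq h) (CELL_.cf_of hc) ha hb hcc hd he
    hz p1 p2 p3 p4 v1 v2 v3 v4

end Pool.GSP
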