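import Pool.Agent.GSP.Stmts

set_option autoImplicit false

namespace Pool.GSP

namespace FL_

variable {L : Type*}

/-- `B` is a block of `S` (interval in positions and in values). -/
def Bl (p v : L → ℤ) (S B : Finset L) : Prop :=
  B ⊆ S ∧ ∀ w ∈ S, w ∉ B →
    ((∀ b ∈ B, p w < p b) ∨ (∀ b ∈ B, p b < p w)) ∧
    ((∀ b ∈ B, v w < v b) ∨ (∀ b ∈ B, v b < v w))

/-- Simple: every block with two different letters is everything. -/
def Simp (p v : L → ℤ) (S : Finset L) : Prop :=
  ∀ B : Finset L, Bl p v S B → ∀ x ∈ B, ∀ y ∈ B, x ≠ y → B = S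

/-- Corner-free. -/
def Cf (p v : L → ℤ) (S : Finset L) : Prop :=
  ∀ a ∈ S, ∀ b ∈ S, ∀ c ∈ S, ∀ d ∈ S, ∀ w ∈ S, p a < p b → p b < p c → p c < p d →
    (v c < v a → v a < v d → v d < v b →
      (p w < p a ∨ p d < p w) → (v w < v c ∨ v b < v w) → False) ∧
    (v b < v d → v d < v a → v a < v c →
      (p w < p a ∨ p d < p w) → (v w < v b ∨ v c < v w) → False)

/-- No 25314 and no 41352. -/
def N5 (p v : L → ℤ) (S : Finset L) : Prop :=
  ∀ a ∈ S, ∀ b ∈ S, ∀ c ∈ S, ∀ d ∈ S, ∀ e ∈ S, p a < p b → p b < p c → p c < p d → p d < p e →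
    (v d < v a → v a < v c → v c < v e → v e < v b → False) ∧
    (v b < v e → v e < v c → v c < v a → v a < v d → False)

theorem Simp.neg_v {p v : L → ℤ} {S : Finset L} (h : Simp p v S) : Simp p (fun x => - v x) S := by
  intro B hB x hx y hy hxy
  refine h B ⟨hB.1, fun w hw hwB => ?_⟩ x hx y hy hxy
  obtain ⟨h1, h2⟩ := hB.2 w hw hwB
  refine ⟨h1, ?_⟩
  rcases h2 with h2 | h2
  · right; intro b hb; have := h2 b hb; simp only at this; omega
  · left; intro b hb; have := h2 b hb; simp only at this; omega

theorem Simp.neg_p {p v : L → ℤ} {S : Finset L} (h : Simp p v S) : Simp (fun x => - p x) v S := by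
  intro B hB x hx y hy hxy
  refine h B ⟨hB.1, fun w hw hwB => ?_⟩ x hx y hy hxy
  obtain ⟨h1, h2⟩ := hB.2 w hw hwB
  refine ⟨?_, h2⟩
  rcases h1 with h1 | h1
  · right; intro b hb; have := h1 b hb; simp only at this; omega
  · left; intro b hb; have := h1 b hb; simp only at this; omega

theorem Cf.neg_v {p v : L → ℤ} {S : Finset L} (h : Cf p v S) : Cf p (fun x => - v x) S := by
  intro a ha b hb c hc d hd w hw h1 h2 h3
  obtain ⟨k1, k2⟩ := h a ha b hb c hc d hd w hw h1 h2 h3
  simp only
  constructor
  · intro e1 e2 e3 e4 e5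
    exact k2 (by omega) (by omega) (by omega) e4 (by omega)
  · intro e1 e2 e3 e4 e5
    exact k1 (by omega) (by omega) (by omega) e4 (by omega)

theorem Cf.neg_p {p v : L → ℤ} {S : Finset L} (h : Cf p v S) : Cf (fun x => - p x) v S := by
  intro a ha b hb c hc d hd w hw h1 h2 h3
  have h1 : - p a < - p b := h1
  have h2 : - p b < - p c := h2
  have h3 : - p c < - p d := h3
  obtain ⟨k1, k2⟩ := h d hd c hc b hb a ha w hw (by omega) (by omega) (by omega)
  simp only
  constructor
  · intro e1 e2 e3 e4 e5
    exact k2 (by omega) (by omega) (by omega) (by omega) (by omega)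
  · intro e1 e2 e3 e4 e5
    exact k1 (by omega) (by omega) (by omega) (by omega) (by omega)

theorem N5.neg_v {p v : L → ℤ} {S : Finset L} (h : N5 p v S) : N5 p (fun x => - v x) S := by
  intro a ha b hb c hc d hd e he h1 h2 h3 h4
  obtain ⟨k1, k2⟩ := h a ha b hb c hc d hd e he h1 h2 h3 h4
  simp only
  constructor
  · intro e1 e2 e3 e4
    exact k2 (by omega) (by omega) (by omega) (by omega)
  · intro e1 e2 e3 e4
    exact k1 (by omega) (by omega) (by omega) (by omega)

theorem N5.neg_p {p v : L → ℤ} {S : Finset L} (h : N5 p v S) : N5 (fun x => - p x) v S := by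
  intro a ha b hb c hc d hd e he h1 h2 h3 h4
  have h1 : - p a < - p b := h1
  have h2 : - p b < - p c := h2
  have h3 : - p c < - p d := h3
  have h4 : - p d < - p e := h4
  obtain ⟨k1, k2⟩ := h e he d hd c hc b hb a ha (by omega) (by omega) (by omega) (by omega)
  constructor
  · intro e1 e2 e3 e4
    exact k2 (by omega) (by omega) (by omega) (by omega)
  · intro e1 e2 e3 e4
    exact k1 (by omega) (by omega) (by omega) (by omega)


theorem cf_of {p q : L → ℤ} {S : Finset L} (h : CF S p q) : Cf p q S := by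
  intro a ha b hb c hc d hd w hw h1 h2 h3
  constructor
  · intro e1 e2 e3 e4 e5
    refine h a ha b hb c hc d hd ⟨h1, h2, h3, Or.inl ⟨e1, e2, e3⟩⟩ w hw ⟨e4, ?_⟩
    omega
  · intro e1 e2 e3 e4 e5
    refine h a ha b hb c hc d hd ⟨h1, h2, h3, Or.inr ⟨e1, e2, e3⟩⟩ w hw ⟨e4, ?_⟩
    omega

theorem simp_of {p q : L → ℤ} {S : Finset L} (h : Simple S p q) : Simp p q S := by
  intro B hB x hx y hy hxy
  have hb : Blk S p q B := by
    refine ⟨hB.1, fun a ha b hb z hz hzB => ?_⟩
    obtain ⟨h1, h2⟩ := hB.2 z hz hzB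
    constructor
    · rintro ⟨e1, e2⟩
      rcases h1 with h1 | h1
      · have := h1 a ha; omega
      · have := h1 b hb; omega
    · rintro ⟨e1, e2⟩
      rcases h2 with h2 | h2
      · have := h2 a ha; omega
      · have := h2 b hb; omega
  rcases h B hb with h1 | h1
  · exact absurd (Finset.card_le_one.1 h1 x hx y hy) hxy
  · exact h1

theorem n5_of {p q : L → ℤ} {S : Finset L} (h : No5 S p q) : N5 p q S := by
  intro a ha b hb c hc d hd e he h1 h2 h3 h4
  exact ⟨fun e1 e2 e3 e4 => h a ha b hb c hc d hd e he h1 h2 h3 h4 (Or.inl ⟨e1, e2, e3, e4⟩),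
    fun e1 e2 e3 e4 => h a ha b hb c hc d hd e he h1 h2 h3 h4 (Or.inr ⟨e1, e2, e3, e4⟩)⟩

/-- (5.2), case 2 (ii): no letter between `f` and `l` in value is left of `a`. -/
theorem case2 {p v : L → ℤ} {S : Finset L}
    (hp : ∀ x ∈ S, ∀ y ∈ S, p x = p y → x = y) (hv : ∀ x ∈ S, ∀ y ∈ S, v x = v y → x = y)
    (hs : Simp p v S) (hc : Cf p v S) (h5 : N5 p v S)
    {f l a d : L} (hf : f ∈ S) (hl : l ∈ S) (ha : a ∈ S) (hd : d ∈ S)
    (ff : ∀ w ∈ S, w ≠ f → p f < p w) (ll : ∀ w ∈ S, w ≠ l → p w < p l)
    (hfl : v f < v l) (hda : v d < v f) (hla : v l < v a) (had : p a < p d)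
    (fa : ∀ w ∈ S, v l < v w → p a ≤ p w) :
    ∀ z ∈ S, v f < v z → v z < v l → p a < p z := by
  classical
  intro z0 hz0 h1 h2
  by_contra h3
  have hne : z0 ≠ a := by rintro rfl; omega
  have h4 : p z0 < p a := by
    rcases lt_trichotomy (p z0) (p a) with h | h | h
    · exact h
    · exact absurd (hp _ hz0 _ ha h) hne
    · exact absurd h h3
  -- the set Z1
  set Z1 := S.filter (fun z => v f < v z ∧ v z < v l ∧ p z < p a) with hZ1
  have hZ1m : ∀ z, z ∈ Z1 ↔ z ∈ S ∧ v f < v z ∧ v z < v l ∧ p z < p a := by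
    intro z; simp [hZ1]
  have hZne : Z1.Nonempty := ⟨z0, (hZ1m z0).2 ⟨hz0, h1, h2, h4⟩⟩
  obtain ⟨z, hz, hzmax⟩ := Z1.exists_max_image p hZne
  obtain ⟨zs, hzs, hzsmax⟩ := Z1.exists_max_image v hZne
  obtain ⟨hzS, hz1, hz2, hz3⟩ := (hZ1m z).1 hz
  obtain ⟨hzsS, hzs1, hzs2, hzs3⟩ := (hZ1m zs).1 hzs
  have hfne : ∀ w ∈ S, v w ≠ v f → p f < p w := fun w hw h => ff w hw (by rintro rfl; exact h rfl)
  have hlne : ∀ w ∈ S, v w ≠ v l → p w < p l := fun w hw h => ll w hw (by rintro rfl; exact h rfl)
  -- the block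
  set Q := S.filter (fun q => v q < v f ∧ p q < p z) with hQ
  have hQm : ∀ q, q ∈ Q ↔ q ∈ S ∧ v q < v f ∧ p q < p z := by
    intro q; simp [hQ]
  set B := Q ∪ (insert f Z1) with hB
  have hBm : ∀ w, w ∈ B ↔ w ∈ Q ∨ w = f ∨ w ∈ Z1 := by
    intro w; simp only [hB, Finset.mem_union, Finset.mem_insert]
  -- Q letters: everything in D above a Q letter is in Q
  have hQup : ∀ q ∈ Q, ∀ w ∈ S, v q < v w → v w < v f → w ∈ Q := by
    intro q hq w hw hqw hwf
    obtain ⟨hqS, hq1, hq2⟩ := (hQm q).1 hq
    refine (hQm w).2 ⟨hw, hwf, ?_⟩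
    by_contra hcon
    have hwz : p z < p w := by
      rcases lt_trichotomy (p z) (p w) with h | h | h
      · exact h
      · have := hp _ hzS _ hw h
        subst this; omega
      · omega
    exact (hc f hf q hqS z hzS w hw l hl (hfne q hqS (by omega)) hq2 hwz).2 hqw hwf (by omega)
      (Or.inr (hlne w hw (by omega))) (Or.inr hz2)
  have hBblk : Bl p v S B := by
    constructor
    · intro w hw
      rcases (hBm w).1 hw with h | h | h
      · exact ((hQm w).1 h).1
      · rw [h]; exact hf
      · exact ((hZ1m w).1 h).1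
    · intro w hw hwB
      have hwf : w ≠ f := fun h => hwB ((hBm w).2 (Or.inr (Or.inl h)))
      have hwQ : w ∉ Q := fun h => hwB ((hBm w).2 (Or.inl h))
      have hwZ : w ∉ Z1 := fun h => hwB ((hBm w).2 (Or.inr (Or.inr h)))
      have hvf : v w ≠ v f := fun h => hwf (hv _ hw _ hf h)
      -- w is right of z
      have hzw : p z < p w := by
        by_contra hcon
        have hwz' : w ≠ z := by rintro rfl; exact hwZ hz
        have hlt : p w < p z := by
          rcases lt_trichotomy (p w) (p z) with h | h | h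
          · exact h
          · exact absurd (hp _ hw _ hzS h) hwz'
          · omega
        rcases lt_or_gt_of_ne hvf with h | h
        · exact hwQ ((hQm w).2 ⟨hw, h, hlt⟩)
        · by_cases hwl : v w < v l
          · exact hwZ ((hZ1m w).2 ⟨hw, h, hwl, by omega⟩)
          · by_cases hwl2 : v w = v l
            · have := hv _ hw _ hl hwl2
              subst this
              have := hlne z hzS (by omega)
              omega
            · have := fa w hw (by omega)
              omega
      refine ⟨Or.inr ?_, ?_⟩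
      · intro b hb
        rcases (hBm b).1 hb with h | h | h
        · have := ((hQm b).1 h).2.2; omega
        · subst h; exact ff w hw hwf
        · have := hzmax b h; omega
      · rcases lt_or_gt_of_ne hvf with h | h
        · -- w in D, not in Q: below all
          left
          intro b hb
          rcases (hBm b).1 hb with hb' | hb' | hb'
          · by_contra hcon
            have hne : w ≠ b := by rintro rfl; exact hwQ hb'
            have hbS := ((hQm b).1 hb').1
            have : v b < v w := by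
              rcases lt_trichotomy (v b) (v w) with h' | h' | h'
              · exact h'
              · exact absurd (hv _ hbS _ hw h').symm hne
              · omega
            exact hwQ (hQup b hb' w hw this h)
          · subst hb'; exact h
          · have := ((hZ1m b).1 hb').2.1; omega
        · right
          -- w above f ; not in Z1; above all of Z1
          have hall : ∀ b ∈ Z1, v b < v w := by
            intro b hb
            obtain ⟨hbS, hb1, hb2, hb3⟩ := (hZ1m b).1 hb
            by_cases hwl : v w < v l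
            · -- w in Z, right of a hence right of d
              have hwa : p a < p w := by
                rcases lt_trichotomy (p w) (p a) with h' | h' | h'
                · exact absurd ((hZ1m w).2 ⟨hw, h, hwl, h'⟩) hwZ
                · have := hp _ hw _ ha h'
                  subst this; omega
                · exact h'
              have hwd : p d < p w := by
                rcases lt_trichotomy (p w) (p d) with h' | h' | h'
                · exact absurd ((h5 f hf a ha w hw d hd l hl (hfne a ha (by omega)) hwa h'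
                    (hlne d hd (by omega))).1 hda h hwl hla) id
                · have := hp _ hw _ hd h'
                  subst this; omega
                · exact h'
              by_contra hcon
              have hne : w ≠ b := by rintro rfl; exact hwZ hb
              have hlt : v w < v b := by
                rcases lt_trichotomy (v w) (v b) with h' | h' | h'
                · exact h'
                · exact absurd (hv _ hw _ hbS h') hne
                · omega
              exact (hc f hf b hbS d hd w hw l hl (hfne b hbS (by omega)) (by omega) hwd).1 hda h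
                hlt (Or.inr (hlne w hw (by omega))) (Or.inr hb2)
            · omega
          intro b hb
          rcases (hBm b).1 hb with hb' | hb' | hb'
          · have := ((hQm b).1 hb').2.1; omega
          · subst hb'; exact h
          · exact hall b hb'
  have hfz : f ≠ z := by rintro rfl; omega
  have hBS := hs B hBblk f ((hBm f).2 (Or.inr (Or.inl rfl))) z ((hBm z).2 (Or.inr (Or.inr hz))) hfz
  have hlB : l ∈ B := by rw [hBS]; exact hl
  rcases (hBm l).1 hlB with h | h | h
  · have := ((hQm l).1 h).2.1; omega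
  · subst h; omega
  · have := ((hZ1m l).1 h).2.2.1; omega

/-- (5.2), increasing form. -/
theorem fl_adj_lt {p v : L → ℤ} {S : Finset L}
    (hp : ∀ x ∈ S, ∀ y ∈ S, p x = p y → x = y) (hv : ∀ x ∈ S, ∀ y ∈ S, v x = v y → x = y)
    (hs : Simp p v S) (hc : Cf p v S) (h5 : N5 p v S)
    {f l : L} (hf : f ∈ S) (hl : l ∈ S)
    (ff : ∀ w ∈ S, w ≠ f → p f < p w) (ll : ∀ w ∈ S, w ≠ l → p w < p l)
    (hfl : v f < v l) :
    ∀ z ∈ S, ¬ (v f < v z ∧ v z < v l) := by
  classical
  rintro z0 hz0 ⟨h1, h2⟩
  have hfne : ∀ w ∈ S, v w ≠ v f → p f < p w := fun w hw h => ff w hw (by rintro rfl; exact h rfl)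
  have hlne : ∀ w ∈ S, v w ≠ v l → p w < p l := fun w hw h => ll w hw (by rintro rfl; exact h rfl)
  have hflne : f ≠ l := by rintro rfl; omega
  have hzf : z0 ≠ f := by rintro rfl; omega
  have hzl : z0 ≠ l := by rintro rfl; omega
  -- D nonempty
  have hD : ∃ d ∈ S, v d < v f := by
    by_contra hcon
    push Not at hcon
    have hB : Bl p v S (S.erase f) := by
      refine ⟨Finset.erase_subset _ _, fun w hw hwB => ?_⟩
      have hwf : w = f := by
        by_contra h
        exact hwB (Finset.mem_erase.2 ⟨h, hw⟩)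
      subst hwf
      refine ⟨Or.inl fun b hb => ?_, Or.inl fun b hb => ?_⟩
      · obtain ⟨hb1, hb2⟩ := Finset.mem_erase.1 hb
        exact ff b hb2 hb1
      · obtain ⟨hb1, hb2⟩ := Finset.mem_erase.1 hb
        exact lt_of_le_of_ne (hcon b hb2) (fun h => hb1 (hv _ hb2 _ hf h.symm))
    have := hs _ hB z0 (Finset.mem_erase.2 ⟨hzf, hz0⟩) l (Finset.mem_erase.2 ⟨hflne.symm, hl⟩) hzl
    have h' : f ∈ S.erase f := by rw [this]; exact hf
    exact absurd h' (Finset.notMem_erase f S)
  have hU : ∃ u ∈ S, v l < v u := by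
    by_contra hcon
    push Not at hcon
    have hB : Bl p v S (S.erase l) := by
      refine ⟨Finset.erase_subset _ _, fun w hw hwB => ?_⟩
      have hwf : w = l := by
        by_contra h
        exact hwB (Finset.mem_erase.2 ⟨h, hw⟩)
      subst hwf
      refine ⟨Or.inr fun b hb => ?_, Or.inr fun b hb => ?_⟩
      · obtain ⟨hb1, hb2⟩ := Finset.mem_erase.1 hb
        exact ll b hb2 hb1
      · obtain ⟨hb1, hb2⟩ := Finset.mem_erase.1 hb
        exact lt_of_le_of_ne (hcon b hb2) (fun h => hb1 (hv _ hb2 _ hl h))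
    have := hs _ hB z0 (Finset.mem_erase.2 ⟨hzl, hz0⟩) f (Finset.mem_erase.2 ⟨hflne, hf⟩) hzf
    have h' : l ∈ S.erase l := by rw [this]; exact hl
    exact absurd h' (Finset.notMem_erase l S)
  set D := S.filter (fun w => v w < v f) with hDd
  have hDm : ∀ w, w ∈ D ↔ w ∈ S ∧ v w < v f := by intro w; simp [hDd]
  set U := S.filter (fun w => v l < v w) with hUd
  have hUm : ∀ w, w ∈ U ↔ w ∈ S ∧ v l < v w := by intro w; simp [hUd]
  have hDne : D.Nonempty := by
    obtain ⟨d, hd, h⟩ := hD; exact ⟨d, (hDm d).2 ⟨hd, h⟩⟩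
  have hUne : U.Nonempty := by
    obtain ⟨d, hd, h⟩ := hU; exact ⟨d, (hUm d).2 ⟨hd, h⟩⟩
  obtain ⟨d, hdD, hdmax⟩ := D.exists_max_image p hDne
  obtain ⟨a, haU, hamin⟩ := U.exists_min_image p hUne
  obtain ⟨hd, hdf⟩ := (hDm d).1 hdD
  obtain ⟨ha, hla⟩ := (hUm a).1 haU
  rcases lt_trichotomy (p a) (p d) with had | had | had
  · -- case 2
    have c1 := case2 hp hv hs hc h5 hf hl ha hd ff ll hfl hdf hla had
      (fun w hw h => hamin w ((hUm w).2 ⟨hw, h⟩)) z0 hz0 h1 h2
    have c2 := case2 (p := fun x => - p x) (v := fun x => - v x) (S := S)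
      (fun x hx y hy h => hp x hx y hy (by simpa using h))
      (fun x hx y hy h => hv x hx y hy (by simpa using h))
      hs.neg_v.neg_p hc.neg_v.neg_p h5.neg_v.neg_p hl hf hd ha
      (fun w hw h => by have := ll w hw h; omega)
      (fun w hw h => by have := ff w hw h; omega)
      (by omega) (by omega) (by omega) (by omega)
      (fun w hw h => by
        have := hdmax w ((hDm w).2 ⟨hw, by omega⟩)
        omega) z0 hz0 (by omega) (by omega)

    exact (h5 f hf a ha z0 hz0 d hd l hl (hfne a ha (by omega)) c1 (by omega)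
      (hlne d hd (by omega))).1 hdf h1 h2 hla
  · have := hp _ ha _ hd had
    subst this; omega
  · -- case 1
    set P := S.filter (fun w => p w ≤ p d) with hPd
    have hPm : ∀ w, w ∈ P ↔ w ∈ S ∧ p w ≤ p d := by intro w; simp [hPd]
    have hfP : f ∈ P := (hPm f).2 ⟨hf, le_of_lt (hfne d hd (by omega))⟩
    have hdP : d ∈ P := (hPm d).2 ⟨hd, le_refl _⟩
    have hlP : l ∉ P := by
      intro h
      have := ((hPm l).1 h).2
      have := hlne d hd (by omega)
      omega
    have hnb : ¬ Bl p v S P := by
      intro h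
      have := hs P h f hfP d hdP (by rintro rfl; omega)
      exact hlP (by rw [this]; exact hl)
    have hex : ∃ w ∈ S, w ∉ P ∧ ∃ b ∈ P, v w < v b ∧ v f < v w := by
      by_contra hcon
      push Not at hcon
      apply hnb
      refine ⟨Finset.filter_subset _ _, fun w hw hwP => ?_⟩
      have hpw : p d < p w := by
        by_contra h
        exact hwP ((hPm w).2 ⟨hw, by omega⟩)
      refine ⟨Or.inr fun b hb => ?_, Or.inr fun b hb => ?_⟩
      · have := ((hPm b).1 hb).2; omega
      · have hbS := ((hPm b).1 hb).1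
        by_contra hcon2
        have hne : w ≠ b := by rintro rfl; exact hwP hb
        have hlt : v w < v b := by
          rcases lt_trichotomy (v w) (v b) with h' | h' | h'
          · exact h'
          · exact absurd (hv _ hw _ hbS h') hne
          · omega
        have := hcon w hw hwP b hb hlt
        -- v w ≤ v f, so w in D (w ≠ f)
        have hwf : w ≠ f := by rintro rfl; exact hwP hfP
        have hwD : v w < v f := lt_of_le_of_ne this (fun h => hwf (hv _ hw _ hf h))
        have := hdmax w ((hDm w).2 ⟨hw, hwD⟩)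
        omega
    obtain ⟨w, hw, hwP, b, hb, hwb, hfw⟩ := hex
    obtain ⟨hbS, hbd⟩ := (hPm b).1 hb
    have hpw : p d < p w := by
      by_contra h
      exact hwP ((hPm w).2 ⟨hw, by omega⟩)
    have hbl : v b < v l := by
      by_contra hcon
      by_cases h : v b = v l
      · have := hv _ hbS _ hl h
        subst this; exact hlP hb
      · have := hamin b ((hUm b).2 ⟨hbS, by omega⟩)
        omega
    have hbd' : p b < p d := by
      rcases lt_trichotomy (p b) (p d) with h' | h' | h'
      · exact h'
      · have := hp _ hbS _ hd h'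
        subst this; omega
      · omega
    exact (hc f hf b hbS d hd w hw l hl (hfne b hbS (by omega)) hbd' hpw).1 hdf hfw hwb
      (Or.inr (hlne w hw (by omega))) (Or.inr hbl)

/-- (5.2). -/
theorem fl_adj {p v : L → ℤ} {S : Finset L}
    (hp : ∀ x ∈ S, ∀ y ∈ S, p x = p y → x = y) (hv : ∀ x ∈ S, ∀ y ∈ S, v x = v y → x = y)
    (hs : Simp p v S) (hc : Cf p v S) (h5 : N5 p v S)
    {f l : L} (hf : f ∈ S) (hl : l ∈ S)
    (ff : ∀ w ∈ S, w ≠ f → p f < p w) (ll : ∀ w ∈ S, w ≠ l → p w < p l) :
    ∀ z ∈ S, ¬ (v f < v z ∧ v z < v l) ∧ ¬ (v l < v z ∧ v z < v f) := by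
  intro z hz
  constructor
  · rintro ⟨h1, h2⟩
    exact fl_adj_lt hp hv hs hc h5 hf hl ff ll (by omega) z hz ⟨h1, h2⟩
  · rintro ⟨h1, h2⟩
    exact fl_adj_lt (v := fun x => - v x) hp
      (fun x hx y hy h => hv x hx y hy (by simpa using h)) hs.neg_v hc.neg_v h5.neg_v hf hl ff ll
      (by omega) z hz ⟨by omega, by omega⟩


end FL_

theorem t_FL : S_FL := by
  intro L _ S p q hp hq hs hc h5 f hf l hl ff ll
  exact FL_.fl_adj (fun x _ y _ h => hp h) (fun x _ y _ h => hq h) (FL_.simp_of hs)
    (FL_.cf_of hc) (FL_.n5_of h5) hf hl ff ll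

end Pool.GSP
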