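import Pool.Agent.GSP.Stmts

set_option autoImplicit false

namespace Pool.GSP

namespace NO5_

variable {L : Type*}

/-- `B` is a block of `S` (interval in positions and in values). -/
def Bl (p v : L → ℤ) (S B : Finset L) : Prop :=
  B ⊆ S ∧ ∀ w ∈ S, w ∉ B →
    ((∀ b ∈ B, p w < p b) ∨ (∀ b ∈ B, p b < p w)) ∧
    ((∀ b ∈ B, v w < v b) ∨ (∀ b ∈ B, v b < v w))

/-- Simple: every block with two different letters is everything. -/
def Simp (p v : L → ℤ) (S : Finset L) : Prop :=
  ∀ B : Finset L, Bl p v S B → ∀ x ∈ B, ∀ y ∈ B, x ≠ y → B = S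

/-- Corner-free. -/
def Cf (p v : L → ℤ) (S : Finset L) : Prop :=
  ∀ a ∈ S, ∀ b ∈ S, ∀ c ∈ S, ∀ d ∈ S, ∀ w ∈ S, p a < p b → p b < p c → p c < p d →
    (v c < v a → v a < v d → v d < v b →
      (p w < p a ∨ p d < p w) → (v w < v c ∨ v b < v w) → False) ∧
    (v b < v d → v d < v a → v a < v c →
      (p w < p a ∨ p d < p w) → (v w < v b ∨ v c < v w) → False)

/-- No 25314 and no 41352. -/
def N5 (p v : L → ℤ) (S : Finset L) : Prop :=
  ∀ a ∈ S, ∀ b ∈ S, ∀ c ∈ S, ∀ d ∈ S, ∀ e ∈ S, p a < p b → p b < p c → p c < p d → p d < p e →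
    (v d < v a → v a < v c → v c < v e → v e < v b → False) ∧
    (v b < v e → v e < v c → v c < v a → v a < v d → False)

theorem Simp.neg_v {p v : L → ℤ} {S : Finset L} (h : Simp p v S) : Simp p (fun x => - v x) S := by
  intro B hB x hx y hy hxy
  refine h B ⟨hB.1, fun w hw hwB => ?_⟩ x hx y hy hxy
  obtain ⟨h1, h2⟩ := hB.2 w hw hwB
  refine ⟨h1, ?_⟩
  rcases h2 with h2 | h2
  · right; intro b hb; have := h2 b hb; simp only at this; omega
  · left; intro b hb; have := h2 b hb; simp only at this; omega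

theorem Simp.neg_p {p v : L → ℤ} {S : Finset L} (h : Simp p v S) : Simp (fun x => - p x) v S := by
  intro B hB x hx y hy hxy
  refine h B ⟨hB.1, fun w hw hwB => ?_⟩ x hx y hy hxy
  obtain ⟨h1, h2⟩ := hB.2 w hw hwB
  refine ⟨?_, h2⟩
  rcases h1 with h1 | h1
  · right; intro b hb; have := h1 b hb; simp only at this; omega
  · left; intro b hb; have := h1 b hb; simp only at this; omega

theorem Cf.neg_v {p v : L → ℤ} {S : Finset L} (h : Cf p v S) : Cf p (fun x => - v x) S := by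
  intro a ha b hb c hc d hd w hw h1 h2 h3
  obtain ⟨k1, k2⟩ := h a ha b hb c hc d hd w hw h1 h2 h3
  simp only
  constructor
  · intro e1 e2 e3 e4 e5
    exact k2 (by omega) (by omega) (by omega) e4 (by omega)
  · intro e1 e2 e3 e4 e5
    exact k1 (by omega) (by omega) (by omega) e4 (by omega)

theorem Cf.neg_p {p v : L → ℤ} {S : Finset L} (h : Cf p v S) : Cf (fun x => - p x) v S := by
  intro a ha b hb c hc d hd w hw h1 h2 h3
  have h1 : - p a < - p b := h1
  have h2 : - p b < - p c := h2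
  have h3 : - p c < - p d := h3
  obtain ⟨k1, k2⟩ := h d hd c hc b hb a ha w hw (by omega) (by omega) (by omega)
  simp only
  constructor
  · intro e1 e2 e3 e4 e5
    exact k2 (by omega) (by omega) (by omega) (by omega) (by omega)
  · intro e1 e2 e3 e4 e5
    exact k1 (by omega) (by omega) (by omega) (by omega) (by omega)

theorem N5.neg_v {p v : L → ℤ} {S : Finset L} (h : N5 p v S) : N5 p (fun x => - v x) S := by
  intro a ha b hb c hc d hd e he h1 h2 h3 h4
  obtain ⟨k1, k2⟩ := h a ha b hb c hc d hd e he h1 h2 h3 h4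
  simp only
  constructor
  · intro e1 e2 e3 e4
    exact k2 (by omega) (by omega) (by omega) (by omega)
  · intro e1 e2 e3 e4
    exact k1 (by omega) (by omega) (by omega) (by omega)

theorem N5.neg_p {p v : L → ℤ} {S : Finset L} (h : N5 p v S) : N5 (fun x => - p x) v S := by
  intro a ha b hb c hc d hd e he h1 h2 h3 h4
  have h1 : - p a < - p b := h1
  have h2 : - p b < - p c := h2
  have h3 : - p c < - p d := h3
  have h4 : - p d < - p e := h4
  obtain ⟨k1, k2⟩ := h e he d hd c hc b hb a ha (by omega) (by omega) (by omega) (by omega)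
  constructor
  · intro e1 e2 e3 e4
    exact k2 (by omega) (by omega) (by omega) (by omega)
  · intro e1 e2 e3 e4
    exact k1 (by omega) (by omega) (by omega) (by omega)


theorem cf_of {p q : L → ℤ} {S : Finset L} (h : CF S p q) : Cf p q S := by
  intro a ha b hb c hc d hd w hw h1 h2 h3
  constructor
  · intro e1 e2 e3 e4 e5
    refine h a ha b hb c hc d hd ⟨h1, h2, h3, Or.inl ⟨e1, e2, e3⟩⟩ w hw ⟨e4, ?_⟩
    omega
  · intro e1 e2 e3 e4 e5
    refine h a ha b hb c hc d hd ⟨h1, h2, h3, Or.inr ⟨e1, e2, e3⟩⟩ w hw ⟨e4, ?_⟩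
    omega

theorem simp_of {p q : L → ℤ} {S : Finset L} (h : Simple S p q) : Simp p q S := by
  intro B hB x hx y hy hxy
  have hb : Blk S p q B := by
    refine ⟨hB.1, fun a ha b hb z hz hzB => ?_⟩
    obtain ⟨h1, h2⟩ := hB.2 z hz hzB
    constructor
    · rintro ⟨e1, e2⟩
      rcases h1 with h1 | h1
      · have := h1 a ha; omega
      · have := h1 b hb; omega
    · rintro ⟨e1, e2⟩
      rcases h2 with h2 | h2
      · have := h2 a ha; omega
      · have := h2 b hb; omega
  rcases h B hb with h1 | h1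
  · exact absurd (Finset.card_le_one.1 h1 x hx y hy) hxy
  · exact h1

theorem no5_of {p q : L → ℤ} {S : Finset L} (h : N5 p q S) : No5 S p q := by
  intro a ha b hb c hc d hd e he h1 h2 h3 h4 h5
  obtain ⟨k1, k2⟩ := h a ha b hb c hc d hd e he h1 h2 h3 h4
  rcases h5 with ⟨e1, e2, e3, e4⟩ | ⟨e1, e2, e3, e4⟩
  · exact k1 e1 e2 e3 e4
  · exact k2 e1 e2 e3 e4

/-- The 36-cell check. -/
theorem cell {p v : L → ℤ} {S : Finset L}
    (hp : ∀ x ∈ S, ∀ y ∈ S, p x = p y → x = y) (hv : ∀ x ∈ S, ∀ y ∈ S, v x = v y → x = y)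
    (hc : Cf p v S) {a b c d e w : L} (ha : a ∈ S) (hb : b ∈ S) (hcc : c ∈ S) (hd : d ∈ S)
    (he : e ∈ S) (hw : w ∈ S) (p1 : p a < p b) (p2 : p b < p c) (p3 : p c < p d)
    (p4 : p d < p e) (v1 : v d < v a) (v2 : v a < v c) (v3 : v c < v e) (v4 : v e < v b) :
    (p w < p b ∧ v d < v w ∧ v w < v c) ∨ (p a < p w ∧ p w < p c ∧ v e < v w) ∨
    (p b < p w ∧ p w < p d ∧ v a < v w ∧ v w < v e) ∨ (p c < p w ∧ p w < p e ∧ v w < v a) ∨
    (p d < p w ∧ v c < v w ∧ v w < v b) := by
  by_cases ea : w = a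
  · subst ea; omega
  by_cases eb : w = b
  · subst eb; omega
  by_cases ec : w = c
  · subst ec; omega
  by_cases ed : w = d
  · subst ed; omega
  by_cases ee : w = e
  · subst ee; omega
  have qa : p w ≠ p a := fun h => ea (hp _ hw _ ha h)
  have qb : p w ≠ p b := fun h => eb (hp _ hw _ hb h)
  have qc : p w ≠ p c := fun h => ec (hp _ hw _ hcc h)
  have qd : p w ≠ p d := fun h => ed (hp _ hw _ hd h)
  have qe : p w ≠ p e := fun h => ee (hp _ hw _ he h)
  have ra : v w ≠ v a := fun h => ea (hv _ hw _ ha h)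
  have rb : v w ≠ v b := fun h => eb (hv _ hw _ hb h)
  have rc : v w ≠ v c := fun h => ec (hv _ hw _ hcc h)
  have rd : v w ≠ v d := fun h => ed (hv _ hw _ hd h)
  have re : v w ≠ v e := fun h => ee (hv _ hw _ he h)
  clear ea eb ec ed ee hp hv
  have hpos : p w < p a ∨ (p a < p w ∧ p w < p b) ∨ (p b < p w ∧ p w < p c) ∨
      (p c < p w ∧ p w < p d) ∨ (p d < p w ∧ p w < p e) ∨ p e < p w := by omega
  have hval : v w < v d ∨ (v d < v w ∧ v w < v a) ∨ (v a < v w ∧ v w < v c) ∨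
      (v c < v w ∧ v w < v e) ∨ (v e < v w ∧ v w < v b) ∨ v b < v w := by omega
  rcases hpos with P | P | P | P | P | P <;> rcases hval with V | V | V | V | V | V
  · exact ((hc a ha b hb d hd e he w hw (by omega) (by omega) (by omega)).1 (by omega) (by omega) (by omega) (Or.inl (by omega)) (Or.inl (by omega))).elim
  · exact Or.inl (by omega)
  · exact Or.inl (by omega)
  · exact ((hc w hw a ha b hb c hcc d hd (by omega) (by omega) (by omega)).2 (by omega) (by omega) (by omega) (Or.inr (by omega)) (Or.inl (by omega))).elim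
  · exact ((hc w hw a ha b hb c hcc d hd (by omega) (by omega) (by omega)).2 (by omega) (by omega) (by omega) (Or.inr (by omega)) (Or.inl (by omega))).elim
  · exact ((hc a ha b hb d hd e he w hw (by omega) (by omega) (by omega)).1 (by omega) (by omega) (by omega) (Or.inl (by omega)) (Or.inr (by omega))).elim
  · exact ((hc a ha w hw c hcc d hd e he (by omega) (by omega) (by omega)).2 (by omega) (by omega) (by omega) (Or.inr (by omega)) (Or.inr (by omega))).elim
  · exact Or.inl (by omega)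
  · exact Or.inl (by omega)
  · exact ((hc w hw b hb c hcc e he a ha (by omega) (by omega) (by omega)).1 (by omega) (by omega) (by omega) (Or.inl (by omega)) (Or.inl (by omega))).elim
  · exact Or.inr (Or.inl (by omega))
  · exact Or.inr (Or.inl (by omega))
  · exact ((hc a ha w hw c hcc d hd e he (by omega) (by omega) (by omega)).2 (by omega) (by omega) (by omega) (Or.inr (by omega)) (Or.inr (by omega))).elim
  · exact ((hc a ha b hb w hw c hcc d hd (by omega) (by omega) (by omega)).1 (by omega) (by omega) (by omega) (Or.inr (by omega)) (Or.inl (by omega))).elim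
  · exact Or.inr (Or.inr (Or.inl (by omega)))
  · exact Or.inr (Or.inr (Or.inl (by omega)))
  · exact Or.inr (Or.inl (by omega))
  · exact Or.inr (Or.inl (by omega))
  · exact Or.inr (Or.inr (Or.inr (Or.inl (by omega))))
  · exact Or.inr (Or.inr (Or.inr (Or.inl (by omega))))
  · exact Or.inr (Or.inr (Or.inl (by omega)))
  · exact Or.inr (Or.inr (Or.inl (by omega)))
  · exact ((hc c hcc w hw d hd e he b hb (by omega) (by omega) (by omega)).1 (by omega) (by omega) (by omega) (Or.inl (by omega)) (Or.inr (by omega))).elim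
  · exact ((hc b hb c hcc w hw e he a ha (by omega) (by omega) (by omega)).2 (by omega) (by omega) (by omega) (Or.inl (by omega)) (Or.inl (by omega))).elim
  · exact Or.inr (Or.inr (Or.inr (Or.inl (by omega))))
  · exact Or.inr (Or.inr (Or.inr (Or.inl (by omega))))
  · exact ((hc a ha c hcc d hd w hw e he (by omega) (by omega) (by omega)).1 (by omega) (by omega) (by omega) (Or.inr (by omega)) (Or.inr (by omega))).elim
  · exact Or.inr (Or.inr (Or.inr (Or.inr (by omega))))
  · exact Or.inr (Or.inr (Or.inr (Or.inr (by omega))))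
  · exact ((hc b hb c hcc w hw e he a ha (by omega) (by omega) (by omega)).2 (by omega) (by omega) (by omega) (Or.inl (by omega)) (Or.inl (by omega))).elim
  · exact ((hc a ha b hb d hd e he w hw (by omega) (by omega) (by omega)).1 (by omega) (by omega) (by omega) (Or.inr (by omega)) (Or.inl (by omega))).elim
  · exact ((hc c hcc d hd e he w hw b hb (by omega) (by omega) (by omega)).2 (by omega) (by omega) (by omega) (Or.inl (by omega)) (Or.inr (by omega))).elim
  · exact ((hc c hcc d hd e he w hw b hb (by omega) (by omega) (by omega)).2 (by omega) (by omega) (by omega) (Or.inl (by omega)) (Or.inr (by omega))).elim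
  · exact Or.inr (Or.inr (Or.inr (Or.inr (by omega))))
  · exact Or.inr (Or.inr (Or.inr (Or.inr (by omega))))
  · exact ((hc a ha b hb d hd e he w hw (by omega) (by omega) (by omega)).1 (by omega) (by omega) (by omega) (Or.inr (by omega)) (Or.inr (by omega))).elim


/-- values of the pattern 25314 -/
def sg5 : Fin 5 → ℕ := ![2, 5, 3, 1, 4]

/-- `q` is an occurrence of 25314 -/
def Oc (p v : L → ℤ) (S : Finset L) (q : Fin 5 → L) : Prop :=
  (∀ i, q i ∈ S) ∧ ∀ i j, (p (q i) < p (q j) ↔ i < j) ∧ (v (q i) < v (q j) ↔ sg5 i < sg5 j)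

/-- `x` relates to the other letters of `q` as `q k`. -/
def Near (p v : L → ℤ) (q : Fin 5 → L) (x : L) (k : Fin 5) : Prop :=
  ∀ j, j ≠ k → (p x < p (q j) ↔ k < j) ∧ (p (q j) < p x ↔ j < k) ∧
    (v x < v (q j) ↔ sg5 k < sg5 j) ∧ (v (q j) < v x ↔ sg5 j < sg5 k)

theorem exists_near {p v : L → ℤ} {S : Finset L}
    (hp : ∀ x ∈ S, ∀ y ∈ S, p x = p y → x = y) (hv : ∀ x ∈ S, ∀ y ∈ S, v x = v y → x = y)
    (hc : Cf p v S) {q : Fin 5 → L} (hq : Oc p v S q) {w : L} (hw : w ∈ S) :
    ∃ k, Near p v q w k := by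
  have p1 := ((hq.2 0 1).1).2 (by decide)
  have p2 := ((hq.2 1 2).1).2 (by decide)
  have p3 := ((hq.2 2 3).1).2 (by decide)
  have p4 := ((hq.2 3 4).1).2 (by decide)
  have v1 := ((hq.2 3 0).2).2 (by decide)
  have v2 := ((hq.2 0 2).2).2 (by decide)
  have v3 := ((hq.2 2 4).2).2 (by decide)
  have v4 := ((hq.2 4 1).2).2 (by decide)
  have key := cell hp hv hc (hq.1 0) (hq.1 1) (hq.1 2) (hq.1 3) (hq.1 4) hw p1 p2 p3 p4 v1 v2 v3 v4
  have mk : ∀ k : Fin 5, (∀ j : Fin 5, (j < k → p (q j) < p w) ∧ (k < j → p w < p (q j)) ∧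
      (sg5 j < sg5 k → v (q j) < v w) ∧ (sg5 k < sg5 j → v w < v (q j))) → Near p v q w k := by
    intro k h j hj
    obtain ⟨h1, h2, h3, h4⟩ := h j
    have hs : sg5 j < sg5 k ∨ sg5 k < sg5 j := by
      have : ∀ j k : Fin 5, j ≠ k → sg5 j < sg5 k ∨ sg5 k < sg5 j := by decide
      exact this j k hj
    rcases lt_or_gt_of_ne hj with hjk | hjk
    · have a1 := h1 hjk
      refine ⟨⟨fun h => by omega, fun h => absurd h (by omega)⟩, ⟨fun _ => hjk, fun _ => a1⟩, ?_⟩
      rcases hs with hs | hs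
      · have a3 := h3 hs
        exact ⟨⟨fun h => by omega, fun h => by omega⟩, ⟨fun _ => hs, fun _ => a3⟩⟩
      · have a3 := h4 hs
        exact ⟨⟨fun _ => hs, fun _ => a3⟩, ⟨fun h => by omega, fun h => by omega⟩⟩
    · have a1 := h2 hjk
      refine ⟨⟨fun _ => hjk, fun _ => a1⟩, ⟨fun h => by omega, fun h => absurd h (by omega)⟩, ?_⟩
      rcases hs with hs | hs
      · have a3 := h3 hs
        exact ⟨⟨fun h => by omega, fun h => by omega⟩, ⟨fun _ => hs, fun _ => a3⟩⟩
      · have a3 := h4 hs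
        exact ⟨⟨fun _ => hs, fun _ => a3⟩, ⟨fun h => by omega, fun h => by omega⟩⟩
  rcases key with h | h | h | h | h
  · refine ⟨0, mk 0 ?_⟩
    simp [Fin.forall_fin_succ, sg5]
    omega
  · refine ⟨1, mk 1 ?_⟩
    simp [Fin.forall_fin_succ, sg5]
    omega
  · refine ⟨2, mk 2 ?_⟩
    simp [Fin.forall_fin_succ, sg5]
    omega
  · refine ⟨3, mk 3 ?_⟩
    simp [Fin.forall_fin_succ, sg5]
    omega
  · refine ⟨4, mk 4 ?_⟩
    simp [Fin.forall_fin_succ, sg5]
    omega

theorem Oc.update {p v : L → ℤ} {S : Finset L} {q : Fin 5 → L} (hq : Oc p v S q) {x : L}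
    (hx : x ∈ S) {k : Fin 5} (hk : Near p v q x k) : Oc p v S (Function.update q k x) := by
  constructor
  · intro i
    by_cases h : i = k
    · subst h; simpa using hx
    · rw [Function.update_of_ne h]; exact hq.1 i
  · intro i j
    by_cases hi : i = k
    · subst hi
      by_cases hj : j = i
      · subst hj; simp
      · rw [Function.update_self, Function.update_of_ne hj]
        exact ⟨(hk j hj).1, (hk j hj).2.2.1⟩
    · by_cases hj : j = k
      · subst hj
        rw [Function.update_self, Function.update_of_ne hi]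
        exact ⟨(hk i hi).2.1, (hk i hi).2.2.2⟩
      · rw [Function.update_of_ne hi, Function.update_of_ne hj]
        exact hq.2 i j

/-- the finite check on indices -/
def Cb (k k' m : Fin 5) : Bool :=
  (List.finRange 5).all fun j => (j == k) || (j == k') || (j == m) ||
    ((decide (m < j) == decide (k' < j)) && (decide (sg5 m < sg5 j) == decide (sg5 k' < sg5 j)))

theorem idx0 : ∀ k k' m m' : Fin 5,
    ((k == k') || (m == k') || (m' == k) || (!Cb k k' m) || (!Cb k' k m')) = true := by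
  decide

theorem Cb_of {k k' m : Fin 5}
    (h4 : ∀ j, j ≠ k → j ≠ k' → j ≠ m → (m < j ↔ k' < j) ∧ (sg5 m < sg5 j ↔ sg5 k' < sg5 j)) :
    Cb k k' m = true := by
  unfold Cb
  rw [List.all_eq_true]
  intro j _
  by_cases h1 : j = k
  · simp [h1]
  by_cases h2 : j = k'
  · simp [h2]
  by_cases h3 : j = m
  · simp [h3]
  obtain ⟨e1, e2⟩ := h4 j h1 h2 h3
  have q1 : decide (m < j) = decide (k' < j) := decide_eq_decide.2 e1
  have q2 : decide (sg5 m < sg5 j) = decide (sg5 k' < sg5 j) := decide_eq_decide.2 e2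
  rw [q1, q2]
  simp

theorem idx (k k' m m' : Fin 5) (h1 : k ≠ k') (h2 : m ≠ k') (h3 : m' ≠ k)
    (h4 : ∀ j, j ≠ k → j ≠ k' → j ≠ m → (m < j ↔ k' < j) ∧ (sg5 m < sg5 j ↔ sg5 k' < sg5 j))
    (h5 : ∀ j, j ≠ k → j ≠ k' → j ≠ m' → (m' < j ↔ k < j) ∧ (sg5 m' < sg5 j ↔ sg5 k < sg5 j)) :
    False := by
  have := idx0 k k' m m'
  rw [Cb_of h4, Cb_of (fun j a b c => h5 j b a c)] at this
  simp [h1, h2, h3] at this

theorem step {p v : L → ℤ} {S : Finset L}
    (hp : ∀ x ∈ S, ∀ y ∈ S, p x = p y → x = y) (hv : ∀ x ∈ S, ∀ y ∈ S, v x = v y → x = y)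
    (hc : Cf p v S) {q : Fin 5 → L} (hq : Oc p v S q) {x y : L} (hx : x ∈ S) (hy : y ∈ S)
    {k k' : Fin 5} (hk : Near p v q x k) (hk' : Near p v q y k') (hkk : k ≠ k') :
    ((p y < p x ↔ k' < k) ∧ (p x < p y ↔ k < k') ∧ (v y < v x ↔ sg5 k' < sg5 k) ∧
      (v x < v y ↔ sg5 k < sg5 k')) ∨
    ∃ m, m ≠ k' ∧
      ∀ j, j ≠ k → j ≠ k' → j ≠ m → (m < j ↔ k' < j) ∧ (sg5 m < sg5 j ↔ sg5 k' < sg5 j) := by
  obtain ⟨m, hm⟩ := exists_near hp hv hc (hq.update hx hk) hy
  by_cases hmk : m = k'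
  · left
    subst hmk
    have := hm k hkk
    rw [Function.update_self] at this
    exact this
  · right
    refine ⟨m, hmk, fun j hjk hjk' hjm => ?_⟩
    have h1 := hm j hjm
    rw [Function.update_of_ne hjk] at h1
    have h2 := hk' j hjk'
    exact ⟨h1.1.symm.trans h2.1, h1.2.2.1.symm.trans h2.2.2.1⟩

theorem rel {p v : L → ℤ} {S : Finset L}
    (hp : ∀ x ∈ S, ∀ y ∈ S, p x = p y → x = y) (hv : ∀ x ∈ S, ∀ y ∈ S, v x = v y → x = y)
    (hc : Cf p v S) {q : Fin 5 → L} (hq : Oc p v S q) {x y : L} (hx : x ∈ S) (hy : y ∈ S)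
    {k k' : Fin 5} (hk : Near p v q x k) (hk' : Near p v q y k') (hkk : k ≠ k') :
    (p y < p x ↔ k' < k) ∧ (p x < p y ↔ k < k') ∧ (v y < v x ↔ sg5 k' < sg5 k) ∧
      (v x < v y ↔ sg5 k < sg5 k') := by
  rcases step hp hv hc hq hx hy hk hk' hkk with h | ⟨m, hm, h⟩
  · exact h
  rcases step hp hv hc hq hy hx hk' hk hkk.symm with h' | ⟨m', hm', h'⟩
  · exact ⟨h'.2.1, h'.1, h'.2.2.2, h'.2.2.1⟩
  · exact (idx k k' m m' hkk hm hm' h (fun j h1 h2 h3 => h' j h2 h1 h3)).elim

/-- (5.1), 25314. -/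
theorem no25314 {p v : L → ℤ} {S : Finset L}
    (hp : ∀ x ∈ S, ∀ y ∈ S, p x = p y → x = y) (hv : ∀ x ∈ S, ∀ y ∈ S, v x = v y → x = y)
    (hs : Simp p v S) (hc : Cf p v S) (hcard : 6 ≤ S.card) {q : Fin 5 → L} (hq : Oc p v S q) :
    False := by
  classical
  have hself : ∀ k, Near p v q (q k) k := fun k j _ =>
    ⟨(hq.2 k j).1, (hq.2 j k).1, (hq.2 k j).2, (hq.2 j k).2⟩
  -- a letter outside q
  have hex : ∃ w ∈ S, ∀ i, w ≠ q i := by
    by_contra hcon
    push Not at hcon
    have hsub : S ⊆ Finset.univ.image q := by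
      intro w hw
      obtain ⟨i, hi⟩ := hcon w hw
      exact Finset.mem_image.2 ⟨i, Finset.mem_univ _, hi.symm⟩
    have h1 := Finset.card_le_card hsub
    have h2 : (Finset.univ.image q).card ≤ 5 := by
      refine le_trans Finset.card_image_le ?_
      simp
    omega
  obtain ⟨w, hw, hwq⟩ := hex
  obtain ⟨k, hk⟩ := exists_near hp hv hc hq hw
  set B := S.filter (fun x => Near p v q x k) with hB
  have hBm : ∀ x, x ∈ B ↔ x ∈ S ∧ Near p v q x k := by intro x; simp [hB]
  have hblk : Bl p v S B := by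
    refine ⟨Finset.filter_subset _ _, fun y hy hyB => ?_⟩
    obtain ⟨k', hk'⟩ := exists_near hp hv hc hq hy
    have hkk : k ≠ k' := by
      rintro rfl
      exact hyB ((hBm y).2 ⟨hy, hk'⟩)
    have hR : ∀ b ∈ B, (p y < p b ↔ k' < k) ∧ (p b < p y ↔ k < k') ∧ (v y < v b ↔ sg5 k' < sg5 k) ∧
        (v b < v y ↔ sg5 k < sg5 k') := fun b hb =>
      rel hp hv hc hq ((hBm b).1 hb).1 hy ((hBm b).1 hb).2 hk' hkk
    have hs' : sg5 k < sg5 k' ∨ sg5 k' < sg5 k := by
      have : ∀ j k : Fin 5, j ≠ k → sg5 j < sg5 k ∨ sg5 k < sg5 j := by decide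
      exact this k k' hkk
    constructor
    · rcases lt_or_gt_of_ne hkk with h | h
      · exact Or.inr fun b hb => ((hR b hb).2.1).2 h
      · exact Or.inl fun b hb => ((hR b hb).1).2 h
    · rcases hs' with h | h
      · exact Or.inr fun b hb => ((hR b hb).2.2.2).2 h
      · exact Or.inl fun b hb => ((hR b hb).2.2.1).2 h
  have hBS := hs B hblk (q k) ((hBm _).2 ⟨hq.1 k, hself k⟩) w ((hBm _).2 ⟨hw, hk⟩) (hwq k).symm
  obtain ⟨j, hj⟩ : ∃ j : Fin 5, j ≠ k := exists_ne k
  have : q j ∈ B := by rw [hBS]; exact hq.1 j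
  have h1 := ((hBm _).1 this).2 j hj
  rcases lt_or_gt_of_ne hj with h | h
  · exact lt_irrefl _ (h1.2.1.2 h)
  · exact lt_irrefl _ (h1.1.2 h)

/-- (5.1). -/
theorem n5_of_card {p v : L → ℤ} {S : Finset L}
    (hp : ∀ x ∈ S, ∀ y ∈ S, p x = p y → x = y) (hv : ∀ x ∈ S, ∀ y ∈ S, v x = v y → x = y)
    (hs : Simp p v S) (hc : Cf p v S) (hcard : 6 ≤ S.card) : N5 p v S := by
  have mk : ∀ (v : L → ℤ), ∀ a ∈ S, ∀ b ∈ S, ∀ c ∈ S, ∀ d ∈ S, ∀ e ∈ S, p a < p b → p b < p c →
      p c < p d → p d < p e → v d < v a → v a < v c → v c < v e → v e < v b →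
      Oc p v S ![a, b, c, d, e] := by
    intro v a ha b hb c hc d hd e he p1 p2 p3 p4 v1 v2 v3 v4
    constructor
    · simp [Fin.forall_fin_succ]
      exact ⟨ha, hb, hc, hd, he⟩
    · simp [Fin.forall_fin_succ, sg5]
      omega
  intro a ha b hb c hc' d hd e he p1 p2 p3 p4
  constructor
  · intro v1 v2 v3 v4
    exact no25314 hp hv hs hc hcard (mk v a ha b hb c hc' d hd e he p1 p2 p3 p4 v1 v2 v3 v4)
  · intro v1 v2 v3 v4
    exact no25314 (v := fun x => - v x) hp
      (fun x hx y hy h => hv x hx y hy (by simpa using h)) hs.neg_v hc.neg_v hcard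
      (mk (fun x => - v x) a ha b hb c hc' d hd e he p1 p2 p3 p4 (by omega) (by omega) (by omega)
        (by omega))


end NO5_

theorem t_NO5 : M_NO5 := by
  intro _ _ L _ S p q hp hq hs hc hcard
  exact NO5_.no5_of (NO5_.n5_of_card (fun x _ y _ h => hp h) (fun x _ y _ h => hq h)
    (NO5_.simp_of hs) (NO5_.cf_of hc) hcard)

end Pool.GSP
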