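import Pool.Agent.GSP.Stmts

/-!
MP_7b7176_co, ROAD S, pure permutation part: persistence (7.1).
-/

set_option autoImplicit false

namespace Pool.GSP

/-- (7.1) -/
theorem t_P1 : S_P1 := by
  intro L _ S p q hp hq f f' l R x y h
  obtain ⟨hf, hf', hl, -, hff', -, hfirst, hsec, hlast, hnb, hside⟩ := R
  obtain ⟨⟨hx, hy, hxy, hyx, hemp⟩, ⟨H1, H2, H3, H4⟩, I1, I2⟩ := h
  have hxS := Finset.mem_of_mem_erase hx
  have hyS := Finset.mem_of_mem_erase hy
  have hxf : x ≠ f := Finset.ne_of_mem_erase hx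
  have hyf : y ≠ f := Finset.ne_of_mem_erase hy
  have hfx : p f < p x := hfirst x hxS hxf
  have hfy : p f < p y := hfirst y hyS hyf
  have sub : ∀ z ∈ S.erase f, z ∈ S := fun z hz => Finset.mem_of_mem_erase hz
  have old : ∀ z ∈ S, z ≠ f → z ∈ S.erase f := fun z hz hne => Finset.mem_erase.2 ⟨hne, hz⟩
  -- key facts when f is in UL
  have key : q x < q f →
      q x < q l ∧ p y < p l ∧ (q l < q f ∨ (q f < q f' ∧ q l < q f' ∧ p f' < p x)) := by
    intro hxf'
    have hlx : q x < q l := by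
      rcases lt_trichotomy (q l) (q x) with h | h | h
      · exact absurd ⟨h, hxf'⟩ (hnb x hxS).2
      · have : l = x := hq h
        subst this
        have := hlast y hyS (by rintro rfl; exact lt_irrefl _ hxy)
        omega
      · exact h
    have hyl : p y < p l := by
      apply hlast y hyS
      rintro rfl; omega
    refine ⟨hlx, hyl, ?_⟩
    rcases hside with ⟨h1, h2⟩ | ⟨h1, h2⟩
    · right
      refine ⟨by omega, h2, ?_⟩
      apply hsec x hxS hxf
      rintro rfl; omega
    · left; exact h2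
  refine ⟨⟨hxS, hyS, hxy, hyx, ?_⟩, ⟨?_, ?_, ?_, ?_⟩, ?_, ?_⟩
  · intro z hz h1 h2
    by_cases hzf : z = f
    · subst hzf; omega
    · exact hemp z (old z hz hzf) h1 h2
  · -- H1
    intro hLL u hu hux hxu
    by_cases huf : u = f
    · subst huf
      obtain ⟨h1, h2, h3⟩ := key hxu
      rcases h3 with h3 | ⟨h3, h4, h5⟩
      · exact ⟨l, hl, u, hu, h2, h1, hux, h3⟩
      · exact ⟨l, hl, f', hf', h2, h1, h5, h4⟩
    · obtain ⟨z, hz, w, hw, h⟩ := H1 (fun z hz => hLL z (sub z hz)) u (old u hu huf) hux hxu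
      exact ⟨z, sub z hz, w, sub w hw, h⟩
  · -- H2
    intro hLL u hu huy hxu
    by_cases huf : u = f
    · subst huf; omega
    · obtain ⟨z, hz, w, hw, h⟩ := H2 (fun z hz => hLL z (sub z hz)) u (old u hu huf) huy hxu
      exact ⟨z, sub z hz, w, sub w hw, h⟩
  · -- H3
    intro hUR u hu hux hxu
    by_cases huf : u = f
    · subst huf
      have := key (by simpa using hux)
      exact absurd ⟨by simpa using this.1, by simpa using this.2.1⟩ (hUR l hl)
    · obtain ⟨z, hz, w, hw, h⟩ := H3 (fun z hz => hUR z (sub z hz)) u (old u hu huf) hux hxu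
      exact ⟨z, sub z hz, w, sub w hw, h⟩
  · -- H4
    intro hUR u hu huy hxu
    by_cases huf : u = f
    · subst huf; simp only [Pi.neg_apply, neg_lt_neg_iff] at huy hxu; omega
    · obtain ⟨z, hz, w, hw, h⟩ := H4 (fun z hz => hUR z (sub z hz)) u (old u hu huf) huy hxu
      exact ⟨z, sub z hz, w, sub w hw, h⟩
  · intro u hu
    by_cases huf : u = f
    · subst huf
      rintro ⟨h1, -⟩; omega
    · rintro ⟨h1, h2, h3, h4⟩
      exact I1 u (old u hu huf) ⟨h1, h2, fun z hz => h3 z (sub z hz), fun z hz => h4 z (sub z hz)⟩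
  · intro u hu
    by_cases huf : u = f
    · subst huf
      rintro ⟨h1, h2, h3, h4⟩
      simp only [Pi.neg_apply, neg_lt_neg_iff] at h1 h2 h3 h4
      obtain ⟨k1, k2, k3⟩ := key h2
      rcases k3 with k3 | ⟨k3, k4, k5⟩
      · have := h3 l hl k3 k1; omega
      · have := h4 f' hf' k5 (hfirst f' hf' hff'); omega
    · rintro ⟨h1, h2, h3, h4⟩
      exact I2 u (old u hu huf) ⟨h1, h2, fun z hz => h3 z (sub z hz), fun z hz => h4 z (sub z hz)⟩

end Pool.GSP
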