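import Pool.Agent.GSP.Stmts

/-!
MP_7b7176_co, ROAD S, pure permutation part: persistence (7.2).
-/

set_option autoImplicit false

namespace Pool.GSP

namespace P2_

/-- Core of (7.2). -/
theorem core {L : Type} [DecidableEq L] (S : Finset L) (p q : L → ℤ)
    (f l : L) (hf : f ∈ S) (hl : l ∈ S)
    (hfirst : ∀ z ∈ S, z ≠ f → p f < p z) (hlast : ∀ z ∈ S, z ≠ l → p z < p l)
    (x y : L) (h : GP ((S.erase f).erase l) p q x y)
    (K1 : q x < q f → ∃ a ∈ S, p y < p a ∧ q x < q a ∧ q a < q f)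
    (K2 : q l < q y → ∃ b ∈ S, p b < p x ∧ q b < q y ∧ q l < q b) : GP S p q x y := by
  obtain ⟨⟨hx, hy, hxy, hyx, hemp⟩, ⟨H1, H2, H3, H4⟩, I1, I2⟩ := h
  have sub : ∀ z ∈ (S.erase f).erase l, z ∈ S :=
    fun z hz => Finset.mem_of_mem_erase (Finset.mem_of_mem_erase hz)
  have old : ∀ z ∈ S, z ≠ f → z ≠ l → z ∈ (S.erase f).erase l :=
    fun z hz h1 h2 => Finset.mem_erase.2 ⟨h2, Finset.mem_erase.2 ⟨h1, hz⟩⟩
  have hxS := sub x hx
  have hyS := sub y hy
  have hxl : x ≠ l := Finset.ne_of_mem_erase hx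
  have hyl : y ≠ l := Finset.ne_of_mem_erase hy
  have hxf : x ≠ f := Finset.ne_of_mem_erase (Finset.mem_of_mem_erase hx)
  have hyf : y ≠ f := Finset.ne_of_mem_erase (Finset.mem_of_mem_erase hy)
  have hfx : p f < p x := hfirst x hxS hxf
  have hfy : p f < p y := hfirst y hyS hyf
  have hlx : p x < p l := hlast x hxS hxl
  have hly : p y < p l := hlast y hyS hyl
  refine ⟨⟨hxS, hyS, hxy, hyx, ?_⟩, ⟨?_, ?_, ?_, ?_⟩, ?_, ?_⟩
  · intro z hz h1 h2
    by_cases hzf : z = f
    · subst hzf; omega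
    by_cases hzl : z = l
    · subst hzl; omega
    · exact hemp z (old z hz hzf hzl) h1 h2
  · -- H1
    intro hLL u hu hux hxu
    by_cases huf : u = f
    · subst huf
      obtain ⟨a, ha, h1, h2, h3⟩ := K1 hxu
      exact ⟨a, ha, u, hu, h1, h2, hux, h3⟩
    by_cases hul : u = l
    · subst hul; omega
    · obtain ⟨z, hz, w, hw, h⟩ := H1 (fun z hz => hLL z (sub z hz)) u (old u hu huf hul) hux hxu
      exact ⟨z, sub z hz, w, sub w hw, h⟩
  · -- H2
    intro hLL u hu huy hxu
    by_cases huf : u = f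
    · subst huf; omega
    by_cases hul : u = l
    · subst hul
      obtain ⟨b, hb, h1, h2, h3⟩ := K2 huy
      exact absurd ⟨h2, h1⟩ (hLL b hb)
    · obtain ⟨z, hz, w, hw, h⟩ := H2 (fun z hz => hLL z (sub z hz)) u (old u hu huf hul) huy hxu
      exact ⟨z, sub z hz, w, sub w hw, h⟩
  · -- H3
    intro hUR u hu hux hxu
    by_cases huf : u = f
    · subst huf
      obtain ⟨a, ha, h1, h2, h3⟩ := K1 (by simpa using hux)
      exact absurd ⟨by simpa using h2, by simpa using h1⟩ (hUR a ha)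
    by_cases hul : u = l
    · subst hul; simp only [Pi.neg_apply, neg_lt_neg_iff] at hux hxu; omega
    · obtain ⟨z, hz, w, hw, h⟩ := H3 (fun z hz => hUR z (sub z hz)) u (old u hu huf hul) hux hxu
      exact ⟨z, sub z hz, w, sub w hw, h⟩
  · -- H4
    intro hUR u hu huy hxu
    by_cases huf : u = f
    · subst huf; simp only [Pi.neg_apply, neg_lt_neg_iff] at huy hxu; omega
    by_cases hul : u = l
    · subst hul
      simp only [Pi.neg_apply, neg_lt_neg_iff] at huy hxu
      obtain ⟨b, hb, h1, h2, h3⟩ := K2 hxu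
      exact ⟨b, hb, u, hu, by simpa using h1, by simpa using h2, by simpa using hly,
        by simpa using h3⟩
    · obtain ⟨z, hz, w, hw, h⟩ := H4 (fun z hz => hUR z (sub z hz)) u (old u hu huf hul) huy hxu
      exact ⟨z, sub z hz, w, sub w hw, h⟩
  · intro u hu
    by_cases huf : u = f
    · subst huf
      rintro ⟨h1, -⟩; omega
    by_cases hul : u = l
    · subst hul
      rintro ⟨h1, h2, h3, h4⟩
      obtain ⟨b, hb, k1, k2, k3⟩ := K2 h2
      have := h3 b hb k3 k2; omega
    · rintro ⟨h1, h2, h3, h4⟩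
      exact I1 u (old u hu huf hul)
        ⟨h1, h2, fun z hz => h3 z (sub z hz), fun z hz => h4 z (sub z hz)⟩
  · intro u hu
    by_cases huf : u = f
    · subst huf
      rintro ⟨h1, h2, h3, h4⟩
      simp only [Pi.neg_apply, neg_lt_neg_iff] at h1 h2 h3 h4
      obtain ⟨a, ha, k1, k2, k3⟩ := K1 h2
      have := h3 a ha k3 k2; omega
    by_cases hul : u = l
    · subst hul
      rintro ⟨h1, h2, h3, h4⟩
      simp only [Pi.neg_apply, neg_lt_neg_iff] at h1 h2 h3 h4
      omega
    · rintro ⟨h1, h2, h3, h4⟩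
      exact I2 u (old u hu huf hul)
        ⟨h1, h2, fun z hz => h3 z (sub z hz), fun z hz => h4 z (sub z hz)⟩

end P2_

/-- (7.2) -/
theorem t_P2 : S_P2 := by
  intro L _ S p q hp hq f f' l' l R hcard x y h
  have hxS : x ∈ S := Finset.mem_of_mem_erase (Finset.mem_of_mem_erase h.pr.hx)
  have hyS : y ∈ S := Finset.mem_of_mem_erase (Finset.mem_of_mem_erase h.pr.hy)
  have hxl : x ≠ l := Finset.ne_of_mem_erase h.pr.hx
  have hyl : y ≠ l := Finset.ne_of_mem_erase h.pr.hy
  have hxf : x ≠ f := Finset.ne_of_mem_erase (Finset.mem_of_mem_erase h.pr.hx)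
  have hyf : y ≠ f := Finset.ne_of_mem_erase (Finset.mem_of_mem_erase h.pr.hy)
  have hxy := h.pr.pxy
  have hyx := h.pr.qyx
  have hcx := R.con x hxS hxf hxl
  have hcy := R.con y hyS hyf hyl
  have hxl' : x ≠ l' := by
    rintro rfl
    have := R.pen y hyS hyl (by rintro rfl; exact lt_irrefl _ hxy)
    omega
  have hyf' : y ≠ f' := by
    rintro rfl
    have := R.snd x hxS hxf (by rintro rfl; exact lt_irrefl _ hxy)
    omega
  have e1 := ne_p hq hxl'
  have e2 := ne_p hq hyf'
  have e3 := ne_p hq hxl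
  have e4 := ne_p hq hyf
  rcases R.ord with ⟨o1, o2, o3⟩ | ⟨o1, o2, o3⟩
  · apply P2_.core S p q f l R.hf R.hl R.fst R.lst x y h
    · intro h1
      refine ⟨l', R.hw, ?_, by omega, o1⟩
      apply R.pen y hyS hyl
      rintro rfl; omega
    · intro h1
      refine ⟨f', R.hv, ?_, by omega, o3⟩
      apply R.snd x hxS hxf
      rintro rfl; omega
  · apply P2_.core S p q f l R.hf R.hl R.fst R.lst x y h
    · intro h1
      have : q x ≤ q f' := by
        by_contra hc
        exact hcx.2 ⟨by omega, by omega⟩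
      exact ⟨l, R.hl, R.lst y hyS hyl, by omega, o2⟩
    · intro h1
      have : q l' ≤ q y := by
        by_contra hc
        exact hcy.2 ⟨by omega, by omega⟩
      exact ⟨f, R.hf, R.fst x hxS hxf, by omega, o2⟩

end Pool.GSP
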