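import Pool.Agent.GSP.Stmts

/-!
MP_7b7176_co, ROAD S, pure permutation part: 25314 and 41352.
-/

set_option linter.unusedSectionVars false

set_option autoImplicit false

namespace Pool.GSP

namespace P5_

variable {L : Type} [DecidableEq L] {S : Finset L} {p q : L → ℤ}

/-- `φ` enumerates `S`, and `p, q` are ordered on `S` as `p', q'`. -/
structure Tr {n : ℕ} (S : Finset L) (p q : L → ℤ) (φ : Fin n → L) (p' q' : Fin n → ℤ) : Prop where
  mem : ∀ i, φ i ∈ S
  sur : ∀ z ∈ S, ∃ i, φ i = z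
  hp : ∀ i j, p (φ i) < p (φ j) ↔ p' i < p' j
  hq : ∀ i j, q (φ i) < q (φ j) ↔ q' i < q' j

variable {n : ℕ} {φ : Fin n → L} {p' q' : Fin n → ℤ}

lemma Tr.all (h : Tr S p q φ p' q') {P : L → Prop} : (∀ z ∈ S, P z) ↔ ∀ i, P (φ i) := by
  constructor
  · intro h1 i
    exact h1 _ (h.mem i)
  · intro h1 z hz
    obtain ⟨i, rfl⟩ := h.sur z hz
    exact h1 i

lemma Tr.ex (h : Tr S p q φ p' q') {P : L → Prop} : (∃ z ∈ S, P z) ↔ ∃ i, P (φ i) := by
  constructor
  · rintro ⟨z, hz, h1⟩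
    obtain ⟨i, rfl⟩ := h.sur z hz
    exact ⟨i, h1⟩
  · rintro ⟨i, h1⟩
    exact ⟨_, h.mem i, h1⟩

lemma Tr.swap (h : Tr S p q φ p' q') : Tr S q p φ q' p' := ⟨h.mem, h.sur, h.hq, h.hp⟩

lemma Tr.negp (h : Tr S p q φ p' q') : Tr S (-p) q φ (-p') q' :=
  ⟨h.mem, h.sur, fun i j => by simp only [Pi.neg_apply, neg_lt_neg_iff]; exact h.hp j i, h.hq⟩

lemma Tr.negq (h : Tr S p q φ p' q') : Tr S p (-q) φ p' (-q') := h.swap.negp.swap

lemma Tr.pr (h : Tr S p q φ p' q') {i j : Fin n} :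
    Pr S p q (φ i) (φ j) ↔ (p' i < p' j ∧ q' j < q' i ∧
      ∀ k, p' i < p' k → p' k < p' j → ¬ (q' j < q' k ∧ q' k < q' i)) := by
  constructor
  · rintro ⟨_, _, h1, h2, h3⟩
    rw [h.all] at h3
    simp only [h.hp, h.hq] at h1 h2 h3
    exact ⟨h1, h2, h3⟩
  · rintro ⟨h1, h2, h3⟩
    refine ⟨h.mem i, h.mem j, (h.hp _ _).mpr h1, (h.hq _ _).mpr h2, ?_⟩
    rw [h.all]
    simp only [h.hp, h.hq]
    exact h3

lemma Tr.iso (h : Tr S p q φ p' q') {i j k : Fin n} :
    Iso S p q (φ i) (φ j) (φ k) ↔ (p' j < p' k ∧ q' k < q' j ∧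
      (∀ z, q' k < q' z → q' z < q' j → p' i < p' z ∧ p' z < p' k) ∧
      (∀ z, p' j < p' z → p' z < p' k → q' k < q' z ∧ q' z < q' i)) := by
  unfold Iso
  rw [h.all, h.all]
  simp only [h.hp, h.hq]

lemma Tr.hpp (h : Tr S p q φ p' q') {i j : Fin n} :
    Hp S p q (φ i) (φ j) ↔ ((∀ z, ¬ (p' z < p' i ∧ q' z < q' j)) → ∀ u, p' u < p' i → q' i < q' u →
      ∃ z w, p' j < p' z ∧ q' i < q' z ∧ p' w < p' i ∧ q' z < q' w) := by
  unfold Hp
  rw [h.all, h.all]
  simp only [h.ex, h.hp, h.hq]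

/-- empty rectangle -/
def g1 (p' q' : Fin n → ℤ) (i j : Fin n) : Prop :=
  p' i < p' j ∧ q' j < q' i ∧ ∀ k, p' i < p' k → p' k < p' j → ¬ (q' j < q' k ∧ q' k < q' i)

/-- level 2 -/
def g2 (p' q' : Fin n → ℤ) (i j : Fin n) : Prop :=
  (∀ z, ¬ (p' z < p' i ∧ q' z < q' j)) → ∀ u, p' u < p' i → q' i < q' u →
      ∃ z w, p' j < p' z ∧ q' i < q' z ∧ p' w < p' i ∧ q' z < q' w

/-- isolated -/
def g3 (p' q' : Fin n → ℤ) (i j k : Fin n) : Prop :=
  p' j < p' k ∧ q' k < q' j ∧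
      (∀ z, q' k < q' z → q' z < q' j → p' i < p' z ∧ p' z < p' k) ∧
      (∀ z, p' j < p' z → p' z < p' k → q' k < q' z ∧ q' z < q' i)

instance (p' q' : Fin n → ℤ) (i j : Fin n) : Decidable (g1 p' q' i j) := by
  unfold g1; infer_instance

instance (p' q' : Fin n → ℤ) (i j : Fin n) : Decidable (g2 p' q' i j) := by
  unfold g2; infer_instance

instance (p' q' : Fin n → ℤ) (i j k : Fin n) : Decidable (g3 p' q' i j k) := by
  unfold g3; infer_instance

/-- decidable form of `GP` -/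
def gp (p' q' : Fin n → ℤ) (i j : Fin n) : Prop :=
  g1 p' q' i j ∧ g2 p' q' i j ∧ g2 q' p' j i ∧ g2 (-q') (-p') i j ∧ g2 (-p') (-q') j i ∧
    (∀ k, ¬ g3 p' q' i j k) ∧ (∀ k, ¬ g3 (-p') (-q') j i k)

instance (p' q' : Fin n → ℤ) (i j : Fin n) : Decidable (gp p' q' i j) := by
  unfold gp; infer_instance

lemma Tr.gp (h : Tr S p q φ p' q') {i j : Fin n} (hg : gp p' q' i j) : GP S p q (φ i) (φ j) := by
  obtain ⟨h1, h2, h3, h4, h5, h6, h7⟩ := hg
  refine ⟨h.pr.mpr h1, ⟨h.hpp.mpr h2, h.swap.hpp.mpr h3, h.swap.negp.negq.hpp.mpr h4,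
    h.negp.negq.hpp.mpr h5⟩, ?_, ?_⟩
  · rw [h.all]
    intro k hk
    exact h6 k (h.iso.mp hk)
  · rw [h.all]
    intro k hk
    exact h7 k (h.negp.negq.iso.mp hk)

lemma Tr.ne (h : Tr S p q φ p' q') {i j : Fin n}
    (hn : ∃ z, (p' z < p' i ∧ q' j < q' z) ∨ (p' j < p' z ∧ q' z < q' i)) :
    NE S p q (φ i) (φ j) := by
  unfold NE
  rw [h.ex]
  simp only [h.hp, h.hq]
  exact hn

lemma eq5 {a b c d e : L} (hS : S.card = 5) (ha : a ∈ S) (hb : b ∈ S) (hc : c ∈ S) (hd : d ∈ S)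
    (he : e ∈ S) (h : ({a, b, c, d, e} : Finset L).card = 5) : S = {a, b, c, d, e} := by
  symm
  apply Finset.eq_of_subset_of_card_le
  · intro z hz
    simp only [Finset.mem_insert, Finset.mem_singleton] at hz
    rcases hz with rfl | rfl | rfl | rfl | rfl <;> assumption
  · omega

lemma mkTr {a b c d e : L} (hS : S.card = 5) (ha : a ∈ S) (hb : b ∈ S) (hc : c ∈ S) (hd : d ∈ S)
    (he : e ∈ S) (h1 : p a < p b) (h2 : p b < p c) (h3 : p c < p d) (h4 : p d < p e)
    {q' : Fin 5 → ℤ} (hq : ∀ i j, q (![a, b, c, d, e] i) < q (![a, b, c, d, e] j) ↔ q' i < q' j) :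
    Tr S p q ![a, b, c, d, e] ![0, 1, 2, 3, 4] q' := by
  have hcard : ({a, b, c, d, e} : Finset L).card = 5 := by
    have n1 : ∀ {x y : L}, p x < p y → x ≠ y := fun h e => by rw [e] at h; exact lt_irrefl _ h
    rw [Finset.card_insert_of_notMem, Finset.card_insert_of_notMem, Finset.card_insert_of_notMem,
      Finset.card_insert_of_notMem, Finset.card_singleton]
    · simpa using n1 h4
    · simpa using ⟨n1 h3, n1 (h3.trans h4)⟩
    · simpa using ⟨n1 h2, n1 (h2.trans h3), n1 (h2.trans (h3.trans h4))⟩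
    · simpa using ⟨n1 h1, n1 (h1.trans h2), n1 (h1.trans (h2.trans h3)),
        n1 (h1.trans (h2.trans (h3.trans h4)))⟩
  have hS' := eq5 hS ha hb hc hd he hcard
  refine ⟨?_, ?_, ?_, hq⟩
  · intro i
    fin_cases i <;> simp [hS']
  · intro z hz
    rw [hS'] at hz
    simp only [Finset.mem_insert, Finset.mem_singleton] at hz
    rcases hz with rfl | rfl | rfl | rfl | rfl
    · exact ⟨0, rfl⟩
    · exact ⟨1, rfl⟩
    · exact ⟨2, rfl⟩
    · exact ⟨3, rfl⟩
    · exact ⟨4, rfl⟩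
  · intro i j
    fin_cases i <;> fin_cases j <;> simp <;> omega

end P5_

open P5_ in
theorem t_P5 : S_P5 := by
  intro L _ S p q hp hq h5 hS sg
  unfold No5 at h5
  push Not at h5
  obtain ⟨a, ha, b, hb, c, hc, d, hd, e, he, h1, h2, h3, h4, h6⟩ := h5
  rcases h6 with ⟨g1, g2, g3, g4⟩ | ⟨g1, g2, g3, g4⟩
  · have T : Tr S p q ![a, b, c, d, e] ![0, 1, 2, 3, 4] ![2, 5, 3, 1, 4] := by
      refine mkTr hS ha hb hc hd he h1 h2 h3 h4 ?_
      intro i j
      fin_cases i <;> fin_cases j <;> simp <;> omega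
    have a1 : GP S p q a d := T.gp (i := 0) (j := 3) (by decide)
    have a2 : GP S p q b c := T.gp (i := 1) (j := 2) (by decide)
    have a3 : GP S p q b e := T.gp (i := 1) (j := 4) (by decide)
    have a4 : GP S p q c d := T.gp (i := 2) (j := 3) (by decide)
    have b1 : GP S p (-q) a b := T.negq.gp (i := 0) (j := 1) (by decide)
    have b2 : GP S p (-q) a c := T.negq.gp (i := 0) (j := 2) (by decide)
    have b3 : GP S p (-q) c e := T.negq.gp (i := 2) (j := 4) (by decide)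
    have b4 : GP S p (-q) d e := T.negq.gp (i := 3) (j := 4) (by decide)
    have c1 : NE S p q a b := T.ne (i := 0) (j := 1) (by decide)
    have c2 : NE S p q a c := T.ne (i := 0) (j := 2) (by decide)
    have c3 : NE S p q c e := T.ne (i := 2) (j := 4) (by decide)
    have c4 : NE S p q d e := T.ne (i := 3) (j := 4) (by decide)
    have cen : ∀ z ∈ S, z = a ∨ z = b ∨ z = d ∨ z = e ∨ (p b < p z ∧ p z < p d ∧ q a < q z ∧ q z < q e) := by
      rw [T.all]
      intro i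
      fin_cases i
      · exact Or.inl rfl
      · exact Or.inr (Or.inl rfl)
      · exact Or.inr (Or.inr (Or.inr (Or.inr ⟨h2, h3, g2, g3⟩)))
      · exact Or.inr (Or.inr (Or.inl rfl))
      · exact Or.inr (Or.inr (Or.inr (Or.inl rfl)))
    have th : sg a = true → sg b = false → sg d = false → sg e = true → Theta S p q sg a b d e :=
      fun s1 s2 s3 s4 => ⟨ha, hb, hd, he, h1, h2.trans h3, h4, g1, g2.trans g3, g4, s1, s2, s3, s4,
        cen, by omega⟩
    rcases Bool.eq_false_or_eq_true (sg a) with sa | sa <;>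
    rcases Bool.eq_false_or_eq_true (sg b) with sb | sb <;>
    rcases Bool.eq_false_or_eq_true (sg c) with sc | sc <;>
    rcases Bool.eq_false_or_eq_true (sg d) with sd | sd <;>
    rcases Bool.eq_false_or_eq_true (sg e) with se | se <;>
    first
      | exact Or.inl (Or.inl ⟨a, d, sa, sd, a1⟩)
      | exact Or.inl (Or.inl ⟨b, c, sb, sc, a2⟩)
      | exact Or.inl (Or.inl ⟨b, e, sb, se, a3⟩)
      | exact Or.inl (Or.inl ⟨c, d, sc, sd, a4⟩)
      | exact Or.inl (Or.inr ⟨a, b, sa, sb, b1, c1⟩)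
      | exact Or.inl (Or.inr ⟨a, c, sa, sc, b2, c2⟩)
      | exact Or.inl (Or.inr ⟨c, e, sc, se, b3, c3⟩)
      | exact Or.inl (Or.inr ⟨d, e, sd, se, b4, c4⟩)
      | exact Or.inr (Or.inl ⟨a, b, d, e, th sa sb sd se⟩)
  · have T : Tr S p q ![a, b, c, d, e] ![0, 1, 2, 3, 4] ![4, 1, 3, 5, 2] := by
      refine mkTr hS ha hb hc hd he h1 h2 h3 h4 ?_
      intro i j
      fin_cases i <;> fin_cases j <;> simp <;> omega
    have a1 : GP S p q a b := T.gp (i := 0) (j := 1) (by decide)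
    have a2 : GP S p q a c := T.gp (i := 0) (j := 2) (by decide)
    have a3 : GP S p q c e := T.gp (i := 2) (j := 4) (by decide)
    have a4 : GP S p q d e := T.gp (i := 3) (j := 4) (by decide)
    have b1 : GP S p (-q) a d := T.negq.gp (i := 0) (j := 3) (by decide)
    have b2 : GP S p (-q) b c := T.negq.gp (i := 1) (j := 2) (by decide)
    have b3 : GP S p (-q) b e := T.negq.gp (i := 1) (j := 4) (by decide)
    have b4 : GP S p (-q) c d := T.negq.gp (i := 2) (j := 3) (by decide)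
    have c1 : NE S p q a d := T.ne (i := 0) (j := 3) (by decide)
    have c2 : NE S p q b c := T.ne (i := 1) (j := 2) (by decide)
    have c3 : NE S p q b e := T.ne (i := 1) (j := 4) (by decide)
    have c4 : NE S p q c d := T.ne (i := 2) (j := 3) (by decide)
    have cen : ∀ z ∈ S, z = b ∨ z = e ∨ z = a ∨ z = d ∨ (q e < q z ∧ q z < q a ∧ p b < p z ∧ p z < p d) := by
      rw [T.all]
      intro i
      fin_cases i
      · exact Or.inr (Or.inr (Or.inl rfl))
      · exact Or.inl rfl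
      · exact Or.inr (Or.inr (Or.inr (Or.inr ⟨g2, g3, h2, h3⟩)))
      · exact Or.inr (Or.inr (Or.inr (Or.inl rfl)))
      · exact Or.inr (Or.inl rfl)
    have th : sg b = true → sg e = false → sg a = false → sg d = true → Theta S q p sg b e a d :=
      fun s1 s2 s3 s4 => ⟨hb, he, ha, hd, g1, g2.trans g3, g4, h1, h2.trans h3, h4, s1, s2, s3, s4,
        cen, by omega⟩
    rcases Bool.eq_false_or_eq_true (sg a) with sa | sa <;>
    rcases Bool.eq_false_or_eq_true (sg b) with sb | sb <;>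
    rcases Bool.eq_false_or_eq_true (sg c) with sc | sc <;>
    rcases Bool.eq_false_or_eq_true (sg d) with sd | sd <;>
    rcases Bool.eq_false_or_eq_true (sg e) with se | se <;>
    first
      | exact Or.inl (Or.inl ⟨a, b, sa, sb, a1⟩)
      | exact Or.inl (Or.inl ⟨a, c, sa, sc, a2⟩)
      | exact Or.inl (Or.inl ⟨c, e, sc, se, a3⟩)
      | exact Or.inl (Or.inl ⟨d, e, sd, se, a4⟩)
      | exact Or.inl (Or.inr ⟨a, d, sa, sd, b1, c1⟩)
      | exact Or.inl (Or.inr ⟨b, c, sb, sc, b2, c2⟩)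
      | exact Or.inl (Or.inr ⟨b, e, sb, se, b3, c3⟩)
      | exact Or.inl (Or.inr ⟨c, d, sc, sd, b4, c4⟩)
      | exact Or.inr (Or.inr ⟨b, e, a, d, th sb se sa sd⟩)

end Pool.GSP
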