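import Pool.Agent.GSP.Stmts

/-!
MP_7b7176_co, ROAD S, pure permutation part: (5.1b), relative twins of different letters of 25314 are
in the same relative position as these letters.
-/

set_option autoImplicit false

namespace Pool.GSP

theorem t_PAIR : S_PAIR := by
  intro L S p q hp hq hCF a ha b hb c hc d hd e he pab pbc pcd pde qda qac qce qeb x hx y hy
    pay pyc qey
  have nxy : x ≠ y → q x ≠ q y := fun h e => h (hq e)
  constructor
  · intro pxb qdx qxc
    by_contra hn
    have hne : x ≠ y := by
      rintro rfl
      omega
    have hpne : p x ≠ p y := fun e => hne (hp e)
    have pyx : p y < p x := by omega
    have qxa : q x ≠ q a := by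
      intro h
      have := hq h
      subst this
      omega
    have qyb : q y ≠ q b := by
      intro h
      have := hq h
      subst this
      omega
    rcases lt_or_gt_of_ne qxa with h1 | h1
    · refine hCF a ha y hy x hx c hc ?_ d hd ?_
      · simp only [Occ]
        omega
      · simp only [Cor]
        omega
    · rcases lt_or_gt_of_ne qyb with h2 | h2
      · refine hCF y hy x hx b hb e he ?_ a ha ?_
        · simp only [Occ]
          omega
        · simp only [Cor]
          omega
      · refine hCF x hx b hb d hd e he ?_ y hy ?_
        · simp only [Occ]
          omega
        · simp only [Cor]
          omega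
  · intro pbx pxd qax qxe
    by_contra hn
    have hne : x ≠ y := by
      rintro rfl
      omega
    have hpne : p x ≠ p y := fun e => hne (hp e)
    have pxy : p x < p y := by omega
    have qxc : q x ≠ q c := by
      intro h
      have := hq h
      subst this
      omega
    have qyb : q y ≠ q b := by
      intro h
      have := hq h
      subst this
      omega
    rcases lt_or_gt_of_ne qxc with h1 | h1
    · rcases lt_or_gt_of_ne qyb with h2 | h2
      · refine hCF x hx y hy d hd e he ?_ b hb ?_
        · simp only [Occ]
          omega
        · simp only [Cor]
          omega
      · refine hCF b hb x hx y hy c hc ?_ a ha ?_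
        · simp only [Occ]
          omega
        · simp only [Cor]
          omega
    · refine hCF x hx y hy c hc e he ?_ a ha ?_
      · simp only [Occ]
        omega
      · simp only [Cor]
        omega

end Pool.GSP
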