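import Pool.Agent.GSP.Stmts

set_option autoImplicit false

namespace Pool.GSP

variable {L : Type*}

/-- A block `K` of `S - f` with at least two letters has letters below and above `f`. -/
lemma R82_mid [DecidableEq L] {S : Finset L} {p q : L → ℤ} {f : L} (hS : Simple S p q)
    (hf : f ∈ S) (hfst : ∀ z ∈ S, z ≠ f → p f < p z) {K : Finset L}
    (hK : Blk (S.erase f) p q K) (hc : 2 ≤ K.card) : ∃ a ∈ K, ∃ b ∈ K, q a < q f ∧ q f < q b := by
  have hKS : K ⊆ S := fun z hz => Finset.mem_of_mem_erase (hK.1 hz)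
  have hfK : f ∉ K := fun h => (Finset.mem_erase.1 (hK.1 h)).1 rfl
  have hnb : ¬ Blk S p q K := by
    intro hb
    rcases hS K hb with h | h
    · omega
    · exact hfK (h ▸ hf)
  by_contra hcon
  apply hnb
  refine ⟨hKS, fun a ha b hb z hz hzK => ?_⟩
  by_cases hzf : z = f
  · subst hzf
    have haf : a ≠ z := fun e => hfK (e ▸ ha)
    refine ⟨fun h => ?_, fun h => hcon ⟨a, ha, b, hb, h.1, h.2⟩⟩
    have := hfst a (hKS ha) haf
    omega
  · exact hK.2 a ha b hb z (Finset.mem_erase.2 ⟨hzf, hz⟩) hzK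

/-- The neighbour `l` of `f` in value is in every block around `f`. -/
lemma R82_mem [DecidableEq L] {S : Finset L} {p q : L → ℤ} {f l : L}
    (hq : Function.Injective q) (hl : l ∈ S) (hlf : l ≠ f)
    (hadj : ∀ z ∈ S, ¬ (q f < q z ∧ q z < q l) ∧ ¬ (q l < q z ∧ q z < q f)) {K : Finset L}
    (hK : Blk (S.erase f) p q K) (hab : ∃ a ∈ K, ∃ b ∈ K, q a < q f ∧ q f < q b) : l ∈ K := by
  obtain ⟨a, ha, b, hb, h1, h2⟩ := hab
  by_contra hlK
  have hKS : K ⊆ S := fun z hz => Finset.mem_of_mem_erase (hK.1 hz)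
  have h3 := (hK.2 a ha b hb l (Finset.mem_erase.2 ⟨hlf, hl⟩) hlK).2
  have h4 := hadj a (hKS ha)
  have h5 := hadj b (hKS hb)
  have h6 : q l ≠ q a := fun e => hlK ((hq e) ▸ ha)
  have h7 : q l ≠ q b := fun e => hlK ((hq e) ▸ hb)
  have h8 : q l ≠ q f := fun e => hlf (hq e)
  omega

theorem t_R82 : M_R82 := by
  intro hTwin L _ S p q hp hq hS hCF hcard f hf w hw l hl hwl hfst hlst hpen hadj hns
  -- a proper block of `S - f`
  have hns' : ∃ K : Finset L, Blk (S.erase f) p q K ∧ 2 ≤ K.card ∧ K ≠ S.erase f := by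
    by_contra hcon
    apply hns
    intro K hK
    by_contra h
    rw [not_or] at h
    exact hcon ⟨K, hK, by omega, h.2⟩
  obtain ⟨K, hK, hKc, hKne⟩ := hns'
  have hKS : K ⊆ S := fun z hz => Finset.mem_of_mem_erase (hK.1 hz)
  have hmid := R82_mid hS hf hfst hK hKc
  have hlf : l ≠ f := by
    rintro rfl
    obtain ⟨a, ha, -⟩ := hmid
    have haf : a ≠ l := by
      rintro rfl
      exact (Finset.mem_erase.1 (hK.1 ha)).1 rfl
    have h1 := hfst a (hKS ha) haf
    have h2 := hlst a (hKS ha) haf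
    omega
  -- a letter outside `K + f`
  obtain ⟨z, hz, hzK⟩ : ∃ z ∈ S.erase f, z ∉ K := by
    by_contra hcon
    apply hKne
    apply Finset.Subset.antisymm hK.1
    intro z hz
    by_contra h
    exact hcon ⟨z, hz, h⟩
  have hzS : z ∈ S := Finset.mem_of_mem_erase hz
  -- no occurrence in `K`
  have hocc : ∀ a ∈ K, ∀ b ∈ K, ∀ c ∈ K, ∀ d ∈ K, ¬ Occ p q a b c d := by
    intro a ha b hb c hc d hd hO
    refine hCF a (hKS ha) b (hKS hb) c (hKS hc) d (hKS hd) hO z hzS ?_
    have h1 := (hK.2 a ha d hd z hz hzK).1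
    have h2 := (hK.2 b hb c hc z hz hzK).2
    have h3 := (hK.2 c hc b hb z hz hzK).2
    have h4 : p z ≠ p a := fun e => hzK ((hp e) ▸ ha)
    have h5 : p z ≠ p d := fun e => hzK ((hp e) ▸ hd)
    have h6 : q z ≠ q b := fun e => hzK ((hq e) ▸ hb)
    have h7 : q z ≠ q c := fun e => hzK ((hq e) ▸ hc)
    unfold Cor
    omega
  obtain ⟨x, hx, y, hy, hxy, hB⟩ := hTwin L (S.erase f) K p q hp hq hK hKc hocc
  have hBc : 2 ≤ ({x, y} : Finset L).card := by rw [Finset.card_pair hxy]
  have hmid2 := R82_mid hS hf hfst hB hBc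
  have hlB := R82_mem hq hl hlf hadj hB hmid2
  -- `w ≠ f`
  have hwf : w ≠ f := by
    rintro rfl
    have hsub : S ⊆ {w, l} := by
      intro t ht
      by_contra h
      simp only [Finset.mem_insert, Finset.mem_singleton, not_or] at h
      have h1 := hfst t ht h.1
      have h2 := hpen t ht h.2 h.1
      omega
    have := Finset.card_le_card hsub
    have h3 := Finset.card_le_two (a := w) (b := l)
    omega
  -- `w` is in the twin
  have hwB : w ∈ ({x, y} : Finset L) := by
    by_contra hwB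
    have hex : ∃ m ∈ ({x, y} : Finset L), m ≠ l := by
      by_cases h : x = l
      · exact ⟨y, by simp, fun e => hxy (h.trans e.symm)⟩
      · exact ⟨x, by simp, h⟩
    obtain ⟨m, hm, hml⟩ := hex
    have hmS : m ∈ S := Finset.mem_of_mem_erase (hB.1 hm)
    have hmw : m ≠ w := fun e => hwB (e ▸ hm)
    have h1 := hpen m hmS hml hmw
    have h2 := hlst w hw hwl
    exact (hB.2 m hm l hlB w (Finset.mem_erase.2 ⟨hwf, hw⟩) hwB).1 ⟨h1, h2⟩
  have hBeq : ∀ t ∈ ({x, y} : Finset L), t = w ∨ t = l := by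
    intro t ht
    simp only [Finset.mem_insert, Finset.mem_singleton] at ht hwB hlB
    rcases ht with rfl | rfl
    · rcases hwB with h | h
      · exact Or.inl h.symm
      · rcases hlB with h' | h'
        · exact Or.inr h'.symm
        · exact absurd (h.trans h'.symm) hwl
    · rcases hwB with h | h
      · rcases hlB with h' | h'
        · exact absurd (h.trans h'.symm) hwl
        · exact Or.inr h'.symm
      · exact Or.inl h.symm
  refine ⟨?_, ?_⟩
  · obtain ⟨a, ha, b, hb, h1, h2⟩ := hmid2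
    rcases hBeq a ha with rfl | rfl <;> rcases hBeq b hb with rfl | rfl
    · omega
    · exact Or.inl ⟨h1, h2⟩
    · exact Or.inr ⟨h1, h2⟩
    · omega
  · intro t ht htf
    by_cases htB : t ∈ ({x, y} : Finset L)
    · rcases hBeq t htB with rfl | rfl
      · constructor <;> intro h <;> omega
      · constructor <;> intro h <;> omega
    · have htE : t ∈ S.erase f := Finset.mem_erase.2 ⟨htf, ht⟩
      exact ⟨(hB.2 w hwB l hlB t htE htB).2, (hB.2 l hlB w hwB t htE htB).2⟩

end Pool.GSP
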