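import Pool.Agent.GSP.Stmts

/-!
MP_7b7176_co, ROAD S, (8.3): the reduction.
-/

set_option autoImplicit false

namespace Pool.GSP

namespace RED_

variable {L : Type} [DecidableEq L]

/-- If `S - f` is simple, the hypotheses of (7.1) hold. -/
theorem caseA (hFL : S_FL) {S : Finset L} {p q : L → ℤ} (hp : Function.Injective p)
    (hq : Function.Injective q) (hS : Simple S p q) (hC : CF S p q) (hN : No5 S p q)
    (hc : 3 ≤ S.card) {f v l : L} (hf : f ∈ S) (hv : v ∈ S) (hl : l ∈ S) (hfl : f ≠ l)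
    (hvf : v ≠ f) (hvl : v ≠ l) (h1 : ∀ z ∈ S, z ≠ f → p f < p z)
    (h2 : ∀ z ∈ S, z ≠ f → z ≠ v → p v < p z) (h3 : ∀ z ∈ S, z ≠ l → p z < p l)
    (hE : Simple (S.erase f) p q) : R1 S p q f v l := by
  have hadj := hFL L S p q hp hq hS hC hN f hf l hl h1 h3
  have hadj' := hFL L (S.erase f) p q hp hq hE (hC.mono (Finset.erase_subset _ _))
    (hN.mono (Finset.erase_subset _ _)) v (Finset.mem_erase.2 ⟨hvf, hv⟩) l
    (Finset.mem_erase.2 ⟨hfl.symm, hl⟩)
    (fun z hz hzv => h2 z (Finset.mem_of_mem_erase hz) (Finset.ne_of_mem_erase hz) hzv)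
    (fun z hz hzl => h3 z (Finset.mem_of_mem_erase hz) hzl)
  refine ⟨hf, hv, hl, hfl, hvf, hvl, h1, h2, h3, hadj, ?_⟩
  by_contra hsd
  have hql := ne_p hq hvl
  have hqf := ne_p hq hfl
  have hblk : Blk S p q {f, v} := by
    refine ⟨?_, ?_⟩
    · intro z hz
      rw [Finset.mem_insert, Finset.mem_singleton] at hz
      rcases hz with rfl | rfl
      · exact hf
      · exact hv
    · intro a ha b hb z hz hzK
      rw [Finset.mem_insert, Finset.mem_singleton] at ha hb hzK
      push Not at hzK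
      have g1 := h1 z hz hzK.1
      have g2 := h2 z hz hzK.1 hzK.2
      have g3 := hadj z hz
      have g4 := hadj' z (Finset.mem_erase.2 ⟨hzK.1, hz⟩)
      have g5 := ne_p hq hzK.1
      have g6 := ne_p hq hzK.2
      rcases ha with rfl | rfl <;> rcases hb with rfl | rfl <;> constructor <;> omega
  rcases hS _ hblk with h | h
  · rw [Finset.card_pair hvf.symm] at h
    omega
  · rw [← h, Finset.card_pair hvf.symm] at hc
    omega

/-- If neither `S - f` nor `S - l` is simple. -/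
theorem caseC (hR : S_R82) (hFL : S_FL) {S : Finset L} {p q : L → ℤ} (hp : Function.Injective p)
    (hq : Function.Injective q) (hS : Simple S p q) (hC : CF S p q) (hN : No5 S p q)
    (hc : 6 ≤ S.card) {f v w l : L} (hf : f ∈ S) (hv : v ∈ S) (hw : w ∈ S) (hl : l ∈ S)
    (hfl : f ≠ l) (hvf : v ≠ f) (hvl : v ≠ l) (hwf : w ≠ f) (hwl : w ≠ l)
    (h1 : ∀ z ∈ S, z ≠ f → p f < p z)
    (h2 : ∀ z ∈ S, z ≠ f → z ≠ v → p v < p z) (h3 : ∀ z ∈ S, z ≠ l → p z < p l)
    (h4 : ∀ z ∈ S, z ≠ l → z ≠ w → p z < p w)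
    (hE : ¬ Simple (S.erase f) p q) (hE' : ¬ Simple (S.erase l) p q) :
    R2 S p q f v w l ∧ Simple ((S.erase f).erase l) p q := by
  have hadj := hFL L S p q hp hq hS hC hN f hf l hl h1 h3
  obtain ⟨a1, a2⟩ := hR L S p q hp hq hS hC (by omega) f hf w hw l hl hwl h1 h3 h4 hadj hE
  have hE2 : ¬ Simple (S.erase l) (-p) q := by
    intro h
    have h' := h.rev
    rw [neg_neg] at h'
    exact hE' h'
  obtain ⟨b1, b2⟩ := hR L S (-p) q (inj_neg hp) hq hS.rev hC.rev (by omega) l hl v hv f hf hvf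
    (fun z hz hzl => by
      have := h3 z hz hzl
      simp only [Pi.neg_apply]
      omega)
    (fun z hz hzf => by
      have := h1 z hz hzf
      simp only [Pi.neg_apply]
      omega)
    (fun z hz hzf hzv => by
      have := h2 z hz hzf hzv
      simp only [Pi.neg_apply]
      omega)
    (fun z hz => (hadj z hz).symm) hE2
  have hord : (q w < q f ∧ q f < q l ∧ q l < q v) ∨ (q v < q l ∧ q l < q f ∧ q f < q w) := by
    omega
  have hcon : ∀ z ∈ S, z ≠ f → z ≠ l →
      ¬ (q w < q z ∧ q z < q v) ∧ ¬ (q v < q z ∧ q z < q w) := by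
    intro z hz hzf hzl
    have g1 := a2 z hz hzf
    have g2 := b2 z hz hzl
    have g3 := ne_p hq hzf
    have g4 := ne_p hq hzl
    omega
  refine ⟨⟨hf, hv, hw, hl, h1, h2, h4, h3, hord, hcon⟩, ?_⟩
  intro K hK
  by_contra hcon2
  push Not at hcon2
  obtain ⟨hK2, hKS⟩ := hcon2
  have hmem : ∀ z, z ∈ (S.erase f).erase l ↔ z ∈ S ∧ z ≠ f ∧ z ≠ l := by
    intro z
    rw [Finset.mem_erase, Finset.mem_erase]
    tauto
  have hKm : ∀ z ∈ K, z ∈ S ∧ z ≠ f ∧ z ≠ l := fun z hz => (hmem z).1 (hK.1 hz)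
  have hnot : ¬ Blk S p q K := by
    intro h
    rcases hS K h with h | h
    · omega
    · rw [← h] at hf
      exact (hKm f hf).2.1 rfl
  have hex : ∃ a ∈ K, ∃ b ∈ K, ∃ z, (z = f ∨ z = l) ∧ q a < q z ∧ q z < q b := by
    by_contra hno
    push Not at hno
    refine hnot ⟨fun z hz => (hKm z hz).1, fun a ha b hb z hz hzK => ?_⟩
    by_cases hzf : z = f
    · subst hzf
      refine ⟨fun h => ?_, fun h => ?_⟩
      · have := h1 a (hKm a ha).1 (hKm a ha).2.1
        omega
      · have := hno a ha b hb z (Or.inl rfl) h.1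
        omega
    · by_cases hzl : z = l
      · subst hzl
        refine ⟨fun h => ?_, fun h => ?_⟩
        · have := h3 b (hKm b hb).1 (hKm b hb).2.2
          omega
        · have := hno a ha b hb z (Or.inr rfl) h.1
          omega
      · exact hK.2 a ha b hb z ((hmem z).2 ⟨hz, hzf, hzl⟩) hzK
  obtain ⟨a, ha, b, hb, z, hz, hz1, hz2⟩ := hex
  obtain ⟨haS, haf, hal⟩ := hKm a ha
  obtain ⟨hbS, hbf, hbl⟩ := hKm b hb
  have c1 := hcon a haS haf hal
  have c2 := hcon b hbS hbf hbl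
  have n1 := ne_p hq haf
  have n2 := ne_p hq hal
  have n3 := ne_p hq hbf
  have n4 := ne_p hq hbl
  have hqz : q z = q f ∨ q z = q l := by
    rcases hz with rfl | rfl
    · exact Or.inl rfl
    · exact Or.inr rfl
  have hwK : w ∈ K := by
    by_contra hwK
    have g := (hK.2 a ha b hb w ((hmem w).2 ⟨hw, hwf, hwl⟩) hwK).2
    have n5 : q w ≠ q a := ne_p hq (fun h => hwK (h ▸ ha))
    have n6 : q w ≠ q b := ne_p hq (fun h => hwK (h ▸ hb))
    omega
  have hvK : v ∈ K := by
    by_contra hvK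
    have g := (hK.2 a ha b hb v ((hmem v).2 ⟨hv, hvf, hvl⟩) hvK).2
    have n5 : q v ≠ q a := ne_p hq (fun h => hvK (h ▸ ha))
    have n6 : q v ≠ q b := ne_p hq (fun h => hvK (h ▸ hb))
    omega
  apply hKS
  apply Finset.Subset.antisymm hK.1
  intro y hy
  by_contra hyK
  have hy' := (hmem y).1 hy
  have g := (hK.2 v hvK w hwK y hy hyK).1
  have m1 := h2 y hy'.1 hy'.2.1 (fun h => hyK (h ▸ hvK))
  have m2 := h4 y hy'.1 hy'.2.2 (fun h => hyK (h ▸ hwK))
  exact g ⟨m1, m2⟩

end RED_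

open RED_ in
theorem t_RED : M_RED := by
  intro hFL hR L _ S p q hp hq hS hC hN hc
  have hne : S.Nonempty := Finset.card_pos.1 (by omega)
  obtain ⟨f, hf, h1⟩ := exists_min p hp hne
  obtain ⟨l, hl, h3⟩ := exists_max p hp hne
  have hcf : (S.erase f).card = S.card - 1 := Finset.card_erase_of_mem hf
  have hcl : (S.erase l).card = S.card - 1 := Finset.card_erase_of_mem hl
  obtain ⟨v, hv, h2⟩ := exists_min (S := S.erase f) p hp (Finset.card_pos.1 (by omega))
  obtain ⟨w, hw, h4⟩ := exists_max (S := S.erase l) p hp (Finset.card_pos.1 (by omega))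
  have hvf := Finset.ne_of_mem_erase hv
  have hvS := Finset.mem_of_mem_erase hv
  have hwl := Finset.ne_of_mem_erase hw
  have hwS := Finset.mem_of_mem_erase hw
  have h2' : ∀ z ∈ S, z ≠ f → z ≠ v → p v < p z :=
    fun z hz hzf hzv => h2 z (Finset.mem_erase.2 ⟨hzf, hz⟩) hzv
  have h4' : ∀ z ∈ S, z ≠ l → z ≠ w → p z < p w :=
    fun z hz hzl hzw => h4 z (Finset.mem_erase.2 ⟨hzl, hz⟩) hzw
  -- a third letter
  have hthird : ∀ x y : L, ∃ z ∈ S, z ≠ x ∧ z ≠ y := by
    intro x y
    by_contra hno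
    push Not at hno
    have : S ⊆ {x, y} := by
      intro z hz
      rw [Finset.mem_insert, Finset.mem_singleton]
      by_cases hzx : z = x
      · exact Or.inl hzx
      · exact Or.inr (hno z hz hzx)
    have h5 := Finset.card_le_card this
    have h6 := Finset.card_le_two (a := x) (b := y)
    omega
  have hfl : f ≠ l := by
    intro h
    obtain ⟨z, hz, hzf, -⟩ := hthird f f
    have g1 := h1 z hz hzf
    have g2 := h3 z hz (h ▸ hzf)
    rw [h] at g1
    omega
  have hvl : v ≠ l := by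
    intro h
    obtain ⟨z, hz, hzf, hzv⟩ := hthird f v
    have g1 := h2' z hz hzf hzv
    have g2 := h3 z hz (h ▸ hzv)
    rw [h] at g1
    omega
  have hwf : w ≠ f := by
    intro h
    obtain ⟨z, hz, hzl, hzw⟩ := hthird l w
    have g1 := h4' z hz hzl hzw
    have g2 := h1 z hz (h ▸ hzw)
    rw [h] at g1
    omega
  by_cases hE : Simple (S.erase f) p q
  · exact Or.inl ⟨f, v, l, caseA hFL hp hq hS hC hN (by omega) hf hvS hl hfl hvf hvl h1 h2' h3 hE,
      hE⟩
  by_cases hE' : Simple (S.erase l) p q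
  · refine Or.inr (Or.inl ⟨l, w, f, ?_, hE'⟩)
    refine caseA hFL (inj_neg hp) hq hS.rev hC.rev hN.rev (by omega) hl hwS hf hfl.symm hwl hwf
      ?_ ?_ ?_ hE'.rev
    · intro z hz hzl
      have := h3 z hz hzl
      simp only [Pi.neg_apply]
      omega
    · intro z hz hzl hzw
      have := h4' z hz hzl hzw
      simp only [Pi.neg_apply]
      omega
    · intro z hz hzf
      have := h1 z hz hzf
      simp only [Pi.neg_apply]
      omega
  · exact Or.inr (Or.inr ⟨f, v, w, l, caseC hR hFL hp hq hS hC hN hc hf hvS hwS hl hfl hvf hvl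
      hwf hwl h1 h2' h3 h4' hE hE'⟩)

end Pool.GSP
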