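import Pool.Agent.GSP.R_MAIN
import Pool.Agent.GSP.R_NO5
import Pool.Agent.GSP.R_CELL
import Pool.Agent.GSP.R_PAIR
import Pool.Agent.GSP.R_FL
import Pool.Agent.GSP.R_OCC
import Pool.Agent.GSP.R_TWIN
import Pool.Agent.GSP.R_R82
import Pool.Agent.GSP.R_RED
import Pool.Agent.GSP.R_P1
import Pool.Agent.GSP.R_P2
import Pool.Agent.GSP.R_B5
import Pool.Agent.GSP.R_B6
import Pool.Agent.GSP.R_B4
import Pool.Agent.GSP.R_P5
import Pool.Agent.GSP.PPBridge

/-!
MP_7b7176_co, ROAD S: assembly of the pure permutation part.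
-/

set_option autoImplicit false

namespace Pool.GSP

/-- The pure permutation part: a simple corner-free signed permutation with at least four letters has
a good pair or is one of the special ones. -/
theorem main : S_MAIN :=
  t_MAIN (t_NO5 t_CELL t_PAIR) (t_RED t_FL (t_R82 (t_TWIN t_OCC))) t_P1 t_P2 (t_B5 t_FL) t_B6 t_B4
    t_P5

/-- The same with good sets. -/
theorem main_gset (L : Type) [DecidableEq L] (S : Finset L) (p q : L → ℤ)
    (hp : Function.Injective p) (hq : Function.Injective q) (hS : Simple S p q) (hC : CF S p q)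
    (hc : 4 ≤ S.card) (sg : L → Bool) : ∃ Z, GSet S p q sg Z :=
  t_PPBR L S p q hp hq sg (main L S p q hp hq hS hC hc sg)

end Pool.GSP
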