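import Pool.Agent.GSP.R_MAIN
import Pool.Agent.GSP.R_NO5
import Pool.Agent.GSP.R_CELL
import Pool.Agent.GSP.R_PAIR
import Pool.Agent.GSP.R_RED
import Pool.Agent.GSP.R_FL
import Pool.Agent.GSP.R_R82
import Pool.Agent.GSP.R_TWIN
import Pool.Agent.GSP.R_OCC
import Pool.Agent.GSP.R_P1
import Pool.Agent.GSP.R_P2
import Pool.Agent.GSP.R_B4
import Pool.Agent.GSP.R_B5
import Pool.Agent.GSP.R_B6
import Pool.Agent.GSP.R_P5

/-!
MP_7b7176_co, ROAD S: the pure permutation part, assembled.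
-/

namespace Pool.GSP

theorem t_ALL : S_MAIN :=
  t_MAIN (t_NO5 t_CELL t_PAIR) (t_RED t_FL (t_R82 (t_TWIN t_OCC))) t_P1 t_P2 (t_B5 t_FL) t_B6 t_B4 t_P5

end Pool.GSP
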