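import Pool.Agent.GSP.Stmts

/-!
MP_7b7176_co, ROAD S: the final theorem of the pure permutation part.
-/

set_option autoImplicit false

namespace Pool.GSP

namespace MAIN_

variable {L : Type} [DecidableEq L] {S : Finset L} {p q : L → ℤ}

omit [DecidableEq L] in
lemma ne_mono {T : Finset L} (hT : T ⊆ S) {x y : L} (h : NE T p q x y) : NE S p q x y := by
  obtain ⟨z, hz, h1⟩ := h
  exact ⟨z, hT hz, h1⟩

lemma lift1 (hP : S_P1) (hp : Function.Injective p) (hq : Function.Injective q) {u v l : L}
    (hR : R1 S p q u v l) {sg : L → Bool} (h : UPair (S.erase u) p q sg) : UPair S p q sg := by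
  rcases h with ⟨x, y, hx, hy, h⟩ | ⟨x, y, hx, hy, h, h'⟩
  · exact Or.inl ⟨x, y, hx, hy, hP L S p q hp hq u v l hR x y h⟩
  · exact Or.inr ⟨x, y, hx, hy, hP L S p (-q) hp (inj_neg hq) u v l hR.compl x y h,
      ne_mono (Finset.erase_subset _ _) h'⟩

lemma lift1' (hP : S_P1) (hp : Function.Injective p) (hq : Function.Injective q) {u v l : L}
    (hR : R1 S (-p) q u v l) {sg : L → Bool} (h : UPair (S.erase u) p q sg) :
    UPair S p q sg := by
  rcases h with ⟨x, y, hx, hy, h⟩ | ⟨x, y, hx, hy, h, h'⟩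
  · refine Or.inl ⟨x, y, hx, hy, ?_⟩
    have h1 := (hP L S (-p) (-q) (inj_neg hp) (inj_neg hq) u v l hR.compl y x h.rc).rc
    rwa [neg_neg, neg_neg] at h1
  · refine Or.inr ⟨x, y, hx, hy, ?_, ne_mono (Finset.erase_subset _ _) h'⟩
    have h0 := h.rc
    rw [neg_neg] at h0
    have h1 := (hP L S (-p) q (inj_neg hp) hq u v l hR y x h0).rc
    rwa [neg_neg] at h1

lemma lift2 (hP : S_P2) (hp : Function.Injective p) (hq : Function.Injective q) {f v w l : L}
    (hR : R2 S p q f v w l) (h4 : 4 < S.card) {sg : L → Bool}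
    (h : UPair ((S.erase f).erase l) p q sg) : UPair S p q sg := by
  rcases h with ⟨x, y, hx, hy, h⟩ | ⟨x, y, hx, hy, h, h'⟩
  · exact Or.inl ⟨x, y, hx, hy, hP L S p q hp hq f v w l hR h4 x y h⟩
  · exact Or.inr ⟨x, y, hx, hy, hP L S p (-q) hp (inj_neg hq) f v w l hR.compl h4 x y h,
      ne_mono ((Finset.erase_subset _ _).trans (Finset.erase_subset _ _)) h'⟩

omit [DecidableEq L] in
lemma R2_ne {f v w l : L} (hR : R2 S p q f v w l) : f ≠ l := by
  intro h
  subst h
  rcases hR.ord with h1 | h1
  · omega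
  · omega

lemma main5 (hD : S_RED) (h1 : S_P1) (h2 : S_P2) (h5 : S_B5) (h6 : S_B6) :
    ∀ (n : ℕ) (L : Type) [DecidableEq L] (S : Finset L) (p q : L → ℤ), S.card = n →
      Function.Injective p → Function.Injective q → Simple S p q → CF S p q → No5 S p q →
      5 ≤ S.card → ∀ sg : L → Bool, UPair S p q sg := by
  intro n
  induction n using Nat.strong_induction_on with
  | _ n ih =>
    intro L _ S p q hn hp hq hS hC hNo hc sg
    rcases Nat.lt_or_ge S.card 6 with hlt | hge
    · exact h5 L S p q hp hq hS hC hNo (by omega) sg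
    rcases hD L S p q hp hq hS hC hNo hge with ⟨u, v, l, hR, hs⟩ | ⟨u, v, l, hR, hs⟩ |
        ⟨f, v, w, l, hR, hs⟩
    · have hcard : (S.erase u).card = S.card - 1 := Finset.card_erase_of_mem hR.hu
      refine lift1 h1 hp hq hR (ih (S.erase u).card (by omega) L (S.erase u) p q rfl hp hq hs
        (hC.mono (Finset.erase_subset _ _)) (hNo.mono (Finset.erase_subset _ _)) (by omega) sg)
    · have hcard : (S.erase u).card = S.card - 1 := Finset.card_erase_of_mem hR.hu
      refine lift1' h1 hp hq hR (ih (S.erase u).card (by omega) L (S.erase u) p q rfl hp hq hs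
        (hC.mono (Finset.erase_subset _ _)) (hNo.mono (Finset.erase_subset _ _)) (by omega) sg)
    · by_cases hc6 : S.card = 6
      · exact h6 L S p q hp hq f v w l hR hs hc6 sg
      · have hl : l ∈ S.erase f := Finset.mem_erase.2 ⟨(R2_ne hR).symm, hR.hl⟩
        have hcard1 : (S.erase f).card = S.card - 1 := Finset.card_erase_of_mem hR.hf
        have hcard2 : ((S.erase f).erase l).card = (S.erase f).card - 1 :=
          Finset.card_erase_of_mem hl
        have hsub : (S.erase f).erase l ⊆ S :=
          (Finset.erase_subset _ _).trans (Finset.erase_subset _ _)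
        exact lift2 h2 hp hq hR (by omega) (ih ((S.erase f).erase l).card (by omega) L
          ((S.erase f).erase l) p q rfl hp hq hs (hC.mono hsub) (hNo.mono hsub) (by omega) sg)

end MAIN_

theorem t_MAIN : M_MAIN := by
  intro hN hD h1 h2 h5 h6 h4 hP5 L _ S p q hp hq hS hC hc sg
  rcases Nat.lt_or_ge S.card 5 with hlt | hge
  · rcases h4 L S p q hp hq hS (by omega) sg with h | h | h
    · exact Or.inl h.hasPair
    · exact Or.inr (Or.inl h)
    · exact Or.inr (Or.inr h)
  rcases Nat.lt_or_ge S.card 6 with hlt' | hge'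
  · by_cases hNo : No5 S p q
    · exact Or.inl (h5 L S p q hp hq hS hC hNo (by omega) sg).hasPair
    · rcases hP5 L S p q hp hq hNo (by omega) sg with h | h | h
      · exact Or.inl h.hasPair
      · exact Or.inr (Or.inl h)
      · exact Or.inr (Or.inr h)
  · exact Or.inl (MAIN_.main5 hD h1 h2 h5 h6 S.card L S p q rfl hp hq hS hC
      (hN L S p q hp hq hS hC hge') (by omega) sg).hasPair

end Pool.GSP
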