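import Pool.Agent.GSP.Pure
import Pool.Agent.GSP.PPMain
import Pool.Agent.GSP.GSetBr
import Pool.Agent.GSP.DefsST

/-!
MP_7b7176_co, ROAD S: assembly of (S'): a non-separable signed permutation has a good circuit.
-/

set_option autoImplicit false

namespace Pool.GSP

/-- THEOREM PP. -/
theorem pp : S_PP := t_PP (t_TWIN t_OCC) main t_PPBR

end Pool.GSP

namespace Pool.GS

/-- (S') -/
theorem t_S' : Stmt_S' := fun _ _ _ sp _ hN => sp.exists_gd_of_PP GSP.pp hN

end Pool.GS
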