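import Pool.Agent.GSP.NonSimple
import Pool.Agent.GSP.ST
import Pool.Agent.GSP.Lift
import Pool.Agent.GSP.CornerSym

/-!
MP_7b7176_co, ROAD S: (S').  A signed permutation which contains 2413 or 3142 has a good circuit.
Induction on the number of letters: a minimal counterexample is corner-free (`cf_of_min`), has no
twin of type `Tw` (`gd_tw`), is simple (`nonsimple`, criteria), and the permutation part
(`S_MAIN`) gives a good pair or the special circuit.
-/

set_option autoImplicit false
set_option linter.unusedSectionVars false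

namespace Pool.GS

open Pool.GSP (Iso NE Occ)
open Pool.GSP.Sep (Adj)

/-- The special circuit is good. -/
def Stmt_Theta : Prop :=
  ∀ (Λ : Type) [Fintype Λ] [DecidableEq Λ] (sp : SP Λ) (S : Finset Λ) (a b c d : Λ),
    GSP.Theta S (sp.k true) (sp.k false) sp.sgn a b c d → ∃ Z, sp.Gd S Z

variable {Λ : Type} [Fintype Λ] [DecidableEq Λ] {sp : SP Λ} {S : Finset Λ}

/-- Neighbours have the same relations to all other letters. -/
lemma nbr_lt {i : Bool} {p l y : Λ} (hy : y ∈ S)
    (hn : ∀ z ∈ S, ¬(sp.k i p < sp.k i z ∧ sp.k i z < sp.k i l) ∧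
      ¬(sp.k i l < sp.k i z ∧ sp.k i z < sp.k i p)) (h1 : p ≠ y) (h2 : l ≠ y) :
    (sp.k i p < sp.k i y ↔ sp.k i l < sp.k i y) ∧ (sp.k i y < sp.k i p ↔ sp.k i y < sp.k i l) := by
  have h3 := hn y hy
  have h4 : sp.k i p ≠ sp.k i y := fun e => h1 (sp.inj i e)
  have h5 : sp.k i l ≠ sp.k i y := fun e => h2 (sp.inj i e)
  omega

/-- Removing one letter of a twin preserves non-separability. -/
theorem nonSep_erase {p l : Λ} (hp : p ∈ S) (hpl : p ≠ l)
    (hn : ∀ i, ∀ z ∈ S, ¬(sp.k i p < sp.k i z ∧ sp.k i z < sp.k i l) ∧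
      ¬(sp.k i l < sp.k i z ∧ sp.k i z < sp.k i p)) (h : sp.NonSep S) :
    sp.NonSep (S.erase l) := by
  obtain ⟨a, ha, b, hb, c, hc, d, hd, h1, h2, h3, h4⟩ := h
  have hpe : p ∈ S.erase l := Finset.mem_erase.mpr ⟨hpl, hp⟩
  have me : ∀ {z}, z ∈ S → z ≠ l → z ∈ S.erase l := fun hz hzl => Finset.mem_erase.mpr ⟨hzl, hz⟩
  by_cases hal : a = l
  · subst hal
    have e1 : p ≠ b := by
      rintro rfl
      have := hn false d hd
      clear hn
      omega
    have e2 : p ≠ c := by
      rintro rfl
      have := hn true b hb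
      clear hn
      omega
    have e3 : p ≠ d := by
      rintro rfl
      have := hn true b hb
      clear hn
      omega
    have f1 : a ≠ b := by rintro rfl; omega
    have f2 : a ≠ c := by rintro rfl; omega
    have f3 : a ≠ d := by rintro rfl; omega
    have g1 := nbr_lt hb (hn true) e1 f1
    have g2 := nbr_lt hb (hn false) e1 f1
    have g3 := nbr_lt hc (hn false) e2 f2
    have g4 := nbr_lt hd (hn false) e3 f3
    clear hn
    refine ⟨p, hpe, b, me hb f1.symm, c, me hc f2.symm, d, me hd f3.symm, g1.1.mpr h1, h2, h3, ?_⟩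
    rw [g3.2, g4.1, g4.2, g3.1]
    exact h4
  by_cases hbl : b = l
  · subst hbl
    have e1 : p ≠ a := by
      rintro rfl
      have := hn false d hd
      clear hn
      omega
    have e2 : p ≠ c := by
      rintro rfl
      have := hn false a ha
      clear hn
      omega
    have e3 : p ≠ d := by
      rintro rfl
      have := hn true c hc
      clear hn
      omega
    have f1 : b ≠ a := by rintro rfl; omega
    have f2 : b ≠ c := by rintro rfl; omega
    have f3 : b ≠ d := by rintro rfl; omega
    have g1 := nbr_lt ha (hn true) e1 f1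
    have g2 := nbr_lt hc (hn true) e2 f2
    have g4 := nbr_lt hd (hn false) e3 f3
    clear hn
    refine ⟨a, me ha f1.symm, p, hpe, c, me hc f2.symm, d, me hd f3.symm, g1.2.mpr h1,
      g2.1.mpr h2, h3, ?_⟩
    rw [g4.2, g4.1]
    exact h4
  by_cases hcl : c = l
  · subst hcl
    have e1 : p ≠ a := by
      rintro rfl
      have := hn true b hb
      clear hn
      omega
    have e2 : p ≠ b := by
      rintro rfl
      have := hn false a ha
      clear hn
      omega
    have e3 : p ≠ d := by
      rintro rfl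
      have := hn false a ha
      clear hn
      omega
    have f1 : c ≠ a := by rintro rfl; omega
    have f2 : c ≠ b := by rintro rfl; omega
    have f3 : c ≠ d := by rintro rfl; omega
    have g1 := nbr_lt hb (hn true) e2 f2
    have g2 := nbr_lt hd (hn true) e3 f3
    have g4 := nbr_lt ha (hn false) e1 f1
    clear hn
    refine ⟨a, me ha f1.symm, b, me hb f2.symm, p, hpe, d, me hd f3.symm, h1, g1.2.mpr h2,
      g2.1.mpr h3, ?_⟩
    rw [g4.1, g4.2]
    exact h4
  by_cases hdl : d = l
  · subst hdl
    have e1 : p ≠ a := by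
      rintro rfl
      have := hn true b hb
      clear hn
      omega
    have e2 : p ≠ b := by
      rintro rfl
      have := hn true c hc
      clear hn
      omega
    have e3 : p ≠ c := by
      rintro rfl
      have := hn false a ha
      clear hn
      omega
    have f1 : d ≠ a := by rintro rfl; omega
    have f2 : d ≠ b := by rintro rfl; omega
    have f3 : d ≠ c := by rintro rfl; omega
    have g1 := nbr_lt hc (hn true) e3 f3
    have g2 := nbr_lt ha (hn false) e1 f1
    have g3 := nbr_lt hb (hn false) e2 f2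
    clear hn
    refine ⟨a, me ha f1.symm, b, me hb f2.symm, c, me hc f3.symm, p, hpe, h1, h2, g1.2.mpr h3, ?_⟩
    rw [g2.2, g3.1, g3.2, g2.1]
    exact h4
  exact ⟨a, me ha hal, b, me hb hbl, c, me hc hcl, d, me hd hdl, h1, h2, h3, h4⟩

/-- A non-separable permutation has at least four letters. -/
theorem four_le (h : sp.NonSep S) : 4 ≤ S.card := by
  obtain ⟨a, ha, b, hb, c, hc, d, hd, h1, h2, h3, -⟩ := h
  have hsub : ({a, b, c, d} : Finset Λ) ⊆ S := by
    intro z hz
    simp only [Finset.mem_insert, Finset.mem_singleton] at hz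
    rcases hz with rfl | rfl | rfl | rfl <;> assumption
  have hcard : ({a, b, c, d} : Finset Λ).card = 4 := by
    have ne : ∀ {x y : Λ}, sp.k true x < sp.k true y → x ≠ y := by
      rintro x y hxy rfl
      exact lt_irrefl _ hxy
    rw [Finset.card_insert_of_notMem, Finset.card_insert_of_notMem, Finset.card_insert_of_notMem,
      Finset.card_singleton]
    · simpa using ne h3
    · simp only [Finset.mem_insert, Finset.mem_singleton, not_or]
      exact ⟨ne h2, ne (h2.trans h3)⟩
    · simp only [Finset.mem_insert, Finset.mem_singleton, not_or]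
      exact ⟨ne h1, ne (h1.trans h2), ne ((h1.trans h2).trans h3)⟩
  rw [← hcard]
  exact Finset.card_le_card hsub

/-- Twins which are not of type `Tw` are pure. -/
theorem pure_of (hTw : ¬∃ p l, sp.Tw S p l) :
    (∀ x y, Adj S (sp.k true) (sp.k false) x y → sp.k false x < sp.k false y →
      sp.sgn x = false ∧ sp.sgn y = false) ∧
    (∀ x y, Adj S (sp.k true) (sp.k false) x y → sp.k false y < sp.k false x →
      sp.sgn x = true ∧ sp.sgn y = true) := by
  have hnb : ∀ x y, Adj S (sp.k true) (sp.k false) x y → ∀ i, ∀ z ∈ S,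
      ¬(sp.k i x < sp.k i z ∧ sp.k i z < sp.k i y) ∧
      ¬(sp.k i y < sp.k i z ∧ sp.k i z < sp.k i x) := by
    intro x y h i z hz
    have h1 := h.lt
    have h2 := h.np z hz
    have h3 := h.n1 z hz
    have h4 := h.n2 z hz
    cases i
    · exact ⟨h3, h4⟩
    · exact ⟨h2, by omega⟩
  have hxy : ∀ x y, Adj S (sp.k true) (sp.k false) x y → x ≠ y := by
    rintro x y h rfl
    exact lt_irrefl _ h.lt
  constructor
  · intro x y h h1
    have h2 := h.lt
    constructor
    · by_contra hcon
      rw [Bool.not_eq_false, SP.sgn_true] at hcon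
      refine hTw ⟨x, y, h.hx, h.hy, hxy x y h, hnb x y h, ?_⟩
      simp only [hcon, true_iff]
      omega
    · by_contra hcon
      rw [Bool.not_eq_false, SP.sgn_true] at hcon
      refine hTw ⟨y, x, h.hy, h.hx, (hxy x y h).symm, fun i z hz => (hnb x y h i z hz).symm, ?_⟩
      simp only [hcon, true_iff]
      omega
  · intro x y h h1
    have h2 := h.lt
    constructor
    · by_contra hcon
      rw [Bool.not_eq_true, SP.sgn_false] at hcon
      refine hTw ⟨x, y, h.hx, h.hy, hxy x y h, hnb x y h, ?_⟩
      simp only [hcon, false_iff]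
      omega
    · by_contra hcon
      rw [Bool.not_eq_true, SP.sgn_false] at hcon
      refine hTw ⟨y, x, h.hy, h.hx, (hxy x y h).symm, fun i z hz => (hnb x y h i z hz).symm, ?_⟩
      simp only [hcon, false_iff]
      omega

lemma swap_sgn : sp.swap.sgn = sp.sgn := by
  funext x
  simp only [SP.sgn, SP.swap, Bool.not_false, Bool.not_true]
  cases sp.o false x <;> cases sp.o true x <;> rfl

/-- **(S')** -/
theorem t_S'A (hM : GSP.S_MAIN) (hθ : Stmt_Theta) : Stmt_S' := by
  intro Λ _ _
  have main : ∀ (n : ℕ) (sp : SP Λ) (S : Finset Λ), S.card = n → sp.NonSep S →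
      ∃ Z, sp.Gd S Z := by
    intro n
    induction n using Nat.strong_induction_on with
    | _ n ih =>
      intro sp S hn hNS
      by_contra hG
      have hCF : sp.CF S := by
        refine sp.cf_of_min ?_ hG
        intro sp' S' hlt hNS'
        exact ih _ (hn ▸ hlt) sp' S' rfl hNS'
      have hTw : ¬∃ p l, sp.Tw S p l := by
        rintro ⟨p, l, h⟩
        have hNS' := nonSep_erase h.1 h.2.2.1 h.2.2.2.1 hNS
        have hlt : (S.erase l).card < n := hn ▸ Finset.card_erase_lt_of_mem h.2.1
        obtain ⟨Z, hZ⟩ := ih _ hlt sp (S.erase l) rfl hNS'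
        exact hG ⟨Z, sp.gd_tw h hZ⟩
      obtain ⟨hpa, hpd⟩ := pure_of hTw
      by_cases hs : sp.Simple S
      · rcases sp.perm_part hM hs hCF (four_le hNS) with h | ⟨a, b, c, d, h⟩ | ⟨a, b, c, d, h⟩
        · exact hG (sp.gd_of_hasPair h)
        · exact hG (hθ Λ sp S a b c d h)
        · obtain ⟨Z, hZ⟩ := hθ Λ sp.swap S a b c d (by
            rw [swap_sgn]
            exact h)
          exact hG ⟨Z, sp.gd_swap.1 hZ⟩
      · rcases GSP.Sep.nonsimple (sp.inj true) (sp.inj false) (GSP.t_TWIN GSP.t_OCC)
          (sp.nonSep_iff.1 hNS) (sp.cf_of hCF) (fun h => hs (sp.simple_iff.1 h)) hpa hpd with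
          ⟨x, y, h1, h2, h3, h4⟩ | ⟨x, y, h1, h2, h3, h4, h5⟩
        · refine absurd ⟨_, SP.crit1 ⟨h1.hx, h1.hy, h1.lt, h2, ?_⟩ (hpd x y h1 h2).1
            (hpd x y h1 h2).2 h3 h4⟩ hG
          intro z hz k1 k2
          exact fun _ => h1.np z hz ⟨k1, k2⟩
        · refine absurd ⟨_, SP.crit2 ⟨h1.hx, h1.hy, h1.lt, ?_, ?_⟩ (hpa x y h1 h2).1
            (hpa x y h1 h2).2 h3 h4 h5⟩ hG
          · simp only [Pi.neg_apply]
            omega
          · intro z hz k1 k2
            exact fun _ => h1.np z hz ⟨k1, k2⟩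
  intro sp S h
  exact main _ sp S rfl h

end Pool.GS
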