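import Pool.Agent.GSP.Stmts

/-!
MP_7b7176_co, ROAD S, the statement (ST) for separable permutations.  If all twins are pure
(ascending twins have signs `- -`, descending twins have signs `+ +`) then some twin satisfies the
criterion of section 6, unless the permutation is one ascending run.

`TT` is the set of letters which are not the second letter of a twin (one letter for each maximal
run); a twin `a, b` of `TT` has a run with at least two letters in the direction opposite to `a, b`,
and the first twin of this run is not isolated by any letter of the wrong sign.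
-/

set_option autoImplicit false
set_option linter.unusedSectionVars false

namespace Pool.GSP.Sep

open Pool.GSP

variable {L : Type} [DecidableEq L]

/-- `x, y` is a twin, `x` is before `y`. -/
structure Adj (S : Finset L) (p q : L → ℤ) (x y : L) : Prop where
  hx : x ∈ S
  hy : y ∈ S
  lt : p x < p y
  np : ∀ z ∈ S, ¬ (p x < p z ∧ p z < p y)
  n1 : ∀ z ∈ S, ¬ (q x < q z ∧ q z < q y)
  n2 : ∀ z ∈ S, ¬ (q y < q z ∧ q z < q x)

lemma Adj.compl {S : Finset L} {p q : L → ℤ} {x y : L} (h : Adj S p q x y) : Adj S p (-q) x y := by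
  refine ⟨h.hx, h.hy, h.lt, h.np, ?_, ?_⟩
  · intro z hz hcon
    have := h.n2 z hz
    simp only [Pi.neg_apply] at hcon
    omega
  · intro z hz hcon
    have := h.n1 z hz
    simp only [Pi.neg_apply] at hcon
    omega

lemma Adj.compl' {S : Finset L} {p q : L → ℤ} {x y : L} (h : Adj S p (-q) x y) : Adj S p q x y := by
  have := h.compl
  rwa [neg_neg] at this

open Classical in
/-- The letters which are not the second letter of a twin. -/
noncomputable def TT (S : Finset L) (p q : L → ℤ) : Finset L :=
  S.filter (fun y => ∀ x, ¬ Adj S p q x y)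

lemma mem_TT {S : Finset L} {p q : L → ℤ} {y : L} :
    y ∈ TT S p q ↔ y ∈ S ∧ ∀ x, ¬ Adj S p q x y := by
  simp [TT]

lemma TT_compl (S : Finset L) (p q : L → ℤ) : TT S p (-q) = TT S p q := by
  ext y
  rw [mem_TT, mem_TT]
  exact ⟨fun h => ⟨h.1, fun x hx => h.2 x hx.compl⟩, fun h => ⟨h.1, fun x hx => h.2 x hx.compl'⟩⟩

/-- `z` is in the run of `t`. -/
structure Run (S : Finset L) (p q : L → ℤ) (t z : L) : Prop where
  ht : t ∈ TT S p q
  hz : z ∈ S
  le : p t ≤ p z
  no : ∀ w ∈ S, p t < p w → p w ≤ p z → w ∉ TT S p q

lemma Run.compl {S : Finset L} {p q : L → ℤ} {t z : L} (h : Run S p q t z) :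
    Run S p (-q) t z :=
  ⟨by rw [TT_compl]; exact h.ht, h.hz, h.le, by rw [TT_compl]; exact h.no⟩

section

variable {S : Finset L} {p q : L → ℤ} (hp : Function.Injective p) (hq : Function.Injective q)

include hp hq

/-- Runs are monotone and are intervals of values. -/
lemma run_mono : ∀ (n : ℕ) (t w : L), Run S p q t w →
    (S.filter (fun z => p t < p z ∧ p z ≤ p w)).card ≤ n →
    ((∀ z ∈ S, ∀ z' ∈ S, p t ≤ p z → p z < p z' → p z' ≤ p w → q z < q z') ∧
      (∀ z ∈ S, q t ≤ q z → q z ≤ q w → p t ≤ p z ∧ p z ≤ p w) ∧ q t ≤ q w) ∨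
    ((∀ z ∈ S, ∀ z' ∈ S, p t ≤ p z → p z < p z' → p z' ≤ p w → q z' < q z) ∧
      (∀ z ∈ S, q w ≤ q z → q z ≤ q t → p t ≤ p z ∧ p z ≤ p w) ∧ q w ≤ q t) := by
  intro n
  induction n with
  | zero =>
    intro t w h hn
    have htS := (mem_TT.mp h.ht).1
    have hwt : w = t := by
      by_contra hne
      have h1 : p t ≠ p w := fun e => hne (hp e).symm
      have h2 := h.le
      have h3 : w ∈ S.filter (fun z => p t < p z ∧ p z ≤ p w) :=
        Finset.mem_filter.mpr ⟨h.hz, by omega, le_refl _⟩
      have h4 := Finset.card_pos.mpr ⟨w, h3⟩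
      omega
    subst hwt
    left
    refine ⟨?_, ?_, le_refl _⟩
    · intro z hz z' hz' h1 h2 h3
      omega
    · intro z hz h1 h2
      have : z = w := hq (le_antisymm h2 h1)
      subst this
      exact ⟨le_refl _, le_refl _⟩
  | succ n ih =>
    intro t w h hn
    have htS := (mem_TT.mp h.ht).1
    by_cases hwt : w = t
    · subst hwt
      left
      refine ⟨?_, ?_, le_refl _⟩
      · intro z hz z' hz' h1 h2 h3
        omega
      · intro z hz h1 h2
        have : z = w := hq (le_antisymm h2 h1)
        subst this
        exact ⟨le_refl _, le_refl _⟩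
    have h1 : p t ≠ p w := fun e => hwt (hp e).symm
    have h2 := h.le
    have hwT := h.no w h.hz (by omega) (le_refl _)
    obtain ⟨v, hv⟩ : ∃ v, Adj S p q v w := by
      by_contra hcon
      exact hwT (mem_TT.mpr ⟨h.hz, fun x hx => hcon ⟨x, hx⟩⟩)
    have hvt : p t ≤ p v := by
      by_contra hcon
      exact hv.np t htS (by omega)
    have hvw := hv.lt
    have hrv : Run S p q t v := ⟨h.ht, hv.hx, hvt, fun z hz h3 h4 => h.no z hz h3 (by omega)⟩
    have hcard : (S.filter (fun z => p t < p z ∧ p z ≤ p v)).card ≤ n := by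
      refine Nat.le_of_lt_succ (lt_of_lt_of_le (Finset.card_lt_card ?_) hn)
      rw [Finset.ssubset_iff_of_subset]
      · exact ⟨w, Finset.mem_filter.mpr ⟨h.hz, by omega, le_refl _⟩, by
          simp only [Finset.mem_filter, not_and, not_le]
          intro _ _
          exact hvw⟩
      · intro z hz
        rw [Finset.mem_filter] at hz ⊢
        exact ⟨hz.1, hz.2.1, by omega⟩
    have hpos : ∀ z ∈ S, p z ≤ p w → p v < p z → z = w := by
      intro z hz h3 h4
      by_contra hne
      have h5 : p z ≠ p w := fun e => hne (hp e)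
      exact hv.np z hz ⟨h4, by omega⟩
    have hqvw : q v ≠ q w := fun e => by
      have := hq e
      subst this
      omega
    by_cases hvt' : v = t
    · subst hvt'
      rcases lt_or_gt_of_ne hqvw with h3 | h3
      · left
        refine ⟨?_, ?_, h3.le⟩
        · intro z hz z' hz' h4 h5 h6
          have h7 := hpos z' hz' h6 (by omega)
          subst h7
          have h8 : z = v := by
            by_contra hne
            have h9 : p z ≠ p v := fun e => hne (hp e)
            exact hv.np z hz ⟨by omega, h5⟩
          subst h8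
          exact h3
        · intro z hz h4 h5
          have h6 := hv.n1 z hz
          by_cases h7 : q z = q v
          · have := hq h7
            subst this
            omega
          · have : q z = q w := by omega
            have := hq this
            subst this
            omega
      · right
        refine ⟨?_, ?_, h3.le⟩
        · intro z hz z' hz' h4 h5 h6
          have h7 := hpos z' hz' h6 (by omega)
          subst h7
          have h8 : z = v := by
            by_contra hne
            have h9 : p z ≠ p v := fun e => hne (hp e)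
            exact hv.np z hz ⟨by omega, h5⟩
          subst h8
          exact h3
        · intro z hz h4 h5
          have h6 := hv.n2 z hz
          by_cases h7 : q z = q v
          · have := hq h7
            subst this
            omega
          · have : q z = q w := by omega
            have := hq this
            subst this
            omega
    · have h3 : p t ≠ p v := fun e => hvt' (hp e).symm
      have hvT := h.no v hv.hx (by omega) (by omega)
      obtain ⟨u, hu⟩ : ∃ u, Adj S p q u v := by
        by_contra hcon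
        exact hvT (mem_TT.mpr ⟨hv.hx, fun x hx => hcon ⟨x, hx⟩⟩)
      have hut : p t ≤ p u := by
        by_contra hcon
        exact hu.np t htS (by omega)
      have huv := hu.lt
      have hwu : q w ≠ q u := fun e => by
        have := hq e
        subst this
        omega
      have e1 := hu.n1 w h.hz
      have e2 := hu.n2 w h.hz
      have e3 := hv.n1 u hu.hx
      have e4 := hv.n2 u hu.hx
      rcases ih t v hrv hcard with ⟨i1, i2, i3⟩ | ⟨i1, i2, i3⟩
      · left
        have e5 := i1 u hu.hx v hv.hx hut huv (le_refl _)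
        have e6 : q v < q w := by omega
        refine ⟨?_, ?_, by omega⟩
        · intro z hz z' hz' h4 h5 h6
          by_cases h7 : p z' ≤ p v
          · exact i1 z hz z' hz' h4 h5 h7
          · have h8 := hpos z' hz' h6 (by omega)
            subst h8
            by_cases h9 : p z < p v
            · exact (i1 z hz v hv.hx h4 h9 (le_refl _)).trans e6
            · have h10 : z = v := by
                by_contra hne
                have h11 : p z ≠ p v := fun e => hne (hp e)
                exact hv.np z hz ⟨by omega, h5⟩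
              subst h10
              exact e6
        · intro z hz h4 h5
          by_cases h6 : q z ≤ q v
          · have := i2 z hz h4 h6
            omega
          · have h7 := hv.n1 z hz
            have : q z = q w := by omega
            have := hq this
            subst this
            omega
      · right
        have e5 := i1 u hu.hx v hv.hx hut huv (le_refl _)
        have e6 : q w < q v := by omega
        refine ⟨?_, ?_, by omega⟩
        · intro z hz z' hz' h4 h5 h6
          by_cases h7 : p z' ≤ p v
          · exact i1 z hz z' hz' h4 h5 h7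
          · have h8 := hpos z' hz' h6 (by omega)
            subst h8
            by_cases h9 : p z < p v
            · exact e6.trans (i1 z hz v hv.hx h4 h9 (le_refl _))
            · have h10 : z = v := by
                by_contra hne
                have h11 : p z ≠ p v := fun e => hne (hp e)
                exact hv.np z hz ⟨by omega, h5⟩
              subst h10
              exact e6
        · intro z hz h4 h5
          by_cases h6 : q v ≤ q z
          · have := i2 z hz h6 h5
            omega
          · have h7 := hv.n2 z hz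
            have : q z = q w := by omega
            have := hq this
            subst this
            omega

lemma run_m {t w : L} (h : Run S p q t w) :
    ((∀ z ∈ S, ∀ z' ∈ S, p t ≤ p z → p z < p z' → p z' ≤ p w → q z < q z') ∧
      (∀ z ∈ S, q t ≤ q z → q z ≤ q w → p t ≤ p z ∧ p z ≤ p w) ∧ q t ≤ q w) ∨
    ((∀ z ∈ S, ∀ z' ∈ S, p t ≤ p z → p z < p z' → p z' ≤ p w → q z' < q z) ∧
      (∀ z ∈ S, q w ≤ q z → q z ≤ q t → p t ≤ p z ∧ p z ≤ p w) ∧ q w ≤ q t) :=
  run_mono hp hq _ t w h (le_refl _)

/-- Every letter is in a run. -/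
lemma exists_run {z : L} (hz : z ∈ S) : ∃ t, Run S p q t z := by
  classical
  have h1 : ((TT S p q).filter (fun t => p t ≤ p z)).Nonempty := by
    obtain ⟨m, hm, hmin⟩ := Finset.exists_min_image S p ⟨z, hz⟩
    refine ⟨m, Finset.mem_filter.mpr ⟨mem_TT.mpr ⟨hm, fun x hx => ?_⟩, hmin z hz⟩⟩
    have := hmin x hx.hx
    have := hx.lt
    omega
  obtain ⟨t, ht, hmax⟩ := Finset.exists_max_image _ p h1
  rw [Finset.mem_filter] at ht
  refine ⟨t, ht.1, hz, ht.2, ?_⟩
  intro w hw h2 h3 h4
  have := hmax w (Finset.mem_filter.mpr ⟨h4, h3⟩)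
  omega

/-- The second letter of a run. -/
lemma exists_succ {t w : L} (h : Run S p q t w) (hne : w ≠ t) :
    ∃ c, Adj S p q t c ∧ p c ≤ p w := by
  classical
  have h0 : p t < p w := lt_of_le_of_ne h.le (fun e => hne (hp e).symm)
  have h1 : (S.filter (fun z => p t < p z)).Nonempty :=
    ⟨w, Finset.mem_filter.mpr ⟨h.hz, h0⟩⟩
  obtain ⟨c, hc, hmin⟩ := Finset.exists_min_image _ p h1
  rw [Finset.mem_filter] at hc
  have h2 : p c ≤ p w := hmin w (Finset.mem_filter.mpr ⟨h.hz, h0⟩)
  have hcT := h.no c hc.1 hc.2 h2
  obtain ⟨v, hv⟩ : ∃ v, Adj S p q v c := by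
    by_contra hcon
    exact hcT (mem_TT.mpr ⟨hc.1, fun x hx => hcon ⟨x, hx⟩⟩)
  have htS := (mem_TT.mp h.ht).1
  have h3 : p t ≤ p v := by
    by_contra hcon
    exact hv.np t htS (by omega)
  have h4 : v = t := by
    by_contra hne'
    have h5 : p v ≠ p t := fun e => hne' (hp e)
    have h6 := hmin v (Finset.mem_filter.mpr ⟨hv.hx, by omega⟩)
    have := hv.lt
    omega
  subst h4
  exact ⟨c, hv, h2⟩

/-- A run with a descending first twin is descending, and its letters have sign `+`. -/
lemma run_desc {sg : L → Bool} (hpd : ∀ x y, Adj S p q x y → q y < q x → sg x = true ∧ sg y = true)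
    {t c w : L} (hc : Adj S p q t c) (hct : q c < q t) (h : Run S p q t w) : sg w = true := by
  by_cases hwt : w = t
  · subst hwt
    exact (hpd _ _ hc hct).1
  · have htS := (mem_TT.mp h.ht).1
    have h0 : p t < p w := lt_of_le_of_ne h.le (fun e => hwt (hp e).symm)
    have hwT := h.no w h.hz h0 (le_refl _)
    obtain ⟨v, hv⟩ : ∃ v, Adj S p q v w := by
      by_contra hcon
      exact hwT (mem_TT.mpr ⟨h.hz, fun x hx => hcon ⟨x, hx⟩⟩)
    have hvt : p t ≤ p v := by
      by_contra hcon
      exact hv.np t htS (by omega)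
    have hcw : p c ≤ p w := by
      by_contra hcon
      exact hc.np w h.hz (by omega)
    rcases run_m hp hq h with ⟨i1, -, -⟩ | ⟨i1, -, -⟩
    · have := i1 t htS c hc.hy (le_refl _) hc.lt hcw
      omega
    · exact (hpd v w hv (i1 v hv.hx w h.hz hvt hv.lt (le_refl _))).2

end

/-- `a` and `b` are neighbours among the letters of `TT`, `a` is before `b`. -/
structure TTw (S : Finset L) (p q : L → ℤ) (a b : L) : Prop where
  ha : a ∈ TT S p q
  hb : b ∈ TT S p q
  lt : p a < p b
  np : ∀ z ∈ TT S p q, ¬ (p a < p z ∧ p z < p b)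
  n1 : ∀ z ∈ TT S p q, ¬ (q a < q z ∧ q z < q b)
  n2 : ∀ z ∈ TT S p q, ¬ (q b < q z ∧ q z < q a)

lemma TTw.compl {S : Finset L} {p q : L → ℤ} {a b : L} (h : TTw S p q a b) :
    TTw S p (-q) a b := by
  refine ⟨by rw [TT_compl]; exact h.ha, by rw [TT_compl]; exact h.hb, h.lt,
    by rw [TT_compl]; exact h.np, ?_, ?_⟩
  · intro z hz hcon
    rw [TT_compl] at hz
    have := h.n2 z hz
    simp only [Pi.neg_apply] at hcon
    omega
  · intro z hz hcon
    rw [TT_compl] at hz
    have := h.n1 z hz
    simp only [Pi.neg_apply] at hcon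
    omega

section

variable {S : Finset L} {p q : L → ℤ} (hp : Function.Injective p) (hq : Function.Injective q)

include hp hq

/-- Letters between `a` and `b` in value are in one of the two runs. -/
lemma TTw.between {a b z : L} (h : TTw S p q a b) (hab : q a < q b) (hz : z ∈ S)
    (h1 : q a < q z) (h2 : q z < q b) : Run S p q a z ∨ Run S p q b z := by
  obtain ⟨t, ht⟩ := exists_run hp hq hz
  by_cases hta : t = a
  · subst hta
    exact Or.inl ht
  by_cases htb : t = b
  · subst htb
    exact Or.inr ht
  exfalso
  have k1 : q t ≠ q a := fun e => hta (hq e)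
  have k2 : q t ≠ q b := fun e => htb (hq e)
  have k3 := h.n1 t ht.ht
  have haS := (mem_TT.mp h.ha).1
  have hbS := (mem_TT.mp h.hb).1
  have no : ∀ w ∈ TT S p q, w ≠ t → ¬ (p t ≤ p w ∧ p w ≤ p z) := by
    intro w hw hwt hcon
    have : p t ≠ p w := fun e => hwt (hp e).symm
    exact ht.no w (mem_TT.mp hw).1 (by omega) hcon.2 hw
  rcases run_m hp hq ht with ⟨-, i2, i3⟩ | ⟨-, i2, i3⟩
  · by_cases k4 : q t < q a
    · exact no a h.ha (fun e => hta e.symm) (i2 a haS k4.le h1.le)
    · omega
  · by_cases k4 : q b < q t
    · exact no b h.hb (fun e => htb e.symm) (i2 b hbS h2.le k4.le)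
    · omega

/-- Letters between `a` and `b` in position are in the run of `a`. -/
lemma TTw.run_of_pos {a b z : L} (h : TTw S p q a b) (hz : z ∈ S) (h1 : p a ≤ p z)
    (h2 : p z < p b) : Run S p q a z := by
  refine ⟨h.ha, hz, h1, ?_⟩
  intro w hw h3 h4 h5
  exact h.np w h5 ⟨h3, by omega⟩

/-- The run of `b` is above `a`. -/
lemma TTw.above {a b z : L} (h : TTw S p q a b) (hab : q a < q b) (hz : Run S p q b z) :
    q a < q z := by
  by_contra hcon
  have haS := (mem_TT.mp h.ha).1
  have hlt := h.lt
  rcases run_m hp hq hz with ⟨-, i2, i3⟩ | ⟨-, i2, i3⟩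
  · omega
  · have := i2 a haS (by omega) hab.le
    omega

/-- The run of `a` is below `b`. -/
lemma TTw.below {a b z : L} (h : TTw S p q a b) (hab : q a < q b) (hz : Run S p q a z) :
    q z < q b := by
  by_contra hcon
  have hbS := (mem_TT.mp h.hb).1
  have hlt := h.lt
  have hzb : p z < p b := by
    by_contra hcon'
    exact hz.no b hbS hlt (by omega) h.hb
  rcases run_m hp hq hz with ⟨-, i2, i3⟩ | ⟨-, i2, i3⟩
  · have := i2 b hbS hab.le (by omega)
    omega
  · omega

/-- One of the two runs has a descending twin at its beginning. -/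
lemma TTw.exists_desc {a b : L} (h : TTw S p q a b) (hab : q a < q b) :
    (∃ c, Adj S p q a c ∧ q c < q a) ∨ ∃ c, Adj S p q b c ∧ q c < q b := by
  classical
  by_contra hcon
  rw [not_or] at hcon
  obtain ⟨ca, cb⟩ := hcon
  have haS := (mem_TT.mp h.ha).1
  have hbS := (mem_TT.mp h.hb).1
  have hlt := h.lt
  have h1 : (S.filter (fun z => p z < p b)).Nonempty :=
    ⟨a, Finset.mem_filter.mpr ⟨haS, hlt⟩⟩
  obtain ⟨l, hl, hmax⟩ := Finset.exists_max_image _ p h1
  rw [Finset.mem_filter] at hl
  have hal : p a ≤ p l := hmax a (Finset.mem_filter.mpr ⟨haS, hlt⟩)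
  have hrl := h.run_of_pos hp hq hl.1 hal hl.2
  have hlb : q l < q b := h.below hp hq hab hrl
  -- the runs are ascending
  have ua : ∀ z, Run S p q a z → z ≠ a →
      (∀ w ∈ S, ∀ w' ∈ S, p a ≤ p w → p w < p w' → p w' ≤ p z → q w < q w') := by
    intro z hz hza
    obtain ⟨c, hc, hcz⟩ := exists_succ hp hq hz hza
    rcases run_m hp hq hz with ⟨i1, -, -⟩ | ⟨i1, -, -⟩
    · exact i1
    · exact absurd ⟨c, hc, i1 a haS c hc.hy (le_refl _) hc.lt hcz⟩ ca
  have ub : ∀ z, Run S p q b z → z ≠ b →
      (∀ w ∈ S, ∀ w' ∈ S, p b ≤ p w → p w < p w' → p w' ≤ p z → q w < q w') := by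
    intro z hz hza
    obtain ⟨c, hc, hcz⟩ := exists_succ hp hq hz hza
    rcases run_m hp hq hz with ⟨i1, -, -⟩ | ⟨i1, -, -⟩
    · exact i1
    · exact absurd ⟨c, hc, i1 b hbS c hc.hy (le_refl _) hc.lt hcz⟩ cb
  have hqal : q a ≤ q l := by
    by_cases hla : l = a
    · rw [hla]
    · have h2 : p a ≠ p l := fun e => hla (hp e).symm
      exact (ua l hrl hla a haS l hl.1 (le_refl _) (by omega) (le_refl _)).le
  refine (mem_TT.mp h.hb).2 l ⟨hl.1, hbS, hl.2, ?_, ?_, ?_⟩
  · intro z hz h2
    have := hmax z (Finset.mem_filter.mpr ⟨hz, h2.2⟩)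
    omega
  · intro z hz h2
    rcases h.between hp hq hab hz (by omega) h2.2 with h3 | h3
    · have h4 : p z < p b := by
        by_contra hcon'
        exact h3.no b hbS hlt (by omega) h.hb
      have h5 := hmax z (Finset.mem_filter.mpr ⟨hz, h4⟩)
      by_cases h6 : z = l
      · subst h6
        omega
      · have h7 : p z ≠ p l := fun e => h6 (hp e)
        by_cases h8 : l = a
        · subst h8
          have := h3.le
          omega
        · have := ua l hrl h8 z hz l hl.1 h3.le (by omega) (le_refl _)
          omega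
    · have h4 : z ≠ b := by
        rintro rfl
        omega
      have h5 : p b ≠ p z := fun e => h4 (hp e).symm
      have h6 := h3.le
      have := ub z h3 h4 b hbS z hz (le_refl _) (by omega) (le_refl _)
      omega
  · intro z hz h2
    omega

/-- The main step, ascending case: some descending twin satisfies the criterion. -/
lemma TTw.good {a b : L} (h : TTw S p q a b) (hab : q a < q b) {sg : L → Bool}
    (hpd : ∀ x y, Adj S p q x y → q y < q x → sg x = true ∧ sg y = true) :
    ∃ x y, Adj S p q x y ∧ q y < q x ∧
      (∀ u ∈ S, sg u = false → ¬ Iso S p q x y u) ∧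
      (∀ u ∈ S, sg u = false → ¬ Iso S (-p) (-q) y x u) ∧
      ∃ z ∈ S, (p z < p x ∧ q z < q y) ∨ (p y < p z ∧ q x < q z) := by
  have haS := (mem_TT.mp h.ha).1
  have hbS := (mem_TT.mp h.hb).1
  have hlt := h.lt
  rcases h.exists_desc hp hq hab with ⟨c, hc, hca⟩ | ⟨c, hc, hcb⟩
  · have hcS := hc.hy
    have hac := hc.lt
    have hcb : c ≠ b := by
      rintro rfl
      omega
    have hcb' : p c < p b := by
      have : p c ≠ p b := fun e => hcb (hp e)
      by_contra hcon
      exact hc.np b hbS ⟨hlt, by omega⟩
    refine ⟨a, c, hc, hca, ?_, ?_, b, hbS, Or.inr ⟨hcb', hab⟩⟩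
    · rintro u hu su ⟨g1, g2, g3, g4⟩
      have hub : u ≠ b := by
        rintro rfl
        omega
      have hub' : p u ≠ p b := fun e => hub (hp e)
      by_cases k1 : p b < p u
      · have := g4 b hbS hcb' k1
        omega
      · have k2 := h.run_of_pos hp hq hu (by omega) (by omega : p u < p b)
        have := run_desc hp hq hpd hc hca k2
        rw [su] at this
        cases this
    · rintro u hu su ⟨g1, g2, g3, g4⟩
      simp only [Pi.neg_apply] at g1 g2 g3 g4
      have hub : u ≠ b := by
        rintro rfl
        omega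
      have hub' : q u ≠ q b := fun e => hub (hq e)
      by_cases k1 : q b < q u
      · have := g3 b hbS (by omega) (by omega)
        omega
      · rcases h.between hp hq hab hu (by omega) (by omega) with k2 | k2
        · have := k2.le
          omega
        · have := k2.le
          omega
  · have hcS := hc.hy
    have hbc := hc.lt
    have hrc : Run S p q b c := by
      refine ⟨h.hb, hcS, hbc.le, ?_⟩
      intro w hw h1 h2 h3
      by_cases h4 : w = c
      · subst h4
        exact (mem_TT.mp h3).2 b hc
      · have h5 : p w ≠ p c := fun e => h4 (hp e)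
        exact hc.np w hw ⟨h1, by omega⟩
    have hac : q a < q c := h.above hp hq hab hrc
    refine ⟨b, c, hc, hcb, ?_, ?_, a, haS, Or.inl ⟨hlt, hac⟩⟩
    · rintro u hu su ⟨g1, g2, g3, g4⟩
      have hua : u ≠ a := by
        rintro rfl
        omega
      have hua' : q u ≠ q a := fun e => hua (hq e)
      by_cases k1 : q u < q a
      · have := g3 a haS k1 hac
        omega
      · rcases h.between hp hq hab hu (by omega) (by omega) with k2 | k2
        · exact k2.no b hbS hlt (by omega) h.hb
        · have := run_desc hp hq hpd hc hcb k2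
          rw [su] at this
          cases this
    · rintro u hu su ⟨g1, g2, g3, g4⟩
      simp only [Pi.neg_apply] at g1 g2 g3 g4
      have hua : u ≠ a := by
        rintro rfl
        omega
      have hua' : p u ≠ p a := fun e => hua (hp e)
      by_cases k1 : p u < p a
      · have := g4 a haS (by omega) (by omega)
        omega
      · have k2 := h.run_of_pos hp hq hu (by omega) (by omega : p u < p b)
        have := h.below hp hq hab k2
        omega

/-- **Separable permutations.**  If all twins are pure then `S` is one letter, or one ascending run,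
or some twin satisfies the criterion. -/
theorem sep (hT : S_TWIN) (hne : S.Nonempty)
    (hocc : ∀ a ∈ S, ∀ b ∈ S, ∀ c ∈ S, ∀ d ∈ S, ¬ Occ p q a b c d) {sg : L → Bool}
    (hpa : ∀ x y, Adj S p q x y → q x < q y → sg x = false ∧ sg y = false)
    (hpd : ∀ x y, Adj S p q x y → q y < q x → sg x = true ∧ sg y = true) :
    (∃ a ∈ S, ∀ x ∈ S, x ≠ a → p a < p x ∧ q a < q x) ∨
    (∃ x y, Adj S p q x y ∧ q y < q x ∧
      (∀ u ∈ S, sg u = false → ¬ Iso S p q x y u) ∧
      (∀ u ∈ S, sg u = false → ¬ Iso S (-p) (-q) y x u)) ∨
    (∃ x y, Adj S p q x y ∧ q x < q y ∧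
      (∀ u ∈ S, sg u = true → ¬ Iso S p (-q) x y u) ∧
      (∀ u ∈ S, sg u = true → ¬ Iso S (-p) q y x u) ∧ NE S p q x y) := by
  classical
  have hnT : (TT S p q).Nonempty := by
    obtain ⟨z, hz⟩ := hne
    obtain ⟨t, ht⟩ := exists_run hp hq hz
    exact ⟨t, ht.ht⟩
  by_cases hc : 2 ≤ (TT S p q).card
  · -- a twin of `TT`
    have hB : Blk (TT S p q) p q (TT S p q) :=
      ⟨Finset.Subset.refl _, fun a _ b _ z hz hz' => absurd hz hz'⟩
    obtain ⟨x, hx, y, hy, hxy, h1⟩ := hT L (TT S p q) (TT S p q) p q hp hq hB hc
      (fun a ha b hb c hc' d hd => hocc a (mem_TT.mp ha).1 b (mem_TT.mp hb).1 c (mem_TT.mp hc').1 d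
        (mem_TT.mp hd).1)
    have key : ∀ a b, a ∈ TT S p q → b ∈ TT S p q → p a < p b →
        Blk (TT S p q) p q {a, b} → TTw S p q a b := by
      intro a b ha hb hab hBl
      have h2 : ∀ z ∈ TT S p q, z ≠ a → z ≠ b →
          ¬ (p a < p z ∧ p z < p b) ∧ ¬ (q a < q z ∧ q z < q b) ∧ ¬ (q b < q z ∧ q z < q a) := by
        intro z hz h3 h4
        have h5 : z ∉ ({a, b} : Finset L) := by simp [h3, h4]
        have h6 := hBl.2 a (by simp) b (by simp) z hz h5
        have h7 := hBl.2 b (by simp) a (by simp) z hz h5
        exact ⟨h6.1, h6.2, h7.2⟩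
      refine ⟨ha, hb, hab, ?_, ?_, ?_⟩
      · intro z hz hcon
        refine (h2 z hz ?_ ?_).1 hcon
        · rintro rfl
          omega
        · rintro rfl
          omega
      · intro z hz hcon
        refine (h2 z hz ?_ ?_).2.1 hcon
        · rintro rfl
          omega
        · rintro rfl
          omega
      · intro z hz hcon
        refine (h2 z hz ?_ ?_).2.2 hcon
        · rintro rfl
          omega
        · rintro rfl
          omega
    obtain ⟨a, b, hab⟩ : ∃ a b, TTw S p q a b := by
      rcases lt_or_gt_of_ne (fun e => hxy (hp e) : p x ≠ p y) with h2 | h2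
      · exact ⟨x, y, key x y hx hy h2 h1⟩
      · exact ⟨y, x, key y x hy hx h2 (by rwa [Finset.pair_comm])⟩
    have hne' : q a ≠ q b := fun e => by
      have := hq e
      subst this
      exact lt_irrefl _ hab.lt
    rcases lt_or_gt_of_ne hne' with h2 | h2
    · obtain ⟨x, y, h3, h4, h5, h6, -⟩ := hab.good hp hq h2 hpd
      exact Or.inr (Or.inl ⟨x, y, h3, h4, h5, h6⟩)
    · have hq' : Function.Injective (-q) := inj_neg hq
      obtain ⟨x, y, h3, h4, h5, h6, z, hz, h7⟩ := hab.compl.good (sg := fun w => !sg w) hp hq'
        (by simp only [Pi.neg_apply]; omega) (by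
          intro x y h3 h4
          simp only [Pi.neg_apply] at h4
          have := hpa x y h3.compl' (by omega)
          simp [this.1, this.2])
      simp only [Pi.neg_apply] at h4 h7
      refine Or.inr (Or.inr ⟨x, y, h3.compl', by omega, ?_, ?_, z, hz, ?_⟩)
      · intro u hu su
        exact h5 u hu (by simp [su])
      · intro u hu su
        have := h6 u hu (by simp [su])
        rwa [neg_neg] at this
      · omega
  · -- one run
    have hc1 : (TT S p q).card = 1 := by
      have := Finset.card_pos.mpr hnT
      omega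
    obtain ⟨t, ht⟩ := Finset.card_eq_one.mp hc1
    have hrun : ∀ z ∈ S, Run S p q t z := by
      intro z hz
      obtain ⟨t', ht'⟩ := exists_run hp hq hz
      have := ht'.ht
      rw [ht, Finset.mem_singleton] at this
      rwa [this] at ht'
    have htS : t ∈ S := (mem_TT.mp (by rw [ht]; simp)).1
    by_cases h1 : ∃ c, Adj S p q t c ∧ q c < q t
    · obtain ⟨c, hc2, hc3⟩ := h1
      refine Or.inr (Or.inl ⟨t, c, hc2, hc3, ?_, ?_⟩)
      · intro u hu su
        have := run_desc hp hq hpd hc2 hc3 (hrun u hu)
        rw [su] at this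
        cases this
      · intro u hu su
        have := run_desc hp hq hpd hc2 hc3 (hrun u hu)
        rw [su] at this
        cases this
    · left
      refine ⟨t, htS, ?_⟩
      intro x hx hxt
      have h2 := hrun x hx
      have h3 : p t ≠ p x := fun e => hxt (hp e).symm
      have h4 := h2.le
      refine ⟨by omega, ?_⟩
      obtain ⟨c, hc2, hcx⟩ := exists_succ hp hq h2 hxt
      rcases run_m hp hq h2 with ⟨i1, -, -⟩ | ⟨i1, -, -⟩
      · exact i1 t htS x hx (le_refl _) (by omega) (le_refl _)
      · exact absurd ⟨c, hc2, i1 t htS c hc2.hy (le_refl _) hc2.lt hcx⟩ h1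

end

end Pool.GSP.Sep
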