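import Pool.Agent.ROS.Stmts
import Pool.Agent.GSP.Lift
import Pool.Agent.GSP.A1

/-!
MP_7b7176_co, ROAD S: the colour induction (3) of helper14.

`Clr`: a colouring of the gaps with colours `{m, m + 1}` at both ends of every letter, `N` at `r_1`
and `1` at `r_2`.  `sum29`: if `S` has no good `D` then `N ≤ 2` or `S` is a direct sum.
-/

set_option autoImplicit false
set_option linter.unusedSectionVars false

namespace Pool.GS

open Pool.GOD

namespace S29

open SP

variable {Λ : Type} [Fintype Λ] [DecidableEq Λ] (sp : SP Λ)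

/-- `p` and `l` are neighbours in both keys. -/
def Nb (S : Finset Λ) (p l : Λ) : Prop := ∀ i, ∀ z ∈ S,
  ¬(sp.k i p < sp.k i z ∧ sp.k i z < sp.k i l) ∧ ¬(sp.k i l < sp.k i z ∧ sp.k i z < sp.k i p)

/-- An arc of `S - l` which passes `l`: the two arcs of `S`. -/
lemma cons_split {i : Bool} {S : Finset Λ} {l : Λ} {a b : Option Λ} (hl : l ∈ S)
    (hc : sp.Cons i (S.erase l) a b) (h1 : lt (sp.k i) a (some l)) (h2 : lt (sp.k i) (some l) b) :
    sp.Cons i S a (some l) ∧ sp.Cons i S (some l) b := by
  have hins : ∀ a, a ∈ Finset.insertNone (S.erase l) → a ∈ Finset.insertNone S := by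
    intro a ha
    rcases a with _ | a
    · exact none_ins
    · exact mem_ins.mpr (Finset.mem_of_mem_erase (mem_ins.mp ha))
  refine ⟨⟨hins a hc.1, mem_ins.mpr hl, h1, ?_⟩, ⟨mem_ins.mpr hl, hins b hc.2.1, h2, ?_⟩⟩
  · rintro z hz ⟨h3, h4⟩
    have hne : z ≠ l := by rintro rfl; simp at h4
    exact hc.2.2.2 z (Finset.mem_erase.mpr ⟨hne, hz⟩) ⟨h3, lt_trans' h4 h2⟩
  · rintro z hz ⟨h3, h4⟩
    have hne : z ≠ l := by rintro rfl; simp at h3
    exact hc.2.2.2 z (Finset.mem_erase.mpr ⟨hne, hz⟩) ⟨lt_trans' h1 h3, h4⟩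

/-- An arc of `S - l` which does not pass `l` is an arc of `S`. -/
lemma cons_of_erase {i : Bool} {S : Finset Λ} {l : Λ} {a b : Option Λ}
    (hc : sp.Cons i (S.erase l) a b) (h : ¬(lt (sp.k i) a (some l) ∧ lt (sp.k i) (some l) b)) :
    sp.Cons i S a b := by
  have hins : ∀ a, a ∈ Finset.insertNone (S.erase l) → a ∈ Finset.insertNone S := by
    intro a ha
    rcases a with _ | a
    · exact none_ins
    · exact mem_ins.mpr (Finset.mem_of_mem_erase (mem_ins.mp ha))
  refine ⟨hins a hc.1, hins b hc.2.1, hc.2.2.1, ?_⟩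
  intro z hz hh
  by_cases hne : z = l
  · subst hne; exact h hh
  · exact hc.2.2.2 z (Finset.mem_erase.mpr ⟨hne, hz⟩) hh

lemma ne_of_cons_erase_left {i : Bool} {S : Finset Λ} {l : Λ} {a b : Option Λ}
    (hc : sp.Cons i (S.erase l) a b) : a ≠ some l := by
  rintro rfl
  have := mem_ins.mp hc.1
  simp at this

lemma ne_of_cons_erase_right {i : Bool} {S : Finset Λ} {l : Λ} {a b : Option Λ}
    (hc : sp.Cons i (S.erase l) a b) : b ≠ some l := by
  rintro rfl
  have := mem_ins.mp hc.2.1
  simp at this

/-- An arc of `S - l` passing `l`: if the neighbour `p` of `l` is before `l` then it starts at `p`. -/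
lemma cons_thru_left {i : Bool} {S : Finset Λ} {p l : Λ} {a b : Option Λ} (hp : p ∈ S)
    (hpl : p ≠ l) (hn : Nb sp S p l) (hc : sp.Cons i (S.erase l) a b)
    (h1 : lt (sp.k i) a (some l)) (h2 : lt (sp.k i) (some l) b) (hE : sp.k i p < sp.k i l) :
    a = some p := by
  have hp' : p ∈ S.erase l := Finset.mem_erase.mpr ⟨hpl, hp⟩
  have h3 : ¬(lt (sp.k i) a (some p)) := by
    intro h
    exact hc.2.2.2 p hp' ⟨h, lt_trans' (by simpa using hE) h2⟩
  rcases a with _ | a
  · simp at h3
  · rw [lt_some] at h3 h1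
    have ha : a ∈ S := Finset.mem_of_mem_erase (mem_ins.mp hc.1)
    by_contra hne
    have hne' : a ≠ p := fun h => hne (by rw [h])
    have := (hn i a ha).1
    have h4 : sp.k i a ≠ sp.k i p := fun h => hne' (sp.inj i h)
    omega

/-- The same with `l` before `p`. -/
lemma cons_thru_right {i : Bool} {S : Finset Λ} {p l : Λ} {a b : Option Λ} (hp : p ∈ S)
    (hpl : p ≠ l) (hn : Nb sp S p l) (hc : sp.Cons i (S.erase l) a b)
    (h1 : lt (sp.k i) a (some l)) (h2 : lt (sp.k i) (some l) b) (hE : sp.k i l < sp.k i p) :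
    b = some p := by
  have hp' : p ∈ S.erase l := Finset.mem_erase.mpr ⟨hpl, hp⟩
  have h3 : ¬(lt (sp.k i) (some p) b) := by
    intro h
    exact hc.2.2.2 p hp' ⟨lt_trans' h1 (by simpa using hE), h⟩
  rcases b with _ | b
  · simp at h3
  · rw [lt_some] at h3 h2
    have hb : b ∈ S := Finset.mem_of_mem_erase (mem_ins.mp hc.2.1)
    by_contra hne
    have hne' : b ≠ p := fun h => hne (by rw [h])
    have := (hn i b hb).2
    have h4 : sp.k i b ≠ sp.k i p := fun h => hne' (sp.inj i h)
    omega

/-- No arc of `S - l` which does not pass `l` starts at `p` if `l` is the next letter. -/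
lemma cons_not_left {i : Bool} {S : Finset Λ} {p l : Λ} {b : Option Λ} (hn : Nb sp S p l)
    (hc : sp.Cons i (S.erase l) (some p) b)
    (h : ¬(lt (sp.k i) (some p) (some l) ∧ lt (sp.k i) (some l) b)) :
    ¬sp.k i p < sp.k i l := by
  intro hE
  apply h
  refine ⟨by simpa using hE, ?_⟩
  by_contra h2
  have hb := ne_of_cons_erase_right sp hc
  rcases b with _ | b
  · simp at h2
  · rw [lt_some] at h2
    have h3 : sp.k i b ≠ sp.k i l := fun h => hb (by rw [sp.inj i h])
    have hlt := hc.2.2.1
    rw [lt_some] at hlt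
    have := (hn i b (Finset.mem_of_mem_erase (mem_ins.mp hc.2.1))).1
    omega

/-- No arc of `S - l` which does not pass `l` ends at `p` if `l` is the letter before `p`. -/
lemma cons_not_right {i : Bool} {S : Finset Λ} {p l : Λ} {a : Option Λ} (hn : Nb sp S p l)
    (hc : sp.Cons i (S.erase l) a (some p))
    (h : ¬(lt (sp.k i) a (some l) ∧ lt (sp.k i) (some l) (some p))) :
    ¬sp.k i l < sp.k i p := by
  intro hE
  apply h
  refine ⟨?_, by simpa using hE⟩
  by_contra h2
  have ha := ne_of_cons_erase_left sp hc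
  rcases a with _ | a
  · simp at h2
  · rw [lt_some] at h2
    have h3 : sp.k i a ≠ sp.k i l := fun h => ha (by rw [sp.inj i h])
    have hlt := hc.2.2.1
    rw [lt_some] at hlt
    have := (hn i a (Finset.mem_of_mem_erase (mem_ins.mp hc.1))).2
    omega

/-- The colour of the `P_i`-arc at the vertex `(x, b)`. -/
def cv (cb ca : Bool → Λ → ℕ) (i : Bool) (x : Λ) (b : Bool) : ℕ :=
  if sp.o i x = b then ca i x else cb i x

/-- A colouring of the arcs: `cb i x` is the colour of the arc of `P_i` before `x`, `ca i x` the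
colour of the arc after `x`. -/
structure Clr (S : Finset Λ) (cb ca : Bool → Λ → ℕ) (N : ℕ) : Prop where
  h0 : ∀ i x, sp.Cons i S none (some x) → cb i x = N
  h1 : ∀ i x, sp.Cons i S (some x) none → ca i x = 1
  h2 : ∀ i x y, sp.Cons i S (some x) (some y) → ca i x = cb i y
  h3 : ∀ x ∈ S, ∃ m, ∀ b : Bool,
    (cv sp cb ca false x b = m ∧ cv sp cb ca true x b = m + 1) ∨
    (cv sp cb ca false x b = m + 1 ∧ cv sp cb ca true x b = m)

/-- The colours at `p` after the removal of `l`. -/
lemma key (E0 E1 op0 op1 ol0 ol1 : Bool) (cbp0 cap0 cbl0 cal0 cbp1 cap1 cbl1 cal1 : ℕ)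
    (hs : op0 = op1 ↔ E0 = E1)
    (g0 : (E0 = true → cap0 = cbl0) ∧ (E0 = false → cbp0 = cal0))
    (g1 : (E1 = true → cap1 = cbl1) ∧ (E1 = false → cbp1 = cal1)) (m m' : ℕ)
    (hp : ∀ b : Bool,
      ((if op0 = b then cap0 else cbp0) = m ∧ (if op1 = b then cap1 else cbp1) = m + 1) ∨
      ((if op0 = b then cap0 else cbp0) = m + 1 ∧ (if op1 = b then cap1 else cbp1) = m))
    (hl : ∀ b : Bool,
      ((if ol0 = b then cal0 else cbl0) = m' ∧ (if ol1 = b then cal1 else cbl1) = m' + 1) ∨
      ((if ol0 = b then cal0 else cbl0) = m' + 1 ∧ (if ol1 = b then cal1 else cbl1) = m')) :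
    ∀ b : Bool,
      ((if op0 = b then (if E0 = true then cal0 else cap0)
          else (if E0 = true then cbp0 else cbl0)) = m ∧
        (if op1 = b then (if E1 = true then cal1 else cap1)
          else (if E1 = true then cbp1 else cbl1)) = m + 1) ∨
      ((if op0 = b then (if E0 = true then cal0 else cap0)
          else (if E0 = true then cbp0 else cbl0)) = m + 1 ∧
        (if op1 = b then (if E1 = true then cal1 else cap1)
          else (if E1 = true then cbp1 else cbl1)) = m) := by
  have p0 := hp false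
  have p1 := hp true
  have l0 := hl false
  have l1 := hl true
  intro b
  cases E0 <;> cases E1 <;> cases op0 <;> cases op1 <;> simp at hs <;>
    cases ol0 <;> cases ol1 <;> cases b <;> simp at p0 p1 l0 l1 g0 g1 ⊢ <;> omega

/-- Two neighbours: the arc between them. -/
lemma cons_nb {S : Finset Λ} {p l : Λ} (hp : p ∈ S) (hl : l ∈ S) (hn : Nb sp S p l) {i : Bool}
    (h : sp.k i p < sp.k i l) : sp.Cons i S (some p) (some l) := by
  refine ⟨mem_ins.mpr hp, mem_ins.mpr hl, by simpa using h, ?_⟩
  intro z hz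
  rw [lt_some, lt_some]
  exact (hn i z hz).1

lemma cons_nb' {S : Finset Λ} {p l : Λ} (hp : p ∈ S) (hl : l ∈ S) (hn : Nb sp S p l) {i : Bool}
    (h : sp.k i l < sp.k i p) : sp.Cons i S (some l) (some p) := by
  refine ⟨mem_ins.mpr hl, mem_ins.mpr hp, by simpa using h, ?_⟩
  intro z hz
  rw [lt_some, lt_some]
  exact (hn i z hz).2

/-- The colouring after the removal of `l`. -/
lemma Clr.erase {S : Finset Λ} {cb ca : Bool → Λ → ℕ} {N : ℕ} (h : Clr sp S cb ca N) {p l : Λ}
    (ht : sp.Tw S p l) :
    Clr sp (S.erase l) (fun i x => if x = p ∧ ¬sp.k i p < sp.k i l then cb i l else cb i x)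
      (fun i x => if x = p ∧ sp.k i p < sp.k i l then ca i l else ca i x) N := by
  obtain ⟨hp, hl, hpl, hn, hs⟩ := ht
  have hk : ∀ i, sp.k i p ≠ sp.k i l := fun i h => hpl (sp.inj i h)
  have hE' : ∀ i, ¬sp.k i p < sp.k i l → sp.k i l < sp.k i p := by
    intro i h
    have := hk i
    omega
  refine ⟨?_, ?_, ?_, ?_⟩
  · intro i x hc
    show (if x = p ∧ ¬sp.k i p < sp.k i l then cb i l else cb i x) = N
    by_cases ht : lt (sp.k i) none (some l) ∧ lt (sp.k i) (some l) (some x)
    · obtain ⟨c1, c2⟩ := cons_split sp hl hc ht.1 ht.2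
      by_cases hE : sp.k i p < sp.k i l
      · have := cons_thru_left sp hp hpl hn hc ht.1 ht.2 hE
        simp at this
      · have hx := cons_thru_right sp hp hpl hn hc ht.1 ht.2 (hE' i hE)
        obtain rfl : x = p := by simpa using hx
        rw [if_pos ⟨rfl, hE⟩]
        exact h.h0 i l c1
    · have hc' := cons_of_erase sp hc ht
      rw [if_neg]
      · exact h.h0 i x hc'
      · rintro ⟨rfl, hE⟩
        exact cons_not_right sp hn hc ht (hE' i hE)
  · intro i x hc
    show (if x = p ∧ sp.k i p < sp.k i l then ca i l else ca i x) = 1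
    by_cases ht : lt (sp.k i) (some x) (some l) ∧ lt (sp.k i) (some l) none
    · obtain ⟨c1, c2⟩ := cons_split sp hl hc ht.1 ht.2
      by_cases hE : sp.k i p < sp.k i l
      · have hx := cons_thru_left sp hp hpl hn hc ht.1 ht.2 hE
        obtain rfl : x = p := by simpa using hx
        rw [if_pos ⟨rfl, hE⟩]
        exact h.h1 i l c2
      · have hx := cons_thru_right sp hp hpl hn hc ht.1 ht.2 (hE' i hE)
        simp at hx
    · have hc' := cons_of_erase sp hc ht
      rw [if_neg]
      · exact h.h1 i x hc'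
      · rintro ⟨rfl, hE⟩
        exact cons_not_left sp hn hc ht hE
  · intro i x y hc
    show (if x = p ∧ sp.k i p < sp.k i l then ca i l else ca i x) =
      (if y = p ∧ ¬sp.k i p < sp.k i l then cb i l else cb i y)
    have hlt := hc.2.2.1
    rw [lt_some] at hlt
    by_cases ht : lt (sp.k i) (some x) (some l) ∧ lt (sp.k i) (some l) (some y)
    · obtain ⟨c1, c2⟩ := cons_split sp hl hc ht.1 ht.2
      by_cases hE : sp.k i p < sp.k i l
      · have hx := cons_thru_left sp hp hpl hn hc ht.1 ht.2 hE
        obtain rfl : x = p := by simpa using hx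
        rw [if_pos ⟨rfl, hE⟩, if_neg (by rintro ⟨rfl, -⟩; omega)]
        exact h.h2 i l y c2
      · have hy := cons_thru_right sp hp hpl hn hc ht.1 ht.2 (hE' i hE)
        obtain rfl : y = p := by simpa using hy
        rw [if_neg (by rintro ⟨rfl, -⟩; omega), if_pos ⟨rfl, hE⟩]
        exact h.h2 i x l c1
    · have hc' := cons_of_erase sp hc ht
      rw [if_neg, if_neg]
      · exact h.h2 i x y hc'
      · rintro ⟨rfl, hE⟩
        exact cons_not_right sp hn hc ht (hE' i hE)
      · rintro ⟨rfl, hE⟩
        exact cons_not_left sp hn hc ht hE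
  · intro x hx
    by_cases hxp : x = p
    · subst hxp
      obtain ⟨m, hm⟩ := h.h3 x hp
      obtain ⟨m', hm'⟩ := h.h3 l hl
      refine ⟨m, ?_⟩
      have hk2 := key (decide (sp.k false x < sp.k false l)) (decide (sp.k true x < sp.k true l))
        (sp.o false x) (sp.o true x) (sp.o false l) (sp.o true l)
        (cb false x) (ca false x) (cb false l) (ca false l) (cb true x) (ca true x) (cb true l)
        (ca true l) (by rw [hs, decide_eq_decide])
        ⟨fun hE => h.h2 false x l (cons_nb sp hp hl hn (by simpa using hE)),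
          fun hE => (h.h2 false l x (cons_nb' sp hp hl hn (hE' _ (by simpa using hE)))).symm⟩
        ⟨fun hE => h.h2 true x l (cons_nb sp hp hl hn (by simpa using hE)),
          fun hE => (h.h2 true l x (cons_nb' sp hp hl hn (hE' _ (by simpa using hE)))).symm⟩
        m m' hm hm'
      intro b
      have := hk2 b
      simp only [decide_eq_true_eq] at this
      unfold cv
      simp only [true_and, ite_not]
      exact this
    · obtain ⟨m, hm⟩ := h.h3 x (Finset.mem_of_mem_erase hx)
      refine ⟨m, fun b => ?_⟩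
      have := hm b
      unfold cv at this ⊢
      simp only [hxp, false_and, if_false]
      exact this

/-- **SUM.**  `N ≤ 2` or `S` is a direct sum. -/
theorem sum29 (hST : Stmt_ST) (hL : Stmt_Lift) (N : ℕ) : ∀ (n : ℕ) (S : Finset Λ)
    (cb ca : Bool → Λ → ℕ), S.card = n → S.Nonempty → (¬∃ Z, sp.Gd S Z) → Clr sp S cb ca N →
    N ≤ 2 ∨ ∃ S1 S2 : Finset Λ, S1.Nonempty ∧ S2.Nonempty ∧ S1 ∪ S2 = S ∧
      ∀ x ∈ S1, ∀ y ∈ S2, ∀ i, sp.k i x < sp.k i y := by
  intro n
  induction n with
  | zero =>
    intro S cb ca hc hne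
    rw [Finset.card_eq_zero] at hc
    simp [hc] at hne
  | succ n ih =>
    intro S cb ca hc hne hG hC
    -- a singleton
    have hone : ∀ a ∈ S, S.erase a = ∅ → N ≤ 2 := by
      intro a ha h0
      have hS : ∀ z ∈ S, z = a := by
        intro z hz
        by_contra hza
        have : z ∈ S.erase a := Finset.mem_erase.mpr ⟨hza, hz⟩
        rw [h0] at this
        exact absurd this (Finset.notMem_empty z)
      have c0 : ∀ i, cb i a = N := by
        intro i
        apply hC.h0 i a
        refine ⟨none_ins, mem_ins.mpr ha, lt_none_left _ _, ?_⟩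
        intro z hz
        rw [hS z hz, lt_some]
        omega
      have c1 : ∀ i, ca i a = 1 := by
        intro i
        apply hC.h1 i a
        refine ⟨mem_ins.mpr ha, none_ins, lt_none_right _ _, ?_⟩
        intro z hz
        rw [hS z hz, lt_some]
        omega
      obtain ⟨m, hm⟩ := hC.h3 a ha
      have h1 := hm (sp.o false a)
      unfold cv at h1
      simp only [if_true, c0, c1] at h1
      split_ifs at h1 <;> omega
    rcases hST Λ sp S hne hG with ⟨p, l, ht⟩ | ⟨a, ha, hf⟩ | ⟨a, ha, hf⟩
    · have ht' := ht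
      obtain ⟨hp, hl, hpl, hn, hs⟩ := ht'
      have hG' : ¬∃ Z, sp.Gd (S.erase l) Z := by
        rintro ⟨Z, hZ⟩
        exact hG ⟨Z, (hL Λ sp S Z).1 p l ht hZ⟩
      rcases ih (S.erase l) _ _ (by rw [Finset.card_erase_of_mem hl, hc]; rfl)
        ⟨p, Finset.mem_erase.mpr ⟨hpl, hp⟩⟩ hG' (Clr.erase sp hC ht) with h | ⟨S1, S2, n1, n2, hu, hlt⟩
      · exact Or.inl h
      · right
        have hpu : p ∈ S1 ∪ S2 := by
          rw [hu]
          exact Finset.mem_erase.mpr ⟨hpl, hp⟩
        have hlS1 : ∀ x ∈ S1, x ∈ S ∧ x ≠ l := by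
          intro x hx
          have : x ∈ S.erase l := by
            rw [← hu]
            exact Finset.mem_union_left _ hx
          exact ⟨Finset.mem_of_mem_erase this, Finset.ne_of_mem_erase this⟩
        have hlS2 : ∀ x ∈ S2, x ∈ S ∧ x ≠ l := by
          intro x hx
          have : x ∈ S.erase l := by
            rw [← hu]
            exact Finset.mem_union_right _ hx
          exact ⟨Finset.mem_of_mem_erase this, Finset.ne_of_mem_erase this⟩
        rcases Finset.mem_union.mp hpu with h1 | h2
        · refine ⟨insert l S1, S2, ⟨l, Finset.mem_insert_self _ _⟩, n2, ?_, ?_⟩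
          · rw [Finset.insert_union, hu, Finset.insert_erase hl]
          · intro x hx y hy i
            rcases Finset.mem_insert.mp hx with rfl | hx
            · have e1 := hlt p h1 y hy i
              have e2 := (hn i y (hlS2 y hy).1).1
              have e3 : sp.k i y ≠ sp.k i x := fun h => (hlS2 y hy).2 (sp.inj i h)
              omega
            · exact hlt x hx y hy i
        · refine ⟨S1, insert l S2, n1, ⟨l, Finset.mem_insert_self _ _⟩, ?_, ?_⟩
          · rw [Finset.union_insert, hu, Finset.insert_erase hl]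
          · intro x hx y hy i
            rcases Finset.mem_insert.mp hy with rfl | hy
            · have e1 := hlt x hx p h2 i
              have e2 := (hn i x (hlS1 x hx).1).2
              have e3 : sp.k i x ≠ sp.k i y := fun h => (hlS1 x hx).2 (sp.inj i h)
              omega
            · exact hlt x hx y hy i
    · rcases Finset.eq_empty_or_nonempty (S.erase a) with h0 | h0
      · exact Or.inl (hone a ha h0)
      · refine Or.inr ⟨{a}, S.erase a, ⟨a, by simp⟩, h0, ?_, ?_⟩
        · rw [← Finset.insert_eq, Finset.insert_erase ha]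
        · intro x hx y hy i
          rw [Finset.mem_singleton] at hx
          subst hx
          exact hf y (Finset.mem_of_mem_erase hy) (Finset.ne_of_mem_erase hy) i
    · rcases Finset.eq_empty_or_nonempty (S.erase a) with h0 | h0
      · exact Or.inl (hone a ha h0)
      · refine Or.inr ⟨S.erase a, {a}, h0, ⟨a, by simp⟩, ?_, ?_⟩
        · rw [Finset.union_comm, ← Finset.insert_eq, Finset.insert_erase ha]
        · intro x hx y hy i
          rw [Finset.mem_singleton] at hy
          subst hy
          exact hf x (Finset.mem_of_mem_erase hx) (Finset.ne_of_mem_erase hx) i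

/-- **SUM**, final form. -/
theorem sum (hST : Stmt_ST) (hL : Stmt_Lift) {N : ℕ} {S : Finset Λ} {cb ca : Bool → Λ → ℕ}
    (hne : S.Nonempty) (hG : ¬∃ Z, sp.Gd S Z) (hC : Clr sp S cb ca N) :
    N ≤ 2 ∨ ∃ S1 S2 : Finset Λ, S1.Nonempty ∧ S2.Nonempty ∧ S1 ∪ S2 = S ∧
      ∀ x ∈ S1, ∀ y ∈ S2, ∀ i, sp.k i x < sp.k i y :=
  sum29 sp hST hL N S.card S cb ca rfl hne hG hC

end S29

/-- **SUM** in the form of `Stmt_SUM`. -/
theorem t_SUM (hST : Stmt_ST) : Stmt_SUM := by
  intro Λ _ _ sp S c n hC hG
  rcases Finset.eq_empty_or_nonempty S with rfl | hne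
  · left
    have h1 : sp.Cons false ∅ none none :=
      ⟨SP.none_ins, SP.none_ins, SP.lt_none_left _ _, fun z hz => absurd hz (Finset.notMem_empty z)⟩
    have h2 := hC.last false none h1
    have h3 := hC.root false
    omega
  · have hA := fun i => (t_A1 Λ sp i S).2
    have hpred : ∀ i (x : Λ), ∃ a, x ∈ S → sp.Cons i S a (some x) := by
      intro i x
      by_cases hx : x ∈ S
      · obtain ⟨a, ha, -⟩ := hA i (some x) (SP.mem_ins.mpr hx)
        exact ⟨a, fun _ => ha⟩
      · exact ⟨none, fun h => absurd h hx⟩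
    choose pr hpr using hpred
    have huniq : ∀ i a x, sp.Cons i S a (some x) → a = pr i x := by
      intro i a x h
      have hx : x ∈ S := SP.mem_ins.mp h.2.1
      exact (hA i (some x) h.2.1).unique h (hpr i x hx)
    have hcl : S29.Clr sp S (fun i x => c i (pr i x)) (fun i x => c i (some x)) n := by
      refine ⟨?_, ?_, ?_, ?_⟩
      · intro i x h
        show c i (pr i x) = n
        rw [← huniq i none x h]
        exact hC.root i
      · intro i x h
        exact hC.last i _ h
      · intro i x y h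
        show c i (some x) = c i (pr i y)
        rw [← huniq i _ y h]
      · intro x hx
        obtain ⟨j, -, h1, h2⟩ := hC.step x hx _ _ (hpr false x hx) (hpr true x hx)
        refine ⟨j, fun b => ?_⟩
        unfold S29.cv
        unfold Nb at h1 h2
        cases b <;> cases h3 : sp.o false x <;> cases h4 : sp.o true x <;>
          simp only [h3, h4, if_true, if_false, Bool.false_eq_true, Bool.true_eq_false] at h1 h2 ⊢ <;>
          omega
    rcases S29.sum sp hST t_Lift hne hG hcl with h | ⟨S1, S2, h1, h2, h3, h4⟩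
    · exact Or.inl h
    · exact Or.inr ⟨S1, S2, h1, h2, h3.symm, h4⟩

end Pool.GS
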